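import Mathlib

namespace Pool.Agent.H4.APAsym

open Finset Filter Topology

/-- Monochromatic `k`-term progressions `a, a + d, …, a + (k - 1) d` in `[n]`, as pairs `(a, d)`. -/
def mono {r : ℕ} (k : ℕ) (χ : ℕ → Fin r) (n : ℕ) : Finset (ℕ × ℕ) :=
  (Icc 1 n ×ˢ Icc 1 n).filter fun p =>
    p.1 + (k - 1) * p.2 ≤ n ∧ ∀ j < k, χ (p.1 + j * p.2) = χ p.1

lemma lim (x : ℕ → ℝ) (C : ℝ) (h : ∀ n t : ℕ, 1 ≤ n → 1 ≤ t → |x (t * n) - t ^ 2 * x n| ≤ C * t ^ 2 * n) :
    ∃ δ : ℝ, ∀ n : ℕ, 1 ≤ n → |x n - δ * n ^ 2| ≤ C * n := by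
  set y : ℕ → ℝ := fun n => x (n + 1) / (n + 1) ^ 2 with hy
  have h1 : ∀ n t : ℕ, |x ((t + 1) * (n + 1)) / ((t + 1) * (n + 1)) ^ 2 - y n| ≤ C / (n + 1) := by
    intro n t
    have := h (n + 1) (t + 1) (by omega) (by omega)
    push_cast at this
    rw [show x ((t + 1) * (n + 1)) / ((t + 1) * (n + 1)) ^ 2 - y n = (x ((t + 1) * (n + 1)) -
      (t + 1) ^ 2 * x (n + 1)) / ((t + 1) * (n + 1)) ^ 2 by simp only [hy]; field_simp, abs_div,
      abs_of_pos (a := (((t : ℝ) + 1) * (n + 1)) ^ 2) (by positivity), div_le_iff₀ (by positivity)]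
    refine this.trans (le_of_eq ?_)
    field_simp
  have h2 : ∀ n t : ℕ, |y n - y t| ≤ C / (n + 1) + C / (t + 1) := fun n t => by
    have a := h1 n t
    have b := h1 t n
    rw [mul_comm (n + 1), mul_comm ((n : ℝ) + 1)] at b
    rw [abs_le] at *
    constructor <;> linarith [a.1, a.2, b.1, b.2]
  have t0 : Tendsto (fun n : ℕ => C / ((n : ℝ) + 1)) atTop (𝓝 0) :=
    tendsto_const_nhds.div_atTop (tendsto_natCast_atTop_atTop.atTop_add tendsto_const_nhds)
  have C0 : 0 ≤ C := by simpa using (abs_nonneg _).trans (h 1 1 le_rfl le_rfl)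
  obtain ⟨δ, hδ⟩ := cauchySeq_tendsto_of_complete (u := y) (cauchySeq_of_le_tendsto_0
    (fun N : ℕ => C / ((N : ℝ) + 1) + C / ((N : ℝ) + 1)) (fun n t N hn ht => by
      refine (h2 n t).trans (add_le_add ?_ ?_) <;> gcongr) (by simpa using t0.add t0))
  refine ⟨δ, fun n hn => ?_⟩
  obtain ⟨n, rfl⟩ := Nat.exists_eq_add_of_le' hn
  have := le_of_tendsto_of_tendsto' ((hδ.const_sub (y n)).abs) (t0.const_add (C / (n + 1))) (h2 n)
  rw [add_zero, show y n - δ = (x (n + 1) - δ * (n + 1) ^ 2) / (n + 1) ^ 2 by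
    simp only [hy]; field_simp, abs_div, abs_of_pos (a := ((n : ℝ) + 1) ^ 2) (by positivity),
    div_le_iff₀ (by positivity)] at this
  push_cast
  refine this.trans (le_of_eq ?_)
  field_simp

def ψ (m t A : ℕ) : ℕ := m * (A / m / t) + A % m

def ρ (m t a s : ℕ) : ℕ := m * (t * (a / m) + s) + a % m

lemma ψρ {m t a s : ℕ} (hm : 0 < m) (hs : s < t) : ψ m t (ρ m t a s) = a ∧ ρ m t a s / m % t = s := by
  have : ρ m t a s / m = t * (a / m) + s := by
    rw [ρ, Nat.mul_add_div hm, Nat.div_eq_of_lt (Nat.mod_lt _ hm), add_zero]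
  rw [ψ, this, Nat.mul_add_div (by omega), Nat.div_eq_of_lt hs, Nat.mul_add_mod,
    Nat.mod_eq_of_lt hs]
  simp [ρ, Nat.div_add_mod]

lemma ρψ {m t : ℕ} (hm : 0 < m) (A : ℕ) : ρ m t (ψ m t A) (A / m % t) = A := by
  rw [ρ, ψ, Nat.mul_add_div hm, Nat.div_eq_of_lt (Nat.mod_lt _ hm), add_zero, Nat.div_add_mod,
    Nat.mul_add_mod, Nat.mod_mod, Nat.div_add_mod]

lemma ψ_close {m t : ℕ} (hm : 0 < m) (ht : 0 < t) (A : ℕ) :
    A ≤ t * ψ m t A + t * m ∧ t * ψ m t A ≤ A + t * m := by
  have h1 := Nat.div_add_mod A m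
  have h2 := Nat.div_add_mod (A / m) t
  have h3 := Nat.mod_lt A hm
  have h4 := Nat.mod_lt (A / m) ht
  rw [ψ]
  generalize A / m / t = q at *
  generalize A / m % t = s at *
  generalize A % m = u at *
  rw [← h2] at h1
  subst h1
  constructor <;> nlinarith

def near (E L n x : ℕ) : Prop := L * x % n ≤ E ∨ n ≤ L * x % n + E

instance (E L n x : ℕ) : Decidable (near E L n x) := by unfold near; infer_instance

lemma near_card (E L n q : ℕ) (hL : 0 < L) (hn : 0 < n) :
    ((range (q * n)).filter (near E L n)).card ≤ L * q * (2 * E + 2) := by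
  refine (card_le_card_of_injOn (t := range (L * q) ×ˢ (range (E + 1) ∪ Ico (n - E) n))
    (fun x => (L * x / n, L * x % n)) (fun x hx => ?_) fun x _ y _ h => ?_).trans ?_
  · simp only [coe_filter, mem_range, Set.mem_setOf_eq, near] at hx
    have := Nat.mod_lt (L * x) hn
    simp only [coe_product, Set.mem_prod, coe_range, Set.mem_Iio, coe_union, Set.mem_union, coe_Ico,
      Set.mem_Ico, Nat.div_lt_iff_lt_mul hn]
    exact ⟨by nlinarith [hx.1], by omega⟩
  · simp only [Prod.mk.injEq] at h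
    apply Nat.eq_of_mul_eq_mul_left hL
    rw [← Nat.div_add_mod (L * x) n, h.1, h.2, Nat.div_add_mod]
  · rw [card_product, card_range]
    refine Nat.mul_le_mul_left _ ((card_union_le _ _).trans ?_)
    simp; omega

lemma same {E L n t x X : ℕ} (hn : 0 < n) (ht : 0 < t) (h : ¬near (L * E) L n x)
    (h1 : X ≤ t * x + t * E) (h2 : t * x ≤ X + t * E) :
    L * X / (t * n) = L * x / n ∧ 0 < X ∧ 0 < x ∧ (X ≤ t * n ↔ x ≤ n) := by
  simp only [near, not_or, not_le] at h
  have e := Nat.div_add_mod (L * x) n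
  generalize L * x / n = i at *
  generalize L * x % n = u at *
  have a1 : i * (t * n) < L * X := by nlinarith [Nat.mul_le_mul_left L h2, h.1]
  have a2 : L * X < (i + 1) * (t * n) := by nlinarith [Nat.mul_le_mul_left L h1, h.2]
  have k : ∀ {N X : ℕ}, i * N < L * X → L * X < (i + 1) * N → (X ≤ N ↔ i < L) := fun a b =>
    ⟨fun h => lt_of_mul_lt_mul_right (a.trans_le (Nat.mul_le_mul_left L h)) (Nat.zero_le _),
      fun h => (lt_of_mul_lt_mul_left (b.trans_le (Nat.mul_le_mul_right _ h)) (Nat.zero_le _)).le⟩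
  refine ⟨Nat.div_eq_of_lt_le a1.le a2, Nat.pos_of_ne_zero (by rintro rfl; omega),
    Nat.pos_of_ne_zero (by rintro rfl; omega), ?_⟩
  rw [k a1 a2, k (N := n) (X := x) (by nlinarith) (by nlinarith)]

theorem asym {r k L m : ℕ} (hk : 2 ≤ k) (hL : 0 < L) (hm : 0 < m) (c : ℕ → ℕ → Fin r) :
    ∃ C δ : ℝ, ∀ n : ℕ, 1 ≤ n →
      |((mono k (fun x => c (L * x / n) (x % m)) n).card : ℝ) - δ * n ^ 2| ≤ C * n := by
  set S := fun n => mono k (fun x => c (L * x / n) (x % m)) n with hS
  set K := (m + 2) * (1 + k * (L * (k * (m + 2)) * (2 * (L * (k * m)) + 2))) with hK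
  refine ⟨K, lim (fun n => (S n).card) K fun n t hn ht => ?_⟩
  set B := (range ((m + 2) * n) ×ˢ range ((m + 2) * n)).filter
    fun p => p.2 = 0 ∨ ∃ j < k, near (L * (k * m)) L n (p.1 + j * p.2) with hB
  have cB : B.card ≤ K * n := by
    refine (card_le_card (t := range ((m + 2) * n) ×ˢ {0} ∪ (range k).biUnion fun j =>
      (((range (k * (m + 2) * n)).filter (near (L * (k * m)) L n)) ×ˢ range ((m + 2) * n)).image
        fun p => (p.1 - j * p.2, p.2)) fun p hp => ?_).trans ((card_union_le _ _).trans ?_)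
    · simp only [hB, mem_filter, mem_product, mem_range] at hp
      obtain ⟨⟨h1, h2⟩, h | ⟨j, hj, h⟩⟩ := hp
      · exact mem_union_left _ (mem_product.2 ⟨mem_range.2 h1, mem_singleton.2 h⟩)
      · refine mem_union_right _ (mem_biUnion.2 ⟨j, mem_range.2 hj, mem_image.2
          ⟨(p.1 + j * p.2, p.2), ?_, by simp⟩⟩)
        simp only [mem_filter, mem_product, mem_range, h, h2, and_true]
        nlinarith [Nat.mul_le_mul_left j h2.le]
    · have := card_biUnion_le_card_mul (range k) (fun j => (((range (k * (m + 2) * n)).filter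
        (near (L * (k * m)) L n)) ×ˢ range ((m + 2) * n)).image fun p => (p.1 - j * p.2, p.2)) _
        fun j _ => card_image_le.trans ((card_product _ _).le.trans (Nat.mul_le_mul_right _
          (near_card (L * (k * m)) L n (k * (m + 2)) hL hn)))
      refine (Nat.add_le_add_left this _).trans (le_of_eq ?_)
      simp [hK]; ring
  have key : ∀ A D, ψ m t D ≠ 0 → (∀ j < k, ¬near (L * (k * m)) L n (ψ m t A + j * ψ m t D)) →
      ((A, D) ∈ S (t * n) ↔ (ψ m t A, ψ m t D) ∈ S n) := by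
    intro A D h0 h
    have a := ψ_close hm ht A
    have d := ψ_close hm ht D
    have s := fun j (hj : j < k) => same (X := A + j * D) hn ht (h j hj)
      (by nlinarith [Nat.mul_le_mul_left j d.1, Nat.mul_le_mul_right (t * m) hj])
      (by nlinarith [Nat.mul_le_mul_left j d.2, Nat.mul_le_mul_right (t * m) hj])
    have e : ∀ j < k, c (L * (A + j * D) / (t * n)) ((A + j * D) % m) =
        c (L * (ψ m t A + j * ψ m t D) / n) ((ψ m t A + j * ψ m t D) % m) := fun j hj => by
      rw [(s j hj).1]; congr 1; simp [ψ, Nat.add_mod, Nat.mul_mod]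
    have s0 := s 0 (by omega)
    have e0 := e 0 (by omega)
    have D0 : D ≠ 0 := by rintro rfl; simp [ψ] at h0
    have g : ∀ a d n : ℕ, a + (k - 1) * d ≤ n → a ≤ n ∧ d ≤ n := fun a d n h =>
      ⟨by omega, by nlinarith [Nat.mul_le_mul_right d (show 1 ≤ k - 1 by omega)]⟩
    simp only [zero_mul, add_zero] at s0 e0
    simp only [hS, mono, mem_filter, mem_product, mem_Icc, e0]
    rw [forall₂_congr fun j hj => by rw [e j hj]]
    have := (s (k - 1) (by omega)).2.2.2
    have := g A D (t * n)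
    have := g (ψ m t A) (ψ m t D) n
    constructor <;> rintro ⟨h1, h2, h3⟩ <;> exact ⟨by omega, by omega, h3⟩
  have bd : ∀ A ≤ t * n, ψ m t A < (m + 2) * n := fun A h => by
    have := (ψ_close hm ht A).2
    have : ψ m t A ≤ n + m := Nat.le_of_mul_le_mul_left (by nlinarith) ht
    nlinarith
  have up : (S (t * n)).card ≤ ((S n).card + B.card) * (t * t) := by
    refine (card_le_card_of_injOn (t := (S n ∪ B) ×ˢ (range t ×ˢ range t)) (fun p =>
      ((ψ m t p.1, ψ m t p.2), (p.1 / m % t, p.2 / m % t))) (fun p hp => ?_)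
      fun p _ q _ h => ?_).trans (by
        rw [card_product, card_product, card_range]
        exact Nat.mul_le_mul_right _ (card_union_le _ _))
    · simp only [coe_product, Set.mem_prod, mem_coe, mem_range, mem_union, Nat.mod_lt _ ht, and_true]
      rw [or_iff_not_imp_right]
      intro hb
      have hp' := (mem_filter.1 hp).1
      simp only [mem_product, mem_Icc] at hp'
      simp only [hB, mem_filter, mem_product, mem_range, bd _ hp'.1.2, bd _ hp'.2.2, true_and,
        not_or, not_exists, not_and] at hb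
      exact (key _ _ hb.1 hb.2).1 hp
    · simp only [Prod.mk.injEq] at h
      ext
      · rw [← ρψ (t := t) hm p.1, h.1.1, h.2.1, ρψ hm]
      · rw [← ρψ (t := t) hm p.2, h.1.2, h.2.2, ρψ hm]
  have dn : (S n \ B).card * (t * t) ≤ (S (t * n)).card := by
    refine le_trans (by rw [card_product, card_product, card_range]) (card_le_card_of_injOn
      (s := (S n \ B) ×ˢ (range t ×ˢ range t)) (fun p =>
      (ρ m t p.1.1 p.2.1, ρ m t p.1.2 p.2.2)) (fun p hp => ?_) fun p hp q hq h => ?_)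
    · simp only [coe_product, Set.mem_prod, mem_coe, mem_range, Finset.mem_sdiff] at hp
      obtain ⟨⟨h1, hb⟩, h2, h3⟩ := hp
      have hp' := (mem_filter.1 h1).1
      simp only [mem_product, mem_Icc] at hp'
      have l : ∀ a ≤ n, a < (m + 2) * n := fun a h => by nlinarith
      simp only [hB, mem_filter, mem_product, mem_range, l _ hp'.1.2, l _ hp'.2.2, true_and,
        not_or, not_exists, not_and] at hb
      have := key (ρ m t p.1.1 p.2.1) (ρ m t p.1.2 p.2.2)
      rw [(ψρ hm h2).1, (ψρ hm h3).1] at this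
      exact (this hb.1 hb.2).2 h1
    · simp only [coe_product, Set.mem_prod, mem_coe, mem_range] at hp hq
      simp only [Prod.mk.injEq] at h
      ext
      · rw [← (ψρ (a := p.1.1) hm hp.2.1).1, h.1, (ψρ hm hq.2.1).1]
      · rw [← (ψρ (a := p.1.2) hm hp.2.2).1, h.2, (ψρ hm hq.2.2).1]
      · rw [← (ψρ (a := p.1.1) hm hp.2.1).2, h.1, (ψρ hm hq.2.1).2]
      · rw [← (ψρ (a := p.1.2) hm hp.2.2).2, h.2, (ψρ hm hq.2.2).2]
  have sd := le_card_sdiff B (S n)
  have d2 : (S n).card * (t * t) ≤ (S (t * n)).card + B.card * (t * t) := by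
    nlinarith [Nat.mul_le_mul_right (t * t) (show (S n).card ≤ (S n \ B).card + B.card by omega)]
  have c2 := Nat.mul_le_mul_right (t * t) cB
  rify at up d2 c2
  rw [abs_le]
  constructor <;> nlinarith

end Pool.Agent.H4.APAsym
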