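import Mathlib
import Pool.Agent.H4.APAsym

namespace Pool.Agent.H4.APRand

open Finset

lemma taylor (k : ℕ) : ∃ C : ℝ, 0 < C ∧ ∀ η : ℝ, 0 ≤ η → η ≤ 1 → ∀ y : ℕ → ℝ, (∀ j, |y j| ≤ η) →
    |∑ j ∈ range k, y j| ≤ C * η ∧ |∑ j ∈ range k, ∑ i ∈ range j, y i * y j| ≤ C * η ^ 2 ∧
    |∏ j ∈ range k, (1 + y j) - 1 - ∑ j ∈ range k, y j -
      ∑ j ∈ range k, ∑ i ∈ range j, y i * y j| ≤ C * η ^ 3 := by
  induction k with
  | zero => exact ⟨1, one_pos, fun η h0 _ y _ => by simp [h0, pow_nonneg h0]⟩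
  | succ k ih =>
    obtain ⟨C, hC, h⟩ := ih
    refine ⟨3 * C + 1, by positivity, fun η h0 h1 y hy => ?_⟩
    obtain ⟨a, b, c⟩ := h η h0 h1 y hy
    rw [sum_range_succ, sum_range_succ, prod_range_succ, ← sum_mul]
    generalize ∑ j ∈ range k, y j = S at *
    generalize ∑ j ∈ range k, ∑ i ∈ range j, y i * y j = E at *
    generalize ∏ j ∈ range k, (1 + y j) = P at *
    have t := hy k
    have m1 : |S * y k| ≤ C * η * η := by rw [abs_mul]; gcongr
    have m2 : |E * y k| ≤ C * η ^ 2 * η := by rw [abs_mul]; gcongr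
    have m3 : |(P - 1 - S - E) * y k| ≤ C * η ^ 3 * 1 := by rw [abs_mul]; gcongr; linarith
    have : 0 ≤ η ^ 2 := by positivity
    have : 0 ≤ η ^ 3 := by positivity
    have : 0 ≤ C * η := by positivity
    have : 0 ≤ C * η ^ 2 := by positivity
    simp only [abs_le] at *
    refine ⟨⟨?_, ?_⟩, ⟨?_, ?_⟩, ?_, ?_⟩ <;> nlinarith [a.1, a.2, b.1, b.2, c.1, c.2, t.1, t.2]

lemma expect {ι : Type*} [Fintype ι] [DecidableEq ι] {r k : ℕ} (p : ι → Fin r → ℝ)
    (h1 : ∀ u, ∑ i, p u i = 1) (v : ℕ → ι) (hv : Set.InjOn v (range k)) (i : Fin r) :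
    ∑ c : ι → Fin r, (∏ u, p u (c u)) * (if ∀ j < k, c (v j) = i then 1 else 0) =
      ∏ j ∈ range k, p (v j) i := by
  rw [← prod_image (f := fun u => p u i) hv, ← prod_ite_mem_eq,
    prod_congr rfl (g := fun u => ∑ t, p u t * if u ∈ (range k).image v → t = i then 1 else 0)
      fun u _ => by by_cases h : u ∈ (range k).image v <;> simp only [h, if_true, if_false] <;>
        simp [h1], prod_univ_sum, Fintype.piFinset_univ]
  refine sum_congr rfl fun c _ => ?_
  rw [prod_mul_distrib, prod_boole]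
  simp

lemma blocks (φ : ℕ → ℝ) {w : ℕ} (hw : 0 < w) (M : ℕ) :
    ∑ t ∈ range (M * w), φ (t / w) = w * ∑ b ∈ range M, φ b := by
  induction M with
  | zero => simp
  | succ M ih =>
    rw [add_mul, one_mul, sum_range_add, ih, sum_range_succ, mul_add,
      sum_congr (s₁ := range w) rfl (g := fun _ => φ M) fun t ht => by
        rw [mul_comm, Nat.mul_add_div hw, Nat.div_eq_of_lt (mem_range.1 ht), add_zero]]
    simp

lemma tele (f : ℕ → ℝ) {D N : ℕ} (hD : 0 < D) (h0 : ∀ x, N ≤ x → f x = 0)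
    (hs : ∀ s < D, ∑ t ∈ range N, f (s + D * t) = 0) :
    ∑ x ∈ range N, ∑ d ∈ range N, f x * f (x + D * (d + 1)) ≤ 0 := by
  set F := fun x => ∑ t ∈ range N, f (x + D * t) with hF
  have e : ∀ x, F x = f x + F (x + D) := fun x => by
    have := sum_range_succ' (fun t => f (x + D * t)) N
    rw [sum_range_succ, h0 _ (by nlinarith)] at this
    simp only [hF, add_assoc x D, show ∀ t, D + D * t = D * (t + 1) from fun t => by ring]
    simpa [add_comm] using this
  have a := sum_range_add (fun x => F x ^ 2) D N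
  have b := sum_range_add (fun x => F x ^ 2) N D
  have c : ∑ x ∈ range D, F x ^ 2 = 0 := sum_eq_zero fun s h => by
    simp only [hF, hs s (mem_range.1 h)]; simp
  have d : 0 ≤ ∑ x ∈ range D, F (N + x) ^ 2 := by positivity
  have g : ∑ x ∈ range N, (2 * ∑ d ∈ range N, f x * f (x + D * (d + 1)) + F (D + x) ^ 2) ≤
      ∑ x ∈ range N, F x ^ 2 := sum_le_sum fun x _ => by
    rw [← mul_sum, e x, add_comm D x]
    simp only [hF, add_assoc x D, show ∀ t, D + D * t = D * (t + 1) from fun t => by ring]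
    nlinarith [sq_nonneg (f x)]
  rw [sum_add_distrib, ← mul_sum] at g
  rw [add_comm D N] at a
  linarith

def φ (h b : ℕ) : ℝ := (if b = 4 * h then 1 else 0) - 2 * (if b = 4 * h + 3 then 1 else 0) +
  if b = 4 * h + 6 then 1 else 0

def V (h n : ℕ) : Finset (ℕ × ℕ) := (Icc 1 n ×ˢ Icc 1 n).filter fun p => p.1 + (h + 1) * p.2 ≤ n

lemma φ_abs (h b : ℕ) : |φ h b| ≤ 2 := by
  unfold φ; split_ifs <;> first | omega | norm_num

lemma φ_neg {h a b : ℕ} (H : φ h a * φ h b < 0) : 4 * h ≤ a ∧ a ≤ 4 * h + 6 ∧ b ≤ a + 3 := by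
  unfold φ at H; split_ifs at H <;> first | omega | norm_num at H

lemma quad {h i D w : ℕ} (hh : 0 < h) (hD : 0 < D) (hi : i + D ≤ h + 1) (hw : 0 < w) (hd : D ∣ w) :
    ∑ p ∈ V h ((8 * h + 11) * w), φ h ((p.1 + i * p.2) / w) * φ h ((p.1 + (i + D) * p.2) / w) ≤
      if i = h then -(w : ℝ) ^ 2 else 0 := by
  set n := (8 * h + 11) * w with hn
  have T := tele (fun x => φ h (x / w)) (N := n) hD (fun x hx => by
    have := (Nat.le_div_iff_mul_le hw).2 hx
    unfold φ; split_ifs <;> first | omega | norm_num) fun s hs => by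
      obtain ⟨u, rfl⟩ := hd
      have hu : 0 < u := Nat.pos_of_mul_pos_left hw
      have : 8 * h + 11 ≤ (8 * h + 11) * D := Nat.le_mul_of_pos_right _ hD
      simp only [← Nat.div_div_eq_div_mul, Nat.add_mul_div_left _ _ hD, Nat.div_eq_of_lt hs,
        zero_add, hn, ← mul_assoc, blocks (φ h) hu]
      simp only [φ, sum_add_distrib, sum_sub_distrib, ← mul_sum, sum_ite_eq', mem_range]
      rw [if_pos (by omega), if_pos (by omega), if_pos (by omega)]
      norm_num
  rw [← sum_product', ← sum_filter_add_sum_filter_not _ fun q : ℕ × ℕ =>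
    i * (q.2 + 1) < q.1 ∧ q.1 + D * (q.2 + 1) + (h + 1 - (i + D)) * (q.2 + 1) ≤ n] at T
  obtain ⟨e, he⟩ := Nat.exists_eq_add_of_le hi
  rw [show h + 1 - (i + D) = e by omega] at T
  have nn : ∀ q ∈ (range n ×ˢ range n).filter fun q : ℕ × ℕ =>
      ¬(i * (q.2 + 1) < q.1 ∧ q.1 + D * (q.2 + 1) + e * (q.2 + 1) ≤ n),
      0 ≤ φ h (q.1 / w) * φ h ((q.1 + D * (q.2 + 1)) / w) := fun q hq => by
    by_contra H
    obtain ⟨a, b, c⟩ := φ_neg (not_le.1 H)
    rw [Nat.le_div_iff_mul_le hw] at a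
    rw [← Nat.lt_succ_iff, Nat.div_lt_iff_lt_mul hw] at b c
    have := Nat.div_mul_le_self q.1 w
    have : q.2 + 1 ≤ D * (q.2 + 1) := Nat.le_mul_of_pos_left _ hD
    have t : q.2 + 1 < 4 * w := by simp only [Nat.succ_eq_add_one] at c; nlinarith
    refine (mem_filter.1 hq).2 ⟨by nlinarith [Nat.mul_le_mul_right (q.2 + 1) (show i ≤ h by omega)], ?_⟩
    simp only [Nat.succ_eq_add_one] at b
    nlinarith [Nat.mul_le_mul (show D + e ≤ h + 1 by omega) t.le]
  rw [sum_nbij' (t := (range n ×ˢ range n).filter fun q : ℕ × ℕ =>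
      i * (q.2 + 1) < q.1 ∧ q.1 + D * (q.2 + 1) + e * (q.2 + 1) ≤ n)
    (g := fun q => φ h (q.1 / w) * φ h ((q.1 + D * (q.2 + 1)) / w))
    (fun p => (p.1 + i * p.2, p.2 - 1)) (fun q => (q.1 - i * (q.2 + 1), q.2 + 1))]
  · split_ifs with H
    · subst H
      obtain rfl : D = 1 := by omega
      have := sum_le_sum_of_subset_of_nonneg (s := (range w ×ˢ range w).image fun s =>
        (4 * i * w + s.1, 6 * w + s.2 - s.1 - 1)) (fun q hq => ?_) fun q hq _ => nn q hq
      · rw [sum_image fun s hs t ht e => by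
          simp only [coe_product, Set.mem_prod, mem_coe, mem_range, Prod.mk.injEq] at hs ht e
          ext <;> omega, sum_congr rfl (g := fun _ => 1) fun s hs => by
            simp only [mem_product, mem_range] at hs
            rw [show 4 * i * w + s.1 + 1 * (6 * w + s.2 - s.1 - 1 + 1) = s.2 + (4 * i + 6) * w by
              rw [add_mul]; omega, add_comm _ s.1, Nat.add_mul_div_right _ _ hw,
              Nat.add_mul_div_right _ _ hw, Nat.div_eq_of_lt hs.1, Nat.div_eq_of_lt hs.2]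
            simp [φ]] at this
        rw [sum_const, card_product, card_range, nsmul_eq_mul] at this
        push_cast at this
        linarith
      · obtain ⟨s, hs, rfl⟩ := mem_image.1 hq
        simp only [mem_product, mem_range, mem_filter] at hs ⊢
        have : 5 * w ≤ 6 * w + s.2 - s.1 - 1 + 1 := by omega
        refine ⟨⟨by nlinarith, by have : 11 * w ≤ n := by nlinarith
                                  omega⟩, fun H => ?_⟩
        nlinarith [H.1, Nat.mul_le_mul_left i this]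
    · linarith [sum_nonneg nn]
  · rintro ⟨a, d⟩ hp
    simp only [V, mem_filter, mem_product, mem_Icc, mem_range, he] at hp ⊢
    obtain ⟨d, rfl⟩ := Nat.exists_eq_add_of_le' hp.1.2.1
    simp only [add_tsub_cancel_right]
    refine ⟨⟨by nlinarith, by omega⟩, by omega, by nlinarith⟩
  · rintro ⟨x, d⟩ hp
    simp only [V, mem_filter, mem_product, mem_Icc, mem_range, he, add_mul] at hp ⊢
    omega
  · rintro ⟨a, d⟩ hp
    simp only [V, mem_filter, mem_product, mem_Icc] at hp
    obtain ⟨d, rfl⟩ := Nat.exists_eq_add_of_le' hp.1.2.1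
    simp
  · rintro ⟨x, d⟩ hp
    simp only [mem_filter] at hp
    simp [Nat.sub_add_cancel hp.2.1.le]
  · rintro ⟨a, d⟩ hp
    simp only [V, mem_filter, mem_product, mem_Icc] at hp
    obtain ⟨d, rfl⟩ := Nat.exists_eq_add_of_le' hp.1.2.1
    simp only [add_tsub_cancel_right, add_mul i D, add_assoc]

lemma V_card (h n : ℕ) : 2 * (h + 1) * (V h n).card ≤ n ^ 2 := by
  have a : (V h n).card ≤ ((range n).sigma fun y => range (y / (h + 1))).card :=
    card_le_card_of_injOn (fun p => ⟨p.1 + (h + 1) * p.2 - 1, p.2 - 1⟩) (fun p hp => by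
      simp only [V, coe_filter, mem_product, mem_Icc, Set.mem_setOf_eq] at hp
      simp only [mem_coe, mem_sigma, mem_range]
      refine ⟨by omega, ?_⟩
      rw [Nat.lt_iff_add_one_le, Nat.le_div_iff_mul_le h.succ_pos, Nat.sub_add_cancel hp.1.2.1,
        mul_comm, Nat.succ_eq_add_one]
      omega) fun p hp q hq e => by
      simp only [V, coe_filter, mem_product, mem_Icc, Set.mem_setOf_eq] at hp hq
      simp only [Sigma.mk.injEq, heq_eq_eq] at e
      have : p.2 = q.2 := by omega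
      rw [this] at e
      ext <;> omega
  have b : (h + 1) * ∑ y ∈ range n, y / (h + 1) ≤ ∑ y ∈ range n, y := by
    rw [mul_sum]; exact sum_le_sum fun y _ => Nat.mul_div_le _ _
  have c := sum_range_id_mul_two n
  simp only [card_sigma, card_range] at a
  nlinarith [Nat.mul_le_mul_left (h + 1) a, Nat.mul_le_mul_left n (Nat.sub_le n 1)]

open APAsym in
lemma core {h r : ℕ} (hh : 0 < h) : ∃ ε : ℝ, 0 < ε ∧ ∃ (L m : ℕ) (W : (ZMod (L + 2) × ZMod (m + 1) →
    Fin (r + 2)) → ℝ), (∀ c, 0 ≤ W c) ∧ ∑ c, W c = 1 ∧ ∀ w : ℕ, 0 < w → (h + 1).factorial ∣ w →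
    ∑ c, W c * (mono (h + 2) (fun x => c (((L + 1) * x / ((L + 1) * w) : ℕ), (x % (m + 1) : ℕ)))
      ((L + 1) * w)).card ≤ (1 / (2 * (h + 1) * (r + 2) ^ (h + 1)) - ε) * ((L + 1) * w : ℕ) ^ 2 := by
  obtain ⟨C, hC, tay⟩ := taylor (h + 2)
  set R : ℝ := r + 2 with hR
  set L : ℝ := ((8 * h + 11 : ℕ) : ℝ) with hL
  have L0 : 0 < L := by rw [hL]; positivity
  obtain ⟨θ, θ0, θ1, θ2⟩ : ∃ θ : ℝ, 0 < θ ∧ 2 * θ ≤ 1 ∧ 8 * C * R * L ^ 2 * θ ≤ 1 :=
    ⟨min (1 / 2) (1 / (8 * C * R * L ^ 2)), by positivity, 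
      (le_div_iff₀' two_pos).1 (min_le_left _ _), by rw [← le_div_iff₀' (by positivity)]; exact min_le_right _ _⟩
  set ε := θ ^ 2 / (2 * R ^ (h + 2) * L ^ 2) with hε
  obtain ⟨m, hm, mp⟩ := Nat.exists_infinite_primes (⌈1 / ε⌉₊ + h + 2)
  obtain ⟨m, rfl⟩ := Nat.exists_eq_add_of_le' mp.one_le
  haveI := Fact.mk mp
  set σ : Fin (r + 2) → ℝ := Fin.cons 1 (Fin.cons (-1) 0) with hσ
  have s0 : ∑ i, σ i = 0 := by simp [hσ, Fin.sum_univ_succ]
  have s2 : ∑ i, σ i ^ 2 = 2 := by simp [hσ, Fin.sum_univ_succ]; norm_num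
  have s1 : ∀ i, |σ i| ≤ 1 := fun i => by
    refine Fin.cases (by simp [hσ]) (fun i => Fin.cases (by simp [hσ]) (fun i => by simp [hσ]) i) i
  have yb : ∀ b i, |θ * σ i * φ h b| ≤ 2 * θ := fun b i => by
    rw [abs_mul, abs_mul, abs_of_pos θ0]
    nlinarith [mul_le_mul (s1 i) (φ_abs h b) (abs_nonneg _) zero_le_one]
  set p : ZMod (8 * h + 10 + 2) × ZMod (m + 1) → Fin (r + 2) → ℝ :=
    fun u i => (1 + θ * σ i * φ h u.1.val) / R with hp
  have p0 : ∀ u i, 0 ≤ p u i := fun u i =>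
    div_nonneg (by linarith [(abs_le.1 (yb u.1.val i)).1]) (by positivity)
  have p1 : ∀ u, ∑ i, p u i = 1 := fun u => by
    simp only [hp, ← sum_div, sum_add_distrib, ← sum_mul, ← mul_sum, s0]
    simp [hR]; positivity
  have W1 : ∑ c : _ → Fin (r + 2), ∏ u, p u (c u) = 1 := by
    rw [← Fintype.piFinset_univ, ← prod_univ_sum]; simp [p1]
  refine ⟨ε, by positivity, 8 * h + 10, m, fun c => ∏ u, p u (c u),
    fun c => prod_nonneg fun u _ => p0 _ _, W1, fun w hw hd => ?_⟩
  set n := (8 * h + 11) * w with hn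
  have one : ∀ q ∈ V h n, ∑ c : _ → Fin (r + 2), (∏ u, p u (c u)) * (if ∀ j < h + 2,
      c (((q.1 + j * q.2) / w : ℕ), ((q.1 + j * q.2) % (m + 1) : ℕ)) =
      c ((q.1 / w : ℕ), (q.1 % (m + 1) : ℕ)) then 1 else 0) ≤ (R + 8 * C * R * θ ^ 3) / R ^ (h + 2) +
      2 * θ ^ 2 / R ^ (h + 2) * (∑ j ∈ range (h + 2), ∑ i ∈ range j, φ h ((q.1 + i * q.2) / w) *
        φ h ((q.1 + j * q.2) / w)) + if m + 1 ∣ q.2 then 1 else 0 := by
    intro q hq
    set v : ℕ → ZMod (8 * h + 10 + 2) × ZMod (m + 1) :=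
      fun j => (((q.1 + j * q.2) / w : ℕ), ((q.1 + j * q.2) % (m + 1) : ℕ)) with hv
    have main : ∑ i, ∏ j ∈ range (h + 2), p (v j) i ≤ (R + 8 * C * R * θ ^ 3) / R ^ (h + 2) +
      2 * θ ^ 2 / R ^ (h + 2) * (∑ j ∈ range (h + 2), ∑ i ∈ range j, φ h ((q.1 + i * q.2) / w) *
        φ h ((q.1 + j * q.2) / w)) := by
      set E := ∑ j ∈ range (h + 2), ∑ i ∈ range j, φ h ((q.1 + i * q.2) / w) *
        φ h ((q.1 + j * q.2) / w) with hE
      refine (sum_le_sum (g := fun i => (1 + C * (2 * θ) ^ 3 + θ * (∑ j ∈ range (h + 2),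
        φ h ((q.1 + j * q.2) / w)) * σ i + θ ^ 2 * E * σ i ^ 2) / R ^ (h + 2)) fun i _ => ?_).trans
        (le_of_eq ?_)
      · have := (abs_le.1 (tay (2 * θ) (by positivity) θ1
          (fun j => θ * σ i * φ h ((q.1 + j * q.2) / w)) fun j => yb _ i).2.2).2
        rw [prod_congr rfl (g := fun j => (1 + θ * σ i * φ h ((q.1 + j * q.2) / w)) / R)
          fun j hj => ?_, prod_div_distrib, prod_const, card_range]
        · gcongr
          rw [show ∑ j ∈ range (h + 2), ∑ t ∈ range j, θ * σ i * φ h ((q.1 + t * q.2) / w) *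
            (θ * σ i * φ h ((q.1 + j * q.2) / w)) = (θ * σ i) ^ 2 * E by
              simp only [hE, mul_sum]
              exact sum_congr rfl fun _ _ => sum_congr rfl fun _ _ => by ring, ← mul_sum] at this
          linarith
        · simp only [hp, hv]
          rw [ZMod.val_cast_of_lt]
          rw [Nat.div_lt_iff_lt_mul hw]
          have := (mem_filter.1 hq).2
          nlinarith [Nat.mul_le_mul_right q.2 (Nat.lt_succ_iff.1 (mem_range.1 hj))]
      · simp only [← sum_div, sum_add_distrib, ← mul_sum, s0, s2, sum_const, card_univ,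
          Fintype.card_fin, nsmul_eq_mul]
        push_cast
        rw [← hR]
        ring
    by_cases hq : m + 1 ∣ q.2
    · rw [if_pos hq]
      refine le_add_of_nonneg_of_le ((sum_nonneg fun i _ => prod_nonneg fun j _ => p0 _ _).trans main)
        ((sum_le_sum fun c _ => ?_).trans W1.le)
      split_ifs
      · exact (mul_one _).le
      · exact (mul_zero _).le.trans (prod_nonneg fun u _ => p0 _ _)
    · have inj : Set.InjOn v (range (h + 2)) := fun i hi j hj e => by
        have := congrArg Prod.snd e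
        simp only [hv, ZMod.natCast_mod, Nat.cast_add, Nat.cast_mul, add_right_inj] at this
        have := mul_right_cancel₀ (fun H => hq ((ZMod.natCast_eq_zero_iff _ _).1 H)) this
        simp only [coe_range, Set.mem_Iio] at hi hj
        rw [← ZMod.val_cast_of_lt (show i < m + 1 by omega), this, ZMod.val_cast_of_lt (by omega)]
      rw [if_neg hq, add_zero]
      refine le_trans ?_ main
      simp only [← expect p p1 v inj]
      rw [sum_comm]
      refine sum_le_sum fun c _ => ?_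
      rw [← mul_sum]
      refine mul_le_mul_of_nonneg_left ?_ (prod_nonneg fun u _ => p0 _ _)
      split_ifs with H
      · refine le_trans ?_ (single_le_sum (fun i _ => by positivity) (mem_univ (c (v 0))))
        rw [if_pos]
        simpa [hv] using H
      · positivity
  have qd : ∑ q ∈ V h n, ∑ j ∈ range (h + 2), ∑ i ∈ range j, φ h ((q.1 + i * q.2) / w) *
      φ h ((q.1 + j * q.2) / w) ≤ -(w : ℝ) ^ 2 := by
    rw [sum_comm]
    refine (sum_le_sum (g := fun j => ∑ i ∈ range j, if i = h then -(w : ℝ) ^ 2 else 0)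
      fun j hj => ?_).trans ?_
    · rw [sum_comm]
      refine sum_le_sum fun i hi => ?_
      obtain ⟨D, rfl⟩ := Nat.exists_eq_add_of_le (mem_range.1 hi).le
      simp only [mem_range] at hi hj
      exact quad hh (by omega) (by omega) hw ((Nat.dvd_factorial (by omega) (by omega)).trans hd)
    · rw [sum_range_succ, sum_eq_zero fun j hj => sum_eq_zero fun i hi =>
        if_neg (by simp only [mem_range] at hi hj; omega)]
      simp
  have dv : ∑ q ∈ V h n, (if m + 1 ∣ q.2 then 1 else 0 : ℝ) ≤ ε * n ^ 2 := by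
    have : ((V h n).filter fun q => m + 1 ∣ q.2).card ≤ n * (n / (m + 1)) := by
      refine (card_le_card (t := Icc 1 n ×ˢ (Ioc 0 n).filter fun d => m + 1 ∣ d) fun q hq => ?_).trans
        (by rw [card_product, Nat.Ioc_filter_dvd_card_eq_div]; simp)
      simp only [V, mem_filter, mem_product, mem_Icc, mem_Ioc] at hq ⊢
      omega
    have e : 1 / ε ≤ (m + 1 : ℕ) := (Nat.le_ceil _).trans (Nat.cast_le.2 (by omega))
    rw [div_le_iff₀ (by positivity)] at e
    have f : ((n / (m + 1) : ℕ) : ℝ) * (m + 1 : ℕ) ≤ n := by exact_mod_cast Nat.div_mul_le_self _ _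
    have g : ((n / (m + 1) : ℕ) : ℝ) ≤ ε * n := by
      nlinarith [mul_le_mul_of_nonneg_left e (Nat.cast_nonneg (n / (m + 1))),
        mul_le_mul_of_nonneg_left f (show 0 ≤ ε by positivity)]
    rw [sum_boole]
    refine (Nat.cast_le.2 this).trans ?_
    rw [Nat.cast_mul]
    nlinarith [mul_le_mul_of_nonneg_left g (Nat.cast_nonneg n)]
  have := sum_le_sum one
  rw [sum_comm, sum_add_distrib, sum_add_distrib, ← mul_sum, sum_const, nsmul_eq_mul] at this
  refine le_trans (le_of_eq (sum_congr rfl fun c _ => ?_)) (this.trans ?_)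
  · rw [← mul_sum, sum_boole, V, filter_filter, mono]
    simp only [hn, Nat.mul_div_mul_left _ _ (show 0 < 8 * h + 10 + 1 by omega)]
    rfl
  · have a : 2 * (h + 1) * ((V h n).card : ℝ) ≤ n ^ 2 := by exact_mod_cast V_card h n
    have b : ((V h n).card : ℝ) ≤ (L * w) ^ 2 := by
      have : (n : ℝ) = L * w := by simp [hn, hL]
      rw [← this]
      exact (le_mul_of_one_le_left (Nat.cast_nonneg _) (by linarith [Nat.cast_nonneg (α := ℝ) h])).trans a
    have c : ((V h n).card : ℝ) * (R / R ^ (h + 2)) ≤ 1 / (2 * (h + 1) * R ^ (h + 1)) * n ^ 2 := by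
      rw [pow_succ R (h + 1), div_mul_cancel_right₀ (by positivity), one_div_mul_eq_div,
        le_div_iff₀ (by positivity)]
      refine le_trans (le_of_eq ?_) a
      have : R ≠ 0 := by positivity
      field_simp
    have d : ((V h n).card : ℝ) * (8 * C * R * θ ^ 3 / R ^ (h + 2)) ≤ θ ^ 2 / R ^ (h + 2) * w ^ 2 := by
      refine (mul_le_mul_of_nonneg_right b (by positivity)).trans ?_
      rw [show (L * w) ^ 2 * (8 * C * R * θ ^ 3 / R ^ (h + 2)) =
        8 * C * R * L ^ 2 * θ * (θ ^ 2 / R ^ (h + 2) * w ^ 2) by ring]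
      exact mul_le_of_le_one_left (by positivity) θ2
    have e : ε * n ^ 2 = θ ^ 2 / R ^ (h + 2) * w ^ 2 / 2 := by
      rw [hε, show (n : ℝ) = L * w by simp [hn, hL]]; field_simp
    have f := mul_le_mul_of_nonneg_left qd (show 0 ≤ 2 * θ ^ 2 / R ^ (h + 2) by positivity)
    change _ ≤ (_ - ε) * (n : ℝ) ^ 2
    rw [add_div, mul_add, sub_mul]
    have : 2 * θ ^ 2 / R ^ (h + 2) * -(w : ℝ) ^ 2 = -2 * (θ ^ 2 / R ^ (h + 2) * w ^ 2) := by ring
    linarith

end Pool.Agent.H4.APRand
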