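import Mathlib

set_option autoImplicit false

namespace Pool.Agent.H4.AR

open Complex ComplexConjugate

def A (z w : ℂ) : Prop := ‖z‖ ^ 2 + ‖w‖ ^ 2 - ‖z‖ * ‖w‖ ≤ ‖z - w‖ ^ 2

def Pl (z δ : ℂ) : Prop := ∃ t : ℝ, z = t * δ

lemma A_iff {z w : ℂ} : A z w ↔ 2 * (z.re * w.re + z.im * w.im) ≤ ‖z‖ * ‖w‖ := by
  simp only [A, Complex.sq_norm, normSq_apply, sub_re, sub_im]
  constructor <;> intro h <;> linarith

lemma A.symm {z w : ℂ} (h : A z w) : A w z := by
  rw [A_iff] at *; linarith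

lemma A.mul {z w : ℂ} (h : A z w) (c : ℂ) : A (z * c) (w * c) := by
  unfold A at *
  rw [← sub_mul, norm_mul, norm_mul, norm_mul]
  nlinarith [mul_le_mul_of_nonneg_right h (sq_nonneg ‖c‖)]

lemma A.scale {z w : ℂ} (h : A z w) {t : ℝ} (ht : 0 ≤ t) : A (t * z) w := by
  rw [A_iff] at *
  simp only [norm_mul, norm_real, Real.norm_of_nonneg ht, re_ofReal_mul, im_ofReal_mul]
  nlinarith [mul_le_mul_of_nonneg_left h ht]

lemma angle_iff {z w : ℂ} (hz : z ≠ 0) (hw : w ≠ 0) :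
    Real.pi / 3 ≤ InnerProductGeometry.angle z w ↔ A z w := by
  have h0 : 0 < ‖z‖ * ‖w‖ := mul_pos (norm_pos_iff.2 hz) (norm_pos_iff.2 hw)
  have h1 := abs_le.1 (abs_real_inner_div_norm_mul_norm_le_one z w)
  rw [← Real.arccos_cos (x := Real.pi / 3) (by positivity) (by linarith [Real.pi_pos]), Real.cos_pi_div_three,
    InnerProductGeometry.angle, Real.strictAntiOn_arccos.le_iff_ge (by norm_num) h1, div_le_iff₀ h0, A_iff,
    Complex.inner]
  simp only [mul_re, conj_re, conj_im]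
  constructor <;> intro h <;> linarith

lemma Pl.trans {a b c : ℂ} (h : Pl a b) (h' : Pl b c) : Pl a c := by
  obtain ⟨s, rfl⟩ := h
  obtain ⟨t, rfl⟩ := h'
  exact ⟨s * t, by push_cast; ring⟩

lemma Pl.symm {a b : ℂ} (h : Pl a b) (h0 : a ≠ 0) : Pl b a := by
  obtain ⟨s, rfl⟩ := h
  have : (s : ℂ) ≠ 0 := left_ne_zero_of_mul h0
  exact ⟨s⁻¹, by push_cast; field_simp⟩

lemma Pl.neg {a b : ℂ} (h : Pl a b) : Pl (-a) b := by
  obtain ⟨s, rfl⟩ := h
  exact ⟨-s, by push_cast; ring⟩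

lemma Pl.add {a b c : ℂ} (h : Pl a c) (h' : Pl b c) : Pl (a + b) c := by
  obtain ⟨s, rfl⟩ := h
  obtain ⟨t, rfl⟩ := h'
  exact ⟨s + t, by push_cast; ring⟩

lemma three {a b c ν : ℂ} (ha : a ≠ 0) (hb : b ≠ 0) (hc : c ≠ 0) (h1 : Pl a ν) (h2 : Pl b ν) (h3 : Pl c ν)
    (ab : A a b) (ac : A a c) (bc : A b c) : False := by
  have key : ∀ s t : ℝ, (s * ν : ℂ) ≠ 0 → (t * ν : ℂ) ≠ 0 → A (s * ν) (t * ν) → s * t < 0 := fun s t hs ht h => by
    have hν := right_ne_zero_of_mul hs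
    have := h.mul ν⁻¹
    rw [mul_inv_cancel_right₀ hν, mul_inv_cancel_right₀ hν, A_iff] at this
    simp only [ofReal_re, ofReal_im, norm_real, Real.norm_eq_abs, ← abs_mul, mul_zero, add_zero] at this
    have h0 : s * t ≠ 0 := mul_ne_zero (by simpa using left_ne_zero_of_mul hs) (by simpa using left_ne_zero_of_mul ht)
    by_contra h'
    have := lt_of_le_of_ne (not_lt.1 h') h0.symm
    rw [abs_of_pos this] at *
    linarith
  obtain ⟨r, rfl⟩ := h1
  obtain ⟨s, rfl⟩ := h2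
  obtain ⟨t, rfl⟩ := h3
  have := mul_pos_of_neg_of_neg (key _ _ ha hb ab) (key _ _ ha hc ac)
  nlinarith [key _ _ hb hc bc, sq_nonneg r]

lemma tri {a b c : ℂ} (hab : a ≠ b) (h1 : A (b - a) (c - a)) (h2 : A (a - b) (c - b)) (h3 : A (a - c) (b - c)) :
    a ^ 2 + b ^ 2 + c ^ 2 = a * b + b * c + c * a := by
  unfold A at *
  rw [sub_sub_sub_cancel_right] at h1 h2 h3
  rw [norm_sub_rev a b, norm_sub_rev c b, norm_sub_rev a c] at *
  have e1 : ‖c - a‖ = ‖b - a‖ := by nlinarith [sq_nonneg (‖c - a‖ - ‖b - c‖), sq_nonneg (‖b - a‖ - ‖b - c‖)]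
  have e2 : ‖b - c‖ = ‖b - a‖ := by nlinarith [sq_nonneg (‖c - a‖ - ‖b - c‖), sq_nonneg (‖b - a‖ - ‖c - a‖)]
  have f := fun z : ℂ => mul_conj' z
  have f1 := f (b - a)
  have f2 := f (c - a)
  have f3 := f (b - c)
  rw [e1] at f2
  rw [e2] at f3
  have d0 : b - a ≠ 0 := sub_ne_zero.2 hab.symm
  have e0 : c - a ≠ 0 := norm_ne_zero_iff.1 (e1 ▸ norm_ne_zero_iff.2 d0)
  rw [show b - c = (b - a) - (c - a) by ring, map_sub (starRingEnd ℂ) (b - a)] at f3
  refine mul_right_cancel₀ (mul_ne_zero ((map_ne_zero (starRingEnd ℂ)).2 d0) ((map_ne_zero (starRingEnd ℂ)).2 e0)) ?_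
  generalize conj (b - a) = d', conj (c - a) = e', ((‖b - a‖ : ℂ)) ^ 2 = N at *
  linear_combination ((c - a) * d' - (b - a) * d' + N) * f2 + ((b - a) * e') * f1 - N * f3

lemma ray {α β z : ℂ} (h0 : α ≠ 0) (h : β ^ 2 - α * β + α ^ 2 = 0) (h1 : A z β) (h2 : A z (β - α))
    (h3 : A z (-β)) (h4 : A z (α - β)) : Pl z α := by
  obtain ⟨ρ, rfl⟩ : ∃ ρ, β = ρ * α := ⟨β / α, by field_simp⟩
  obtain ⟨r, rfl⟩ : ∃ r, z = r * α := ⟨z / α, by field_simp⟩
  have k : ∀ w, A (r * α) (w * α) → A r w := fun w h => by simpa [h0] using h.mul α⁻¹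
  have h' : ρ ^ 2 - ρ + 1 = 0 := mul_right_cancel₀ (pow_ne_zero 2 h0) (by linear_combination h)
  have r1 := congrArg re h'
  have r2 := congrArg im h'
  simp only [sq, add_re, sub_re, mul_re, one_re, zero_re, add_im, sub_im, mul_im, one_im, zero_im] at r1 r2
  have r3 : ρ.re = 1 / 2 := by
    by_contra hn
    have : ρ.im = 0 := by
      have : ρ.im * (ρ.re - 1 / 2) = 0 := by linarith
      exact (mul_eq_zero.1 this).resolve_right (sub_ne_zero.2 hn)
    nlinarith [sq_nonneg (ρ.re - 1 / 2)]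
  have r4 : ρ.im * ρ.im = 3 / 4 := by rw [r3] at r1; linarith
  have n : ∀ w : ℂ, w.re * w.re = 1 / 4 → w.im * w.im = 3 / 4 → ‖w‖ = 1 := fun w a b => by
    rw [← sq_eq_sq₀ (norm_nonneg _) zero_le_one, Complex.sq_norm, normSq_apply]; linarith
  have a1 := A_iff.1 (k ρ h1)
  have a2 := A_iff.1 (k (ρ - 1) (by rwa [sub_mul, one_mul]))
  have a3 := A_iff.1 (k (-ρ) (by rwa [neg_mul]))
  have a4 := A_iff.1 (k (1 - ρ) (by rwa [sub_mul, one_mul]))
  rw [n ρ (by simp [r3]; norm_num) (by simp [r4])] at a1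
  rw [n (ρ - 1) (by simp [r3]; norm_num) (by simp [r4])] at a2
  rw [n (-ρ) (by simp [r3]; norm_num) (by simp [r4])] at a3
  rw [n (1 - ρ) (by simp [r3]; norm_num) (by simp [r4])] at a4
  simp only [sub_re, sub_im, neg_re, neg_im, one_re, one_im, r3] at a1 a2 a3 a4
  have b0 : ‖r‖ ^ 2 = r.re * r.re + r.im * r.im := by rw [Complex.sq_norm, normSq_apply]
  have b1 := sq_le_sq' (a := r.re + 2 * r.im * ρ.im) (b := ‖r‖) (by linarith) (by linarith)
  have b2 := sq_le_sq' (a := r.re - 2 * r.im * ρ.im) (b := ‖r‖) (by linarith) (by linarith)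
  have : r.im = 0 := by nlinarith
  exact ⟨r.re, by congr 1; exact Complex.ext rfl (by simpa using this)⟩

def co : List (ℤ × ℤ) := [(-2, 0), (-1, 0), (-2, 1), (-1, 1), (-1, -1), (0, -1), (-2, 2), (-1, 2), (0, -2), (-2, 3),
  (1, -2), (1, -1), (-1, 3), (2, -2), (0, 0), (0, 2), (2, -1), (0, 1), (0, 3), (1, 0), (1, 2), (1, 1)]

def E0 : List (ℕ × ℕ) := [(0, 1), (0, 2), (0, 4), (1, 2), (1, 3), (1, 4), (1, 5), (2, 3), (2, 6), (3, 6), (3, 7),
  (3, 14), (4, 5), (4, 8), (5, 8), (5, 10), (5, 11), (5, 14), (6, 7), (6, 9), (7, 9), (7, 12), (7, 15), (7, 17),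
  (8, 10), (9, 12), (10, 11), (10, 13), (11, 13), (11, 14), (11, 16), (11, 19), (12, 15), (12, 18), (13, 16),
  (14, 17), (15, 17), (15, 18), (15, 20), (15, 21), (16, 19), (17, 19), (18, 20), (19, 21), (20, 21)]

def st : List (ℕ × ℕ × ℕ) := [(0, 0, 0), (0, 0, 0), (0, 0, 0), (0, 2, 1), (2, 0, 1), (0, 1, 4), (1, 2, 3), (2, 3, 6),
  (1, 5, 4), (3, 6, 7), (4, 5, 8), (8, 5, 10), (6, 9, 7), (5, 11, 10), (10, 11, 5), (9, 12, 7), (10, 13, 11),
  (12, 15, 7), (7, 15, 12), (13, 16, 11), (12, 15, 18), (18, 20, 15)]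

def cx (i : ℕ) : ℤ := (co.getD i 0).1
def cy (i : ℕ) : ℤ := (co.getD i 0).2
def ad (i j : ℕ) : Prop := (i, j) ∈ E0 ∨ (j, i) ∈ E0
instance (i j : ℕ) : Decidable (ad i j) := by unfold ad; infer_instance
def sp (i : ℕ) : Prop := i = 14 ∨ i = 19 ∨ i = 17

lemma ad.symm {i j : ℕ} (h : ad i j) : ad j i := Or.symm h

lemma ad_lt {i j : ℕ} (h : ad i j) : i < 22 ∧ j < 22 ∧ i ≠ j := by
  have : ∀ e ∈ E0, e.1 < 22 ∧ e.2 < 22 ∧ e.1 < e.2 := by decide
  rcases h with h | h <;> have := this _ h <;> omega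

lemma patch (P : ℕ → ℂ) (hi : ∀ i < 22, ∀ j < 22, P i = P j → i = j)
    (hA : ∀ u v w, ad u v → ad u w → v ≠ w → A (P v - P u) (P w - P u)) :
    P 19 - P 14 ≠ 0 ∧ ∀ s, sp s → ∀ z, (∀ v, ad s v → A z (P v - P s)) → Pl z (P 19 - P 14) := by
  have t : ∀ a b c, ad a b → ad a c → ad b c → P a ^ 2 + P b ^ 2 + P c ^ 2 = P a * P b + P b * P c + P c * P a :=
    fun a b c h1 h2 h3 => tri (fun e => (ad_lt h1).2.2 (hi _ (ad_lt h1).1 _ (ad_lt h1).2.1 e))
      (hA _ _ _ h1 h2 (ad_lt h3).2.2) (hA _ _ _ h1.symm h3 (ad_lt h2).2.2) (hA _ _ _ h2.symm h3.symm (ad_lt h1).2.2)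
  have c : ∀ i < 22, 3 ≤ i → (st.getD i 0).1 < i ∧ (st.getD i 0).2.1 < i ∧ (st.getD i 0).2.2 < i ∧
      ad (st.getD i 0).1 (st.getD i 0).2.1 ∧ ad (st.getD i 0).1 (st.getD i 0).2.2 ∧
      ad (st.getD i 0).2.1 (st.getD i 0).2.2 ∧ ad i (st.getD i 0).2.1 ∧ ad i (st.getD i 0).2.2 ∧
      cx i = cx (st.getD i 0).2.1 + cx (st.getD i 0).2.2 - cx (st.getD i 0).1 ∧
      cy i = cy (st.getD i 0).2.1 + cy (st.getD i 0).2.2 - cy (st.getD i 0).1 := by decide
  have p : ∀ i < 22, P i = P 0 + (cx i + 2) * (P 1 - P 0) + cy i * (P 2 - P 0) := fun i => by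
    induction i using Nat.strong_induction_on with
    | _ i ih =>
      intro h
      by_cases h3 : 3 ≤ i
      · obtain ⟨a1, a2, a3, a4, a5, a6, a7, a8, a9, a10⟩ := c i h h3
        generalize (st.getD i 0).1 = a, (st.getD i 0).2.1 = b, (st.getD i 0).2.2 = e at *
        have h0 : P i - P a ≠ 0 := sub_ne_zero.2 fun e => by have := hi _ h _ (by omega) e; omega
        have : P i = P b + P e - P a :=
          mul_left_cancel₀ h0 (by linear_combination t _ _ _ a7 a8 a6 - t _ _ _ a4 a5 a6)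
        rw [this, ih a a1 (by omega), ih b a2 (by omega), ih e a3 (by omega), a9, a10]
        push_cast; ring
      · obtain rfl | rfl | rfl : i = 0 ∨ i = 1 ∨ i = 2 := by omega
        all_goals simp [cx, cy, co] <;> ring
  have e : ∀ i < 22, ∀ j < 22, ∀ x y : ℤ, cx i - cx j = x → cy i - cy j = y →
      P i - P j = x * (P 1 - P 0) + y * (P 2 - P 0) := fun i hi j hj x y hx hy => by
    rw [p i hi, p j hj, ← hx, ← hy]; push_cast; ring
  have e0 : P 19 - P 14 = P 1 - P 0 := by simpa using e 19 (by omega) 14 (by omega) 1 0 rfl rfl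
  have h0 : P 1 - P 0 ≠ 0 := sub_ne_zero.2 fun e => by simpa using hi _ (by omega) _ (by omega) e
  rw [e0]
  refine ⟨h0, fun s hs z hz => ?_⟩
  have k : ∀ a b c d, ad s a → ad s b → ad s c → ad s d → cx a - cx s = 0 → cy a - cy s = 1 →
      cx b - cx s = -1 → cy b - cy s = 1 → cx c - cx s = 0 → cy c - cy s = -1 → cx d - cx s = 1 →
      cy d - cy s = -1 → Pl z (P 1 - P 0) := fun a b c d h1 h2 h3 h4 a1 a2 b1 b2 c1 c2 d1 d2 => by
    have g1 := hz a h1
    have g2 := hz b h2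
    have g3 := hz c h3
    have g4 := hz d h4
    rw [e _ (ad_lt h1).2.1 _ (ad_lt h1).1 _ _ a1 a2] at g1
    rw [e _ (ad_lt h2).2.1 _ (ad_lt h1).1 _ _ b1 b2] at g2
    rw [e _ (ad_lt h3).2.1 _ (ad_lt h1).1 _ _ c1 c2] at g3
    rw [e _ (ad_lt h4).2.1 _ (ad_lt h1).1 _ _ d1 d2] at g4
    refine ray (β := P 2 - P 0) h0 (by linear_combination t 0 1 2 (by decide) (by decide) (by decide))
      (by simpa using g1) ?_ (by simpa using g3) ?_
    · rwa [show P 2 - P 0 - (P 1 - P 0) = ((-1 : ℤ) : ℂ) * (P 1 - P 0) + (1 : ℤ) * (P 2 - P 0) by push_cast; ring]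
    · rwa [show P 1 - P 0 - (P 2 - P 0) = ((1 : ℤ) : ℂ) * (P 1 - P 0) + (-1 : ℤ) * (P 2 - P 0) by push_cast; ring]
  rcases hs with rfl | rfl | rfl
  · apply k 17 3 5 11 <;> decide
  · apply k 21 17 11 16 <;> decide
  · apply k 15 7 14 19 <;> decide

noncomputable def lam (x y : ℤ) : ℂ := ⟨x + y / 2, y * (√3 / 2)⟩
noncomputable def la (i : ℕ) : ℂ := lam (cx i) (cy i)

lemma lam_sub (x y x' y' : ℤ) : lam x y - lam x' y' = lam (x - x') (y - y') := by
  apply Complex.ext <;> simp [lam] <;> ring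

lemma lam_in (x y x' y' : ℤ) : 2 * ((lam x y).re * (lam x' y').re + (lam x y).im * (lam x' y').im) =
    (2 * x * x' + x * y' + y * x' + 2 * y * y' : ℤ) := by
  simp only [lam]; push_cast
  linear_combination (y * y' / 2 : ℝ) * Real.sq_sqrt (show (0 : ℝ) ≤ 3 by norm_num)

lemma lam_norm {x y : ℤ} (h : x * x + x * y + y * y = 1) : ‖lam x y‖ = 1 := by
  have := lam_in x y x y
  rw [show 2 * x * x + x * y + y * x + 2 * y * y = 2 by linarith] at this
  rw [← sq_eq_sq₀ (norm_nonneg _) zero_le_one, Complex.sq_norm, normSq_apply]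
  push_cast at this
  linarith

lemma la_in {i j k : ℕ} (h1 : ad i j) (h2 : ad i k) (h : j ≠ k) : A (la j - la i) (la k - la i) := by
  have c : ∀ i < 22, ∀ j < 22, ad i j → (cx j - cx i) * (cx j - cx i) + (cx j - cx i) * (cy j - cy i) +
      (cy j - cy i) * (cy j - cy i) = 1 := by decide +kernel
  have c' : ∀ i < 22, ∀ j < 22, ∀ k < 22, ad i j ∧ ad i k ∧ j ≠ k → 2 * (cx j - cx i) * (cx k - cx i) +
      (cx j - cx i) * (cy k - cy i) + (cy j - cy i) * (cx k - cx i) + 2 * (cy j - cy i) * (cy k - cy i) ≤ 1 := by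
    decide +kernel
  rw [A_iff, la, la, la, lam_sub, lam_sub, lam_in, lam_norm (c i (ad_lt h1).1 j (ad_lt h1).2.1 h1),
    lam_norm (c i (ad_lt h1).1 k (ad_lt h2).2.1 h2)]
  exact_mod_cast c' i (ad_lt h1).1 j (ad_lt h1).2.1 k (ad_lt h2).2.1 ⟨h1, h2, h⟩

lemma la_ex {i j : ℕ} (h1 : ad i j) (h : sp i) (r : ℝ) : A r (la j - la i) := by
  have c : ∀ i ∈ [14, 19, 17], ∀ j < 22, ad i j → (cx j - cx i) * (cx j - cx i) + (cx j - cx i) * (cy j - cy i) +
      (cy j - cy i) * (cy j - cy i) = 1 ∧ |2 * (cx j - cx i) + (cy j - cy i)| = 1 := by decide +kernel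
  have a := c i (by simpa [sp] using h) j (ad_lt h1).2.1 h1
  rw [A_iff, la, la, lam_sub, lam_norm a.1]
  have b : |(2 * (cx j - cx i) + (cy j - cy i) : ℝ)| = 1 := by exact_mod_cast a.2
  have := le_abs_self (r * (2 * (cx j - cx i) + (cy j - cy i) : ℝ))
  rw [abs_mul, b] at this
  simp only [lam, ofReal_re, ofReal_im, norm_real, Real.norm_eq_abs]
  push_cast
  linarith

lemma A_real {r s : ℝ} (h : r * s ≤ 0) : A r s := by
  rw [A_iff]
  simp only [ofReal_re, ofReal_im]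
  nlinarith [mul_nonneg (norm_nonneg (r : ℂ)) (norm_nonneg (s : ℂ))]

lemma la_inj {i j : ℕ} (hi : i < 22) (hj : j < 22) (h : la i = la j) : i = j := by
  have c : ∀ i < 22, ∀ j < 22, cx i = cx j → cy i = cy j → i = j := by decide +kernel
  have h1 := congrArg re h
  have h2 := congrArg im h
  simp only [la, lam, mul_left_inj' (show √3 / 2 ≠ 0 by positivity), Int.cast_inj] at h1 h2
  rw [h2] at h1
  exact c i hi j hj (by exact_mod_cast add_right_cancel h1) h2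

lemma la_two (i : ℕ) : 1 - 2 * la i ≠ 0 := fun h => by
  have h1 := congrArg re h
  have h2 := congrArg im h
  simp [la, lam] at h1 h2
  rw [h2] at h1
  have : 1 - 2 * cx i = 0 := by exact_mod_cast (by simpa using h1 : (1 - 2 * cx i : ℝ) = 0)
  omega

lemma la14 : la 14 = 0 := by apply Complex.ext <;> simp [la, lam, cx, cy, co]
lemma la19 : la 19 = 1 := by apply Complex.ext <;> simp [la, lam, cx, cy, co]
lemma la17 : (la 17).im ≠ 0 := by simp [la, lam, cx, cy, co]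

lemma seqL {I X : Type} [DecidableEq I] [Inhabited X] (m : ℕ) {R : I → (ℕ → X) → Prop} {F0 : Set X}
    (h0 : F0.Finite) (l : List I) (h : ∀ i ∈ l, ∀ F : Set X, F.Finite → ∃ q, R i q ∧
      (∀ i < m, ∀ j < m, q i = q j → i = j) ∧ ∀ j < m, q j ∉ F) :
    ∃ Q : I → ℕ → X, (∀ i ∈ l, R i (Q i) ∧ ∀ j < m, Q i j ∉ F0) ∧
      ∀ i ∈ l, ∀ j < m, ∀ i' ∈ l, ∀ j' < m, Q i j = Q i' j' → i = i' ∧ j = j' := by
  induction l with
  | nil => exact ⟨default, by simp, by simp⟩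
  | cons N l ih =>
    obtain ⟨Q, a, b⟩ := ih fun i hi => h i (List.mem_cons_of_mem _ hi)
    obtain ⟨q, c1, c2, c3⟩ := h N (by simp) _ (h0.union (((List.finite_toSet l).prod
      (Set.finite_lt_nat m)).image fun x => Q x.1 x.2))
    have t : ∀ i ∈ N :: l, i = N ∨ (i ≠ N ∧ i ∈ l) := fun i hi => by
      by_cases e : i = N
      · exact .inl e
      · exact .inr ⟨e, (List.mem_cons.1 hi).resolve_left e⟩
    refine ⟨Function.update Q N q, fun i hi => ?_, fun i hi j hj i' hi' j' hj' e => ?_⟩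
    · rcases t i hi with rfl | hi
      · rw [Function.update_self]
        exact ⟨c1, fun j hj e => c3 j hj (.inl e)⟩
      · rw [Function.update_of_ne hi.1]
        exact a i hi.2
    · rcases t i hi with rfl | hi <;> rcases t i' hi' with h' | hi'
      · subst h'
        rw [Function.update_self] at e
        exact ⟨rfl, c2 _ hj _ hj' e⟩
      · rw [Function.update_self, Function.update_of_ne hi'.1] at e
        exact (c3 j hj (.inr ⟨(i', j'), ⟨hi'.2, hj'⟩, e.symm⟩)).elim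
      · subst h'
        rw [Function.update_self, Function.update_of_ne hi.1] at e
        exact (c3 j' hj' (.inr ⟨(i, j), ⟨hi.2, hj⟩, e⟩)).elim
      · rw [Function.update_of_ne hi'.1, Function.update_of_ne hi.1] at e
        exact b _ hi.2 _ hj _ hi'.2 _ hj' e

lemma avc (m : ℕ) (κ μ : ℕ → ℂ) (h : ∀ j, κ j ≠ 0) {F : Set ℂ} (hF : F.Finite) {T : Set ℝ} (hT : T.Finite)
    (a : ℝ) : ∃ t ∈ Set.Ioo a (a + 1), t ∉ T ∧ ∀ j < m, κ j * t + μ j ∉ F := by
  have f1 : (⋃ j < m, (fun t : ℝ => κ j * t + μ j) ⁻¹' F).Finite := (Set.finite_lt_nat m).biUnion fun j _ =>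
    hF.preimage fun a _ b _ e => by exact_mod_cast mul_left_cancel₀ (h j) (add_right_cancel e)
  obtain ⟨t, a, b⟩ := (Set.Ioo_infinite (lt_add_one a)).exists_notMem_finite (hT.union f1)
  exact ⟨t, a, fun e => b (.inl e), fun j hj e => b (.inr (Set.mem_biUnion hj e))⟩

end Pool.Agent.H4.AR
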