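import Pool.Agent.H4.AR1

set_option autoImplicit false

namespace Pool.Agent.H4.AR

open Complex

abbrev W := ℕ × ℕ × ℕ

def pt (L : List W) (b : ℕ) (s : Bool) : ℕ := bif s then (L.getD b (0, 0, 0)).2.1 else (L.getD b (0, 0, 0)).1
def cl (L : List W) (b : ℕ) : ℕ := (L.getD b (0, 0, 0)).2.2

def vs (np nc N : ℕ) : List W := (List.range np).map (fun p => (0, p, 0)) ++
  (List.range (nc + 1) ×ˢ (List.range N ×ˢ List.range 22)).map fun x => (x.1 + 1, x.2.1, x.2.2)

def aj (L : List W) (u v : W) : Prop :=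
  (0 < u.1 ∧ v.1 = u.1 ∧ v.2.1 = u.2.1 ∧ (u.2.2, v.2.2) ∈ E0) ∨
  (u.1 = 1 ∧ u.2.2 = 14 ∧ v = (0, pt L u.2.1 false, 0)) ∨ (u.1 = 1 ∧ u.2.2 = 19 ∧ v = (0, pt L u.2.1 true, 0)) ∨
  (u.1 = 1 ∧ u.2.2 = 17 ∧ v = (cl L u.2.1 + 2, u.2.1, 17)) ∨
  (1 < u.1 ∧ u.2.2 = 14 ∧ v = (u.1, u.2.1 + 1, 14))

instance (L : List W) (u v : W) : Decidable (aj L u v) := by unfold aj; infer_instance

def In (np nc N : ℕ) (u : W) : Prop :=
  (u.1 = 0 ∧ u.2.1 < np ∧ u.2.2 = 0) ∨ (0 < u.1 ∧ u.1 < nc + 2 ∧ u.2.1 < N ∧ u.2.2 < 22)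

lemma mem_vs {np nc N : ℕ} {u : W} : u ∈ vs np nc N ↔ In np nc N u := by
  obtain ⟨k, b, i⟩ := u
  simp only [vs, In, List.mem_append, List.mem_map, List.mem_range, Prod.mk.injEq, Prod.exists,
    List.mem_product]
  constructor
  · rintro (⟨p, h, rfl, rfl, rfl⟩ | ⟨a, b, c, ⟨h1, h2, h3⟩, rfl, rfl, rfl⟩) <;> omega
  · rintro (⟨rfl, h, rfl⟩ | ⟨h0, h1, h2, h3⟩)
    · exact .inl ⟨b, h, rfl, rfl, rfl⟩
    · exact .inr ⟨k - 1, b, i, ⟨by omega, h2, h3⟩, by omega, rfl, rfl⟩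

lemma nd_vs (np nc N : ℕ) : (vs np nc N).Nodup := by
  refine List.Nodup.append (List.nodup_range.map fun a b h => by simpa using h)
    ((List.nodup_range.product (List.nodup_range.product List.nodup_range)).map ?_) ?_
  · rintro ⟨a, b⟩ ⟨c, d⟩ h
    simpa using h
  · simp [List.disjoint_left]

def Draw (np nc : ℕ) (L : List W) (p : W → ℂ) : Prop :=
  (∀ u v, In np nc L.length u → In np nc L.length v → p u = p v → u = v) ∧
  ∀ u v w, In np nc L.length u → In np nc L.length v → In np nc L.length w → u ≠ v → u ≠ w →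
    aj L u v ∨ aj L v u → aj L u w ∨ aj L w u → v ≠ w → A (p v - p u) (p w - p u)

def Bars (np : ℕ) (L : List W) (P δ : ℕ → ℂ) (e : ℕ → Bool → ℂ) : Prop :=
  (∀ i < np, ∀ j < np, P i = P j → i = j) ∧
  (∀ b < L.length, δ (cl L b) ≠ 0 ∧ Pl (P (pt L b true) - P (pt L b false)) (δ (cl L b)) ∧
    ∀ s, e b s ≠ 0 ∧ Pl (e b s) (δ (cl L b))) ∧
  ∀ b < L.length, ∀ b' < L.length, ∀ s s', (b, s) ≠ (b', s') → pt L b s = pt L b' s' → A (e b s) (e b' s')

variable {np nc : ℕ} {L : List W}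

theorem draw_sound (wf : ∀ b < L.length, cl L b < nc ∧ ∀ s, pt L b s < np) {p : W → ℂ} (h : Draw np nc L p) :
    ∃ P δ e, Bars np L P δ e := by
  obtain ⟨hi, hA⟩ := h
  have inP : ∀ k b i, 0 < k → k < nc + 2 → b < L.length → i < 22 → In np nc L.length (k, b, i) :=
    fun k b i a b c d => .inr ⟨a, b, c, d⟩
  have aP : ∀ k b i j, 0 < k → ad i j → aj L (k, b, i) (k, b, j) ∨ aj L (k, b, j) (k, b, i) :=
    fun k b i j hk h => h.imp (fun h => .inl ⟨hk, rfl, rfl, h⟩) fun h => .inl ⟨hk, rfl, rfl, h⟩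
  have pa := fun k b (h0 : 0 < k) (h1 : k < nc + 2) (h2 : b < L.length) => patch (fun i => p (k, b, i))
    (fun i hi' j hj e => by simpa using hi _ _ (inP k b i h0 h1 h2 hi') (inP k b j h0 h1 h2 hj) e)
    fun u v w a c d => hA _ _ _ (inP k b u h0 h1 h2 (ad_lt a).1) (inP k b v h0 h1 h2 (ad_lt a).2.1)
      (inP k b w h0 h1 h2 (ad_lt c).2.1) (by simpa using (ad_lt a).2.2) (by simpa using (ad_lt c).2.2)
      (aP _ _ _ _ h0 a) (aP _ _ _ _ h0 c) (by simpa using d)
  let α : ℕ → ℕ → ℂ := fun k b => p (k, b, 19) - p (k, b, 14)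
  have ex : ∀ k b s v, 0 < k → k < nc + 2 → b < L.length → sp s → In np nc L.length v → (v.1 ≠ k ∨ v.2.1 ≠ b) →
      aj L (k, b, s) v ∨ aj L v (k, b, s) → p v - p (k, b, s) ≠ 0 ∧ Pl (p v - p (k, b, s)) (α k b) :=
    fun k b s v h0 h1 h2 hs hv hn ha => by
      have s22 : s < 22 := by unfold sp at hs; omega
      have n : ∀ j, v ≠ (k, b, j) := by rintro j rfl; simp at hn
      refine ⟨fun e => n s (hi _ _ hv (inP k b s h0 h1 h2 s22) (sub_eq_zero.1 e)),
        (pa k b h0 h1 h2).2 s hs _ fun j hj => ?_⟩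
      exact hA _ _ _ (inP k b s h0 h1 h2 s22) hv (inP k b j h0 h1 h2 (ad_lt hj).2.1) (n s).symm
        (by simpa using (ad_lt hj).2.2) ha (aP _ _ _ _ h0 hj) (n j)
  have link : ∀ k b k' b' s, 0 < k → k < nc + 2 → b < L.length → 0 < k' → k' < nc + 2 → b' < L.length → sp s →
      (k' ≠ k ∨ b' ≠ b) → aj L (k, b, s) (k', b', s) → Pl (α k b) (α k' b') ∧ Pl (α k' b') (α k b) :=
    fun k b k' b' s h0 h1 h2 h0' h1' h2' hs hn ha => by
      have s22 : s < 22 := by unfold sp at hs; omega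
      have e1 := ex k b s _ h0 h1 h2 hs (inP k' b' s h0' h1' h2' s22) hn (.inl ha)
      have e2 := ex k' b' s _ h0' h1' h2' hs (inP k b s h0 h1 h2 s22) (hn.imp Ne.symm Ne.symm) (.inr ha)
      have e3 := e2.2.neg
      have e4 := e1.2.neg
      rw [neg_sub] at e3 e4
      exact ⟨(e1.2.symm e1.1).trans e3, (e2.2.symm e2.1).trans e4⟩
  have spn : ∀ x < nc, ∀ b < L.length, Pl (α (x + 2) b) (α (x + 2) 0) := fun x hx b hb => by
    induction b with
    | zero => exact ⟨1, by simp⟩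
    | succ b ih =>
      exact (link (x + 2) b (x + 2) (b + 1) 14 (by omega) (by omega) (by omega) (by omega) (by omega) hb
        (.inl rfl) (by omega) (.inr (.inr (.inr (.inr ⟨by simp, rfl, rfl⟩))))).2.trans (ih (by omega))
  have aE : ∀ b (s : Bool), aj L (1, b, bif s then 19 else 14) (0, pt L b s, 0) := by
    rintro b (_ | _)
    · exact .inr (.inl ⟨rfl, rfl, rfl⟩)
    · exact .inr (.inr (.inl ⟨rfl, rfl, rfl⟩))
  have sE : ∀ s : Bool, sp (bif s then 19 else 14) ∧ (bif s then 19 else 14) < 22 := by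
    rintro (_ | _) <;> simp [sp]
  refine ⟨fun i => p (0, i, 0), fun x => α (x + 2) 0, fun b s => p (1, b, bif s then 19 else 14) - p (0, pt L b s, 0),
    fun i h1 j h2 e => by simpa using hi _ _ (.inl ⟨rfl, h1, rfl⟩) (.inl ⟨rfl, h2, rfl⟩) e, fun b hb => ?_,
    fun b hb b' hb' s s' hn e => ?_⟩
  · have hx := (wf b hb).1
    have a1 : Pl (α 1 b) (α (cl L b + 2) 0) := (link 1 b (cl L b + 2) b 17 (by omega) (by omega) hb (by omega)
      (by omega) hb (.inr (.inr rfl)) (by omega) (.inr (.inr (.inr (.inl ⟨rfl, rfl, rfl⟩))))).1.trans (spn _ hx b hb)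
    have a2 := fun s => ex 1 b _ (0, pt L b s, 0) (by omega) (by omega) hb (sE s).1 (.inl ⟨rfl, (wf b hb).2 s, rfl⟩)
      (.inl (by simp)) (.inl (aE b s))
    refine ⟨(pa _ 0 (by omega) (by omega) (by omega)).1, ?_, fun s => ⟨?_, ?_⟩⟩
    · have := (((a2 true).2.add ⟨1, (by simp : α 1 b = _)⟩).add (a2 false).2.neg).trans a1
      simp only [α, cond_true, cond_false] at this ⊢
      rwa [show p (0, pt L b true, 0) - p (0, pt L b false, 0) = p (0, pt L b true, 0) - p (1, b, 19) +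
        (p (1, b, 19) - p (1, b, 14)) + -(p (0, pt L b false, 0) - p (1, b, 14)) by ring]
    · exact sub_ne_zero.2 (sub_ne_zero.1 (a2 s).1).symm
    · simpa using (a2 s).2.neg.trans a1
  · beta_reduce
    rw [← e]
    refine hA _ _ _ (.inl ⟨rfl, (wf b hb).2 s, rfl⟩) (inP _ _ _ (by omega) (by omega) hb (sE s).2)
      (inP _ _ _ (by omega) (by omega) hb' (sE s').2) (by simp) (by simp) (.inr (aE b s)) (.inr (e ▸ aE b' s')) ?_
    revert hn
    cases s <;> cases s' <;> simp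

theorem draw_compl (wf : ∀ b < L.length, cl L b < nc ∧ ∀ s, pt L b s < np)
    {P δ : ℕ → ℂ} (hδ : ∀ x, δ x ≠ 0) (h : Bars np L P δ fun b s => bif s then -δ (cl L b) else δ (cl L b)) :
    ∃ p, Draw np nc L p := by
  obtain ⟨hi, h1, h2⟩ := h
  choose! c hc using fun b hb => (h1 b hb).2.1
  have inj : ∀ z a : ℂ, a ≠ 0 → ∀ i < 22, ∀ j < 22, z + la i * a = z + la j * a → i = j :=
    fun z a ha i hi j hj e => la_inj hi hj (mul_right_cancel₀ ha (add_left_cancel e))
  obtain ⟨B, hB, hB'⟩ := seqL 22 (R := fun b q => ∃ t : ℝ, 0 < t ∧ c b - 2 * t ≠ 0 ∧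
      (q 17 / δ (cl L b)).im ≠ 0 ∧ ∀ i, q i = P (pt L b false) + t * δ (cl L b) + la i * ((c b - 2 * t : ℝ) * δ (cl L b)))
      ((Set.finite_lt_nat np).image P) (List.range L.length) fun b _ F hF => by
    obtain ⟨t, t1, t2, t3⟩ := avc 22 (fun i => (1 - 2 * la i) * δ (cl L b))
      (fun i => P (pt L b false) + la i * c b * δ (cl L b)) (fun i => mul_ne_zero (la_two i) (hδ _)) hF
      (Set.toFinite {c b / 2, c b / 2 + (P (pt L b false) / δ (cl L b)).im / (la 17).im / 2}) 0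
    simp only [Set.mem_insert_iff, Set.mem_singleton_iff, not_or] at t2
    have t4 : c b - 2 * t ≠ 0 := fun e => t2.1 (by linarith)
    refine ⟨_, ⟨t, t1.1, t4, fun e => t2.2 ?_, fun _ => rfl⟩,
      inj _ _ (mul_ne_zero (ofReal_ne_zero.2 t4) (hδ _)), fun j hj e => t3 j hj ?_⟩
    · beta_reduce at e
      rw [add_div, add_div, ← mul_assoc, mul_div_cancel_right₀ _ (hδ _), mul_div_cancel_right₀ _ (hδ _)] at e
      simp only [add_im, ofReal_im, mul_im, ofReal_re, mul_zero, add_zero, zero_add] at e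
      have := la17
      field_simp
      linarith
    · convert e using 1
      push_cast; ring
  choose! t t1 t2 t3 t4 using fun b hb => (hB b hb).1
  simp only [List.mem_range] at hB hB' t1 t2 t3 t4
  let σ : ℕ → ℕ → ℝ := fun x b => if x = cl L b then (B b 17 / δ x).im / (la 17).im else 1
  have σ0 : ∀ x, ∀ b < L.length, σ x b ≠ 0 := fun x b hb => by
    simp only [σ]
    split_ifs with h
    · exact div_ne_zero (h ▸ t3 b hb) la17
    · exact one_ne_zero
  obtain ⟨S, hS, hS'⟩ := seqL 22 (R := fun x : ℕ × ℕ => fun q => ∃ τ : ℝ, τ ∈ Set.Ioo (x.2 : ℝ) (x.2 + 1) ∧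
      ∀ i, q i = τ * δ x.1 + la i * (σ x.1 x.2 * δ x.1)) (((Set.finite_lt_nat np).image P).union
      (((Set.finite_lt_nat L.length).prod (Set.finite_lt_nat 22)).image fun x => B x.1 x.2))
      (List.range nc ×ˢ List.range L.length) fun x hx F hF => by
    obtain ⟨τ, a1, -, a3⟩ := avc 22 (fun _ => δ x.1) (fun i => la i * (σ x.1 x.2 * δ x.1)) (fun _ => hδ _) hF
      Set.finite_empty x.2
    exact ⟨_, ⟨τ, a1, fun _ => rfl⟩, inj _ _ (mul_ne_zero (ofReal_ne_zero.2 (σ0 _ _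
      (List.mem_range.1 (List.mem_product.1 hx).2))) (hδ _)), fun j hj e => a3 j hj (by rwa [mul_comm])⟩
  choose! τ τ1 τ2 using fun x hx => (hS x hx).1
  simp only [Prod.forall, List.mem_product, List.mem_range] at hS hS' τ1 τ2
  obtain ⟨p, p0, p1, p2⟩ : ∃ p : W → ℂ, (∀ b i, p (0, b, i) = P b) ∧ (∀ b i, p (1, b, i) = B b i) ∧
      ∀ x b i, p (x + 2, b, i) = S (x, b) i := ⟨fun u => match u.1 with
        | 0 => P u.2.1
        | 1 => B u.2.1 u.2.2
        | x + 2 => S (x, u.2.1) u.2.2, fun _ _ => rfl, fun _ _ => rfl, fun _ _ _ => rfl⟩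
  refine ⟨p, ?_, ?_⟩
  · rintro ⟨_ | _ | k, b, i⟩ ⟨_ | _ | k', b', i'⟩ hu hv e <;> simp only [In, p0, p1, p2, zero_add] at hu hv e
    · rw [hi b (by omega) b' (by omega) e, show i = i' by omega]
    · exact ((hB b' (by omega)).2 i' (by omega) ⟨b, (by omega : b < np), e⟩).elim
    · exact ((hS k' b' (by omega)).2 i' (by omega) (.inl ⟨b, (by omega : b < np), e⟩)).elim
    · exact ((hB b (by omega)).2 i (by omega) ⟨b', (by omega : b' < np), e.symm⟩).elim
    · obtain ⟨rfl, rfl⟩ := hB' b (by omega) i (by omega) b' (by omega) i' (by omega) e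
      rfl
    · exact ((hS k' b' (by omega)).2 i' (by omega)
        (.inr ⟨(b, i), ⟨(by omega : b < _), (by omega : i < 22)⟩, e⟩)).elim
    · exact ((hS k b (by omega)).2 i (by omega) (.inl ⟨b', (by omega : b' < np), e.symm⟩)).elim
    · exact ((hS k b (by omega)).2 i (by omega)
        (.inr ⟨(b', i'), ⟨(by omega : b' < _), (by omega : i' < 22)⟩, e.symm⟩)).elim
    · obtain ⟨h, rfl⟩ := hS' k b (by omega) i (by omega) k' b' (by omega) i' (by omega) e
      obtain ⟨rfl, rfl⟩ := Prod.mk.inj h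
      rfl
  have lk : ∀ b < L.length, ∃ r : ℝ, S (cl L b, b) 17 - B b 17 = r * δ (cl L b) := fun b hb => by
    refine ⟨((S (cl L b, b) 17 - B b 17) / δ (cl L b)).re, ?_⟩
    rw [← div_eq_iff (hδ _)]
    refine Complex.ext rfl ?_
    rw [τ2 _ _ ⟨(wf b hb).1, hb⟩, sub_div, add_div, ← mul_assoc, mul_div_cancel_right₀ _ (hδ _),
      mul_div_cancel_right₀ _ (hδ _)]
    have := la17
    simp only [sub_im, add_im, ofReal_im, mul_im, ofReal_re, mul_zero, zero_add, σ, if_true]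
    field_simp
    ring
  have key : ∀ k b i, 0 < k → In np nc L.length (k, b, i) → ∃ (z d : ℂ) (a : ℝ) (nx pv : W), a ≠ 0 ∧
      (∀ j, p (k, b, j) = z + la j * (a * d)) ∧ ∀ v, In np nc L.length v → aj L (k, b, i) v ∨ aj L v (k, b, i) →
      (∃ j, v = (k, b, j) ∧ ad i j) ∨ (sp i ∧ ∃ r : ℝ, p v - p (k, b, i) = r * d ∧
        (v = nx ∧ 0 ≤ r ∨ v = pv ∧ r ≤ 0)) := by
    have tt : ∀ (r : ℝ) (v : W), v = v ∧ 0 ≤ r ∨ v = v ∧ r ≤ 0 := fun r v => by simpa using le_total 0 r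
    rintro (_ | _ | x) b i hk hu
    · omega
    · have hb : b < L.length := by simp only [In] at hu; omega
      let nx : W := if i = 14 then (0, pt L b false, 0) else if i = 19 then (0, pt L b true, 0) else
        (cl L b + 2, b, 17)
      refine ⟨_, δ (cl L b), _, nx, nx, t2 b hb, fun j => (p1 b j).trans (t4 b hb j), ?_⟩
      rintro ⟨k', b', i'⟩ hv (h | h) <;> simp only [aj, Prod.mk.injEq] at h
      · rcases h with ⟨_, rfl, rfl, h⟩ | ⟨_, rfl, rfl, rfl, rfl⟩ | ⟨_, rfl, rfl, rfl, rfl⟩ | ⟨_, rfl, rfl, rfl, rfl⟩ | h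
        · exact .inl ⟨_, rfl, .inl h⟩
        · refine .inr ⟨.inl rfl, -t b, ?_, tt _ _⟩
          rw [p0, zero_add, p1, t4 b hb, la14]; push_cast; ring
        · refine .inr ⟨.inr (.inl rfl), t b, ?_, tt _ _⟩
          rw [p0, zero_add, p1, t4 b hb, la19]; push_cast; linear_combination hc b hb
        · obtain ⟨r, hr⟩ := lk b' hb
          exact .inr ⟨.inr (.inr rfl), r, by rw [p2, zero_add, p1, hr], tt _ _⟩
        · omega
      · rcases h with ⟨_, rfl, rfl, h⟩ | h | h | h | h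
        · exact .inl ⟨_, rfl, .inr h⟩
        all_goals omega
    · have hb : x < nc ∧ b < L.length := by simp only [In] at hu; omega
      refine ⟨_, δ x, _, if i = 14 then (x + 2, b + 1, 14) else (1, b, 17),
        if i = 14 then (x + 2, b - 1, 14) else (1, b, 17), σ0 x b hb.2, fun j => (p2 x b j).trans (τ2 x b hb j), ?_⟩
      rintro ⟨k', b', i'⟩ hv (h | h) <;> simp only [aj, Prod.mk.injEq] at h
      · rcases h with ⟨_, rfl, rfl, h⟩ | h | h | h | ⟨_, rfl, rfl, rfl, rfl⟩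
        · exact .inl ⟨_, rfl, .inl h⟩
        any_goals omega
        have hb' : x < nc ∧ b + 1 < L.length := by simp only [In] at hv; omega
        refine .inr ⟨.inl rfl, τ (x, b + 1) - τ (x, b), ?_, .inl ⟨rfl, ?_⟩⟩
        · rw [p2, p2, τ2 _ _ hb, τ2 _ _ hb', la14]; push_cast; ring
        · have := (τ1 _ _ hb').1
          push_cast at this
          linarith [(τ1 _ _ hb).2]
      · rcases h with ⟨_, rfl, rfl, h⟩ | h | h | ⟨rfl, rfl, h, rfl, rfl⟩ | ⟨_, rfl, rfl, rfl, rfl⟩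
        · exact .inl ⟨_, rfl, .inr h⟩
        any_goals omega
        · obtain ⟨r, hr⟩ := lk b hb.2
          obtain rfl : x = cl L b := by omega
          refine .inr ⟨.inr (.inr rfl), -r, ?_, tt _ _⟩
          rw [p2, p1]; push_cast; linear_combination -hr
        · have hb' : x < nc ∧ b' < L.length := by omega
          refine .inr ⟨.inl rfl, τ (x, b') - τ (x, b' + 1), ?_, .inr ⟨rfl, ?_⟩⟩
          · rw [p2, p2, τ2 _ _ hb, τ2 _ _ hb', la14]; push_cast; ring
          · have := (τ1 _ _ hb).1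
            push_cast at this
            linarith [(τ1 _ _ hb').2]
  rintro ⟨k, b, i⟩ v w hu hv hw - - av aw hn
  by_cases hk : 0 < k
  · obtain ⟨z, d, a, nx, pv, a0, e, f⟩ := key k b i hk hu
    have a1 : (a : ℂ) ≠ 0 := ofReal_ne_zero.2 a0
    have g : ∀ j, p (k, b, j) - p (k, b, i) = (la j - la i) * (a * d) := fun j => by rw [e, e]; ring
    have g' : ∀ r : ℝ, r * d = (r / a : ℝ) * (a * d) := fun r => by push_cast; field_simp
    rcases f v hv av with ⟨j, rfl, hj⟩ | ⟨s1, r, r1, r2⟩ <;> rcases f w hw aw with ⟨j', rfl, hj'⟩ | ⟨s1, r', r3, r4⟩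
    · rw [g, g]; exact (la_in hj hj' (by simpa using hn)).mul _
    · rw [g, r3, g' r']; exact (la_ex hj s1 _).symm.mul _
    · rw [g, r1, g' r]; exact (la_ex hj' s1 _).mul _
    · rw [r1, r3]
      refine (A_real ?_).mul _
      rcases r2 with ⟨rfl, r2⟩ | ⟨rfl, r2⟩ <;> rcases r4 with ⟨r5, r4⟩ | ⟨r5, r4⟩
      · exact (hn r5.symm).elim
      · exact mul_nonpos_of_nonneg_of_nonpos r2 r4
      · exact mul_nonpos_of_nonpos_of_nonneg r2 r4
      · exact (hn r5.symm).elim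
  · obtain rfl : k = 0 := by omega
    have f : ∀ v, In np nc L.length v → aj L (0, b, i) v ∨ aj L v (0, b, i) → ∃ b' < L.length, ∃ s : Bool,
        v = (1, b', bif s then 19 else 14) ∧ pt L b' s = b ∧
        p v - p (0, b, i) = t b' * bif s then -δ (cl L b') else δ (cl L b') := by
      rintro ⟨k', b', i'⟩ hv (h | h) <;> simp only [aj, Prod.mk.injEq] at h
      · omega
      · rcases h with h | ⟨rfl, rfl, -, rfl, rfl⟩ | ⟨rfl, rfl, -, rfl, rfl⟩ | h | h
        any_goals omega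
        all_goals have hb : b' < L.length := by simp only [In] at hv; omega
        · refine ⟨b', hb, false, rfl, rfl, ?_⟩
          rw [p0, p1, t4 b' hb, la14, cond_false]; ring
        · refine ⟨b', hb, true, rfl, rfl, ?_⟩
          rw [p0, p1, t4 b' hb, la19, cond_true]; push_cast; linear_combination -hc b' hb
    obtain ⟨b1, c1, s1, rfl, d1, e1⟩ := f v hv av
    obtain ⟨b2, c2, s2, rfl, d2, e2⟩ := f w hw aw
    rw [e1, e2]
    refine (((h2 b1 c1 b2 c2 s1 s2 ?_ (d1.trans d2.symm)).scale (t1 b1 c1).le).symm.scale (t1 b2 c2).le).symm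
    rintro ⟨⟩
    exact hn rfl

end Pool.Agent.H4.AR
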