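import Pool.Agent.H4.AR2
import Pool.Agent.H21.Ten3

set_option autoImplicit false

namespace Pool.Agent.H4.AR

open Complex ComplexConjugate Pool.Agent.H21.ER

def TA : List (ℕ × ℕ) := [(0, 2), (2, 4), (4, 0), (1, 3), (3, 5), (5, 1), (0, 1), (1, 0), (2, 3), (3, 2), (4, 5), (5, 4)]
def TB : List (ℕ × ℕ) := [(0, 2), (2, 1), (1, 5), (5, 3), (3, 4), (4, 0), (0, 1), (1, 0), (2, 3), (3, 2), (4, 5), (5, 4)]
def tb (t j : ℕ) : ℕ × ℕ := (if t = 0 then TA else TB).getD j (0, 0)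
def te (t j : ℕ) (s : Bool) : ℕ := bif s then (tb t j).2 else (tb t j).1
def gc (G : List ℕ) (j : ℕ) : ℕ := if j < 6 then G.getD (j + 1) 0 else 0
def bars (Gs : List (List ℕ)) : List W := (List.range (12 * Gs.length)).map fun b =>
  (6 * (b / 12) + (tb ((Gs.getD (b / 12) []).getD 0 0) (b % 12)).1,
    6 * (b / 12) + (tb ((Gs.getD (b / 12) []).getD 0 0) (b % 12)).2, gc (Gs.getD (b / 12) []) (b % 12))

variable {Gs : List (List ℕ)}

lemma bars_len : (bars Gs).length = 12 * Gs.length := by simp [bars]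

lemma bars_pt {b : ℕ} (h : b < 12 * Gs.length) (s : Bool) :
    pt (bars Gs) b s = 6 * (b / 12) + te ((Gs.getD (b / 12) []).getD 0 0) (b % 12) s := by
  unfold pt te
  rw [List.getD_eq_getElem _ _ (bars_len ▸ h)]
  cases s <;> simp only [bars, List.getElem_map, List.getElem_range, cond_true, cond_false]

lemma bars_cl {b : ℕ} (h : b < 12 * Gs.length) : cl (bars Gs) b = gc (Gs.getD (b / 12) []) (b % 12) := by
  unfold cl
  rw [List.getD_eq_getElem _ _ (bars_len ▸ h)]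
  simp only [bars, List.getElem_map, List.getElem_range]

lemma te_01 (t : ℕ) : te t = te 0 ∨ te t = te 1 := by
  by_cases h : t = 0
  · exact .inl (by rw [h])
  · exact .inr (by funext j s; simp [te, tb, h])

lemma te_lt (t : ℕ) : ∀ j < 12, (∀ s, te t j s < 6) ∧ te t j true ≠ te t j false := by
  rcases te_01 t with h | h <;> rw [h] <;> decide

lemma te_v (t : ℕ) : ∀ j < 6, ∃ a < 6, ∃ b < 6, te t (6 + a) false = te t j false ∧ te t (6 + b) true = te t j false := by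
  rcases te_01 t with h | h <;> rw [h] <;> decide

lemma te_port (t : ℕ) : ∀ j < 12, ∀ j' < 12, ∀ s s', te t j s = te t j' s' ∧ (j < 6 ↔ j' < 6) ∧ s = s' → j = j' := by
  rcases te_01 t with h | h <;> rw [h] <;> decide

def GS (m : ℕ → ℝ) (G : List ℕ) : Prop := if G.getD 0 0 = 0 then
  (m (gc G 0) - m (gc G 1)) * (m (gc G 5) - m (gc G 4)) = (m (gc G 2) - m (gc G 1)) * (m (gc G 3) - m (gc G 4))
  else m (gc G 0) ≠ m (gc G 1) ∧ m (gc G 3) ≠ m (gc G 4)

def GC (m : ℕ → ℝ) (G : List ℕ) : Prop := (∀ j < 6, gc G j ≠ 0) ∧ if G.getD 0 0 = 0 then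
  GS m G ∧ m (gc G 5) ≠ m (gc G 4) ∧ m (gc G 3) ≠ m (gc G 4) ∧ m (gc G 5) ≠ m (gc G 3)
  else m (gc G 0) = 1 / 4 ∧ m (gc G 1) = 0 ∧ m (gc G 2) = 0 ∧ m (gc G 3) = 1 / 2 ∧ m (gc G 4) = -1 / 2 ∧ m (gc G 5) = 0

lemma gad (m : ℕ → ℝ) (G : List ℕ) (U : ℕ → ℂ) (hU : ∀ i < 6, ∀ j < 6, U i = U j → i = j)
    (hV : ∀ j < 6, (U (te (G.getD 0 0) (6 + j) true)).im = (U (te (G.getD 0 0) (6 + j) false)).im)
    (hH : ∀ j < 6, (U (te (G.getD 0 0) j true)).re - (U (te (G.getD 0 0) j false)).re =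
      m (gc G j) * ((U (te (G.getD 0 0) j true)).im - (U (te (G.getD 0 0) j false)).im)) : GS m G := by
  have n : ∀ i < 6, ∀ j < 6, i ≠ j → (U i).re = (U j).re → (U i).im = (U j).im → False :=
    fun i hi j hj h a b => h (hU i hi j hj (Complex.ext a b))
  have v0 := hV 0 (by omega)
  have v1 := hV 2 (by omega)
  have v2 := hV 4 (by omega)
  have h0 := hH 0 (by omega)
  have h1 := hH 1 (by omega)
  have h2 := hH 2 (by omega)
  have h3 := hH 3 (by omega)
  have h4 := hH 4 (by omega)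
  have h5 := hH 5 (by omega)
  unfold GS
  split_ifs with h <;> simp only [te, tb, h, TA, TB, if_true, if_false, cond_true, cond_false, List.getD_cons_succ,
    List.getD_cons_zero, Nat.reduceAdd] at v0 v1 v2 h0 h1 h2 h3 h4 h5 <;>
    simp only [v0, v1, v2] at h0 h1 h2 h3 h4 h5
  · have : (U 2).im - (U 0).im ≠ 0 := fun e => n 2 (by omega) 0 (by omega) (by omega)
      (by rw [e] at h0; linarith) (by linarith)
    refine mul_left_cancel₀ this ?_
    linear_combination (m (gc G 2) - m (gc G 1)) * (h3 + h4 + h5) - (m (gc G 5) - m (gc G 4)) * (h0 + h1 + h2)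
  · exact ⟨fun e => n 1 (by omega) 0 (by omega) (by omega) (by rw [e] at h0; linarith) v0,
      fun e => n 5 (by omega) 4 (by omega) (by omega) (by rw [e] at h3; linarith) v2⟩

theorem bars_sound {P δ : ℕ → ℂ} {e : ℕ → Bool → ℂ} (h : Bars (6 * Gs.length) (bars Gs) P δ e) :
    ∃ m, ∀ G ∈ Gs, GS m G := by
  obtain ⟨hi, h1, h2⟩ := h
  rw [bars_len] at h1 h2
  refine ⟨fun x => (δ x * conj (δ 0)).re / (δ x * conj (δ 0)).im, fun G hG => ?_⟩
  obtain ⟨g, hg, rfl⟩ := List.getElem_of_mem hG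
  have d : ∀ j < 12, 12 * g + j < 12 * Gs.length ∧ cl (bars Gs) (12 * g + j) = gc Gs[g] j ∧
      ∀ s, pt (bars Gs) (12 * g + j) s = 6 * g + te (Gs[g].getD 0 0) j s := fun j hj => by
    have a : 12 * g + j < 12 * Gs.length := by omega
    refine ⟨a, ?_, fun s => ?_⟩
    · rw [bars_cl a, show (12 * g + j) / 12 = g by omega, show (12 * g + j) % 12 = j by omega,
        List.getD_eq_getElem _ _ hg]
    · rw [bars_pt a, show (12 * g + j) / 12 = g by omega, show (12 * g + j) % 12 = j by omega,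
        List.getD_eq_getElem _ _ hg]
  generalize Gs[g] = G at d
  have k := fun j hj => h1 _ (d j hj).1
  have v : ∀ j, gc G (6 + j) = 0 := fun j => if_neg (by omega)
  have ν : δ 0 ≠ 0 := by simpa only [(d 6 (by omega)).2.1, v 0] using (k 6 (by omega)).1
  have s : ∀ j < 12, ∃ c : ℝ, P (6 * g + te (G.getD 0 0) j true) * conj (δ 0) =
      P (6 * g + te (G.getD 0 0) j false) * conj (δ 0) + c * (δ (gc G j) * conj (δ 0)) := fun j hj => by
    obtain ⟨c, hc⟩ := (k j hj).2.1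
    rw [(d j hj).2.1, (d j hj).2.2, (d j hj).2.2] at hc
    exact ⟨c, by linear_combination conj (δ 0) * hc⟩
  refine gad _ G (fun i => P (6 * g + i) * conj (δ 0)) (fun i a j b e => by
    have := hi _ (by omega) _ (by omega) (mul_right_cancel₀ ((map_ne_zero _).2 ν) e)
    omega) (fun j hj => ?_) fun j hj => ?_
  · obtain ⟨c, hc⟩ := s (6 + j) (by omega)
    simp only [hc, v, mul_conj, add_im, ← ofReal_mul, ofReal_im, add_zero]
  · obtain ⟨c, hc⟩ := s j (by omega)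
    have : (δ (gc G j) * conj (δ 0)).im ≠ 0 := fun h => by
      obtain ⟨a, ha, b, hb, e1, e2⟩ := te_v (G.getD 0 0) j hj
      have q1 := (k j (by omega)).2.2 false
      have q2 := (k (6 + a) (by omega)).2.2 false
      have q3 := (k (6 + b) (by omega)).2.2 true
      rw [(d _ (by omega)).2.1] at q1 q2 q3
      rw [v] at q2 q3
      have q4 : Pl (δ (gc G j)) (δ 0) := ⟨(δ (gc G j) * conj (δ 0)).re / normSq (δ 0), by
        have h' : ((δ (gc G j) * conj (δ 0)).re : ℂ) = δ (gc G j) * conj (δ 0) := Complex.ext rfl (by simp [h])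
        have : (normSq (δ 0) : ℂ) ≠ 0 := by simpa using ν
        rw [ofReal_div, h', div_mul_eq_mul_div, eq_div_iff this, ← mul_conj]; ring⟩
      refine three q1.1 q2.1 q3.1 (q1.2.trans q4) q2.2 q3.2 ?_ ?_ ?_ <;>
        refine h2 _ (d _ (by omega)).1 _ (d _ (by omega)).1 _ _ (by simp; try omega) ?_ <;>
        rw [(d _ (by omega)).2.2, (d _ (by omega)).2.2] <;> omega
    simp only [hc, add_re, add_im, re_ofReal_mul, im_ofReal_mul]
    generalize δ (gc G j) * conj (δ 0) = w at this ⊢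
    field_simp
    ring

lemma six {a b y1 y2 y3 y4 y5 : ℝ} (h1 : a ≠ 0) (h2 : b ≠ 0) (h3 : a ≠ b) (h4 : y1 ≠ 0) (h5 : y2 ≠ y3)
    (h6 : y4 ≠ y5) : ∀ i < 6, ∀ j < 6,
    ([⟨0, 0⟩, ⟨0, y1⟩, ⟨a, y2⟩, ⟨a, y3⟩, ⟨b, y4⟩, ⟨b, y5⟩] : List ℂ).getD i 0 =
    ([⟨0, 0⟩, ⟨0, y1⟩, ⟨a, y2⟩, ⟨a, y3⟩, ⟨b, y4⟩, ⟨b, y5⟩] : List ℂ).getD j 0 → i = j := fun i hi j hj => by
  interval_cases i <;> interval_cases j <;>
    simp [Complex.ext_iff, h1, h2, h3, h4, h5, h6, h1.symm, h2.symm, h3.symm, h4.symm, h5.symm, h6.symm]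

noncomputable def dl (m : ℕ → ℝ) (x : ℕ) : ℂ := if x = 0 then ⟨0, 1⟩ else ⟨1, m x⟩

lemma dl_ne (m : ℕ → ℝ) (x : ℕ) : dl m x ≠ 0 := by unfold dl; split_ifs <;> simp [Complex.ext_iff]

lemma gadc {m : ℕ → ℝ} (hm : ∀ x, |m x| ≤ 1 / 2) {G : List ℕ} (h : GC m G) : ∃ U : ℕ → ℂ,
    (∀ i < 6, ∀ j < 6, U i = U j → i = j) ∧
    ∀ j < 12, Pl (U (te (G.getD 0 0) j true) - U (te (G.getD 0 0) j false)) (dl m (gc G j)) := by
  obtain ⟨h0, h⟩ := h
  have pH : ∀ j < 6, ∀ z : ℂ, z.im = m (gc G j) * z.re → Pl z (dl m (gc G j)) := fun j hj z hz =>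
    ⟨z.re, by rw [dl, if_neg (h0 j hj)]; apply Complex.ext <;> simp [hz, mul_comm]⟩
  have pV : ∀ j, 6 ≤ j → ∀ z : ℂ, z.re = 0 → Pl z (dl m (gc G j)) := fun j hj z hz =>
    ⟨z.im, by rw [gc, if_neg (by omega), dl, if_pos rfl]; apply Complex.ext <;> simp [hz]⟩
  unfold GS at h
  split_ifs at h with ht
  · obtain ⟨e, a, b, c⟩ := h
    have m0 := abs_le.1 (hm (gc G 0))
    have m2 := abs_le.1 (hm (gc G 2))
    have m3 := abs_le.1 (hm (gc G 3))
    have m4 := abs_le.1 (hm (gc G 4))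
    have m5 := abs_le.1 (hm (gc G 5))
    refine ⟨_, six (y1 := 2) (y2 := m (gc G 0) * (m (gc G 5) - m (gc G 4)))
      (y3 := 2 + m (gc G 3) * (m (gc G 5) - m (gc G 4))) (y4 := m (gc G 2) * (m (gc G 3) - m (gc G 4)))
      (y5 := 2 + m (gc G 5) * (m (gc G 3) - m (gc G 4))) (sub_ne_zero.2 a) (sub_ne_zero.2 b) (by simpa using c)
      two_ne_zero (ne_of_lt (by nlinarith)) (ne_of_lt (by nlinarith)), fun j hj => ?_⟩
    interval_cases j <;> first | refine pH _ (by omega) _ ?_ | refine pV _ (by omega) _ ?_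
    all_goals simp only [te, tb, ht, TA, if_true, cond_true, cond_false, List.getD_cons_succ,
      List.getD_cons_zero, sub_re, sub_im]
    all_goals first | ring1 | linear_combination -e
  · obtain ⟨a, b, c, d, e, f⟩ := h
    refine ⟨_, six (a := 4) (b := 5) (y1 := 1) (y2 := 1) (y3 := 1 / 2) (y4 := 0) (y5 := 1) (by norm_num)
      (by norm_num) (by norm_num) (by norm_num) (by norm_num) (by norm_num), fun j hj => ?_⟩
    interval_cases j <;> first | refine pH _ (by omega) _ ?_ | refine pV _ (by omega) _ ?_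
    all_goals simp only [te, tb, ht, TB, if_false, cond_true, cond_false, List.getD_cons_succ,
      List.getD_cons_zero, sub_re, sub_im, a, b, c, d, e, f]
    all_goals norm_num

theorem bars_compl {m : ℕ → ℝ} (hm : ∀ x, |m x| ≤ 1 / 2) (h : ∀ G ∈ Gs, GC m G) : ∃ P,
    Bars (6 * Gs.length) (bars Gs) P (dl m) fun b s =>
      bif s then -dl m (cl (bars Gs) b) else dl m (cl (bars Gs) b) := by
  have hG : ∀ g < Gs.length, GC m (Gs.getD g []) := fun g hg => by
    rw [List.getD_eq_getElem _ _ hg]; exact h _ (List.getElem_mem hg)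
  obtain ⟨Q, a, b⟩ := seqL 6 (R := fun g U => ∀ j < 12, Pl (U (te ((Gs.getD g []).getD 0 0) j true) -
      U (te ((Gs.getD g []).getD 0 0) j false)) (dl m (gc (Gs.getD g []) j))) Set.finite_empty
      (List.range Gs.length) fun g hg F hF => by
    obtain ⟨U, a, b⟩ := gadc hm (hG g (List.mem_range.1 hg))
    obtain ⟨t, -, -, c⟩ := avc 6 (fun _ => 1) U (fun _ => one_ne_zero) hF Set.finite_empty 0
    exact ⟨fun i => 1 * t + U i, fun j hj => by simpa using b j hj, fun i hi j hj e => a i hi j hj (add_left_cancel e), c⟩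
  simp only [List.mem_range] at a b
  unfold Bars
  rw [bars_len]
  refine ⟨fun i => Q (i / 6) (i % 6), fun i hi j hj e => ?_, fun c hc => ⟨dl_ne _ _, ?_, fun s => ?_⟩,
    fun c hc c' hc' s s' hn e => ?_⟩
  · have := b _ (by omega) _ (by omega) _ (by omega) _ (by omega) e
    omega
  · have t := (te_lt ((Gs.getD (c / 12) []).getD 0 0) (c % 12) (by omega)).1
    have u : ∀ x y, y < 6 → (6 * x + y) / 6 = x ∧ (6 * x + y) % 6 = y := fun x y h => by omega
    simp only [bars_pt hc, bars_cl hc, u _ _ (t _)]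
    exact (a _ (by omega)).1 _ (by omega)
  · cases s
    · exact ⟨dl_ne _ _, 1, by simp⟩
    · exact ⟨neg_ne_zero.2 (dl_ne _ _), -1, by simp⟩
  · rw [bars_pt hc, bars_pt hc'] at e
    have t := (te_lt ((Gs.getD (c / 12) []).getD 0 0) (c % 12) (by omega)).1 s
    have t' := (te_lt ((Gs.getD (c' / 12) []).getD 0 0) (c' % 12) (by omega)).1 s'
    have g : c' / 12 = c / 12 := by omega
    rw [g] at e
    have p := fun a b => te_port _ _ (by omega) _ (by omega) _ _ ⟨Nat.add_left_cancel e, a, b⟩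
    have z : ∀ j, gc (Gs.getD (c / 12) []) j = 0 ↔ ¬j < 6 := fun j =>
      ⟨fun h h' => (hG _ (by omega)).1 j h' h, fun h => if_neg h⟩
    simp only [bars_cl hc, bars_cl hc', g]
    have p' : (gc (Gs.getD (c / 12) []) (c % 12) = 0 ↔ gc (Gs.getD (c / 12) []) (c' % 12) = 0) → s ≠ s' :=
      fun h h' => hn (by rw [z, z, not_iff_not] at h; rw [h', show c = c' by have := p h h'; omega])
    generalize gc (Gs.getD (c / 12) []) (c % 12) = x, gc (Gs.getD (c / 12) []) (c' % 12) = y at p'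
    have n : ∀ x, 1 ≤ ‖dl m x‖ := fun x => by
      unfold dl; split_ifs
      · exact le_trans (by simp) (abs_im_le_norm _)
      · exact le_trans (by simp) (abs_re_le_norm _)
    have n1 := one_le_mul_of_one_le_of_one_le (n x) (n y)
    have mx := abs_le.1 (hm x)
    have my := abs_le.1 (hm y)
    rw [A_iff]
    cases s <;> cases s' <;> simp only [cond_true, cond_false, norm_neg, neg_re, neg_im] <;>
      refine le_trans ?_ n1 <;> unfold dl <;> split_ifs with h1 h2 h2 <;> simp only [h1, h2] at p' <;>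
      first | exact (p' trivial rfl).elim | exact (p' Iff.rfl rfl).elim | nlinarith

def g8 (o : ℕ) (h : H3) : List (List ℕ) := [[0, h.1.1 + 4, o, 1, 3, 2, 1], [0, h.2.1.1 + 4, o + 1, 1, 3, 2, 1],
  [0, h.2.2.1 + 4, o + 2, 1, 3, 2, 1], [0, h.1.1 + 4, o, o + 3, 3, 2, h.1.2 + 4],
  [0, h.2.1.1 + 4, o + 1, o + 4, 3, 2, h.2.1.2 + 4], [0, h.2.2.1 + 4, o + 2, o + 5, 3, 2, h.2.2.2 + 4],
  [0, o + 3, o + 4, o + 6, 3, 2, 1], [0, o + 5, 1, o + 6, 3, 2, 1]]

def gs (D : ℕ) (H : List H3) : List (List ℕ) := [1, 4, 1, 1, 3, 2, 1] :: [0, 3, 2, 1, 2, 3, 1] ::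
  H.zipIdx.flatMap fun h => g8 (D + 4 + 7 * h.2) h.1

variable {D : ℕ} {H : List H3}

lemma hz (h : H3 × ℕ) (hh : h ∈ H.zipIdx) : h.1 ∈ H ∧ h.2 < H.length ∧ H.getD h.2 default = h.1 := by
  rw [List.mem_zipIdx_iff_getElem?, List.getElem?_eq_some_iff] at hh
  obtain ⟨a, b⟩ := hh
  exact ⟨b ▸ List.getElem_mem a, a, by rw [List.getD_eq_getElem _ _ a, b]⟩

lemma gs_wf (hb : Bd D H) : ∀ G ∈ gs D H, ∀ j, gc G j < D + 5 + 7 * H.length := by
  have : ∀ (n : ℕ) (G : List ℕ), 0 < n → (∀ x ∈ G, x < n) → ∀ j, gc G j < n := fun n G h0 h j => by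
    unfold gc; split_ifs
    · by_cases hj : j + 1 < G.length
      · rw [List.getD_eq_getElem _ _ hj]; exact h _ (List.getElem_mem hj)
      · rwa [List.getD_eq_default _ _ (by omega)]
    · exact h0
  intro G hG
  refine this _ _ (by omega) ?_
  revert G
  simp only [gs, g8, List.forall_mem_cons, List.forall_mem_flatMap, List.not_mem_nil, false_imp_iff, implies_true,
    and_true]
  refine ⟨by omega, by omega, fun h hh => ?_⟩
  have := hb _ (hz h hh).1
  have := (hz h hh).2.1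
  omega

theorem gs_sound {m : ℕ → ℝ} (h : ∀ G ∈ gs D H, GS m G) : ∃ x, x 0 ≠ 0 ∧ FF H x = 0 := by
  simp only [gs, g8, List.forall_mem_cons, List.forall_mem_flatMap, List.not_mem_nil, false_imp_iff, implies_true,
    GS, gc, List.getD_cons_succ, List.getD_cons_zero, Nat.reduceLT, if_true, one_ne_zero, if_false, Nat.reduceAdd,
    Nat.ofNat_pos, Nat.one_lt_ofNat] at h
  obtain ⟨⟨a, b⟩, c, h⟩ := h
  have k := sub_ne_zero.2 b
  have c : m 3 = 2 * m 1 - m 2 := mul_left_cancel₀ k (by linear_combination -c)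
  refine ⟨fun i => m (i + 4) - m 1, sub_ne_zero.2 a, FF_zero.2 fun g hg => ?_⟩
  obtain ⟨i, hi, rfl⟩ := List.getElem_of_mem hg
  obtain ⟨h1, h2, h3, h4, h5, h6, h7, h8, -⟩ := h (H[i], i) (by simp [List.mem_zipIdx_iff_getElem?])
  simp only [H3.q, H21.ER.mv]
  have k' : m 1 - m 2 ≠ 0 := fun e => k (by linarith)
  rw [c] at h1 h2 h3 h4 h5 h6 h7 h8
  have t : ∀ x y z : ℝ, (x - y) * (m 1 - m 2) = (z - y) * (2 * m 1 - m 2 - m 2) → y = 2 * z - x :=
    fun x y z h => mul_left_cancel₀ k' (by linear_combination h)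
  rw [t _ _ _ h1] at h4
  rw [t _ _ _ h2] at h5
  rw [t _ _ _ h3] at h6
  have h7 := t _ _ _ h7
  have h8 := t _ _ _ h8
  linear_combination (h4 + h5 - h6) / 2 + (m 1 - m 2) * (h7 - h8)

theorem gs_compl (hb : Bd D H) {x : ℕ → ℝ} (x0 : x 0 ≠ 0) (hx : ∀ h ∈ H, h.q x = 0) (hs : ∀ i < D, |x i| ≤ |x 0|)
    (hD : 0 < D) : ∃ m : ℕ → ℝ, (∀ x, |m x| ≤ 1 / 2) ∧ ∀ G ∈ gs D H, GC m G := by
  obtain ⟨y, y0, y1, y2⟩ : ∃ y : ℕ → ℝ, y 0 = 1 / 4 ∧ (∀ i, |y i| ≤ 1 / 4) ∧ ∀ h ∈ H, h.q y = 0 := by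
    refine ⟨fun i => if i < D then x i / x 0 / 4 else 0, by simp [hD, x0], fun i => ?_, fun h hh => ?_⟩
    · beta_reduce
      split_ifs with h
      · rw [abs_div, abs_div, Nat.abs_ofNat]
        gcongr
        exact (div_le_one (abs_pos.2 x0)).2 (hs i h)
      · simp
    · have := hx h hh
      simp only [H3.q, H21.ER.mv, hb h hh, if_true] at this ⊢
      field_simp
      linear_combination this
  let ax : H3 → List ℝ := fun h => [-y h.1.1, -y h.2.1.1, -y h.2.2.1, 2 * (y h.1.1 * y h.1.2),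
    2 * (y h.2.1.1 * y h.2.1.2), 2 * (y h.2.2.1 * y h.2.2.2), y h.2.2.1 * y h.2.2.2]
  obtain ⟨m, hm⟩ : ∃ m : ℕ → ℝ, ∀ c, m c = if c < 4 then [0, 0, -1 / 2, 1 / 2].getD c 0 else if c < D + 4 then
    y (c - 4) else (ax (H.getD ((c - (D + 4)) / 7) default)).getD ((c - (D + 4)) % 7) 0 := ⟨_, fun _ => rfl⟩
  have m1 : m 1 = 0 := by simp [hm]
  have m2 : m 2 = -1 / 2 := by simp [hm]
  have m3 : m 3 = 1 / 2 := by simp [hm]
  have m4 : ∀ i < D, m (i + 4) = y i := fun i hi => by rw [hm, if_neg (by omega), if_pos (by omega)]; rfl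
  have m5 : ∀ i, ∀ j < 7, m (D + 4 + 7 * i + j) = (ax (H.getD i default)).getD j 0 := fun i j hj => by
    rw [hm, if_neg (by omega), if_neg (by omega), show (D + 4 + 7 * i + j - (D + 4)) / 7 = i by omega,
      show (D + 4 + 7 * i + j - (D + 4)) % 7 = j by omega]
  have yy : ∀ i j, |y i * y j| ≤ 1 / 16 := fun i j => by
    rw [abs_mul]; nlinarith [y1 i, y1 j, abs_nonneg (y i), abs_nonneg (y j)]
  refine ⟨m, fun c => ?_, ?_⟩
  · rw [hm]
    split_ifs with h1 h2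
    · interval_cases c <;> norm_num [abs_div]
    · linarith [y1 (c - 4)]
    · generalize H.getD _ default = h, (c - (D + 4)) % 7 = j
      rcases j with _ | _ | _ | _ | _ | _ | _ | j <;> simp only [ax, List.getD_cons_succ, List.getD_cons_zero,
        List.getD_nil, abs_neg, abs_mul (2 : ℝ), Nat.abs_ofNat, abs_zero] <;>
        first | exact (y1 _).trans (by norm_num) | exact (yy _ _).trans (by norm_num) |
          exact (mul_le_mul_of_nonneg_left (yy _ _) zero_le_two).trans (by norm_num) | norm_num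
  · have f : ∀ (p : ℕ → Prop), (∀ j < 6, p j) ↔ p 0 ∧ p 1 ∧ p 2 ∧ p 3 ∧ p 4 ∧ p 5 := fun p =>
      ⟨fun h => ⟨h 0 (by omega), h 1 (by omega), h 2 (by omega), h 3 (by omega), h 4 (by omega), h 5 (by omega)⟩,
        fun ⟨a, b, c, d, e, f⟩ j hj => by interval_cases j <;> assumption⟩
    simp only [gs, g8, List.forall_mem_cons, List.forall_mem_flatMap, List.not_mem_nil, false_imp_iff, implies_true,
      GC, f, GS, gc, List.getD_cons_succ, List.getD_cons_zero, Nat.reduceLT, if_true, one_ne_zero, if_false,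
      Nat.reduceAdd, Nat.ofNat_pos, Nat.one_lt_ofNat, m1, m2, m3, (m4 0 hD).trans y0]
    refine ⟨by norm_num, by norm_num, fun h hh => ?_⟩
    obtain ⟨b1, b2, b3, b4, b5, b6⟩ := hb _ (hz h hh).1
    have q := y2 _ (hz h hh).1
    have n0 := m5 h.2 0 (by omega)
    simp only [H3.q, H21.ER.mv, add_zero] at q n0
    simp only [n0, m5 h.2 1 (by omega), m5 h.2 2 (by omega), m5 h.2 3 (by omega), m5 h.2 4 (by omega),
      m5 h.2 5 (by omega), m5 h.2 6 (by omega), (hz h hh).2.2, ax, List.getD_cons_succ, List.getD_cons_zero,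
      m4 _ b1, m4 _ b2, m4 _ b3, m4 _ b4, m4 _ b5, m4 _ b6]
    have t : ∀ i, y i ≠ -1 / 2 ∧ y i ≠ 1 / 2 := fun i => by
      constructor <;> intro e <;> have := abs_le.1 (y1 i) <;> linarith
    refine ⟨?_, ?_, ?_, ?_, ?_, ?_, ?_, ?_, trivial⟩ <;> refine ⟨by omega, ?_, ?_, by norm_num, ?_⟩ <;>
      first | exact (t _).1 | exact (t _).2 | ring1 | linarith | norm_num

end Pool.Agent.H4.AR
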