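import Pool.Agent.H11.GDefs

set_option autoImplicit false

namespace Pool.Agent.H4.AR

open Pool.Agent.H11.PT

/-- the graph has a straight-line drawing with angular resolution at least `π / 3` -/
def AngRes (G : ℕ × List (ℕ × ℕ)) : Prop :=
  ∃ p : Fin G.1 → EuclideanSpace ℝ (Fin 2), Function.Injective p ∧ ∀ u v w, (gr G.1 G.2).Adj u v →
    (gr G.1 G.2).Adj u w → v ≠ w → Real.pi / 3 ≤ EuclideanGeometry.angle (p v) (p u) (p w)

end Pool.Agent.H4.AR
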