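import Pool.Agent.H4.AR3
import Pool.Agent.H4.ARDefs
import Pool.Agent.H11.GMk

set_option autoImplicit false

namespace Pool.Agent.H4.AR

open Complex Pool.Agent.H11.PT Pool.Agent.H21.ER

lemma ar_iff (n : ℕ) (E : List (ℕ × ℕ)) : AngRes (n, E) ↔ ∃ p : Fin n → ℂ, Function.Injective p ∧
    ∀ u v w, (gr n E).Adj u v → (gr n E).Adj u w → v ≠ w → A (p v - p u) (p w - p u) := by
  let e := orthonormalBasisOneI.repr
  have k : ∀ p : Fin n → ℂ, Function.Injective p → ∀ u v w, (gr n E).Adj u v → (gr n E).Adj u w →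
      (Real.pi / 3 ≤ EuclideanGeometry.angle (e (p v)) (e (p u)) (e (p w)) ↔ A (p v - p u) (p w - p u)) :=
    fun p hp u v w h1 h2 => by
      rw [← angle_iff (sub_ne_zero.2 (hp.ne h1.ne')) (sub_ne_zero.2 (hp.ne h2.ne')), EuclideanGeometry.angle,
        vsub_eq_sub, vsub_eq_sub, ← map_sub, ← map_sub]
      exact iff_of_eq (congrArg _ (e.toLinearIsometry.angle_map _ _))
  refine ⟨fun ⟨p, a, b⟩ => ⟨fun u => e.symm (p u), e.symm.injective.comp a, fun u v w h1 h2 h => ?_⟩,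
    fun ⟨p, a, b⟩ => ⟨fun u => e (p u), e.injective.comp a, fun u v w h1 h2 h => (k p a u v w h1 h2).2 (b u v w h1 h2 h)⟩⟩
  refine (k _ (e.symm.injective.comp a) u v w h1 h2).1 ?_
  simpa using b u v w h1 h2 h

def gph (np nc : ℕ) (L : List W) : ℕ × List (ℕ × ℕ) :=
  ((vs np nc L.length).length, mkE (vs np nc L.length) fun u v => decide (aj L u v))

lemma gph_iff (np nc : ℕ) (L : List W) : AngRes (gph np nc L) ↔ ∃ p, Draw np nc L p := by
  obtain ⟨q, a, b, -, c⟩ := mkE_spec _ (nd_vs np nc L.length) fun u v => decide (aj L u v)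
  simp only [mem_vs, decide_eq_true_eq] at b c
  rw [gph, ar_iff]
  refine ⟨fun ⟨p, h1, h2⟩ => ⟨Function.extend q p 0, fun u v hu hv => ?_, fun u v w hu hv hw => ?_⟩,
    fun ⟨p, h1, h2⟩ => ⟨fun i => p (q i), fun i j e => a (h1 _ _ ((b _).2 ⟨i, rfl⟩) ((b _).2 ⟨j, rfl⟩) e),
      fun u v w h h' hn => h2 _ _ _ ((b _).2 ⟨u, rfl⟩) ((b _).2 ⟨v, rfl⟩) ((b _).2 ⟨w, rfl⟩) ((c _ _).1 h).1
        ((c _ _).1 h').1 ((c _ _).1 h).2 ((c _ _).1 h').2 (a.ne hn)⟩⟩
  · obtain ⟨i, rfl⟩ := (b u).1 hu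
    obtain ⟨j, rfl⟩ := (b v).1 hv
    rw [a.extend_apply, a.extend_apply]
    exact fun e => congrArg q (h1 e)
  · obtain ⟨i, rfl⟩ := (b u).1 hu
    obtain ⟨j, rfl⟩ := (b v).1 hv
    obtain ⟨k, rfl⟩ := (b w).1 hw
    simp only [a.extend_apply]
    exact fun n1 n2 a1 a2 n3 => h2 _ _ _ ((c _ _).2 ⟨n1, a1⟩) ((c _ _).2 ⟨n2, a2⟩) fun e => n3 (congrArg q e)

def red (D : ℕ) (H : List H3) : ℕ × List (ℕ × ℕ) := gph (6 * (gs D H).length) (D + 5 + 7 * H.length) (bars (gs D H))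

lemma red_iff {D : ℕ} {H : List H3} (hb : Bd D H) (hD : 0 < D)
    (hs : ∀ x, FF H x = 0 → ∀ i < D, |x i| ≤ |x 0|) : (∃ x, x 0 ≠ 0 ∧ FF H x = 0) ↔ AngRes (red D H) := by
  have wf : ∀ b < (bars (gs D H)).length, cl (bars (gs D H)) b < D + 5 + 7 * H.length ∧
      ∀ s, pt (bars (gs D H)) b s < 6 * (gs D H).length := fun b h => by
    rw [bars_len] at h
    have hg : b / 12 < (gs D H).length := by omega
    refine ⟨?_, fun s => ?_⟩
    · rw [bars_cl h, List.getD_eq_getElem _ _ hg]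
      exact gs_wf hb _ (List.getElem_mem hg) _
    · have := (te_lt (((gs D H).getD (b / 12) []).getD 0 0) (b % 12) (by omega)).1 s
      rw [bars_pt h]
      omega
  rw [red, gph_iff]
  constructor
  · rintro ⟨x, x0, hx⟩
    obtain ⟨m, a, b⟩ := gs_compl hb x0 (FF_zero.1 hx) (hs x hx) hD
    obtain ⟨P, hP⟩ := bars_compl a b
    exact draw_compl wf (dl_ne m) hP
  · rintro ⟨p, hp⟩
    obtain ⟨P, δ, e, h⟩ := draw_sound wf hp
    obtain ⟨m, hm⟩ := bars_sound h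
    exact gs_sound hm

lemma gph_pt : PT fun x : ℕ × ℕ × List W => gph x.1 x.2.1 x.2.2 := by
  have h : PT fun x : ℕ × ℕ × List W => vs x.1 x.2.1 x.2.2.length := by unfold vs; fun_prop
  refine PT.pair h.length (PT.mkE h ?_)
  unfold aj pt cl
  simp only [cond_true, cond_false]
  fun_prop

theorem hard : ∃ f : Qf → ℕ × List (ℕ × ℕ), PT f ∧ ∀ φ, ETR φ ↔ AngRes (f φ) := by
  have h1 : PT bars := by unfold bars tb gc; fun_prop
  have h2 : PT fun φ => gs (DD φ) (HH φ) := by unfold gs g8; fun_prop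
  refine ⟨fun φ => red (DD φ) (HH φ), gph_pt.comp (g := fun φ => (6 * (gs (DD φ) (HH φ)).length,
    DD φ + 5 + 7 * (HH φ).length, bars (gs (DD φ) (HH φ)))) (by fun_prop), fun φ => ?_⟩
  rw [HH_iff]
  refine red_iff (HH_bd φ) (by unfold DD; omega) fun x hx i hi => ?_
  have := HH_slack φ hi x
  rwa [hx, Real.sqrt_zero, add_zero, sq_le_sq] at this

def cj {β : Type} (g : β → Qf) (l : List β) : Qf := l.foldl (fun φ c => .and φ (g c)) (.eq (.num []) (.num []))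

lemma cj_iff {β : Type} (g : β → Qf) (l : List β) (x : ℕ → ℝ) : (cj g l).Holds x ↔ ∀ c ∈ l, (g c).Holds x := by
  induction l using List.reverseRecOn with
  | nil => simp [cj, Qf.Holds]
  | append_singleton cs c ih =>
    simp only [cj, List.foldl_append, List.foldl_cons, List.foldl_nil, Qf.Holds,
      List.forall_mem_append, List.forall_mem_singleton] at ih ⊢
    rw [ih]

lemma cj_post {β : Type} (g : β → Qf) (l : List β) :
    (cj g l).post = [0, 0, 6] ++ l.flatMap fun c => (g c).post ++ [10] := by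
  induction l using List.reverseRecOn with
  | nil => rfl
  | append_singleton cs c ih =>
    simp only [cj, List.foldl_append, List.foldl_cons, List.foldl_nil, Qf.post, List.flatMap_append] at ih ⊢
    simp [ih]

def ip (u v w : ℕ) : Tm := .add (.mul (.add (.var (2 * v)) (.neg (.var (2 * u)))) (.add (.var (2 * w)) (.neg (.var (2 * u)))))
  (.mul (.add (.var (2 * v + 1)) (.neg (.var (2 * u + 1)))) (.add (.var (2 * w + 1)) (.neg (.var (2 * u + 1)))))

def f1 (c : ℕ × ℕ) : Qf := .lt (.num []) (ip c.1 c.2 c.2)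
def f2 (c : W) : Qf := .or (.le (ip c.1 c.2.1 c.2.2) (.num [])) (.le (.mul (.num [true, false, false])
  (.mul (ip c.1 c.2.1 c.2.2) (ip c.1 c.2.1 c.2.2))) (.mul (ip c.1 c.2.1 c.2.1) (ip c.1 c.2.2 c.2.2)))

def mem (G : ℕ × List (ℕ × ℕ)) : Qf :=
  .and (cj f1 ((List.range G.1 ×ˢ List.range G.1).filter fun c => decide (c.1 ≠ c.2)))
    (cj f2 ((List.range G.1 ×ˢ (List.range G.1 ×ˢ List.range G.1)).filter fun c =>
      decide ((c.1 ≠ c.2.1 ∧ ((c.1, c.2.1) ∈ G.2 ∨ (c.2.1, c.1) ∈ G.2)) ∧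
        (c.1 ≠ c.2.2 ∧ ((c.1, c.2.2) ∈ G.2 ∨ (c.2.2, c.1) ∈ G.2)) ∧ c.2.1 ≠ c.2.2)))

lemma mem_pt : PT mem := by
  have : PT fun G => (mem G).post := by
    simp only [mem, Qf.post, cj_post, f1, f2, ip, Tm.post]
    fun_prop
  exact this.cast id (fun _ => rfl) fun _ => rfl

lemma A_alg (z w : ℂ) : A z w ↔ z.re * w.re + z.im * w.im ≤ 0 ∨ 4 * ((z.re * w.re + z.im * w.im) *
    (z.re * w.re + z.im * w.im)) ≤ (z.re * z.re + z.im * z.im) * (w.re * w.re + w.im * w.im) := by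
  have h0 := mul_nonneg (norm_nonneg z) (norm_nonneg w)
  rw [A_iff, ← normSq_apply, ← normSq_apply, ← Complex.sq_norm, ← Complex.sq_norm, ← mul_pow]
  generalize z.re * w.re + z.im * w.im = c, ‖z‖ * ‖w‖ = n at *
  refine ⟨fun h => (le_total c 0).imp id fun h' => by nlinarith, fun h => h.elim (fun h => by linarith) fun h => ?_⟩
  exact (abs_le_of_sq_le_sq' (by nlinarith) h0).2

lemma mem_iff (G : ℕ × List (ℕ × ℕ)) : AngRes G ↔ ETR (mem G) := by
  obtain ⟨n, E⟩ := G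
  have k : ∀ x : ℕ → ℝ, (mem (n, E)).Holds x ↔ (Function.Injective fun u : Fin n => (⟨x (2 * u), x (2 * u + 1)⟩ : ℂ)) ∧
      ∀ u v w, (gr n E).Adj u v → (gr n E).Adj u w → v ≠ w →
      A (⟨x (2 * v), x (2 * v + 1)⟩ - ⟨x (2 * u), x (2 * u + 1)⟩)
        (⟨x (2 * w), x (2 * w + 1)⟩ - ⟨x (2 * u), x (2 * u + 1)⟩) := fun x => by
    simp only [mem, Qf.Holds, cj_iff, List.mem_filter, Prod.forall, List.mem_product, List.mem_range,
      decide_eq_true_eq, f1, f2, ip, Tm.val, H21.ER.bin, List.foldl, A_alg, sub_re, sub_im, gr,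
      SimpleGraph.fromRel_adj, ← sub_eq_add_neg, Fin.forall_iff, ne_eq, Fin.mk.injEq, Function.Injective,
      Complex.mk.injEq]
    norm_num
    refine and_congr ⟨fun h a ha b hb e1 e2 => by_contra fun n => by simpa [e1, e2] using h a b ha hb n,
      fun h a b ha hb n => ?_⟩ ⟨fun h a ha b hb c hc h1 h2 h3 h4 h5 => h a b c ha hb hc h1 h2 h3 h4 h5,
      fun h a b c ha hb hc h1 h2 h3 h4 h5 => h a ha b hb c hc h1 h2 h3 h4 h5⟩
    by_contra h'
    have s1 := mul_self_nonneg (x (2 * b) - x (2 * a))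
    have s2 := mul_self_nonneg (x (2 * b + 1) - x (2 * a + 1))
    exact n (h a ha b hb (by nlinarith) (by nlinarith))
  rw [ar_iff]
  refine ⟨fun ⟨p, h⟩ => ⟨fun i => if h : i / 2 < n then if i % 2 = 0 then (p ⟨_, h⟩).re else (p ⟨_, h⟩).im else 0,
    (k _).2 ?_⟩, fun ⟨x, h⟩ => ⟨_, (k x).1 h⟩⟩
  have e1 : ∀ u : ℕ, 2 * u / 2 = u ∧ (2 * u + 1) / 2 = u ∧ 2 * u % 2 = 0 ∧ (2 * u + 1) % 2 = 1 := fun u => by omega
  simpa [e1] using h

end Pool.Agent.H4.AR
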