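import Pool.Agent.H4.CHDefs

set_option autoImplicit false

namespace Pool.Agent.H4.CH

open Finset Polynomial

noncomputable section

def ee (y : ℝ) : ℕ → ℝ
  | 0 => 1
  | 1 => 1 - 4 * y
  | m + 2 => (2 - 4 * y) * ee y (m + 1) - ee y m

lemma ee_eq (y : ℝ) (m : ℕ) : ∀ K, m < K → ∑ i ∈ range K, (-4 * y) ^ i * ((m + i).choose (2 * i) : ℝ) = ee y m := by
  induction m using Nat.strong_induction_on with
  | _ m ih =>
    intro K hK
    obtain ⟨K, rfl⟩ : ∃ k, K = k + 1 := ⟨K - 1, by omega⟩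
    match m with
    | 0 =>
      rw [sum_range_succ', sum_eq_zero fun i _ => by rw [Nat.choose_eq_zero_of_lt (by omega)]; simp]
      simp [ee]
    | 1 =>
      obtain ⟨K, rfl⟩ : ∃ k, K = k + 1 := ⟨K - 1, by omega⟩
      rw [sum_range_succ', sum_range_succ',
        sum_eq_zero fun i _ => by rw [Nat.choose_eq_zero_of_lt (by omega)]; simp]
      simp [ee]; ring
    | m + 2 =>
      have h1 := ih (m + 1) (by omega) (K + 1) (by omega)
      have h2 := ih m (by omega) (K + 1) (by omega)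
      have h3 := ih (m + 1) (by omega) K (by omega)
      rw [sum_range_succ'] at h1 h2 ⊢
      have : ∑ i ∈ range K, (-4 * y) ^ (i + 1) * ((m + 2 + (i + 1)).choose (2 * (i + 1)) : ℝ) =
          ∑ i ∈ range K, (2 * ((-4 * y) ^ (i + 1) * ((m + 1 + (i + 1)).choose (2 * (i + 1)) : ℝ)) -
          (-4 * y) ^ (i + 1) * ((m + (i + 1)).choose (2 * (i + 1)) : ℝ) +
          (-4 * y) * ((-4 * y) ^ i * ((m + 1 + i).choose (2 * i) : ℝ))) := by
        refine sum_congr rfl fun i _ => ?_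
        rw [show m + 2 + (i + 1) = m + i + 1 + 1 + 1 by omega, show m + 1 + (i + 1) = m + i + 1 + 1 by omega,
          show 2 * (i + 1) = 2 * i + 1 + 1 by omega, show m + 1 + i = m + i + 1 by omega, ← add_assoc m i,
          Nat.choose_succ_succ' (m + i + 1 + 1), Nat.choose_succ_succ' (m + i + 1) (2 * i + 1),
          Nat.choose_succ_succ' (m + i + 1) (2 * i)]
        push_cast; ring
      rw [this, sum_add_distrib, sum_sub_distrib, ← mul_sum, ← mul_sum, h3, ee]
      simp only [mul_zero, Nat.choose_zero_right, pow_zero, Nat.cast_one, mul_one] at *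
      linear_combination 2 * h1 - h2

def tt (m : ℕ) (y : ℝ) : ℝ := (ee y (m + 1) + ee y m) / 2

def cf (m i : ℕ) : ℝ := (-4) ^ (i + 1) * ((m + i).descFactorial (2 * i + 1) / (2 * i + 2).factorial)

def G (K m : ℕ) (y : ℝ) : ℝ := ∑ i ∈ range K, cf m i * y ^ (i + 1)

lemma tt_eq {K m : ℕ} (h : m < K) (y : ℝ) : tt m y = 1 + (m + 1) * G K (m + 1) y := by
  rw [tt, ← ee_eq y (m + 1) (K + 1) (by omega), ← ee_eq y m (K + 1) (by omega), sum_range_succ', sum_range_succ',
    G, mul_sum]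
  have : ∀ i ∈ range K, ((m : ℝ) + 1) * (cf (m + 1) i * y ^ (i + 1)) =
      ((-4 * y) ^ (i + 1) * ((m + 1 + (i + 1)).choose (2 * (i + 1)) : ℝ) +
      (-4 * y) ^ (i + 1) * ((m + (i + 1)).choose (2 * (i + 1)) : ℝ)) / 2 := fun i _ => by
    have h1 := Nat.descFactorial_eq_factorial_mul_choose (m + 1 + i + 1) (2 * i + 1 + 1)
    have h2 := Nat.descFactorial_eq_factorial_mul_choose (m + 1 + i) (2 * i + 1 + 1)
    rw [Nat.succ_descFactorial_succ] at h1
    rw [Nat.descFactorial_succ] at h2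
    have h3 : 2 * (m + 1) * (m + 1 + i).descFactorial (2 * i + 1) = (2 * i + 2).factorial *
        ((m + 1 + (i + 1)).choose (2 * (i + 1)) + (m + (i + 1)).choose (2 * (i + 1))) := by
      rw [mul_add (Nat.factorial _), show m + (i + 1) = m + 1 + i by omega, ← add_assoc (m + 1), show 2 * (i + 1) = 2 * i + 1 + 1 by omega,
        ← h1, ← h2, ← add_mul]
      by_cases hi : i ≤ m
      · congr 1; omega
      · rw [Nat.descFactorial_eq_zero_iff_lt.2 (by omega)]; simp
    have h4 : ((2 * i + 2).factorial : ℝ) ≠ 0 := by positivity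
    have h5 := congrArg (Nat.cast : ℕ → ℝ) h3
    push_cast at h5
    rw [cf, mul_pow]
    field_simp
    linear_combination (y ^ (i + 1)) * h5
  rw [sum_congr rfl this, ← sum_div, sum_add_distrib]
  simp; ring

def Q (y : ℝ) : ℝ[X] := 1 - C (2 - 4 * y) * X + X ^ 2

lemma Q_deg (y : ℝ) : (Q y).natDegree ≤ 2 := by unfold Q; compute_degree

lemma Q_ref (y : ℝ) : reflect 2 (Q y) = Q y := by
  have : reflect 2 (X : ℝ[X]) = X := by simpa [revAt] using reflect_monomial (R := ℝ) 2 1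
  rw [Q, reflect_add, reflect_sub, reflect_C_mul, this, reflect_one, reflect_monomial]
  simp; ring

def LD (f s : PowerSeries ℝ) : Prop := f * s = -PowerSeries.derivative ℝ f

lemma LD.mul {f s g u : PowerSeries ℝ} (h : LD f s) (h' : LD g u) : LD (f * g) (s + u) := by
  unfold LD at *
  rw [Derivation.leibniz, smul_eq_mul, smul_eq_mul]
  linear_combination g * h + f * h'

def st (y : ℝ) : PowerSeries ℝ := PowerSeries.mk fun m => tt m y

lemma Q_st (y : ℝ) : (Q y : PowerSeries ℝ) * st y = PowerSeries.C (1 - 2 * y) - PowerSeries.X := by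
  have : (Q y : PowerSeries ℝ) * st y = st y - PowerSeries.C (2 - 4 * y) * (st y * PowerSeries.X ^ 1) +
      st y * PowerSeries.X ^ 2 := by
    simp [Q]; ring
  rw [this]
  ext m
  rw [map_add, map_sub, PowerSeries.coeff_C_mul]
  simp only [map_sub, PowerSeries.coeff_mul_X_pow', st, PowerSeries.coeff_mk,
    PowerSeries.coeff_C, PowerSeries.coeff_X]
  rcases m with _ | _ | m <;> simp [tt, ee] <;> ring

lemma LD_Q (y : ℝ) : LD (Q y) (2 * st y) := by
  rw [LD, mul_left_comm, Q_st]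
  have : PowerSeries.C (2 - 4 * y) = 2 * PowerSeries.C (1 - 2 * y) := by
    rw [show 2 - 4 * y = 2 * (1 - 2 * y) by ring, map_mul]; rfl
  simp only [Q, Polynomial.coe_add, Polynomial.coe_sub, Polynomial.coe_one, Polynomial.coe_mul, coe_C, coe_X,
    Polynomial.coe_pow]
  generalize PowerSeries.C (1 - 2 * y) = c at *
  rw [map_add, map_sub, Derivation.leibniz, PowerSeries.derivative_C, this]
  simp [Derivation.leibniz_pow]
  ring

lemma LD_prod (n : ℕ) (g : ℕ → ℝ) : LD (∏ j ∈ range n, Q (g j) : ℝ[X]) (∑ j ∈ range n, 2 * st (g j)) := by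
  induction n with
  | zero => simp [LD]
  | succ n ih => rw [prod_range_succ, sum_range_succ, Polynomial.coe_mul]; exact ih.mul (LD_Q _)

lemma LD_end : LD (1 - X ^ 2 : ℝ[X]) (st 0 + st 1) := by
  have h0 := Q_st 0
  have h1 := Q_st 1
  have e : (PowerSeries.C 2 : PowerSeries ℝ) = 2 := rfl
  have n : (1 - PowerSeries.X ^ 2 : PowerSeries ℝ) ≠ 0 := fun h => by
    simpa using congrArg PowerSeries.constantCoeff h
  norm_num [Q, e] at h0 h1
  simp only [LD, Polynomial.coe_sub, Polynomial.coe_one, Polynomial.coe_pow, coe_X]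
  have d : PowerSeries.derivative ℝ (1 - PowerSeries.X ^ 2 : PowerSeries ℝ) = -2 * PowerSeries.X := by
    simp [Derivation.leibniz_pow]
  rw [d]
  apply mul_left_cancel₀ n
  linear_combination (1 + PowerSeries.X) ^ 2 * h0 + (1 - PowerSeries.X) ^ 2 * h1

lemma prod_deg (n : ℕ) (g : ℕ → ℝ) : (∏ j ∈ range n, Q (g j)).natDegree ≤ 2 * n ∧
    reflect (2 * n) (∏ j ∈ range n, Q (g j)) = ∏ j ∈ range n, Q (g j) ∧ (∏ j ∈ range n, Q (g j)).coeff 0 = 1 := by
  induction n with
  | zero => simp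
  | succ n ih =>
    rw [prod_range_succ, mul_add, mul_one, reflect_mul _ _ ih.1 (Q_deg _), ih.2.1, Q_ref, mul_coeff_zero, ih.2.2]
    exact ⟨natDegree_mul_le.trans (add_le_add ih.1 (Q_deg _)), rfl, by simp [Q]⟩

def A (h : ℕ) (x : ℕ → ℝ) : ℝ[X] := ∏ j ∈ range (h + 1), Q (x (2 * j + 1))
def B (h : ℕ) (x : ℕ → ℝ) : ℝ[X] := (1 - X ^ 2) * ∏ j ∈ range h, Q (x (2 * j + 2))
def La (h : ℕ) (x : ℕ → ℝ) (F : ℝ → ℝ) : ℝ :=
  ∑ j ∈ range (h + 1), (2 * F (x (2 * j + 1)) - F (x (2 * j)) - F (x (2 * j + 2)))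

lemma B_deg (h : ℕ) (x : ℕ → ℝ) : (B h x).natDegree ≤ 2 * (h + 1) ∧ reflect (2 * (h + 1)) (B h x) = -B h x ∧
    (B h x).coeff 0 = 1 := by
  have d : (1 - X ^ 2 : ℝ[X]).natDegree ≤ 2 := by compute_degree
  obtain ⟨a, b, c⟩ := prod_deg h fun j => x (2 * j + 2)
  rw [B, show 2 * (h + 1) = 2 + 2 * h by ring, reflect_mul _ _ d a, b, mul_coeff_zero, c]
  exact ⟨natDegree_mul_le.trans (add_le_add d a), by simp; ring, by simp⟩

lemma AB {h : ℕ} {x : ℕ → ℝ} (x0 : x 0 = 0) (x1 : x (2 * h + 2) = 1) :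
    (A h x : PowerSeries ℝ) * B h x * PowerSeries.mk (fun m => La h x (tt m)) =
      A h x * PowerSeries.derivative ℝ (B h x) - B h x * PowerSeries.derivative ℝ (A h x) := by
  have a := LD_prod (h + 1) fun j => x (2 * j + 1)
  have b := LD_end.mul (LD_prod h fun j => x (2 * j + 2))
  rw [← Polynomial.coe_mul] at b
  have : PowerSeries.mk (fun m => La h x (tt m)) = ∑ j ∈ range (h + 1), 2 * st (x (2 * j + 1)) -
      (st 0 + st 1 + ∑ j ∈ range h, 2 * st (x (2 * j + 2))) := by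
    ext m
    simp only [two_mul (st _)]
    simp only [La, sum_sub_distrib, PowerSeries.coeff_mk, map_sub, map_add, map_sum, st]
    rw [sum_range_succ' fun j => tt m (x (2 * j)), sum_range_succ fun j => tt m (x (2 * j + 2)), x1, mul_zero, x0]
    simp only [two_mul (tt _ _), sum_add_distrib, mul_add, mul_one]
    ring
  rw [this]
  change (A h x : PowerSeries ℝ) * _ = -PowerSeries.derivative ℝ (A h x) at a
  change (B h x : PowerSeries ℝ) * _ = -PowerSeries.derivative ℝ (B h x) at b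
  linear_combination (B h x : PowerSeries ℝ) * a - (A h x : PowerSeries ℝ) * b

end

end Pool.Agent.H4.CH
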