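import Pool.Agent.H4.CH1

set_option autoImplicit false

namespace Pool.Agent.H4.CH

open Finset Polynomial

noncomputable section

def RR (δ : ℕ) (m : ℝ[X]) : ℝ[X] := X ^ δ - reflect δ m * m

lemma ref_deg {N : ℕ} {p : ℝ[X]} (h : p.natDegree ≤ N) : (reflect N p).natDegree ≤ N :=
  natDegree_reflect_le.trans (max_le le_rfl h)

lemma RR_deg {δ : ℕ} {m : ℝ[X]} (hm : m.natDegree ≤ δ) :
    (RR δ m).natDegree ≤ δ + δ ∧ reflect (δ + δ) (RR δ m) = RR δ m := by
  refine ⟨(natDegree_sub_le _ _).trans (max_le (by simp) (natDegree_mul_le.trans (add_le_add (ref_deg hm) hm))), ?_⟩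
  rw [RR, reflect_sub, reflect_mul _ _ (ref_deg hm) hm, reflect_reflect, reflect_monomial, revAt_le (by omega),
    Nat.add_sub_cancel, mul_comm]

lemma core {δ u : ℕ} (hu : 4 * δ < u) {p m M y : ℝ[X]} (p0 : p ≠ 0) (hp : p.natDegree ≤ u + δ) (hm : m.natDegree ≤ δ)
    (hM : M.natDegree ≤ δ + δ) (hs : reflect (δ + δ) M = M)
    (h : reflect (u + δ) p = m * p + X ^ u * (M * p + X ^ u * y)) : ∃ σ : ℝ, RR δ m = C σ * M := by
  generalize hn : M * p + X ^ u * y = n at h
  obtain ⟨r1, r2⟩ := RR_deg hm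
  have dn : n.natDegree ≤ δ + δ := by
    by_cases n0 : n = 0
    · simp [n0]
    have : (X ^ u * n).natDegree ≤ δ + (u + δ) := by
      rw [← sub_eq_iff_eq_add'.2 h]
      exact (natDegree_sub_le _ _).trans (max_le ((ref_deg hp).trans (by omega))
        (natDegree_mul_le.trans (add_le_add hm hp)))
    rw [natDegree_X_pow_mul _ n0] at this
    omega
  have e1 := congrArg (reflect (δ + (u + δ))) h
  rw [reflect_add, reflect_mul _ _ hm hp, ← one_mul (reflect (u + δ) p), reflect_mul _ _ (by simp) (ref_deg hp),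
    reflect_reflect, reflect_one, show δ + (u + δ) = u + (δ + δ) by omega, reflect_mul _ _ (by simp) dn,
    reflect_monomial, revAt_le le_rfl, Nat.sub_self, pow_zero, one_mul, one_mul, h] at e1
  have e2 : M * reflect (δ + δ) n - RR δ m * n = 0 := by
    refine eq_zero_of_dvd_of_natDegree_lt (p := X ^ u) ⟨-(RR δ m * y + M * reflect δ m * n), ?_⟩ ?_
    · rw [RR]; linear_combination -M * e1 + (X ^ δ - reflect δ m * m) * hn
    · refine ((natDegree_sub_le _ _).trans (max_le (natDegree_mul_le.trans (add_le_add hM (ref_deg dn)))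
        (natDegree_mul_le.trans (add_le_add r1 dn)))).trans_lt ?_
      rw [natDegree_X_pow]; omega
  have e3 := congrArg (reflect (δ + δ + (δ + δ))) e2
  rw [reflect_sub, reflect_mul _ _ hM (ref_deg dn), reflect_mul _ _ r1 dn, hs, r2, reflect_reflect,
    reflect_zero] at e3
  by_cases n0 : n = 0
  · refine ⟨0, ?_⟩
    rw [n0, reflect_zero] at e1
    rw [C_0, zero_mul]
    refine (mul_eq_zero.1 (?_ : RR δ m * p = 0)).resolve_right p0
    rw [RR]; linear_combination e1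
  have e4 : (RR δ m - M) * (RR δ m + M) * n = 0 := by linear_combination -RR δ m * e2 - M * e3
  rcases mul_eq_zero.1 ((mul_eq_zero.1 e4).resolve_right n0) with e | e
  · exact ⟨1, by rw [C_1]; linear_combination e⟩
  · exact ⟨-1, by rw [C_neg, C_1]; linear_combination e⟩

variable {h : ℕ} {x : ℕ → ℝ}

lemma link (x0 : x 0 = 0) (x1 : x (2 * h + 2) = 1) {p q : ℝ[X]} (hA : A h x = p + q) (hB : B h x = p - q)
    (p0 : p.coeff 0 = 1) {β : PowerSeries ℝ} (hβ : β * p = q) :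
    (1 - β ^ 2) * PowerSeries.mk (fun m => La h x (tt m)) = -2 * PowerSeries.derivative ℝ β := by
  have := AB x0 x1
  have n : (p : PowerSeries ℝ) ≠ 0 := fun e => by simpa [p0] using congrArg (PowerSeries.coeff 0) e
  rw [hA, hB, Polynomial.coe_add, Polynomial.coe_sub, ← hβ, map_add, map_sub, Derivation.leibniz, smul_eq_mul,
    smul_eq_mul] at this
  apply mul_left_cancel₀ (pow_ne_zero 2 n)
  linear_combination this

lemma La_G {K m : ℕ} (hm : m < K) : La h x (tt m) = (m + 1) * La h x (G K (m + 1)) := by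
  simp only [La, tt_eq hm, mul_sum]
  exact sum_congr rfl fun _ _ => by ring

lemma lk1 {S β : PowerSeries ℝ} {v : ℕ} (e : (1 - β ^ 2) * S = -2 * PowerSeries.derivative ℝ β)
    (b0 : PowerSeries.coeff 0 β = 0) (hS : ∀ m < v, PowerSeries.coeff m S = 0) : PowerSeries.X ^ (v + 1) ∣ β := by
  have := PowerSeries.X_pow_dvd_iff.1 (e ▸ (PowerSeries.X_pow_dvd_iff.2 hS).mul_left (1 - β ^ 2))
  refine PowerSeries.X_pow_dvd_iff.2 ?_
  rintro (_ | m) hm
  · exact b0
  · have := this m (by omega)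
    rw [show (-2 : PowerSeries ℝ) = PowerSeries.C (-2) from (map_neg PowerSeries.C (2 : ℝ)).symm, PowerSeries.coeff_C_mul,
      PowerSeries.coeff_derivative] at this
    have h : (m + 1 : ℝ) ≠ 0 := by positivity
    simpa [h] using this

lemma lk2 {S β : PowerSeries ℝ} {v : ℕ} (e : (1 - β ^ 2) * S = -2 * PowerSeries.derivative ℝ β)
    (hb : PowerSeries.X ^ (v + 1) ∣ β) {m : ℕ} (hm : m < 3 * v + 2) :
    PowerSeries.coeff m S = -2 * (PowerSeries.coeff (m + 1) β * (m + 1)) := by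
  have t : ∀ w, PowerSeries.X ^ w ∣ S → ∀ m < (v + 1) * 2 + w,
      PowerSeries.coeff m S = -2 * (PowerSeries.coeff (m + 1) β * (m + 1)) := fun w hw m hm => by
    have := PowerSeries.X_pow_dvd_iff.1 (show PowerSeries.X ^ ((v + 1) * 2 + w) ∣ β ^ 2 * S by
      rw [pow_add, pow_mul]; exact mul_dvd_mul (pow_dvd_pow_of_dvd hb 2) hw) m hm
    have e' := congrArg (PowerSeries.coeff m) e
    rwa [show (-2 : PowerSeries ℝ) = PowerSeries.C (-2) from (map_neg PowerSeries.C (2 : ℝ)).symm, PowerSeries.coeff_C_mul,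
      PowerSeries.coeff_derivative, sub_mul, map_sub, this, one_mul, sub_zero] at e'
  refine t v (PowerSeries.X_pow_dvd_iff.2 fun j hj => ?_) m (by omega)
  rw [t 0 (by simp) j (by omega), PowerSeries.X_pow_dvd_iff.1 hb _ (by omega)]; simp

lemma lk3 (x0 : x 0 = 0) (x1 : x (2 * h + 2) = 1) {p q : ℝ[X]} (hA : A h x = p + q) (hB : B h x = p - q)
    (p0 : p.coeff 0 = 1) {β : PowerSeries ℝ} (hβ : β * p = q) {v : ℕ} (hb : PowerSeries.X ^ (v + 1) ∣ β)
    {m : ℕ} (m0 : 0 < m) (hm : m < 3 * (v + 1)) : La h x (G (3 * (v + 1)) m) = -2 * PowerSeries.coeff m β := by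
  obtain ⟨m, rfl⟩ : ∃ k, m = k + 1 := ⟨m - 1, by omega⟩
  have := lk2 (link x0 x1 hA hB p0 hβ) hb (m := m) (by omega)
  rw [PowerSeries.coeff_mk, La_G (K := 3 * (v + 1)) (by omega)] at this
  apply mul_left_cancel₀ (by positivity : (m + 1 : ℝ) ≠ 0)
  linear_combination this

lemma snd {δ u : ℕ} (hu : 4 * δ < u) (hh : 2 * (h + 1) = u + (u + δ)) (x0 : x 0 = 0) (x1 : x (2 * h + 2) = 1)
    (hz : ∀ m, 0 < m → m < 3 * u → m < u ∨ (u + δ < m ∧ m < 2 * u) ∨ 2 * u + 2 * δ < m → La h x (G (3 * u) m) = 0)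
    (hs : ∀ e ≤ δ + δ, La h x (G (3 * u) (2 * u + e)) = La h x (G (3 * u) (2 * u + (δ + δ - e)))) :
    ∃ (m : ℝ[X]) (σ : ℝ), m.natDegree ≤ δ ∧ (∀ e ≤ δ, La h x (G (3 * u) (u + e)) = -2 * m.coeff e) ∧
      ∀ e ≤ δ + δ, (RR δ m).coeff e = σ * La h x (G (3 * u) (2 * u + e)) := by
  obtain ⟨v, rfl⟩ : ∃ v, u = v + 1 := ⟨u - 1, by omega⟩
  obtain ⟨a1, a2, a3⟩ := prod_deg (h + 1) fun j => x (2 * j + 1)
  obtain ⟨b1, b2, b3⟩ := B_deg h x
  change (A h x).natDegree ≤ _ at a1
  change reflect _ (A h x) = A h x at a2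
  change (A h x).coeff 0 = 1 at a3
  obtain ⟨p, hp⟩ : ∃ p, p = C (1 / 2 : ℝ) * (A h x + B h x) := ⟨_, rfl⟩
  obtain ⟨q, hq⟩ : ∃ q, q = C (1 / 2 : ℝ) * (A h x - B h x) := ⟨_, rfl⟩
  have c2 : C (1 / 2 : ℝ) * 2 = 1 := by rw [← C_ofNat, ← C_mul]; norm_num
  have hA : A h x = p + q := by rw [hp, hq]; linear_combination -A h x * c2
  have hB : B h x = p - q := by rw [hp, hq]; linear_combination -B h x * c2
  have p0 : p.coeff 0 = 1 := by rw [hp, coeff_C_mul, coeff_add, a3, b3]; norm_num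
  have q0 : q.coeff 0 = 0 := by rw [hq, coeff_C_mul, coeff_sub, a3, b3]; norm_num
  have pq : reflect (v + 1 + (v + 1 + δ)) p = q := by rw [← hh, hp, hq, reflect_C_mul, reflect_add, a2, b2]; ring
  have dp : p.natDegree ≤ v + 1 + (v + 1 + δ) := by
    rw [hp, ← hh]
    exact (natDegree_C_mul_le _ _).trans ((natDegree_add_le _ _).trans (max_le a1 b1))
  obtain ⟨β, hβ⟩ : ∃ β : PowerSeries ℝ, β * p = q := ⟨q * (p : PowerSeries ℝ)⁻¹, by
    rw [mul_assoc, PowerSeries.inv_mul_cancel _ (by simp [p0]), mul_one]⟩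
  have hb : PowerSeries.X ^ (v + 1) ∣ β := lk1 (link x0 x1 hA hB p0 hβ) (by
    simpa [p0, q0] using congrArg (PowerSeries.coeff 0) hβ) fun m hm => by
      rw [PowerSeries.coeff_mk, La_G (K := 3 * (v + 1)) (by omega), hz _ (by omega) (by omega) (by omega), mul_zero]
  have l := fun m => lk3 x0 x1 hA hB p0 hβ hb (m := m)
  generalize v + 1 = u at *
  let m := PowerSeries.trunc (δ + 1) (PowerSeries.mk fun e => PowerSeries.coeff (u + e) β)
  let M := PowerSeries.trunc (δ + δ + 1) (PowerSeries.mk fun e => PowerSeries.coeff (2 * u + e) β)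
  have dm : m.natDegree ≤ δ := Nat.lt_succ_iff.1 (PowerSeries.natDegree_trunc_lt _ _)
  have dM : M.natDegree ≤ δ + δ := Nat.lt_succ_iff.1 (PowerSeries.natDegree_trunc_lt _ _)
  have d1 : PowerSeries.X ^ (3 * u) ∣ β - PowerSeries.X ^ u * (m : PowerSeries ℝ) -
      PowerSeries.X ^ (2 * u) * (M : PowerSeries ℝ) := by
    refine PowerSeries.X_pow_dvd_iff.2 fun j hj => ?_
    simp only [map_sub, PowerSeries.coeff_X_pow_mul', coeff_coe, m, M, PowerSeries.coeff_trunc, PowerSeries.coeff_mk]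
    have z : j < u ∨ (u + δ < j ∧ j < 2 * u) ∨ 2 * u + 2 * δ < j → PowerSeries.coeff j β = 0 := fun t => by
      rcases j.eq_zero_or_pos with rfl | j0
      · exact PowerSeries.X_pow_dvd_iff.1 hb 0 (by omega)
      · linarith [hz j j0 hj t, l j j0 hj]
    split_ifs <;> first | (exfalso; omega) | (rw [z (by omega)]; simp; done) | (rw [Nat.add_sub_cancel' ‹_›]; simp)
  obtain ⟨y, hy⟩ : X ^ (3 * u) ∣ q - X ^ u * m * p - X ^ (2 * u) * M * p := X_pow_dvd_iff.2 fun j hj => by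
    have := PowerSeries.X_pow_dvd_iff.1 (d1.mul_right p) j hj
    rw [sub_mul, sub_mul, hβ] at this
    rw [← coeff_coe]; simpa using this
  have hy' : q = X ^ u * (m * p + X ^ u * (M * p + X ^ u * y)) := by linear_combination hy
  have dp' : p.natDegree ≤ u + δ := natDegree_le_iff_coeff_eq_zero.2 fun j hj => by
    by_cases t : j ≤ u + (u + δ)
    · have := X_pow_dvd_iff.1 ⟨_, hy'⟩ (u + (u + δ) - j) (by omega)
      rwa [← pq, coeff_reflect, revAt_le (by omega), Nat.sub_sub_self t] at this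
    · exact coeff_eq_zero_of_natDegree_lt (by omega)
  rw [← one_mul p, reflect_mul _ _ (by simp) dp', reflect_one, hy'] at pq
  have sM : reflect (δ + δ) M = M := by
    ext e
    rw [coeff_reflect]
    by_cases he : e ≤ δ + δ
    · have := hs e he
      rw [l _ (by omega) (by omega), l _ (by omega) (by omega)] at this
      simp [M, PowerSeries.coeff_trunc, Nat.lt_succ_iff, he, revAt_le he]
      linarith
    · rw [revAt_eq_self_of_lt (by omega)]
  obtain ⟨σ, hσ⟩ := core hu (fun e => by simp [e] at p0) dp' dm dM sM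
    (mul_left_cancel₀ (pow_ne_zero u X_ne_zero) pq)
  refine ⟨m, -σ / 2, dm, fun e he => ?_, fun e he => ?_⟩
  · rw [l _ (by omega) (by omega)]; simp [m, PowerSeries.coeff_trunc, Nat.lt_succ_iff, he]
  · rw [l _ (by omega) (by omega), hσ, coeff_C_mul]; simp [M, PowerSeries.coeff_trunc, Nat.lt_succ_iff, he]; ring

end

end Pool.Agent.H4.CH
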