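import Pool.Agent.H4.CH2

set_option autoImplicit false

namespace Pool.Agent.H4.CH

open Finset Polynomial Real ComplexConjugate

noncomputable section

def ci (φ : ℝ) : ℂ := Complex.exp (φ * Complex.I)

lemma ci_add (a b : ℝ) : ci (a + b) = ci a * ci b := by simp [ci, add_mul, Complex.exp_add]
lemma ci_neg (a : ℝ) : ci (-a) = conj (ci a) := by simp [ci, ← Complex.exp_conj]
lemma ci_pow (a : ℝ) (n : ℕ) : ci a ^ n = ci (n * a) := by simp [ci, ← Complex.exp_nat_mul, mul_assoc]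
lemma ci_norm (a : ℝ) : ‖ci a‖ = 1 := Complex.norm_exp_ofReal_mul_I a
lemma ci_inv (a : ℝ) : ci a * ci (-a) = 1 := by rw [← ci_add]; simp [ci]
lemma ci_pi : ci π = -1 := Complex.exp_pi_mul_I

lemma ref_ci {N : ℕ} {p : ℝ[X]} (hp : p.natDegree ≤ N) (a : ℝ) :
    aeval (ci a) (reflect N p) = ci a ^ N * conj (aeval (ci a) p) := by
  letI : Invertible (ci (-a)) := ⟨ci a, ci_inv a, by rw [mul_comm, ci_inv]⟩
  have := eval₂_reflect_mul_pow (algebraMap ℝ ℂ) (ci (-a)) N p hp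
  rw [← aeval_conj, ← ci_neg, aeval_def, aeval_def, ← this, mul_left_comm, ← mul_pow, ci_inv, one_pow, mul_one]
  rfl

lemma Q_ci (a : ℝ) : aeval (ci a) (Q ((1 - cos a) / 2)) = 0 := by
  have h : 2 * (cos a : ℂ) = ci a + ci (-a) := by simp [ci, Complex.two_cos]
  have := ci_inv a
  simp only [Q, map_add, map_sub, map_mul, map_pow, aeval_X, aeval_C, map_one, Complex.coe_algebraMap]
  push_cast at h ⊢
  linear_combination -ci a * h - this

lemma root1 {H : ℕ} (H0 : 0 < H) {p : ℝ[X]} (dp : p.natDegree ≤ 2 * H)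
    (hb : ∀ a, ‖aeval (ci a) p - 1‖ ≤ 1 / 2) (l : ℕ) : ∃ φ : ℝ, |H * φ - l * (π / 2)| ≤ π / 6 ∧
      aeval (ci φ) (reflect (2 * H) p) = (-1) ^ l * aeval (ci φ) p := by
  have h0 : (H : ℝ) ≠ 0 := by positivity
  let W : ℝ → ℝ := fun a => (ci (-a) * aeval (ci ((a + l * (π / 2)) / H)) p).im
  have c : Continuous W := by
    refine Complex.continuous_im.comp (Continuous.mul (by unfold ci; fun_prop) (p.continuous_aeval.comp ?_))
    unfold ci; fun_prop
  have b : ∀ a, |W a + sin a| ≤ 1 / 2 := fun a => by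
    have := Complex.abs_im_le_norm (ci (-a) * (aeval (ci ((a + l * (π / 2)) / H)) p - 1))
    rw [norm_mul, ci_norm, one_mul, mul_sub, Complex.sub_im, mul_one,
      show (ci (-a)).im = -sin a by rw [ci, Complex.exp_ofReal_mul_I_im, sin_neg], sub_neg_eq_add] at this
    exact this.trans (hb _)
  have b1 := b (π / 6)
  have b2 := b (-(π / 6))
  rw [sin_neg] at b2
  rw [sin_pi_div_six, abs_le] at b1 b2
  obtain ⟨a, ha, e⟩ := intermediate_value_Icc' (by linarith [pi_pos] : -(π / 6) ≤ π / 6) c.continuousOn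
    (show (0 : ℝ) ∈ Set.Icc _ _ from ⟨by linarith, by linarith⟩)
  refine ⟨(a + l * (π / 2)) / H, by rw [mul_div_cancel₀ _ h0, add_sub_cancel_right, abs_le]; exact ha, ?_⟩
  have e' := Complex.conj_eq_iff_im.2 e
  rw [map_mul, ← ci_neg, neg_neg] at e'
  rw [ref_ci dp, ci_pow, show ((2 * H : ℕ) : ℝ) * ((a + l * (π / 2)) / H) = a + a + l * π by
    push_cast; field_simp; ring, ci_add, ci_add, ← ci_pow, ci_pi]
  have := ci_inv a
  generalize aeval (ci _) p = z at *
  linear_combination ci a * (-1) ^ l * e' + (-1) ^ l * z * this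

lemma uniq {H c : ℕ} {φ : ℕ → ℝ} (hφ : ∀ l, |H * φ l - l * (π / 2)| ≤ π / 6) {E : ℝ[X]} (dE : E.natDegree ≤ 2 * H)
    (E0 : E.coeff 0 = 0) (hc : c < 2) (hE : ∀ l ≤ 2 * H, l % 2 = c → aeval (ci (φ l)) E = 0) : E = 0 := by
  let θ : ℤ → ℝ := fun l => if 0 ≤ l then φ l.natAbs else -φ l.natAbs
  have t : ∀ l, |H * θ l - l * (π / 2)| ≤ π / 6 := fun l => by
    have := hφ l.natAbs
    rw [Nat.cast_natAbs, Int.cast_abs] at this
    simp only [θ]
    split_ifs with h
    · rwa [abs_of_nonneg (a := (l : ℝ)) (by exact_mod_cast h)] at this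
    · rw [abs_of_neg (a := (l : ℝ)) (by exact_mod_cast not_le.1 h)] at this
      rw [← abs_neg]; convert this using 2; ring
  let f : Option (Fin (2 * H)) → ℂ := fun o => o.elim 0 fun j => ci (θ (2 * j + 2 - c - 2 * H))
  have n0 : ∀ a, ci a ≠ 0 := fun a => Complex.exp_ne_zero _
  refine map_injective _ (algebraMap ℝ ℂ).injective ((eq_zero_of_natDegree_lt_card_of_eval_eq_zero _ (f := f) ?_ ?_
    ?_).trans (Polynomial.map_zero _).symm)
  · rintro (_ | i) (_ | j) e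
    · rfl
    · exact (n0 _ e.symm).elim
    · exact (n0 _ e).elim
    obtain ⟨n, e⟩ := Complex.exp_eq_exp_iff_exists_int.1 e
    have e' := congrArg Complex.im e
    simp at e'
    have t1 := abs_le.1 (t (2 * i + 2 - c - 2 * H))
    have t2 := abs_le.1 (t (2 * j + 2 - c - 2 * H))
    rw [e'] at t1
    push_cast at t1 t2
    have p := pi_pos
    have u : |((i : ℤ) - j - 2 * H * n : ℤ)| < 1 := by
      rw [← Int.cast_lt (R := ℝ)]
      push_cast
      rw [abs_lt]
      constructor <;> nlinarith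
    have u' : (i : ℤ) - j = 0 := Int.eq_zero_of_abs_lt_dvd (m := 2 * H) ⟨n, by linarith [Int.abs_lt_one_iff.1 u]⟩
      (by rw [abs_lt]; omega)
    rw [Fin.ext (by omega : i.1 = j.1)]
  · rintro (_ | j)
    · simp [f, eval_map, E0]
    · have := hE (2 * j + 2 - c - 2 * H : ℤ).natAbs (by omega) (by omega)
      simp only [f, Option.elim, eval_map, ← aeval_def, θ]
      split_ifs
      · exact this
      · rw [ci_neg, aeval_conj, this, map_zero]
  · exact natDegree_map_le.trans_lt (by simpa using Nat.lt_succ_of_le dE)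

lemma roots (h : ℕ) {p : ℝ[X]} (dp : p.natDegree < 2 * (h + 1)) (p0 : p.coeff 0 = 1)
    (hb : ∀ a, ‖aeval (ci a) p - 1‖ ≤ 1 / 2) : ∃ x : ℕ → ℝ, x 0 = 0 ∧ x (2 * h + 2) = 1 ∧
      (∀ j ≤ 2 * h + 1, x j ≤ x (j + 1)) ∧ A h x = p + reflect (2 * (h + 1)) p ∧
      B h x = p - reflect (2 * (h + 1)) p := by
  have pp := pi_pos
  have r : ∀ l : ℕ, ∃ φ : ℝ, |(h + 1 : ℕ) * φ - l * (π / 2)| ≤ π / 6 ∧
      aeval (ci φ) (reflect (2 * (h + 1)) p) = (-1) ^ l * aeval (ci φ) p ∧ (l = 0 → φ = 0) ∧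
      (l = 2 * h + 2 → φ = π) := fun l => by
    by_cases l0 : l = 0
    · refine ⟨0, by simp [l0]; linarith, ?_, fun _ => rfl, by omega⟩
      rw [ref_ci dp.le, ← aeval_conj, l0]; simp [ci]
    by_cases l1 : l = 2 * h + 2
    · refine ⟨π, ?_, ?_, by omega, fun _ => rfl⟩
      · rw [l1]; push_cast; ring_nf; simp; linarith
      · rw [ref_ci dp.le, ← aeval_conj, l1, ci_pi]; simp [pow_add, pow_mul]
    obtain ⟨φ, a, b⟩ := root1 h.succ_pos dp.le hb l
    exact ⟨φ, a, b, by omega, by omega⟩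
  choose φ r1 r2 r3 r4 using r
  have m : Monotone φ := monotone_nat_of_le_succ fun l => by
    have t1 := abs_le.1 (r1 l)
    have t2 := abs_le.1 (r1 (l + 1))
    push_cast at t1 t2
    exact le_of_mul_le_mul_left (a := (h : ℝ) + 1) (by linarith) (by positivity)
  have q0 : (reflect (2 * (h + 1)) p).coeff 0 = 0 := by
    rw [coeff_reflect, revAt_zero, coeff_eq_zero_of_natDegree_lt dp]
  have dq := ref_deg dp.le
  refine ⟨fun l => (1 - cos (φ l)) / 2, by simp [r3], by simp [r4], fun j hj => ?_, ?_, ?_⟩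
  · have := cos_le_cos_of_nonneg_of_le_pi (r3 0 rfl ▸ m j.zero_le) (r4 _ rfl ▸ m (by omega : j + 1 ≤ 2 * h + 2))
      (m j.le_succ)
    linarith
  · obtain ⟨a1, -, a3⟩ := prod_deg (h + 1) fun j => (1 - cos (φ (2 * j + 1))) / 2
    refine sub_eq_zero.1 (uniq (c := 1) r1 ((natDegree_sub_le _ _).trans (max_le a1 ((natDegree_add_le _ _).trans
      (max_le dp.le dq)))) (by rw [coeff_sub, coeff_add, q0, p0, A, a3]; simp) one_lt_two fun l hl e => ?_)
    rw [map_sub, map_add, r2, (Nat.odd_iff.2 e).neg_one_pow, A, map_prod, prod_eq_zero (i := l / 2) (by simp; omega)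
      (by rw [show 2 * (l / 2) + 1 = l by omega, Q_ci])]
    ring
  · obtain ⟨a1, -, a3⟩ := B_deg h fun l => (1 - cos (φ l)) / 2
    refine sub_eq_zero.1 (uniq (c := 0) r1 ((natDegree_sub_le _ _).trans (max_le a1 ((natDegree_sub_le _ _).trans
      (max_le dp.le dq)))) (by rw [coeff_sub, coeff_sub, q0, p0, a3]; simp) two_pos fun l hl e => ?_)
    rw [map_sub, map_sub, r2, (Nat.even_iff.2 e).neg_one_pow, B, map_mul, one_mul, sub_self, sub_zero]
    by_cases l0 : l = 0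
    · simp [r3 l l0, ci]
    by_cases l1 : l = 2 * h + 2
    · simp [r4 l l1, ci_pi]
    rw [map_prod, prod_eq_zero (i := l / 2 - 1) (by simp; omega)
      (by rw [show 2 * (l / 2 - 1) + 2 = l by omega, Q_ci]), mul_zero]

lemma cmp {h δ u : ℕ} (hu : 4 * δ < u) (hh : 2 * (h + 1) = u + (u + δ)) {m : ℝ[X]} (dm : m.natDegree ≤ δ)
    (hb : ∀ a, ‖aeval (ci a) (reflect δ m)‖ ≤ 1 / 2) : ∃ x : ℕ → ℝ, x 0 = 0 ∧ x (2 * h + 2) = 1 ∧
      (∀ j ≤ 2 * h + 1, x j ≤ x (j + 1)) ∧ ∀ j, 0 < j → j < 3 * u →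
        La h x (G (3 * u) j) = -2 * (X ^ u * m + X ^ (2 * u) * RR δ m).coeff j := by
  obtain ⟨v, rfl⟩ : ∃ v, u = v + 1 := ⟨u - 1, by omega⟩
  have d : (X ^ (v + 1) * reflect δ m).natDegree ≤ v + 1 + δ :=
    natDegree_mul_le.trans (add_le_add (by simp) (ref_deg dm))
  have d' : (1 + X ^ (v + 1) * reflect δ m).natDegree ≤ v + 1 + δ := (natDegree_add_le _ _).trans (max_le (by simp) d)
  have p0 : (1 + X ^ (v + 1) * reflect δ m).coeff 0 = 1 := by simp
  obtain ⟨x, x0, x1, xm, hA, hB⟩ := roots h (d'.trans_lt (by omega)) p0 fun a => by simpa [ci_norm] using hb a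
  refine ⟨x, x0, x1, xm, fun j j0 hj => ?_⟩
  rw [hh, ← one_mul (1 + _), reflect_mul _ _ (by simp) d', reflect_add, reflect_mul _ _ (by simp) (ref_deg dm),
    reflect_reflect, reflect_monomial, revAt_le le_rfl, Nat.sub_self, pow_zero, reflect_one, reflect_one, one_mul,
    one_mul] at hA hB
  obtain ⟨y, hy⟩ : ∃ y : PowerSeries ℝ, y * (1 + X ^ (v + 1) * reflect δ m : ℝ[X]) = 1 :=
    ⟨_, PowerSeries.inv_mul_cancel _ (by simp)⟩
  rw [lk3 x0 x1 hA hB p0 (β := ((X ^ (v + 1) * m + X ^ (2 * (v + 1)) * RR δ m : ℝ[X]) : PowerSeries ℝ) -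
    PowerSeries.X ^ (3 * (v + 1)) * (y * ((RR δ m * reflect δ m : ℝ[X]) : PowerSeries ℝ))) ?_ ?_ j0 hj, map_sub, PowerSeries.coeff_X_pow_mul', if_neg hj.not_ge,
    sub_zero, coeff_coe]
  · simp only [RR, Polynomial.coe_add, Polynomial.coe_sub, Polynomial.coe_one, Polynomial.coe_mul, coe_X,
      Polynomial.coe_pow] at hy ⊢
    linear_combination -PowerSeries.X ^ (3 * (v + 1)) * (PowerSeries.X ^ δ - (reflect δ m : PowerSeries ℝ) *
      (m : PowerSeries ℝ)) * (reflect δ m : PowerSeries ℝ) * hy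
  · simp only [Polynomial.coe_add, Polynomial.coe_mul, coe_X, Polynomial.coe_pow]
    exact ((dvd_mul_right _ _).add ((pow_dvd_pow _ (by omega)).mul_right _)).sub
      ((pow_dvd_pow _ (by omega)).mul_right _)

end

end Pool.Agent.H4.CH
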