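import Pool.Agent.H4.CH3
import Pool.Agent.H25.Rail1
import Pool.Agent.H21.Ten3

set_option autoImplicit false

namespace Pool.Agent.H4.CH

open Finset Polynomial Pool.Agent.H11.PT Pool.Agent.H25.BN Pool.Agent.H25.SP Pool.Agent.H25.Rail
open Pool.Agent.H21.ER (H3 Bd FF FF_zero Qf ETR HH DD HH_iff HH_bd HH_slack)

def bp (l : List ℕ) : Bn := ⟨l.prod⟩

@[fun_prop] theorem bp_pt {α : Type} [Enc α] {l : α → List ℕ} (hl : PT l) : PT fun x => bp (l x) := by
  have h0 : PT fun p : α × Bn × ℕ => Bn.mk p.2.2 := PT.ofN (by fun_prop)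
  have h1 : PT fun p : α × ℕ => Bn.mk p.2 := PT.ofN (by fun_prop)
  have h : PT fun x => (l x).foldl (fun c a => bmul c ⟨a⟩) ⟨1⟩ :=
    PT.foldl_add (g := fun _ c a => bmul c ⟨a⟩) hl (by fun_prop) (PT_bmul (by fun_prop) h0) (fun _ a => Bn.mk a) 0 h1
      fun _ c a => by
        have : (c.v * a).size ≤ c.v.size + a.size := by
          rw [Nat.size_le, pow_add]
          exact Nat.mul_lt_mul'' (Nat.lt_size_self _) (Nat.lt_size_self _)
        simp only [sz_bn, bmul]; omega
  refine h.of_eq fun x => ?_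
  have : ∀ (L : List ℕ) (c : Bn), L.foldl (fun c a => bmul c ⟨a⟩) c = ⟨c.v * L.prod⟩ := by
    intro L
    induction L with
    | nil => simp
    | cons b L ih => intro c; rw [List.foldl_cons, ih]; simp [bmul, mul_assoc]
  simp [this, bp]

def ds (n k : ℕ) : List ℕ := (List.range k).map fun t => n - t

lemma ds_prod (n k : ℕ) : (ds n k).prod = n.descFactorial k := by
  unfold ds
  induction k with
  | zero => simp
  | succ k ih => simp [List.range_succ, Nat.descFactorial_succ, ih, mul_comm]

def nu (l : List ℕ) (i : ℕ) : Bn := bsum (l.map fun m => bp (List.replicate (i + 1) 4 ++ ds (m + i) (2 * i + 1)))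

abbrev Cn := List ℕ × List ℕ

def co (c : Cn) (i : ℕ) : QB := (bif ble (nu c.2 i) (nu c.1 i) then decide (i % 2 = 0) else decide (i % 2 = 1),
  badd (bsub (nu c.1 i) (nu c.2 i)) (bsub (nu c.2 i) (nu c.1 i)), bp (ds (2 * i + 2) (2 * i + 2)))

def pol (K : ℕ) (c : Cn) : List QB := (false, ⟨0⟩, ⟨1⟩) :: (List.range K).map (co c)

lemma nu_eq (l : List ℕ) (i : ℕ) : (l.map fun m => cf m i).sum =
    (-1) ^ (i + 1) * ((nu l i).v / (2 * i + 2).factorial) := by
  induction l with
  | nil => simp [nu, bsum]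
  | cons m l ih =>
    rw [List.map_cons, List.sum_cons, ih, cf, neg_pow]
    simp [nu, bsum, bp, ds_prod]; ring

lemma co_eq (c : Cn) (i : ℕ) : qv (co c i) = (c.1.map fun m => cf m i).sum - (c.2.map fun m => cf m i).sum := by
  rw [nu_eq, nu_eq]
  simp only [qv, co, bp, ds_prod, Nat.descFactorial_self, badd, bsub, ble]
  generalize (nu c.1 i).v = a, (nu c.2 i).v = b
  rcases Nat.even_or_odd i with e | e <;> have e' := e <;> simp only [Nat.even_iff, Nat.odd_iff] at e' <;>
    rcases le_or_gt b a with t | t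
  · simp [t, e', pow_succ, e.neg_one_pow]; ring
  · simp [t.le, t.not_ge, e', pow_succ, e.neg_one_pow]; ring
  · simp [t, e', pow_succ, e.neg_one_pow]; ring
  · simp [t.le, t.not_ge, e', pow_succ, e.neg_one_pow]; ring

lemma ev_pol (K : ℕ) (c : Cn) (y : ℝ) :
    ev (pol K c) y = (c.1.map fun m => G K m y).sum - (c.2.map fun m => G K m y).sum := by
  have t : ∀ l : List ℕ, (l.map fun m => G K m y).sum =
      ∑ i ∈ range K, (l.map fun m => cf m i).sum * y ^ (i + 1) := fun l => by
    induction l with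
    | nil => simp
    | cons m l ih => simp only [List.map_cons, List.sum_cons, ih, add_mul, sum_add_distrib]; rfl
  rw [t, t, ← sum_sub_distrib, pol, ev]
  simp only [List.length_cons, Fin.sum_univ_succ, List.get_eq_getElem, Fin.val_zero, Fin.val_succ,
    List.getElem_cons_zero, List.getElem_cons_succ, List.getElem_map, List.getElem_range, co_eq, ← sub_mul]
  rw [Fin.sum_univ_eq_sum_range fun i => ((c.1.map fun m => cf m i).sum - (c.2.map fun m => cf m i).sum) * y ^ (i + 1)]
  simp [qv]

lemma eo (d : ℕ → ℝ) (H : ℕ) : ∑ j ∈ range (2 * H) with Even j, d j - ∑ j ∈ range (2 * H) with Odd j, d j =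
    ∑ j ∈ range H, (d (2 * j) - d (2 * j + 1)) := by
  simp only [sum_filter]
  induction H with
  | zero => simp
  | succ H ih =>
    rw [mul_add, mul_one, sum_range_succ, sum_range_succ, sum_range_succ, sum_range_succ, sum_range_succ, ← ih]
    simp [Nat.odd_iff]; ring

def Sat (γ : ℕ → ℝ) (c : Cn) : Prop := (c.1.map γ).sum = (c.2.map γ).sum

lemma CH_iff (h K : ℕ) (L : List Cn) : CH (2 * h + 1, L.map (pol K)) ↔ ∃ x : ℕ → ℝ, x 0 = 0 ∧ x (2 * h + 2) = 1 ∧
    (∀ j ≤ 2 * h + 1, x j ≤ x (j + 1)) ∧ ∀ c ∈ L, Sat (fun m => La h x (G K m)) c := by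
  simp only [CH, List.forall_mem_map]
  refine exists_congr fun x => and_congr_right' (and_congr_right' (and_congr_right' (forall₂_congr fun c _ => ?_)))
  have t : ∀ l : List ℕ, (l.map fun m => La h x (G K m)).sum = La h x fun y => (l.map fun m => G K m y).sum :=
    fun l => by
      induction l with
      | nil => simp [La]
      | cons m l ih =>
        simp only [List.map_cons, List.sum_cons, ih]
        simp only [La, ← sum_add_distrib]
        exact sum_congr rfl fun _ _ => by ring
  rw [← sub_eq_zero, show 2 * h + 1 + 1 = 2 * (h + 1) by ring, eo, Sat, t, t, ← sub_eq_zero (a := La _ _ _), La, La,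
    ← sum_sub_distrib]
  refine Eq.congr_left (sum_congr rfl fun j _ => ?_)
  simp only [ev_pol]; ring_nf

def vv (n j : ℕ) : ℕ := n * n + j * n

lemma vv_le {n j : ℕ} (h : j < n) : vv n j + n ≤ 2 * (n * n) ∧ n * n ≤ vv n j ∧ 2 * n ≤ n * n + 1 := by
  have := Nat.mul_le_mul_right n h
  refine ⟨by rw [vv]; nlinarith, by simp [vv], by zify; nlinarith [sq_nonneg ((n : ℤ) - 1)]⟩

lemma vv_lt {n i j : ℕ} (h : i < j) : vv n i + n ≤ vv n j := by
  have := Nat.mul_le_mul_right n h
  rw [vv, vv]; nlinarith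

def Sup (n : ℕ) (m : ℝ[X]) : Prop := ∀ e, m.coeff e ≠ 0 → e < n ∨ ∃ j < n, vv n j = e

lemma quad {n a b : ℕ} {m : ℝ[X]} (hm : Sup n m) (ha : a < n) (hb : b < n) :
    (RR (2 * (n * n)) m).coeff (2 * (n * n) + vv n b - a) = -(m.coeff a * m.coeff (vv n b)) := by
  have t := vv_le hb
  rw [RR, coeff_sub, coeff_X_pow, if_neg (by omega), coeff_mul, sum_eq_single (2 * (n * n) - a, vv n b), coeff_reflect,
    revAt_le (by omega), Nat.sub_sub_self (by omega), zero_sub]
  · rintro ⟨i, j⟩ hij ne
    rw [HasAntidiagonal.mem_antidiagonal] at hij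
    by_contra e
    rw [coeff_reflect] at e
    obtain ⟨e1, e2⟩ := mul_ne_zero_iff.1 e
    simp only [ne_eq, Prod.mk.injEq] at *
    have s : ∀ e, m.coeff e ≠ 0 → e ≤ 2 * (n * n) := fun e he => by
      rcases hm e he with h | ⟨j, hj, rfl⟩
      · omega
      · have := vv_le hj; omega
    have hi : i ≤ 2 * (n * n) := by
      by_contra hi
      rw [revAt_eq_self_of_lt (by omega)] at e1
      exact hi (s _ e1)
    rw [revAt_le hi] at e1
    rcases hm _ e2 with h | ⟨j', hj, rfl⟩
    · omega
    have t' := vv_le hj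
    rcases hm _ e1 with h | ⟨i', hi', h⟩
    · rcases lt_trichotomy j' b with u | rfl | u
      · have := vv_lt (n := n) u; omega
      · omega
      · have := vv_lt (n := n) u; omega
    · have := vv_le hi'; omega
  · exact fun h => (h (HasAntidiagonal.mem_antidiagonal.2 (by simp only; omega))).elim

def ps (n : ℕ) (a : ℕ × ℕ) : ℕ := 2 * (8 * (n * n) + 1) + (2 * (n * n) + vv n a.2 - a.1)

def cns (n u δ : ℕ) (H : List H3) : List Cn :=
  ([2 * u + δ], List.replicate (4 * n) u) ::
  ((((List.range (3 * u)).filter fun m => decide (0 < m ∧ (m < u ∨ (u + δ < m ∧ m < 2 * u) ∨ 2 * u + 2 * δ < m))).map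
    fun m => ([m], [])) ++
  (((List.range (δ + 1)).filter fun e => decide (¬(e < n ∨ e ∈ (List.range n).map (vv n)))).map fun e => ([u + e], [])) ++
  ((List.range n).map fun i => ([u + i], [u + vv n i])) ++
  ((List.range (δ + δ + 1)).map fun e => ([2 * u + e], [2 * u + (δ + δ - e)])) ++
  H.map fun h => ([ps n h.1, ps n h.2.1], [ps n h.2.2]))

def red (n : ℕ) (H : List H3) : ℕ × List (List QB) :=
  (2 * (9 * (n * n)) + 1, (cns n (8 * (n * n) + 1) (2 * (n * n)) H).map (pol (3 * (8 * (n * n) + 1))))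

section
variable {α : Type} [Enc α]

@[fun_prop] theorem nu_pt {l : α → List ℕ} {i : α → ℕ} (hl : PT l) (hi : PT i) : PT fun x => nu (l x) (i x) := by
  unfold nu ds; fun_prop

@[fun_prop] theorem co_pt {c : α → Cn} {i : α → ℕ} (hc : PT c) (hi : PT i) : PT fun x => co (c x) (i x) := by
  unfold co ds; fun_prop

@[fun_prop] theorem pol_pt {c : α → Cn} {i : α → ℕ} (hi : PT i) (hc : PT c) : PT fun x => pol (i x) (c x) := by
  unfold pol; fun_prop

@[fun_prop] theorem cns_pt {n u d : α → ℕ} {H : α → List H3} (hn : PT n) (hu : PT u) (hd : PT d) (hH : PT H) :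
    PT fun x => cns (n x) (u x) (d x) (H x) := by
  unfold cns ps vv; fun_prop

end

noncomputable def mm (n : ℕ) (x : ℕ → ℝ) : ℝ[X] := ∑ i ∈ range n, C (x i) * (X ^ i + X ^ vv n i)

lemma mm_co (n : ℕ) (x : ℕ → ℝ) : Sup n (mm n x) ∧ ∀ i < n, (mm n x).coeff i = x i ∧ (mm n x).coeff (vv n i) = x i := by
  simp only [Sup, mm, finset_sum_coeff, coeff_C_mul, coeff_add, coeff_X_pow]
  refine ⟨fun e he => ?_, fun i hi => ⟨?_, ?_⟩⟩
  · obtain ⟨i, hi, h⟩ := exists_ne_zero_of_sum_ne_zero he
    rw [mem_range] at hi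
    by_contra c
    push Not at c
    rw [if_neg (by omega), if_neg (c.2 i hi).symm] at h
    simp at h
  all_goals
    have := vv_le hi
    rw [sum_eq_single i (fun j hj ne => ?_) (by simp [hi]), if_pos rfl, if_neg (by omega)]
    · simp
    rw [mem_range] at hj
    have := vv_le hj
  · rw [if_neg ne.symm, if_neg (by omega)]; simp
  · rw [if_neg (by omega), if_neg]
    · simp
    · rcases lt_or_gt_of_ne ne with u | u <;> have := vv_lt (n := n) u <;> omega

lemma red_iff {n : ℕ} {H : List H3} (hb : Bd n H) (n0 : 0 < n) (hs : ∀ x, FF H x = 0 → ∀ i < n, x i ^ 2 ≤ x 0 ^ 2) :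
    CH (red n H) ↔ ∃ x, x 0 ≠ 0 ∧ FF H x = 0 := by
  rw [red, CH_iff]
  simp only [cns, List.forall_mem_cons, List.forall_mem_append, List.forall_mem_map]
  simp only [List.mem_filter,
    List.mem_range, decide_eq_true_eq, Sat, List.map_cons, List.map_nil, List.sum_cons, List.sum_nil, add_zero,
    List.map_replicate, List.sum_replicate, nsmul_eq_mul, List.mem_map, ps]
  have v0 := vv_le n0
  constructor
  · rintro ⟨x, x0, x1, -, c0, ⟨⟨⟨c1, c2⟩, c3⟩, c4⟩, c5⟩
    obtain ⟨m, σ, dm, h1, h2⟩ := snd (δ := 2 * (n * n)) (u := 8 * (n * n) + 1) (by omega) (by omega) x0 x1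
      (fun m a b c => c1 m ⟨b, a, c⟩) fun e he => c4 e (by omega)
    have s : Sup n m := fun e he => by
      by_contra c
      have := le_natDegree_of_ne_zero he
      exact he (by linarith [c2 e ⟨by omega, c⟩, h1 e (by omega)])
    have d : ∀ i < n, m.coeff (vv n i) = m.coeff i := fun i hi => by
      have := vv_le hi
      linarith [c3 i hi, h1 i (by omega), h1 (vv n i) (by omega)]
    have f : FF H (fun i => m.coeff i) = 0 := FF_zero.2 fun h hh => by
      obtain ⟨a1, a2, a3, a4, a5, a6⟩ := hb h hh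
      have b1 := vv_le a2
      have b2 := vv_le a4
      have b3 := vv_le a6
      have e1 := quad s a1 a2
      have e2 := quad s a3 a4
      have e3 := quad s a5 a6
      rw [h2 _ (by omega), d _ ‹_›] at e1 e2 e3
      simp only [H3.q, H21.ER.mv]
      linear_combination e1 + e2 - e3 - σ * c5 h hh
    refine ⟨_, fun z => ?_, f⟩
    have z' : ∀ i < n, m.coeff i = 0 := fun i hi => by simpa [z] using hs _ f i hi
    have m0 : m = 0 := ext fun e => by
      by_contra he
      rcases s e he with h | ⟨j, hj, rfl⟩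
      · exact he (z' e h)
      · exact he ((d j hj).trans (z' j hj))
    have := h2 (2 * (n * n)) (by omega)
    have h0 := h1 0 (by omega)
    rw [add_zero] at h0
    simp [c0, h0, m0, RR] at this
  · rintro ⟨y, y0, hy⟩
    have n1 : (0 : ℝ) < n := by positivity
    obtain ⟨l, ⟨l0, l1⟩, e⟩ := intermediate_value_Icc' (a := (0 : ℝ)) (b := 1 / (4 * n)) (by positivity)
      (f := fun l : ℝ => 1 - l ^ 2 * (reflect (2 * (n * n)) (mm n fun i => y i / y 0) *
        mm n fun i => y i / y 0).coeff (2 * (n * n)) - 4 * n * l) (by fun_prop) (show (0 : ℝ) ∈ Set.Icc _ _ from ⟨by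
          have : 0 ≤ (reflect (2 * (n * n)) (mm n fun i => y i / y 0) * mm n fun i => y i / y 0).coeff (2 * (n * n)) := by
            rw [coeff_mul]
            refine sum_nonneg fun c hc => ?_
            rw [HasAntidiagonal.mem_antidiagonal] at hc
            rw [coeff_reflect, revAt_le (by omega), show 2 * (n * n) - c.1 = c.2 by omega]
            exact mul_self_nonneg _
          rw [mul_one_div_cancel (by positivity)]
          nlinarith [sq_nonneg (1 / (4 * n) : ℝ)], by simp⟩)
    have em : (mm n fun i => l * (y i / y 0)) = C l * mm n fun i => y i / y 0 := by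
      simp [mm, mul_sum, mul_assoc]
    have e' : (RR (2 * (n * n)) (mm n fun i => l * (y i / y 0))).coeff (2 * (n * n)) = 4 * n * l := by
      rw [em, RR, reflect_C_mul, mul_mul_mul_comm, mul_assoc, coeff_sub, coeff_C_mul, coeff_C_mul, coeff_X_pow_self]
      linear_combination e
    obtain ⟨s, d⟩ := mm_co n fun i => l * (y i / y 0)
    have b : ∀ a, ‖aeval (ci a) (mm n fun i => l * (y i / y 0))‖ ≤ 1 / 2 := fun a => by
      rw [mm, map_sum]
      refine (norm_sum_le_of_le (n := fun _ => 2 * l) _ fun i hi => ?_).trans ?_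
      · have := hs y hy i (mem_range.1 hi)
        rw [sq_le_sq, ← div_le_one (abs_pos.2 y0), ← abs_div] at this
        rw [map_mul, norm_mul, aeval_C, map_add, aeval_X_pow, aeval_X_pow, ci_pow, ci_pow, Complex.coe_algebraMap,
          Complex.norm_real, Real.norm_eq_abs, abs_mul, abs_of_nonneg l0, mul_comm]
        exact mul_le_mul ((norm_add_le _ _).trans (by rw [ci_norm, ci_norm]; norm_num)) (mul_le_of_le_one_right l0 this)
          (by positivity) (by norm_num)
      · rw [le_div_iff₀ (by positivity)] at l1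
        simp; linarith
    generalize (mm n fun i => l * (y i / y 0)) = m at *
    have dm : m.natDegree ≤ 2 * (n * n) := natDegree_le_iff_coeff_eq_zero.2 fun e he => by
      by_contra c
      rcases s e c with h | ⟨j, hj, rfl⟩
      · omega
      · have := vv_le hj; omega
    obtain ⟨r1, r2⟩ := RR_deg dm
    obtain ⟨x, x0, x1, xm, g⟩ := cmp (h := 9 * (n * n)) (u := 8 * (n * n) + 1) (by omega) (by omega) dm fun a => by
      simpa [ref_ci dm, ci_norm] using b a
    simp only [coeff_add, coeff_X_pow_mul'] at g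
    have z := fun e => @coeff_eq_zero_of_natDegree_lt _ _ m e
    have g1 : ∀ e ≤ 2 * (n * n), La _ x (G _ (8 * (n * n) + 1 + e)) = -2 * m.coeff e := fun e he => by
      rw [g _ (by omega) (by omega), if_pos (by omega), if_neg (by omega), Nat.add_sub_cancel_left, add_zero]
    have g2 : ∀ e ≤ 2 * (n * n) + 2 * (n * n), La _ x (G _ (2 * (8 * (n * n) + 1) + e)) =
        -2 * (RR (2 * (n * n)) m).coeff e := fun e he => by
      rw [g _ (by omega) (by omega), if_pos (by omega), if_pos (by omega), Nat.add_sub_cancel_left, z _ (by omega),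
        zero_add]
    refine ⟨x, x0, x1, xm, ?_, ⟨⟨⟨fun j hj => ?_, fun j hj => ?_⟩, fun j hj => ?_⟩, fun j hj => ?_⟩, fun h hh => ?_⟩
    · have := g1 0 (by omega)
      rw [add_zero] at this
      rw [g2 _ (by omega), this, e', (d 0 n0).1, div_self y0]
      push_cast; ring
    · rw [g _ hj.2.1 hj.1]
      split_ifs
      · rw [z _ (by omega), coeff_eq_zero_of_natDegree_lt (by omega)]; simp
      · rw [z _ (by omega)]; simp
      · omega
      · simp
    · rw [g1 _ (by omega), by_contra fun c => hj.2 (s j c), mul_zero]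
    · have := vv_le hj
      rw [g1 _ (by omega), g1 _ (by omega), (d j hj).1, (d j hj).2]
    · rw [g2 _ (by omega), g2 _ (by omega), ← revAt_le (by omega), ← coeff_reflect, r2]
    · obtain ⟨a1, a2, a3, a4, a5, a6⟩ := hb h hh
      have b1 := vv_le a2
      have b2 := vv_le a4
      have b3 := vv_le a6
      have := FF_zero.1 hy h hh
      simp only [H3.q, H21.ER.mv] at this
      rw [g2 _ (by omega), g2 _ (by omega), g2 _ (by omega), quad s a1 a2, quad s a3 a4, quad s a5 a6, (d _ a1).1,
        (d _ a2).2, (d _ a3).1, (d _ a4).2, (d _ a5).1, (d _ a6).2]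
      linear_combination 2 * (l / y 0) ^ 2 * this

end Pool.Agent.H4.CH
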