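import Pool.Agent.H25.Bn

set_option autoImplicit false

namespace Pool.Agent.H4.CH

open Pool.Agent.H25.BN Finset

/-- rationals: sign (`true` = minus), binary numerator, binary denominator -/
abbrev QB := Bool × Bn × Bn

/-- value of a coded rational -/
noncomputable def qv (q : QB) : ℝ := (bif q.1 then -1 else 1) * (q.2.1.v / q.2.2.v)

/-- value at `y` of the polynomial with coefficient list `F` (constant term first) -/
noncomputable def ev (F : List QB) (y : ℝ) : ℝ := ∑ i : Fin F.length, qv (F.get i) * y ^ (i : ℕ)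

/-- some `k`-cut is a consensus halving for the polynomials of the list -/
def CH (I : ℕ × List (List QB)) : Prop :=
  ∃ x : ℕ → ℝ, x 0 = 0 ∧ x (I.1 + 1) = 1 ∧ (∀ j ≤ I.1, x j ≤ x (j + 1)) ∧ ∀ F ∈ I.2,
    ∑ j ∈ range (I.1 + 1) with Even j, (ev F (x (j + 1)) - ev F (x j)) =
      ∑ j ∈ range (I.1 + 1) with Odd j, (ev F (x (j + 1)) - ev F (x j))

end Pool.Agent.H4.CH
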