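import Pool.Agent.H4.CIDefs
import Pool.Agent.H21.Ten3

set_option autoImplicit false

namespace Pool.Agent.H4.CI

open Finset Pool.Agent.H11.PT Pool.Agent.H21.ER

def tb (n : ℕ) (p : ℕ → ℕ → Bool) : List (ℕ × ℕ) :=
  ((List.range n).flatMap fun i => (List.range n).map fun j => (i, j)).filter fun c => p c.1 c.2

lemma mem_tb {n : ℕ} {p : ℕ → ℕ → Bool} (i j : Fin n) : (i.1, j.1) ∈ tb n p ↔ p i j := by simp [tb]

lemma sq (m R : ℕ) (p q : ℕ → ℕ → Bool) :
    CI (m + R, tb (m + R) fun i s => decide (m ≤ i) || (decide (s < R) && p i s),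
      tb (m + R) fun s j => decide (m ≤ j) || decide (R ≤ s) || q s j) ↔ ∃ a b : ℕ → ℕ → ℝ,
      (∀ i < m, ∀ s < R, ¬p i s → a i s = 0) ∧ (∀ j < m, ∀ s < R, ¬q s j → b s j = 0) ∧
      ∀ i < m, ∀ j < m, ∑ s ∈ range R, a i s * b s j = if i = j then 1 else 0 := by
  simp only [CI, mem_tb]
  constructor
  · rintro ⟨M, N, hM, hN, h⟩
    refine ⟨fun i s => if h : i < m + R ∧ s < m + R then M ⟨i, h.1⟩ ⟨s, h.2⟩ else 0,
      fun i s => if h : i < m + R ∧ s < m + R then N ⟨i, h.1⟩ ⟨s, h.2⟩ else 0, fun i hi s hs e => ?_,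
      fun j hj s hs e => ?_, fun i hi j hj => ?_⟩
    · exact (dif_pos ⟨by omega, by omega⟩).trans (hM _ _ (by simp [e, hi]))
    · exact (dif_pos ⟨by omega, by omega⟩).trans (hN _ _ (by simp [e, hj, hs]))
    have := congrFun₂ h ⟨i, by omega⟩ ⟨j, by omega⟩
    simp only [Matrix.mul_apply, Matrix.one_apply, Fin.mk.injEq] at this
    rw [← this, sum_subset (range_mono (by omega : R ≤ m + R)), sum_range]
    · exact sum_congr rfl fun s _ => by beta_reduce; rw [dif_pos ⟨by omega, s.2⟩, dif_pos ⟨s.2, by omega⟩]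
    · intro s h1 h2
      rw [mem_range] at h1 h2
      beta_reduce
      rw [dif_pos ⟨by omega, h1⟩, hM _ _ (by simp [hi, h2]), zero_mul]
  · rintro ⟨a, b, ha, hb, h⟩
    let A : Matrix (Fin m) (Fin R) ℝ := fun i s => a i s
    let B : Matrix (Fin R) (Fin m) ℝ := fun i s => b i s
    have e : A * B = 1 := by
      ext i j
      rw [Matrix.mul_apply, Matrix.one_apply, Fin.sum_univ_eq_sum_range (fun s => a i s * b s j), h _ i.2 _ j.2]
      simp [Fin.ext_iff]
    let e1 : Fin m ⊕ Fin R ≃ Fin (m + R) := finSumFinEquiv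
    let e2 : Fin R ⊕ Fin m ≃ Fin (m + R) := finSumFinEquiv.trans (finCongr (add_comm _ _))
    refine ⟨(Matrix.fromBlocks A 0 (1 - B * A) B).submatrix e1.symm e2.symm,
      (Matrix.fromBlocks B (1 - B * A) 0 A).submatrix e2.symm e1.symm, fun i j => ?_, fun i j => ?_, ?_⟩
    · obtain ⟨i | i, rfl⟩ := e1.surjective i <;> obtain ⟨j | j, rfl⟩ := e2.surjective j <;>
        simp only [Matrix.submatrix_apply, Equiv.symm_apply_apply] <;> simp [e1, e2]
      exact fun h => ha _ i.2 _ j.2 (by simp [h])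
    · obtain ⟨i | i, rfl⟩ := e2.surjective i <;> obtain ⟨j | j, rfl⟩ := e1.surjective j <;>
        simp only [Matrix.submatrix_apply, Equiv.symm_apply_apply] <;> simp [e1, e2]
      exact fun h => hb _ j.2 _ i.2 (by simp [h])
    · rw [Matrix.submatrix_mul_equiv, Matrix.fromBlocks_multiply]
      simp [e, Matrix.mul_sub, Matrix.sub_mul, ← Matrix.mul_assoc, Matrix.mul_assoc B A B]

def inst (m : ℕ) (pa pb : ℕ → List ℕ) (S : List (ℕ × ℕ)) : ℕ × List (ℕ × ℕ) × List (ℕ × ℕ) :=
  (m + (5 + m * m), tb (m + (5 + m * m)) fun i s => decide (m ≤ i) || (decide (s < 5 + m * m) &&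
    decide (s ∈ pa i ∨ (5 ≤ s ∧ (s - 5) / m = i ∧ ¬(i = (s - 5) % m ∨ (i, (s - 5) % m) ∈ S)))),
    tb (m + (5 + m * m)) fun s j => decide (m ≤ j) || decide (5 + m * m ≤ s) ||
      decide (s ∈ pb j ∨ (5 ≤ s ∧ (s - 5) % m = j)))

lemma inst_iff {m : ℕ} {pa pb : ℕ → List ℕ} (h1 : ∀ i, ∀ s ∈ pa i, s < 5) (h2 : ∀ i, ∀ s ∈ pb i, s < 5)
    (S : List (ℕ × ℕ)) : CI (inst m pa pb S) ↔ ∃ a b : ℕ → ℕ → ℝ,
      (∀ i < m, ∀ s < 5, s ∉ pa i → a i s = 0) ∧ (∀ j < m, ∀ s < 5, s ∉ pb j → b j s = 0) ∧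
      ∀ i < m, ∀ j < m, i = j ∨ (i, j) ∈ S → ∑ s ∈ range 5, a i s * b j s = if i = j then 1 else 0 := by
  rw [inst, sq]
  simp only [decide_eq_true_eq, sum_range_add]
  constructor
  · rintro ⟨a, b, ha, hb, h⟩
    refine ⟨a, fun j s => b s j, fun i hi s hs e => ha i hi s (by omega) (by simp [e, hs]),
      fun i hi s hs e => hb i hi s (by omega) (by simp [e, hs]), fun i hi j hj e => ?_⟩
    rw [← h i hi j hj, sum_eq_zero (s := range (m * m)), add_zero]
    intro k hk
    rw [mem_range] at hk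
    by_cases t : k % m = j
    · rw [ha i hi _ (by omega), zero_mul]
      rintro (h | h)
      · have := h1 _ _ h; omega
      · simp only [Nat.add_sub_cancel_left, t] at h
        exact h.2.2 e
    · rw [hb j hj _ (by omega), mul_zero]
      rintro (h | h)
      · have := h2 _ _ h; omega
      · exact t (by simpa using h.2)
  · rintro ⟨a, b, ha, hb, h⟩
    refine ⟨fun i s => if s < 5 then a i s else if (s - 5) / m = i then (if i = (s - 5) % m then 1 else 0) -
      ∑ t ∈ range 5, a i t * b ((s - 5) % m) t else 0,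
      fun s j => if s < 5 then b j s else if (s - 5) % m = j then 1 else 0, fun i hi s hs e => ?_,
      fun i hi s hs e => ?_, fun i hi j hj => ?_⟩
    · beta_reduce
      split_ifs with u1 u2 u3 <;> try rfl
      · exact ha i hi s u1 fun c => e (.inl c)
      all_goals
        rw [h i hi _ (Nat.mod_lt _ (by omega)) (by_contra fun c => e (.inr ⟨by omega, u2, c⟩))]
      · rw [if_pos u3, sub_self]
      · rw [if_neg u3, sub_self]
    · beta_reduce
      split_ifs with u1 u2
      · exact hb i hi s u1 fun c => e (.inl c)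
      · exact (e (.inr ⟨by omega, u2⟩)).elim
      · rfl
    · have := Nat.mul_le_mul_left m hi
      have d : (m * i + j) / m = i := by rw [Nat.mul_add_div (by omega), Nat.div_eq_of_lt hj, add_zero]
      have d' : (m * i + j) % m = j := by rw [Nat.mul_add_mod, Nat.mod_eq_of_lt hj]
      beta_reduce
      rw [sum_congr rfl fun s hs => by rw [if_pos (mem_range.1 hs), if_pos (mem_range.1 hs)],
        sum_eq_single_of_mem (s := range (m * m)) (m * i + j) (mem_range.2 (by rw [Nat.mul_succ] at this; omega))]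
      · simp [d, d']
      · intro k _ ne
        simp only [add_lt_iff_neg_left, not_lt_zero', if_false, Nat.add_sub_cancel_left]
        by_cases u : k / m = i
        · rw [if_neg (c := k % m = j), mul_zero]
          intro c
          exact ne (by rw [← u, ← c, Nat.div_add_mod])
        · rw [if_neg u, zero_mul]

end Pool.Agent.H4.CI
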