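import Pool.Agent.H4.CI1

set_option autoImplicit false

namespace Pool.Agent.H4.CI

open Finset Pool.Agent.H11.PT Pool.Agent.H21.ER

def tab (T1 T2 T3 : List (List ℕ)) (D o : ℕ) : List ℕ :=
  (if o / 10 < D then T1 else if o / 10 = D then T2 else T3).getD (o % 10) []

def pa : ℕ → ℕ → List ℕ := tab [[0, 1, 2, 3, 4], [1], [2], [3], [4], [4], [0, 4], [1, 4], [2, 4], [3, 4]]
  [[0, 1], [1], [1, 2], [1, 3], [1, 4], [1], [1], [1], [1], [1]]
  [[0, 1, 2, 3], [4], [0], [0], [0], [0], [0], [0], [0], [0]]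

def pb : ℕ → ℕ → List ℕ := tab [[0], [0, 1], [0, 2], [0, 3], [0, 4], [0, 1, 2, 3, 4], [0], [1], [2], [3]]
  [[1], [1], [1], [1], [1], [0, 1], [1], [1, 2], [1, 3], [1, 4]]
  [[0], [1, 2, 3, 4], [0], [0], [0], [0], [0], [0], [0], [0]]

def sv (x D : ℕ) : List (ℕ × ℕ) := [(10 * x + 0, 10 * x + 1), (10 * x + 0, 10 * x + 2), (10 * x + 0, 10 * x + 3),
  (10 * x + 0, 10 * x + 4), (10 * x + 0, 10 * D + 7), (10 * x + 0, 10 * D + 8), (10 * x + 0, 10 * D + 9),
  (10 * x + 6, 10 * x + 5), (10 * x + 7, 10 * x + 5), (10 * x + 8, 10 * x + 5), (10 * x + 9, 10 * x + 5),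
  (10 * D + 0, 10 * x + 5), (10 * D + 2, 10 * x + 5), (10 * D + 3, 10 * x + 5), (10 * x + 6, 10 * x + 4)]

def se (g : ℕ) (h : H3) : List (ℕ × ℕ) := [(10 * g + 0, 10 * h.2.2.1 + 1), (10 * g + 0, 10 * h.1.1 + 2),
  (10 * g + 0, 10 * h.2.1.1 + 3), (10 * h.2.2.2 + 7, 10 * g + 1), (10 * h.1.2 + 8, 10 * g + 1),
  (10 * h.2.1.2 + 9, 10 * g + 1), (10 * g + 0, 10 * g + 1)]

def SL (D : ℕ) (H : List H3) : List (ℕ × ℕ) := [(10 * D + 0, 10 * D + 5), (10 * D + 2, 10 * D + 7),
  (10 * D + 3, 10 * D + 8), (10 * D + 4, 10 * D + 9), (10 * 0 + 0, 10 * D + 5)] ++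
  (List.range D).flatMap (fun x => sv x D) ++ H.zipIdx.flatMap fun h => se (D + 1 + h.2) h.1

def red (D : ℕ) (H : List H3) := inst (10 * (D + 1 + H.length)) (pa D) (pb D) (SL D H)

lemma tab_eq {T1 T2 T3 : List (List ℕ)} {D : ℕ} (g : ℕ) {t : ℕ} (ht : t < 10) : tab T1 T2 T3 D (10 * g + t) =
    (if g < D then T1 else if g = D then T2 else T3).getD t [] := by
  rw [tab, show (10 * g + t) / 10 = g by omega, show (10 * g + t) % 10 = t by omega]

lemma tab_lt {T1 T2 T3 : List (List ℕ)} (h : ∀ l ∈ T1 ++ T2 ++ T3, ∀ s ∈ l, s < 5) (D o : ℕ) :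
    ∀ s ∈ tab T1 T2 T3 D o, s < 5 := by
  intro s hs
  rw [tab, List.getD_eq_getElem?_getD] at hs
  cases e : (if o / 10 < D then T1 else if o / 10 = D then T2 else T3)[o % 10]? with
  | none => simp [e] at hs
  | some l =>
    refine h l ?_ s (by simpa [e] using hs)
    have := List.mem_of_getElem? e
    split_ifs at this <;> simp [this]

lemma par {p q r s u v : ℝ} (h1 : p * u + q * v = 0) (h2 : r * u + s * v = 0) (hv : v ≠ 0) : q * r = s * p :=
  mul_right_cancel₀ hv (by linear_combination r * h1 - p * h2)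

lemma hz {H : List H3} (h : H3 × ℕ) (hh : h ∈ H.zipIdx) : h.1 ∈ H ∧ h.2 < H.length ∧ H.getD h.2 default = h.1 := by
  rw [List.mem_zipIdx_iff_getElem?, List.getElem?_eq_some_iff] at hh
  obtain ⟨a, b⟩ := hh
  exact ⟨b ▸ List.getElem_mem a, a, by rw [List.getD_eq_getElem _ _ a, b]⟩

lemma sound {D : ℕ} {H : List H3} (hb : Bd D H) (D0 : 0 < D) (h : CI (red D H)) : ∃ x, x 0 ≠ 0 ∧ FF H x = 0 := by
  obtain ⟨a, b, ha, hb', h⟩ := (inst_iff (tab_lt (by decide) D) (tab_lt (by decide) D) _).1 h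
  have z : ∀ g < D + 1 + H.length, ∀ t < 10, ∀ g' < D + 1 + H.length, ∀ t' < 10, ∀ p q : ℕ, p < 5 → q < 5 → p ≠ q →
      (∀ s < 5, s ∈ pa D (10 * g + t) → s ∈ pb D (10 * g' + t') → s = p ∨ s = q) →
      ∑ s ∈ range 5, a (10 * g + t) s * b (10 * g' + t') s =
        a (10 * g + t) p * b (10 * g' + t') p + a (10 * g + t) q * b (10 * g' + t') q :=
    fun g hg t ht g' hg' t' ht' p q hp hq pq e => sum_eq_add_of_mem p q (mem_range.2 hp) (mem_range.2 hq) pq
      fun s hs ne => by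
        by_cases c : s ∈ pa D (10 * g + t)
        · rw [hb' _ (by omega) s (mem_range.1 hs) fun c' => (e s (mem_range.1 hs) c c').elim ne.1 ne.2, mul_zero]
        · rw [ha _ (by omega) s (mem_range.1 hs) c, zero_mul]
  have u : ∀ g < D + 1 + H.length, ∀ t < 10, ∀ p < 5,
      (∀ s < 5, s ∈ pa D (10 * g + t) → s ∈ pb D (10 * g + t) → s = p) →
      a (10 * g + t) p ≠ 0 ∧ b (10 * g + t) p ≠ 0 := fun g hg t ht p hp e => by
    have := h (10 * g + t) (by omega) (10 * g + t) (by omega) (.inl rfl)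
    rw [sum_eq_single_of_mem p (mem_range.2 hp) fun s hs ne => by
      by_cases c : s ∈ pa D (10 * g + t)
      · rw [hb' _ (by omega) s (mem_range.1 hs) fun c' => ne (e s (mem_range.1 hs) c c'), mul_zero]
      · rw [ha _ (by omega) s (mem_range.1 hs) c, zero_mul], if_pos rfl] at this
    exact mul_ne_zero_iff.1 (this.trans_ne one_ne_zero)
  have o : ∀ g < D + 1 + H.length, ∀ t < 10, ∀ g' < D + 1 + H.length, ∀ t' < 10, ∀ p q : ℕ, p < 5 → q < 5 → p ≠ q →
      t ≠ t' → (10 * g + t, 10 * g' + t') ∈ SL D H →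
      (∀ s < 5, s ∈ pa D (10 * g + t) → s ∈ pb D (10 * g' + t') → s = p ∨ s = q) →
        a (10 * g + t) p * b (10 * g' + t') p + a (10 * g + t) q * b (10 * g' + t') q = 0 :=
    fun g hg t ht g' hg' t' ht' p q hp hq pq tt m e => by
      rw [← z g hg t ht g' hg' t' ht' p q hp hq pq e, h _ (by omega) _ (by omega) (.inr m), if_neg (by omega)]
  have dD : D < D + 1 + H.length := by omega
  have hO := h
  have f : ∀ c : ℕ × ℕ, c ∈ [(0, 0), (2, 2), (3, 3), (4, 4)] → a (10 * D + c.1) 1 ≠ 0 ∧ b (10 * D + (5 + c.1)) 1 ≠ 0 ∧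
      a (10 * D + c.1) 1 * b (10 * D + (5 + c.1)) 1 + a (10 * D + c.1) c.1 * b (10 * D + (5 + c.1)) c.1 = 0 := by
    simp only [List.forall_mem_cons, List.not_mem_nil, false_imp_iff, implies_true, and_true]
    refine ⟨?_, ?_, ?_, ?_⟩ <;> exact ⟨(u D dD _ (by omega) 1 (by omega) (by rw [pa, pb, tab_eq _ (by omega), tab_eq _ (by omega)]; simp only [lt_irrefl, ↓reduceIte]; decide)).1,
      (u D dD _ (by omega) 1 (by omega) (by rw [pa, pb, tab_eq _ (by omega), tab_eq _ (by omega)]; simp only [lt_irrefl, ↓reduceIte]; decide)).2, o D dD _ (by omega) D dD _ (by omega) _ _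
        (by omega) (by omega) (by omega) (by omega) (by simp [SL]) (by rw [pa, pb, tab_eq _ (by omega), tab_eq _ (by omega)]; simp only [lt_irrefl, ↓reduceIte]; decide)⟩
  obtain ⟨⟨e0, d0, f0⟩, ⟨e2, d2, f2⟩, ⟨e3, d3, f3⟩, e4, d4, f4⟩ := And.intro (f (0, 0) (by simp))
    (And.intro (f (2, 2) (by simp)) (And.intro (f (3, 3) (by simp)) (f (4, 4) (by simp))))
  simp only [Nat.reduceAdd] at e0 d0 f0 e2 d2 f2 e3 d3 f3 e4 d4 f4
  have n0 := mul_ne_zero_iff.1 (fun c => mul_ne_zero e0 d0 (by linear_combination f0 - c) :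
    a (10 * D + 0) 0 * b (10 * D + 5) 0 ≠ 0)
  have n2 := mul_ne_zero_iff.1 (fun c => mul_ne_zero e2 d2 (by linear_combination f2 - c) :
    a (10 * D + 2) 2 * b (10 * D + 7) 2 ≠ 0)
  have n3 := mul_ne_zero_iff.1 (fun c => mul_ne_zero e3 d3 (by linear_combination f3 - c) :
    a (10 * D + 3) 3 * b (10 * D + 8) 3 ≠ 0)
  have n4 := mul_ne_zero_iff.1 (fun c => mul_ne_zero e4 d4 (by linear_combination f4 - c) :
    a (10 * D + 4) 4 * b (10 * D + 9) 4 ≠ 0)
  obtain ⟨r, hr⟩ : ∃ r : ℕ → ℝ, ∀ t, r t = a (10 * D + t) t / a (10 * D + t) 1 := ⟨_, fun _ => rfl⟩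
  have r0 : r 0 ≠ 0 := hr 0 ▸ div_ne_zero n0.1 e0
  have r2 : r 2 ≠ 0 := hr 2 ▸ div_ne_zero n2.1 e2
  have r3 : r 3 ≠ 0 := hr 3 ▸ div_ne_zero n3.1 e3
  obtain ⟨y, hy⟩ : ∃ y : ℕ → ℝ, ∀ x, y x = a (10 * x + 0) 1 / a (10 * x + 0) 0 := ⟨_, fun _ => rfl⟩
  have v : ∀ x < D, (b (10 * x + 1) 0 + y x * b (10 * x + 1) 1 = 0 ∧ b (10 * x + 1) 1 ≠ 0) ∧
      (b (10 * x + 2) 0 + y x * r 2 * b (10 * x + 2) 2 = 0 ∧ b (10 * x + 2) 2 ≠ 0) ∧
      (b (10 * x + 3) 0 + y x * r 3 * b (10 * x + 3) 3 = 0 ∧ b (10 * x + 3) 3 ≠ 0) ∧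
      (a (10 * x + 7) 4 + y x * r 0 * r 4 * a (10 * x + 7) 1 = 0 ∧ a (10 * x + 7) 1 ≠ 0) ∧
      (r 2 * a (10 * x + 8) 4 = y x * r 0 * r 4 * a (10 * x + 8) 2 ∧ a (10 * x + 8) 2 ≠ 0) ∧
      r 3 * a (10 * x + 9) 4 = y x * r 0 * r 4 * a (10 * x + 9) 3 ∧ a (10 * x + 9) 3 ≠ 0 := fun x hx => by
    have dx : x < D + 1 + H.length := by omega
    have m : ∀ c ∈ sv x D, c ∈ SL D H := fun c hc => by
      simp only [SL, List.mem_append, List.mem_flatMap, List.mem_range]
      exact .inl (.inr ⟨x, hx, hc⟩)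
    simp only [sv, List.forall_mem_cons] at m
    obtain ⟨m1, m2, m3, m4, m5, m6, m7, m8, m9, m10, m11, m12, m13, m14, m15, -⟩ := m
    have k1 := o x dx 0 (by omega) x dx 1 (by omega) 0 1 (by omega) (by omega) (by omega) (by omega) m1
      (by rw [pa, pb, tab_eq _ (by omega), tab_eq _ (by omega)]; simp only [hx, lt_irrefl, ↓reduceIte]; decide)
    have k2 := o x dx 0 (by omega) x dx 2 (by omega) 0 2 (by omega) (by omega) (by omega) (by omega) m2
      (by rw [pa, pb, tab_eq _ (by omega), tab_eq _ (by omega)]; simp only [hx, lt_irrefl, ↓reduceIte]; decide)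
    have k3 := o x dx 0 (by omega) x dx 3 (by omega) 0 3 (by omega) (by omega) (by omega) (by omega) m3
      (by rw [pa, pb, tab_eq _ (by omega), tab_eq _ (by omega)]; simp only [hx, lt_irrefl, ↓reduceIte]; decide)
    have k4 := o x dx 0 (by omega) x dx 4 (by omega) 0 4 (by omega) (by omega) (by omega) (by omega) m4
      (by rw [pa, pb, tab_eq _ (by omega), tab_eq _ (by omega)]; simp only [hx, lt_irrefl, ↓reduceIte]; decide)
    have k5 := o x dx 0 (by omega) D dD 7 (by omega) 1 2 (by omega) (by omega) (by omega) (by omega) m5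
      (by rw [pa, pb, tab_eq _ (by omega), tab_eq _ (by omega)]; simp only [hx, lt_irrefl, ↓reduceIte]; decide)
    have k6 := o x dx 0 (by omega) D dD 8 (by omega) 1 3 (by omega) (by omega) (by omega) (by omega) m6
      (by rw [pa, pb, tab_eq _ (by omega), tab_eq _ (by omega)]; simp only [hx, lt_irrefl, ↓reduceIte]; decide)
    have k7 := o x dx 0 (by omega) D dD 9 (by omega) 1 4 (by omega) (by omega) (by omega) (by omega) m7
      (by rw [pa, pb, tab_eq _ (by omega), tab_eq _ (by omega)]; simp only [hx, lt_irrefl, ↓reduceIte]; decide)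
    have k8 := o x dx 6 (by omega) x dx 5 (by omega) 0 4 (by omega) (by omega) (by omega) (by omega) m8
      (by rw [pa, pb, tab_eq _ (by omega), tab_eq _ (by omega)]; simp only [hx, lt_irrefl, ↓reduceIte]; decide)
    have k9 := o x dx 7 (by omega) x dx 5 (by omega) 1 4 (by omega) (by omega) (by omega) (by omega) m9
      (by rw [pa, pb, tab_eq _ (by omega), tab_eq _ (by omega)]; simp only [hx, lt_irrefl, ↓reduceIte]; decide)
    have k10 := o x dx 8 (by omega) x dx 5 (by omega) 2 4 (by omega) (by omega) (by omega) (by omega) m10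
      (by rw [pa, pb, tab_eq _ (by omega), tab_eq _ (by omega)]; simp only [hx, lt_irrefl, ↓reduceIte]; decide)
    have k11 := o x dx 9 (by omega) x dx 5 (by omega) 3 4 (by omega) (by omega) (by omega) (by omega) m11
      (by rw [pa, pb, tab_eq _ (by omega), tab_eq _ (by omega)]; simp only [hx, lt_irrefl, ↓reduceIte]; decide)
    have k12 := o D dD 0 (by omega) x dx 5 (by omega) 0 1 (by omega) (by omega) (by omega) (by omega) m12
      (by rw [pa, pb, tab_eq _ (by omega), tab_eq _ (by omega)]; simp only [hx, lt_irrefl, ↓reduceIte]; decide)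
    have k13 := o D dD 2 (by omega) x dx 5 (by omega) 1 2 (by omega) (by omega) (by omega) (by omega) m13
      (by rw [pa, pb, tab_eq _ (by omega), tab_eq _ (by omega)]; simp only [hx, lt_irrefl, ↓reduceIte]; decide)
    have k14 := o D dD 3 (by omega) x dx 5 (by omega) 1 3 (by omega) (by omega) (by omega) (by omega) m14
      (by rw [pa, pb, tab_eq _ (by omega), tab_eq _ (by omega)]; simp only [hx, lt_irrefl, ↓reduceIte]; decide)
    have k15 := o x dx 6 (by omega) x dx 4 (by omega) 0 4 (by omega) (by omega) (by omega) (by omega) m15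
      (by rw [pa, pb, tab_eq _ (by omega), tab_eq _ (by omega)]; simp only [hx, lt_irrefl, ↓reduceIte]; decide)
    have u0 := (u x dx 0 (by omega) 0 (by omega) (by rw [pa, pb, tab_eq _ (by omega), tab_eq _ (by omega)]; simp only [hx, lt_irrefl, ↓reduceIte]; decide)).1
    have u1 := (u x dx 1 (by omega) 1 (by omega) (by rw [pa, pb, tab_eq _ (by omega), tab_eq _ (by omega)]; simp only [hx, lt_irrefl, ↓reduceIte]; decide)).2
    have u2 := (u x dx 2 (by omega) 2 (by omega) (by rw [pa, pb, tab_eq _ (by omega), tab_eq _ (by omega)]; simp only [hx, lt_irrefl, ↓reduceIte]; decide)).2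
    have u3 := (u x dx 3 (by omega) 3 (by omega) (by rw [pa, pb, tab_eq _ (by omega), tab_eq _ (by omega)]; simp only [hx, lt_irrefl, ↓reduceIte]; decide)).2
    have u4 := (u x dx 4 (by omega) 4 (by omega) (by rw [pa, pb, tab_eq _ (by omega), tab_eq _ (by omega)]; simp only [hx, lt_irrefl, ↓reduceIte]; decide)).2
    have u5 := (u x dx 5 (by omega) 4 (by omega) (by rw [pa, pb, tab_eq _ (by omega), tab_eq _ (by omega)]; simp only [hx, lt_irrefl, ↓reduceIte]; decide)).2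
    have u6 := (u x dx 6 (by omega) 0 (by omega) (by rw [pa, pb, tab_eq _ (by omega), tab_eq _ (by omega)]; simp only [hx, lt_irrefl, ↓reduceIte]; decide)).1
    have u7 := (u x dx 7 (by omega) 1 (by omega) (by rw [pa, pb, tab_eq _ (by omega), tab_eq _ (by omega)]; simp only [hx, lt_irrefl, ↓reduceIte]; decide)).1
    have u8 := (u x dx 8 (by omega) 2 (by omega) (by rw [pa, pb, tab_eq _ (by omega), tab_eq _ (by omega)]; simp only [hx, lt_irrefl, ↓reduceIte]; decide)).1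
    have u9 := (u x dx 9 (by omega) 3 (by omega) (by rw [pa, pb, tab_eq _ (by omega), tab_eq _ (by omega)]; simp only [hx, lt_irrefl, ↓reduceIte]; decide)).1
    have w1 : a (10 * x + 0) 1 = y x * a (10 * x + 0) 0 := by rw [hy]; field_simp
    have w2 : a (10 * x + 0) 2 = y x * r 2 * a (10 * x + 0) 0 := by
      have := par k5 f2 n2.2
      rw [hr]; field_simp; rw [this, w1]; ring
    have w3 : a (10 * x + 0) 3 = y x * r 3 * a (10 * x + 0) 0 := by
      have := par k6 f3 n3.2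
      rw [hr]; field_simp; rw [this, w1]; ring
    have w4 : a (10 * x + 0) 4 = y x * r 4 * a (10 * x + 0) 0 := by
      have := par k7 f4 n4.2
      rw [hr]; field_simp; rw [this, w1]; ring
    have l0 : a (10 * x + 6) 4 = y x * r 4 * a (10 * x + 6) 0 :=
      mul_right_cancel₀ u0 (by linear_combination a (10 * x + 6) 0 * w4 - par k4 k15 u4)
    have c0 : b (10 * x + 5) 0 = -(y x * r 4) * b (10 * x + 5) 4 :=
      mul_left_cancel₀ u6 (by linear_combination k8 - b (10 * x + 5) 4 * l0)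
    have q : ∀ t, a (10 * D + t) 1 ≠ 0 → a (10 * D + t) t = r t * a (10 * D + t) 1 := fun t h => by
      rw [hr]; field_simp
    have c1 : b (10 * x + 5) 1 = y x * r 0 * r 4 * b (10 * x + 5) 4 := mul_left_cancel₀ e0 (by
      linear_combination k12 - a (10 * D + 0) 0 * c0 + y x * r 4 * b (10 * x + 5) 4 * q 0 e0)
    have c2 : r 2 * b (10 * x + 5) 2 = -b (10 * x + 5) 1 := mul_left_cancel₀ e2 (by
      linear_combination k13 - b (10 * x + 5) 2 * q 2 e2)
    have c3 : r 3 * b (10 * x + 5) 3 = -b (10 * x + 5) 1 := mul_left_cancel₀ e3 (by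
      linear_combination k14 - b (10 * x + 5) 3 * q 3 e3)
    refine ⟨⟨mul_left_cancel₀ u0 ?_, u1⟩, ⟨mul_left_cancel₀ u0 ?_, u2⟩, ⟨mul_left_cancel₀ u0 ?_, u3⟩,
      ⟨mul_left_cancel₀ u5 ?_, u7⟩, ⟨mul_left_cancel₀ u5 ?_, u8⟩, mul_left_cancel₀ u5 ?_, u9⟩
    · linear_combination k1 - b (10 * x + 1) 1 * w1
    · linear_combination k2 - b (10 * x + 2) 2 * w2
    · linear_combination k3 - b (10 * x + 3) 3 * w3
    · linear_combination k9 - a (10 * x + 7) 1 * c1
    · linear_combination r 2 * k10 - a (10 * x + 8) 2 * c2 + a (10 * x + 8) 2 * c1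
    · linear_combination r 3 * k11 - a (10 * x + 9) 3 * c3 + a (10 * x + 9) 3 * c1
  refine ⟨y, fun c => ?_, FF_zero.2 fun h hh => ?_⟩
  · have k := o 0 (by omega) 0 (by omega) D dD 5 (by omega) 0 1 (by omega) (by omega) (by omega) (by omega)
      (by simp [SL]) (by rw [pa, pb, tab_eq _ (by omega), tab_eq _ (by omega)]; simp only [D0, lt_irrefl, ↓reduceIte]; decide)
    have u0 := (u 0 (by omega) 0 (by omega) 0 (by omega) (by rw [pa, pb, tab_eq _ (by omega), tab_eq _ (by omega)]; simp only [D0, lt_irrefl, ↓reduceIte]; decide)).1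
    rw [hy, div_eq_zero_iff, or_iff_left u0] at c
    rw [c, zero_mul, add_zero] at k
    exact mul_ne_zero u0 n0.2 k
  obtain ⟨i, hi, e⟩ := List.getElem_of_mem hh
  obtain ⟨a1, a2, a3, a4, a5, a6⟩ := hb h hh
  have m : ∀ c ∈ se (D + 1 + i) h, c ∈ SL D H := fun c hc => by
    simp only [SL, List.mem_append, List.mem_flatMap]
    exact .inr ⟨(h, i), by simp [List.mem_zipIdx_iff_getElem?, hi, e], hc⟩
  have dg : D + 1 + i < D + 1 + H.length := by omega
  have g1 : ¬D + 1 + i < D := by omega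
  have g2 : ¬D + 1 + i = D := by omega
  generalize D + 1 + i = g at *
  simp only [se, List.forall_mem_cons] at m
  obtain ⟨m1, m2, m3, m4, m5, m6, m7, -⟩ := m
  have k1 := o g dg 0 (by omega) _ (by omega) 1 (by omega) 0 1 (by omega) (by omega) (by omega) (by omega) m1
    (by rw [pa, pb, tab_eq _ (by omega), tab_eq _ (by omega)]; simp only [g1, g2, a1, a2, a3, a4, a5, a6, lt_irrefl, ↓reduceIte]; decide)
  have k2 := o g dg 0 (by omega) _ (by omega) 2 (by omega) 0 2 (by omega) (by omega) (by omega) (by omega) m2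
    (by rw [pa, pb, tab_eq _ (by omega), tab_eq _ (by omega)]; simp only [g1, g2, a1, a2, a3, a4, a5, a6, lt_irrefl, ↓reduceIte]; decide)
  have k3 := o g dg 0 (by omega) _ (by omega) 3 (by omega) 0 3 (by omega) (by omega) (by omega) (by omega) m3
    (by rw [pa, pb, tab_eq _ (by omega), tab_eq _ (by omega)]; simp only [g1, g2, a1, a2, a3, a4, a5, a6, lt_irrefl, ↓reduceIte]; decide)
  have k4 := o _ (by omega) 7 (by omega) g dg 1 (by omega) 1 4 (by omega) (by omega) (by omega) (by omega) m4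
    (by rw [pa, pb, tab_eq _ (by omega), tab_eq _ (by omega)]; simp only [g1, g2, a1, a2, a3, a4, a5, a6, lt_irrefl, ↓reduceIte]; decide)
  have k5 := o _ (by omega) 8 (by omega) g dg 1 (by omega) 2 4 (by omega) (by omega) (by omega) (by omega) m5
    (by rw [pa, pb, tab_eq _ (by omega), tab_eq _ (by omega)]; simp only [g1, g2, a1, a2, a3, a4, a5, a6, lt_irrefl, ↓reduceIte]; decide)
  have k6 := o _ (by omega) 9 (by omega) g dg 1 (by omega) 3 4 (by omega) (by omega) (by omega) (by omega) m6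
    (by rw [pa, pb, tab_eq _ (by omega), tab_eq _ (by omega)]; simp only [g1, g2, a1, a2, a3, a4, a5, a6, lt_irrefl, ↓reduceIte]; decide)
  have k7 := hO _ (by omega) _ (by omega) (.inr m7)
  simp only [sum_range_succ, range_zero, sum_empty] at k7
  rw [if_neg (by omega), ha _ (by omega) 4 (by omega) (by rw [tab_eq _ (by omega), if_neg g1, if_neg g2]; decide),
    hb' _ (by omega) 0 (by omega) (by rw [tab_eq _ (by omega), if_neg g1, if_neg g2]; decide)] at k7
  have u0 := (u g dg 0 (by omega) 0 (by omega) (by rw [pa, pb, tab_eq _ (by omega), tab_eq _ (by omega)]; simp only [g1, g2, a1, a2, a3, a4, a5, a6, lt_irrefl, ↓reduceIte]; decide)).1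
  have u1 := (u g dg 1 (by omega) 4 (by omega) (by rw [pa, pb, tab_eq _ (by omega), tab_eq _ (by omega)]; simp only [g1, g2, a1, a2, a3, a4, a5, a6, lt_irrefl, ↓reduceIte]; decide)).2
  have r4 : r 4 ≠ 0 := hr 4 ▸ div_ne_zero n4.1 e4
  have p1 := (v _ a5).1
  have p2 := (v _ a1).2.1
  have p3 := (v _ a3).2.2.1
  have p4 := (v _ a6).2.2.2.1
  have p5 := (v _ a2).2.2.2.2.1
  have p6 := (v _ a4).2.2.2.2.2
  have s1 : a (10 * g + 0) 1 = y h.2.2.1 * a (10 * g + 0) 0 :=
    mul_right_cancel₀ p1.2 (by linear_combination k1 - a (10 * g + 0) 0 * p1.1)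
  have s2 : a (10 * g + 0) 2 = y h.1.1 * r 2 * a (10 * g + 0) 0 :=
    mul_right_cancel₀ p2.2 (by linear_combination k2 - a (10 * g + 0) 0 * p2.1)
  have s3 : a (10 * g + 0) 3 = y h.2.1.1 * r 3 * a (10 * g + 0) 0 :=
    mul_right_cancel₀ p3.2 (by linear_combination k3 - a (10 * g + 0) 0 * p3.1)
  have s4 : b (10 * g + 1) 1 = y h.2.2.2 * r 0 * r 4 * b (10 * g + 1) 4 :=
    mul_right_cancel₀ p4.2 (by linear_combination k4 - b (10 * g + 1) 4 * p4.1)
  have s5 : r 2 * b (10 * g + 1) 2 = -(y h.1.2 * r 0 * r 4 * b (10 * g + 1) 4) :=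
    mul_right_cancel₀ p5.2 (by linear_combination r 2 * k5 - b (10 * g + 1) 4 * p5.1)
  have s6 : r 3 * b (10 * g + 1) 3 = -(y h.2.1.2 * r 0 * r 4 * b (10 * g + 1) 4) :=
    mul_right_cancel₀ p6.2 (by linear_combination r 3 * k6 - b (10 * g + 1) 4 * p6.1)
  rw [s1, s2, s3, s4] at k7
  simp only [H3.q, H21.ER.mv]
  apply mul_left_cancel₀ (mul_ne_zero (mul_ne_zero u0 u1) (mul_ne_zero r0 r4))
  linear_combination y h.1.1 * a (10 * g + 0) 0 * s5 + y h.2.1.1 * a (10 * g + 0) 0 * s6 - k7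

def tr (F : ℕ → List (List ℝ)) (o s : ℕ) : ℝ := ((F (o / 10)).getD (o % 10) []).getD s 0

lemma tr_eq {F : ℕ → List (List ℝ)} (g : ℕ) {t : ℕ} (ht : t < 10) (s : ℕ) :
    tr F (10 * g + t) s = ((F g).getD t []).getD s 0 := by
  rw [tr, show (10 * g + t) / 10 = g by omega, show (10 * g + t) % 10 = t by omega]

def FA (D : ℕ) (H : List H3) (y : ℕ → ℝ) (g : ℕ) : List (List ℝ) :=
  if g < D then [[1, y g, y g, y g, y g], [0, 1], [0, 0, 1], [0, 0, 0, 1], [0, 0, 0, 0, 1], [0, 0, 0, 0, 1],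
    [1, 0, 0, 0, y g], [0, 1, 0, 0, -y g], [0, 0, 1, 0, y g], [0, 0, 0, 1, y g]]
  else if g = D then [[1, 1], [0, 1], [0, 1, 1], [0, 1, 0, 1], [0, 1, 0, 0, 1], [0, 1], [0, 1], [0, 1], [0, 1], [0, 1]]
  else [[1, y (H.getD (g - (D + 1)) default).2.2.1, y (H.getD (g - (D + 1)) default).1.1,
    y (H.getD (g - (D + 1)) default).2.1.1], [0, 0, 0, 0, 1], [1], [1], [1], [1], [1], [1], [1], [1]]

def FB (D : ℕ) (H : List H3) (y : ℕ → ℝ) (g : ℕ) : List (List ℝ) :=
  if g < D then [[1], [-y g, 1], [-y g, 0, 1], [-y g, 0, 0, 1], [-y g, 0, 0, 0, 1], [-y g, y g, -y g, -y g, 1],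
    [1], [0, 1], [0, 0, 1], [0, 0, 0, 1]]
  else if g = D then [[0, 1], [0, 1], [0, 1], [0, 1], [0, 1], [-1, 1], [0, 1], [0, 1, -1], [0, 1, 0, -1],
    [0, 1, 0, 0, -1]]
  else [[1], [0, y (H.getD (g - (D + 1)) default).2.2.2, -y (H.getD (g - (D + 1)) default).1.2,
    -y (H.getD (g - (D + 1)) default).2.1.2, 1], [1], [1], [1], [1], [1], [1], [1], [1]]

lemma compl {D : ℕ} {H : List H3} (hb : Bd D H) (D0 : 0 < D) {y : ℕ → ℝ} (y0 : y 0 = 1) (hy : ∀ h ∈ H, h.q y = 0) :
    CI (red D H) := by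
  have sp : ∀ o : ℕ, ∃ g, ∃ t < 10, o = 10 * g + t := fun o => ⟨o / 10, o % 10, by omega, by omega⟩
  refine (inst_iff (tab_lt (by decide) D) (tab_lt (by decide) D) _).2 ⟨tr (FA D H y), tr (FB D H y),
    fun o _ s hs => ?_, fun o _ s hs => ?_, ?_⟩
  · obtain ⟨g, t, ht, rfl⟩ := sp o
    rw [tab_eq _ ht, tr_eq _ ht, FA]
    split_ifs <;> interval_cases t <;> interval_cases s <;> simp
  · obtain ⟨g, t, ht, rfl⟩ := sp o
    rw [tab_eq _ ht, tr_eq _ ht, FB]
    split_ifs <;> interval_cases t <;> interval_cases s <;> simp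
  have k : ∀ c ∈ SL D H, c.1 ≠ c.2 ∧ ∑ s ∈ range 5, tr (FA D H y) c.1 s * tr (FB D H y) c.2 s = 0 := by
    simp only [SL, List.forall_mem_append, List.forall_mem_flatMap, List.mem_range, sv, se, List.forall_mem_cons,
      List.not_mem_nil, false_imp_iff, implies_true, and_true, sum_range_succ, range_zero, sum_empty]
    refine ⟨⟨?_, fun x hx => ?_⟩, fun h hh => ?_⟩
    · simp (disch := omega) only [tr_eq, FA, FB, D0, lt_irrefl, ↓reduceIte, y0]
      simp
    · simp (disch := omega) only [tr_eq, FA, FB, hx, lt_irrefl, ↓reduceIte]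
      simp; omega
    · obtain ⟨m, -, e⟩ := hz h hh
      obtain ⟨a1, a2, a3, a4, a5, a6⟩ := hb _ m
      have := hy _ m
      simp only [H3.q, H21.ER.mv] at this
      simp (disch := omega) only [tr_eq, FA, FB, a1, a2, a3, a4, a5, a6, ↓reduceIte, if_neg, Nat.add_sub_cancel_left, e]
      simp
      refine ⟨by omega, by omega, by omega, by omega, by omega, by omega, by linarith⟩
  rintro i - j - (rfl | h)
  · obtain ⟨g, t, ht, rfl⟩ := sp i
    simp only [tr_eq _ ht, FA, FB, sum_range_succ]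
    split_ifs <;> interval_cases t <;> simp
  · rw [(k _ h).2, if_neg (k _ h).1]

lemma red_iff {D : ℕ} {H : List H3} (hb : Bd D H) (D0 : 0 < D) : CI (red D H) ↔ ∃ x, x 0 ≠ 0 ∧ FF H x = 0 :=
  ⟨sound hb D0, fun ⟨x, x0, hx⟩ => compl hb D0 (y := fun i => x i / x 0) (div_self x0) fun h hh => by
    have := FF_zero.1 hx h hh
    simp only [H3.q, H21.ER.mv] at this ⊢
    field_simp
    linear_combination this⟩

variable {α : Type} [Enc α]

@[fun_prop] lemma tab_pt (T1 T2 T3 : List (List ℕ)) {D o : α → ℕ} (hD : PT D) (ho : PT o) :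
    PT fun x => tab T1 T2 T3 (D x) (o x) := by
  unfold tab; fun_prop

@[fun_prop] lemma SL_pt {D : α → ℕ} {H : α → List H3} (hD : PT D) (ho : PT H) : PT fun x => SL (D x) (H x) := by
  unfold SL sv se; fun_prop

lemma red_pt : PT fun x : ℕ × List H3 => red x.1 x.2 := by
  unfold red inst tb pa pb; fun_prop

end Pool.Agent.H4.CI
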