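import Mathlib

set_option autoImplicit false

namespace Pool.Agent.H4.CI

/-- two `n × n` zero patterns, given by the lists of their star positions, have fitting real matrices whose
product is the identity -/
def CI (I : ℕ × List (ℕ × ℕ) × List (ℕ × ℕ)) : Prop :=
  ∃ M N : Matrix (Fin I.1) (Fin I.1) ℝ, (∀ i j, (i.1, j.1) ∉ I.2.1 → M i j = 0) ∧
    (∀ i j, (i.1, j.1) ∉ I.2.2 → N i j = 0) ∧ M * N = 1

end Pool.Agent.H4.CI
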