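import Pool.Agent.H21.Ball2

set_option autoImplicit false

namespace Pool.Agent.H4.Loj

open Finset Pool.Agent.H21.Ball

variable {m d N N' K L : ℕ} {S : Set (Fin m → ℝ)}

lemma P_tail {F : (Fin m → ℝ) → ℝ} (h : P d N F) :
    P d N fun X : Fin (m + 1) → ℝ => F (Fin.tail X) := by
  obtain ⟨l, a, b, c⟩ := h
  refine ⟨l.map fun t => (t.1, Fin.cons 0 t.2), by simpa, List.forall_mem_map.2 fun t ht => ?_,
    fun X => ?_⟩
  · simpa [Fin.sum_univ_succ] using b t ht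
  · simp only [c, List.map_map]
    congr 2
    ext t
    simp [mono, Fin.prod_univ_succ, Fin.tail]

def cap (K : ℕ) (i : Fin m) : ℕ := if i.1 < 3 then K else 5
abbrev Ix (m K : ℕ) := (i : Fin m) → Fin (cap K i)
def Rd (S : Set (Fin m → ℝ)) (K N : ℕ) (F : (Fin m → ℝ) → ℝ) : Prop :=
  ∃ c : Ix m K → ℤ, (∀ j, |c j| ≤ N) ∧ ∀ X ∈ S, F X = ∑ j, c j * ∏ i, X i ^ (j i).1

lemma card_Ix (hK : 1 ≤ K) : Fintype.card (Ix m K) ≤ K ^ 3 * 5 ^ m := by
  have : ∀ i : Fin m, cap K i ≤ (if i.1 < 3 then K else 1) * 5 := fun i => by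
    unfold cap; split_ifs <;> omega
  simp only [Fintype.card_pi, Fintype.card_fin]
  refine (prod_le_prod' fun i _ => this i).trans ?_
  rw [prod_mul_distrib, prod_ite, prod_const, prod_const_one, mul_one, prod_const, card_univ,
    Fintype.card_fin]
  refine Nat.mul_le_mul_right _ (Nat.pow_le_pow_right hK ?_)
  exact (card_le_card_of_injOn (t := range 3) Fin.val (fun i hi => by simpa using hi)
    Fin.val_injective.injOn).trans_eq (card_range 3)

lemma Rd.sum {ι : Type} (l : List ι) {F : ι → (Fin m → ℝ) → ℝ} (h : ∀ i ∈ l, Rd S K N (F i))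
    (hl : l.length ≤ N') {G : (Fin m → ℝ) → ℝ} (hG : ∀ p ∈ S, G p = (l.map fun i => F i p).sum) :
    Rd S K (N' * N) G := by
  induction l generalizing G N' with
  | nil => exact ⟨0, fun _ => by simp; positivity, by simpa using hG⟩
  | cons i l ih =>
    obtain ⟨c, a, b⟩ := h i (by simp)
    obtain ⟨c', a', b'⟩ := ih (fun j hj => h j (by simp [hj])) le_rfl fun _ _ => rfl
    refine ⟨c + c', fun j => (abs_add_le _ _).trans ((add_le_add (a j) (a' j)).trans ?_), fun p hp => ?_⟩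
    · simp only [List.length_cons] at hl; norm_cast; nlinarith
    · simp [hG p hp, b p hp, b' p hp, add_mul, sum_add_distrib]

lemma rd_mono {g : Fin m → (Fin m → ℝ) → ℝ} (hg : ∀ i, P 4 L (g i)) (hL : 1 ≤ L)
    (hS : ∀ X ∈ S, ∀ i, 3 ≤ i.1 → X i ^ 5 = g i X) (e : ℕ) : ∀ (t : Bool × (Fin m → ℕ)),
    ∑ i, t.2 i ≤ e → e < K → Rd S K (L ^ e) fun X => mono X t := by
  have le (t : Fin m → ℕ) (i) := single_le_sum (f := t) (fun _ _ => Nat.zero_le _) (mem_univ i)
  have base (e) (t : Bool × (Fin m → ℕ)) (h : ∀ i, t.2 i < cap K i) :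
      Rd S K (L ^ e) fun X => mono X t := by
    refine ⟨Pi.single (fun i => ⟨_, h i⟩) (sg t.1), fun j => ?_, fun p _ => ?_⟩
    · have := Nat.one_le_pow e L hL
      rw [Pi.single_apply]; split_ifs
      · cases t.1 <;> simp [sg] <;> exact_mod_cast this
      · simp
    · simp [Pi.single_apply, mono]
  induction e with
  | zero => exact fun t h hk => base _ _ fun i => by have := le t.2 i; unfold cap; split_ifs <;> omega
  | succ e ih =>
    intro t h hk
    by_cases a : ∀ i, 3 ≤ i.1 → t.2 i < 5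
    · exact base _ _ fun i => by have := le t.2 i; have := a i; unfold cap; split_ifs <;> omega
    push Not at a
    obtain ⟨i, i3, a⟩ := a
    obtain ⟨l, l1, l2, l3⟩ := hg i
    rw [pow_succ']
    refine Rd.sum l (fun t' ht' => ih (t.1 ^^ t'.1, Function.update t.2 i (t.2 i - 5) + t'.2)
      ?_ (by omega)) l1 fun p hp => ?_
    · have := l2 t' ht'
      rw [← add_sum_erase _ _ (mem_univ i)] at h
      simp only [Pi.add_apply, sum_add_distrib, sum_update_of_mem (mem_univ i), sdiff_singleton_eq_erase]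
      omega
    · have := fun t' => mono_mul p (t.1, Function.update t.2 i (t.2 i - 5)) t'
      simp only at this
      simp only [this, List.sum_map_mul_left, ← l3]
      have := mono_exp p i (t.2 i) t
      rw [Function.update_eq_self] at this
      rw [this, mono_exp, ← hS p hp i i3, mul_right_comm, ← pow_add, Nat.sub_add_cancel a]

abbrev J (D : ℕ) := ((Fin D × Fin D) × Fin D) × Fin D

attribute [local instance] Matrix.seminormedAddCommGroup in
lemma rel3 {g : Fin (m + 3) → (Fin (m + 3) → ℝ) → ℝ} {F : (Fin (m + 3) → ℝ) → ℝ}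
    (hg : ∀ i, P 4 L (g i)) (hL : 1 ≤ L) (hN : 1 ≤ N) (hF : P 4 N F) {D : ℕ}
    (hD : D = 1024 * 5 ^ (m + 3)) : ∃ t : J D → ℤ, t ≠ 0 ∧ (∀ j, |t j| ≤ D ^ 4 * (N * L ^ 7) ^ D) ∧
      ∀ X, (∀ i, 3 ≤ i.1 → X i ^ 5 = g i X) →
        ∑ j, t j * (X 2 ^ j.1.1.1.1 * F X ^ j.1.1.2.1 * X 1 ^ j.1.2.1 * X 0 ^ j.2.1) = 0 := by
  have D0 : 0 < 5 ^ (m + 3) := by positivity
  have (j : J D) : Rd {X | ∀ i, 3 ≤ i.1 → X i ^ 5 = g i X} (8 * D) ((N * L ^ 7) ^ D)
      fun X => X 2 ^ j.1.1.1.1 * F X ^ j.1.1.2.1 * X 1 ^ j.1.2.1 * X 0 ^ j.2.1 := by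
    obtain ⟨l, l1, l2, l3⟩ := (((((P.var 2).pow j.1.1.1).mul (hF.pow j.1.1.2)).mul
      ((P.var 1).pow j.1.2)).mul ((P.var 0).pow j.2)).le (d' := 7 * D) (N' := N ^ D) (by omega)
      (by simpa using Nat.pow_le_pow_right hN j.1.1.2.2.le)
    rw [mul_pow, ← pow_mul]
    exact Rd.sum l (fun t ht => rd_mono hg hL (fun _ h => h) _ t (l2 t ht) (by omega)) l1
      fun p _ => l3 p
  choose c c1 c2 using this
  have k1 := card_Ix (m := m + 3) (K := 8 * D) (by omega)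
  have k2 : Fintype.card (J D) = D ^ 4 := by simp; ring
  have k3 : 2 * ((8 * D) ^ 3 * 5 ^ (m + 3)) = D ^ 4 := by rw [pow_succ D 3]; nth_rw 3 [hD]; ring
  have k4 : 0 < Fintype.card (Ix (m + 3) (8 * D)) :=
    Fintype.card_pos_iff.2 ⟨fun i => ⟨0, by unfold cap; split_ifs <;> omega⟩⟩
  obtain ⟨t, t1, t2, t3⟩ := Int.Matrix.exists_ne_zero_int_vec_norm_le (Matrix.of fun i j => c j i)
    (by omega) k4
  refine ⟨t, t1, fun j => ?_, fun p hp => ?_⟩
  · have h1 : (1 : ℝ) ≤ (N * L ^ 7 : ℕ) ^ D :=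
      one_le_pow₀ (by norm_cast; exact Nat.mul_pos hN (by positivity))
    have h2 : ‖Matrix.of fun i j => c j i‖ ≤ ((N * L ^ 7 : ℕ) : ℝ) ^ D :=
      (Matrix.norm_le_iff (by positivity)).2 fun i j => by
        rw [Int.norm_eq_abs]; exact_mod_cast c1 j i
    have h3 := (norm_le_pi_norm t j).trans t3
    have h4 : (1 : ℝ) ≤ Fintype.card (J D) := by norm_cast; omega
    have h7 : (2 * Fintype.card (Ix (m + 3) (8 * D)) : ℝ) ≤ Fintype.card (J D) := by norm_cast; omega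
    rw [Int.norm_eq_abs] at h3
    have h5 := h3.trans (Real.rpow_le_self_of_one_le
      (one_le_mul_of_one_le_of_one_le h4 (le_max_left _ _)) (by rw [div_le_one] <;> linarith))
    have h6 := h5.trans (mul_le_mul_of_nonneg_left (max_le h1 h2) (by positivity))
    rw [k2] at h6
    exact_mod_cast h6
  · simp only [c2 _ p hp, mul_sum]
    rw [sum_comm]
    refine sum_eq_zero fun i _ => ?_
    have := congr((($t2 i : ℤ) : ℝ) * ∏ k, p k ^ (i k).1)
    simp only [Matrix.mulVec, dotProduct, Int.cast_sum, sum_mul] at this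
    simpa [mul_comm, mul_left_comm, mul_assoc] using this

def Dom {ι : Type} (η : ℝ) (w : ι → ℝ) : Prop :=
  (∀ i, 0 < w i) ∧ ∀ i j, i ≠ j → w i ≤ η * w j ∨ w j ≤ η * w i

lemma Dom.step {ι : Type} {η u : ℝ} {w : ι → ℝ} {D : ℕ} (h : Dom η w) (u0 : 0 < u)
    (hu : (u ≤ 1 ∧ ∀ i j, w i * u ≤ η * w j) ∨ (1 ≤ u ∧ ∀ i j, w i ≤ η * w j * u)) :
    Dom η fun p : ι × Fin D => w p.1 * u ^ p.2.1 := by
  refine ⟨fun p => mul_pos (h.1 _) (by positivity), ?_⟩
  have k : ∀ p q : ι × Fin D, p.2.1 < q.2.1 → w p.1 * u ^ p.2.1 ≤ η * (w q.1 * u ^ q.2.1) ∨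
      w q.1 * u ^ q.2.1 ≤ η * (w p.1 * u ^ p.2.1) := by
    intro p q l
    have := h.1 p.1
    have := h.1 q.1
    rcases hu with ⟨a, b⟩ | ⟨a, b⟩
    · right
      calc _ ≤ w q.1 * u ^ (p.2.1 + 1) := by gcongr _ * ?_; exact pow_le_pow_of_le_one u0.le a l
        _ = w q.1 * u * u ^ p.2.1 := by ring
        _ ≤ η * w p.1 * u ^ p.2.1 := by gcongr ?_ * _; exact b _ _
        _ = _ := by ring
    · left
      have e : 0 ≤ η * w q.1 := by have := b p.1 q.1; nlinarith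
      calc _ ≤ η * w q.1 * u * u ^ p.2.1 := by gcongr ?_ * _; exact b _ _
        _ = η * w q.1 * u ^ (p.2.1 + 1) := by ring
        _ ≤ η * w q.1 * u ^ q.2.1 := by gcongr _ * ?_; exact pow_le_pow_right₀ a l
        _ = _ := by ring
  intro p q ne
  rcases lt_trichotomy p.2.1 q.2.1 with l | l | l
  · exact k p q l
  · simp only [l, ← mul_assoc]
    exact (h.2 _ _ fun e => ne (Prod.ext e (Fin.ext l))).imp
      (fun a => by gcongr) fun a => by gcongr
  · exact (k q p l).symm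

lemma Dom.ne {ι : Type} [Fintype ι] {η H : ℝ} {w : ι → ℝ} (h : Dom η w) {t : ι → ℤ} (h0 : t ≠ 0)
    (hH : ∀ a, |(t a : ℝ)| ≤ H) (η0 : 0 ≤ η) (η1 : η < 1) (hη : Fintype.card ι * H * η < 1) :
    ∑ a, t a * w a ≠ 0 := by
  classical
  obtain ⟨a, ha, hm⟩ := exists_max_image (univ.filter fun a => t a ≠ 0) w
    (by simpa [Finset.Nonempty, funext_iff] using h0)
  simp only [mem_filter, mem_univ, true_and] at ha hm
  have H0 : 0 ≤ H := (abs_nonneg _).trans (hH a)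
  have a0 := h.1 a
  intro e
  rw [← add_sum_erase _ _ (mem_univ a), add_eq_zero_iff_eq_neg] at e
  have h1 : w a ≤ |t a * w a| := by
    rw [abs_mul, abs_of_pos a0]
    exact le_mul_of_one_le_left a0.le (by exact_mod_cast Int.one_le_abs ha)
  have h2 : ∀ b ∈ univ.erase a, |t b * w b| ≤ H * (η * w a) := fun b hb => by
    by_cases e : t b = 0
    · simp [e]; positivity
    · have := hm b e
      have := h.1 b
      rw [abs_mul, abs_of_pos this]
      exact mul_le_mul (hH b) ((h.2 _ _ (ne_of_mem_erase hb)).resolve_right (by nlinarith)) this.le H0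
  have h3 := sum_le_card_nsmul _ _ _ h2
  have h4 : (#(univ.erase a) : ℝ) ≤ Fintype.card ι := by norm_cast; simp
  rw [e, abs_neg] at h1
  have h5 := h1.trans ((abs_sum_le_sum_abs _ _).trans h3)
  rw [nsmul_eq_mul] at h5
  nlinarith [mul_le_mul_of_nonneg_right h4 (show 0 ≤ H * (η * w a) by positivity)]

lemma num {n D : ℕ} (hD : D = 1024 * 5 ^ (n + 3)) :
    D ^ 4 * (D ^ 4 * (N * (N * 4 + N * 4) ^ 7) ^ D) < 2 ^ 2 ^ (3 * n + N + 30) ∧
      D < 2 ^ (3 * n + N + 30) := by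
  have h1 : N + 1 ≤ 2 ^ N := Nat.lt_two_pow_self
  have h2 : D ≤ 2 ^ (3 * n + 19) := by
    calc D ≤ 1024 * 8 ^ (n + 3) := by rw [hD]; gcongr; norm_num
      _ = _ := by rw [show 8 = 2 ^ 3 by rfl, ← pow_mul]; ring
  have h3 : D ≤ 2 ^ D := Nat.lt_two_pow_self.le
  have h4 : N * (N * 4 + N * 4) ^ 7 ≤ 2 ^ (8 * N + 21) := by
    calc _ ≤ 2 ^ N * (2 ^ N * 4 + 2 ^ N * 4) ^ 7 := by gcongr <;> omega
      _ = _ := by ring
  refine ⟨?_, h2.trans_lt (Nat.pow_lt_pow_right (by omega) (by omega))⟩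
  calc _ ≤ (2 ^ D) ^ 4 * ((2 ^ D) ^ 4 * (2 ^ (8 * N + 21)) ^ D) := by gcongr
    _ = 2 ^ ((8 * N + 29) * D) := by rw [← pow_mul, ← pow_mul]; ring
    _ < _ := Nat.pow_lt_pow_right (by omega) (by
        calc _ ≤ (32 * 2 ^ N) * 2 ^ (3 * n + 19) := by gcongr; omega
          _ = 2 ^ (3 * n + N + 24) := by ring
          _ < _ := Nat.pow_lt_pow_right (by omega) (by omega))

/-- an effective Łojasiewicz bound in one parameter -/
theorem loj {n : ℕ} {c g : (Fin (n + 1) → ℝ) → ℝ} (hc : P 4 N c) (hg : P 4 N g) (hN : 1 ≤ N)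
    (c0 : ∀ x, 0 ≤ c x) (g0 : ∀ x, 0 ≤ g x) {δ : ℝ} (δ0 : 0 < δ)
    (δ1 : δ ≤ (2 ^ 2 ^ (3 * n + N + 30))⁻¹) {z : Fin (n + 1) → ℝ} (z0 : z 0 = δ) (z1 : c z = 0)
    (z2 : g z ≤ δ ^ 2 ^ (3 * n + N + 30)) {r : ℝ} (r0 : 0 < r) :
    ∃ x, x 0 = δ ∧ c x = 0 ∧ g x < r := by
  by_contra! hr
  choose c' c1 c2 using hc.deriv
  choose g' g1 g2 using hg.deriv
  obtain ⟨D, hD⟩ : ∃ D, D = 1024 * 5 ^ (n + 3) := ⟨_, rfl⟩
  obtain ⟨n1, n2⟩ := num (N := N) hD
  obtain ⟨t, t1, t2, t3⟩ := rel3 (m := n) (g := fun i X => X 0 * -c' ⟨i - 2, by omega⟩ (Fin.tail (Fin.tail X)) +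
    X 1 * -g' ⟨i - 2, by omega⟩ (Fin.tail (Fin.tail X))) (L := N * 4 + N * 4) (fun i => by
      simpa using ((P.var 0).mul (P_tail (P_tail (c1 _).neg))).add
        ((P.var 1).mul (P_tail (P_tail (g1 _).neg)))) (by omega) hN (P_tail (P_tail hg)) hD
  generalize 2 ^ (3 * n + N + 30) = T at *
  have δ2 : δ ≤ 1 / 2 := δ1.trans (by
    rw [one_div]; exact inv_anti₀ two_pos (le_self_pow₀ one_le_two (by omega)))
  have δ3 : 2 * δ ^ T ≤ δ ^ D := by
    have := pow_le_pow_of_le_one δ0.le (by linarith) (show D + 1 ≤ T from n2)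
    rw [pow_succ] at this
    nlinarith [pow_pos δ0 D]
  have δ4 : δ ^ D ≤ 1 := pow_le_one₀ δ0.le (by linarith)
  let h : (Fin (n + 1) → ℝ) → ℝ := fun x => ∑ i, x i ^ 6
  have h0 (x) : 0 ≤ h x := sum_nonneg fun _ _ => by positivity
  have r1 : r / 2 ≤ 1 := by have := hr z z0 z1; nlinarith [pow_pos δ0 T]
  obtain ⟨κ, κ0, hκ⟩ : ∃ κ, 0 < κ ∧ κ = δ * (δ ^ D * (r / 2) ^ D) := ⟨_, by positivity, rfl⟩
  have κ1 : κ ≤ 1 := by
    rw [hκ]; exact mul_le_one₀ (by linarith) (by positivity) (mul_le_one₀ δ4 (by positivity)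
      (pow_le_one₀ (by positivity) r1))
  obtain ⟨l, l0, l1, l2⟩ : ∃ l, 0 < l ∧ 6 * l ≤ κ ∧ l * h z ≤ δ ^ T := by
    have := h0 z
    refine ⟨min (κ / 6) (δ ^ T / (h z + 1)), by positivity, by linarith [min_le_left (κ / 6) (δ ^ T / (h z + 1))], ?_⟩
    calc _ ≤ δ ^ T / (h z + 1) * (h z + 1) := by gcongr; exacts [min_le_right _ _, by linarith]
      _ = _ := by field_simp
  have hb (x) (hx : l * h x ≤ 1) : x ∈ Metric.closedBall 0 (l⁻¹ + 1) := by
    rw [mem_closedBall_zero_iff, pi_norm_le_iff_of_nonneg (by positivity)]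
    intro i
    have : x i ^ 6 ≤ h x := single_le_sum (f := fun i => x i ^ 6) (fun _ _ => by positivity) (mem_univ i)
    by_contra! c
    have := le_self_pow₀ (n := 6) (show 1 ≤ ‖x i‖ by linarith [inv_pos.2 l0]) (by omega)
    rw [Real.norm_eq_abs, Even.pow_abs (by decide)] at *
    have := (le_inv_mul_iff₀ l0).2 hx
    linarith
  have K := (isCompact_closedBall (0 : Fin (n + 1) → ℝ) (l⁻¹ + 1)).inter_right
    (isClosed_eq (continuous_apply 0) (continuous_const (y := δ)))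
  have cc := hc.cont
  have cg := hg.cont
  obtain ⟨γ, γ0, γ1⟩ := (K.inter_right (isClosed_le cg (continuous_const (y := r / 2)))).exists_forall_le'
    cc.continuousOn (a := 0) fun x hx => (c0 x).lt_of_ne' fun e => by
      have := hr x hx.1.2 e
      have : g x ≤ r / 2 := hx.2
      linarith
  obtain ⟨q, hq⟩ : ∃ q, q = (6 * l)⁻¹ := ⟨_, rfl⟩
  have q1 : 1 ≤ κ * q := by rw [hq, ← div_eq_mul_inv, one_le_div (by positivity)]; exact l1
  have q0 : 1 ≤ q := by nlinarith [show 0 < q by rw [hq]; positivity]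
  obtain ⟨M, M0, M1, M2⟩ : ∃ M, 0 < M ∧ 1 < γ * M ∧ q ^ D ≤ κ * M :=
    ⟨2 / γ + q ^ D / κ, by positivity, by
      rw [mul_add, mul_div_cancel₀ _ γ0.ne']; linarith [show 0 ≤ γ * (q ^ D / κ) by positivity], by
      rw [mul_add, mul_div_cancel₀ _ κ0.ne']; linarith [show 0 ≤ κ * (2 / γ) by positivity]⟩
  have zK := hb z (by nlinarith [pow_pos δ0 T])
  obtain ⟨x, xK, hx⟩ := K.exists_isMinOn ⟨z, zK, z0⟩ (f := fun x => g x + l * h x + M * c x) (by fun_prop)
  have a : g x + l * h x + M * c x ≤ g z + l * h z + M * c z := hx ⟨zK, z0⟩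
  rw [z1] at a
  have a1 := mul_nonneg l0.le (h0 x)
  have a2 := mul_nonneg M0.le (c0 x)
  have a3 := g0 x
  have b (y) (hy : y 0 = δ) : g x + l * h x + M * c x ≤ g y + l * h y + M * c y := by
    by_cases e : l * h y ≤ 1
    · exact hx ⟨hb y e, hy⟩
    · nlinarith [g0 y, mul_nonneg M0.le (c0 y)]
  have y1 : r / 2 < g x := by
    by_contra! e
    nlinarith [γ1 x ⟨xK, e⟩]
  have y2 : g x ≤ δ ^ D := by linarith
  have y0 : 0 < g x := by linarith
  have D1 : Dom δ fun p : Fin D => δ ^ p.1 := ⟨fun _ => by positivity, fun i j ne => by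
    rcases lt_or_gt_of_ne ne with l | l
    · right; rw [← pow_succ']; exact pow_le_pow_of_le_one δ0.le (by linarith) l
    · left; rw [← pow_succ']; exact pow_le_pow_of_le_one δ0.le (by linarith) l⟩
  have u1 (i : Fin D) : δ ^ i.1 ≤ 1 := pow_le_one₀ δ0.le (by linarith)
  have u2 (p : Fin D × Fin D) : δ ^ p.1.1 * g x ^ p.2.1 ≤ 1 :=
    mul_le_one₀ (u1 _) (by positivity) (pow_le_one₀ y0.le (by linarith))
  have u3 (p : Fin D × Fin D) : κ ≤ δ * (δ ^ p.1.1 * g x ^ p.2.1) := by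
    rw [hκ]
    gcongr δ * (?_ * ?_)
    · exact pow_le_pow_of_le_one δ0.le (by linarith) p.1.2.le
    · exact (pow_le_pow_of_le_one (by positivity) r1 p.2.2.le).trans (by gcongr)
  have D4 := ((D1.step (D := D) y0 (.inl ⟨by linarith, fun i j => by
      have := pow_le_pow_of_le_one δ0.le (by linarith) (show j.1 + 1 ≤ D from j.2)
      rw [pow_succ'] at this
      nlinarith [u1 i]⟩)).step (D := D) (u := q) (by linarith) (.inr ⟨q0, fun i j => by
      nlinarith [u2 i, u3 j]⟩)).step (D := D) (u := q * M) (by positivity) (.inr ⟨by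
        nlinarith [one_le_pow₀ (n := D) q0], fun i j => by
      have v1 := pow_le_pow_right₀ q0 i.2.2.le
      have v2 := one_le_pow₀ (n := j.2.1) q0
      calc _ ≤ 1 * q ^ D := by gcongr; exact u2 _
        _ ≤ κ * 1 * (1 * M) := by linarith
        _ ≤ δ * (δ ^ j.1.1.1 * g x ^ j.1.2.1) * q ^ j.2.1 * (q * M) := by gcongr; exact u3 _
        _ = _ := by ring⟩)
  refine D4.ne (H := (D ^ 4 * (N * (N * 4 + N * 4) ^ 7) ^ D : ℕ)) t1 (fun a => by exact_mod_cast t2 a) δ0.le (by linarith) ?_ ?_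
  · have : ((_ : ℕ) : ℝ) < (2 ^ T : ℕ) := Nat.cast_lt.2 n1
    rw [le_inv_comm₀ δ0 (by positivity)] at δ1
    rw [← lt_div_iff₀ δ0, one_div]
    refine lt_of_lt_of_le (lt_of_eq_of_lt ?_ this) (by exact_mod_cast δ1)
    simp; left; ring
  · have := t3 (Fin.cons (q * M) (Fin.cons q x)) fun i hi => ?_
    · rw [← xK.2.out]; exact this
    obtain ⟨i, rfl⟩ : ∃ j : Fin (n + 1), i = j.succ.succ := ⟨⟨i - 2, by omega⟩, Fin.ext (by simp; omega)⟩
    have i0 : (0 : Fin (n + 1)) ≠ i := fun e => by subst e; exact absurd hi (show ¬3 ≤ 2 by omega)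
    have e (t) : h (Function.update x i t) = t ^ 6 + ∑ j ∈ univ \ {i}, x j ^ 6 := by
      rw [← sum_update_of_mem (mem_univ i)]
      exact sum_congr rfl fun j _ => Function.apply_update (fun _ (a : ℝ) => a ^ 6) ..
    have := IsLocalMin.hasDerivAt_eq_zero (Filter.Eventually.of_forall fun t => by
      simpa only [← e, Function.update_eq_self] using b (Function.update x i t)
        ((Function.update_of_ne i0 _ _).trans xK.2)) (((g2 i x).fun_add
        (((hasDerivAt_pow 6 (x i)).add_const (∑ j ∈ univ \ {i}, x j ^ 6)).const_mul l)).fun_add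
          ((c2 i x).const_mul M))
    simp [hq] at this ⊢
    field_simp
    linarith

end Pool.Agent.H4.Loj
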