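import Pool.Agent.H4.ClDefs
import Pool.Agent.H4.Loj
import Pool.Agent.H21.Ten3

set_option autoImplicit false

namespace Pool.Agent.H4.Cl

open Pool.Agent.H11.PT Pool.Agent.H21.ER Pool.Agent.H21.Ball Pool.Agent.H4.Loj

def cq (c : Con) : Qf :=
  if c.1 = 0 then .eq (.add (.var c.2.1) (.var c.2.2.1)) (.var c.2.2.2)
  else if c.1 = 1 then .eq (.mul (.var c.2.1) (.var c.2.2.1)) (.var c.2.2.2)
  else .eq (.var c.2.2.2) (.num [true])
def toQf (cs : List Con) : Qf := cs.foldl (fun φ c => .and φ (cq c)) (.eq (.num []) (.num []))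

theorem toQf_iff (cs : List Con) (x : ℕ → ℝ) : (toQf cs).Holds x ↔ AM cs x := by
  induction cs using List.reverseRecOn with
  | nil => simp [toQf, Qf.Holds, AM]
  | append_singleton cs c ih =>
    simp only [toQf, AM, List.foldl_append, List.foldl_cons, List.foldl_nil, Qf.Holds,
      List.forall_mem_append, List.forall_mem_singleton] at ih ⊢
    rw [ih, cq, Con.ok]
    split_ifs <;> simp [Qf.Holds, Tm.val, Pool.Agent.H21.ER.bin]

theorem toQf_pt : PT toQf := by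
  have : PT fun cs : List Con => [0, 0, 6] ++ cs.flatMap fun c =>
      if c.1 = 0 then [c.2.1 + 12, c.2.2.1 + 12, 4, c.2.2.2 + 12, 6, 10]
      else if c.1 = 1 then [c.2.1 + 12, c.2.2.1 + 12, 5, c.2.2.2 + 12, 6, 10]
      else [c.2.2.2 + 12, 0, 2, 6, 10] := by fun_prop
  refine this.cast id (fun _ => rfl) fun cs => congrArg Enc.tr ?_
  induction cs using List.reverseRecOn with
  | nil => rfl
  | append_singleton cs c ih =>
    simp only [toQf, List.foldl_append, List.foldl_cons, List.foldl_nil, Qf.post, id,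
      List.flatMap_append] at ih ⊢
    rw [← ih, cq]
    clear ih this
    split_ifs <;> simp [Qf.post, Tm.post, *]

def ren (k : ℕ) (c : Con) : Con := (c.1, 12 * c.2.1 + k, 12 * c.2.2.1 + k, 12 * c.2.2.2 + k)

def c0 (n : ℕ) (P Q : List Con) : List Con := (2, 0, 0, 36) :: (1, 12, 12, 24) ::
  P.map (ren 1) ++ Q.map (ren 2) ++ (List.range (nv P + nv Q + 2 * n)).flatMap fun i =>
    [(1, 0, 12 * i + 1, 12 * i + 3), (1, 12 * i + 3, 12 * i + 3, 12 * i + 4),
      (1, 12 * i + 5, 12 * i + 5, 12 * i + 6), (0, 12 * i + 4, 12 * i + 6, 36)] ++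
    if i < n then [(0, 12 * (2 * i) + 2, 12 * i + 7, 12 * (2 * i) + 1), (1, 12 * i + 7, 12 * i + 7, 12 * i + 8),
      (1, 12 * i + 9, 12 * i + 9, 12 * i + 10), (0, 12 * i + 8, 12 * i + 10, 24)]
    else [(0, 12 * (2 * i) + 1, 12 * (2 * i) + 1, 12 * (2 * i) + 1),
      (0, 12 * (2 * i) + 2, 12 * (2 * i) + 2, 12 * (2 * i) + 2)]

def kk (cs : List Con) : ℕ := 3 * (nv cs - 1) + cs.length * 9 + 30

def c1 (K : ℕ) : List Con := [(0, 95, 95, 11), (1, 23, 23, 35), (0, 11, 35, 36), (1, 47, 47, 59),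
  (1, 95, 59, 36), (1, 71, 71, 83), (0, 24, 83, 12 * (K + K + 7) + 11), (1, 12 * (K + 7) + 11, 36, 0)] ++
  (List.range (K + K)).map fun i => (1, 12 * (i + 7) + 11, 12 * (i + 7) + 11, 12 * (i + 1 + 7) + 11)

def red (y : ℕ × Qf) : Qf :=
  toQf (c0 y.1 (am (y.2.post ++ [9])) (am y.2.post) ++ c1 (kk (c0 y.1 (am (y.2.post ++ [9])) (am y.2.post))))

theorem red_pt : PT red := by
  have h : PT fun y : ℕ × Qf => c0 y.1 (am (y.2.post ++ [9])) (am y.2.post) := by
    unfold c0 ren; fun_prop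
  have h' : PT fun cs => c1 (kk cs) := by unfold c1 kk; fun_prop
  exact toQf_pt.comp (h.append (h'.comp h))

def Near (n : ℕ) (P Q : List Con) (δ t : ℝ) (A B : ℕ → ℝ) : Prop := AM P A ∧ AM Q B ∧
  ∀ i < nv P + nv Q + 2 * n, (δ * A i) ^ 2 ≤ 1 ∧
    if i < n then (A (2 * i) - B (2 * i)) ^ 2 ≤ t ^ 2 else A (2 * i) = 0 ∧ B (2 * i) = 0

variable {n : ℕ} {P Q : List Con}

theorem am_ren {k : ℕ} {X : ℕ → ℝ} : (∀ c ∈ P.map (ren k), c.ok X) ↔ AM P fun i => X (12 * i + k) :=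
  List.forall_mem_map

theorem c0_sound {X : ℕ → ℝ} (h : AM (c0 n P Q) X) :
    Near n P Q (X 0) (X 12) (fun i => X (12 * i + 1)) fun i => X (12 * i + 2) := by
  simp only [AM, c0, List.cons_append, List.forall_mem_cons, List.forall_mem_append, am_ren,
    List.forall_mem_flatMap, List.mem_range] at h
  obtain ⟨a, b, ⟨c, d⟩, e⟩ := h
  refine ⟨c, d, fun i hi => ?_⟩
  obtain ⟨e1, e2, e3, e4, -, f⟩ := e i hi
  simp only [Con.ok, if_true, one_ne_zero, if_false, OfNat.ofNat_ne_zero, OfNat.ofNat_ne_one]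
    at a b e1 e2 e3 e4
  refine ⟨by rw [e1]; nlinarith [mul_self_nonneg (X (12 * i + 5))], ?_⟩
  split_ifs at f ⊢ <;> simp [Con.ok] at f
  · obtain ⟨f1, f2, f3, f4⟩ := f
    simp only [← f1]
    nlinarith [mul_self_nonneg (X (12 * i + 9))]
  · exact f

theorem c0_compl {δ t : ℝ} {A B : ℕ → ℝ} (h : Near n P Q δ t A B) (Y : ℕ → ℝ) : ∃ X : ℕ → ℝ,
    X 0 = δ ∧ X 24 = t * t ∧ X 36 = 1 ∧ (∀ i, X (12 * i + 11) = Y i) ∧ AM (c0 n P Q) X := by
  let W : ℕ → List ℝ := fun i => [[δ, t, t * t, 1].getD i 0, A i, B i, δ * A i, (δ * A i) ^ 2,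
    √(1 - (δ * A i) ^ 2), 1 - (δ * A i) ^ 2, A (2 * i) - B (2 * i), (A (2 * i) - B (2 * i)) ^ 2,
    √(t ^ 2 - (A (2 * i) - B (2 * i)) ^ 2), t ^ 2 - (A (2 * i) - B (2 * i)) ^ 2, Y i]
  obtain ⟨X, hX⟩ : ∃ X : ℕ → ℝ, ∀ i, ∀ k < 12, X (12 * i + k) = (W i).getD k 0 :=
    ⟨fun m => (W (m / 12)).getD (m % 12) 0, fun i k hk => by
      simp only [show (12 * i + k) / 12 = i by omega, show (12 * i + k) % 12 = k by omega]⟩
  have x0 : X 0 = δ := hX 0 0 (by omega)
  have x1 : X 12 = t := hX 1 0 (by omega)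
  have x2 : X 24 = t * t := hX 2 0 (by omega)
  have x3 : X 36 = 1 := hX 3 0 (by omega)
  refine ⟨X, x0, x2, x3, fun i => hX i 11 (by omega), ?_⟩
  simp only [AM, c0, List.cons_append, List.forall_mem_cons, List.forall_mem_append, am_ren,
    List.forall_mem_flatMap, List.mem_range]
  refine ⟨x3, by simp [Con.ok, *], ⟨by simpa [hX, W, AM] using h.1, by simpa [hX, W, AM] using h.2.1⟩,
    fun i hi => ?_⟩
  obtain ⟨a, b⟩ := h.2.2 i hi
  have := Real.mul_self_sqrt (sub_nonneg.2 a)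
  split_ifs at b ⊢
  · have := Real.mul_self_sqrt (sub_nonneg.2 b)
    simp [Con.ok, hX, W, x0, x2, x3, ← sq, Real.sq_sqrt, a, b]
  · simp [Con.ok, hX, W, x0, x2, x3, ← sq, Real.sq_sqrt, a, b]

theorem cut {M : ℕ} (h : nv P ≤ M) (h' : 2 * n ≤ M) {A : ℕ → ℝ} (a : AM P A)
    (z : ∀ i < M, ¬i < n → A (2 * i) = 0) : (AM P fun i => if i < M then A i else 0) ∧
      ∀ j, (if 2 * j < M then A (2 * j) else 0) = ext (fun i : Fin n => A (2 * i)) j :=
  ⟨am_congr (fun i hi => by simp [hi.trans_le h]) a, fun j => by have := z j; unfold ext; grind⟩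

theorem c1_iff (K : ℕ) (cs : List Con) (X : ℕ → ℝ) : AM (cs ++ c1 K) X ↔ AM cs X ∧ (X 95 + X 95 = X 11 ∧
    X 23 * X 23 = X 35 ∧ X 11 + X 35 = X 36 ∧ X 47 * X 47 = X 59 ∧ X 95 * X 59 = X 36 ∧
    X 71 * X 71 = X 83 ∧ X 24 + X 83 = X (12 * (K + K + 7) + 11) ∧
    X (12 * (K + 7) + 11) * X 36 = X 0) ∧ ∀ i < K + K,
    X (12 * (i + 7) + 11) * X (12 * (i + 7) + 11) = X (12 * (i + 1 + 7) + 11) := by
  simp only [AM, c1, List.forall_mem_append, List.forall_mem_map, List.mem_range]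
  simp [Con.ok]

theorem key {cs : List Con} {X : ℕ → ℝ} (m1 : (2, 0, 0, 36) ∈ cs) (m2 : (1, 12, 12, 24) ∈ cs)
    (h : AM (cs ++ c1 (kk cs)) X) : 0 < X 0 ∧ ∀ r > 0, ∃ Z, AM cs Z ∧ Z 0 = X 0 ∧ Z 12 ^ 2 < r := by
  obtain ⟨h, ⟨a1, a2, a3, a4, a5, a6, a7, a8⟩, a9⟩ := (c1_iff _ _ _).1 h
  have b1 : X 36 = 1 := h _ m1
  have b2 : X 12 * X 12 = X 24 := h _ m2
  have e0 : 0 < X 95 := by by_contra c; nlinarith [mul_self_nonneg (X 47)]
  have e1 : X 95 ≤ 2⁻¹ := by nlinarith [mul_self_nonneg (X 23)]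
  have e2 : ∀ i ≤ kk cs + kk cs, X (12 * (i + 7) + 11) = X 95 ^ 2 ^ i := by
    intro i
    induction i with
    | zero => simp
    | succ i ih => intro hi; rw [← a9 i hi, ih (by omega), pow_succ 2, pow_mul, sq]
  rw [e2 _ le_rfl, pow_add, pow_mul] at a7
  rw [e2 _ (by omega), b1, mul_one] at a8
  have d0 : 0 < X 0 := a8 ▸ pow_pos e0 _
  refine ⟨d0, fun r r0 => ?_⟩
  have l12 := (lt_nv m2).1
  have ln := List.length_pos_of_mem m1
  obtain ⟨s, hs⟩ : ∃ s, nv cs = s + 1 := ⟨_, rfl⟩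
  have hc : P 4 (cs.length * 9) fun x : Fin (s + 1) → ℝ => (cs.map fun c => c.q (ext x) ^ 2).sum :=
    P.sum _ fun c _ => P.pow (d := 2) (N := 3) (by
      simp only [Con.q, sub_eq_add_neg]; split_ifs
      · exact (((P_ext _).add (P_ext _)).add (P_ext _).neg).le (by omega) le_rfl
      · exact (((P_ext _).mul (P_ext _)).add ((P_ext _).neg.le (by omega) le_rfl)).le le_rfl (by omega)
      · exact ((P_ext _).add (P.one.neg.le (by omega) le_rfl)).le (by omega) (by omega)) 2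
  rw [show kk cs = 3 * s + cs.length * 9 + 30 by rw [kk, hs, Nat.add_sub_cancel]] at a7 a8
  obtain ⟨x, x1, x2, x3⟩ := loj hc (((P_ext 12).pow 2).le (by omega) (by omega)) (by omega)
    (fun _ => List.sum_nonneg (List.forall_mem_map.2 fun _ _ => sq_nonneg _)) (fun _ => sq_nonneg _) d0
    (by rw [← a8, ← inv_pow]; exact pow_le_pow_left₀ e0.le e1 _) (z := fun i => X i) rfl
    (sum_sq_zero.2 (am_ext hs.le h))
    (by rw [ext, dif_pos (hs ▸ l12), ← a8, ← a7, ← b2, sq, ← a6]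
        exact le_add_of_nonneg_right (mul_self_nonneg _)) r0
  exact ⟨ext x, sum_sq_zero.1 x2, x1, x3⟩

theorem cpt (n : ℕ) (P : List Con) (R : ℝ) : IsCompact ({A : ℕ → ℝ | ∀ i, A i ∈ Set.Icc (-R) R} ∩
    ({A | AM P A} ∩ ⋂ j, {A | A (2 * j) = ext (fun i : Fin n => A (2 * i)) j})) := by
  refine (isCompact_pi_infinite fun _ => isCompact_Icc).inter_right (IsClosed.inter ?_ ?_)
  · simp only [← sum_sq_zero]
    exact isClosed_eq (continuous_list_sum _ fun c _ => by unfold Con.q; split_ifs <;> fun_prop)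
      continuous_const
  · exact isClosed_iInter fun j => isClosed_eq (by fun_prop) (by unfold ext; split_ifs <;> fun_prop)

theorem red_iff (n : ℕ) (φ : Qf) : IsClosed (sset n φ) ↔ ¬ETR (red (n, φ)) := by
  simp only [ETR, red, toQf_iff]
  have hP := am_iff (.not φ)
  have hQ := am_iff φ
  rw [Qf.post] at hP
  generalize am (φ.post ++ [9]) = P at *
  generalize am φ.post = Q at *
  constructor
  · rintro hS ⟨X, h⟩
    obtain ⟨d0, key⟩ := key (by simp [c0]) (by simp [c0]) h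
    obtain ⟨r, r0, hr⟩ := Disjoint.exists_thickenings (Set.disjoint_left.2 (by
      rintro _ ⟨A, hA, rfl⟩
      exact (hP _).2 ⟨A, Set.mem_iInter.1 hA.2.2, hA.2.1⟩))
      ((cpt n P (X 0)⁻¹).image (f := fun A (i : Fin n) => A (2 * i)) (by fun_prop)) hS
    obtain ⟨Z, z1, z2, z3⟩ := key (r ^ 2) (by positivity)
    obtain ⟨p, q, s⟩ := c0_sound z1
    have hA := cut (M := nv P + nv Q + 2 * n) (n := n) (by omega) (by omega) p fun i a b => by
      have := (s i a).2; rw [if_neg b] at this; exact this.1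
    have hB := cut (M := nv P + nv Q + 2 * n) (n := n) (by omega) (by omega) q fun i a b => by
      have := (s i a).2; rw [if_neg b] at this; exact this.2
    refine Set.disjoint_left.1 hr (Metric.mem_thickening_iff.2
      ⟨_, ⟨_, ⟨fun i => ?_, hA.1, Set.mem_iInter.2 fun j => ?_⟩, rfl⟩, ?_⟩)
      (Metric.self_subset_thickening r0 _ (show _ ∈ sset n φ from (hQ (ext _)).2 ⟨_, hB.2, hB.1⟩))
    · split_ifs with hi
      · have := (sq_le_one_iff_abs_le_one _).1 (s i hi).1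
        rw [z2, abs_mul, abs_of_pos d0, ← le_inv_mul_iff₀ d0, mul_one] at this
        exact abs_le.1 this
      · simp [d0.le]
    · refine (hA.2 j).trans ?_
      congr 1; ext i; exact (if_pos (by omega)).symm
    · refine (dist_pi_lt_iff r0).2 fun i => ?_
      have := (s i (by omega)).2
      rw [if_pos i.2] at this
      beta_reduce
      rw [if_pos (by omega), Real.dist_eq, abs_sub_comm]
      exact abs_lt_of_sq_lt_sq (this.trans_lt z3) r0.le
  · intro h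
    by_contra hS
    obtain ⟨x, x1, x2⟩ := Set.not_subset.1 (mt closure_subset_iff_isClosed.1 hS)
    obtain ⟨A, a1, a2⟩ := (hP _).1 x2
    generalize kk (c0 n P Q) = K at h
    obtain ⟨e, e0, e1, e2⟩ : ∃ e : ℝ, 0 < e ∧ e ≤ 1 / 2 ∧ ∀ i < nv P + nv Q + 2 * n, e * |A i| ≤ 1 := by
      have s0 := Finset.sum_nonneg (s := Finset.range (nv P + nv Q + 2 * n)) fun i _ => abs_nonneg (A i)
      refine ⟨1 / (∑ i ∈ Finset.range (nv P + nv Q + 2 * n), |A i| + 2), by positivity,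
        one_div_le_one_div_of_le two_pos (by linarith), fun i hi => ?_⟩
      rw [one_div, inv_mul_le_one₀ (by positivity)]
      linarith [Finset.single_le_sum (fun i _ => abs_nonneg (A i)) (Finset.mem_range.2 hi)]
    have t0 : 0 < e ^ 2 ^ (K + K) := by positivity
    have t1 : ∀ k, e ^ 2 ^ k ≤ e := fun k => pow_le_of_le_one e0.le (by linarith) (by positivity)
    obtain ⟨y, y1, y2⟩ := Metric.mem_closure_iff.1 x1 _ t0
    obtain ⟨B, b1, b2⟩ := (hQ _).1 y1
    have t2 := t1 (K + K)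
    have t3 : ∀ i, e ^ 2 ^ i * e ^ 2 ^ i = e ^ 2 ^ (i + 1) := fun i => by rw [pow_succ 2, pow_mul, sq]
    generalize hu : (fun i => e ^ 2 ^ i) = u
    have hu' : ∀ i, e ^ 2 ^ i = u i := fun i => congrFun hu i
    have u0 : u 0 = e := by simp [← hu']
    have u1 : 0 < u K := by rw [← hu']; positivity
    simp only [hu'] at *
    obtain ⟨X, c1, c2, c3, c4, c5⟩ := c0_compl (n := n) (δ := u K) (t := u (K + K)) ⟨a2, b2, fun i hi =>
      ⟨by
        rw [sq_le_one_iff_abs_le_one, abs_mul, abs_of_pos u1]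
        exact le_trans (by gcongr; exact t1 K) (e2 i hi), by
        rw [a1, b1]
        split_ifs with c
        · exact sq_le_sq' (abs_le.1 ((dist_le_pi_dist x y ⟨i, c⟩).trans y2.le)).1
            (abs_le.1 ((dist_le_pi_dist x y ⟨i, c⟩).trans y2.le)).2
        · exact ⟨rfl, rfl⟩⟩⟩ fun i => if 7 ≤ i then u (i - 7) else [e + e, √(1 - (e + e)), 1 - (e + e),
          √e⁻¹, e⁻¹, √(u (K + K) - u (K + K) * u (K + K)), u (K + K) - u (K + K) * u (K + K)].getD i 0
    refine h ⟨X, (c1_iff _ _ _).2 ⟨c5, ?_, fun i _ => ?_⟩⟩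
    · rw [c1, c2, c3, c4, c4, c4 0, c4 1, c4 2, c4 3, c4 4, c4 5, c4 6, c4 7]
      simp [e0.ne', u0, e0.le]
      exact ⟨Real.mul_self_sqrt (by linarith), by rw [← mul_inv, Real.mul_self_sqrt e0.le],
        Real.mul_self_sqrt (by nlinarith)⟩
    · simp [c4, t3]

end Pool.Agent.H4.Cl
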