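import Pool.Agent.H21.ERDefs

set_option autoImplicit false

namespace Pool.Agent.H4.Cl

open Pool.Agent.H21.ER

/-- the subset of `ℝ ^ n` defined by `φ` (variables beyond the first `n` read as `0`) -/
def sset (n : ℕ) (φ : Qf) : Set (Fin n → ℝ) :=
  {x | φ.Holds fun i => if h : i < n then x ⟨i, h⟩ else 0}

end Pool.Agent.H4.Cl
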