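import Mathlib

namespace Pool.Agent.H4.VanishSum

open Finset Polynomial

noncomputable def ev : (ℂ →₀ ℚ) →ₗ[ℚ] ℂ := Finsupp.linearCombination ℚ id

lemma ev_eq (a : ℂ →₀ ℚ) : ev a = ∑ z ∈ a.support, (a z : ℂ) * z := by
  simp [ev, Finsupp.linearCombination_apply, Finsupp.sum, Rat.smul_def]

lemma galois {M : ℕ} (hM : 0 < M) (a : ℂ →₀ ℚ) (h1 : ∀ z ∈ a.support, z ^ M = 1) (h : ev a = 0)
    (u : ℕ) (hu : u.Coprime M) : ∑ z ∈ a.support, (a z : ℂ) * z ^ u = 0 := by
  haveI : NeZero M := ⟨hM.ne'⟩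
  have hω := Complex.isPrimitiveRoot_exp M hM.ne'
  set ω := Complex.exp (2 * Real.pi * Complex.I / M)
  have : ∀ z, ∃ j : ℕ, z ∈ a.support → ω ^ j = z := fun z => by
    by_cases hz : z ∈ a.support
    · obtain ⟨j, -, hj⟩ := hω.eq_pow_of_pow_eq_one (h1 z hz)
      exact ⟨j, fun _ => hj⟩
    · exact ⟨0, fun h => absurd h hz⟩
  choose j hj using this
  have key : ∀ v : ℕ, aeval (ω ^ v) (∑ z ∈ a.support, C (a z) * X ^ j z : ℚ[X]) =
      ∑ z ∈ a.support, (a z : ℂ) * z ^ v := by
    intro v
    rw [map_sum]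
    refine sum_congr rfl fun z hz => ?_
    rw [map_mul, aeval_C, map_pow, aeval_X, ← pow_mul, mul_comm v, pow_mul, hj z hz]; simp
  have d := minpoly.dvd ℚ ω (p := ∑ z ∈ a.support, C (a z) * X ^ j z) (by
    have := key 1
    simp only [pow_one] at this
    rw [this, ← ev_eq, h])
  rw [← cyclotomic_eq_minpoly_rat hω hM, cyclotomic_eq_minpoly_rat (hω.pow_of_coprime u hu) hM]
    at d
  rw [← key]
  exact aeval_eq_zero_of_dvd_aeval_eq_zero d (minpoly.aeval _ _)

lemma geom {q : ℕ} {x : ℂ} (hx : x ^ q = 1) : ∑ t ∈ range q, x ^ t = if x = 1 then (q : ℂ) else 0 := by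
  split_ifs with h
  · simp [h]
  · rw [geom_sum_eq h, hx]; simp

lemma slices {q M' : ℕ} (hq : q.Prime) (hM : 0 < M') (a : ℂ →₀ ℚ)
    (h1 : ∀ z ∈ a.support, z ^ (q * M') = 1) (h : ev a = 0) :
    ∃ (b : ℂ → ℂ →₀ ℚ) (c : ℂ), (∀ β ∈ nthRootsFinset q (1 : ℂ), (∀ z ∈ (b β).support, z ^ M' = 1) ∧
      ev (b β) = c) ∧ ∑ β ∈ nthRootsFinset q (1 : ℂ), (b β).support.card = a.support.card ∧
      (c ≠ 0 → ¬q ∣ M') := by
  classical
  set G : ℕ → ℂ := fun t => ∑ z ∈ a.support, (a z : ℂ) * z ^ (1 + M' * t) with hG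
  have G0 : ∀ t, ¬q ∣ 1 + M' * t → G t = 0 := fun t ht =>
    galois (Nat.mul_pos hq.pos hM) a h1 h _ (Nat.Coprime.mul_right
      ((Nat.Prime.coprime_iff_not_dvd hq).2 ht).symm (by simp))
  have dft : ∀ β : ℂ, β ^ q = 1 → (q : ℂ) * ev (a.filter (fun z => z ^ M' = β)) =
      ∑ t ∈ range q, β⁻¹ ^ t * G t := by
    intro β hβ
    have β0 : β ≠ 0 := by rintro rfl; simp [hq.ne_zero] at hβ
    simp only [hG, mul_sum]
    rw [sum_comm, ev_eq, Finsupp.support_filter, sum_filter, mul_sum]
    refine sum_congr rfl fun z hz => ?_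
    have := geom (q := q) (x := β⁻¹ * z ^ M') (by
      rw [mul_pow, inv_pow, hβ, ← pow_mul, mul_comm M', h1 z hz]; simp)
    have e : ∑ t ∈ range q, β⁻¹ ^ t * ((a z : ℂ) * z ^ (1 + M' * t)) =
        a z * z * ∑ t ∈ range q, (β⁻¹ * z ^ M') ^ t := by
      rw [mul_sum]; exact sum_congr rfl fun t _ => by rw [pow_add, pow_mul, mul_pow]; ring
    rw [e, this]
    by_cases hz' : z ^ M' = β
    · simp [hz', β0, mul_comm]
    · rw [if_neg hz', if_neg (fun h => hz' ((inv_mul_eq_one₀ β0).1 h).symm)]; simp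
  have q0 : (q : ℂ) ≠ 0 := by exact_mod_cast hq.ne_zero
  obtain ⟨γ, c, hγ, hc⟩ : ∃ (γ : ℂ → ℂ) (c : ℂ), (∀ β, β ^ q = 1 → γ β ^ M' * β = 1 ∧
      γ β * ev (a.filter (fun z => z ^ M' = β)) = c) ∧ (c ≠ 0 → ¬q ∣ M') := by
    by_cases hd : q ∣ M'
    · choose γ hγ using fun β : ℂ => IsAlgClosed.exists_pow_nat_eq β⁻¹ hM
      refine ⟨γ, 0, fun β hβ => ⟨?_, ?_⟩, by simp⟩
      · rw [hγ, inv_mul_cancel₀]; rintro rfl; simp [hq.ne_zero] at hβ
      · have := dft β hβ
        rw [sum_eq_zero (fun t _ => by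
          rw [G0 t (fun h => hq.not_dvd_one ((Nat.dvd_add_left (hd.mul_right t)).1 h)),
            mul_zero])] at this
        rw [(mul_eq_zero.1 this).resolve_left q0, mul_zero]
    · haveI := Fact.mk hq
      have m0 : (M' : ZMod q) ≠ 0 := by rwa [Ne, ZMod.natCast_eq_zero_iff]
      set t0 := (-(M' : ZMod q)⁻¹).val with ht0
      have d0 : ∀ t, q ∣ 1 + M' * t ↔ (t : ZMod q) = -(M' : ZMod q)⁻¹ := by
        intro t
        rw [← ZMod.natCast_eq_zero_iff]
        push_cast
        constructor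
        · intro h; field_simp; linear_combination h
        · intro h; rw [h]; field_simp; ring
      refine ⟨fun β => β ^ t0, G t0 / q, fun β hβ => ⟨?_, ?_⟩, fun _ => hd⟩
      · obtain ⟨e, he⟩ := (d0 t0).2 (by simp [ht0])
        rw [← pow_mul, ← pow_succ, show t0 * M' + 1 = q * e by rw [← he]; ring, pow_mul, hβ,
          one_pow]
      · have β0 : β ≠ 0 := by rintro rfl; simp [hq.ne_zero] at hβ
        have := dft β hβ
        rw [sum_eq_single t0 (fun t ht hne => by
          rw [G0 t, mul_zero]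
          rw [d0]; intro h
          exact hne (by rw [ht0, ← h, ZMod.val_cast_of_lt (mem_range.1 ht)]))
          (fun h => absurd (mem_range.2 (ZMod.val_lt _)) h)] at this
        simp only
        rw [eq_div_iff q0, mul_assoc, mul_comm _ (q : ℂ), this, ← mul_assoc, ← mul_pow,
          mul_inv_cancel₀ β0]
        simp
  have inj : ∀ β : ℂ, β ^ q = 1 → Function.Injective (fun z => γ β * z) := fun β hβ =>
    mul_right_injective₀ (by
      intro h0
      have := (hγ β hβ).1
      rw [h0, zero_pow hM.ne'] at this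
      simp at this)
  refine ⟨fun β => (a.filter (fun z => z ^ M' = β)).mapDomain (fun z => γ β * z), c,
    fun β hβ => ?_, ?_, hc⟩
  · rw [mem_nthRootsFinset hq.pos] at hβ
    constructor
    · intro z hz
      rw [Finsupp.mapDomain_support_of_injective (inj β hβ), mem_image] at hz
      obtain ⟨y, hy, rfl⟩ := hz
      rw [Finsupp.support_filter, mem_filter] at hy
      rw [mul_pow, hy.2, (hγ β hβ).1]
    · rw [← (hγ β hβ).2, ev, Finsupp.linearCombination_mapDomain]
      simp only [Finsupp.linearCombination_apply, Finsupp.sum, mul_sum, Function.comp, id,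
        Rat.smul_def]
      exact sum_congr rfl fun _ _ => by ring
  · rw [card_eq_sum_card_fiberwise (f := fun z => z ^ M') (t := nthRootsFinset q (1 : ℂ))
      (fun z hz => by
        rw [mem_coe, mem_nthRootsFinset hq.pos, ← pow_mul, mul_comm]; exact h1 z hz)]
    refine sum_congr rfl fun β hβ => ?_
    rw [mem_nthRootsFinset hq.pos] at hβ
    rw [Finsupp.mapDomain_support_of_injective (inj β hβ), card_image_of_injective _ (inj β hβ),
      Finsupp.support_filter]

/-- A vanishing rational combination of fewer than `2 p` roots of unity of odd order `M`, all of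
whose prime factors are at least `p`, has a prime number of terms. -/
theorem vanish (p : ℕ) (hp : 2 ≤ p) (M : ℕ) : Odd M → (∀ r, r.Prime → r ∣ M → p ≤ r) →
    ∀ a : ℂ →₀ ℚ, (∀ z ∈ a.support, z ^ M = 1) → ev a = 0 → a ≠ 0 → a.support.card < 2 * p →
      a.support.card.Prime ∧ a.support.card ∣ M := by
  classical
  induction M using Nat.strong_induction_on with
  | _ M ih =>
  intro hM hr a h1 h h0 hc
  by_cases M1 : M = 1
  · subst M1
    exfalso
    have e : a = Finsupp.single 1 (a 1) := Finsupp.eq_single_iff.2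
      ⟨fun z hz => by simpa using h1 z hz, rfl⟩
    rw [e] at h
    simp [ev] at h
    exact h0 (by rw [e, h]; simp)
  obtain ⟨q, hq, M', rfl⟩ := Nat.exists_prime_and_dvd M1
  have M0 : 0 < M' := Nat.pos_of_mul_pos_left hM.pos
  have ih' := ih M' (by nlinarith [hq.two_le]) (Nat.odd_mul.1 hM).2
    (fun r h1 h2 => hr r h1 (h2.mul_left _))
  obtain ⟨b, c, hb, hs, hd⟩ := slices hq M0 a h1 h
  have cq : (nthRootsFinset q (1 : ℂ)).card = q :=
    (Complex.isPrimitiveRoot_exp q hq.ne_zero).card_nthRootsFinset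
  set B := nthRootsFinset q (1 : ℂ)
  have pq := hr q hq (dvd_mul_right _ _)
  by_cases c0 : c = 0
  · subst c0
    have pos : 0 < a.support.card := card_pos.2 (Finsupp.support_nonempty_iff.2 h0)
    have le : ∀ β ∈ B, (b β).support.card ≤ a.support.card := fun β hβ =>
      hs ▸ single_le_sum (f := fun β => (b β).support.card) (fun _ _ => Nat.zero_le _) hβ
    have IH : ∀ β ∈ B, (b β).support.card ≠ 0 →
        (b β).support.card.Prime ∧ (b β).support.card ∣ M' := fun β hβ hne =>
      ih' _ (hb β hβ).1 (hb β hβ).2 (by rintro h; simp [h] at hne) ((le β hβ).trans_lt hc)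
    obtain ⟨β, hβ, hne⟩ := exists_ne_zero_of_sum_ne_zero (hs ▸ pos.ne')
    have : a.support.card = (b β).support.card := by
      rw [← hs]
      refine sum_eq_single β (fun β' hβ' hne' => ?_) (fun h => absurd hβ h)
      by_contra h'
      have := add_le_sum (f := fun β => (b β).support.card) (fun _ _ => Nat.zero_le _) hβ' hβ hne'
      have := hr _ (IH β hβ hne).1 ((IH β hβ hne).2.mul_left _)
      have := hr _ (IH β' hβ' h').1 ((IH β' hβ' h').2.mul_left _)
      omega
    rw [this]
    exact ⟨(IH β hβ hne).1, (IH β hβ hne).2.mul_left _⟩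
  · have pos : ∀ β ∈ B, 1 ≤ (b β).support.card := fun β hβ =>
      card_pos.2 (Finsupp.support_nonempty_iff.2 (by
        intro h; exact c0 (by rw [← (hb β hβ).2, h, map_zero])))
    obtain ⟨β0, hβ0, h10⟩ : ∃ β0 ∈ B, (b β0).support.card = 1 := by
      by_contra hh
      push Not at hh
      have := card_nsmul_le_sum B (fun β => (b β).support.card) 2 (fun β hβ => by
        have := pos β hβ; have := hh β hβ; omega)
      rw [hs, cq, smul_eq_mul] at this
      omega
    have all : ∀ β ∈ B, (b β).support.card = 1 := by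
      intro β hβ
      have t1 := card_nsmul_le_sum (B.erase β) (fun β => (b β).support.card) 1
        (fun β hβ => pos β (mem_of_mem_erase hβ))
      have t2 := add_sum_erase B (fun β => (b β).support.card) hβ
      rw [card_erase_of_mem hβ, cq, smul_eq_mul] at t1
      rw [hs] at t2
      have t3 : (b β - b β0).support.card ≤ (b β).support.card + 1 :=
        (card_le_card Finsupp.support_sub).trans ((card_union_le _ _).trans (by rw [h10]))
      by_contra hne
      have := ih' (b β - b β0) (fun z hz => by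
        rcases mem_union.1 (Finsupp.support_sub hz) with h | h
        exacts [(hb β hβ).1 z h, (hb β0 hβ0).1 z h])
        (by rw [map_sub, (hb β hβ).2, (hb β0 hβ0).2, sub_self])
        (by intro h; exact hne (by rw [sub_eq_zero.1 h, h10])) (by omega)
      have r1 := hr _ this.1 (this.2.mul_left _)
      have r2 : (b β - b β0).support.card ≠ q := fun h => hd c0 (h ▸ this.2)
      obtain ⟨x, hx⟩ := Odd.of_dvd_nat (Nat.odd_mul.1 hM).2 this.2
      obtain ⟨y, hy⟩ := (Nat.odd_mul.1 hM).1
      omega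
    rw [← hs, sum_congr rfl all]
    simp [cq, hq]

end Pool.Agent.H4.VanishSum
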