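import Mathlib
import Pool.Agent.H4.VanishSum

namespace Pool.Agent.H4.CosSum

open Finset Pool.Agent.H4.VanishSum

noncomputable def c (ζ : ℂ) (k : ℕ) : ℂ := ζ ^ k + ζ⁻¹ ^ k

variable {N : ℕ} {ζ : ℂ}

lemma half (h : IsPrimitiveRoot ζ (2 * (N + 1))) : ζ ^ (N + 1) = -1 :=
  (h.pow (by omega) (mul_comm _ _)).eq_neg_one_of_two_right

lemma c_sub (h0 : ζ ≠ 0) {k l : ℕ} {s : ℂ} (hs : s * s = 1) (h : ζ ^ (k + l) = s) :
    c ζ l = s * c ζ k := by
  have a : ζ ^ k ≠ 0 := pow_ne_zero _ h0
  have e : ζ ^ l = s * (ζ ^ k)⁻¹ := by rw [← h, pow_add]; field_simp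
  have s0 : s⁻¹ = s := inv_eq_of_mul_eq_one_left hs
  simp only [c, inv_pow, e, mul_inv, inv_inv, s0]; ring

lemma c_neg (h : IsPrimitiveRoot ζ (2 * (N + 1))) {k : ℕ} (hk : k ≤ N + 1) :
    c ζ (N + 1 - k) = -c ζ k := by
  rw [c_sub (h.ne_zero (by omega)) (k := k) (s := -1) (by norm_num)
    (by rw [← half h]; congr 1; omega)]; ring

lemma build (h : IsPrimitiveRoot ζ (2 * (N + 1))) (T : Finset ℕ) (hT : T ⊆ Icc 1 N)
    (h0 : ∑ k ∈ T, c ζ k = 0) (r : ℕ) (hr : r + T.card ≤ N / 2) :
    ∃ S ⊆ Icc 1 N, S.card = T.card + 2 * r ∧ ∑ k ∈ S, c ζ k = 0 := by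
  have h1 : ((Icc 1 (N / 2)).filter (fun k => k ∈ T ∨ N + 1 - k ∈ T)).card ≤ T.card := by
    refine card_le_card_of_injOn (fun k => if k ∈ T then k else N + 1 - k) ?_ ?_
    · intro k hk
      simp only [coe_filter, Set.mem_setOf_eq] at hk
      by_cases h : k ∈ T <;> simp_all
    · intro k hk l hl
      simp only [coe_filter, Set.mem_setOf_eq, mem_Icc] at hk hl
      simp only
      split_ifs <;> omega
  have h2 := card_filter_add_card_filter_not (s := Icc 1 (N / 2))
    (fun k => k ∈ T ∨ N + 1 - k ∈ T)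
  rw [Nat.card_Icc] at h2
  obtain ⟨P, hP, hc⟩ := exists_subset_card_eq
    (s := (Icc 1 (N / 2)).filter (fun k => ¬(k ∈ T ∨ N + 1 - k ∈ T))) (n := r) (by omega)
  have hP' : ∀ k ∈ P, (1 ≤ k ∧ k ≤ N / 2) ∧ k ∉ T ∧ N + 1 - k ∉ T := fun k hk => by
    simpa using hP hk
  have inj : Set.InjOn (fun k => N + 1 - k) P := fun k hk l hl e => by
    have := hP' k hk; have := hP' l hl; simp only at e; omega
  have d1 : Disjoint P (P.image fun k => N + 1 - k) := by
    rw [disjoint_left]; intro k hk hk'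
    obtain ⟨l, hl, e⟩ := mem_image.1 hk'
    have := hP' k hk; have := hP' l hl; omega
  have d2 : Disjoint T (P ∪ P.image fun k => N + 1 - k) := by
    rw [disjoint_right]; intro k hk
    rcases mem_union.1 hk with hk | hk
    · exact (hP' k hk).2.1
    · obtain ⟨l, hl, rfl⟩ := mem_image.1 hk
      exact (hP' l hl).2.2
  refine ⟨T ∪ (P ∪ P.image fun k => N + 1 - k), union_subset hT (union_subset ?_ ?_), ?_, ?_⟩
  · intro k hk; have := hP' k hk; rw [mem_Icc]; omega
  · intro k hk
    obtain ⟨l, hl, rfl⟩ := mem_image.1 hk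
    have := hP' l hl; rw [mem_Icc]; omega
  · rw [card_union_of_disjoint d2, card_union_of_disjoint d1, card_image_of_injOn inj, hc]; ring
  · rw [sum_union d2, sum_union d1, sum_image inj, h0, zero_add, ← sum_add_distrib]
    exact sum_eq_zero fun k hk => by rw [c_neg h (by have := hP' k hk; omega)]; ring

lemma gon (h : IsPrimitiveRoot ζ (2 * (N + 1))) {p q : ℕ} (hp : 2 ≤ p) (hq : 2 ≤ q)
    (e : N + 1 = p * q) : ∃ T ⊆ Icc 1 N, T.card = p ∧ ∑ k ∈ T, c ζ k = 0 := by
  have nd : ∀ a b : ℕ, 1 + q * a ≠ q * b := fun a b h => by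
    have : q ∣ 1 := (Nat.dvd_add_left (dvd_mul_right q a)).1 (h ▸ dvd_mul_right q b)
    have := Nat.le_of_dvd one_pos this; omega
  have lt : ∀ j ∈ range p, 1 + q * (2 * j) < 2 * (N + 1) := fun j hj => by
    have := mem_range.1 hj; nlinarith
  set f : ℕ → ℕ := fun j => if 1 + q * (2 * j) ≤ N then 1 + q * (2 * j)
    else 2 * (N + 1) - (1 + q * (2 * j)) with hf
  have inj : Set.InjOn f (range p) := by
    intro i hi j hj hij
    have a := lt i hi
    have b := lt j hj
    have n1 := nd (i + j) p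
    have n2 : 1 + q * (2 * i) = 1 + q * (2 * j) → i = j := fun h => by
      have := Nat.eq_of_mul_eq_mul_left (by omega : 0 < q) (Nat.add_left_cancel h); omega
    simp only [hf] at hij
    split_ifs at hij
    · exact n2 hij
    · exact absurd (by nlinarith [Nat.sub_add_cancel b.le]) n1
    · exact absurd (by nlinarith [Nat.sub_add_cancel a.le]) n1
    · exact n2 (by omega)
  have z0 := h.ne_zero (by omega)
  refine ⟨(range p).image f, ?_, by rw [card_image_of_injOn inj, card_range], ?_⟩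
  · intro k hk
    obtain ⟨j, hj, rfl⟩ := mem_image.1 hk
    have a := lt j hj
    have := nd (2 * j) p
    rw [mul_comm q p, ← e] at this
    simp only [hf, mem_Icc]; split_ifs <;> omega
  · rw [sum_image inj]
    have e1 : ∀ j ∈ range p, c ζ (f j) = ζ * (ζ ^ (2 * q)) ^ j + ζ⁻¹ * (ζ⁻¹ ^ (2 * q)) ^ j := by
      intro j hj
      have : c ζ (f j) = c ζ (1 + q * (2 * j)) := by
        simp only [hf]; split_ifs
        · rfl
        · rw [c_sub z0 (k := 1 + q * (2 * j)) (s := 1) (by simp)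
            (by rw [Nat.add_sub_cancel' (lt j hj).le, h.pow_eq_one]), one_mul]
      rw [this, c]; ring
    have e2 : 2 * (N + 1) = 2 * q * p := by rw [e]; ring
    rw [sum_congr rfl e1, sum_add_distrib, ← mul_sum, ← mul_sum,
      (h.pow (by omega) e2).geom_sum_eq_zero hp, (h.inv.pow (by omega) e2).geom_sum_eq_zero hp]
    simp

lemma none (h : IsPrimitiveRoot ζ (2 * (N + 1))) (hN : Even N) (S : Finset ℕ) (hS : S ⊆ Icc 1 N)
    (ho : Odd S.card) (hl : S.card < (N + 1).minFac) : ∑ k ∈ S, c ζ k ≠ 0 := by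
  classical
  intro h0
  have z0 := h.ne_zero (by omega)
  have hM : Odd (N + 1) := hN.add_one
  set ω := -ζ with hω
  have w1 : ω ^ (N + 1) = 1 := by rw [hω, hM.neg_pow, half h, neg_neg]
  have w2 : ∀ k ∈ S, ω ^ k ≠ ω⁻¹ ^ k := by
    intro k hk e
    have hk := mem_Icc.1 (hS hk)
    have : ζ ^ (2 * k) = 1 := by
      rw [← Even.neg_pow (even_two_mul k), ← hω, two_mul, pow_add]
      nth_rw 1 [e]
      rw [← mul_pow, inv_mul_cancel₀ (neg_ne_zero.2 z0), one_pow]
    have := Nat.le_of_dvd (by omega) (h.dvd_of_pow_eq_one _ this)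
    omega
  set a : ℂ →₀ ℚ := ∑ k ∈ S, (Finsupp.single (ω ^ k) ((-1) ^ k) +
    Finsupp.single (ω⁻¹ ^ k) ((-1) ^ k)) with ha
  have sub : a.support ⊆ S.image (ω ^ ·) ∪ S.image (ω⁻¹ ^ ·) := by
    intro z hz
    obtain ⟨k, hk, hz⟩ := mem_biUnion.1 (Finsupp.support_finset_sum hz)
    rcases mem_union.1 (Finsupp.support_add hz) with hz | hz
    · exact mem_union_left _ (mem_image.2 ⟨k, hk,
        (mem_singleton.1 (Finsupp.support_single_subset hz)).symm⟩)
    · exact mem_union_right _ (mem_image.2 ⟨k, hk,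
        (mem_singleton.1 (Finsupp.support_single_subset hz)).symm⟩)
  have p2 : 2 ≤ (N + 1).minFac := by obtain ⟨x, hx⟩ := ho; omega
  have v := vanish _ p2 (N + 1) hM (fun r h1 h2 => Nat.minFac_le_of_dvd h1.two_le h2) a ?_ ?_ ?_ ?_
  · have ev : Even a.support.card := by
      rw [← ZMod.natCast_eq_zero_iff_even, card_eq_sum_ones, Nat.cast_sum]
      refine sum_involution (fun z _ => z⁻¹) (fun _ _ => by decide) ?_ ?_ (by simp)
      · intro z hz _ e
        rcases mem_union.1 (sub hz) with h | h <;> obtain ⟨k, hk, rfl⟩ := mem_image.1 h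
        · exact w2 k hk (by rw [inv_pow, e])
        · exact w2 k hk (by rw [← e]; simp)
      · intro z hz
        rw [Finsupp.mem_support_iff] at hz ⊢
        convert hz using 1
        simp only [ha, Finsupp.finset_sum_apply, Finsupp.add_apply, Finsupp.single_apply,
          inv_pow, inv_inj]
        refine sum_congr rfl fun k _ => ?_
        rw [add_comm]
        simp only [inv_eq_iff_eq_inv]
    exact (Nat.not_even_iff_odd.2 (Odd.of_dvd_nat hM v.2)) ev
  · intro z hz
    rcases mem_union.1 (sub hz) with h | h <;> obtain ⟨k, hk, rfl⟩ := mem_image.1 h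
    · rw [← pow_mul, mul_comm, pow_mul, w1, one_pow]
    · rw [← pow_mul, mul_comm, pow_mul, inv_pow, w1]; simp
  · rw [← h0, ha, map_sum]
    refine sum_congr rfl fun k _ => ?_
    simp only [map_add, ev, Finsupp.linearCombination_single, id, c, hω, Rat.smul_def, inv_neg]
    push_cast
    rw [← mul_pow, ← mul_pow]; simp
  · intro a0
    have := congrArg (Finsupp.linearCombination ℚ (fun _ : ℂ => (1 : ℚ))) a0
    simp only [ha, map_sum, map_add, Finsupp.linearCombination_single, smul_eq_mul, mul_one,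
      map_zero, ← two_mul, ← mul_sum] at this
    have t : ∑ k ∈ S, (-1 : ℤ) ^ k = 0 := by
      have := (mul_eq_zero.1 this).resolve_left two_ne_zero
      exact_mod_cast this
    have t2 := congrArg (Int.cast : ℤ → ZMod 2) t
    push_cast at t2
    simp only [ZMod.neg_eq_self_mod_two, one_pow, sum_const, nsmul_eq_mul, mul_one] at t2
    exact (Nat.not_even_iff_odd.2 ho) (ZMod.natCast_eq_zero_iff_even.1 t2)
  · have := (card_le_card sub).trans (card_union_le _ _)
    have := card_image_le (s := S) (f := (ω ^ ·))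
    have := card_image_le (s := S) (f := (ω⁻¹ ^ ·))
    omega

theorem cos_iff {m n : ℕ} (hm : 1 ≤ m) (hn : 1 ≤ n) (h : IsPrimitiveRoot ζ (2 * (m + n + 1))) :
    (∀ S ⊆ Icc 1 (m + n), S.card = m → ∑ k ∈ S, c ζ k ≠ 0) ↔
      Odd m ∧ Odd n ∧ min m n < (m + n + 1).minFac := by
  constructor
  · intro H
    have key : ∀ T ⊆ Icc 1 (m + n), ∑ k ∈ T, c ζ k = 0 → ∀ r, r + T.card ≤ (m + n) / 2 →
        T.card + 2 * r ≠ m := fun T hT h0 r hr e => by
      obtain ⟨S, h1, h2, h3⟩ := build h T hT h0 r hr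
      exact H S h1 (h2.trans e) h3
    have om : Odd m := by
      rw [← Nat.not_even_iff_odd]; rintro ⟨r, hr⟩
      exact key ∅ (by simp) (by simp) r (by simp; omega) (by simp; omega)
    obtain ⟨x, hx⟩ := om
    have on : Odd n := by
      rw [← Nat.not_even_iff_odd]; rintro ⟨r, hr⟩
      refine key {x + r + 1} (by simp; omega) ?_ x (by simp; omega) (by simp; omega)
      have := c_neg h (k := x + r + 1) (by omega)
      rw [show m + n + 1 - (x + r + 1) = x + r + 1 by omega] at this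
      rw [sum_singleton]; linear_combination this / 2
    refine ⟨⟨x, hx⟩, on, ?_⟩
    obtain ⟨y, hy⟩ := on
    by_contra hl
    obtain ⟨q, hq⟩ := Nat.minFac_dvd (m + n + 1)
    have p2 := (Nat.minFac_prime (n := m + n + 1) (by omega)).two_le
    obtain ⟨z, hz⟩ := Odd.of_dvd_nat (⟨x + y + 1, by omega⟩ : Odd (m + n + 1))
      (Nat.minFac_dvd (m + n + 1))
    have q2 : 2 ≤ q := by
      rcases q with _ | _ | q <;> omega
    obtain ⟨T, h1, h2, h3⟩ := gon h p2 q2 hq
    exact key T h1 h3 (x - z) (by omega) (by omega)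
  · rintro ⟨om, on, hl⟩ S hS hc
    have ev : Even (m + n) := om.add_odd on
    by_cases hmn : m < (m + n + 1).minFac
    · exact none h ev S hS (hc ▸ om) (hc ▸ hmn)
    · intro h0
      have cc : (Icc 1 (m + n) \ S).card = n := by
        rw [card_sdiff_of_subset hS, hc, Nat.card_Icc]; omega
      refine none h ev (Icc 1 (m + n) \ S) sdiff_subset (cc.symm ▸ on) (by omega) ?_
      obtain ⟨r, hr⟩ := ev
      obtain ⟨U, h1, h2, h3⟩ := build h ∅ (by simp) (by simp) r (by simp; omega)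
      have : U = Icc 1 (m + n) := eq_of_subset_of_card_le h1 (by simp at h2 ⊢; omega)
      rw [sum_sdiff_eq_sub hS, ← this, h3, h0, sub_zero]

end Pool.Agent.H4.CosSum
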