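import Pool.Agent.H4.CsDefs
import Pool.Agent.H11.Base1

set_option autoImplicit false

namespace Pool.Agent.H4.Cs

open Pool.Agent.H11.PT Function

variable {I : List (List ℕ)} {M : ℕ → Option ℕ} {L : ℕ}

theorem lt_of_mem {a b : ℕ} (h : b ∈ P I a) : a < I.length := by
  by_contra hc
  rw [P, List.getD_eq_default _ _ (not_lt.1 hc)] at h
  simp at h

theorem of_rank (r : ℕ → ℕ) (h : ∀ a b, Wants I M a b → r b < r a) (c : List ℕ) : ¬Blk I M c := by
  rintro ⟨-, h1, h2⟩
  obtain ⟨i, hi, hm⟩ := (Finset.range c.length).exists_min_image (fun i => r (c.getD i 0))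
    ⟨0, by simp; omega⟩
  exact (h _ _ (h2 i (by simpa using hi))).not_ge
    (hm _ (Finset.mem_range.2 (Nat.mod_lt _ (by omega))))

theorem blk2 {a b : ℕ} : Blk I M [a, b] ↔ a ≠ b ∧ Wants I M a b ∧ Wants I M b a := by
  simp [Blk, Nat.forall_lt_succ_right, -Order.lt_two_iff]

theorem blk3 {a b c : ℕ} : Blk I M [a, b, c] ↔
    (a ≠ b ∧ a ≠ c ∧ b ≠ c) ∧ Wants I M a b ∧ Wants I M b c ∧ Wants I M c a := by
  simp [Blk, Nat.forall_lt_succ_right, and_assoc, -Order.lt_two_iff]

theorem to_rank (hV : Valid L I) (h : ∀ c, ¬Blk I M c) :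
    ∃ r : ℕ → ℕ, (∀ a, r a ≤ I.length) ∧ ∀ a b, Wants I M a b → r b < r a := by
  classical
  have ac : ∀ v, ¬Relation.TransGen (Wants I M) v v := by
    intro v hv
    have w : ∀ a b, Relation.TransGen (Wants I M) a b → ∃ k, ∃ f : ℕ → ℕ, f 0 = a ∧ f (k + 1) = b ∧
        ∀ i ≤ k, Wants I M (f i) (f (i + 1)) := by
      intro a b h
      induction h with
      | @single b h => exact ⟨0, fun i => if i = 0 then a else b, rfl, rfl, by simpa⟩
      | @tail b c _ h ih =>
        obtain ⟨k, f, f0, f1, f2⟩ := ih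
        refine ⟨k + 1, fun i => if i = k + 2 then c else f i, by simpa, by simp, fun i hi => ?_⟩
        by_cases e : i = k + 1
        · simpa [e, f1]
        · simpa [e, show i ≠ k + 2 by omega] using f2 i (by omega)
    have ex : ∃ k, ∃ f : ℕ → ℕ, f (k + 1) = f 0 ∧ ∀ i ≤ k, Wants I M (f i) (f (i + 1)) := by
      obtain ⟨k, f, f0, f1, f2⟩ := w v v hv
      exact ⟨k, f, f1.trans f0.symm, f2⟩
    obtain ⟨f, f1, f2⟩ := Nat.find_spec ex
    have mn := fun m => @Nat.find_min _ _ ex m
    generalize Nat.find ex = k at *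
    have inj : ∀ i j, i < j → j ≤ k → f i ≠ f j := fun i j h1 h2 e =>
      mn (j - i - 1) (by omega) ⟨fun t => f (i + t), by
        simpa [show i + (j - i - 1 + 1) = j by omega] using e.symm, fun t ht => f2 (i + t) (by omega)⟩
    refine h ((List.range (k + 1)).map f) ⟨List.nodup_range.map_on fun i hi j hj e => ?_, ?_, ?_⟩
    · simp only [List.mem_range] at hi hj
      rcases lt_trichotomy i j with g | g | g
      exacts [(inj i j g (by omega) e).elim, g, (inj j i g (by omega) e.symm).elim]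
    · rcases k with _ | k
      · have := (f2 0 le_rfl).1
        rw [f1] at this
        exact ((hV _ (lt_of_mem this)).2.1 this).elim
      · simp
    · intro i hi
      simp only [List.length_map, List.length_range] at hi ⊢
      have := f2 i (by omega)
      by_cases e : i = k
      · simpa [e, f1] using this
      · simpa [Nat.mod_eq_of_lt (show i + 1 < k + 1 by omega), hi, show i < k by omega] using this
  refine ⟨fun a => ((Finset.range I.length).filter fun v => Relation.TransGen (Wants I M) a v).card,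
    fun a => (Finset.card_filter_le _ _).trans (by simp), fun a b w => Finset.card_lt_card ⟨?_, ?_⟩⟩
  · intro v hv
    simp only [Finset.mem_filter] at *
    exact ⟨hv.1, .head w hv.2⟩
  · intro hs
    have : b ∈ _ := hs (Finset.mem_filter.2 ⟨Finset.mem_range.2 ((hV _ (lt_of_mem w.1)).2.2.2 _ w.1).1,
      .single w⟩)
    exact ac b (Finset.mem_filter.1 this).2

theorem pt_idx {α : Type} [Enc α] {l : α → List ℕ} {b : α → ℕ} (hl : PT l) (hb : PT b) :
    PT fun x => (l x).idxOf (b x) := by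
  refine PT.of_eq (f := fun x => (List.range (l x).length).countP fun i =>
    decide (¬b x ∈ (l x).take (i + 1))) (by fun_prop) fun x => ?_
  induction l x with
  | nil => rfl
  | cons y l ih =>
    rw [List.length_cons, List.range_succ_eq_map, List.countP_cons, List.countP_map, List.idxOf_cons]
    by_cases e : y = b x
    · simp [e]
    · simp [← ih, Function.comp_def, Ne.symm e, beq_false_of_ne e]

def vB (L : ℕ) (I : List (List ℕ)) : Bool := (List.range I.length).all fun a =>
  (P I a).all (fun b => decide ((P I a).count b ≤ 1 ∧ b < I.length ∧ a ∈ P I b)) &&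
    decide (¬a ∈ P I a ∧ (P I a).length ≤ L)

theorem vB_iff : vB L I = true ↔ Valid L I := by
  simp only [vB, Valid, List.all_eq_true, List.mem_range, Bool.and_eq_true, decide_eq_true_eq,
    List.nodup_iff_count_le_one]
  refine forall₂_congr fun a _ => ⟨fun h => ⟨fun b => ?_, h.2.1, h.2.2, fun b hb => (h.1 b hb).2⟩,
    fun h => ⟨fun b hb => ⟨h.1 b, h.2.2.2 b hb⟩, h.2.1, h.2.2.1⟩⟩
  by_cases e : b ∈ P I a
  · exact (h.1 b e).1
  · simp [List.count_eq_zero_of_not_mem e]

theorem pt_vB (L : ℕ) : PT (vB L) := by unfold vB P; fun_prop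

def dec (n : ℕ) (c : List ℕ) (a : ℕ) : Option ℕ :=
  if a < n ∧ c.getD a 0 ≠ 0 then some (c.getD a 0 - 1) else none

def mB (I : List (List ℕ)) (c : List ℕ) : Bool := (List.range I.length).all fun a =>
  decide (c.getD a 0 = 0 ∨ (c.getD a 0 - 1 ∈ P I a ∧ c.getD a 0 - 1 < I.length ∧
    c.getD (c.getD a 0 - 1) 0 = a + 1))

def wB (I : List (List ℕ)) (c : List ℕ) (a b : ℕ) : Bool :=
  decide (b ∈ P I a ∧ (c.getD a 0 = 0 ∨ (P I a).idxOf b < (P I a).idxOf (c.getD a 0 - 1)))

theorem mB_iff {c : List ℕ} : mB I c = true ↔ IsM I (dec I.length c) := by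
  simp only [mB, IsM, dec, List.all_eq_true, List.mem_range, decide_eq_true_eq,
    Option.ite_none_right_eq_some, Option.some.injEq]
  constructor
  · rintro h a b ⟨⟨h1, h2⟩, rfl⟩
    have := (h a h1).resolve_left h2
    exact ⟨this.1, by omega, by omega⟩
  · intro h a ha
    by_cases e : c.getD a 0 = 0
    · exact Or.inl e
    · have := h a _ ⟨⟨ha, e⟩, rfl⟩
      exact Or.inr ⟨this.1, by omega, by omega⟩

theorem wB_iff {c : List ℕ} {a b : ℕ} : wB I c a b = true ↔ Wants I (dec I.length c) a b := by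
  have := @lt_of_mem I a b
  simp only [wB, Wants, dec, decide_eq_true_eq]
  grind

theorem pt_wB {α : Type} [Enc α] {I : α → List (List ℕ)} {c : α → List ℕ} {a b : α → ℕ} (h1 : PT I)
    (h2 : PT c) (h3 : PT a) (h4 : PT b) : PT fun x => wB (I x) (c x) (a x) (b x) := by
  have : PT fun x => (P (I x) (a x)).idxOf (b x) := pt_idx (by unfold P; fun_prop) h4
  have : PT fun x => (P (I x) (a x)).idxOf ((c x).getD (a x) 0 - 1) :=
    pt_idx (by unfold P; fun_prop) (by fun_prop)
  unfold wB P at *; fun_prop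

theorem cert (hV : Valid L I) (hM : IsM I M) (r : ℕ → ℕ) (hr : ∀ a, r a ≤ I.length) :
    ∃ c : List ℕ, c.length + c.sum ≤ 2 * I.length * (I.length + 1) ∧ dec I.length c = M ∧
      ∀ a < I.length, c.getD (I.length + a) 0 = r a := by
  have hl : ∀ a b, M a = some b → a < I.length ∧ b < I.length := fun a b h =>
    ⟨lt_of_mem (hM a b h).1, lt_of_mem (hM b a (hM a b h).2).1⟩
  refine ⟨(List.range (2 * I.length)).map fun a =>
    if a < I.length then (M a).elim 0 (· + 1) else r (a - I.length), ?_, ?_, fun a ha => ?_⟩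
  · refine (add_le_add le_rfl (List.sum_le_card_nsmul _ I.length fun x hx => ?_)).trans
      (by simp; ring_nf; rfl)
    obtain ⟨a, -, rfl⟩ := List.mem_map.1 hx
    split_ifs
    · rcases h : M a with _ | b
      · simp
      · exact (hl a b h).2
    · exact hr _
  · funext a
    by_cases e : a < I.length
    · rcases h : M a with _ | b <;> simp [dec, e, h, show a < 2 * I.length by omega]
    · rcases h : M a with _ | b
      · simp [dec, e]
      · exact (e (hl a b h).1).elim
  · simp [show I.length + a < 2 * I.length by omega]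

theorem np_CS (L : ℕ) : InNP fun I => Valid L I ∧ CS I := by
  refine PT.inNP_nats (V := fun I c => vB L I && mB I c &&
    (List.range I.length ×ˢ List.range I.length).all fun p => !wB I c p.1 p.2 ||
      decide (c.getD (I.length + p.2) 0 < c.getD (I.length + p.1) 0))
    (PT.and (PT.and ((pt_vB L).comp (by fun_prop)) (by unfold mB P; fun_prop)) (PT.all (by fun_prop)
      (PT.or (pt_wB (by fun_prop) (by fun_prop) (by fun_prop) (by fun_prop)).not (by fun_prop))))
    (fun I => 2 * I.length * (I.length + 1)) (by fun_prop) (fun I c h => ?_) fun I h => ?_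
  · simp only [Bool.and_eq_true, vB_iff, mB_iff, List.all_eq_true, Prod.forall, List.mem_product,
      List.mem_range, Bool.or_eq_true, Bool.not_eq_true', ← Bool.not_eq_true, wB_iff,
      decide_eq_true_eq] at h
    exact ⟨h.1.1, _, h.1.2, of_rank (fun a => c.getD (I.length + a) 0) fun a b w =>
      (h.2 a b ⟨lt_of_mem w.1, ((h.1.1 _ (lt_of_mem w.1)).2.2.2 _ w.1).1⟩).resolve_left (not_not.2 w)⟩
  · obtain ⟨hV, M, hM, h⟩ := h
    obtain ⟨r, r1, r2⟩ := to_rank hV h
    obtain ⟨c, c1, rfl, c3⟩ := cert hV hM r r1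
    refine ⟨c, c1, ?_⟩
    simp only [Bool.and_eq_true, vB_iff, mB_iff, List.all_eq_true, Prod.forall, List.mem_product,
      List.mem_range, Bool.or_eq_true, Bool.not_eq_true', ← Bool.not_eq_true, wB_iff,
      decide_eq_true_eq]
    exact ⟨⟨hV, hM⟩, fun a b h => by rw [c3 a h.1, c3 b h.2]; exact imp_iff_not_or.1 (r2 a b)⟩

theorem np_CS3 (L : ℕ) : InNP fun I => Valid L I ∧ CS3 I := by
  refine PT.inNP_nats (V := fun I c => vB L I && mB I c &&
    (List.range I.length ×ˢ List.range I.length ×ˢ List.range I.length).all fun p =>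
      !(wB I c p.1 p.2.1 && (wB I c p.2.1 p.1 || (wB I c p.2.1 p.2.2 && wB I c p.2.2 p.1))))
    (PT.and (PT.and ((pt_vB L).comp (by fun_prop)) (by unfold mB P; fun_prop)) (PT.all (by fun_prop)
      (PT.not (PT.and ?_ (PT.or ?_ (PT.and ?_ ?_))))))
    (fun I => 2 * I.length * (I.length + 1)) (by fun_prop) (fun I c h => ?_) fun I h => ?_
  iterate 4 exact pt_wB (by fun_prop) (by fun_prop) (by fun_prop) (by fun_prop)
  · simp only [Bool.and_eq_true, vB_iff, mB_iff, List.all_eq_true, Prod.forall, List.mem_product,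
      List.mem_range, Bool.or_eq_true, Bool.not_eq_true', ← Bool.not_eq_true, wB_iff] at h
    refine ⟨h.1.1, _, h.1.2, fun l hl hb => ?_⟩
    match l, hl, hb with
    | [], _, hb => exact absurd hb.2.1 (by simp)
    | [_], _, hb => exact absurd hb.2.1 (by simp)
    | [a, b], _, hb =>
      obtain ⟨-, x, y⟩ := blk2.1 hb
      exact h.2 a b a ⟨lt_of_mem x.1, lt_of_mem y.1, lt_of_mem x.1⟩ ⟨x, Or.inl y⟩
    | [a, b, d], _, hb =>
      obtain ⟨-, x, y, z⟩ := blk3.1 hb
      exact h.2 a b d ⟨lt_of_mem x.1, lt_of_mem y.1, lt_of_mem z.1⟩ ⟨x, Or.inr ⟨y, z⟩⟩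
  · obtain ⟨hV, M, hM, h⟩ := h
    obtain ⟨c, c1, rfl, -⟩ := cert hV hM (fun _ => 0) (by simp)
    refine ⟨c, c1, ?_⟩
    simp only [Bool.and_eq_true, vB_iff, mB_iff, List.all_eq_true, Prod.forall, List.mem_product,
      List.mem_range, Bool.or_eq_true, Bool.not_eq_true', ← Bool.not_eq_true, wB_iff]
    have ne : ∀ a b, Wants I (dec I.length c) a b → a ≠ b := fun a b w e =>
      (hV _ (lt_of_mem w.1)).2.1 (e ▸ w.1)
    refine ⟨⟨hV, hM⟩, fun a b d _ => ?_⟩
    rintro ⟨x, y | ⟨y, z⟩⟩
    · exact h _ (by simp) (blk2.2 ⟨ne _ _ x, x, y⟩)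
    · exact h _ (by simp) (blk3.2 ⟨⟨ne _ _ x, (ne _ _ z).symm, ne _ _ y⟩, x, y, z⟩)

end Pool.Agent.H4.Cs
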