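import Pool.Agent.H4.Cs1

set_option autoImplicit false

namespace Pool.Agent.H4.Cs

open Pool.Agent.H11.PT Function

variable {I : List (List ℕ)} {M : ℕ → Option ℕ}

theorem CS.cs3 (h : CS I) : CS3 I := h.imp fun _ h => ⟨h.1, fun c _ => h.2 c⟩

def top (I : List (List ℕ)) (a : ℕ) : ℕ := (P I a).headD a

def OddC (I : List (List ℕ)) : Prop := ∃ a k, P I a ≠ [] ∧ k % 2 = 1 ∧ (top I)^[k] a = a

theorem shape (hV : Valid 2 I) (a : ℕ) : (P I a = [] ∧ top I a = a) ∨
    (P I a = [top I a] ∧ top I a ≠ a) ∨
      ∃ s, P I a = [top I a, s] ∧ top I a ≠ a ∧ s ≠ a ∧ s ≠ top I a := by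
  by_cases h : a < I.length
  · obtain ⟨h1, h2, h3, -⟩ := hV a h
    unfold top
    generalize P I a = l at *
    match l with
    | [] => simp
    | [x] => simp at *; grind
    | [x, y] => simp at *; grind
    | _ :: _ :: _ :: _ => simp at h3
  · simp [top, P, List.getElem?_eq_none (not_lt.1 h)]

theorem mutual' {L : ℕ} (hV : Valid L I) {a b : ℕ} (h : b ∈ P I a) : a ∈ P I b :=
  ((hV a (lt_of_mem h)).2.2.2 b h).2

theorem not_odd (hV : Valid 2 I) (h : CS3 I) : ¬OddC I := by
  obtain ⟨M, hM, hb⟩ := h
  rintro ⟨a, k, h1, h2, h3⟩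
  have ne : ∀ u, P I u ≠ [] → top I u ∈ P I u ∧ top I u ≠ u ∧ P I (top I u) ≠ [] := by
    intro u hu
    have : top I u ∈ P I u := by have := shape hV u; grind
    exact ⟨this, by have := shape hV u; grind, List.ne_nil_of_mem (mutual' hV this)⟩
  have nn : ∀ i, P I ((top I)^[i] a) ≠ [] := by
    intro i
    induction i with
    | zero => exact h1
    | succ i ih => rw [iterate_succ_apply']; exact (ne _ ih).2.2
  have per : ∀ i, top I (top I ((top I)^[i] a)) ≠ (top I)^[i] a := by
    intro i e
    have p1 : IsPeriodicPt (top I) 2 ((top I)^[i] a) := e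
    have p2 : IsPeriodicPt (top I) k ((top I)^[i] a) := IsPeriodicPt.apply_iterate h3 i
    have := p1.gcd p2
    rw [(Nat.coprime_two_left.2 (Nat.odd_iff.2 h2)).gcd_eq_one] at this
    exact (ne _ (nn i)).2.1 this
  have alt : ∀ u, P I u ≠ [] → top I (top I u) ≠ u →
      (M (top I u) = some (top I (top I u)) ↔ M u ≠ some (top I u)) := by
    intro u hu e
    obtain ⟨g1, g2, g3⟩ := ne u hu
    refine ⟨fun h h' => e (by simpa [h] using (hM _ _ h').2), fun h => ?_⟩
    by_contra h'
    refine hb [u, top I u] (by simp) (blk2.2 ⟨g2.symm, ⟨g1, fun c hc => ?_⟩, mutual' hV g1,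
      fun c hc => ?_⟩)
    · have := (hM _ _ hc).1
      have := shape hV u
      grind
    · have := hM _ _ hc
      have := mutual' hV g1
      have := shape hV (top I u)
      grind
  have : ∀ i, M ((top I)^[i] a) = some (top I ((top I)^[i] a)) ↔
      (M a = some (top I a) ↔ i % 2 = 0) := by
    intro i
    induction i with
    | zero => simp
    | succ i ih =>
      rw [iterate_succ_apply', alt _ (nn i) (per i), ne_eq, ih]
      grind
  have := this k
  rw [h3] at this
  grind

theorem colour (hV : Valid 2 I) (h : ¬OddC I) : ∃ up : ℕ → Prop,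
    ∀ u, (top I (top I u) = u → up u) ∧ (top I (top I u) ≠ u → (up u ↔ ¬up (top I u))) := by
  classical
  let g : ℕ → ℕ := fun u => if top I (top I u) = u then u else top I u
  let S : ℕ → Set ℕ := fun u => {v | ∀ N, ∃ k ≥ N, g^[k] u = v}
  have bd : ∀ u k, g^[k] u ≤ u + I.length := by
    intro u k
    induction k with
    | zero => simp
    | succ k ih =>
      rw [iterate_succ_apply']
      generalize g^[k] u = v at *
      have := fun h : top I v ∈ P I v => lt_of_mem (mutual' hV h)
      have := shape hV v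
      grind
  have ne : ∀ u, (S u).Nonempty := by
    intro u
    obtain ⟨v, hv⟩ := Finite.exists_infinite_fiber
      (fun k => (⟨g^[k] u, Nat.lt_succ_of_le (bd u k)⟩ : Fin (u + I.length + 1)))
    refine ⟨v, fun N => ?_⟩
    obtain ⟨k, h1, h2⟩ := (Set.infinite_coe_iff.1 hv).exists_gt N
    exact ⟨k, h2.le, congrArg Fin.val h1⟩
  have eq : ∀ u, S (g u) = S u := fun u => Set.ext fun v =>
    ⟨fun h N => by obtain ⟨k, a, b⟩ := h N; exact ⟨k + 1, by omega, b⟩, fun h N => by
      obtain ⟨k, a, b⟩ := h (N + 1)
      obtain ⟨k, rfl⟩ : ∃ j, k = j + 1 := ⟨k - 1, by omega⟩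
      exact ⟨k, by omega, b⟩⟩
  have ex : ∀ u, ∃ k, g^[k] u = sInf (S u) := fun u =>
    (Nat.sInf_mem (ne u) 0).imp fun _ h => h.2
  have fx : ∀ u, g u = u → ∀ k, g^[k] u = u := fun u h k => iterate_fixed h k
  refine ⟨fun u => Nat.find (ex u) % 2 = 0, fun u => ⟨fun e => ?_, fun e => ?_⟩⟩
  · have := Nat.find_spec (ex u)
    rw [fx u (if_pos e)] at this
    have : Nat.find (ex u) = 0 := (Nat.find_eq_zero _).2 this
    simp only [this]
  · have gu : g u = top I u := if_neg e
    have s1 := Nat.find_spec (ex (g u))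
    rw [← gu]
    by_cases c : u = sInf (S u)
    · have z : Nat.find (ex u) = 0 := (Nat.find_eq_zero _).2 c
      simp only [z]
      generalize Nat.find (ex (g u)) = k at *
      rw [eq, ← c, ← iterate_succ_apply] at s1
      have : ∀ i ≤ k + 1, g^[i] u = (top I)^[i] u := by
        intro i
        induction i with
        | zero => simp
        | succ i ih =>
          intro hi
          rw [iterate_succ_apply', iterate_succ_apply', ← ih (by omega)]
          refine if_neg fun e' => e ?_
          have := fx _ (if_pos e') (k + 1 - i)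
          rw [← iterate_add_apply, show k + 1 - i + i = k + 1 by omega, s1] at this
          rwa [← this] at e'
      have hu : P I u ≠ [] := by have := shape hV u; grind
      have : ¬(k + 1) % 2 = 1 := fun o => h ⟨u, k + 1, hu, o, (this _ le_rfl).symm.trans s1⟩
      simp only [true_iff]
      omega
    · have : Nat.find (ex u) = Nat.find (ex (g u)) + 1 := by
        rw [Nat.find_eq_iff]
        refine ⟨s1.trans (by rw [eq]), fun n hn hc => ?_⟩
        rcases n with _ | n
        · exact c hc
        · exact Nat.find_min (ex (g u)) (by omega : n < _) (by rw [eq]; exact hc)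
      omega

theorem of_not_odd (hV : Valid 2 I) (h : ¬OddC I) : CS I := by
  classical
  obtain ⟨up, hu⟩ := colour hV h
  let M : ℕ → Option ℕ := fun u => if P I u = [] then none else if up u then some (top I u) else
    (P I u)[1]?.filter fun w => top I w = u ∨ ¬up w
  have hM : ∀ u w, M u = some w ↔ (P I u ≠ [] ∧ up u ∧ w = top I u) ∨
      (¬up u ∧ P I u = [top I u, w] ∧ (top I w = u ∨ ¬up w)) := by
    intro u w
    have := shape hV u
    simp only [M]
    grind
  refine ⟨M, fun a b e => ?_, of_rank (fun u => if up u then 0 else 1) fun a b w => ?_⟩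
  · have sa := shape hV a
    have sb := shape hV b
    have := hu a
    have := hu b
    have : b ∈ P I a := by rw [hM] at e; grind
    refine ⟨this, ?_⟩
    have := mutual' hV this
    rw [hM] at e ⊢
    clear hM hu
    rcases sb with sb | sb | ⟨s, sb⟩ <;> simp only [sb] at * <;> grind
  · have := shape hV a
    have := hu a
    have := hM a b
    have := hM a (top I a)
    have := w.1
    have := w.2 b
    have := w.2 (top I a)
    grind

def oB (I : List (List ℕ)) : Bool := (List.range I.length ×ˢ List.range (I.length + 1)).any fun p =>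
  !(P I p.1).isEmpty && decide (p.2 % 2 = 1 ∧ (top I)^[p.2] p.1 = p.1)

theorem oB_iff (hV : Valid 2 I) : oB I = true ↔ OddC I := by
  simp only [oB, OddC, List.any_eq_true, Prod.exists, List.mem_product, List.mem_range,
    Bool.and_eq_true, Bool.not_eq_true', List.isEmpty_eq_false_iff, decide_eq_true_eq]
  refine exists_congr fun a => ⟨fun ⟨k, _, h⟩ => ⟨k, h⟩, fun ⟨k, h1, h2, h3⟩ => ?_⟩
  obtain ⟨b, hb⟩ := List.exists_mem_of_ne_nil _ h1
  have ha := lt_of_mem hb
  have bd : ∀ k, (top I)^[k] a < I.length := by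
    intro k
    induction k with
    | zero => exact ha
    | succ k ih =>
      rw [iterate_succ_apply']
      generalize (top I)^[k] a = v at *
      have := fun h : top I v ∈ P I v => lt_of_mem (mutual' hV h)
      have := shape hV v
      grind
  have := Finset.card_le_card_of_injOn (s := Finset.range (minimalPeriod (top I) a))
    (t := Finset.range I.length) (fun k => (top I)^[k] a) (fun k _ => by simpa using bd k)
    (by simpa using iterate_injOn_Iio_minimalPeriod)
  refine ⟨minimalPeriod (top I) a, ⟨ha, by simp at this; omega⟩, h1, ?_,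
    isPeriodicPt_minimalPeriod _ _⟩
  exact Nat.odd_iff.1 ((Nat.odd_iff.2 h2).of_dvd_nat (IsPeriodicPt.minimalPeriod_dvd h3))

theorem pt_oB : PT oB := by
  have : PT fun p : List (List ℕ) × ℕ × ℕ => (top p.1)^[p.2.2] p.2.1 := by
    refine PT.iterate_add (g := fun p : List (List ℕ) × ℕ × ℕ => top p.1) (by fun_prop) (by fun_prop)
      (by unfold top P; fun_prop) (fun p => p.1) 0 (by fun_prop) fun p c => ?_
    unfold top
    rcases h : P p.1 c with _ | ⟨x, l⟩
    · simp
    · have h1 : x ∈ P p.1 c := by simp [h]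
      have h2 : P p.1 c ∈ p.1 := by
        rw [P, List.getD_eq_getElem _ _ (lt_of_mem h1)]; exact List.getElem_mem _
      have := sz_mem h1
      have := sz_mem h2
      simp only [List.headD_cons]
      omega
  unfold oB P
  fun_prop

theorem Valid.mono {L L' : ℕ} (h : Valid L I) (e : L ≤ L') : Valid L' I := fun a ha =>
  ⟨(h a ha).1, (h a ha).2.1, (h a ha).2.2.1.trans e, (h a ha).2.2.2⟩

theorem inP {L : ℕ} (hL : L ≤ 2) :
    InP (fun I => Valid L I ∧ CS I) ∧ InP fun I => Valid L I ∧ CS3 I := by
  have : PT fun I => vB L I && !oB I := (pt_vB L).and pt_oB.not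
  refine ⟨this.inP fun I => ?_, this.inP fun I => ?_⟩ <;>
    simp only [Bool.and_eq_true, vB_iff, Bool.not_eq_true', ← Bool.not_eq_true] <;>
    refine and_congr_right fun h => ?_ <;> rw [oB_iff (h.mono hL)]
  · exact ⟨fun c => not_odd (h.mono hL) c.cs3, of_not_odd (h.mono hL)⟩
  · exact ⟨not_odd (h.mono hL), fun c => (of_not_odd (h.mono hL) c).cs3⟩

end Pool.Agent.H4.Cs
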