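import Pool.Agent.H4.Sig2

set_option autoImplicit false

namespace Pool.Agent.H4.Sig

open Real Finset Pool.Agent.H11.PT

def nl (l : Lit) : ℕ := 1 + 4 * l.1 + (bif l.2 then 0 else 1)

def toNae (φ : List (Lit × Lit × Lit)) : List (ℕ × ℕ × ℕ) :=
  φ.zipIdx.flatMap fun p =>
    [(1 + 4 * p.1.1.1, 1 + 4 * p.1.1.1, 2 + 4 * p.1.1.1),
     (1 + 4 * p.1.2.1.1, 1 + 4 * p.1.2.1.1, 2 + 4 * p.1.2.1.1),
     (1 + 4 * p.1.2.2.1, 1 + 4 * p.1.2.2.1, 2 + 4 * p.1.2.2.1),
     (3 + 4 * p.2, 3 + 4 * p.2, 4 + 4 * p.2),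
     (nl p.1.1, nl p.1.2.1, 3 + 4 * p.2), (4 + 4 * p.2, nl p.1.2.2, 0)]

theorem hard_NAE3 : Hard NAE3 := by
  refine hard_SAT3.red toNae (by unfold toNae nl; fun_prop) fun φ => ⟨?_, ?_⟩
  · rintro ⟨σ, hσ⟩
    let d : Lit × Lit × Lit := ((0, true), (0, true), (0, true))
    let X : ℕ → Bool := fun i => (σ (φ.getD i d).1.1 == (φ.getD i d).1.2) ||
      (σ (φ.getD i d).2.1.1 == (φ.getD i d).2.1.2)
    let F : ℕ → ℕ → Bool := fun i r =>
      if r = 0 then σ i else if r = 1 then !σ i else if r = 2 then !X i else X i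
    let τ : ℕ → Bool := fun v => if v = 0 then false else F ((v - 1) / 4) ((v - 1) % 4)
    have e : ∀ i r, r < 4 → τ (1 + 4 * i + r) = F i r := by
      intro i r h
      have e1 : (1 + 4 * i + r - 1) % 4 = r := by omega
      have e2 : (1 + 4 * i + r - 1) / 4 = i := by omega
      simp only [τ]
      rw [if_neg (by omega), e1, e2]
    have t1 : ∀ l : Lit, τ (nl l) = (σ l.1 == l.2) := by
      rintro ⟨a, b⟩; cases b <;> simp only [nl, cond] <;> rw [e _ _ (by omega)] <;> simp [F]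
    have t2 : ∀ i, τ (1 + 4 * i) = σ i := fun i => e i 0 (by omega)
    have t3 : ∀ i, τ (2 + 4 * i) = !σ i := by
      intro i; rw [show 2 + 4 * i = 1 + 4 * i + 1 by omega, e _ _ (by omega)]; rfl
    have t4 : ∀ i, τ (3 + 4 * i) = !X i := by
      intro i; rw [show 3 + 4 * i = 1 + 4 * i + 2 by omega, e _ _ (by omega)]; rfl
    have t5 : ∀ i, τ (4 + 4 * i) = X i := by
      intro i; rw [show 4 + 4 * i = 1 + 4 * i + 3 by omega, e _ _ (by omega)]; rfl
    have t7 : τ 0 = false := rfl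
    refine ⟨τ, fun c hc => ?_⟩
    simp only [toNae, List.mem_cons, List.mem_flatMap, List.not_mem_nil, or_false] at hc
    obtain ⟨⟨cl, i⟩, hp, h⟩ := hc
    rw [List.mem_zipIdx_iff_getElem?] at hp
    simp only at hp h
    have hg : φ.getD i d = cl := by simp [List.getD_eq_getElem?_getD, hp]
    have hs := hσ cl (List.mem_of_getElem? hp)
    have hs' : (σ cl.1.1 == cl.1.2) = true ∨ (σ cl.2.1.1 == cl.2.1.2) = true ∨
      (σ cl.2.2.1 == cl.2.2.2) = true := by simpa using hs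
    rcases h with rfl | rfl | rfl | rfl | rfl | rfl <;>
      simp only [t1, t2, t3, t4, t5, t7, X, hg] <;> revert hs' <;>
      cases (σ cl.1.1 == cl.1.2) <;> cases (σ cl.2.1.1 == cl.2.1.2) <;>
      cases (σ cl.2.2.1 == cl.2.2.2) <;> simp
  · rintro ⟨τ, hτ⟩
    refine ⟨fun v => τ (1 + 4 * v) != τ 0, fun cl hcl => ?_⟩
    obtain ⟨i, hi, rfl⟩ := List.getElem_of_mem hcl
    have hm : (φ[i], i) ∈ φ.zipIdx := by rw [List.mem_zipIdx_iff_getElem?]; simp [hi]
    have key : ∀ c ∈ [(1 + 4 * φ[i].1.1, 1 + 4 * φ[i].1.1, 2 + 4 * φ[i].1.1),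
        (1 + 4 * φ[i].2.1.1, 1 + 4 * φ[i].2.1.1, 2 + 4 * φ[i].2.1.1),
        (1 + 4 * φ[i].2.2.1, 1 + 4 * φ[i].2.2.1, 2 + 4 * φ[i].2.2.1),
        (3 + 4 * i, 3 + 4 * i, 4 + 4 * i),
        (nl φ[i].1, nl φ[i].2.1, 3 + 4 * i), (4 + 4 * i, nl φ[i].2.2, 0)],
        ¬ (τ c.1 = τ c.2.1 ∧ τ c.2.1 = τ c.2.2) := fun c hc => hτ c (by
      simp only [toNae, List.mem_flatMap]
      exact ⟨_, hm, hc⟩)
    simp only [List.forall_mem_cons, true_and] at key
    obtain ⟨k1, k2, k3, k4, k5, k6, -⟩ := key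
    have f : ∀ l : Lit, ¬ τ (1 + 4 * l.1) = τ (2 + 4 * l.1) →
        ((τ (1 + 4 * l.1) != τ 0) = l.2 ↔ τ (nl l) ≠ τ 0) := by
      rintro ⟨a, b⟩
      cases b <;> simp only [nl, cond, Nat.add_zero, show 1 + 4 * a + 1 = 2 + 4 * a by omega] <;>
        cases τ (1 + 4 * a) <;> cases τ (2 + 4 * a) <;> cases τ 0 <;> simp
    simp only [f _ k1, f _ k2, f _ k3]
    revert k4 k5 k6
    cases τ (nl φ[i].1) <;> cases τ (nl φ[i].2.1) <;> cases τ (nl φ[i].2.2) <;>
      cases τ (3 + 4 * i) <;> cases τ (4 + 4 * i) <;> cases τ 0 <;> simp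

theorem sg_eq (t : ℝ) : sg t = exp t / (1 + exp t) := by
  have := exp_pos t
  rw [sg, exp_neg]; field_simp; ring

theorem sg_pos (t : ℝ) : 0 < sg t := by rw [sg]; positivity

theorem sg_lt (t : ℝ) : sg t < 1 := by
  rw [sg_eq, div_lt_one (by positivity)]; linarith

theorem sg_neg (t : ℝ) : sg (-t) = 1 - sg t := by
  have := exp_pos t
  rw [sg_eq t, sg, neg_neg]; field_simp; ring

def L (E : List (List ℕ × Bool)) (A C : ℕ → ℝ) (b1 b2 c0 c1 c2 : ℝ) : Prop :=
  ∀ e ∈ E, (0 ≤ c0 + c1 * sg ((e.1.map A).sum + b1) + c2 * sg ((e.1.map C).sum + b2) ↔ e.2 = true)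

theorem L.swap {E : List (List ℕ × Bool)} {A C : ℕ → ℝ} {b1 b2 c0 c1 c2 : ℝ}
    (h : L E A C b1 b2 c0 c1 c2) : L E C A b2 b1 c0 c2 c1 := fun e he => by
  rw [← h e he, add_right_comm]

theorem L.flip {E : List (List ℕ × Bool)} {A C : ℕ → ℝ} {b1 b2 c0 c1 c2 : ℝ}
    (h : L E A C b1 b2 c0 c1 c2) :
    ∃ A' b1' c0' c1', 0 ≤ c1' ∧ L E A' C b1' b2 c0' c1' c2 := by
  rcases le_total 0 c1 with h1 | h1
  · exact ⟨A, b1, c0, c1, h1, h⟩
  refine ⟨fun j => -A j, -b1, c0 + c1, -c1, by linarith, fun e he => ?_⟩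
  have : ∀ l : List ℕ, (l.map fun j => -A j).sum = -(l.map A).sum := by
    intro l; induction l with
    | nil => simp
    | cons a l ih => simp only [List.map_cons, List.sum_cons, ih]; ring
  rw [← h e he, this, ← neg_add, sg_neg]
  exact iff_of_eq (by congr 1; ring)

theorem sound0 {φ : List (ℕ × ℕ × ℕ)} {A C : ℕ → ℝ} {b1 b2 c0 c1 c2 : ℝ}
    (h : L (ex φ) A C b1 b2 c0 c1 c2) (h1 : 0 ≤ c1) (h2 : c1 ≤ c2) : NAE3 φ := by
  have n := h ([2], false) (mem_ex.2 (Or.inl rfl))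
  have p := (h ([], true) (mem_ex.2 (Or.inr (Or.inr (Or.inr (Or.inr (Or.inl (Or.inl
    (mem_exB.2 (Or.inl rfl)))))))))).2 rfl
  simp only [Bool.false_eq_true, iff_false, not_le] at n
  have hδ : 0 < -c0 := by
    nlinarith [mul_nonneg h1 (sg_pos (([2].map A).sum + b1)).le,
      mul_nonneg (h1.trans h2) (sg_pos (([2].map C).sum + b2)).le]
  have hα : 0 < c1 + c2 + c0 := by
    have a := mul_nonneg h1 (sub_pos.2 (sg_lt (([].map A).sum + b1))).le
    rcases (h1.trans h2).eq_or_lt with h3 | h3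
    · have : c1 = 0 := by linarith
      subst this; subst h3; simp at p; linarith
    · nlinarith [mul_pos h3 (sub_pos.2 (sg_lt (([].map C).sum + b2)))]
  refine core (β := c2 + c0) (γ := -c0 - c1) (b1 := b1) (b2 := b2) hα hδ
    (by nlinarith [mul_nonneg h1 (h1.trans h2)]) ?_ A C φ fun e he => ?_
  · rcases le_or_gt 0 (c2 + c0) with h3 | h3
    · exact Or.inl h3
    · exact Or.inr (by linarith)
  rw [← h e he, Ps, sg_eq, sg_eq]
  set U := exp ((e.1.map A).sum + b1)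
  set V := exp ((e.1.map C).sum + b2)
  have hU : 0 < U := exp_pos _
  have hV : 0 < V := exp_pos _
  have : c0 + c1 * (U / (1 + U)) + c2 * (V / (1 + V)) =
      (V * ((c1 + c2 + c0) * U + (c2 + c0)) - ((-c0 - c1) * U + -c0)) / ((1 + U) * (1 + V)) := by
    field_simp; ring
  rw [this, le_div_iff₀ (by positivity), zero_mul, sub_nonneg]

theorem sound {φ : List (ℕ × ℕ × ℕ)} {A C : ℕ → ℝ} {b1 b2 c0 c1 c2 : ℝ}
    (h : L (ex φ) A C b1 b2 c0 c1 c2) : NAE3 φ := by
  obtain ⟨A, b1, c0, c1, h1, h⟩ := h.flip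
  obtain ⟨C, b2, c0, c2, h2, h⟩ := h.swap.flip
  rcases le_total c1 c2 with h3 | h3
  · exact sound0 h.swap h1 h3
  · exact sound0 h h2 h3

theorem out_pos {u v : ℝ} (hu : 2 ≤ u) (hv : 2 ≤ v) :
    (0 ≤ -3 / 2 + 1 * sg u + 1 * sg v ↔ true = true) := by
  have : ∀ t : ℝ, 2 ≤ t → 3 / 4 ≤ sg t := by
    intro t ht
    have := add_one_le_exp t
    rw [sg_eq, le_div_iff₀ (by positivity)]; linarith
  simp only [iff_true]
  linarith [this u hu, this v hv]

theorem out_neg {u v : ℝ} (h : u ≤ 0 ∨ v ≤ 0) :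
    (0 ≤ -3 / 2 + 1 * sg u + 1 * sg v ↔ false = true) := by
  have : ∀ t : ℝ, t ≤ 0 → sg t ≤ 1 / 2 := by
    intro t ht
    have := exp_le_one_iff.2 ht
    rw [sg_eq, div_le_iff₀ (by positivity)]; linarith
  simp only [Bool.false_eq_true, iff_false, not_le]
  rcases h with h | h
  · linarith [this u h, sg_lt v]
  · linarith [this v h, sg_lt u]

theorem complete {φ : List (ℕ × ℕ × ℕ)} (h : NAE3 φ) :
    ∃ A C : ℕ → ℝ, L (ex φ) A C 2 2 (-3 / 2) 1 1 := by
  obtain ⟨σ, hσ⟩ := h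
  let A : ℕ → ℝ := fun j => if j < 2 then -4 else if j = 2 then 4 else
    if σ ((j - 3) / 55) then -4 else 8
  let C : ℕ → ℝ := fun j => if j < 2 then 4 else if j = 2 then -4 else
    if σ ((j - 3) / 55) then 8 else -4
  have a0 : A 0 = -4 ∧ A 1 = -4 ∧ A 2 = 4 ∧ C 0 = 4 ∧ C 1 = 4 ∧ C 2 = -4 := by simp [A, C]
  have a1 : ∀ i a, a < 55 → A (cp i a) = (if σ i then -4 else 8) ∧
      C (cp i a) = (if σ i then 8 else -4) := by
    intro i a ha
    have e : (cp i a - 3) / 55 = i := by unfold cp; omega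
    have e1 : ¬ cp i a < 2 := by unfold cp; omega
    have e2 : ¬ cp i a = 2 := by unfold cp; omega
    simp only [A, C, e, if_neg e1, if_neg e2, and_self]
  clear_value A C
  have hB : ∀ B : List ℕ, (B.map A).sum = 0 → (B.map C).sum = 0 →
      L (exB φ B) A C 2 2 (-3 / 2) 1 1 := by
    intro B b1 b2 e he
    rcases mem_exB.1 he with rfl | ⟨c, hc, ⟨i, -, ⟨a, ha, rfl⟩ | ⟨⟨x, y, z⟩, hp, rfl⟩⟩ |
      ⟨⟨x, y, z⟩, hp, rfl⟩⟩
    · exact out_pos (by simp [b1]) (by simp [b2])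
    · refine out_neg ?_
      simp only [List.map_cons, List.sum_cons, b1, b2, a1 i a ha]
      cases σ i <;> norm_num
    · obtain ⟨p1, p2, p3, -⟩ := (mem_trip _ _ _).1 hp
      refine out_neg ?_
      simp only [List.map_cons, List.sum_cons, b1, b2, a1 i _ p1, a1 i _ p2, a1 i _ p3]
      cases σ i <;> norm_num
    · obtain ⟨p1, p2, p3, -⟩ := (mem_trip _ _ _).1 hp
      have := hσ c hc
      refine out_pos ?_ ?_ <;>
        simp only [List.map_cons, List.sum_cons, b1, b2, a1 _ _ p1, a1 _ _ p2, a1 _ _ p3] <;>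
        revert this <;> cases σ c.1 <;> cases σ c.2.1 <;> cases σ c.2.2 <;> norm_num
  refine ⟨A, C, fun e he => ?_⟩
  rcases mem_ex.1 he with rfl | rfl | rfl | rfl | (he | he) | he
  · exact out_neg (by simp [a0]; norm_num)
  · exact out_neg (by simp [a0]; norm_num)
  · exact out_neg (by simp [a0]; norm_num)
  · exact out_neg (by simp [a0]; norm_num)
  · exact hB [] rfl rfl e he
  · exact hB [0, 2] (by simp [a0]) (by simp [a0]) e he
  · exact hB [1, 2] (by simp [a0]) (by simp [a0]) e he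

def nv (φ : List (ℕ × ℕ × ℕ)) : ℕ := (φ.map fun c => c.1 + c.2.1 + c.2.2).sum + 1

theorem ex_ok {φ : List (ℕ × ℕ × ℕ)} : ∀ e ∈ ex φ, e.1.Nodup ∧ ∀ j ∈ e.1, j < 3 + 55 * nv φ := by
  have hB : ∀ B : List ℕ, B.Nodup → (∀ j ∈ B, j < 3) →
      ∀ e ∈ exB φ B, e.1.Nodup ∧ ∀ j ∈ e.1, j < 3 + 55 * nv φ := by
    intro B b1 b2 e he
    have b3 : ∀ i a, cp i a ∉ B := fun i a h => by have := b2 _ h; unfold cp at this; omega
    have b4 : ∀ j ∈ B, j < 3 + 55 * nv φ := fun j hj => by have := b2 j hj; omega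
    have hv : ∀ c ∈ φ, c.1 + c.2.1 + c.2.2 < nv φ := fun c hc =>
      Nat.lt_succ_of_le (List.single_le_sum (by simp) _ (List.mem_map_of_mem hc))
    rcases mem_exB.1 he with rfl | ⟨c, hc, ⟨i, hi, ⟨a, ha, rfl⟩ | ⟨⟨x, y, z⟩, hp, rfl⟩⟩ |
      ⟨⟨x, y, z⟩, hp, rfl⟩⟩
    · exact ⟨b1, b4⟩
    · have := hv c hc
      simp only [List.mem_cons, List.not_mem_nil, or_false] at hi
      simp only [List.nodup_cons, b3, b1, List.forall_mem_cons, not_false_eq_true, true_and]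
      exact ⟨by unfold cp; omega, b4⟩
    · have := hv c hc
      obtain ⟨p1, p2, p3, p4, p5, p6⟩ := (mem_trip _ _ _).1 hp
      simp only [List.mem_cons, List.not_mem_nil, or_false] at hi
      simp only [List.nodup_cons, b3, b1, not_false_eq_true, true_and,
        List.mem_cons, or_false, and_true, forall_eq_or_imp]
      unfold cp
      exact ⟨by omega, by omega, by omega, by omega, b4⟩
    · have := hv c hc
      obtain ⟨p1, p2, p3, p4, p5, p6⟩ := (mem_trip _ _ _).1 hp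
      simp only [List.nodup_cons, b3, b1, not_false_eq_true, true_and,
        List.mem_cons, or_false, and_true, forall_eq_or_imp]
      unfold cp
      exact ⟨by omega, by omega, by omega, by omega, b4⟩
  intro e he
  rcases mem_ex.1 he with rfl | rfl | rfl | rfl | (he | he) | he
  · simp; omega
  · simp; omega
  · simp
  · simp; omega
  · exact hB [] (by simp) (by simp) e he
  · exact hB [0, 2] (by simp) (by simp) e he
  · exact hB [1, 2] (by simp) (by simp) e he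

def vec (k : ℕ) (S : List ℕ) : List Bool := (List.range k).map fun j => decide (j ∈ S)

theorem dot_vec (k : ℕ) (A : ℕ → ℝ) (S : List ℕ) (h1 : S.Nodup) (h2 : ∀ j ∈ S, j < k) :
    dot k (fun i => A i) (vec k S) = (S.map A).sum := by
  have : ∀ i : Fin k, (vec k S).getD i false = decide ((i : ℕ) ∈ S) := by
    intro i; simp [vec, List.getD_eq_getElem?_getD]
  simp only [dot, this, decide_eq_true_eq, mul_ite, mul_one, mul_zero]
  rw [Fin.sum_univ_eq_sum_range (fun j => if j ∈ S then A j else 0) k, ← sum_filter,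
    ← List.sum_toFinset A h1]
  congr 1
  ext j
  simpa using h2 j

def kk (φ : List (ℕ × ℕ × ℕ)) : ℕ := 3 + 55 * nv φ + (ex φ).length

def red (φ : List (ℕ × ℕ × ℕ)) : ℕ × List (List Bool × Bool) :=
  (kk φ, (ex φ).map fun e => (vec (kk φ) e.1, e.2))

theorem ex_pt : PT ex := by
  have h : ∀ B, PT fun φ => exB φ B := by intro B; unfold exB cp; fun_prop
  unfold ex
  have := h []
  have := h [0, 2]
  have := h [1, 2]
  fun_prop

theorem red_pt : PT red := by
  have := ex_pt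
  have h : PT kk := by unfold kk nv; fun_prop
  unfold red vec
  fun_prop

theorem hard_load : HardFor InNP (fun y : ℕ × List (List Bool × Bool) => y.2.length ≤ y.1)
    Loadable := by
  refine hard_NAE3.hardFor.red red red_pt fun φ _ => ⟨by simp [red, kk], ?_, ?_⟩
  · intro h
    obtain ⟨A, C, h⟩ := complete h
    refine ⟨by simp only [red, List.forall_mem_map]; simp [vec], fun i => A i, fun i => C i, 2, 2, -3 / 2, 1, 1, ?_⟩
    simp only [red, List.forall_mem_map]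
    intro e he
    have hk : ∀ j ∈ e.1, j < kk φ := fun j hj => ((ex_ok e he).2 j hj).trans_le (Nat.le_add_right _ _)
    rw [dot_vec _ A _ (ex_ok e he).1 hk, dot_vec _ C _ (ex_ok e he).1 hk]
    exact h e he
  · rintro ⟨-, a1, a2, b1, b2, c0, c1, c2, h⟩
    simp only [red, List.forall_mem_map] at a1 a2 h
    refine sound (A := fun j => if h : j < kk φ then a1 ⟨j, h⟩ else 0)
      (C := fun j => if h : j < kk φ then a2 ⟨j, h⟩ else 0) (b1 := b1) (b2 := b2) (c0 := c0)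
      (c1 := c1) (c2 := c2) fun e he => ?_
    have hk : ∀ j ∈ e.1, j < kk φ := fun j hj => ((ex_ok e he).2 j hj).trans_le (Nat.le_add_right _ _)
    rw [← dot_vec _ _ _ (ex_ok e he).1 hk, ← dot_vec _ _ _ (ex_ok e he).1 hk]
    simpa using h e he

end Pool.Agent.H4.Sig
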