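import Pool.Agent.H4.Cs2
import Pool.Agent.H4.Sig3

set_option autoImplicit false

namespace Pool.Agent.H4.Cs

open Pool.Agent.H11.PT Pool.Agent.H4.Sig

abbrev F := List (ℕ × ℕ × ℕ)

def cd (k x t : ℕ) : ℕ := Nat.pair k (Nat.pair x t)

@[simp] theorem cd_inj {k x t k' x' t' : ℕ} : cd k x t = cd k' x' t' ↔ k = k' ∧ x = x' ∧ t = t' := by
  simp [cd]

def oc (φ : F) (t : ℕ) : ℕ := if t % 3 = 0 then (φ.getD (t / 3) (0, 0, 0)).1 else
  if t % 3 = 1 then (φ.getD (t / 3) (0, 0, 0)).2.1 else (φ.getD (t / 3) (0, 0, 0)).2.2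
def sc (t : ℕ) : ℕ := 3 * (t / 3) + (t + 1) % 3
def pd (t : ℕ) : ℕ := 3 * (t / 3) + (t + 2) % 3
def nx (φ : F) (t : ℕ) : ℕ := if t + 1 = 3 * φ.length then 0 else t + 1
def pv (φ : F) (t : ℕ) : ℕ := if t = 0 then 3 * φ.length - 1 else t - 1

def pref (φ : F) (k x t : ℕ) : List ℕ :=
  if k = 0 then (if x = 0 then [cd 0 0 (sc t), cd 1 0 t, cd 0 0 (pd t)] else [])
  else if k = 1 then
    (if x = 0 then [cd 2 (oc φ (pd t)) (nx φ (pd t)), cd 0 0 t, cd 3 (oc φ t) t] else [])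
  else if k = 2 then [cd 3 x t, if oc φ (pv φ t) = x then cd 1 0 (sc (pv φ t)) else cd 3 x (pv φ t)]
  else [if oc φ t = x then cd 1 0 t else cd 2 x (nx φ t), cd 2 x t]

def red (φ : F) : List (List ℕ) :=
  (List.range (((nv φ + 3 * φ.length) ^ 2 + 4) ^ 2)).map fun c =>
    ((List.range 4 ×ˢ List.range (nv φ) ×ˢ List.range (3 * φ.length)).find? fun v =>
      decide (cd v.1 v.2.1 v.2.2 = c)).toList.flatMap fun v => pref φ v.1 v.2.1 v.2.2

theorem pt_red : PT red := by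
  have h0 : PT nv := by unfold nv; fun_prop
  have h1 : PT fun p : F × ℕ × ℕ × ℕ => pref p.1 p.2.1 p.2.2.1 p.2.2.2 := by
    unfold pref cd oc sc pd nx pv; fun_prop
  refine PT.map (by fun_prop) (PT.flatMap (PT.toList (PT.find? (by fun_prop)
    (by unfold cd; fun_prop))) ?_)
  exact h1.comp (g := fun p : (F × ℕ) × ℕ × ℕ × ℕ => (p.1.1, p.2)) (by fun_prop)

theorem oc_lt (φ : F) (t : ℕ) : oc φ t < nv φ := by
  have : (φ.getD (t / 3) (0, 0, 0)).1 + (φ.getD (t / 3) (0, 0, 0)).2.1 +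
      (φ.getD (t / 3) (0, 0, 0)).2.2 < nv φ := by
    rcases lt_or_ge (t / 3) φ.length with h | h
    · rw [List.getD_eq_getElem _ _ h]
      exact Nat.lt_succ_of_le (List.single_le_sum (by simp) _
        (List.mem_map_of_mem (f := fun c : ℕ × ℕ × ℕ => c.1 + c.2.1 + c.2.2) (List.getElem_mem h)))
    · rw [List.getD_eq_default _ _ h]; simp [nv]
  unfold oc; split_ifs <;> omega

attribute [local irreducible] nv

theorem P_cd {φ : F} {k x t : ℕ} (hk : k < 4) (hx : x < nv φ) (ht : t < 3 * φ.length) :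
    P (red φ) (cd k x t) = pref φ k x t := by
  have p1 : Nat.pair x t < (nv φ + 3 * φ.length) ^ 2 := (Nat.pair_lt_max_add_one_sq _ _).trans_le
    (Nat.pow_le_pow_left (by omega) _)
  have p2 : cd k x t < ((nv φ + 3 * φ.length) ^ 2 + 4) ^ 2 :=
    (Nat.pair_lt_max_add_one_sq _ _).trans_le (Nat.pow_le_pow_left (by omega) _)
  rw [P, red, List.getD_eq_getElem _ _ (by simpa using p2), List.getElem_map, List.getElem_range]
  rcases h : List.find? _ _ with _ | ⟨a, b, c⟩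
  · simpa [hk, hx, ht] using List.find?_eq_none.1 h (k, x, t)
  · obtain ⟨rfl, rfl, rfl⟩ : a = k ∧ b = x ∧ c = t := by simpa using List.find?_some h
    simp

theorem P_ex {φ : F} {a b : ℕ} (h : b ∈ P (red φ) a) :
    ∃ k < 4, ∃ x < nv φ, ∃ t < 3 * φ.length, a = cd k x t := by
  rw [P, List.getD_eq_getElem _ _ (lt_of_mem h)] at h
  simp only [red, List.getElem_map, List.getElem_range, List.mem_flatMap, Option.mem_toList] at h
  obtain ⟨⟨k, x, t⟩, h, -⟩ := h
  have := List.mem_of_find?_eq_some h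
  simp only [List.mem_product, List.mem_range] at this
  exact ⟨k, this.1, x, this.2.1, t, this.2.2, by simpa [eq_comm] using List.find?_some h⟩

theorem ar {φ : F} {t : ℕ} (ht : t < 3 * φ.length) :
    sc t < 3 * φ.length ∧ pd t < 3 * φ.length ∧ sc (pd t) = t ∧ pd (sc t) = t ∧ sc t ≠ t ∧
      pd t ≠ t ∧ sc t ≠ pd t ∧ nx φ t < 3 * φ.length ∧ pv φ t < 3 * φ.length ∧ nx φ (pv φ t) = t ∧
        pv φ (nx φ t) = t ∧ nx φ t ≠ t ∧ pv φ t ≠ t ∧ sc (sc t) = pd t ∧ pd (pd t) = sc t := by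
  unfold sc pd nx pv
  refine ⟨by omega, by omega, by omega, by omega, by omega, by omega, by omega, ?_, ?_, ?_, ?_, ?_, ?_,
    by omega, by omega⟩ <;> split_ifs <;> first | omega | contradiction

theorem Pa {φ : F} {t : ℕ} (ht : t < 3 * φ.length) :
    P (red φ) (cd 0 0 t) = [cd 0 0 (sc t), cd 1 0 t, cd 0 0 (pd t)] :=
  P_cd (by omega) (Nat.zero_lt_of_lt (oc_lt φ 0)) ht
theorem Pb {φ : F} {t : ℕ} (ht : t < 3 * φ.length) :
    P (red φ) (cd 1 0 t) = [cd 2 (oc φ (pd t)) (nx φ (pd t)), cd 0 0 t, cd 3 (oc φ t) t] :=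
  P_cd (by omega) (Nat.zero_lt_of_lt (oc_lt φ 0)) ht
theorem Pp {φ : F} {x t : ℕ} (hx : x < nv φ) (ht : t < 3 * φ.length) : P (red φ) (cd 2 x t) =
    [cd 3 x t, if oc φ (pv φ t) = x then cd 1 0 (sc (pv φ t)) else cd 3 x (pv φ t)] :=
  P_cd (by omega) hx ht
theorem Pq {φ : F} {x t : ℕ} (hx : x < nv φ) (ht : t < 3 * φ.length) : P (red φ) (cd 3 x t) =
    [if oc φ t = x then cd 1 0 t else cd 2 x (nx φ t), cd 2 x t] := P_cd (by omega) hx ht

theorem P_cases {φ : F} {a b : ℕ} (h : b ∈ P (red φ) a) : ∃ x < nv φ, ∃ t < 3 * φ.length,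
    a = cd 0 0 t ∨ a = cd 1 0 t ∨ a = cd 2 x t ∨ a = cd 3 x t := by
  obtain ⟨k, hk, x, hx, t, ht, rfl⟩ := P_ex h
  rw [P_cd hk hx ht, pref] at h
  refine ⟨x, hx, t, ht, ?_⟩
  simp only [cd_inj, and_true]
  split_ifs at h <;> first | omega | simp at h

theorem valid (φ : F) : Valid 3 (red φ) := by
  intro a _
  by_cases e : P (red φ) a = []
  · simp [e]
  obtain ⟨b, hb⟩ := List.exists_mem_of_ne_nil _ e
  suffices (P (red φ) a).Nodup ∧ a ∉ P (red φ) a ∧ (P (red φ) a).length ≤ 3 ∧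
      ∀ b ∈ P (red φ) a, a ∈ P (red φ) b from
    ⟨this.1, this.2.1, this.2.2.1, fun b hb => ⟨lt_of_mem (this.2.2.2 b hb), this.2.2.2 b hb⟩⟩
  obtain ⟨x, hx, t, ht, h⟩ := P_cases hb
  obtain ⟨a1, a2, a3, a4, a5, a6, a7, a8, a9, b1, b2, b3, b4, -⟩ := ar ht
  rcases h with rfl | rfl | rfl | rfl
  · simp [Pa, Pb, ht, a1, a2, a3, a4, a5.symm, a6.symm, a7]
  · have := ar a2
    simp [Pa, Pb, Pp, Pq, ht, oc_lt, this, a3]
  · have := ar a9
    rw [Pp hx ht]
    split_ifs with h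
    · simp [Pb, Pq, ht, hx, this, h, b1]
    · simp [Pq, ht, hx, a9, h, b1, b4.symm]
  · rw [Pq hx ht]
    split_ifs with h
    · simp [Pb, Pp, ht, hx, h]
    · simp [Pp, ht, hx, a8, h, b2, b3]

theorem one_iff {φ : F} (σ : ℕ → Bool) :
    (∀ c ∈ φ, (σ c.1).toNat + (σ c.2.1).toNat + (σ c.2.2).toNat = 1) ↔ ∀ t < 3 * φ.length,
      (σ (oc φ t)).toNat + (σ (oc φ (sc t))).toNat + (σ (oc φ (pd t))).toNat = 1 := by
  constructor
  · intro h t ht
    have hj : t / 3 < φ.length := by omega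
    have := h _ (List.getElem_mem hj)
    have e1 : sc t / 3 = t / 3 ∧ sc t % 3 = (t + 1) % 3 := by unfold sc; omega
    have e2 : pd t / 3 = t / 3 ∧ pd t % 3 = (t + 2) % 3 := by unfold pd; omega
    simp only [oc, e1, e2, List.getD_eq_getElem _ _ hj]
    split_ifs <;> omega
  · intro h c hc
    obtain ⟨j, hj, rfl⟩ := List.getElem_of_mem hc
    have e1 : sc (3 * j) / 3 = j ∧ sc (3 * j) % 3 = 1 := by unfold sc; omega
    have e2 : pd (3 * j) / 3 = j ∧ pd (3 * j) % 3 = 2 := by unfold pd; omega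
    simpa [oc, e1, e2, hj] using h (3 * j) (by omega)

theorem sound {φ : F} (h : CS3 (red φ)) : ONE3 φ := by
  classical
  obtain ⟨M, hM, hb⟩ := h
  have wtop : ∀ {u v r}, P (red φ) u = v :: r → M u ≠ some v → Wants (red φ) M u v := by
    intro u v r h1 h2
    refine ⟨by simp [h1], fun c hc => ?_⟩
    have : v ≠ c := fun e => h2 (e ▸ hc)
    simp [h1, this]
  have wmid : ∀ {u x y z}, P (red φ) u = [x, y, z] → x ≠ z → y ≠ z → M u = some z →
      Wants (red φ) M u y := by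
    intro u x y z h1 h2 h3 h4
    refine ⟨by simp [h1], fun c hc => ?_⟩
    obtain rfl : z = c := by simpa [h4] using hc
    by_cases e : x = y <;> simp [h1, h2, h3, e]
  have push : ∀ {u v x r}, P (red φ) v = x :: u :: r → u ≠ v → Wants (red φ) M u v →
      M v = some x := by
    intro u v x r h1 h2 w
    by_contra hc
    refine hb [u, v] (by simp) (blk2.2 ⟨h2, w, by simp [h1], fun c e => ?_⟩)
    have g1 : x ≠ c := fun g => hc (g ▸ e)
    have g2 : u ≠ c := fun g => (w.2 _ (hM _ _ (g ▸ e)).2).false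
    by_cases e : x = u <;> simp [h1, g1, g2, e]
  have half : ∀ t < 3 * φ.length, M (cd 0 0 t) = some (cd 0 0 (sc t)) →
      M (cd 2 (oc φ t) (nx φ t)) ≠ some (cd 3 (oc φ t) (nx φ t)) := by
    intro t ht h
    obtain ⟨a1, a2, a3, a4, a5, a6, a7, -, -, -, -, -, -, b5, -⟩ := ar ht
    have := push (Pb a1) (by simp) (wmid (Pa a1) (by simp [a4, b5, a6]) (by simp)
      (by rw [a4]; exact (hM _ _ h).2))
    rw [a4] at this
    simp [(hM _ _ this).2]
  have step : ∀ x < nv φ, ∀ t < 3 * φ.length, M (cd 2 x t) ≠ some (cd 3 x t) →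
      (oc φ t = x → M (cd 0 0 t) = some (cd 0 0 (sc t))) ∧
        M (cd 2 x (nx φ t)) ≠ some (cd 3 x (nx φ t)) := by
    intro x hx t ht h
    have := push (Pq hx ht) (by simp) (wtop (Pp hx ht) h)
    split_ifs at this with e
    · subst e
      have := push (Pa ht) (by simp) (wmid (Pb ht) (by simp) (by simp) (hM _ _ this).2)
      exact ⟨fun _ => this, half t ht this⟩
    · exact ⟨fun g => (e g).elim, by simp [(hM _ _ this).2, (ar ht).2.2.2.2.2.2.2.2.2.2.2.1.symm]⟩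
  have fw : ∀ x < nv φ, ∀ d t, t + d < 3 * φ.length → M (cd 2 x t) ≠ some (cd 3 x t) →
      M (cd 2 x (t + d)) ≠ some (cd 3 x (t + d)) := by
    intro x hx d
    induction d with
    | zero => exact fun _ _ h => h
    | succ d ih =>
      intro t ht h
      have := (step x hx _ (by omega) (ih t (by omega) h)).2
      rwa [nx, if_neg (by omega)] at this
  have key : ∀ t < 3 * φ.length, M (cd 2 (oc φ t) 0) ≠ some (cd 3 (oc φ t) 0) ↔
      M (cd 0 0 t) = some (cd 0 0 (sc t)) := by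
    intro t ht
    have hx := oc_lt φ t
    refine ⟨fun h => (step _ hx t ht (by simpa using fw _ hx t 0 (by omega) h)).1 rfl, fun h => ?_⟩
    have a := (ar ht).2.2.2.2.2.2.2.1
    have := (step _ hx _ (by omega)
      (fw _ hx (3 * φ.length - 1 - nx φ t) _ (by omega) (half t ht h))).2
    rwa [nx, if_pos (by omega)] at this
  refine ⟨fun x => decide (M (cd 2 x 0) ≠ some (cd 3 x 0)), (one_iff fun x => decide (M (cd 2 x 0) ≠ some (cd 3 x 0))).2 fun t ht => ?_⟩
  obtain ⟨a1, a2, a3, a4, a5, a6, a7, -, -, -, -, -, -, b5, -⟩ := ar ht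
  simp only [key t ht, key _ a1, key _ a2, a3, b5]
  have := fun h1 h2 h3 => hb [cd 0 0 t, cd 0 0 (sc t), cd 0 0 (pd t)] (by simp) (blk3.2
    ⟨by simp [a5.symm, a6.symm, a7], wtop (Pa ht) h1, wtop (b5 ▸ Pa a1) h2, wtop (a3 ▸ Pa a2) h3⟩)
  have m1 := fun h => (hM (cd 0 0 t) (cd 0 0 (sc t)) h).2
  have m2 := fun h => (hM (cd 0 0 (sc t)) (cd 0 0 (pd t)) h).2
  have m3 := fun h => (hM (cd 0 0 (pd t)) (cd 0 0 t) h).2
  by_cases e1 : M (cd 0 0 t) = some (cd 0 0 (sc t)) <;>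
    by_cases e2 : M (cd 0 0 (sc t)) = some (cd 0 0 (pd t)) <;>
      by_cases e3 : M (cd 0 0 (pd t)) = some (cd 0 0 t) <;>
        simp [e1, e2, e3, a5, a6, a7, a5.symm, a6.symm, a7.symm] at this m1 m2 m3 ⊢

theorem complete {φ : F} (h : ONE3 φ) : CS (red φ) := by
  obtain ⟨σ, hσ⟩ := h
  rw [one_iff] at hσ
  let m : ℕ → ℕ → ℕ → ℕ := fun k x t =>
    if k = 0 then (if σ (oc φ t) then 0 else if σ (oc φ (pd t)) then 2 else 1)
    else if k = 1 then (if σ (oc φ (pd t)) then 0 else if σ (oc φ t) then 2 else 1)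
    else if k = 2 then (if σ x then 1 else 0) else (if σ x then 0 else 1)
  let r : ℕ → ℕ → ℕ → ℕ := fun k x t =>
    if k = 1 then min (m k x t) 1 else if k = 3 then 2 * m k x t else m k x t
  let M : ℕ → Option ℕ := fun c =>
    (P (red φ) c)[m c.unpair.1 c.unpair.2.unpair.1 c.unpair.2.unpair.2]?
  have hM : ∀ k x t, M (cd k x t) = (P (red φ) (cd k x t))[m k x t]? := by
    intro k x t; simp [M, cd]
  let R : ℕ → ℕ := fun c => r c.unpair.1 c.unpair.2.unpair.1 c.unpair.2.unpair.2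
  have hR : ∀ k x t, R (cd k x t) = r k x t := by intro k x t; simp [R, cd]
  suffices ∀ a b, b ∈ P (red φ) a → (M a = some b → M b = some a) ∧
      ((∀ c, M a = some c → (P (red φ) a).idxOf b < (P (red φ) a).idxOf c) → R b < R a) from
    ⟨M, fun a b e => ⟨List.mem_of_getElem? e, (this a b (List.mem_of_getElem? e)).1 e⟩,
      of_rank R fun a b w => (this a b w.1).2 w.2⟩
  intro a b hb
  obtain ⟨x, hx, t, ht, h⟩ := P_cases hb
  obtain ⟨a1, a2, a3, a4, a5, a6, a7, a8, a9, b1, b2, b3, b4, b5, b6⟩ := ar ht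
  have s0 := hσ t ht
  clear_value M R
  rcases h with rfl | rfl | rfl | rfl
  · rw [Pa ht] at hb
    simp only [List.mem_cons, List.not_mem_nil, or_false] at hb
    rcases hb with rfl | rfl | rfl <;> simp only [hM, hR, Pa, Pb, ht, a1, a2, r, m, a3, a4, b5, b6] <;>
      cases e0 : σ (oc φ t) <;> cases e1 : σ (oc φ (sc t)) <;> cases e2 : σ (oc φ (pd t)) <;>
        simp_all [a7.symm]
  · have := ar a2
    rw [Pb ht] at hb
    simp only [List.mem_cons, List.not_mem_nil, or_false] at hb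
    rcases hb with rfl | rfl | rfl <;>
      simp only [hM, hR, Pa, Pb, Pp, Pq, ht, oc_lt, this, r, m, a3] <;>
      cases e0 : σ (oc φ t) <;> cases e1 : σ (oc φ (sc t)) <;> cases e2 : σ (oc φ (pd t)) <;>
        simp_all
  · have := ar a9
    have s1 := hσ _ a9
    rw [Pp hx ht] at hb
    simp only [List.mem_cons, List.not_mem_nil, or_false] at hb
    by_cases e : oc φ (pv φ t) = x <;> rcases hb with rfl | rfl <;>
      simp only [e, if_true, if_false, hM, hR, Pb, Pp, Pq, ht, hx, a9, this, r, m, b1] <;>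
      cases e0 : σ x <;> simp_all [b4.symm]
  · rw [Pq hx ht] at hb
    simp only [List.mem_cons, List.not_mem_nil, or_false] at hb
    by_cases e : oc φ t = x <;> rcases hb with rfl | rfl <;>
      simp only [e, if_true, if_false, hM, hR, Pb, Pp, Pq, ht, hx, a8, r, m, b2] <;>
      cases e0 : σ x <;> cases e2 : σ (oc φ (pd t)) <;> simp [e, e0, e2, b3, b3.symm] at s0 ⊢

theorem hard {L : ℕ} (hL : 3 ≤ L) :
    NPHard (fun I => Valid L I ∧ CS I) ∧ NPHard fun I => Valid L I ∧ CS3 I :=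
  ⟨(hard_ONE3.red red pt_red fun φ _ =>
      ⟨(valid φ).mono hL, complete, fun h => sound h.cs3⟩).npHard,
    (hard_ONE3.red red pt_red fun φ _ =>
      ⟨(valid φ).mono hL, fun h => (complete h).cs3, sound⟩).npHard⟩

end Pool.Agent.H4.Cs
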