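import Pool.Agent.H11.PTDefs

set_option autoImplicit false

namespace Pool.Agent.H4.Cs

/-- preference list of agent `a`; the agents are `0, …, I.length - 1` -/
def P (I : List (List ℕ)) (a : ℕ) : List ℕ := I.getD a []

/-- strict lists of other agents, mutual acceptability, all lists of length at most `L` -/
def Valid (L : ℕ) (I : List (List ℕ)) : Prop :=
  ∀ a < I.length, (P I a).Nodup ∧ a ∉ P I a ∧ (P I a).length ≤ L ∧
    ∀ b ∈ P I a, b < I.length ∧ a ∈ P I b

/-- `M a` is the partner of `a`, if any -/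
def IsM (I : List (List ℕ)) (M : ℕ → Option ℕ) : Prop :=
  ∀ a b, M a = some b → b ∈ P I a ∧ M b = some a

/-- `a` is unassigned and finds `b` acceptable, or prefers `b` to its partner -/
def Wants (I : List (List ℕ)) (M : ℕ → Option ℕ) (a b : ℕ) : Prop :=
  b ∈ P I a ∧ ∀ c, M a = some c → (P I a).idxOf b < (P I a).idxOf c

/-- blocking cycle -/
def Blk (I : List (List ℕ)) (M : ℕ → Option ℕ) (c : List ℕ) : Prop :=
  c.Nodup ∧ 2 ≤ c.length ∧
    ∀ i < c.length, Wants I M (c.getD i 0) (c.getD ((i + 1) % c.length) 0)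

/-- there is a cycle stable matching -/
def CS (I : List (List ℕ)) : Prop := ∃ M, IsM I M ∧ ∀ c, ¬ Blk I M c

/-- there is a 3-cycle stable matching -/
def CS3 (I : List (List ℕ)) : Prop := ∃ M, IsM I M ∧ ∀ c : List ℕ, c.length ≤ 3 → ¬ Blk I M c

end Pool.Agent.H4.Cs
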