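import Mathlib

set_option autoImplicit false

namespace Pool.Agent.H4.ExpEigen

open Matrix

variable {V : Type*} [Fintype V] [DecidableEq V]

set_option backward.isDefEq.respectTransparency false in
theorem hasSum_exp (A : Matrix V V ℂ) :
    HasSum (fun m : ℕ => ((m.factorial : ℂ)⁻¹) • A ^ m) (NormedSpace.exp A) :=
  open scoped Matrix.Norms.Operator in NormedSpace.exp_series_hasSum_exp' (𝕂 := ℂ) A

theorem hasSum_entry (A : Matrix V V ℂ) (u v : V) :
    HasSum (fun m : ℕ => ((m.factorial : ℂ)⁻¹) * (A ^ m) u v) (NormedSpace.exp A u v) := by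
  have h := hasSum_exp A
  have h1 := (Pi.hasSum.mp h) u
  have h2 := (Pi.hasSum.mp h1) v
  simpa using h2

theorem pow_mulVec_eigen (A : Matrix V V ℂ) (x : V → ℂ) (s : ℂ) (h : A *ᵥ x = s • x) (m : ℕ) :
    (A ^ m) *ᵥ x = (s ^ m) • x := by
  induction m with
  | zero => simp
  | succ m ih =>
    rw [pow_succ, ← Matrix.mulVec_mulVec, h, Matrix.mulVec_smul, ih, smul_smul, pow_succ, mul_comm]

theorem exp_mulVec_eigen (A : Matrix V V ℂ) (x : V → ℂ) (s : ℂ) (h : A *ᵥ x = s • x) :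
    (NormedSpace.exp A) *ᵥ x = (Complex.exp s) • x := by
  funext u
  have h1 : HasSum (fun m : ℕ => ∑ v, (((m.factorial : ℂ)⁻¹) * (A ^ m) u v) * x v)
      (∑ v, NormedSpace.exp A u v * x v) :=
    hasSum_sum (fun v _ => (hasSum_entry A u v).mul_right (x v))
  have h2 : HasSum (fun m : ℕ => (s ^ m / (m.factorial : ℂ)) * x u) (Complex.exp s * x u) := by
    rw [Complex.exp_eq_exp_ℂ]
    exact (NormedSpace.expSeries_div_hasSum_exp s).mul_right (x u)
  have h3 : (fun m : ℕ => ∑ v, (((m.factorial : ℂ)⁻¹) * (A ^ m) u v) * x v)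
      = (fun m : ℕ => (s ^ m / (m.factorial : ℂ)) * x u) := by
    funext m
    have h4 := congrFun (pow_mulVec_eigen A x s h m) u
    simp only [Matrix.mulVec, dotProduct, Pi.smul_apply, smul_eq_mul] at h4
    have h5 : ∑ v, (((m.factorial : ℂ)⁻¹) * (A ^ m) u v) * x v
        = ((m.factorial : ℂ)⁻¹) * ∑ v, (A ^ m) u v * x v := by
      rw [Finset.mul_sum]
      exact Finset.sum_congr rfl (fun v _ => by ring)
    rw [h5, h4]
    ring
  rw [h3] at h1
  have := h1.unique h2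
  simpa [Matrix.mulVec, dotProduct] using this

/-- span of the eigenvectors of `A` with eigenvalue in `S` -/
def ES (A : Matrix V V ℂ) (S : Set ℂ) : Submodule ℂ (V → ℂ) :=
  Submodule.span ℂ {x | ∃ s ∈ S, A *ᵥ x = s • x}

theorem ES_mono (A : Matrix V V ℂ) {S T : Set ℂ} (h : S ⊆ T) : ES A S ≤ ES A T :=
  Submodule.span_mono (fun _ ⟨s, hs, hx⟩ => ⟨s, h hs, hx⟩)

theorem ES_surj (A : Matrix V V ℂ) (S : Set ℂ) (θ : ℂ) (hθ : θ ∉ S) (w : V → ℂ)
    (hw : w ∈ ES A S) : ∃ w' ∈ ES A S, A *ᵥ w' - θ • w' = w := by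
  induction hw using Submodule.span_induction with
  | mem x hx =>
    obtain ⟨s, hs, hx⟩ := hx
    have hne : s - θ ≠ 0 := fun h => hθ (by rw [← sub_eq_zero.mp h]; exact hs)
    refine ⟨(s - θ)⁻¹ • x, Submodule.smul_mem _ _ (Submodule.subset_span ⟨s, hs, hx⟩), ?_⟩
    rw [Matrix.mulVec_smul, hx, smul_smul, smul_smul, ← sub_smul]
    have : (s - θ)⁻¹ * s - θ * (s - θ)⁻¹ = 1 := by field_simp
    rw [this, one_smul]
  | zero => exact ⟨0, Submodule.zero_mem _, by simp⟩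
  | add x y _ _ hx hy =>
    obtain ⟨x', hx', hx⟩ := hx
    obtain ⟨y', hy', hy⟩ := hy
    refine ⟨x' + y', Submodule.add_mem _ hx' hy', ?_⟩
    rw [Matrix.mulVec_add, smul_add, ← hx, ← hy]
    abel
  | smul a x _ hx =>
    obtain ⟨x', hx', hx⟩ := hx
    refine ⟨a • x', Submodule.smul_mem _ _ hx', ?_⟩
    rw [Matrix.mulVec_smul, ← hx, smul_sub, smul_comm θ a]

theorem mem_ES_insert (A : Matrix V V ℂ) (S : Set ℂ) (θ : ℂ) (hθ : θ ∉ S) (y : V → ℂ)
    (hy : A *ᵥ y - θ • y ∈ ES A S) : y ∈ ES A (insert θ S) := by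
  obtain ⟨w', hw', h⟩ := ES_surj A S θ hθ _ hy
  have h1 : y - w' ∈ ES A (insert θ S) := by
    refine Submodule.subset_span ⟨θ, Set.mem_insert _ _, ?_⟩
    rw [Matrix.mulVec_sub, smul_sub]
    have : A *ᵥ w' = A *ᵥ y - θ • y + θ • w' := by rw [← h]; abel
    rw [this]; abel
  have h2 : w' ∈ ES A (insert θ S) := ES_mono A (Set.subset_insert _ _) hw'
  have := Submodule.add_mem _ h1 h2
  simpa using this

end Pool.Agent.H4.ExpEigen
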