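import Mathlib

namespace Pool.Agent.H4.InfLogic

universe u v

/-- A structure on `M` for the signature with one constant, one unary operation and binary operations indexed by `B`. -/
structure Str (B : Type) (M : Type u) where
  c : M
  un : M → M
  op : B → M → M → M

/-- Terms with variables from `α`. -/
inductive Tm (B α : Type) : Type
  | var (x : α)
  | c
  | un (t : Tm B α)
  | op (b : B) (s t : Tm B α)

/-- Formulas of `L_{∞,∞}` with free variables from `α`: conjunctions and disjunctions over arbitrary index sets `ι`,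
quantification over arbitrary sets `β` of variables. -/
inductive Fm (B : Type) : Type → Type 1
  | eq {α : Type} (s t : Tm B α) : Fm B α
  | not {α : Type} (φ : Fm B α) : Fm B α
  | conj {α : Type} (ι : Type) (f : ι → Fm B α) : Fm B α
  | disj {α : Type} (ι : Type) (f : ι → Fm B α) : Fm B α
  | all {α : Type} (β : Type) (φ : Fm B (α ⊕ β)) : Fm B α
  | ex {α : Type} (β : Type) (φ : Fm B (α ⊕ β)) : Fm B α

def Tm.eval {B α : Type} {M : Type u} (S : Str B M) (v : α → M) : Tm B α → M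
  | .var x => v x
  | .c => S.c
  | .un t => S.un (t.eval S v)
  | .op b s t => S.op b (s.eval S v) (t.eval S v)

/-- Tarski satisfaction. -/
def Fm.Sat {B : Type} {M : Type u} (S : Str B M) : {α : Type} → Fm B α → (α → M) → Prop
  | _, .eq s t, v => s.eval S v = t.eval S v
  | _, .not φ, v => ¬φ.Sat S v
  | _, .conj _ f, v => ∀ i, (f i).Sat S v
  | _, .disj _ f, v => ∃ i, (f i).Sat S v
  | _, .all _ φ, v => ∀ w, φ.Sat S (Sum.elim v w)
  | _, .ex _ φ, v => ∃ w, φ.Sat S (Sum.elim v w)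

variable {B : Type} {M : Type u}

def Hom (S : Str B M) {Q : Type v} (F : Str B Q) (f : M → Q) : Prop :=
  f S.c = F.c ∧ (∀ x, f (S.un x) = F.un (f x)) ∧ ∀ b x y, f (S.op b x y) = F.op b (f x) (f y)

def imp {α : Type} (s t : Tm B α) (P : Prop) : Fm B α := .conj (PLift ¬P) fun _ => .not (.eq s t)

lemma sat_imp {α : Type} (S : Str B M) (s t : Tm B α) (P : Prop) (v : α → M) :
    (imp s t P).Sat S v ↔ (s.eval S v = t.eval S v → P) := by
  simp only [imp, Fm.Sat, PLift.forall]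
  tauto

def and {α : Type} (φ ψ : Fm B α) : Fm B α := .conj Bool fun b => cond b φ ψ

lemma sat_and {α : Type} (S : Str B M) (φ ψ : Fm B α) (v : α → M) :
    (and φ ψ).Sat S v ↔ φ.Sat S v ∧ ψ.Sat S v := by
  simp [and, Fm.Sat, and_comm]

def loc {α Q : Type} (F : Str B Q) (g : α → Q) : Fm B α :=
  and (.conj (α × α) fun p => and (imp (.var p.1) (.var p.2) (g p.1 = g p.2))
    (and (imp (.var p.1) .c (g p.1 = F.c)) (imp (.var p.1) (.un (.var p.2)) (g p.1 = F.un (g p.2)))))
    (.conj (B × α × α × α) fun p =>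
      imp (.var p.2.1) (.op p.1 (.var p.2.2.1) (.var p.2.2.2)) (g p.2.1 = F.op p.1 (g p.2.2.1) (g p.2.2.2)))

def sep {α : Type} (a : α) : Fm B α := .disj (Σ n, Str B (Fin n)) fun F => .conj ℕ fun m =>
  .all (Fin m) (.disj {g : α ⊕ Fin m → Fin F.1 // g (.inl a) ≠ F.2.c} fun g => loc F.2 g.1)

lemma sat_sep {α : Type} (S : Str B M) (a : α) (v : α → M) :
    (sep a).Sat S v ↔ ∃ (n : ℕ) (F : Str B (Fin n)) (f : M → Fin n), Hom S F f ∧ f (v a) ≠ F.c := by
  classical
  simp only [sep, loc, Fm.Sat, sat_and, sat_imp, Tm.eval, Sigma.exists, Subtype.exists, Prod.forall]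
  refine exists₂_congr fun n F => ⟨fun h => ?_, fun ⟨f, hf, ha⟩ m w => ⟨fun i => f (Sum.elim v w i), ha,
    fun i j => ⟨congrArg f, fun e => (congrArg f e).trans hf.1, fun e => (congrArg f e).trans (hf.2.1 _)⟩,
    fun b i j k e => (congrArg f e).trans (hf.2.2 ..)⟩⟩
  have : ∀ s : Finset M, ∃ f : M → Fin n, f (v a) ≠ F.c ∧ (S.c ∈ s → f S.c = F.c) ∧
      (∀ x ∈ s, S.un x ∈ s → f (S.un x) = F.un (f x)) ∧
      ∀ b, ∀ x ∈ s, ∀ y ∈ s, S.op b x y ∈ s → f (S.op b x y) = F.op b (f x) (f y) := by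
    intro s
    obtain ⟨g, ha, h1, h2⟩ := h s.card fun i => s.equivFin.symm i
    set w := Sum.elim v fun i => (s.equivFin.symm i : M)
    have e : ∀ i, Function.extend w g (fun _ => F.c) (w i) = g i :=
      Function.FactorsThrough.extend_apply (fun i j => (h1 i j).1) _
    have m : ∀ x ∈ s, ∃ i, w i = x := fun x hx => ⟨.inr (s.equivFin ⟨x, hx⟩), by simp [w]⟩
    refine ⟨Function.extend w g fun _ => F.c, by rwa [← e] at ha, fun hc => ?_, fun x hx hu => ?_,
      fun b x hx y hy ho => ?_⟩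
    · obtain ⟨i, hi⟩ := m _ hc
      rw [← hi, e, (h1 i i).2.1 hi]
    · obtain ⟨i, rfl⟩ := m _ hx
      obtain ⟨j, hj⟩ := m _ hu
      rw [← hj, e, e, (h1 j i).2.2 hj]
    · obtain ⟨i, rfl⟩ := m _ hx
      obtain ⟨j, rfl⟩ := m _ hy
      obtain ⟨k, hk⟩ := m _ ho
      rw [← hk, e, e, e, h2 b k i j hk]
  choose g h0 h1 h2 h3 using this
  obtain ⟨f, hf⟩ := Finset.rado_selection g
  refine ⟨f, ⟨?_, fun x => ?_, fun b x y => ?_⟩, ?_⟩
  · obtain ⟨t, ht, e⟩ := hf {S.c}
    rw [e _ (by simp), h1 t (ht (by simp))]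
  · obtain ⟨t, ht, e⟩ := hf {x, S.un x}
    rw [e _ (by simp), e x (by simp), h2 t x (ht (by simp)) (ht (by simp))]
  · obtain ⟨t, ht, e⟩ := hf {x, y, S.op b x y}
    rw [e _ (by simp), e x (by simp), e y (by simp), h3 t b x (ht (by simp)) y (ht (by simp)) (ht (by simp))]
  · obtain ⟨t, ht, e⟩ := hf {v a}
    rw [e _ (by simp)]
    exact h0 t

/-- every element other than the constant is separated from it by a homomorphism to a finite structure -/
def rf : Fm B Empty := .all Unit (.disj Bool fun b => cond b (.eq (.var (.inr ())) .c) (sep (.inr ())))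

lemma sat_rf (S : Str B M) : rf.Sat S Empty.elim ↔
    ∀ a ≠ S.c, ∃ (n : ℕ) (F : Str B (Fin n)) (f : M → Fin n), Hom S F f ∧ f a ≠ F.c := by
  simp only [rf, Fm.Sat, Bool.exists_bool, cond_true, cond_false, sat_sep, Tm.eval, Sum.elim_inr]
  exact ⟨fun h a ha => (h fun _ => a).resolve_right ha, fun h w => (em' _).imp_left (h _)⟩

lemma to_fin {S : Str B M} {Q : Type v} [Finite Q] {F : Str B Q} {f : M → Q} (h : Hom S F f) {a : M}
    (ha : f a ≠ F.c) : ∃ (n : ℕ) (F : Str B (Fin n)) (f : M → Fin n), Hom S F f ∧ f a ≠ F.c := by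
  obtain ⟨n, ⟨e⟩⟩ := Finite.exists_equiv_fin Q
  exact ⟨n, ⟨e F.c, fun x => e (F.un (e.symm x)), fun b x y => e (F.op b (e.symm x) (e.symm y))⟩, e ∘ f,
    ⟨by simp [h.1], by simp [h.2.1], by simp [h.2.2]⟩, e.injective.ne ha⟩

end Pool.Agent.H4.InfLogic
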