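import Pool.Agent.H4.MRDefs
import Pool.Agent.H21.ER2

set_option autoImplicit false

namespace Pool.Agent.H4.MR

open Pool.Agent.H11.PT Pool.Agent.H21.ER Finset

def cX (c : Con) : ℕ := if c.1 < 2 then c.2.1 + 2 else 0
def cY (c : Con) : ℕ := if c.1 = 1 then c.2.2.1 + 2 else 1
def cZ (c : Con) : ℕ := if c.1 = 0 then c.2.2.1 + 2 else if c.1 = 1 then 0 else 1
def con (k : ℕ) (cs : List Con) (p : ℕ) : Con := cs.getD ((p - (k + 1)) % cs.length) (0, 0, 0, 0)
def blk (k : ℕ) (cs : List Con) (p : ℕ) : ℕ := (p - (k + 1)) / cs.length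
def dim (k : ℕ) (cs : List Con) : ℕ := k + 1 + k * cs.length

def en (k : ℕ) (cs : List Con) (p q : ℕ) : ℕ :=
  if p ≤ k then (if q ≤ k then (if p = q then 1 else 0) else if p = blk k cs q then cY (con k cs q)
    else if p = blk k cs q + 1 then cZ (con k cs q) else 0)
  else if q ≤ k then (if q = blk k cs p then cX (con k cs p) else if q = blk k cs p + 1 then 1 else 0)
  else if p = q then (con k cs p).2.2.2 + 2 else if blk k cs q = blk k cs p + 1 then cY (con k cs q)
  else if blk k cs p < blk k cs q then 0 else nv cs + Nat.pair p q + 2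

def tab (k : ℕ) (cs : List Con) : List (List ℕ) :=
  (List.range (dim k cs)).map fun p => (List.range (dim k cs)).map (en k cs p)

theorem tab_pt (k : ℕ) : PT (tab k) := by unfold tab en dim blk con cX cY cZ; fun_prop

theorem ok_ev {x : ℕ → ℝ} {c : Con} :
    c.ok x ↔ ev x (c.2.2.2 + 2) = ev x (cX c) * ev x (cY c) + ev x (cZ c) := by
  obtain ⟨_ | _ | t, i, j, o⟩ := c <;> simp [Con.ok, ev, cX, cY, cZ, eq_comm]

noncomputable def F (k : ℕ) (cs : List Con) (x : ℕ → ℝ) (p q : ℕ) : ℝ :=
  ∑ t : Fin (k + 1), ev x (en k cs p t) * ev x (en k cs t q)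

variable {k : ℕ} {cs : List Con} {x : ℕ → ℝ} {p q : ℕ}

theorem blk_lt (h : k < p) (h' : p < dim k cs) : blk k cs p < k :=
  Nat.div_lt_of_lt_mul (by unfold dim at h'; rw [mul_comm]; omega)

theorem F1 (h : p ≤ k) : F k cs x p q = ev x (en k cs p q) := by
  rw [F, sum_eq_single ⟨p, by omega⟩ (fun t _ ht => ?_) (by simp)]
  · simp [en, h, ev]
  · have := t.2
    have : p ≠ t := fun e => ht (Fin.ext e.symm)
    simp [en, ev, show t.1 ≤ k by omega, *]

theorem F2 (h : k < p) (h' : p < dim k cs) : F k cs x p q = ev x (cX (con k cs p)) *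
    ev x (en k cs (blk k cs p) q) + ev x (en k cs (blk k cs p + 1) q) := by
  have := blk_lt h h'
  rw [F, sum_eq_add ⟨blk k cs p, by omega⟩ ⟨blk k cs p + 1, by omega⟩ (by simp [Fin.ext_iff]) (fun t _ ht => ?_)
    (by simp) (by simp)]
  · simp [en, h.not_ge, ev, this.le, show blk k cs p + 1 ≤ k from this]
  · have := t.2
    simp only [ne_eq, Fin.ext_iff] at ht
    simp [en, ev, show t.1 ≤ k by omega, h.not_ge, ht]

theorem F3 (h : k < p) (h' : p < dim k cs) (g : q ≤ k ∨ blk k cs p < blk k cs q) :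
    F k cs x p q = ev x (en k cs p q) := by
  have := blk_lt h h'
  have e0 : ev x 0 = 0 := by simp [ev]
  have e1 : ev x 1 = 1 := by simp [ev]
  rw [F2 h h']
  simp only [en]
  grind

theorem F4 (h : k < p) (h' : p < dim k cs) : F k cs x p p = ev x (en k cs p p) ↔ (con k cs p).ok x := by
  have := blk_lt h h'
  rw [F2 h h', ok_ev, eq_comm]
  simp [en, h.not_ge, this.le, show blk k cs p + 1 ≤ k from this]

theorem len (k : ℕ) (cs : List Con) : (tab k cs).length = dim k cs := by simp [tab]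

theorem mat_tab (i j : Fin (tab k cs).length) : mat (tab k cs) x i j = ev x (en k cs i j) := by
  have := i.2.trans_eq (len k cs)
  have := j.2.trans_eq (len k cs)
  simp [mat, tab, *]

theorem yes (h : AM cs x) : ∃ a : ℕ → ℝ, (mat (tab k cs) a).rank ≤ k + 1 := by
  let a : ℕ → ℝ := fun v => if v < nv cs then x v else
    F k cs x (v - nv cs).unpair.1 (v - nv cs).unpair.2
  refine ⟨a, le_trans (le_of_eq (congrArg _ ?_)) ((Matrix.rank_mul_le_left
    (Matrix.of fun (i : Fin (tab k cs).length) (t : Fin (k + 1)) => ev x (en k cs i t))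
    (Matrix.of fun t (j : Fin (tab k cs).length) => ev x (en k cs t j))).trans
      (Matrix.rank_le_width _))⟩
  ext p q
  rw [mat_tab]
  change _ = F k cs x p q
  have hp := p.2.trans_eq (len k cs)
  have hq := q.2.trans_eq (len k cs)
  generalize p.1 = p at *
  generalize q.1 = q at *
  have m : ∀ p, k < p → p < dim k cs → con k cs p ∈ cs := fun p a b => by
    have : 0 < cs.length := Nat.pos_of_ne_zero fun e => by simp [dim, e] at b; omega
    rw [con, List.getD_eq_getElem _ _ (Nat.mod_lt _ this)]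
    exact List.getElem_mem _
  by_cases c : k < p ∧ k < q ∧ p ≠ q ∧ blk k cs q ≤ blk k cs p
  · rw [show en k cs p q = nv cs + Nat.pair p q + 2 by unfold en; grind]
    simp [ev, a]
  · have : en k cs p q < nv cs + 2 := by
      have := fun a => lt_nv (m p a hp)
      have := fun a => lt_nv (m q a hq)
      simp only [en, cX, cY, cZ]
      grind
    rw [show ev a (en k cs p q) = ev x (en k cs p q) by simp only [ev, a]; grind]
    symm
    rcases le_or_gt p k with g | g
    · exact F1 g
    · by_cases e : p = q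
      · subst e
        exact (F4 g hp).2 (h _ (m p g hp))
      · exact F3 g hp (by omega)

theorem no (h : ¬AM cs x) : 2 * k + 1 ≤ (mat (tab k cs) x).rank := by
  obtain ⟨c, c1, c2⟩ : ∃ c ∈ cs, ¬c.ok x := by simpa [AM] using h
  obtain ⟨s, hs, rfl⟩ := List.getElem_of_mem c1
  have lt : ∀ i : Fin k, k + 1 + (s + cs.length * i) < dim k cs := fun i => by
    have := Nat.mul_le_mul_left cs.length i.2
    unfold dim; nlinarith
  have b : ∀ i, blk k cs (k + 1 + (s + cs.length * i)) = i := fun i => by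
    simp [blk, Nat.add_mul_div_left _ _ (Nat.zero_lt_of_lt hs), Nat.div_eq_of_lt hs]
  let g : Fin (k + 1) ⊕ Fin k → Fin (tab k cs).length := Sum.elim
    (fun t => ⟨t, by rw [len, dim]; omega⟩) fun i => ⟨_, (lt i).trans_eq (len k cs).symm⟩
  refine le_trans (le_of_eq ?_) (Matrix.rank_submatrix_le _ g g)
  rw [Matrix.rank_of_isUnit]
  · simp; omega
  rw [Matrix.isUnit_iff_isUnit_det, isUnit_iff_ne_zero, ← Matrix.fromBlocks_toBlocks (Matrix.submatrix _ _ _),
    show Matrix.toBlocks₁₁ _ = 1 from ?_, Matrix.det_fromBlocks_one₁₁]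
  · have e : ∀ i j : Fin k, (((mat (tab k cs) x).submatrix g g).toBlocks₂₂ -
        ((mat (tab k cs) x).submatrix g g).toBlocks₂₁ * ((mat (tab k cs) x).submatrix g g).toBlocks₁₂) i j =
        ev x (en k cs (k + 1 + (s + cs.length * i)) (k + 1 + (s + cs.length * j))) -
          F k cs x (k + 1 + (s + cs.length * i)) (k + 1 + (s + cs.length * j)) := fun i j => by
      simp [Matrix.toBlocks₂₂, Matrix.toBlocks₂₁, Matrix.toBlocks₁₂, Matrix.mul_apply, mat_tab, g, F]
    rw [Matrix.det_of_lowerTriangular _ fun i j ij => ?_]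
    · refine prod_ne_zero_iff.2 fun i _ => ?_
      rw [e, sub_ne_zero, ne_comm, ne_eq, F4 (by omega) (lt i)]
      simpa [con, Nat.mod_eq_of_lt hs, hs] using c2
    · rw [e, F3 (by omega) (lt i) (.inr (by rw [b, b]; exact ij)), sub_self]
  · ext i j
    have := i.2
    have := j.2
    simp [Matrix.toBlocks₁₁, mat_tab, g, en, ev, Matrix.one_apply, Fin.ext_iff, show i.1 ≤ k by omega,
      show j.1 ≤ k by omega]
    split_ifs <;> simp

theorem main (k : ℕ) : ∃ f : Qf → List (List ℕ), PT f ∧ ∀ φ, Sq (f φ) ∧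
    (ETR φ → ∃ x : ℕ → ℝ, (mat (f φ) x).rank ≤ k + 1) ∧
      (¬ETR φ → ∀ x : ℕ → ℝ, 2 * k + 1 ≤ (mat (f φ) x).rank) :=
  ⟨fun φ => tab k (am φ.post), (tab_pt k).comp am_pt, fun φ => ⟨by simp [Sq, tab],
    fun h => (etr_iff φ).1 h |>.elim fun _ => yes, fun h x => no fun a => h ((etr_iff φ).2 ⟨x, a⟩)⟩⟩

theorem re_rank (M : List (List ℕ)) (z : ℕ → ℂ) :
    (mat M fun i => (z i).re).rank ≤ 2 * (mat M z).rank := by
  rw [Matrix.rank_eq_finrank_span_cols, Matrix.rank_eq_finrank_span_cols, ← finrank_real_of_complex]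
  refine le_trans (Submodule.finrank_mono ?_) (Submodule.finrank_map_le (Complex.reLm.compLeft _)
    ((Submodule.span ℂ (Set.range (mat M z).col)).restrictScalars ℝ))
  rw [Submodule.span_le]
  rintro _ ⟨j, rfl⟩
  refine ⟨_, Submodule.subset_span ⟨j, rfl⟩, funext fun i => ?_⟩
  simp only [mat, ev, Matrix.col, Matrix.transpose_apply, LinearMap.compLeft_apply, Function.comp]
  split_ifs <;> simp

end Pool.Agent.H4.MR
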