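import Pool.Agent.H21.ERDefs

set_option autoImplicit false

namespace Pool.Agent.H4.MR

/-- entries of a variable matrix: `0` and `1` are these constants, `n + 2` is the variable `x n` -/
def ev {K : Type} [Field K] (x : ℕ → K) (e : ℕ) : K := if e < 2 then e else x (e - 2)

/-- the table `M` is square -/
def Sq (M : List (List ℕ)) : Prop := ∀ r ∈ M, r.length = M.length

/-- the matrix `M(x)` -/
def mat {K : Type} [Field K] (M : List (List ℕ)) (x : ℕ → K) :
    Matrix (Fin M.length) (Fin M.length) K :=
  fun i j => ev x ((M.getD i []).getD j 0)

end Pool.Agent.H4.MR
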