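import Mathlib

set_option autoImplicit false

namespace Pool.Agent.H4.Markov

variable {I J K : ℕ}

abbrev Tab (I J K : ℕ) : Type := Fin I → Fin J → Fin K → ℕ
abbrev Mv (I J K : ℕ) : Type := Fin I → Fin J → Fin K → ℤ

def Same (u v : Tab I J K) : Prop :=
  (∀ i j, ∑ k, u i j k = ∑ k, v i j k) ∧ (∀ i k, ∑ j, u i j k = ∑ j, v i j k) ∧
    (∀ j k, ∑ i, u i j k = ∑ i, v i j k)

def IsMove (m : Mv I J K) : Prop :=
  (∀ i j, ∑ k, m i j k = 0) ∧ (∀ i k, ∑ j, m i j k = 0) ∧ (∀ j k, ∑ i, m i j k = 0)

def Step (B : Finset (Mv I J K)) (w w' : Tab I J K) : Prop :=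
  ∃ m ∈ B, (∀ i j k, (w' i j k : ℤ) = (w i j k : ℤ) + m i j k) ∨
    (∀ i j k, (w' i j k : ℤ) = (w i j k : ℤ) - m i j k)

def MB (B : Finset (Mv I J K)) : Prop :=
  (∀ m ∈ B, IsMove m) ∧ ∀ u v : Tab I J K, Same u v → Relation.ReflTransGen (Step B) u v

def dif (u v : Tab I J K) : Mv I J K := fun i j k => (u i j k : ℤ) - (v i j k : ℤ)

theorem same_iff (u v : Tab I J K) : Same u v ↔ IsMove (dif u v) := by
  unfold Same IsMove dif
  simp only [Finset.sum_sub_distrib, sub_eq_zero]
  norm_cast

theorem IsMove.neg {m : Mv I J K} (h : IsMove m) : IsMove (-m) := by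
  obtain ⟨h1, h2, h3⟩ := h
  refine ⟨fun i j => ?_, fun i j => ?_, fun i j => ?_⟩ <;>
    simp [Finset.sum_neg_distrib, h1, h2, h3]

theorem IsMove.add {m m' : Mv I J K} (h : IsMove m) (h' : IsMove m') : IsMove (m + m') := by
  obtain ⟨h1, h2, h3⟩ := h
  obtain ⟨g1, g2, g3⟩ := h'
  refine ⟨fun i j => ?_, fun i j => ?_, fun i j => ?_⟩ <;>
    simp [Finset.sum_add_distrib, h1, h2, h3, g1, g2, g3]

theorem Same.symm {u v : Tab I J K} (h : Same u v) : Same v u :=
  ⟨fun i j => (h.1 i j).symm, fun i j => (h.2.1 i j).symm, fun i j => (h.2.2 i j).symm⟩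

theorem Same.trans {u v w : Tab I J K} (h : Same u v) (h' : Same v w) : Same u w :=
  ⟨fun i j => (h.1 i j).trans (h'.1 i j), fun i j => (h.2.1 i j).trans (h'.2.1 i j),
    fun i j => (h.2.2 i j).trans (h'.2.2 i j)⟩

theorem Step.symm {B : Finset (Mv I J K)} {w w' : Tab I J K} (h : Step B w w') : Step B w' w := by
  obtain ⟨m, hm, h | h⟩ := h
  · exact ⟨m, hm, Or.inr (fun i j k => by rw [h i j k]; ring)⟩
  · exact ⟨m, hm, Or.inl (fun i j k => by rw [h i j k]; ring)⟩

theorem Step.shift {B : Finset (Mv I J K)} {w w' : Tab I J K} (h : Step B w w') (c : Tab I J K) :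
    Step B (w + c) (w' + c) := by
  obtain ⟨m, hm, h | h⟩ := h
  · exact ⟨m, hm, Or.inl (fun i j k => by simp only [Pi.add_apply]; push_cast; rw [h i j k]; ring)⟩
  · exact ⟨m, hm, Or.inr (fun i j k => by simp only [Pi.add_apply]; push_cast; rw [h i j k]; ring)⟩

theorem path_shift {B : Finset (Mv I J K)} {w w' : Tab I J K}
    (h : Relation.ReflTransGen (Step B) w w') (c : Tab I J K) :
    Relation.ReflTransGen (Step B) (w + c) (w' + c) := by
  induction h with
  | refl => exact Relation.ReflTransGen.refl
  | tail _ hs ih => exact ih.tail (hs.shift c)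

def deg (u : Tab I J K) : ℕ := ∑ i, ∑ j, ∑ k, u i j k

theorem deg_add (u v : Tab I J K) : deg (u + v) = deg u + deg v := by
  simp [deg, Finset.sum_add_distrib]

theorem Same.deg_eq {u v : Tab I J K} (h : Same u v) : deg u = deg v := by
  unfold deg
  exact Finset.sum_congr rfl (fun i _ => Finset.sum_congr rfl (fun j _ => h.1 i j))

theorem eq_zero_of_deg {u : Tab I J K} (h : deg u = 0) : u = 0 := by
  funext i j k
  unfold deg at h
  have h1 := (Finset.sum_eq_zero_iff.mp h) i (Finset.mem_univ _)
  have h2 := (Finset.sum_eq_zero_iff.mp h1) j (Finset.mem_univ _)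
  exact (Finset.sum_eq_zero_iff.mp h2) k (Finset.mem_univ _)

theorem exists_MB : ∃ B : Finset (Mv I J K), MB B := by
  classical
  let P : Tab I J K × Tab I J K → Prop := fun p => Same p.1 p.2 ∧ p.1 ≠ p.2
  have hfin : {p | Minimal P p}.Finite :=
    WellQuasiOrderedLE.finite_of_isAntichain (setOfPred_minimal_antichain P)
  refine ⟨hfin.toFinset.image (fun p => dif p.1 p.2), ?_, ?_⟩
  · intro m hm
    obtain ⟨p, hp, rfl⟩ := Finset.mem_image.mp hm
    have : Minimal P p := by simpa using hp
    exact (same_iff _ _).mp this.prop.1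
  · intro u v huv
    induction hd : deg u using Nat.strong_induction_on generalizing u v with
    | _ n ih =>
      by_cases he : u = v
      · subst he; exact Relation.ReflTransGen.refl
      obtain ⟨⟨a, b⟩, hle, hmin⟩ := exists_minimal_le_of_wellFoundedLT P (u, v) ⟨huv, he⟩
      obtain ⟨c, hc⟩ : ∃ c, u = c + a := ⟨u - a, (tsub_add_cancel_of_le hle.1).symm⟩
      obtain ⟨e, he'⟩ : ∃ e, v = e + b := ⟨v - b, (tsub_add_cancel_of_le hle.2).symm⟩
      have hab : Same a b := hmin.prop.1
      have hce : Same c e := by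
        rw [same_iff]
        have h1 := ((same_iff _ _).mp huv).add ((same_iff _ _).mp hab).neg
        have : dif u v + -dif a b = dif c e := by
          funext i j k
          simp only [dif, hc, he', Pi.add_apply, Pi.neg_apply]
          push_cast; ring
        rwa [this] at h1
      have hpos : deg a ≠ 0 := by
        intro h0
        have h1 := eq_zero_of_deg h0
        have h2 := eq_zero_of_deg (hab.deg_eq ▸ h0)
        exact hmin.prop.2 (h1.trans h2.symm)
      have hlt : deg c < n := by rw [← hd, hc, deg_add]; omega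
      have hp := path_shift (ih _ hlt c e hce rfl) b
      rw [hc, he']
      refine Relation.ReflTransGen.head ?_ hp
      refine ⟨dif a b, Finset.mem_image.mpr ⟨(a, b), by simpa using hmin, rfl⟩, Or.inr ?_⟩
      intro i j k
      simp only [dif, Pi.add_apply]
      push_cast; ring

theorem avoid (z x y : Tab I J K) (hx : Same z x) (hy : Same z y)
    (hd : ∀ i j k, z i j k = 0 ∨ y i j k = 0)
    (n1 : dif z x ≠ dif z y) (n2 : dif z x ≠ -dif z y) (n3 : dif x y ≠ dif z y)
    (n4 : dif x y ≠ -dif z y) :
    ∃ B : Finset (Mv I J K), MB B ∧ dif z y ∉ B ∧ -dif z y ∉ B := by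
  classical
  obtain ⟨B0, hB0, hpath⟩ := exists_MB (I := I) (J := J) (K := K)
  let B := ((insert (dif z x) (insert (dif x y) B0)).erase (dif z y)).erase (-dif z y)
  have m1 : dif z x ∈ B := by simp [B, n1, n2]
  have m2 : dif x y ∈ B := by simp [B, n3, n4]
  have key : ∀ w w' : Tab I J K, (∀ i j k, (w' i j k : ℤ) = (w i j k : ℤ) - dif z y i j k) →
      Relation.ReflTransGen (Step B) w w' := by
    intro w w' h
    have hle : z ≤ w := by
      intro i j k
      have h1 := h i j k
      have h2 := hd i j k
      simp only [dif] at h1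
      show z i j k ≤ w i j k
      omega
    obtain ⟨c, hc⟩ : ∃ c, w = z + c := ⟨w - z, (add_tsub_cancel_of_le hle).symm⟩
    have hw' : w' = y + c := by
      funext i j k
      have h1 := h i j k
      simp only [dif, hc, Pi.add_apply] at h1 ⊢
      omega
    rw [hc, hw']
    apply path_shift
    refine Relation.ReflTransGen.head (b := x) ⟨_, m1, Or.inr ?_⟩
      (Relation.ReflTransGen.single ⟨_, m2, Or.inr ?_⟩)
    · intro i j k; simp [dif]
    · intro i j k; simp [dif]
  have key' : ∀ w w' : Tab I J K, (∀ i j k, (w' i j k : ℤ) = (w i j k : ℤ) + dif z y i j k) →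
      Relation.ReflTransGen (Step B) w w' := by
    intro w w' h
    have h1 := key w' w (fun i j k => by rw [h i j k]; ring)
    clear h
    induction h1 with
    | refl => exact Relation.ReflTransGen.refl
    | tail _ hs ih => exact Relation.ReflTransGen.head hs.symm ih
  refine ⟨B, ⟨?_, ?_⟩, by simp [B], by simp [B]⟩
  · intro m hm
    have hm' := Finset.mem_of_mem_erase (Finset.mem_of_mem_erase hm)
    rcases Finset.mem_insert.mp hm' with rfl | hm'
    · exact (same_iff _ _).mp hx
    rcases Finset.mem_insert.mp hm' with rfl | hm'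
    · exact (same_iff _ _).mp (hx.symm.trans hy)
    exact hB0 m hm'
  · intro u v huv
    have h := hpath u v huv
    clear huv
    induction h with
    | refl => exact Relation.ReflTransGen.refl
    | tail _ hs ih =>
      refine ih.trans ?_
      obtain ⟨m, hm, h⟩ := hs
      by_cases e1 : m = dif z y
      · subst e1
        rcases h with h | h
        · exact key' _ _ h
        · exact key _ _ h
      by_cases e2 : m = -dif z y
      · subst e2
        rcases h with h | h
        · exact key _ _ (fun i j k => by rw [h i j k]; simp only [Pi.neg_apply]; ring)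
        · exact key' _ _ (fun i j k => by rw [h i j k]; simp only [Pi.neg_apply]; ring)
      exact Relation.ReflTransGen.single ⟨m, by simp [B, e1, e2, hm], h⟩

theorem exists_minimal (B : Finset (Mv I J K)) (h : MB B) :
    ∃ C, C ⊆ B ∧ MB C ∧ ∀ D, D ⊂ C → ¬ MB D := by
  obtain ⟨C, hle, hmin⟩ := exists_minimal_le_of_wellFoundedLT MB B h
  exact ⟨C, hle, hmin.prop, fun D hD hMB => hD.not_superset (hmin.le_of_le hMB hD.subset)⟩

theorem must (z x y : Tab I J K) (hx : Same z x) (hne : x ≠ z)
    (hfib : ∀ w, Same z w → w = z ∨ w = x ∨ w = y) (C : Finset (Mv I J K)) (hC : MB C)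
    (h1 : dif z y ∉ C) (h2 : -dif z y ∉ C) : dif z x ∈ C ∨ -dif z x ∈ C := by
  by_contra hcon
  push Not at hcon
  have key : ∀ w, Relation.ReflTransGen (Step C) z w → w = z := by
    intro w h
    induction h with
    | refl => rfl
    | tail _ hs ih =>
      rename_i b c _
      subst ih
      obtain ⟨m, hm, h⟩ := hs
      have hmv := hC.1 m hm
      rcases h with h | h
      · have e : m = -dif b c := by
          funext i j k; simp only [dif, Pi.neg_apply, h i j k]; ring
        have hs : Same b c := by
          rw [same_iff]; have := hmv.neg; rwa [e, neg_neg] at this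
        rcases hfib c hs with rfl | rfl | rfl
        · rfl
        · exact absurd (e ▸ hm) hcon.2
        · exact absurd (e ▸ hm) h2
      · have e : m = dif b c := by
          funext i j k; simp only [dif, h i j k]; ring
        have hs : Same b c := by
          rw [same_iff]; rwa [e] at hmv
        rcases hfib c hs with rfl | rfl | rfl
        · rfl
        · exact absurd (e ▸ hm) hcon.1
        · exact absurd (e ▸ hm) h1
  exact hne (key x (hC.2 z x hx))

end Pool.Agent.H4.Markov
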