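import Mathlib
import Pool.Agent.H4.Markov

set_option autoImplicit false

namespace Pool.Agent.H4.Markov

def tb (n : ℕ) : Tab 8 9 7 := fun i j k => (n >>> (i.val * 63 + j.val * 7 + k.val)) % 2

def zz : Tab 8 9 7 := tb 102293458021045717771892780908948999622105524172368646717575276730089990281173413189403449809733877442803978782782019359340193734703409564004963598336
def xx : Tab 8 9 7 := tb 3196719292844674732313455515928923890624708778436742901731357687212198459331993105348161707856556681949778231178504444353982607128493757617741561856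
def yy : Tab 8 9 7 := tb 3196719292844674732313455515928923890624674644726872111995188791791842596241194531470783851797644806115879542990387658701175002555496298836666679296
def tt : Tab 8 9 7 := tb 105490177313890392504206236424877923512734932651992796149437731558249969323396395583622493000812925520112166756393517279241076391273333507082592305152

theorem sum9 (f : Fin 9 → ℕ) :
    ∑ i, f i = f 0 + f 1 + f 2 + f 3 + f 4 + f 5 + f 6 + f 7 + f 8 := by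
  rw [Fin.sum_univ_castSucc, Fin.sum_univ_eight]; rfl

theorem same_zx : Same zz xx := by
  unfold Same; decide +kernel
theorem same_zy : Same zz yy := by
  unfold Same; decide +kernel
theorem disj_zx : ∀ i j k, zz i j k = 0 ∨ xx i j k = 0 := by decide +kernel
theorem disj_zy : ∀ i j k, zz i j k = 0 ∨ yy i j k = 0 := by decide +kernel

theorem zero_cert : ∀ i j k, tt i j k = 0 →
    (∑ k', zz i j k' = 0 ∨ ∑ j', zz i j' k = 0 ∨ ∑ i', zz i' j k = 0) := by decide +kernel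

theorem hzero (u : Tab 8 9 7) (h : Same zz u) (i : Fin 8) (j : Fin 9) (k : Fin 7)
    (ht : tt i j k = 0) : u i j k = 0 := by
  rcases zero_cert i j k ht with h0 | h0 | h0
  · rw [h.1] at h0
    exact (Finset.sum_eq_zero_iff.mp h0) k (Finset.mem_univ _)
  · rw [h.2.1] at h0
    exact (Finset.sum_eq_zero_iff.mp h0) j (Finset.mem_univ _)
  · rw [h.2.2] at h0
    exact (Finset.sum_eq_zero_iff.mp h0) i (Finset.mem_univ _)

theorem sub_cert : ∀ i j k, tt i j k = 0 → zz i j k = 0 ∧ xx i j k = 0 ∧ yy i j k = 0 := by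
  decide +kernel

theorem e_cs_0_0 (u : Tab 8 9 7) (h : Same zz u) : u 1 0 0 + u 6 0 0 = 1 := by
  have h0 := h.2.2 0 0
  rw [show ∑ i, zz i 0 0 = 1 by decide +kernel, Fin.sum_univ_eight] at h0
  have a0 := hzero u h 0 0 0 (by decide +kernel)
  have a1 := hzero u h 2 0 0 (by decide +kernel)
  have a2 := hzero u h 3 0 0 (by decide +kernel)
  have a3 := hzero u h 4 0 0 (by decide +kernel)
  have a4 := hzero u h 5 0 0 (by decide +kernel)
  have a5 := hzero u h 7 0 0 (by decide +kernel)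
  omega

theorem e_cs_0_2 (u : Tab 8 9 7) (h : Same zz u) : u 1 0 2 + u 6 0 2 = 1 := by
  have h0 := h.2.2 0 2
  rw [show ∑ i, zz i 0 2 = 1 by decide +kernel, Fin.sum_univ_eight] at h0
  have a0 := hzero u h 0 0 2 (by decide +kernel)
  have a1 := hzero u h 2 0 2 (by decide +kernel)
  have a2 := hzero u h 3 0 2 (by decide +kernel)
  have a3 := hzero u h 4 0 2 (by decide +kernel)
  have a4 := hzero u h 5 0 2 (by decide +kernel)
  have a5 := hzero u h 7 0 2 (by decide +kernel)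
  omega

theorem e_cs_1_1 (u : Tab 8 9 7) (h : Same zz u) : u 2 1 1 + u 5 1 1 = 1 := by
  have h0 := h.2.2 1 1
  rw [show ∑ i, zz i 1 1 = 1 by decide +kernel, Fin.sum_univ_eight] at h0
  have a0 := hzero u h 0 1 1 (by decide +kernel)
  have a1 := hzero u h 1 1 1 (by decide +kernel)
  have a2 := hzero u h 3 1 1 (by decide +kernel)
  have a3 := hzero u h 4 1 1 (by decide +kernel)
  have a4 := hzero u h 6 1 1 (by decide +kernel)
  have a5 := hzero u h 7 1 1 (by decide +kernel)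
  omega

theorem e_cs_1_2 (u : Tab 8 9 7) (h : Same zz u) : u 1 1 2 + u 2 1 2 = 1 := by
  have h0 := h.2.2 1 2
  rw [show ∑ i, zz i 1 2 = 1 by decide +kernel, Fin.sum_univ_eight] at h0
  have a0 := hzero u h 0 1 2 (by decide +kernel)
  have a1 := hzero u h 3 1 2 (by decide +kernel)
  have a2 := hzero u h 4 1 2 (by decide +kernel)
  have a3 := hzero u h 5 1 2 (by decide +kernel)
  have a4 := hzero u h 6 1 2 (by decide +kernel)
  have a5 := hzero u h 7 1 2 (by decide +kernel)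
  omega

theorem e_cs_1_6 (u : Tab 8 9 7) (h : Same zz u) : u 1 1 6 + u 5 1 6 = 1 := by
  have h0 := h.2.2 1 6
  rw [show ∑ i, zz i 1 6 = 1 by decide +kernel, Fin.sum_univ_eight] at h0
  have a0 := hzero u h 0 1 6 (by decide +kernel)
  have a1 := hzero u h 2 1 6 (by decide +kernel)
  have a2 := hzero u h 3 1 6 (by decide +kernel)
  have a3 := hzero u h 4 1 6 (by decide +kernel)
  have a4 := hzero u h 6 1 6 (by decide +kernel)
  have a5 := hzero u h 7 1 6 (by decide +kernel)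
  omega

theorem e_cs_2_0 (u : Tab 8 9 7) (h : Same zz u) : u 0 2 0 + u 4 2 0 = 1 := by
  have h0 := h.2.2 2 0
  rw [show ∑ i, zz i 2 0 = 1 by decide +kernel, Fin.sum_univ_eight] at h0
  have a0 := hzero u h 1 2 0 (by decide +kernel)
  have a1 := hzero u h 2 2 0 (by decide +kernel)
  have a2 := hzero u h 3 2 0 (by decide +kernel)
  have a3 := hzero u h 5 2 0 (by decide +kernel)
  have a4 := hzero u h 6 2 0 (by decide +kernel)
  have a5 := hzero u h 7 2 0 (by decide +kernel)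
  omega

theorem e_cs_2_1 (u : Tab 8 9 7) (h : Same zz u) : u 0 2 1 + u 2 2 1 + u 3 2 1 = 1 := by
  have h0 := h.2.2 2 1
  rw [show ∑ i, zz i 2 1 = 1 by decide +kernel, Fin.sum_univ_eight] at h0
  have a0 := hzero u h 1 2 1 (by decide +kernel)
  have a1 := hzero u h 4 2 1 (by decide +kernel)
  have a2 := hzero u h 5 2 1 (by decide +kernel)
  have a3 := hzero u h 6 2 1 (by decide +kernel)
  have a4 := hzero u h 7 2 1 (by decide +kernel)
  omega

theorem e_cs_2_2 (u : Tab 8 9 7) (h : Same zz u) : u 0 2 2 + u 2 2 2 = 1 := by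
  have h0 := h.2.2 2 2
  rw [show ∑ i, zz i 2 2 = 1 by decide +kernel, Fin.sum_univ_eight] at h0
  have a0 := hzero u h 1 2 2 (by decide +kernel)
  have a1 := hzero u h 3 2 2 (by decide +kernel)
  have a2 := hzero u h 4 2 2 (by decide +kernel)
  have a3 := hzero u h 5 2 2 (by decide +kernel)
  have a4 := hzero u h 6 2 2 (by decide +kernel)
  have a5 := hzero u h 7 2 2 (by decide +kernel)
  omega

theorem e_cs_2_3 (u : Tab 8 9 7) (h : Same zz u) : u 3 2 3 + u 4 2 3 = 1 := by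
  have h0 := h.2.2 2 3
  rw [show ∑ i, zz i 2 3 = 1 by decide +kernel, Fin.sum_univ_eight] at h0
  have a0 := hzero u h 0 2 3 (by decide +kernel)
  have a1 := hzero u h 1 2 3 (by decide +kernel)
  have a2 := hzero u h 2 2 3 (by decide +kernel)
  have a3 := hzero u h 5 2 3 (by decide +kernel)
  have a4 := hzero u h 6 2 3 (by decide +kernel)
  have a5 := hzero u h 7 2 3 (by decide +kernel)
  omega

theorem e_cs_3_3 (u : Tab 8 9 7) (h : Same zz u) : u 3 3 3 + u 5 3 3 = 1 := by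
  have h0 := h.2.2 3 3
  rw [show ∑ i, zz i 3 3 = 1 by decide +kernel, Fin.sum_univ_eight] at h0
  have a0 := hzero u h 0 3 3 (by decide +kernel)
  have a1 := hzero u h 1 3 3 (by decide +kernel)
  have a2 := hzero u h 2 3 3 (by decide +kernel)
  have a3 := hzero u h 4 3 3 (by decide +kernel)
  have a4 := hzero u h 6 3 3 (by decide +kernel)
  have a5 := hzero u h 7 3 3 (by decide +kernel)
  omega

theorem e_cs_3_4 (u : Tab 8 9 7) (h : Same zz u) : u 3 3 4 + u 5 3 4 = 1 := by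
  have h0 := h.2.2 3 4
  rw [show ∑ i, zz i 3 4 = 1 by decide +kernel, Fin.sum_univ_eight] at h0
  have a0 := hzero u h 0 3 4 (by decide +kernel)
  have a1 := hzero u h 1 3 4 (by decide +kernel)
  have a2 := hzero u h 2 3 4 (by decide +kernel)
  have a3 := hzero u h 4 3 4 (by decide +kernel)
  have a4 := hzero u h 6 3 4 (by decide +kernel)
  have a5 := hzero u h 7 3 4 (by decide +kernel)
  omega

theorem e_cs_4_0 (u : Tab 8 9 7) (h : Same zz u) : u 0 4 0 + u 5 4 0 + u 7 4 0 = 1 := by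
  have h0 := h.2.2 4 0
  rw [show ∑ i, zz i 4 0 = 1 by decide +kernel, Fin.sum_univ_eight] at h0
  have a0 := hzero u h 1 4 0 (by decide +kernel)
  have a1 := hzero u h 2 4 0 (by decide +kernel)
  have a2 := hzero u h 3 4 0 (by decide +kernel)
  have a3 := hzero u h 4 4 0 (by decide +kernel)
  have a4 := hzero u h 6 4 0 (by decide +kernel)
  omega

theorem e_cs_4_1 (u : Tab 8 9 7) (h : Same zz u) : u 0 4 1 + u 3 4 1 + u 5 4 1 = 1 := by
  have h0 := h.2.2 4 1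
  rw [show ∑ i, zz i 4 1 = 1 by decide +kernel, Fin.sum_univ_eight] at h0
  have a0 := hzero u h 1 4 1 (by decide +kernel)
  have a1 := hzero u h 2 4 1 (by decide +kernel)
  have a2 := hzero u h 4 4 1 (by decide +kernel)
  have a3 := hzero u h 6 4 1 (by decide +kernel)
  have a4 := hzero u h 7 4 1 (by decide +kernel)
  omega

theorem e_cs_4_4 (u : Tab 8 9 7) (h : Same zz u) : u 0 4 4 + u 3 4 4 + u 5 4 4 = 1 := by
  have h0 := h.2.2 4 4
  rw [show ∑ i, zz i 4 4 = 1 by decide +kernel, Fin.sum_univ_eight] at h0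
  have a0 := hzero u h 1 4 4 (by decide +kernel)
  have a1 := hzero u h 2 4 4 (by decide +kernel)
  have a2 := hzero u h 4 4 4 (by decide +kernel)
  have a3 := hzero u h 6 4 4 (by decide +kernel)
  have a4 := hzero u h 7 4 4 (by decide +kernel)
  omega

theorem e_cs_4_5 (u : Tab 8 9 7) (h : Same zz u) : u 5 4 5 + u 7 4 5 = 1 := by
  have h0 := h.2.2 4 5
  rw [show ∑ i, zz i 4 5 = 1 by decide +kernel, Fin.sum_univ_eight] at h0
  have a0 := hzero u h 0 4 5 (by decide +kernel)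
  have a1 := hzero u h 1 4 5 (by decide +kernel)
  have a2 := hzero u h 2 4 5 (by decide +kernel)
  have a3 := hzero u h 3 4 5 (by decide +kernel)
  have a4 := hzero u h 4 4 5 (by decide +kernel)
  have a5 := hzero u h 6 4 5 (by decide +kernel)
  omega

theorem e_cs_5_0 (u : Tab 8 9 7) (h : Same zz u) : u 0 5 0 + u 4 5 0 + u 5 5 0 + u 6 5 0 = 1 := by
  have h0 := h.2.2 5 0
  rw [show ∑ i, zz i 5 0 = 1 by decide +kernel, Fin.sum_univ_eight] at h0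
  have a0 := hzero u h 1 5 0 (by decide +kernel)
  have a1 := hzero u h 2 5 0 (by decide +kernel)
  have a2 := hzero u h 3 5 0 (by decide +kernel)
  have a3 := hzero u h 7 5 0 (by decide +kernel)
  omega

theorem e_cs_5_2 (u : Tab 8 9 7) (h : Same zz u) : u 0 5 2 + u 6 5 2 = 1 := by
  have h0 := h.2.2 5 2
  rw [show ∑ i, zz i 5 2 = 1 by decide +kernel, Fin.sum_univ_eight] at h0
  have a0 := hzero u h 1 5 2 (by decide +kernel)
  have a1 := hzero u h 2 5 2 (by decide +kernel)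
  have a2 := hzero u h 3 5 2 (by decide +kernel)
  have a3 := hzero u h 4 5 2 (by decide +kernel)
  have a4 := hzero u h 5 5 2 (by decide +kernel)
  have a5 := hzero u h 7 5 2 (by decide +kernel)
  omega

theorem e_cs_5_3 (u : Tab 8 9 7) (h : Same zz u) : u 4 5 3 + u 5 5 3 = 1 := by
  have h0 := h.2.2 5 3
  rw [show ∑ i, zz i 5 3 = 1 by decide +kernel, Fin.sum_univ_eight] at h0
  have a0 := hzero u h 0 5 3 (by decide +kernel)
  have a1 := hzero u h 1 5 3 (by decide +kernel)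
  have a2 := hzero u h 2 5 3 (by decide +kernel)
  have a3 := hzero u h 3 5 3 (by decide +kernel)
  have a4 := hzero u h 6 5 3 (by decide +kernel)
  have a5 := hzero u h 7 5 3 (by decide +kernel)
  omega

theorem e_cs_5_4 (u : Tab 8 9 7) (h : Same zz u) : u 0 5 4 + u 4 5 4 + u 5 5 4 = 1 := by
  have h0 := h.2.2 5 4
  rw [show ∑ i, zz i 5 4 = 1 by decide +kernel, Fin.sum_univ_eight] at h0
  have a0 := hzero u h 1 5 4 (by decide +kernel)
  have a1 := hzero u h 2 5 4 (by decide +kernel)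
  have a2 := hzero u h 3 5 4 (by decide +kernel)
  have a3 := hzero u h 6 5 4 (by decide +kernel)
  have a4 := hzero u h 7 5 4 (by decide +kernel)
  omega

theorem e_cs_6_1 (u : Tab 8 9 7) (h : Same zz u) : u 0 6 1 + u 5 6 1 = 1 := by
  have h0 := h.2.2 6 1
  rw [show ∑ i, zz i 6 1 = 1 by decide +kernel, Fin.sum_univ_eight] at h0
  have a0 := hzero u h 1 6 1 (by decide +kernel)
  have a1 := hzero u h 2 6 1 (by decide +kernel)
  have a2 := hzero u h 3 6 1 (by decide +kernel)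
  have a3 := hzero u h 4 6 1 (by decide +kernel)
  have a4 := hzero u h 6 6 1 (by decide +kernel)
  have a5 := hzero u h 7 6 1 (by decide +kernel)
  omega

theorem e_cs_6_4 (u : Tab 8 9 7) (h : Same zz u) : u 0 6 4 + u 4 6 4 + u 5 6 4 = 1 := by
  have h0 := h.2.2 6 4
  rw [show ∑ i, zz i 6 4 = 1 by decide +kernel, Fin.sum_univ_eight] at h0
  have a0 := hzero u h 1 6 4 (by decide +kernel)
  have a1 := hzero u h 2 6 4 (by decide +kernel)
  have a2 := hzero u h 3 6 4 (by decide +kernel)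
  have a3 := hzero u h 6 6 4 (by decide +kernel)
  have a4 := hzero u h 7 6 4 (by decide +kernel)
  omega

theorem e_cs_6_5 (u : Tab 8 9 7) (h : Same zz u) : u 4 6 5 + u 5 6 5 = 1 := by
  have h0 := h.2.2 6 5
  rw [show ∑ i, zz i 6 5 = 1 by decide +kernel, Fin.sum_univ_eight] at h0
  have a0 := hzero u h 0 6 5 (by decide +kernel)
  have a1 := hzero u h 1 6 5 (by decide +kernel)
  have a2 := hzero u h 2 6 5 (by decide +kernel)
  have a3 := hzero u h 3 6 5 (by decide +kernel)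
  have a4 := hzero u h 6 6 5 (by decide +kernel)
  have a5 := hzero u h 7 6 5 (by decide +kernel)
  omega

theorem e_cs_7_0 (u : Tab 8 9 7) (h : Same zz u) : u 4 7 0 + u 7 7 0 = 1 := by
  have h0 := h.2.2 7 0
  rw [show ∑ i, zz i 7 0 = 1 by decide +kernel, Fin.sum_univ_eight] at h0
  have a0 := hzero u h 0 7 0 (by decide +kernel)
  have a1 := hzero u h 1 7 0 (by decide +kernel)
  have a2 := hzero u h 2 7 0 (by decide +kernel)
  have a3 := hzero u h 3 7 0 (by decide +kernel)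
  have a4 := hzero u h 5 7 0 (by decide +kernel)
  have a5 := hzero u h 6 7 0 (by decide +kernel)
  omega

theorem e_cs_7_5 (u : Tab 8 9 7) (h : Same zz u) : u 4 7 5 + u 7 7 5 = 1 := by
  have h0 := h.2.2 7 5
  rw [show ∑ i, zz i 7 5 = 1 by decide +kernel, Fin.sum_univ_eight] at h0
  have a0 := hzero u h 0 7 5 (by decide +kernel)
  have a1 := hzero u h 1 7 5 (by decide +kernel)
  have a2 := hzero u h 2 7 5 (by decide +kernel)
  have a3 := hzero u h 3 7 5 (by decide +kernel)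
  have a4 := hzero u h 5 7 5 (by decide +kernel)
  have a5 := hzero u h 6 7 5 (by decide +kernel)
  omega

theorem e_cs_8_0 (u : Tab 8 9 7) (h : Same zz u) : u 1 8 0 + u 5 8 0 = 1 := by
  have h0 := h.2.2 8 0
  rw [show ∑ i, zz i 8 0 = 1 by decide +kernel, Fin.sum_univ_eight] at h0
  have a0 := hzero u h 0 8 0 (by decide +kernel)
  have a1 := hzero u h 2 8 0 (by decide +kernel)
  have a2 := hzero u h 3 8 0 (by decide +kernel)
  have a3 := hzero u h 4 8 0 (by decide +kernel)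
  have a4 := hzero u h 6 8 0 (by decide +kernel)
  have a5 := hzero u h 7 8 0 (by decide +kernel)
  omega

theorem e_cs_8_6 (u : Tab 8 9 7) (h : Same zz u) : u 1 8 6 + u 5 8 6 = 1 := by
  have h0 := h.2.2 8 6
  rw [show ∑ i, zz i 8 6 = 1 by decide +kernel, Fin.sum_univ_eight] at h0
  have a0 := hzero u h 0 8 6 (by decide +kernel)
  have a1 := hzero u h 2 8 6 (by decide +kernel)
  have a2 := hzero u h 3 8 6 (by decide +kernel)
  have a3 := hzero u h 4 8 6 (by decide +kernel)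
  have a4 := hzero u h 6 8 6 (by decide +kernel)
  have a5 := hzero u h 7 8 6 (by decide +kernel)
  omega

theorem e_rc_0_2 (u : Tab 8 9 7) (h : Same zz u) : u 0 2 0 + u 0 2 1 + u 0 2 2 = 1 := by
  have h0 := h.1 0 2
  rw [show ∑ k, zz 0 2 k = 1 by decide +kernel, Fin.sum_univ_seven] at h0
  have a0 := hzero u h 0 2 3 (by decide +kernel)
  have a1 := hzero u h 0 2 4 (by decide +kernel)
  have a2 := hzero u h 0 2 5 (by decide +kernel)
  have a3 := hzero u h 0 2 6 (by decide +kernel)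
  omega

theorem e_rc_0_4 (u : Tab 8 9 7) (h : Same zz u) : u 0 4 0 + u 0 4 1 + u 0 4 4 = 1 := by
  have h0 := h.1 0 4
  rw [show ∑ k, zz 0 4 k = 1 by decide +kernel, Fin.sum_univ_seven] at h0
  have a0 := hzero u h 0 4 2 (by decide +kernel)
  have a1 := hzero u h 0 4 3 (by decide +kernel)
  have a2 := hzero u h 0 4 5 (by decide +kernel)
  have a3 := hzero u h 0 4 6 (by decide +kernel)
  omega

theorem e_rc_0_5 (u : Tab 8 9 7) (h : Same zz u) : u 0 5 0 + u 0 5 2 + u 0 5 4 = 1 := by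
  have h0 := h.1 0 5
  rw [show ∑ k, zz 0 5 k = 1 by decide +kernel, Fin.sum_univ_seven] at h0
  have a0 := hzero u h 0 5 1 (by decide +kernel)
  have a1 := hzero u h 0 5 3 (by decide +kernel)
  have a2 := hzero u h 0 5 5 (by decide +kernel)
  have a3 := hzero u h 0 5 6 (by decide +kernel)
  omega

theorem e_rc_0_6 (u : Tab 8 9 7) (h : Same zz u) : u 0 6 1 + u 0 6 4 = 1 := by
  have h0 := h.1 0 6
  rw [show ∑ k, zz 0 6 k = 1 by decide +kernel, Fin.sum_univ_seven] at h0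
  have a0 := hzero u h 0 6 0 (by decide +kernel)
  have a1 := hzero u h 0 6 2 (by decide +kernel)
  have a2 := hzero u h 0 6 3 (by decide +kernel)
  have a3 := hzero u h 0 6 5 (by decide +kernel)
  have a4 := hzero u h 0 6 6 (by decide +kernel)
  omega

theorem e_rc_1_0 (u : Tab 8 9 7) (h : Same zz u) : u 1 0 0 + u 1 0 2 = 1 := by
  have h0 := h.1 1 0
  rw [show ∑ k, zz 1 0 k = 1 by decide +kernel, Fin.sum_univ_seven] at h0
  have a0 := hzero u h 1 0 1 (by decide +kernel)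
  have a1 := hzero u h 1 0 3 (by decide +kernel)
  have a2 := hzero u h 1 0 4 (by decide +kernel)
  have a3 := hzero u h 1 0 5 (by decide +kernel)
  have a4 := hzero u h 1 0 6 (by decide +kernel)
  omega

theorem e_rc_1_1 (u : Tab 8 9 7) (h : Same zz u) : u 1 1 2 + u 1 1 6 = 1 := by
  have h0 := h.1 1 1
  rw [show ∑ k, zz 1 1 k = 1 by decide +kernel, Fin.sum_univ_seven] at h0
  have a0 := hzero u h 1 1 0 (by decide +kernel)
  have a1 := hzero u h 1 1 1 (by decide +kernel)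
  have a2 := hzero u h 1 1 3 (by decide +kernel)
  have a3 := hzero u h 1 1 4 (by decide +kernel)
  have a4 := hzero u h 1 1 5 (by decide +kernel)
  omega

theorem e_rc_1_8 (u : Tab 8 9 7) (h : Same zz u) : u 1 8 0 + u 1 8 6 = 1 := by
  have h0 := h.1 1 8
  rw [show ∑ k, zz 1 8 k = 1 by decide +kernel, Fin.sum_univ_seven] at h0
  have a0 := hzero u h 1 8 1 (by decide +kernel)
  have a1 := hzero u h 1 8 2 (by decide +kernel)
  have a2 := hzero u h 1 8 3 (by decide +kernel)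
  have a3 := hzero u h 1 8 4 (by decide +kernel)
  have a4 := hzero u h 1 8 5 (by decide +kernel)
  omega

theorem e_rc_2_1 (u : Tab 8 9 7) (h : Same zz u) : u 2 1 1 + u 2 1 2 = 1 := by
  have h0 := h.1 2 1
  rw [show ∑ k, zz 2 1 k = 1 by decide +kernel, Fin.sum_univ_seven] at h0
  have a0 := hzero u h 2 1 0 (by decide +kernel)
  have a1 := hzero u h 2 1 3 (by decide +kernel)
  have a2 := hzero u h 2 1 4 (by decide +kernel)
  have a3 := hzero u h 2 1 5 (by decide +kernel)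
  have a4 := hzero u h 2 1 6 (by decide +kernel)
  omega

theorem e_rc_2_2 (u : Tab 8 9 7) (h : Same zz u) : u 2 2 1 + u 2 2 2 = 1 := by
  have h0 := h.1 2 2
  rw [show ∑ k, zz 2 2 k = 1 by decide +kernel, Fin.sum_univ_seven] at h0
  have a0 := hzero u h 2 2 0 (by decide +kernel)
  have a1 := hzero u h 2 2 3 (by decide +kernel)
  have a2 := hzero u h 2 2 4 (by decide +kernel)
  have a3 := hzero u h 2 2 5 (by decide +kernel)
  have a4 := hzero u h 2 2 6 (by decide +kernel)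
  omega

theorem e_rc_3_2 (u : Tab 8 9 7) (h : Same zz u) : u 3 2 1 + u 3 2 3 = 1 := by
  have h0 := h.1 3 2
  rw [show ∑ k, zz 3 2 k = 1 by decide +kernel, Fin.sum_univ_seven] at h0
  have a0 := hzero u h 3 2 0 (by decide +kernel)
  have a1 := hzero u h 3 2 2 (by decide +kernel)
  have a2 := hzero u h 3 2 4 (by decide +kernel)
  have a3 := hzero u h 3 2 5 (by decide +kernel)
  have a4 := hzero u h 3 2 6 (by decide +kernel)
  omega

theorem e_rc_3_3 (u : Tab 8 9 7) (h : Same zz u) : u 3 3 3 + u 3 3 4 = 1 := by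
  have h0 := h.1 3 3
  rw [show ∑ k, zz 3 3 k = 1 by decide +kernel, Fin.sum_univ_seven] at h0
  have a0 := hzero u h 3 3 0 (by decide +kernel)
  have a1 := hzero u h 3 3 1 (by decide +kernel)
  have a2 := hzero u h 3 3 2 (by decide +kernel)
  have a3 := hzero u h 3 3 5 (by decide +kernel)
  have a4 := hzero u h 3 3 6 (by decide +kernel)
  omega

theorem e_rc_3_4 (u : Tab 8 9 7) (h : Same zz u) : u 3 4 1 + u 3 4 4 = 1 := by
  have h0 := h.1 3 4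
  rw [show ∑ k, zz 3 4 k = 1 by decide +kernel, Fin.sum_univ_seven] at h0
  have a0 := hzero u h 3 4 0 (by decide +kernel)
  have a1 := hzero u h 3 4 2 (by decide +kernel)
  have a2 := hzero u h 3 4 3 (by decide +kernel)
  have a3 := hzero u h 3 4 5 (by decide +kernel)
  have a4 := hzero u h 3 4 6 (by decide +kernel)
  omega

theorem e_rc_4_2 (u : Tab 8 9 7) (h : Same zz u) : u 4 2 0 + u 4 2 3 = 1 := by
  have h0 := h.1 4 2
  rw [show ∑ k, zz 4 2 k = 1 by decide +kernel, Fin.sum_univ_seven] at h0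
  have a0 := hzero u h 4 2 1 (by decide +kernel)
  have a1 := hzero u h 4 2 2 (by decide +kernel)
  have a2 := hzero u h 4 2 4 (by decide +kernel)
  have a3 := hzero u h 4 2 5 (by decide +kernel)
  have a4 := hzero u h 4 2 6 (by decide +kernel)
  omega

theorem e_rc_4_5 (u : Tab 8 9 7) (h : Same zz u) : u 4 5 0 + u 4 5 3 + u 4 5 4 = 1 := by
  have h0 := h.1 4 5
  rw [show ∑ k, zz 4 5 k = 1 by decide +kernel, Fin.sum_univ_seven] at h0
  have a0 := hzero u h 4 5 1 (by decide +kernel)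
  have a1 := hzero u h 4 5 2 (by decide +kernel)
  have a2 := hzero u h 4 5 5 (by decide +kernel)
  have a3 := hzero u h 4 5 6 (by decide +kernel)
  omega

theorem e_rc_4_6 (u : Tab 8 9 7) (h : Same zz u) : u 4 6 4 + u 4 6 5 = 1 := by
  have h0 := h.1 4 6
  rw [show ∑ k, zz 4 6 k = 1 by decide +kernel, Fin.sum_univ_seven] at h0
  have a0 := hzero u h 4 6 0 (by decide +kernel)
  have a1 := hzero u h 4 6 1 (by decide +kernel)
  have a2 := hzero u h 4 6 2 (by decide +kernel)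
  have a3 := hzero u h 4 6 3 (by decide +kernel)
  have a4 := hzero u h 4 6 6 (by decide +kernel)
  omega

theorem e_rc_4_7 (u : Tab 8 9 7) (h : Same zz u) : u 4 7 0 + u 4 7 5 = 1 := by
  have h0 := h.1 4 7
  rw [show ∑ k, zz 4 7 k = 1 by decide +kernel, Fin.sum_univ_seven] at h0
  have a0 := hzero u h 4 7 1 (by decide +kernel)
  have a1 := hzero u h 4 7 2 (by decide +kernel)
  have a2 := hzero u h 4 7 3 (by decide +kernel)
  have a3 := hzero u h 4 7 4 (by decide +kernel)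
  have a4 := hzero u h 4 7 6 (by decide +kernel)
  omega

theorem e_rc_5_1 (u : Tab 8 9 7) (h : Same zz u) : u 5 1 1 + u 5 1 6 = 1 := by
  have h0 := h.1 5 1
  rw [show ∑ k, zz 5 1 k = 1 by decide +kernel, Fin.sum_univ_seven] at h0
  have a0 := hzero u h 5 1 0 (by decide +kernel)
  have a1 := hzero u h 5 1 2 (by decide +kernel)
  have a2 := hzero u h 5 1 3 (by decide +kernel)
  have a3 := hzero u h 5 1 4 (by decide +kernel)
  have a4 := hzero u h 5 1 5 (by decide +kernel)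
  omega

theorem e_rc_5_3 (u : Tab 8 9 7) (h : Same zz u) : u 5 3 3 + u 5 3 4 = 1 := by
  have h0 := h.1 5 3
  rw [show ∑ k, zz 5 3 k = 1 by decide +kernel, Fin.sum_univ_seven] at h0
  have a0 := hzero u h 5 3 0 (by decide +kernel)
  have a1 := hzero u h 5 3 1 (by decide +kernel)
  have a2 := hzero u h 5 3 2 (by decide +kernel)
  have a3 := hzero u h 5 3 5 (by decide +kernel)
  have a4 := hzero u h 5 3 6 (by decide +kernel)
  omega

theorem e_rc_5_4 (u : Tab 8 9 7) (h : Same zz u) : u 5 4 0 + u 5 4 1 + u 5 4 4 + u 5 4 5 = 1 := by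
  have h0 := h.1 5 4
  rw [show ∑ k, zz 5 4 k = 1 by decide +kernel, Fin.sum_univ_seven] at h0
  have a0 := hzero u h 5 4 2 (by decide +kernel)
  have a1 := hzero u h 5 4 3 (by decide +kernel)
  have a2 := hzero u h 5 4 6 (by decide +kernel)
  omega

theorem e_rc_5_5 (u : Tab 8 9 7) (h : Same zz u) : u 5 5 0 + u 5 5 3 + u 5 5 4 = 1 := by
  have h0 := h.1 5 5
  rw [show ∑ k, zz 5 5 k = 1 by decide +kernel, Fin.sum_univ_seven] at h0
  have a0 := hzero u h 5 5 1 (by decide +kernel)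
  have a1 := hzero u h 5 5 2 (by decide +kernel)
  have a2 := hzero u h 5 5 5 (by decide +kernel)
  have a3 := hzero u h 5 5 6 (by decide +kernel)
  omega

theorem e_rc_5_6 (u : Tab 8 9 7) (h : Same zz u) : u 5 6 1 + u 5 6 4 + u 5 6 5 = 1 := by
  have h0 := h.1 5 6
  rw [show ∑ k, zz 5 6 k = 1 by decide +kernel, Fin.sum_univ_seven] at h0
  have a0 := hzero u h 5 6 0 (by decide +kernel)
  have a1 := hzero u h 5 6 2 (by decide +kernel)
  have a2 := hzero u h 5 6 3 (by decide +kernel)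
  have a3 := hzero u h 5 6 6 (by decide +kernel)
  omega

theorem e_rc_5_8 (u : Tab 8 9 7) (h : Same zz u) : u 5 8 0 + u 5 8 6 = 1 := by
  have h0 := h.1 5 8
  rw [show ∑ k, zz 5 8 k = 1 by decide +kernel, Fin.sum_univ_seven] at h0
  have a0 := hzero u h 5 8 1 (by decide +kernel)
  have a1 := hzero u h 5 8 2 (by decide +kernel)
  have a2 := hzero u h 5 8 3 (by decide +kernel)
  have a3 := hzero u h 5 8 4 (by decide +kernel)
  have a4 := hzero u h 5 8 5 (by decide +kernel)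
  omega

theorem e_rc_6_0 (u : Tab 8 9 7) (h : Same zz u) : u 6 0 0 + u 6 0 2 = 1 := by
  have h0 := h.1 6 0
  rw [show ∑ k, zz 6 0 k = 1 by decide +kernel, Fin.sum_univ_seven] at h0
  have a0 := hzero u h 6 0 1 (by decide +kernel)
  have a1 := hzero u h 6 0 3 (by decide +kernel)
  have a2 := hzero u h 6 0 4 (by decide +kernel)
  have a3 := hzero u h 6 0 5 (by decide +kernel)
  have a4 := hzero u h 6 0 6 (by decide +kernel)
  omega

theorem e_rc_6_5 (u : Tab 8 9 7) (h : Same zz u) : u 6 5 0 + u 6 5 2 = 1 := by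
  have h0 := h.1 6 5
  rw [show ∑ k, zz 6 5 k = 1 by decide +kernel, Fin.sum_univ_seven] at h0
  have a0 := hzero u h 6 5 1 (by decide +kernel)
  have a1 := hzero u h 6 5 3 (by decide +kernel)
  have a2 := hzero u h 6 5 4 (by decide +kernel)
  have a3 := hzero u h 6 5 5 (by decide +kernel)
  have a4 := hzero u h 6 5 6 (by decide +kernel)
  omega

theorem e_rc_7_4 (u : Tab 8 9 7) (h : Same zz u) : u 7 4 0 + u 7 4 5 = 1 := by
  have h0 := h.1 7 4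
  rw [show ∑ k, zz 7 4 k = 1 by decide +kernel, Fin.sum_univ_seven] at h0
  have a0 := hzero u h 7 4 1 (by decide +kernel)
  have a1 := hzero u h 7 4 2 (by decide +kernel)
  have a2 := hzero u h 7 4 3 (by decide +kernel)
  have a3 := hzero u h 7 4 4 (by decide +kernel)
  have a4 := hzero u h 7 4 6 (by decide +kernel)
  omega

theorem e_rc_7_7 (u : Tab 8 9 7) (h : Same zz u) : u 7 7 0 + u 7 7 5 = 1 := by
  have h0 := h.1 7 7
  rw [show ∑ k, zz 7 7 k = 1 by decide +kernel, Fin.sum_univ_seven] at h0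
  have a0 := hzero u h 7 7 1 (by decide +kernel)
  have a1 := hzero u h 7 7 2 (by decide +kernel)
  have a2 := hzero u h 7 7 3 (by decide +kernel)
  have a3 := hzero u h 7 7 4 (by decide +kernel)
  have a4 := hzero u h 7 7 6 (by decide +kernel)
  omega

theorem e_rs_0_0 (u : Tab 8 9 7) (h : Same zz u) : u 0 2 0 + u 0 4 0 + u 0 5 0 = 1 := by
  have h0 := h.2.1 0 0
  rw [show ∑ j, zz 0 j 0 = 1 by decide +kernel, sum9] at h0
  have a0 := hzero u h 0 0 0 (by decide +kernel)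
  have a1 := hzero u h 0 1 0 (by decide +kernel)
  have a2 := hzero u h 0 3 0 (by decide +kernel)
  have a3 := hzero u h 0 6 0 (by decide +kernel)
  have a4 := hzero u h 0 7 0 (by decide +kernel)
  have a5 := hzero u h 0 8 0 (by decide +kernel)
  omega

theorem e_rs_0_1 (u : Tab 8 9 7) (h : Same zz u) : u 0 2 1 + u 0 4 1 + u 0 6 1 = 1 := by
  have h0 := h.2.1 0 1
  rw [show ∑ j, zz 0 j 1 = 1 by decide +kernel, sum9] at h0
  have a0 := hzero u h 0 0 1 (by decide +kernel)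
  have a1 := hzero u h 0 1 1 (by decide +kernel)
  have a2 := hzero u h 0 3 1 (by decide +kernel)
  have a3 := hzero u h 0 5 1 (by decide +kernel)
  have a4 := hzero u h 0 7 1 (by decide +kernel)
  have a5 := hzero u h 0 8 1 (by decide +kernel)
  omega

theorem e_rs_0_2 (u : Tab 8 9 7) (h : Same zz u) : u 0 2 2 + u 0 5 2 = 1 := by
  have h0 := h.2.1 0 2
  rw [show ∑ j, zz 0 j 2 = 1 by decide +kernel, sum9] at h0
  have a0 := hzero u h 0 0 2 (by decide +kernel)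
  have a1 := hzero u h 0 1 2 (by decide +kernel)
  have a2 := hzero u h 0 3 2 (by decide +kernel)
  have a3 := hzero u h 0 4 2 (by decide +kernel)
  have a4 := hzero u h 0 6 2 (by decide +kernel)
  have a5 := hzero u h 0 7 2 (by decide +kernel)
  have a6 := hzero u h 0 8 2 (by decide +kernel)
  omega

theorem e_rs_0_4 (u : Tab 8 9 7) (h : Same zz u) : u 0 4 4 + u 0 5 4 + u 0 6 4 = 1 := by
  have h0 := h.2.1 0 4
  rw [show ∑ j, zz 0 j 4 = 1 by decide +kernel, sum9] at h0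
  have a0 := hzero u h 0 0 4 (by decide +kernel)
  have a1 := hzero u h 0 1 4 (by decide +kernel)
  have a2 := hzero u h 0 2 4 (by decide +kernel)
  have a3 := hzero u h 0 3 4 (by decide +kernel)
  have a4 := hzero u h 0 7 4 (by decide +kernel)
  have a5 := hzero u h 0 8 4 (by decide +kernel)
  omega

theorem e_rs_1_0 (u : Tab 8 9 7) (h : Same zz u) : u 1 0 0 + u 1 8 0 = 1 := by
  have h0 := h.2.1 1 0
  rw [show ∑ j, zz 1 j 0 = 1 by decide +kernel, sum9] at h0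
  have a0 := hzero u h 1 1 0 (by decide +kernel)
  have a1 := hzero u h 1 2 0 (by decide +kernel)
  have a2 := hzero u h 1 3 0 (by decide +kernel)
  have a3 := hzero u h 1 4 0 (by decide +kernel)
  have a4 := hzero u h 1 5 0 (by decide +kernel)
  have a5 := hzero u h 1 6 0 (by decide +kernel)
  have a6 := hzero u h 1 7 0 (by decide +kernel)
  omega

theorem e_rs_1_2 (u : Tab 8 9 7) (h : Same zz u) : u 1 0 2 + u 1 1 2 = 1 := by
  have h0 := h.2.1 1 2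
  rw [show ∑ j, zz 1 j 2 = 1 by decide +kernel, sum9] at h0
  have a0 := hzero u h 1 2 2 (by decide +kernel)
  have a1 := hzero u h 1 3 2 (by decide +kernel)
  have a2 := hzero u h 1 4 2 (by decide +kernel)
  have a3 := hzero u h 1 5 2 (by decide +kernel)
  have a4 := hzero u h 1 6 2 (by decide +kernel)
  have a5 := hzero u h 1 7 2 (by decide +kernel)
  have a6 := hzero u h 1 8 2 (by decide +kernel)
  omega

theorem e_rs_1_6 (u : Tab 8 9 7) (h : Same zz u) : u 1 1 6 + u 1 8 6 = 1 := by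
  have h0 := h.2.1 1 6
  rw [show ∑ j, zz 1 j 6 = 1 by decide +kernel, sum9] at h0
  have a0 := hzero u h 1 0 6 (by decide +kernel)
  have a1 := hzero u h 1 2 6 (by decide +kernel)
  have a2 := hzero u h 1 3 6 (by decide +kernel)
  have a3 := hzero u h 1 4 6 (by decide +kernel)
  have a4 := hzero u h 1 5 6 (by decide +kernel)
  have a5 := hzero u h 1 6 6 (by decide +kernel)
  have a6 := hzero u h 1 7 6 (by decide +kernel)
  omega

theorem e_rs_2_1 (u : Tab 8 9 7) (h : Same zz u) : u 2 1 1 + u 2 2 1 = 1 := by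
  have h0 := h.2.1 2 1
  rw [show ∑ j, zz 2 j 1 = 1 by decide +kernel, sum9] at h0
  have a0 := hzero u h 2 0 1 (by decide +kernel)
  have a1 := hzero u h 2 3 1 (by decide +kernel)
  have a2 := hzero u h 2 4 1 (by decide +kernel)
  have a3 := hzero u h 2 5 1 (by decide +kernel)
  have a4 := hzero u h 2 6 1 (by decide +kernel)
  have a5 := hzero u h 2 7 1 (by decide +kernel)
  have a6 := hzero u h 2 8 1 (by decide +kernel)
  omega

theorem e_rs_2_2 (u : Tab 8 9 7) (h : Same zz u) : u 2 1 2 + u 2 2 2 = 1 := by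
  have h0 := h.2.1 2 2
  rw [show ∑ j, zz 2 j 2 = 1 by decide +kernel, sum9] at h0
  have a0 := hzero u h 2 0 2 (by decide +kernel)
  have a1 := hzero u h 2 3 2 (by decide +kernel)
  have a2 := hzero u h 2 4 2 (by decide +kernel)
  have a3 := hzero u h 2 5 2 (by decide +kernel)
  have a4 := hzero u h 2 6 2 (by decide +kernel)
  have a5 := hzero u h 2 7 2 (by decide +kernel)
  have a6 := hzero u h 2 8 2 (by decide +kernel)
  omega

theorem e_rs_3_1 (u : Tab 8 9 7) (h : Same zz u) : u 3 2 1 + u 3 4 1 = 1 := by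
  have h0 := h.2.1 3 1
  rw [show ∑ j, zz 3 j 1 = 1 by decide +kernel, sum9] at h0
  have a0 := hzero u h 3 0 1 (by decide +kernel)
  have a1 := hzero u h 3 1 1 (by decide +kernel)
  have a2 := hzero u h 3 3 1 (by decide +kernel)
  have a3 := hzero u h 3 5 1 (by decide +kernel)
  have a4 := hzero u h 3 6 1 (by decide +kernel)
  have a5 := hzero u h 3 7 1 (by decide +kernel)
  have a6 := hzero u h 3 8 1 (by decide +kernel)
  omega

theorem e_rs_3_3 (u : Tab 8 9 7) (h : Same zz u) : u 3 2 3 + u 3 3 3 = 1 := by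
  have h0 := h.2.1 3 3
  rw [show ∑ j, zz 3 j 3 = 1 by decide +kernel, sum9] at h0
  have a0 := hzero u h 3 0 3 (by decide +kernel)
  have a1 := hzero u h 3 1 3 (by decide +kernel)
  have a2 := hzero u h 3 4 3 (by decide +kernel)
  have a3 := hzero u h 3 5 3 (by decide +kernel)
  have a4 := hzero u h 3 6 3 (by decide +kernel)
  have a5 := hzero u h 3 7 3 (by decide +kernel)
  have a6 := hzero u h 3 8 3 (by decide +kernel)
  omega

theorem e_rs_3_4 (u : Tab 8 9 7) (h : Same zz u) : u 3 3 4 + u 3 4 4 = 1 := by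
  have h0 := h.2.1 3 4
  rw [show ∑ j, zz 3 j 4 = 1 by decide +kernel, sum9] at h0
  have a0 := hzero u h 3 0 4 (by decide +kernel)
  have a1 := hzero u h 3 1 4 (by decide +kernel)
  have a2 := hzero u h 3 2 4 (by decide +kernel)
  have a3 := hzero u h 3 5 4 (by decide +kernel)
  have a4 := hzero u h 3 6 4 (by decide +kernel)
  have a5 := hzero u h 3 7 4 (by decide +kernel)
  have a6 := hzero u h 3 8 4 (by decide +kernel)
  omega

theorem e_rs_4_0 (u : Tab 8 9 7) (h : Same zz u) : u 4 2 0 + u 4 5 0 + u 4 7 0 = 1 := by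
  have h0 := h.2.1 4 0
  rw [show ∑ j, zz 4 j 0 = 1 by decide +kernel, sum9] at h0
  have a0 := hzero u h 4 0 0 (by decide +kernel)
  have a1 := hzero u h 4 1 0 (by decide +kernel)
  have a2 := hzero u h 4 3 0 (by decide +kernel)
  have a3 := hzero u h 4 4 0 (by decide +kernel)
  have a4 := hzero u h 4 6 0 (by decide +kernel)
  have a5 := hzero u h 4 8 0 (by decide +kernel)
  omega

theorem e_rs_4_3 (u : Tab 8 9 7) (h : Same zz u) : u 4 2 3 + u 4 5 3 = 1 := by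
  have h0 := h.2.1 4 3
  rw [show ∑ j, zz 4 j 3 = 1 by decide +kernel, sum9] at h0
  have a0 := hzero u h 4 0 3 (by decide +kernel)
  have a1 := hzero u h 4 1 3 (by decide +kernel)
  have a2 := hzero u h 4 3 3 (by decide +kernel)
  have a3 := hzero u h 4 4 3 (by decide +kernel)
  have a4 := hzero u h 4 6 3 (by decide +kernel)
  have a5 := hzero u h 4 7 3 (by decide +kernel)
  have a6 := hzero u h 4 8 3 (by decide +kernel)
  omega

theorem e_rs_4_4 (u : Tab 8 9 7) (h : Same zz u) : u 4 5 4 + u 4 6 4 = 1 := by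
  have h0 := h.2.1 4 4
  rw [show ∑ j, zz 4 j 4 = 1 by decide +kernel, sum9] at h0
  have a0 := hzero u h 4 0 4 (by decide +kernel)
  have a1 := hzero u h 4 1 4 (by decide +kernel)
  have a2 := hzero u h 4 2 4 (by decide +kernel)
  have a3 := hzero u h 4 3 4 (by decide +kernel)
  have a4 := hzero u h 4 4 4 (by decide +kernel)
  have a5 := hzero u h 4 7 4 (by decide +kernel)
  have a6 := hzero u h 4 8 4 (by decide +kernel)
  omega

theorem e_rs_4_5 (u : Tab 8 9 7) (h : Same zz u) : u 4 6 5 + u 4 7 5 = 1 := by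
  have h0 := h.2.1 4 5
  rw [show ∑ j, zz 4 j 5 = 1 by decide +kernel, sum9] at h0
  have a0 := hzero u h 4 0 5 (by decide +kernel)
  have a1 := hzero u h 4 1 5 (by decide +kernel)
  have a2 := hzero u h 4 2 5 (by decide +kernel)
  have a3 := hzero u h 4 3 5 (by decide +kernel)
  have a4 := hzero u h 4 4 5 (by decide +kernel)
  have a5 := hzero u h 4 5 5 (by decide +kernel)
  have a6 := hzero u h 4 8 5 (by decide +kernel)
  omega

theorem e_rs_5_0 (u : Tab 8 9 7) (h : Same zz u) : u 5 4 0 + u 5 5 0 + u 5 8 0 = 1 := by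
  have h0 := h.2.1 5 0
  rw [show ∑ j, zz 5 j 0 = 1 by decide +kernel, sum9] at h0
  have a0 := hzero u h 5 0 0 (by decide +kernel)
  have a1 := hzero u h 5 1 0 (by decide +kernel)
  have a2 := hzero u h 5 2 0 (by decide +kernel)
  have a3 := hzero u h 5 3 0 (by decide +kernel)
  have a4 := hzero u h 5 6 0 (by decide +kernel)
  have a5 := hzero u h 5 7 0 (by decide +kernel)
  omega

theorem e_rs_5_1 (u : Tab 8 9 7) (h : Same zz u) : u 5 1 1 + u 5 4 1 + u 5 6 1 = 1 := by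
  have h0 := h.2.1 5 1
  rw [show ∑ j, zz 5 j 1 = 1 by decide +kernel, sum9] at h0
  have a0 := hzero u h 5 0 1 (by decide +kernel)
  have a1 := hzero u h 5 2 1 (by decide +kernel)
  have a2 := hzero u h 5 3 1 (by decide +kernel)
  have a3 := hzero u h 5 5 1 (by decide +kernel)
  have a4 := hzero u h 5 7 1 (by decide +kernel)
  have a5 := hzero u h 5 8 1 (by decide +kernel)
  omega

theorem e_rs_5_3 (u : Tab 8 9 7) (h : Same zz u) : u 5 3 3 + u 5 5 3 = 1 := by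
  have h0 := h.2.1 5 3
  rw [show ∑ j, zz 5 j 3 = 1 by decide +kernel, sum9] at h0
  have a0 := hzero u h 5 0 3 (by decide +kernel)
  have a1 := hzero u h 5 1 3 (by decide +kernel)
  have a2 := hzero u h 5 2 3 (by decide +kernel)
  have a3 := hzero u h 5 4 3 (by decide +kernel)
  have a4 := hzero u h 5 6 3 (by decide +kernel)
  have a5 := hzero u h 5 7 3 (by decide +kernel)
  have a6 := hzero u h 5 8 3 (by decide +kernel)
  omega

theorem e_rs_5_4 (u : Tab 8 9 7) (h : Same zz u) : u 5 3 4 + u 5 4 4 + u 5 5 4 + u 5 6 4 = 1 := by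
  have h0 := h.2.1 5 4
  rw [show ∑ j, zz 5 j 4 = 1 by decide +kernel, sum9] at h0
  have a0 := hzero u h 5 0 4 (by decide +kernel)
  have a1 := hzero u h 5 1 4 (by decide +kernel)
  have a2 := hzero u h 5 2 4 (by decide +kernel)
  have a3 := hzero u h 5 7 4 (by decide +kernel)
  have a4 := hzero u h 5 8 4 (by decide +kernel)
  omega

theorem e_rs_5_5 (u : Tab 8 9 7) (h : Same zz u) : u 5 4 5 + u 5 6 5 = 1 := by
  have h0 := h.2.1 5 5
  rw [show ∑ j, zz 5 j 5 = 1 by decide +kernel, sum9] at h0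
  have a0 := hzero u h 5 0 5 (by decide +kernel)
  have a1 := hzero u h 5 1 5 (by decide +kernel)
  have a2 := hzero u h 5 2 5 (by decide +kernel)
  have a3 := hzero u h 5 3 5 (by decide +kernel)
  have a4 := hzero u h 5 5 5 (by decide +kernel)
  have a5 := hzero u h 5 7 5 (by decide +kernel)
  have a6 := hzero u h 5 8 5 (by decide +kernel)
  omega

theorem e_rs_5_6 (u : Tab 8 9 7) (h : Same zz u) : u 5 1 6 + u 5 8 6 = 1 := by
  have h0 := h.2.1 5 6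
  rw [show ∑ j, zz 5 j 6 = 1 by decide +kernel, sum9] at h0
  have a0 := hzero u h 5 0 6 (by decide +kernel)
  have a1 := hzero u h 5 2 6 (by decide +kernel)
  have a2 := hzero u h 5 3 6 (by decide +kernel)
  have a3 := hzero u h 5 4 6 (by decide +kernel)
  have a4 := hzero u h 5 5 6 (by decide +kernel)
  have a5 := hzero u h 5 6 6 (by decide +kernel)
  have a6 := hzero u h 5 7 6 (by decide +kernel)
  omega

theorem e_rs_6_0 (u : Tab 8 9 7) (h : Same zz u) : u 6 0 0 + u 6 5 0 = 1 := by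
  have h0 := h.2.1 6 0
  rw [show ∑ j, zz 6 j 0 = 1 by decide +kernel, sum9] at h0
  have a0 := hzero u h 6 1 0 (by decide +kernel)
  have a1 := hzero u h 6 2 0 (by decide +kernel)
  have a2 := hzero u h 6 3 0 (by decide +kernel)
  have a3 := hzero u h 6 4 0 (by decide +kernel)
  have a4 := hzero u h 6 6 0 (by decide +kernel)
  have a5 := hzero u h 6 7 0 (by decide +kernel)
  have a6 := hzero u h 6 8 0 (by decide +kernel)
  omega

theorem e_rs_6_2 (u : Tab 8 9 7) (h : Same zz u) : u 6 0 2 + u 6 5 2 = 1 := by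
  have h0 := h.2.1 6 2
  rw [show ∑ j, zz 6 j 2 = 1 by decide +kernel, sum9] at h0
  have a0 := hzero u h 6 1 2 (by decide +kernel)
  have a1 := hzero u h 6 2 2 (by decide +kernel)
  have a2 := hzero u h 6 3 2 (by decide +kernel)
  have a3 := hzero u h 6 4 2 (by decide +kernel)
  have a4 := hzero u h 6 6 2 (by decide +kernel)
  have a5 := hzero u h 6 7 2 (by decide +kernel)
  have a6 := hzero u h 6 8 2 (by decide +kernel)
  omega

theorem e_rs_7_0 (u : Tab 8 9 7) (h : Same zz u) : u 7 4 0 + u 7 7 0 = 1 := by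
  have h0 := h.2.1 7 0
  rw [show ∑ j, zz 7 j 0 = 1 by decide +kernel, sum9] at h0
  have a0 := hzero u h 7 0 0 (by decide +kernel)
  have a1 := hzero u h 7 1 0 (by decide +kernel)
  have a2 := hzero u h 7 2 0 (by decide +kernel)
  have a3 := hzero u h 7 3 0 (by decide +kernel)
  have a4 := hzero u h 7 5 0 (by decide +kernel)
  have a5 := hzero u h 7 6 0 (by decide +kernel)
  have a6 := hzero u h 7 8 0 (by decide +kernel)
  omega

theorem e_rs_7_5 (u : Tab 8 9 7) (h : Same zz u) : u 7 4 5 + u 7 7 5 = 1 := by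
  have h0 := h.2.1 7 5
  rw [show ∑ j, zz 7 j 5 = 1 by decide +kernel, sum9] at h0
  have a0 := hzero u h 7 0 5 (by decide +kernel)
  have a1 := hzero u h 7 1 5 (by decide +kernel)
  have a2 := hzero u h 7 2 5 (by decide +kernel)
  have a3 := hzero u h 7 3 5 (by decide +kernel)
  have a4 := hzero u h 7 5 5 (by decide +kernel)
  have a5 := hzero u h 7 6 5 (by decide +kernel)
  have a6 := hzero u h 7 8 5 (by decide +kernel)
  omega

theorem vals (u : Tab 8 9 7) (h : Same zz u) :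
    (u 0 2 0 = 1 ∧ u 0 2 1 = 0 ∧ u 0 2 2 = 0 ∧ u 0 4 0 = 0 ∧ u 0 4 1 = 1 ∧ u 0 4 4 = 0 ∧ u 0 5 0 = 0 ∧ u 0 5 2 = 1 ∧ u 0 5 4 = 0 ∧ u 0 6 1 = 0 ∧ u 0 6 4 = 1 ∧ u 1 0 0 = 1 ∧ u 1 0 2 = 0 ∧ u 1 1 2 = 1 ∧ u 1 1 6 = 0 ∧ u 1 8 0 = 0 ∧ u 1 8 6 = 1 ∧ u 2 1 1 = 1 ∧ u 2 1 2 = 0 ∧ u 2 2 1 = 0 ∧ u 2 2 2 = 1 ∧ u 3 2 1 = 1 ∧ u 3 2 3 = 0 ∧ u 3 3 3 = 1 ∧ u 3 3 4 = 0 ∧ u 3 4 1 = 0 ∧ u 3 4 4 = 1 ∧ u 4 2 0 = 0 ∧ u 4 2 3 = 1 ∧ u 4 5 0 = 0 ∧ u 4 5 3 = 0 ∧ u 4 5 4 = 1 ∧ u 4 6 4 = 0 ∧ u 4 6 5 = 1 ∧ u 4 7 0 = 1 ∧ u 4 7 5 = 0 ∧ u 5 1 1 = 0 ∧ u 5 1 6 = 1 ∧ u 5 3 3 = 0 ∧ u 5 3 4 = 1 ∧ u 5 4 0 = 0 ∧ u 5 4 1 = 0 ∧ u 5 4 4 = 0 ∧ u 5 4 5 = 1 ∧ u 5 5 0 = 0 ∧ u 5 5 3 = 1 ∧ u 5 5 4 = 0 ∧ u 5 6 1 = 1 ∧ u 5 6 4 = 0 ∧ u 5 6 5 = 0 ∧ u 5 8 0 = 1 ∧ u 5 8 6 = 0 ∧ u 6 0 0 = 0 ∧ u 6 0 2 = 1 ∧ u 6 5 0 = 1 ∧ u 6 5 2 = 0 ∧ u 7 4 0 = 1 ∧ u 7 4 5 = 0 ∧ u 7 7 0 = 0 ∧ u 7 7 5 = 1) ∨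
    (u 0 2 0 = 0 ∧ u 0 2 1 = 0 ∧ u 0 2 2 = 1 ∧ u 0 4 0 = 0 ∧ u 0 4 1 = 0 ∧ u 0 4 4 = 1 ∧ u 0 5 0 = 1 ∧ u 0 5 2 = 0 ∧ u 0 5 4 = 0 ∧ u 0 6 1 = 1 ∧ u 0 6 4 = 0 ∧ u 1 0 0 = 0 ∧ u 1 0 2 = 1 ∧ u 1 1 2 = 0 ∧ u 1 1 6 = 1 ∧ u 1 8 0 = 1 ∧ u 1 8 6 = 0 ∧ u 2 1 1 = 0 ∧ u 2 1 2 = 1 ∧ u 2 2 1 = 1 ∧ u 2 2 2 = 0 ∧ u 3 2 1 = 0 ∧ u 3 2 3 = 1 ∧ u 3 3 3 = 0 ∧ u 3 3 4 = 1 ∧ u 3 4 1 = 1 ∧ u 3 4 4 = 0 ∧ u 4 2 0 = 1 ∧ u 4 2 3 = 0 ∧ u 4 5 0 = 0 ∧ u 4 5 3 = 1 ∧ u 4 5 4 = 0 ∧ u 4 6 4 = 1 ∧ u 4 6 5 = 0 ∧ u 4 7 0 = 0 ∧ u 4 7 5 = 1 ∧ u 5 1 1 = 1 ∧ u 5 1 6 = 0 ∧ u 5 3 3 = 1 ∧ u 5 3 4 = 0 ∧ u 5 4 0 = 1 ∧ u 5 4 1 = 0 ∧ u 5 4 4 = 0 ∧ u 5 4 5 = 0 ∧ u 5 5 0 = 0 ∧ u 5 5 3 = 0 ∧ u 5 5 4 = 1 ∧ u 5 6 1 = 0 ∧ u 5 6 4 = 0 ∧ u 5 6 5 = 1 ∧ u 5 8 0 = 0 ∧ u 5 8 6 = 1 ∧ u 6 0 0 = 1 ∧ u 6 0 2 = 0 ∧ u 6 5 0 = 0 ∧ u 6 5 2 = 1 ∧ u 7 4 0 = 0 ∧ u 7 4 5 = 1 ∧ u 7 7 0 = 1 ∧ u 7 7 5 = 0) ∨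
    (u 0 2 0 = 0 ∧ u 0 2 1 = 0 ∧ u 0 2 2 = 1 ∧ u 0 4 0 = 1 ∧ u 0 4 1 = 0 ∧ u 0 4 4 = 0 ∧ u 0 5 0 = 0 ∧ u 0 5 2 = 0 ∧ u 0 5 4 = 1 ∧ u 0 6 1 = 1 ∧ u 0 6 4 = 0 ∧ u 1 0 0 = 0 ∧ u 1 0 2 = 1 ∧ u 1 1 2 = 0 ∧ u 1 1 6 = 1 ∧ u 1 8 0 = 1 ∧ u 1 8 6 = 0 ∧ u 2 1 1 = 0 ∧ u 2 1 2 = 1 ∧ u 2 2 1 = 1 ∧ u 2 2 2 = 0 ∧ u 3 2 1 = 0 ∧ u 3 2 3 = 1 ∧ u 3 3 3 = 0 ∧ u 3 3 4 = 1 ∧ u 3 4 1 = 1 ∧ u 3 4 4 = 0 ∧ u 4 2 0 = 1 ∧ u 4 2 3 = 0 ∧ u 4 5 0 = 0 ∧ u 4 5 3 = 1 ∧ u 4 5 4 = 0 ∧ u 4 6 4 = 1 ∧ u 4 6 5 = 0 ∧ u 4 7 0 = 0 ∧ u 4 7 5 = 1 ∧ u 5 1 1 = 1 ∧ u 5 1 6 = 0 ∧ u 5 3 3 = 1 ∧ u 5 3 4 = 0 ∧ u 5 4 0 = 0 ∧ u 5 4 1 = 0 ∧ u 5 4 4 = 1 ∧ u 5 4 5 = 0 ∧ u 5 5 0 = 1 ∧ u 5 5 3 = 0 ∧ u 5 5 4 = 0 ∧ u 5 6 1 = 0 ∧ u 5 6 4 = 0 ∧ u 5 6 5 = 1 ∧ u 5 8 0 = 0 ∧ u 5 8 6 = 1 ∧ u 6 0 0 = 1 ∧ u 6 0 2 = 0 ∧ u 6 5 0 = 0 ∧ u 6 5 2 = 1 ∧ u 7 4 0 = 0 ∧ u 7 4 5 = 1 ∧ u 7 7 0 = 1 ∧ u 7 7 5 = 0) := by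
  have e_cs_0_0 := e_cs_0_0 u h
  have e_cs_0_2 := e_cs_0_2 u h
  have e_cs_1_1 := e_cs_1_1 u h
  have e_cs_1_2 := e_cs_1_2 u h
  have e_cs_1_6 := e_cs_1_6 u h
  have e_cs_2_0 := e_cs_2_0 u h
  have e_cs_2_1 := e_cs_2_1 u h
  have e_cs_2_2 := e_cs_2_2 u h
  have e_cs_2_3 := e_cs_2_3 u h
  have e_cs_3_3 := e_cs_3_3 u h
  have e_cs_3_4 := e_cs_3_4 u h
  have e_cs_4_0 := e_cs_4_0 u h
  have e_cs_4_1 := e_cs_4_1 u h
  have e_cs_4_4 := e_cs_4_4 u h
  have e_cs_4_5 := e_cs_4_5 u h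
  have e_cs_5_0 := e_cs_5_0 u h
  have e_cs_5_2 := e_cs_5_2 u h
  have e_cs_5_3 := e_cs_5_3 u h
  have e_cs_5_4 := e_cs_5_4 u h
  have e_cs_6_1 := e_cs_6_1 u h
  have e_cs_6_4 := e_cs_6_4 u h
  have e_cs_6_5 := e_cs_6_5 u h
  have e_cs_7_0 := e_cs_7_0 u h
  have e_cs_7_5 := e_cs_7_5 u h
  have e_cs_8_0 := e_cs_8_0 u h
  have e_cs_8_6 := e_cs_8_6 u h
  have e_rc_0_2 := e_rc_0_2 u h
  have e_rc_0_4 := e_rc_0_4 u h
  have e_rc_0_5 := e_rc_0_5 u h
  have e_rc_0_6 := e_rc_0_6 u h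
  have e_rc_1_0 := e_rc_1_0 u h
  have e_rc_1_1 := e_rc_1_1 u h
  have e_rc_1_8 := e_rc_1_8 u h
  have e_rc_2_1 := e_rc_2_1 u h
  have e_rc_2_2 := e_rc_2_2 u h
  have e_rc_3_2 := e_rc_3_2 u h
  have e_rc_3_3 := e_rc_3_3 u h
  have e_rc_3_4 := e_rc_3_4 u h
  have e_rc_4_2 := e_rc_4_2 u h
  have e_rc_4_5 := e_rc_4_5 u h
  have e_rc_4_6 := e_rc_4_6 u h
  have e_rc_4_7 := e_rc_4_7 u h
  have e_rc_5_1 := e_rc_5_1 u h
  have e_rc_5_3 := e_rc_5_3 u h
  have e_rc_5_4 := e_rc_5_4 u h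
  have e_rc_5_5 := e_rc_5_5 u h
  have e_rc_5_6 := e_rc_5_6 u h
  have e_rc_5_8 := e_rc_5_8 u h
  have e_rc_6_0 := e_rc_6_0 u h
  have e_rc_6_5 := e_rc_6_5 u h
  have e_rc_7_4 := e_rc_7_4 u h
  have e_rc_7_7 := e_rc_7_7 u h
  have e_rs_0_0 := e_rs_0_0 u h
  have e_rs_0_1 := e_rs_0_1 u h
  have e_rs_0_2 := e_rs_0_2 u h
  have e_rs_0_4 := e_rs_0_4 u h
  have e_rs_1_0 := e_rs_1_0 u h
  have e_rs_1_2 := e_rs_1_2 u h
  have e_rs_1_6 := e_rs_1_6 u h
  have e_rs_2_1 := e_rs_2_1 u h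
  have e_rs_2_2 := e_rs_2_2 u h
  have e_rs_3_1 := e_rs_3_1 u h
  have e_rs_3_3 := e_rs_3_3 u h
  have e_rs_3_4 := e_rs_3_4 u h
  have e_rs_4_0 := e_rs_4_0 u h
  have e_rs_4_3 := e_rs_4_3 u h
  have e_rs_4_4 := e_rs_4_4 u h
  have e_rs_4_5 := e_rs_4_5 u h
  have e_rs_5_0 := e_rs_5_0 u h
  have e_rs_5_1 := e_rs_5_1 u h
  have e_rs_5_3 := e_rs_5_3 u h
  have e_rs_5_4 := e_rs_5_4 u h
  have e_rs_5_5 := e_rs_5_5 u h
  have e_rs_5_6 := e_rs_5_6 u h
  have e_rs_6_0 := e_rs_6_0 u h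
  have e_rs_6_2 := e_rs_6_2 u h
  have e_rs_7_0 := e_rs_7_0 u h
  have e_rs_7_5 := e_rs_7_5 u h
  rcases (show u 0 2 0 = 0 ∨ u 0 2 0 = 1 by clear * - e_rc_0_2; omega) with v020 | v020
  · have v420 : u 4 2 0 = 1 := by clear * - e_cs_2_0 v020; omega
    have v423 : u 4 2 3 = 0 := by clear * - e_rc_4_2 v420; omega
    have v450 : u 4 5 0 = 0 := by clear * - e_rs_4_0 v420; omega
    have v470 : u 4 7 0 = 0 := by clear * - e_rs_4_0 v420; omega
    have v453 : u 4 5 3 = 1 := by clear * - e_rs_4_3 v423; omega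
    have v323 : u 3 2 3 = 1 := by clear * - e_cs_2_3 v423; omega
    have v553 : u 5 5 3 = 0 := by clear * - e_cs_5_3 v453; omega
    have v770 : u 7 7 0 = 1 := by clear * - e_cs_7_0 v470; omega
    have v321 : u 3 2 1 = 0 := by clear * - e_rc_3_2 v323; omega
    have v454 : u 4 5 4 = 0 := by clear * - e_rc_4_5 v453; omega
    have v475 : u 4 7 5 = 1 := by clear * - e_rc_4_7 v470; omega
    have v775 : u 7 7 5 = 0 := by clear * - e_rc_7_7 v770; omega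
    have v341 : u 3 4 1 = 1 := by clear * - e_rs_3_1 v321; omega
    have v333 : u 3 3 3 = 0 := by clear * - e_rs_3_3 v323; omega
    have v464 : u 4 6 4 = 1 := by clear * - e_rs_4_4 v454; omega
    have v465 : u 4 6 5 = 0 := by clear * - e_rs_4_5 v475; omega
    have v533 : u 5 3 3 = 1 := by clear * - e_rs_5_3 v553; omega
    have v740 : u 7 4 0 = 0 := by clear * - e_rs_7_0 v770; omega
    have v745 : u 7 4 5 = 1 := by clear * - e_rs_7_5 v775; omega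
    have v041 : u 0 4 1 = 0 := by clear * - e_cs_4_1 v341; omega
    have v541 : u 5 4 1 = 0 := by clear * - e_cs_4_1 v341; omega
    have v545 : u 5 4 5 = 0 := by clear * - e_cs_4_5 v745; omega
    have v064 : u 0 6 4 = 0 := by clear * - e_cs_6_4 v464; omega
    have v564 : u 5 6 4 = 0 := by clear * - e_cs_6_4 v464; omega
    have v565 : u 5 6 5 = 1 := by clear * - e_cs_6_5 v465; omega
    have v061 : u 0 6 1 = 1 := by clear * - e_rc_0_6 v064; omega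
    have v334 : u 3 3 4 = 1 := by clear * - e_rc_3_3 v333; omega
    have v344 : u 3 4 4 = 0 := by clear * - e_rc_3_4 v341; omega
    have v534 : u 5 3 4 = 0 := by clear * - e_rc_5_3 v533; omega
    have v561 : u 5 6 1 = 0 := by clear * - e_rc_5_6 v565; omega
    have v021 : u 0 2 1 = 0 := by clear * - e_rs_0_1 v061; omega
    have v511 : u 5 1 1 = 1 := by clear * - e_rs_5_1 v541 v561; omega
    have v211 : u 2 1 1 = 0 := by clear * - e_cs_1_1 v511; omega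
    have v221 : u 2 2 1 = 1 := by clear * - e_cs_2_1 v021 v321; omega
    have v022 : u 0 2 2 = 1 := by clear * - e_rc_0_2 v020 v021; omega
    have v212 : u 2 1 2 = 1 := by clear * - e_rc_2_1 v211; omega
    have v222 : u 2 2 2 = 0 := by clear * - e_rc_2_2 v221; omega
    have v516 : u 5 1 6 = 0 := by clear * - e_rc_5_1 v511; omega
    have v052 : u 0 5 2 = 0 := by clear * - e_rs_0_2 v022; omega
    have v586 : u 5 8 6 = 1 := by clear * - e_rs_5_6 v516; omega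
    have v112 : u 1 1 2 = 0 := by clear * - e_cs_1_2 v212; omega
    have v116 : u 1 1 6 = 1 := by clear * - e_cs_1_6 v516; omega
    have v652 : u 6 5 2 = 1 := by clear * - e_cs_5_2 v052; omega
    have v186 : u 1 8 6 = 0 := by clear * - e_cs_8_6 v586; omega
    have v180 : u 1 8 0 = 1 := by clear * - e_rc_1_8 v186; omega
    have v580 : u 5 8 0 = 0 := by clear * - e_rc_5_8 v586; omega
    have v650 : u 6 5 0 = 0 := by clear * - e_rc_6_5 v652; omega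
    have v100 : u 1 0 0 = 0 := by clear * - e_rs_1_0 v180; omega
    have v102 : u 1 0 2 = 1 := by clear * - e_rs_1_2 v112; omega
    have v600 : u 6 0 0 = 1 := by clear * - e_rs_6_0 v650; omega
    have v602 : u 6 0 2 = 0 := by clear * - e_rs_6_2 v652; omega
    rcases (show u 0 4 0 = 0 ∨ u 0 4 0 = 1 by clear * - e_rc_0_4; omega) with v040 | v040
    · have v540 : u 5 4 0 = 1 := by clear * - e_cs_4_0 v040 v740; omega
      have v044 : u 0 4 4 = 1 := by clear * - e_rc_0_4 v040 v041; omega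
      have v544 : u 5 4 4 = 0 := by clear * - e_rc_5_4 v540; omega
      have v050 : u 0 5 0 = 1 := by clear * - e_rs_0_0 v020 v040; omega
      have v054 : u 0 5 4 = 0 := by clear * - e_rs_0_4 v044; omega
      have v550 : u 5 5 0 = 0 := by clear * - e_rs_5_0 v540; omega
      have v554 : u 5 5 4 = 1 := by clear * - e_rs_5_4 v534 v544 v564; omega
      exact Or.inr (Or.inl ⟨v020, v021, v022, v040, v041, v044, v050, v052, v054, v061, v064, v100, v102, v112, v116, v180, v186, v211, v212, v221, v222, v321, v323, v333, v334, v341, v344, v420, v423, v450, v453, v454, v464, v465, v470, v475, v511, v516, v533, v534, v540, v541, v544, v545, v550, v553, v554, v561, v564, v565, v580, v586, v600, v602, v650, v652, v740, v745, v770, v775⟩)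
    · have v540 : u 5 4 0 = 0 := by clear * - e_cs_4_0 v040; omega
      have v044 : u 0 4 4 = 0 := by clear * - e_rc_0_4 v040; omega
      have v544 : u 5 4 4 = 1 := by clear * - e_rc_5_4 v540 v541 v545; omega
      have v050 : u 0 5 0 = 0 := by clear * - e_rs_0_0 v040; omega
      have v054 : u 0 5 4 = 1 := by clear * - e_rs_0_4 v044 v064; omega
      have v550 : u 5 5 0 = 1 := by clear * - e_rs_5_0 v540 v580; omega
      have v554 : u 5 5 4 = 0 := by clear * - e_rs_5_4 v544; omega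
      exact Or.inr (Or.inr ⟨v020, v021, v022, v040, v041, v044, v050, v052, v054, v061, v064, v100, v102, v112, v116, v180, v186, v211, v212, v221, v222, v321, v323, v333, v334, v341, v344, v420, v423, v450, v453, v454, v464, v465, v470, v475, v511, v516, v533, v534, v540, v541, v544, v545, v550, v553, v554, v561, v564, v565, v580, v586, v600, v602, v650, v652, v740, v745, v770, v775⟩)
  · have v420 : u 4 2 0 = 0 := by clear * - e_cs_2_0 v020; omega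
    have v021 : u 0 2 1 = 0 := by clear * - e_rc_0_2 v020; omega
    have v022 : u 0 2 2 = 0 := by clear * - e_rc_0_2 v020; omega
    have v423 : u 4 2 3 = 1 := by clear * - e_rc_4_2 v420; omega
    have v040 : u 0 4 0 = 0 := by clear * - e_rs_0_0 v020; omega
    have v050 : u 0 5 0 = 0 := by clear * - e_rs_0_0 v020; omega
    have v052 : u 0 5 2 = 1 := by clear * - e_rs_0_2 v022; omega
    have v453 : u 4 5 3 = 0 := by clear * - e_rs_4_3 v423; omega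
    have v222 : u 2 2 2 = 1 := by clear * - e_cs_2_2 v022; omega
    have v323 : u 3 2 3 = 0 := by clear * - e_cs_2_3 v423; omega
    have v652 : u 6 5 2 = 0 := by clear * - e_cs_5_2 v052; omega
    have v553 : u 5 5 3 = 1 := by clear * - e_cs_5_3 v453; omega
    have v054 : u 0 5 4 = 0 := by clear * - e_rc_0_5 v052; omega
    have v221 : u 2 2 1 = 0 := by clear * - e_rc_2_2 v222; omega
    have v321 : u 3 2 1 = 1 := by clear * - e_rc_3_2 v323; omega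
    have v550 : u 5 5 0 = 0 := by clear * - e_rc_5_5 v553; omega
    have v554 : u 5 5 4 = 0 := by clear * - e_rc_5_5 v553; omega
    have v650 : u 6 5 0 = 1 := by clear * - e_rc_6_5 v652; omega
    have v211 : u 2 1 1 = 1 := by clear * - e_rs_2_1 v221; omega
    have v212 : u 2 1 2 = 0 := by clear * - e_rs_2_2 v222; omega
    have v341 : u 3 4 1 = 0 := by clear * - e_rs_3_1 v321; omega
    have v333 : u 3 3 3 = 1 := by clear * - e_rs_3_3 v323; omega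
    have v533 : u 5 3 3 = 0 := by clear * - e_rs_5_3 v553; omega
    have v600 : u 6 0 0 = 0 := by clear * - e_rs_6_0 v650; omega
    have v602 : u 6 0 2 = 1 := by clear * - e_rs_6_2 v652; omega
    have v100 : u 1 0 0 = 1 := by clear * - e_cs_0_0 v600; omega
    have v102 : u 1 0 2 = 0 := by clear * - e_cs_0_2 v602; omega
    have v511 : u 5 1 1 = 0 := by clear * - e_cs_1_1 v211; omega
    have v112 : u 1 1 2 = 1 := by clear * - e_cs_1_2 v212; omega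
    have v450 : u 4 5 0 = 0 := by clear * - e_cs_5_0 v650; omega
    have v454 : u 4 5 4 = 1 := by clear * - e_cs_5_4 v054 v554; omega
    have v116 : u 1 1 6 = 0 := by clear * - e_rc_1_1 v112; omega
    have v334 : u 3 3 4 = 0 := by clear * - e_rc_3_3 v333; omega
    have v344 : u 3 4 4 = 1 := by clear * - e_rc_3_4 v341; omega
    have v516 : u 5 1 6 = 1 := by clear * - e_rc_5_1 v511; omega
    have v534 : u 5 3 4 = 1 := by clear * - e_rc_5_3 v533; omega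
    have v180 : u 1 8 0 = 0 := by clear * - e_rs_1_0 v100; omega
    have v186 : u 1 8 6 = 1 := by clear * - e_rs_1_6 v116; omega
    have v470 : u 4 7 0 = 1 := by clear * - e_rs_4_0 v420 v450; omega
    have v464 : u 4 6 4 = 0 := by clear * - e_rs_4_4 v454; omega
    have v544 : u 5 4 4 = 0 := by clear * - e_rs_5_4 v534; omega
    have v564 : u 5 6 4 = 0 := by clear * - e_rs_5_4 v534; omega
    have v586 : u 5 8 6 = 0 := by clear * - e_rs_5_6 v516; omega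
    have v044 : u 0 4 4 = 0 := by clear * - e_cs_4_4 v344; omega
    have v064 : u 0 6 4 = 1 := by clear * - e_cs_6_4 v464 v564; omega
    have v770 : u 7 7 0 = 0 := by clear * - e_cs_7_0 v470; omega
    have v580 : u 5 8 0 = 1 := by clear * - e_cs_8_0 v180; omega
    have v041 : u 0 4 1 = 1 := by clear * - e_rc_0_4 v040 v044; omega
    have v061 : u 0 6 1 = 0 := by clear * - e_rc_0_6 v064; omega
    have v465 : u 4 6 5 = 1 := by clear * - e_rc_4_6 v464; omega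
    have v475 : u 4 7 5 = 0 := by clear * - e_rc_4_7 v470; omega
    have v775 : u 7 7 5 = 1 := by clear * - e_rc_7_7 v770; omega
    have v540 : u 5 4 0 = 0 := by clear * - e_rs_5_0 v580; omega
    have v740 : u 7 4 0 = 1 := by clear * - e_rs_7_0 v770; omega
    have v745 : u 7 4 5 = 0 := by clear * - e_rs_7_5 v775; omega
    have v541 : u 5 4 1 = 0 := by clear * - e_cs_4_1 v041; omega
    have v545 : u 5 4 5 = 1 := by clear * - e_cs_4_5 v745; omega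
    have v561 : u 5 6 1 = 1 := by clear * - e_cs_6_1 v061; omega
    have v565 : u 5 6 5 = 0 := by clear * - e_cs_6_5 v465; omega
    exact Or.inl ⟨v020, v021, v022, v040, v041, v044, v050, v052, v054, v061, v064, v100, v102, v112, v116, v180, v186, v211, v212, v221, v222, v321, v323, v333, v334, v341, v344, v420, v423, v450, v453, v454, v464, v465, v470, v475, v511, v516, v533, v534, v540, v541, v544, v545, v550, v553, v554, v561, v564, v565, v580, v586, v600, v602, v650, v652, v740, v745, v770, v775⟩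

theorem tcases : ∀ (i : Fin 8) (j : Fin 9) (k : Fin 7), tt i j k = 0 ∨ (i, j, k) ∈
    ([(0, 2, 0), (0, 2, 1), (0, 2, 2), (0, 4, 0), (0, 4, 1), (0, 4, 4), (0, 5, 0), (0, 5, 2), (0, 5, 4), (0, 6, 1), (0, 6, 4), (1, 0, 0), (1, 0, 2), (1, 1, 2), (1, 1, 6), (1, 8, 0), (1, 8, 6), (2, 1, 1), (2, 1, 2), (2, 2, 1), (2, 2, 2), (3, 2, 1), (3, 2, 3), (3, 3, 3), (3, 3, 4), (3, 4, 1), (3, 4, 4), (4, 2, 0), (4, 2, 3), (4, 5, 0), (4, 5, 3), (4, 5, 4), (4, 6, 4), (4, 6, 5), (4, 7, 0), (4, 7, 5), (5, 1, 1), (5, 1, 6), (5, 3, 3), (5, 3, 4), (5, 4, 0), (5, 4, 1), (5, 4, 4), (5, 4, 5), (5, 5, 0), (5, 5, 3), (5, 5, 4), (5, 6, 1), (5, 6, 4), (5, 6, 5), (5, 8, 0), (5, 8, 6), (6, 0, 0), (6, 0, 2), (6, 5, 0), (6, 5, 2), (7, 4, 0), (7, 4, 5), (7, 7, 0), (7, 7, 5)] : List (Fin 8 × Fin 9 × Fin 7)) := by decide +kernel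

theorem eq_zz (u : Tab 8 9 7) (h : Same zz u)
    (hv : u 0 2 0 = 1 ∧ u 0 2 1 = 0 ∧ u 0 2 2 = 0 ∧ u 0 4 0 = 0 ∧ u 0 4 1 = 1 ∧ u 0 4 4 = 0 ∧ u 0 5 0 = 0 ∧ u 0 5 2 = 1 ∧ u 0 5 4 = 0 ∧ u 0 6 1 = 0 ∧ u 0 6 4 = 1 ∧ u 1 0 0 = 1 ∧ u 1 0 2 = 0 ∧ u 1 1 2 = 1 ∧ u 1 1 6 = 0 ∧ u 1 8 0 = 0 ∧ u 1 8 6 = 1 ∧ u 2 1 1 = 1 ∧ u 2 1 2 = 0 ∧ u 2 2 1 = 0 ∧ u 2 2 2 = 1 ∧ u 3 2 1 = 1 ∧ u 3 2 3 = 0 ∧ u 3 3 3 = 1 ∧ u 3 3 4 = 0 ∧ u 3 4 1 = 0 ∧ u 3 4 4 = 1 ∧ u 4 2 0 = 0 ∧ u 4 2 3 = 1 ∧ u 4 5 0 = 0 ∧ u 4 5 3 = 0 ∧ u 4 5 4 = 1 ∧ u 4 6 4 = 0 ∧ u 4 6 5 = 1 ∧ u 4 7 0 = 1 ∧ u 4 7 5 = 0 ∧ u 5 1 1 = 0 ∧ u 5 1 6 = 1 ∧ u 5 3 3 = 0 ∧ u 5 3 4 = 1 ∧ u 5 4 0 = 0 ∧ u 5 4 1 = 0 ∧ u 5 4 4 = 0 ∧ u 5 4 5 = 1 ∧ u 5 5 0 = 0 ∧ u 5 5 3 = 1 ∧ u 5 5 4 = 0 ∧ u 5 6 1 = 1 ∧ u 5 6 4 = 0 ∧ u 5 6 5 = 0 ∧ u 5 8 0 = 1 ∧ u 5 8 6 = 0 ∧ u 6 0 0 = 0 ∧ u 6 0 2 = 1 ∧ u 6 5 0 = 1 ∧ u 6 5 2 = 0 ∧ u 7 4 0 = 1 ∧ u 7 4 5 = 0 ∧ u 7 7 0 = 0 ∧ u 7 7 5 = 1) :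 u = zz := by
  obtain ⟨v020, v021, v022, v040, v041, v044, v050, v052, v054, v061, v064, v100, v102, v112, v116, v180, v186, v211, v212, v221, v222, v321, v323, v333, v334, v341, v344, v420, v423, v450, v453, v454, v464, v465, v470, v475, v511, v516, v533, v534, v540, v541, v544, v545, v550, v553, v554, v561, v564, v565, v580, v586, v600, v602, v650, v652, v740, v745, v770, v775⟩ := hv
  funext i j k
  rcases tcases i j k with h0 | h0
  · rw [hzero u h i j k h0, (sub_cert i j k h0).1]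
  · simp only [List.mem_cons, Prod.mk.injEq, List.not_mem_nil, or_false] at h0
    rcases h0 with ⟨rfl, rfl, rfl⟩ | ⟨rfl, rfl, rfl⟩ | ⟨rfl, rfl, rfl⟩ | ⟨rfl, rfl, rfl⟩ | ⟨rfl, rfl, rfl⟩ | ⟨rfl, rfl, rfl⟩ | ⟨rfl, rfl, rfl⟩ | ⟨rfl, rfl, rfl⟩ | ⟨rfl, rfl, rfl⟩ | ⟨rfl, rfl, rfl⟩ | ⟨rfl, rfl, rfl⟩ | ⟨rfl, rfl, rfl⟩ | ⟨rfl, rfl, rfl⟩ | ⟨rfl, rfl, rfl⟩ | ⟨rfl, rfl, rfl⟩ | ⟨rfl, rfl, rfl⟩ | ⟨rfl, rfl, rfl⟩ | ⟨rfl, rfl, rfl⟩ | ⟨rfl, rfl, rfl⟩ | ⟨rfl, rfl, rfl⟩ | ⟨rfl, rfl, rfl⟩ | ⟨rfl, rfl, rfl⟩ | ⟨rfl, rfl, rfl⟩ | ⟨rfl, rfl, rfl⟩ | ⟨rfl, rfl, rfl⟩ | ⟨rfl, rfl, rfl⟩ | ⟨rfl, rfl, rfl⟩ | ⟨rfl, rfl, rfl⟩ | ⟨rfl, rfl, rfl⟩ | ⟨rfl, rfl, rfl⟩ | ⟨rfl, rfl, rfl⟩ | ⟨rfl, rfl, rfl⟩ | ⟨rfl, rfl, rfl⟩ | ⟨rfl, rfl, rfl⟩ | ⟨rfl, rfl, rfl⟩ | ⟨rfl, rfl, rfl⟩ | ⟨rfl, rfl, rfl⟩ | ⟨rfl, rfl, rfl⟩ | ⟨rfl, rfl, rfl⟩ | ⟨rfl, rfl, rfl⟩ | ⟨rfl, rfl, rfl⟩ | ⟨rfl, rfl, rfl⟩ | ⟨rfl, rfl, rfl⟩ | ⟨rfl, rfl, rfl⟩ | ⟨rfl, rfl,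 rfl⟩ | ⟨rfl, rfl, rfl⟩ | ⟨rfl, rfl, rfl⟩ | ⟨rfl, rfl, rfl⟩ | ⟨rfl, rfl, rfl⟩ | ⟨rfl, rfl, rfl⟩ | ⟨rfl, rfl, rfl⟩ | ⟨rfl, rfl, rfl⟩ | ⟨rfl, rfl, rfl⟩ | ⟨rfl, rfl, rfl⟩ | ⟨rfl, rfl, rfl⟩ | ⟨rfl, rfl, rfl⟩ | ⟨rfl, rfl, rfl⟩ | ⟨rfl, rfl, rfl⟩ | ⟨rfl, rfl, rfl⟩ | ⟨rfl, rfl, rfl⟩
    · rw [v020]; decide +kernel
    · rw [v021]; decide +kernel
    · rw [v022]; decide +kernel
    · rw [v040]; decide +kernel
    · rw [v041]; decide +kernel
    · rw [v044]; decide +kernel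
    · rw [v050]; decide +kernel
    · rw [v052]; decide +kernel
    · rw [v054]; decide +kernel
    · rw [v061]; decide +kernel
    · rw [v064]; decide +kernel
    · rw [v100]; decide +kernel
    · rw [v102]; decide +kernel
    · rw [v112]; decide +kernel
    · rw [v116]; decide +kernel
    · rw [v180]; decide +kernel
    · rw [v186]; decide +kernel
    · rw [v211]; decide +kernel
    · rw [v212]; decide +kernel
    · rw [v221]; decide +kernel
    · rw [v222]; decide +kernel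
    · rw [v321]; decide +kernel
    · rw [v323]; decide +kernel
    · rw [v333]; decide +kernel
    · rw [v334]; decide +kernel
    · rw [v341]; decide +kernel
    · rw [v344]; decide +kernel
    · rw [v420]; decide +kernel
    · rw [v423]; decide +kernel
    · rw [v450]; decide +kernel
    · rw [v453]; decide +kernel
    · rw [v454]; decide +kernel
    · rw [v464]; decide +kernel
    · rw [v465]; decide +kernel
    · rw [v470]; decide +kernel
    · rw [v475]; decide +kernel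
    · rw [v511]; decide +kernel
    · rw [v516]; decide +kernel
    · rw [v533]; decide +kernel
    · rw [v534]; decide +kernel
    · rw [v540]; decide +kernel
    · rw [v541]; decide +kernel
    · rw [v544]; decide +kernel
    · rw [v545]; decide +kernel
    · rw [v550]; decide +kernel
    · rw [v553]; decide +kernel
    · rw [v554]; decide +kernel
    · rw [v561]; decide +kernel
    · rw [v564]; decide +kernel
    · rw [v565]; decide +kernel
    · rw [v580]; decide +kernel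
    · rw [v586]; decide +kernel
    · rw [v600]; decide +kernel
    · rw [v602]; decide +kernel
    · rw [v650]; decide +kernel
    · rw [v652]; decide +kernel
    · rw [v740]; decide +kernel
    · rw [v745]; decide +kernel
    · rw [v770]; decide +kernel
    · rw [v775]; decide +kernel

theorem eq_xx (u : Tab 8 9 7) (h : Same zz u)
    (hv : u 0 2 0 = 0 ∧ u 0 2 1 = 0 ∧ u 0 2 2 = 1 ∧ u 0 4 0 = 0 ∧ u 0 4 1 = 0 ∧ u 0 4 4 = 1 ∧ u 0 5 0 = 1 ∧ u 0 5 2 = 0 ∧ u 0 5 4 = 0 ∧ u 0 6 1 = 1 ∧ u 0 6 4 = 0 ∧ u 1 0 0 = 0 ∧ u 1 0 2 = 1 ∧ u 1 1 2 = 0 ∧ u 1 1 6 = 1 ∧ u 1 8 0 = 1 ∧ u 1 8 6 = 0 ∧ u 2 1 1 = 0 ∧ u 2 1 2 = 1 ∧ u 2 2 1 = 1 ∧ u 2 2 2 = 0 ∧ u 3 2 1 = 0 ∧ u 3 2 3 = 1 ∧ u 3 3 3 = 0 ∧ u 3 3 4 = 1 ∧ u 3 4 1 = 1 ∧ u 3 4 4 = 0 ∧ u 4 2 0 = 1 ∧ u 4 2 3 = 0 ∧ u 4 5 0 = 0 ∧ u 4 5 3 = 1 ∧ u 4 5 4 = 0 ∧ u 4 6 4 = 1 ∧ u 4 6 5 = 0 ∧ u 4 7 0 = 0 ∧ u 4 7 5 = 1 ∧ u 5 1 1 = 1 ∧ u 5 1 6 = 0 ∧ u 5 3 3 = 1 ∧ u 5 3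 4 = 0 ∧ u 5 4 0 = 1 ∧ u 5 4 1 = 0 ∧ u 5 4 4 = 0 ∧ u 5 4 5 = 0 ∧ u 5 5 0 = 0 ∧ u 5 5 3 = 0 ∧ u 5 5 4 = 1 ∧ u 5 6 1 = 0 ∧ u 5 6 4 = 0 ∧ u 5 6 5 = 1 ∧ u 5 8 0 = 0 ∧ u 5 8 6 = 1 ∧ u 6 0 0 = 1 ∧ u 6 0 2 = 0 ∧ u 6 5 0 = 0 ∧ u 6 5 2 = 1 ∧ u 7 4 0 = 0 ∧ u 7 4 5 = 1 ∧ u 7 7 0 = 1 ∧ u 7 7 5 = 0) : u = xx := by
  obtain ⟨v020, v021, v022, v040, v041, v044, v050, v052, v054, v061, v064, v100, v102, v112, v116, v180, v186, v211, v212, v221, v222, v321, v323, v333, v334, v341, v344, v420, v423, v450, v453, v454, v464, v465, v470, v475, v511, v516, v533, v534, v540, v541, v544, v545, v550, v553, v554, v561, v564, v565, v580, v586, v600, v602, v650, v652, v740, v745, v770, v775⟩ := hv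
  funext i j k
  rcases tcases i j k with h0 | h0
  · rw [hzero u h i j k h0, (sub_cert i j k h0).2.1]
  · simp only [List.mem_cons, Prod.mk.injEq, List.not_mem_nil, or_false] at h0
    rcases h0 with ⟨rfl, rfl, rfl⟩ | ⟨rfl, rfl, rfl⟩ | ⟨rfl, rfl, rfl⟩ | ⟨rfl, rfl, rfl⟩ | ⟨rfl, rfl, rfl⟩ | ⟨rfl, rfl, rfl⟩ | ⟨rfl, rfl, rfl⟩ | ⟨rfl, rfl, rfl⟩ | ⟨rfl, rfl, rfl⟩ | ⟨rfl, rfl, rfl⟩ | ⟨rfl, rfl, rfl⟩ | ⟨rfl, rfl, rfl⟩ | ⟨rfl, rfl, rfl⟩ | ⟨rfl, rfl, rfl⟩ | ⟨rfl, rfl, rfl⟩ | ⟨rfl, rfl, rfl⟩ | ⟨rfl, rfl, rfl⟩ | ⟨rfl, rfl, rfl⟩ | ⟨rfl, rfl, rfl⟩ | ⟨rfl, rfl, rfl⟩ | ⟨rfl, rfl, rfl⟩ | ⟨rfl, rfl, rfl⟩ | ⟨rfl, rfl, rfl⟩ | ⟨rfl, rfl, rfl⟩ | ⟨rfl, rfl, rfl⟩ | ⟨rfl, rfl, rfl⟩ | ⟨rfl, rfl, rfl⟩ | ⟨rfl, rfl, rfl⟩ | ⟨rfl, rfl, rfl⟩ | ⟨rfl, rfl, rfl⟩ | ⟨rfl, rfl, rfl⟩ | ⟨rfl, rfl, rfl⟩ | ⟨rfl, rfl, rfl⟩ | ⟨rfl, rfl, rfl⟩ | ⟨rfl, rfl, rfl⟩ | ⟨rfl, rfl, rfl⟩ | ⟨rfl, rfl, rfl⟩ | ⟨rfl, rfl, rfl⟩ | ⟨rfl, rfl, rfl⟩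 | ⟨rfl, rfl, rfl⟩ | ⟨rfl, rfl, rfl⟩ | ⟨rfl, rfl, rfl⟩ | ⟨rfl, rfl, rfl⟩ | ⟨rfl, rfl, rfl⟩ | ⟨rfl, rfl, rfl⟩ | ⟨rfl, rfl, rfl⟩ | ⟨rfl, rfl, rfl⟩ | ⟨rfl, rfl, rfl⟩ | ⟨rfl, rfl, rfl⟩ | ⟨rfl, rfl, rfl⟩ | ⟨rfl, rfl, rfl⟩ | ⟨rfl, rfl, rfl⟩ | ⟨rfl, rfl, rfl⟩ | ⟨rfl, rfl, rfl⟩ | ⟨rfl, rfl, rfl⟩ | ⟨rfl, rfl, rfl⟩ | ⟨rfl, rfl, rfl⟩ | ⟨rfl, rfl, rfl⟩ | ⟨rfl, rfl, rfl⟩ | ⟨rfl, rfl, rfl⟩
    · rw [v020]; decide +kernel
    · rw [v021]; decide +kernel
    · rw [v022]; decide +kernel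
    · rw [v040]; decide +kernel
    · rw [v041]; decide +kernel
    · rw [v044]; decide +kernel
    · rw [v050]; decide +kernel
    · rw [v052]; decide +kernel
    · rw [v054]; decide +kernel
    · rw [v061]; decide +kernel
    · rw [v064]; decide +kernel
    · rw [v100]; decide +kernel
    · rw [v102]; decide +kernel
    · rw [v112]; decide +kernel
    · rw [v116]; decide +kernel
    · rw [v180]; decide +kernel
    · rw [v186]; decide +kernel
    · rw [v211]; decide +kernel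
    · rw [v212]; decide +kernel
    · rw [v221]; decide +kernel
    · rw [v222]; decide +kernel
    · rw [v321]; decide +kernel
    · rw [v323]; decide +kernel
    · rw [v333]; decide +kernel
    · rw [v334]; decide +kernel
    · rw [v341]; decide +kernel
    · rw [v344]; decide +kernel
    · rw [v420]; decide +kernel
    · rw [v423]; decide +kernel
    · rw [v450]; decide +kernel
    · rw [v453]; decide +kernel
    · rw [v454]; decide +kernel
    · rw [v464]; decide +kernel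
    · rw [v465]; decide +kernel
    · rw [v470]; decide +kernel
    · rw [v475]; decide +kernel
    · rw [v511]; decide +kernel
    · rw [v516]; decide +kernel
    · rw [v533]; decide +kernel
    · rw [v534]; decide +kernel
    · rw [v540]; decide +kernel
    · rw [v541]; decide +kernel
    · rw [v544]; decide +kernel
    · rw [v545]; decide +kernel
    · rw [v550]; decide +kernel
    · rw [v553]; decide +kernel
    · rw [v554]; decide +kernel
    · rw [v561]; decide +kernel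
    · rw [v564]; decide +kernel
    · rw [v565]; decide +kernel
    · rw [v580]; decide +kernel
    · rw [v586]; decide +kernel
    · rw [v600]; decide +kernel
    · rw [v602]; decide +kernel
    · rw [v650]; decide +kernel
    · rw [v652]; decide +kernel
    · rw [v740]; decide +kernel
    · rw [v745]; decide +kernel
    · rw [v770]; decide +kernel
    · rw [v775]; decide +kernel

theorem eq_yy (u : Tab 8 9 7) (h : Same zz u)
    (hv : u 0 2 0 = 0 ∧ u 0 2 1 = 0 ∧ u 0 2 2 = 1 ∧ u 0 4 0 = 1 ∧ u 0 4 1 = 0 ∧ u 0 4 4 = 0 ∧ u 0 5 0 = 0 ∧ u 0 5 2 = 0 ∧ u 0 5 4 = 1 ∧ u 0 6 1 = 1 ∧ u 0 6 4 = 0 ∧ u 1 0 0 = 0 ∧ u 1 0 2 = 1 ∧ u 1 1 2 = 0 ∧ u 1 1 6 = 1 ∧ u 1 8 0 = 1 ∧ u 1 8 6 = 0 ∧ u 2 1 1 = 0 ∧ u 2 1 2 = 1 ∧ u 2 2 1 = 1 ∧ u 2 2 2 = 0 ∧ u 3 2 1 = 0 ∧ u 3 2 3 = 1 ∧ u 3 3 3 = 0 ∧ u 3 3 4 = 1 ∧ u 3 4 1 = 1 ∧ u 3 4 4 = 0 ∧ u 4 2 0 = 1 ∧ u 4 2 3 = 0 ∧ u 4 5 0 = 0 ∧ u 4 5 3 = 1 ∧ u 4 5 4 = 0 ∧ u 4 6 4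 = 1 ∧ u 4 6 5 = 0 ∧ u 4 7 0 = 0 ∧ u 4 7 5 = 1 ∧ u 5 1 1 = 1 ∧ u 5 1 6 = 0 ∧ u 5 3 3 = 1 ∧ u 5 3 4 = 0 ∧ u 5 4 0 = 0 ∧ u 5 4 1 = 0 ∧ u 5 4 4 = 1 ∧ u 5 4 5 = 0 ∧ u 5 5 0 = 1 ∧ u 5 5 3 = 0 ∧ u 5 5 4 = 0 ∧ u 5 6 1 = 0 ∧ u 5 6 4 = 0 ∧ u 5 6 5 = 1 ∧ u 5 8 0 = 0 ∧ u 5 8 6 = 1 ∧ u 6 0 0 = 1 ∧ u 6 0 2 = 0 ∧ u 6 5 0 = 0 ∧ u 6 5 2 = 1 ∧ u 7 4 0 = 0 ∧ u 7 4 5 = 1 ∧ u 7 7 0 = 1 ∧ u 7 7 5 = 0) : u = yy := by
  obtain ⟨v020, v021, v022, v040, v041, v044, v050, v052, v054, v061, v064, v100, v102, v112, v116, v180, v186, v211, v212, v221, v222, v321, v323, v333, v334, v341, v344, v420, v423, v450, v453, v454, v464, v465, v470, v475, v511, v516, v533, v534, v540, v541, v544, v545, v550, v553, v554, v561, v564, v565, v580, v586, v600, v602, v650, v652, v740, v745, v770, v775⟩ := hv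
  funext i j k
  rcases tcases i j k with h0 | h0
  · rw [hzero u h i j k h0, (sub_cert i j k h0).2.2]
  · simp only [List.mem_cons, Prod.mk.injEq, List.not_mem_nil, or_false] at h0
    rcases h0 with ⟨rfl, rfl, rfl⟩ | ⟨rfl, rfl, rfl⟩ | ⟨rfl, rfl, rfl⟩ | ⟨rfl, rfl, rfl⟩ | ⟨rfl, rfl, rfl⟩ | ⟨rfl, rfl, rfl⟩ | ⟨rfl, rfl, rfl⟩ | ⟨rfl, rfl, rfl⟩ | ⟨rfl, rfl, rfl⟩ | ⟨rfl, rfl, rfl⟩ | ⟨rfl, rfl, rfl⟩ | ⟨rfl, rfl, rfl⟩ | ⟨rfl, rfl, rfl⟩ | ⟨rfl, rfl, rfl⟩ | ⟨rfl, rfl, rfl⟩ | ⟨rfl, rfl, rfl⟩ | ⟨rfl, rfl, rfl⟩ | ⟨rfl, rfl, rfl⟩ | ⟨rfl, rfl, rfl⟩ | ⟨rfl, rfl, rfl⟩ | ⟨rfl, rfl, rfl⟩ | ⟨rfl, rfl, rfl⟩ | ⟨rfl, rfl, rfl⟩ | ⟨rfl, rfl, rfl⟩ | ⟨rfl, rfl, rfl⟩ | ⟨rfl, rfl, rfl⟩ | ⟨rfl, rfl, rfl⟩ | ⟨rfl, rfl, rfl⟩ | ⟨rfl, rfl, rfl⟩ | ⟨rfl, rfl, rfl⟩ | ⟨rfl, rfl, rfl⟩ | ⟨rfl, rfl, rfl⟩ | ⟨rfl, rfl, rfl⟩ | ⟨rfl, rfl, rfl⟩ | ⟨rfl, rfl, rfl⟩ | ⟨rfl, rfl, rfl⟩ | ⟨rfl, rfl, rfl⟩ | ⟨rfl, rfl, rfl⟩ | ⟨rfl, rfl, rfl⟩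 | ⟨rfl, rfl, rfl⟩ | ⟨rfl, rfl, rfl⟩ | ⟨rfl, rfl, rfl⟩ | ⟨rfl, rfl, rfl⟩ | ⟨rfl, rfl, rfl⟩ | ⟨rfl, rfl, rfl⟩ | ⟨rfl, rfl, rfl⟩ | ⟨rfl, rfl, rfl⟩ | ⟨rfl, rfl, rfl⟩ | ⟨rfl, rfl, rfl⟩ | ⟨rfl, rfl, rfl⟩ | ⟨rfl, rfl, rfl⟩ | ⟨rfl, rfl, rfl⟩ | ⟨rfl, rfl, rfl⟩ | ⟨rfl, rfl, rfl⟩ | ⟨rfl, rfl, rfl⟩ | ⟨rfl, rfl, rfl⟩ | ⟨rfl, rfl, rfl⟩ | ⟨rfl, rfl, rfl⟩ | ⟨rfl, rfl, rfl⟩ | ⟨rfl, rfl, rfl⟩
    · rw [v020]; decide +kernel
    · rw [v021]; decide +kernel
    · rw [v022]; decide +kernel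
    · rw [v040]; decide +kernel
    · rw [v041]; decide +kernel
    · rw [v044]; decide +kernel
    · rw [v050]; decide +kernel
    · rw [v052]; decide +kernel
    · rw [v054]; decide +kernel
    · rw [v061]; decide +kernel
    · rw [v064]; decide +kernel
    · rw [v100]; decide +kernel
    · rw [v102]; decide +kernel
    · rw [v112]; decide +kernel
    · rw [v116]; decide +kernel
    · rw [v180]; decide +kernel
    · rw [v186]; decide +kernel
    · rw [v211]; decide +kernel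
    · rw [v212]; decide +kernel
    · rw [v221]; decide +kernel
    · rw [v222]; decide +kernel
    · rw [v321]; decide +kernel
    · rw [v323]; decide +kernel
    · rw [v333]; decide +kernel
    · rw [v334]; decide +kernel
    · rw [v341]; decide +kernel
    · rw [v344]; decide +kernel
    · rw [v420]; decide +kernel
    · rw [v423]; decide +kernel
    · rw [v450]; decide +kernel
    · rw [v453]; decide +kernel
    · rw [v454]; decide +kernel
    · rw [v464]; decide +kernel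
    · rw [v465]; decide +kernel
    · rw [v470]; decide +kernel
    · rw [v475]; decide +kernel
    · rw [v511]; decide +kernel
    · rw [v516]; decide +kernel
    · rw [v533]; decide +kernel
    · rw [v534]; decide +kernel
    · rw [v540]; decide +kernel
    · rw [v541]; decide +kernel
    · rw [v544]; decide +kernel
    · rw [v545]; decide +kernel
    · rw [v550]; decide +kernel
    · rw [v553]; decide +kernel
    · rw [v554]; decide +kernel
    · rw [v561]; decide +kernel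
    · rw [v564]; decide +kernel
    · rw [v565]; decide +kernel
    · rw [v580]; decide +kernel
    · rw [v586]; decide +kernel
    · rw [v600]; decide +kernel
    · rw [v602]; decide +kernel
    · rw [v650]; decide +kernel
    · rw [v652]; decide +kernel
    · rw [v740]; decide +kernel
    · rw [v745]; decide +kernel
    · rw [v770]; decide +kernel
    · rw [v775]; decide +kernel

theorem fiber (u : Tab 8 9 7) (h : Same zz u) : u = zz ∨ u = xx ∨ u = yy := by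
  rcases vals u h with hv | hv | hv
  · exact Or.inl (eq_zz u h hv)
  · exact Or.inr (Or.inl (eq_xx u h hv))
  · exact Or.inr (Or.inr (eq_yy u h hv))

theorem two : ∃ B B' : Finset (Mv 8 9 7), (MB B ∧ ∀ D, D ⊂ B → ¬ MB D) ∧
    (MB B' ∧ ∀ D, D ⊂ B' → ¬ MB D) ∧ (dif zz xx ∈ B ∨ -dif zz xx ∈ B) ∧
    ¬ (dif zz xx ∈ B' ∨ -dif zz xx ∈ B') := by
  obtain ⟨B1, hB1, p1, p2⟩ := avoid zz xx yy same_zx same_zy disj_zy
    (fun h => absurd (congrFun (congrFun (congrFun h 0) 4) 4) (by decide +kernel))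
    (fun h => absurd (congrFun (congrFun (congrFun h 0) 2) 0) (by decide +kernel))
    (fun h => absurd (congrFun (congrFun (congrFun h 0) 2) 0) (by decide +kernel))
    (fun h => absurd (congrFun (congrFun (congrFun h 0) 2) 0) (by decide +kernel))
  obtain ⟨B2, hB2, q1, q2⟩ := avoid zz yy xx same_zy same_zx disj_zx
    (fun h => absurd (congrFun (congrFun (congrFun h 0) 4) 4) (by decide +kernel))
    (fun h => absurd (congrFun (congrFun (congrFun h 0) 2) 0) (by decide +kernel))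
    (fun h => absurd (congrFun (congrFun (congrFun h 0) 2) 0) (by decide +kernel))
    (fun h => absurd (congrFun (congrFun (congrFun h 0) 2) 0) (by decide +kernel))
  obtain ⟨C1, s1, m1, n1⟩ := exists_minimal B1 hB1
  obtain ⟨C2, s2, m2, n2⟩ := exists_minimal B2 hB2
  refine ⟨C1, C2, ⟨m1, n1⟩, ⟨m2, n2⟩, ?_, ?_⟩
  · exact must zz xx yy same_zx
      (fun h => absurd (congrFun (congrFun (congrFun h 0) 2) 0) (by decide +kernel))
      fiber C1 m1 (fun h => p1 (s1 h)) (fun h => p2 (s1 h))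
  · rintro (h | h)
    · exact q1 (s2 h)
    · exact q2 (s2 h)

end Pool.Agent.H4.Markov
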