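import Pool.Agent.H11.Base1

set_option autoImplicit false

namespace Pool.Agent.H4.Mom

open Finset Pool.Agent.H11.PT

theorem digits {M : ℤ} : ∀ (H : ℕ) (D : ℕ → ℤ), (∀ s < H, |D s| < M) →
    ∑ s ∈ range H, D s * M ^ s = 0 → ∀ s < H, D s = 0 := by
  intro H
  induction H with
  | zero => intro _ _ _ s hs; omega
  | succ H ih =>
    intro D hD h s hs
    have hM : 0 < M := (abs_nonneg _).trans_lt (hD 0 (by omega))
    rw [sum_range_succ'] at h
    have e : ∑ s ∈ range H, D (s + 1) * M ^ (s + 1) = M * ∑ s ∈ range H, D (s + 1) * M ^ s := by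
      rw [mul_sum]; exact sum_congr rfl fun _ _ => by ring
    rw [e] at h
    have h0 : D 0 = 0 := Int.eq_zero_of_abs_lt_dvd
      ⟨-∑ s ∈ range H, D (s + 1) * M ^ s, by linarith⟩ (hD 0 (by omega))
    rcases s with _ | s
    · exact h0
    · refine ih (fun s => D (s + 1)) (fun s hs => hD _ (by omega)) ?_ s (by omega)
      exact (mul_eq_zero.1 (by simpa [h0] using h)).resolve_left hM.ne'

/-- a point of the moment curve written in base `M` -/
def mom (H M j : ℕ) : ℕ := ∑ s ∈ range H, j ^ s * M ^ s

theorem mom_le {H M N j : ℕ} (h : j < N) (hM : 0 < M) : mom H M j ≤ H * (N ^ H * M ^ H) := by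
  have := sum_le_card_nsmul (range H) (fun s => j ^ s * M ^ s) (N ^ H * M ^ H) fun s hs =>
    Nat.mul_le_mul ((Nat.pow_le_pow_left h.le _).trans
      (Nat.pow_le_pow_right (by omega) (mem_range.1 hs).le))
      (Nat.pow_le_pow_right hM (mem_range.1 hs).le)
  simpa [mom] using this

/-- short relations between points of the moment curve hold identically -/
theorem indep {T : Type} [Fintype T] {H C N M : ℕ} (lam : T → ℤ) (j : T → ℕ)
    (hT : Fintype.card T ≤ H) (hl : ∀ t, |lam t| ≤ C) (hj : ∀ t, j t < N) (hM : H * (C * N ^ H) < M)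
    (h : ∑ t, lam t * mom H M (j t) = 0) (w : ℕ → ℤ) : ∑ t, lam t * w (j t) = 0 := by
  classical
  have hD : ∀ s < H, ∑ t, lam t * (j t : ℤ) ^ s = 0 := by
    refine digits (M := M) H _ (fun s hs => ?_) ?_
    · have := sum_le_card_nsmul univ (fun t => |lam t * (j t : ℤ) ^ s|) (C * N ^ H) fun t _ => by
        rw [abs_mul]
        refine mul_le_mul (hl t) ?_ (abs_nonneg _) (by positivity)
        rw [abs_of_nonneg (by positivity)]
        exact_mod_cast (Nat.pow_le_pow_left (hj t).le _).trans
          (Nat.pow_le_pow_right (Nat.zero_lt_of_lt (hj t)) hs.le)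
      refine ((abs_sum_le_sum_abs _ _).trans this).trans_lt ?_
      rw [nsmul_eq_mul, card_univ]
      exact_mod_cast (Nat.mul_le_mul_right _ hT).trans_lt hM
    · rw [← h]
      simp only [mom, sum_mul, mul_sum, Nat.cast_sum, Nat.cast_mul, Nat.cast_pow]
      rw [sum_comm]
      exact sum_congr rfl fun _ _ => sum_congr rfl fun _ _ => by ring
  let q := Lagrange.interpolate (univ.image j) (fun n : ℕ => (n : ℚ)) fun n => (w n : ℚ)
  have inj : Set.InjOn (fun n : ℕ => (n : ℚ)) (univ.image j : Finset ℕ) :=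
    fun _ _ _ _ h => Nat.cast_injective h
  have hq : q.degree < H := (Lagrange.degree_interpolate_lt _ inj).trans_le
    (by exact_mod_cast card_image_le.trans hT)
  have ev : ∀ t, (w (j t) : ℚ) = ∑ s ∈ range H, q.coeff s * (j t : ℚ) ^ s := by
    intro t
    rw [← Lagrange.eval_interpolate_at_node (fun n => (w n : ℚ)) inj (mem_image_of_mem j (mem_univ t))]
    refine Polynomial.eval_eq_sum_range' ?_ _
    by_cases e : q = 0
    · have : 0 < Fintype.card T := Fintype.card_pos_iff.2 ⟨t⟩
      rw [show Lagrange.interpolate _ _ _ = 0 from e]; simp; omega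
    · exact (Polynomial.natDegree_lt_iff_degree_lt e).2 hq
  have : ∑ t, (lam t : ℚ) * w (j t) = 0 := by
    simp only [ev, mul_sum]
    rw [sum_comm]
    refine sum_eq_zero fun s hs => ?_
    have : ∑ t, (lam t : ℚ) * (j t : ℚ) ^ s = 0 := by exact_mod_cast hD s (mem_range.1 hs)
    rw [← mul_zero (q.coeff s), ← this, mul_sum]
    exact sum_congr rfl fun _ _ => by ring
  exact_mod_cast this

theorem pt_sum {α ι : Type} [Enc α] (s : Finset ι) {f : α → ι → ℕ} (h : ∀ i, PT fun x => f x i) :
    PT fun x => ∑ i ∈ s, f x i := by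
  classical
  induction s using Finset.induction_on with
  | empty => simpa using PT.const 0
  | insert i s hi ih => simpa [sum_insert hi] using (h i).add ih

theorem pt_map {α β ι : Type} [Enc α] [Enc β] (L : List ι) {f : α → ι → β}
    (h : ∀ i, PT fun x => f x i) : PT fun x => L.map (f x) := by
  induction L with
  | nil => exact PT.const []
  | cons i L ih => exact (h i).cons ih

theorem pt_mom {α : Type} [Enc α] (H : ℕ) {f g : α → ℕ} (hf : PT f) (hg : PT g) :
    PT fun x => mom H (f x) (g x) := pt_sum _ fun i => by fun_prop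

end Pool.Agent.H4.Mom
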