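import Mathlib
import Pool.Agent.H4.ExpEigen

set_option autoImplicit false

namespace Pool.Agent.H4.PST

open Matrix Pool.Agent.H4.ExpEigen

/-- cell sizes -/
def sz (n i : ℕ) : ℕ := if i % 2 = 0 then i / 2 else 16 * (n - i / 2)

theorem sz_even (n j : ℕ) : sz n (2 * j) = j := by
  unfold sz
  rw [if_pos (by omega)]; omega

theorem sz_odd (n j : ℕ) : sz n (2 * j + 1) = 16 * (n - j) := by
  unfold sz
  rw [if_neg (by omega)]
  have : (2 * j + 1) / 2 = j := by omega
  rw [this]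

abbrev W (n : ℕ) : Type := Σ i : Fin (2 * n + 2), Fin (sz n i)

def idx {n : ℕ} (v : W n) : ℕ := v.1.val

def H (n : ℕ) : SimpleGraph (W n) where
  Adj v w := idx v + 1 = idx w ∨ idx w + 1 = idx v
  symm := ⟨fun _ _ h => h.symm⟩
  loopless := ⟨fun v h => by omega⟩

instance (n : ℕ) : DecidableRel (H n).Adj := fun v w =>
  inferInstanceAs (Decidable (idx v + 1 = idx w ∨ idx w + 1 = idx v))

theorem idx_range {n : ℕ} (v : W n) : 1 ≤ idx v ∧ idx v ≤ 2 * n := by
  obtain ⟨⟨i, hi⟩, ⟨k, hk⟩⟩ := v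
  simp only [idx]
  simp only [sz] at hk
  split_ifs at hk <;> omega

theorem sum_range_two {α : Type*} [AddCommMonoid α] (M j : ℕ) (h1 : 1 ≤ j) (h2 : j + 1 < M)
    (F : ℕ → α) :
    ∑ i ∈ Finset.range M, (if j + 1 = i ∨ i + 1 = j then F i else 0) = F (j + 1) + F (j - 1) := by
  have : ∀ i ∈ Finset.range M, (if j + 1 = i ∨ i + 1 = j then F i else 0)
      = (if i = j + 1 then F i else 0) + (if i = j - 1 then F i else 0) := by
    intro i _
    by_cases a : i = j + 1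
    · rw [if_pos (Or.inl a.symm), if_pos a, if_neg (by omega), add_zero]
    · by_cases b : i = j - 1
      · rw [if_pos (Or.inr (by omega)), if_neg a, if_pos b, zero_add]
      · rw [if_neg (by omega), if_neg a, if_neg b, add_zero]
  rw [Finset.sum_congr rfl this, Finset.sum_add_distrib, Finset.sum_ite_eq', Finset.sum_ite_eq',
    if_pos (by simp; omega), if_pos (by simp; omega)]

theorem adj_cell {α : Type*} [CommSemiring α] (n : ℕ) (F : ℕ → α) (v : W n) :
    ((H n).adjMatrix α *ᵥ (fun w => F (idx w))) v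
      = (sz n (idx v + 1) : α) * F (idx v + 1) + (sz n (idx v - 1) : α) * F (idx v - 1) := by
  have hr := idx_range v
  rw [← sum_range_two (2 * n + 2) (idx v) hr.1 (by omega) (fun i => (sz n i : α) * F i)]
  simp only [Matrix.mulVec, dotProduct, SimpleGraph.adjMatrix_apply]
  rw [Fintype.sum_sigma, ← Fin.sum_univ_eq_sum_range
    (fun i => if idx v + 1 = i ∨ i + 1 = idx v then (sz n i : α) * F i else 0)]
  refine Finset.sum_congr rfl (fun i _ => ?_)
  have : ∀ k : Fin (sz n i), (if (H n).Adj v ⟨i, k⟩ then (1 : α) else 0) * F (idx (⟨i, k⟩ : W n))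
      = if idx v + 1 = i ∨ i + 1 = idx v then F i else 0 := by
    intro k
    by_cases h : idx v + 1 = i ∨ i + 1 = idx v
    · rw [if_pos h, if_pos (show (H n).Adj v ⟨i, k⟩ from h), one_mul]; rfl
    · rw [if_neg h, if_neg (show ¬ (H n).Adj v ⟨i, k⟩ from h), zero_mul]
  rw [Finset.sum_congr rfl (fun k _ => this k), Finset.sum_const, Finset.card_univ,
    Fintype.card_fin, nsmul_eq_mul]
  split_ifs <;> simp

def gF (d i : ℕ) : ℂ := if i % 2 = 0 then (-1) ^ (i / 2 - 1) * ((i / 2 - 1).choose d : ℂ) else 0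
def fF (d i : ℕ) : ℂ := if i % 2 = 0 then 0 else (-1) ^ (i / 2) * ((i / 2).choose d : ℂ)

theorem gF_even (d j : ℕ) : gF d (2 * j + 2) = (-1) ^ j * (j.choose d : ℂ) := by
  unfold gF
  rw [if_pos (by omega)]
  have : (2 * j + 2) / 2 - 1 = j := by omega
  rw [this]

theorem gF_odd (d j : ℕ) : gF d (2 * j + 1) = 0 := by
  unfold gF
  rw [if_neg (by omega)]

theorem fF_even (d j : ℕ) : fF d (2 * j) = 0 := by
  unfold fF
  rw [if_pos (by omega)]

theorem fF_odd (d j : ℕ) : fF d (2 * j + 1) = (-1) ^ j * (j.choose d : ℂ) := by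
  unfold fF
  rw [if_neg (by omega)]
  have : (2 * j + 1) / 2 = j := by omega
  rw [this]

def g (n d : ℕ) : W n → ℂ := fun w => gF d (idx w)
def f (n d : ℕ) : W n → ℂ := fun w => fF d (idx w)

theorem idx_cases {n : ℕ} (v : W n) :
    (∃ j, j < n ∧ idx v = 2 * j + 1) ∨ (∃ j, j < n ∧ idx v = 2 * j + 2) := by
  have hr := idx_range v
  rcases Nat.even_or_odd' (idx v) with ⟨j, hj | hj⟩
  · right; exact ⟨j - 1, by omega, by omega⟩
  · left; exact ⟨j, by omega, hj⟩

theorem choose_id (j d : ℕ) :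
    ((j : ℂ) + 1) * (j.choose d : ℂ) = ((d : ℂ) + 1) * ((j.choose d : ℂ) + (j.choose (d + 1) : ℂ)) := by
  have h := Nat.add_one_mul_choose_eq j d
  rw [Nat.choose_succ_succ'] at h
  have h2 : (((j + 1) * j.choose d : ℕ) : ℂ) = (((j.choose d + j.choose (d + 1)) * (d + 1) : ℕ) : ℂ) := by
    rw [h]
  push_cast at h2
  rw [h2]; ring

theorem A_g (n d : ℕ) : (H n).adjMatrix ℂ *ᵥ g n d = ((d : ℂ) + 1) • f n d := by
  funext v
  unfold g
  rw [adj_cell]
  simp only [Pi.smul_apply, smul_eq_mul, f]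
  rcases idx_cases v with ⟨j, hj, h⟩ | ⟨j, hj, h⟩
  · rw [h, fF_odd]
    have e1 : 2 * j + 1 + 1 = 2 * (j + 1) := by ring
    have e2 : 2 * j + 1 - 1 = 2 * j := by omega
    rw [e2, sz_even, show 2 * j + 1 + 1 = 2 * j + 2 by ring, gF_even,
      show 2 * j + 2 = 2 * (j + 1) by ring, sz_even]
    rcases j with _ | j
    · rcases d with _ | d <;> simp
    · rw [show 2 * (j + 1) = 2 * j + 2 by ring, gF_even]
      rcases d with _ | d
      · simp; ring
      · have h1 := choose_id j (d + 1)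
        have h2 := choose_id (j + 1) (d + 1)
        have h3 : ((j + 1).choose (d + 1 + 1) : ℂ) = j.choose (d + 1) + j.choose (d + 1 + 1) := by
          rw [Nat.choose_succ_succ']; push_cast; ring
        push_cast at h1 h2 ⊢
        rw [pow_succ]
        linear_combination (-(-1 : ℂ) ^ j) * h2 + (-1 : ℂ) ^ j * h1 - (-1 : ℂ) ^ j * ((d : ℂ) + 1 + 1) * h3
  · rw [h, show 2 * j + 2 + 1 = 2 * (j + 1) + 1 by ring, gF_odd,
      show 2 * j + 2 - 1 = 2 * j + 1 by omega, gF_odd, show 2 * j + 2 = 2 * (j + 1) by ring, fF_even]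
    simp

theorem A_f0 (n : ℕ) : (H n).adjMatrix ℂ *ᵥ f n 0 = (16 : ℂ) • g n 0 := by
  funext v
  unfold f
  rw [adj_cell]
  simp only [Pi.smul_apply, smul_eq_mul, g]
  rcases idx_cases v with ⟨j, hj, h⟩ | ⟨j, hj, h⟩
  · rw [h, gF_odd, show 2 * j + 1 + 1 = 2 * (j + 1) by ring, fF_even,
      show 2 * j + 1 - 1 = 2 * j by omega, fF_even]
    simp
  · rw [h, gF_even, show 2 * j + 2 + 1 = 2 * (j + 1) + 1 by ring, fF_odd, sz_odd,
      show 2 * j + 2 - 1 = 2 * j + 1 by omega, fF_odd, sz_odd]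
    obtain ⟨r, rfl⟩ : ∃ r, n = j + 1 + r := ⟨n - (j + 1), by omega⟩
    rw [show j + 1 + r - (j + 1) = r by omega, show j + 1 + r - j = r + 1 by omega]
    simp only [Nat.choose_zero_right]
    push_cast
    ring

theorem A_f (n d : ℕ) : (H n).adjMatrix ℂ *ᵥ f n (d + 1)
    = (16 * ((d : ℂ) + 2)) • g n (d + 1) - (16 * ((n : ℂ) - d - 1)) • g n d := by
  funext v
  unfold f
  rw [adj_cell]
  simp only [Pi.smul_apply, Pi.sub_apply, smul_eq_mul, g]
  rcases idx_cases v with ⟨j, hj, h⟩ | ⟨j, hj, h⟩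
  · rw [h, gF_odd, gF_odd, show 2 * j + 1 + 1 = 2 * (j + 1) by ring, fF_even,
      show 2 * j + 1 - 1 = 2 * j by omega, fF_even]
    simp
  · rw [h, gF_even, gF_even, show 2 * j + 2 + 1 = 2 * (j + 1) + 1 by ring, fF_odd, sz_odd,
      show 2 * j + 2 - 1 = 2 * j + 1 by omega, fF_odd, sz_odd]
    obtain ⟨r, rfl⟩ : ∃ r, n = j + 1 + r := ⟨n - (j + 1), by omega⟩
    rw [show j + 1 + r - (j + 1) = r by omega, show j + 1 + r - j = r + 1 by omega]
    have h1 := choose_id j d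
    have h3 : ((j + 1).choose (d + 1) : ℂ) = j.choose d + j.choose (d + 1) := by
      rw [Nat.choose_succ_succ']; push_cast; ring
    rw [h3, pow_succ]
    push_cast
    linear_combination (16 * (-1 : ℂ) ^ j) * h1

/-- eigenvalue set -/
def SS (d : ℕ) : Set ℂ := {s | ∃ z : ℤ, |z| ≤ d ∧ s = 4 * (z : ℂ)}

theorem step (n d : ℕ) (y : W n → ℂ)
    (hy : (H n).adjMatrix ℂ *ᵥ ((H n).adjMatrix ℂ *ᵥ y) - (16 * ((d : ℂ) + 1) ^ 2) • y
      ∈ ES ((H n).adjMatrix ℂ) (SS d)) : y ∈ ES ((H n).adjMatrix ℂ) (SS (d + 1)) := by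
  set A := (H n).adjMatrix ℂ with hA
  set θ : ℂ := 4 * ((d : ℂ) + 1) with hθ
  have n1 : θ ∉ SS d := by
    rintro ⟨z, hz, h⟩
    have h2 : (((d : ℤ) + 1 : ℤ) : ℂ) = (z : ℂ) := by
      push_cast; rw [hθ] at h; linear_combination h / 4
    have h3 : (d : ℤ) + 1 = z := by exact_mod_cast h2
    rw [← h3, abs_le] at hz
    omega
  have n2 : -θ ∉ insert θ (SS d) := by
    rintro (h | ⟨z, hz, h⟩)
    · have h2 : (((d : ℤ) + 1 : ℤ) : ℂ) = ((0 : ℤ) : ℂ) := by
        push_cast; rw [hθ] at h; linear_combination -h / 8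
      have h3 : (d : ℤ) + 1 = 0 := by exact_mod_cast h2
      omega
    · have h2 : ((-((d : ℤ) + 1) : ℤ) : ℂ) = (z : ℂ) := by
        push_cast; rw [hθ] at h; linear_combination h / 4
      have h3 : -((d : ℤ) + 1) = z := by exact_mod_cast h2
      rw [← h3, abs_le] at hz
      omega
  have h1 : A *ᵥ y - (-θ) • y ∈ ES A (insert θ (SS d)) := by
    apply mem_ES_insert A _ θ n1
    have : A *ᵥ (A *ᵥ y - (-θ) • y) - θ • (A *ᵥ y - (-θ) • y)
        = A *ᵥ (A *ᵥ y) - (16 * ((d : ℂ) + 1) ^ 2) • y := by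
      rw [Matrix.mulVec_sub, Matrix.mulVec_smul]
      have : (16 * ((d : ℂ) + 1) ^ 2) = θ * θ := by rw [hθ]; ring
      rw [this]
      funext v
      simp only [Pi.sub_apply, Pi.smul_apply, smul_eq_mul]
      ring
    rw [this]; exact hy
  have h2 := mem_ES_insert A _ (-θ) n2 y h1
  refine ES_mono A ?_ h2
  rintro s (h | h | ⟨z, hz, h⟩)
  · refine ⟨-((d : ℤ) + 1), ?_, ?_⟩
    · rw [abs_le]; push_cast; omega
    · rw [h, hθ]; push_cast; ring
  · refine ⟨((d : ℤ) + 1), ?_, ?_⟩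
    · rw [abs_le]; push_cast; omega
    · rw [h, hθ]; push_cast; ring
  · refine ⟨z, ?_, h⟩
    push_cast; omega

theorem g_mem (n d : ℕ) : g n d ∈ ES ((H n).adjMatrix ℂ) (SS (d + 1)) := by
  induction d with
  | zero =>
    apply step
    rw [A_g, Matrix.mulVec_smul, A_f0]
    have : (((0 : ℕ) : ℂ) + 1) • (16 : ℂ) • g n 0 - (16 * (((0 : ℕ) : ℂ) + 1) ^ 2) • g n 0 = 0 := by
      funext v; simp
    rw [this]; exact Submodule.zero_mem _
  | succ d ih =>
    apply step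
    rw [A_g, Matrix.mulVec_smul, A_f]
    have : (((d + 1 : ℕ) : ℂ) + 1) • ((16 * ((d : ℂ) + 2)) • g n (d + 1) - (16 * ((n : ℂ) - d - 1)) • g n d)
        - (16 * (((d + 1 : ℕ) : ℂ) + 1) ^ 2) • g n (d + 1)
        = (-(((d : ℂ) + 2) * (16 * ((n : ℂ) - d - 1)))) • g n d := by
      funext v
      simp only [Pi.sub_apply, Pi.smul_apply, smul_eq_mul]
      push_cast
      ring
    rw [this]
    exact Submodule.smul_mem _ _ ih

def S4 : Set ℂ := {s | ∃ z : ℤ, s = 4 * (z : ℂ)}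

def root (n : ℕ) (hn : 1 ≤ n) : W n :=
  ⟨⟨2, by omega⟩, ⟨0, by show 0 < sz n 2; rw [show (2 : ℕ) = 2 * 1 by rfl, sz_even]; omega⟩⟩

theorem eq_root (n : ℕ) (hn : 1 ≤ n) (v : W n) (h : idx v = 2) : v = root n hn := by
  obtain ⟨⟨i, hi⟩, ⟨k, hk⟩⟩ := v
  simp only [idx] at h
  subst h
  have : sz n 2 = 1 := sz_even n 1
  have hk' : k < sz n 2 := hk
  have : k = 0 := by omega
  subst this
  rfl

theorem alt_sum (n j : ℕ) (hj : j < n) :
    ∑ d ∈ Finset.range n, (-1 : ℂ) ^ d * (j.choose d : ℂ) = if j = 0 then 1 else 0 := by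
  have h1 := Int.alternating_sum_range_choose (n := j)
  have h2 : ∑ d ∈ Finset.range (j + 1), (-1 : ℂ) ^ d * (j.choose d : ℂ) = if j = 0 then 1 else 0 := by
    have := congrArg (Int.cast : ℤ → ℂ) h1
    push_cast at this
    rw [this]
  rw [← h2]
  symm
  apply Finset.sum_subset
  · intro x hx; simp at hx ⊢; omega
  · intro x _ hx
    simp at hx
    rw [Nat.choose_eq_zero_of_lt (by omega)]; simp

theorem root_mem (n : ℕ) (hn : 1 ≤ n) :
    (Pi.single (root n hn) 1 : W n → ℂ) ∈ ES ((H n).adjMatrix ℂ) S4 := by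
  have : (Pi.single (root n hn) 1 : W n → ℂ) = ∑ d ∈ Finset.range n, ((-1 : ℂ) ^ d) • g n d := by
    funext v
    simp only [Finset.sum_apply, Pi.smul_apply, smul_eq_mul, g]
    rcases idx_cases v with ⟨j, hj, h⟩ | ⟨j, hj, h⟩
    · rw [h]
      simp only [gF_odd, mul_zero, Finset.sum_const_zero]
      rw [Pi.single_eq_of_ne]
      rintro rfl
      have : idx (root n hn) = 2 := rfl
      omega
    · rw [h]
      simp only [gF_even]
      have h3 : ∑ d ∈ Finset.range n, (-1 : ℂ) ^ d * ((-1) ^ j * (j.choose d : ℂ))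
          = (-1) ^ j * ∑ d ∈ Finset.range n, (-1 : ℂ) ^ d * (j.choose d : ℂ) := by
        rw [Finset.mul_sum]
        exact Finset.sum_congr rfl (fun d _ => by ring)
      rw [h3, alt_sum n j hj]
      by_cases hj0 : j = 0
      · subst hj0
        rw [eq_root n hn v h]; simp
      · rw [if_neg hj0, mul_zero, Pi.single_eq_of_ne]
        rintro rfl
        have : idx (root n hn) = 2 := rfl
        omega
  rw [this]
  refine Submodule.sum_mem _ (fun d _ => Submodule.smul_mem _ _ ?_)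
  refine ES_mono _ ?_ (g_mem n d)
  rintro s ⟨z, _, h⟩
  exact ⟨z, h⟩

end Pool.Agent.H4.PST
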