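import Mathlib
import Pool.Agent.H4.PST

set_option autoImplicit false

namespace Pool.Agent.H4.PST

open Matrix Pool.Agent.H4.ExpEigen

section prism

variable {V : Type} [Fintype V] [DecidableEq V]

/-- Cartesian product with an edge -/
def P (K : SimpleGraph V) : SimpleGraph (V × Bool) where
  Adj p q := (K.Adj p.1 q.1 ∧ p.2 = q.2) ∨ (p.1 = q.1 ∧ p.2 ≠ q.2)
  symm := ⟨fun _ _ h => h.elim (fun h => Or.inl ⟨h.1.symm, h.2.symm⟩)
    (fun h => Or.inr ⟨h.1.symm, h.2.symm⟩)⟩
  loopless := ⟨fun p h => h.elim (fun h => K.irrefl h.1) (fun h => h.2 rfl)⟩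

instance (K : SimpleGraph V) [DecidableRel K.Adj] : DecidableRel (P K).Adj := fun p q =>
  inferInstanceAs (Decidable ((K.Adj p.1 q.1 ∧ p.2 = q.2) ∨ (p.1 = q.1 ∧ p.2 ≠ q.2)))

theorem P_adj (K : SimpleGraph V) (p q : V × Bool) :
    (P K).Adj p q ↔ (K.Adj p.1 q.1 ∧ p.2 = q.2) ∨ (p.1 = q.1 ∧ p.2 ≠ q.2) := Iff.rfl

theorem P_mulVec {α : Type*} [CommSemiring α] (K : SimpleGraph V) [DecidableRel K.Adj]
    (x : V → α) (ε : Bool → α) (p : V × Bool) :
    ((P K).adjMatrix α *ᵥ (fun q => x q.1 * ε q.2)) p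
      = (K.adjMatrix α *ᵥ x) p.1 * ε p.2 + x p.1 * ε (!p.2) := by
  obtain ⟨v, b⟩ := p
  simp only [Matrix.mulVec, dotProduct, SimpleGraph.adjMatrix_apply]
  rw [Fintype.sum_prod_type, Finset.sum_mul]
  have h1 : x v * ε (!b) = ∑ w, if v = w then x w * ε (!b) else 0 := by
    rw [Finset.sum_ite_eq]; simp
  rw [h1, ← Finset.sum_add_distrib]
  refine Finset.sum_congr rfl (fun w _ => ?_)
  rw [Fintype.sum_bool]
  by_cases hvw : v = w
  · subst hvw
    cases b <;> simp [P_adj]
  · by_cases ha : K.Adj v w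
    · cases b <;> simp [P_adj, hvw, ha]
    · cases b <;> simp [P_adj, hvw, ha]

noncomputable def cc : ℂ := Complex.I * ((Real.pi / 2 : ℝ) : ℂ)

theorem exp_cc_plus (z : ℤ) : Complex.exp (cc * (4 * (z : ℂ) + 1)) = Complex.I := by
  have : cc * (4 * (z : ℂ) + 1) = z * (2 * Real.pi * Complex.I) + Real.pi / 2 * Complex.I := by
    unfold cc; push_cast; ring
  rw [this, Complex.exp_add, Complex.exp_int_mul_two_pi_mul_I, one_mul, Complex.exp_pi_div_two_mul_I]

theorem exp_cc_minus (z : ℤ) : Complex.exp (cc * (4 * (z : ℂ) - 1)) = -Complex.I := by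
  have : cc * (4 * (z : ℂ) - 1) = z * (2 * Real.pi * Complex.I) + -(Real.pi / 2 * Complex.I) := by
    unfold cc; push_cast; ring
  rw [this, Complex.exp_add, Complex.exp_int_mul_two_pi_mul_I, one_mul, Complex.exp_neg,
    Complex.exp_pi_div_two_mul_I]
  simp

theorem flip (K : SimpleGraph V) [DecidableRel K.Adj] (y : V → ℂ)
    (hy : y ∈ ES (K.adjMatrix ℂ) S4) :
    NormedSpace.exp (cc • (P K).adjMatrix ℂ) *ᵥ (fun q => y q.1 * (if q.2 then 0 else 1))
      = fun q => y q.1 * (if q.2 then Complex.I else 0) := by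
  induction hy using Submodule.span_induction with
  | mem x hx =>
    obtain ⟨s, ⟨z, rfl⟩, hx⟩ := hx
    have e1 : (cc • (P K).adjMatrix ℂ) *ᵥ (fun q : V × Bool => x q.1 * (fun _ : Bool => (1 : ℂ)) q.2)
        = (cc * (4 * (z : ℂ) + 1)) • (fun q : V × Bool => x q.1 * (fun _ : Bool => (1 : ℂ)) q.2) := by
      funext p
      rw [Matrix.smul_mulVec, Pi.smul_apply, P_mulVec K x (fun _ : Bool => (1 : ℂ)) p, hx]
      simp only [Pi.smul_apply, smul_eq_mul]
      ring
    have e2 : (cc • (P K).adjMatrix ℂ) *ᵥ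
          (fun q : V × Bool => x q.1 * (fun b : Bool => if b then (-1 : ℂ) else 1) q.2)
        = (cc * (4 * (z : ℂ) - 1)) •
          (fun q : V × Bool => x q.1 * (fun b : Bool => if b then (-1 : ℂ) else 1) q.2) := by
      funext p
      rw [Matrix.smul_mulVec, Pi.smul_apply,
        P_mulVec K x (fun b : Bool => if b then (-1 : ℂ) else 1) p, hx]
      obtain ⟨v, b⟩ := p
      cases b <;> simp <;> ring
    have f1 := exp_mulVec_eigen _ _ _ e1
    have f2 := exp_mulVec_eigen _ _ _ e2
    rw [exp_cc_plus] at f1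
    rw [exp_cc_minus] at f2
    have e3 : (fun q : V × Bool => x q.1 * (if q.2 then (0 : ℂ) else 1))
        = (1 / 2 : ℂ) • ((fun q : V × Bool => x q.1 * (fun _ : Bool => (1 : ℂ)) q.2)
          + (fun q : V × Bool => x q.1 * (fun b : Bool => if b then (-1 : ℂ) else 1) q.2)) := by
      funext ⟨v, b⟩
      cases b <;> simp <;> ring
    rw [e3, Matrix.mulVec_smul, Matrix.mulVec_add, f1, f2]
    funext ⟨v, b⟩
    cases b <;> simp <;> ring
  | zero =>
    have : (fun q : V × Bool => (0 : V → ℂ) q.1 * (if q.2 then (0 : ℂ) else 1)) = 0 := by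
      funext q; simp
    rw [this, Matrix.mulVec_zero]
    funext q; simp
  | add x y _ _ hx hy =>
    have : (fun q : V × Bool => (x + y) q.1 * (if q.2 then (0 : ℂ) else 1))
        = (fun q : V × Bool => x q.1 * (if q.2 then (0 : ℂ) else 1))
          + (fun q : V × Bool => y q.1 * (if q.2 then (0 : ℂ) else 1)) := by
      funext q; simp only [Pi.add_apply]; ring
    rw [this, Matrix.mulVec_add, hx, hy]
    funext q; simp only [Pi.add_apply]; ring
  | smul a x _ hx =>
    have : (fun q : V × Bool => (a • x) q.1 * (if q.2 then (0 : ℂ) else 1))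
        = a • (fun q : V × Bool => x q.1 * (if q.2 then (0 : ℂ) else 1)) := by
      funext q; simp only [Pi.smul_apply, smul_eq_mul]; ring
    rw [this, Matrix.mulVec_smul, hx]
    funext q; simp only [Pi.smul_apply, smul_eq_mul]; ring

theorem P_connected (K : SimpleGraph V) (h : K.Connected) : (P K).Connected := by
  obtain ⟨r⟩ := h.nonempty
  have key : ∀ (b : Bool) (u v : V), K.Reachable u v → (P K).Reachable (u, b) (v, b) := by
    intro b u v ⟨w⟩
    induction w with
    | nil => exact SimpleGraph.Reachable.refl _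
    | cons hadj _ ih =>
      exact (SimpleGraph.Adj.reachable (show (P K).Adj (_, b) (_, b) from Or.inl ⟨hadj, rfl⟩)).trans ih
  have key2 : ∀ p : V × Bool, (P K).Reachable (r, false) p := by
    rintro ⟨v, b⟩
    cases b
    · exact key false r v (h.preconnected r v)
    · exact (key false r v (h.preconnected r v)).trans
        (SimpleGraph.Adj.reachable (show (P K).Adj (v, false) (v, true) from Or.inr ⟨rfl, by simp⟩))
  haveI : Nonempty (V × Bool) := ⟨(r, false)⟩
  exact ⟨fun p q => (key2 p).symm.trans (key2 q)⟩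

end prism

theorem lip_diam {V : Type} [Fintype V] (K : SimpleGraph V) (h : K.Connected) (φ : V → ℕ)
    (hφ : ∀ u v, K.Adj u v → φ u ≤ φ v + 1) (u v : V) : φ u ≤ φ v + K.diam := by
  obtain ⟨w, hw⟩ := h.exists_walk_length_eq_dist u v
  have h1 : ∀ (a b : V) (p : K.Walk a b), φ a ≤ φ b + p.length := by
    intro a b p
    induction p with
    | nil => simp
    | cons hadj p ih =>
      have := hφ _ _ hadj
      simp only [SimpleGraph.Walk.length_cons]
      omega
  haveI := h.nonempty
  have h2 : K.dist u v ≤ K.diam :=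
    SimpleGraph.dist_le_diam (SimpleGraph.connected_iff_ediam_ne_top.mp h)
  have := h1 u v w
  omega

theorem sz_pos (n i : ℕ) (h1 : 1 ≤ i) (h2 : i ≤ 2 * n) : 0 < sz n i := by
  unfold sz
  split_ifs <;> omega

theorem sz_le (n i : ℕ) (h2 : i ≤ 2 * n + 1) : sz n i ≤ 16 * n := by
  unfold sz
  split_ifs <;> omega

def rep (n i : ℕ) (h1 : 1 ≤ i) (h2 : i ≤ 2 * n) : W n :=
  ⟨⟨i, by omega⟩, ⟨0, sz_pos n i h1 h2⟩⟩

theorem H_connected (n : ℕ) (hn : 1 ≤ n) : (H n).Connected := by
  have key : ∀ i, ∀ v : W n, idx v = i + 1 → (H n).Reachable (root n hn) v := by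
    intro i
    induction i with
    | zero =>
      intro v hv
      refine SimpleGraph.Adj.reachable (Or.inr ?_)
      have : idx (root n hn) = 2 := rfl
      omega
    | succ i ih =>
      intro v hv
      have hr := idx_range v
      refine (ih (rep n (i + 1) (by omega) (by omega)) rfl).trans (SimpleGraph.Adj.reachable (Or.inl ?_))
      have : idx (rep n (i + 1) (by omega) (by omega)) = i + 1 := rfl
      omega
  have key2 : ∀ v : W n, (H n).Reachable (root n hn) v := fun v =>
    key (idx v - 1) v (by have := idx_range v; omega)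
  haveI : Nonempty (W n) := ⟨root n hn⟩
  exact ⟨fun p q => (key2 p).symm.trans (key2 q)⟩

theorem card_W (n : ℕ) : Fintype.card (W n) = ∑ i : Fin (2 * n + 2), sz n i := by
  simp [W, Fintype.card_sigma]

theorem card_W_le (n : ℕ) (hn : 1 ≤ n) : Fintype.card (W n) ≤ 64 * n ^ 2 := by
  rw [card_W]
  have : ∑ i : Fin (2 * n + 2), sz n i ≤ ∑ _i : Fin (2 * n + 2), 16 * n :=
    Finset.sum_le_sum (fun i _ => sz_le n i (by have := i.isLt; omega))
  rw [Finset.sum_const, Finset.card_univ, Fintype.card_fin, smul_eq_mul] at this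
  nlinarith

theorem card_W_ge (n : ℕ) : 16 * n ≤ Fintype.card (W n) := by
  rw [card_W]
  have := Finset.single_le_sum (f := fun i : Fin (2 * n + 2) => sz n i) (fun _ _ => Nat.zero_le _)
    (Finset.mem_univ (⟨1, by omega⟩ : Fin (2 * n + 2)))
  have h2 : sz n 1 = 16 * n := by
    have := sz_odd n 0
    simpa using this
  simp only at this
  omega

/-- the family -/
abbrev GG (n : ℕ) : SimpleGraph (W n × Bool) := P (H n)

theorem GG_connected (n : ℕ) (hn : 1 ≤ n) : (GG n).Connected := P_connected _ (H_connected n hn)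

theorem GG_lip (n : ℕ) (p q : W n × Bool) (h : (GG n).Adj p q) : idx p.1 ≤ idx q.1 + 1 := by
  rcases h with ⟨h, _⟩ | ⟨h, _⟩
  · have : idx p.1 + 1 = idx q.1 ∨ idx q.1 + 1 = idx p.1 := h
    omega
  · rw [h]; omega

theorem GG_pst (n : ℕ) (hn : 1 ≤ n) :
    NormedSpace.exp (cc • (GG n).adjMatrix ℂ) *ᵥ (Pi.single (root n hn, false) 1)
      = Pi.single (root n hn, true) Complex.I := by
  have h := flip (H n) _ (root_mem n hn)
  have e1 : (Pi.single (root n hn, false) 1 : W n × Bool → ℂ)
      = fun q => (Pi.single (root n hn) 1 : W n → ℂ) q.1 * (if q.2 then 0 else 1) := by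
    funext ⟨v, b⟩
    by_cases hv : v = root n hn
    · subst hv; cases b <;> simp
    · cases b <;> simp [hv]
  have e2 : (Pi.single (root n hn, true) Complex.I : W n × Bool → ℂ)
      = fun q => (Pi.single (root n hn) 1 : W n → ℂ) q.1 * (if q.2 then Complex.I else 0) := by
    funext ⟨v, b⟩
    by_cases hv : v = root n hn
    · subst hv; cases b <;> simp
    · cases b <;> simp [hv]
  rw [e1, e2]; exact h

theorem GG_degree (n : ℕ) (p : W n × Bool) : (GG n).degree p ≤ 32 * n + 1 := by
  have h1 := P_mulVec (α := ℕ) (H n) (fun _ => 1) (fun _ => 1) p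
  have h2 := adj_cell (α := ℕ) n (fun _ => 1) p.1
  have h3 := SimpleGraph.adjMatrix_mulVec_const_apply (G := GG n) (α := ℕ) (a := 1) (v := p)
  have hr := idx_range p.1
  have h4 := sz_le n (idx p.1 + 1) (by omega)
  have h5 := sz_le n (idx p.1 - 1) (by omega)
  have e : (fun q : W n × Bool => (fun _ : W n => (1 : ℕ)) q.1 * (fun _ : Bool => (1 : ℕ)) q.2)
      = Function.const _ 1 := by funext q; simp
  rw [e, h3, h2] at h1
  simp only [Nat.cast_id, mul_one] at h1
  omega

theorem GG_card (n : ℕ) : Fintype.card (W n × Bool) = 2 * Fintype.card (W n) := by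
  rw [Fintype.card_prod, Fintype.card_bool, mul_comm]

theorem GG_edges (n : ℕ) (hn : 1 ≤ n) : (GG n).edgeFinset.card ≤ 2112 * n ^ 3 := by
  have h1 := SimpleGraph.sum_degrees_eq_twice_card_edges (GG n)
  have h2 : ∑ p, (GG n).degree p ≤ ∑ _p : W n × Bool, (32 * n + 1) :=
    Finset.sum_le_sum (fun p _ => GG_degree n p)
  rw [Finset.sum_const, Finset.card_univ, smul_eq_mul, GG_card] at h2
  have h3 := card_W_le n hn
  have h4 : 2 * Fintype.card (W n) * (32 * n + 1) ≤ 2 * (64 * n ^ 2) * (33 * n) :=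
    Nat.mul_le_mul (by omega) (by omega)
  have h5 : 2 * (64 * n ^ 2) * (33 * n) = 2 * (2112 * n ^ 3) := by ring
  omega

theorem GG_diam (n : ℕ) (hn : 1 ≤ n) : n ≤ (GG n).diam := by
  have := lip_diam (GG n) (GG_connected n hn) (fun p => idx p.1) (GG_lip n)
    (rep n (2 * n) (by omega) le_rfl, false) (rep n 1 le_rfl (by omega), false)
  have h1 : idx (rep n (2 * n) (by omega) le_rfl) = 2 * n := rfl
  have h2 : idx (rep n 1 le_rfl (by omega)) = 1 := rfl
  simp only [h1, h2] at this
  omega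

theorem comap_pow {V V' : Type} [Fintype V] [DecidableEq V] [Fintype V'] [DecidableEq V']
    (K : SimpleGraph V) [DecidableRel K.Adj] (e : V' ≃ V) [DecidableRel (K.comap e).Adj] (m : ℕ)
    (u v : V') : (((K.comap e).adjMatrix ℂ) ^ m) u v = ((K.adjMatrix ℂ) ^ m) (e u) (e v) := by
  have h0 : (K.comap e).adjMatrix ℂ = (K.adjMatrix ℂ).submatrix e e := by
    ext u v
    simp only [SimpleGraph.adjMatrix_apply, Matrix.submatrix_apply, SimpleGraph.comap_adj]
  have h1 : ((K.comap e).adjMatrix ℂ) ^ m = ((K.adjMatrix ℂ) ^ m).submatrix e e := by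
    induction m with
    | zero => simp
    | succ m ih => rw [pow_succ, pow_succ, ih, h0, Matrix.submatrix_mul_equiv]
  rw [h1, Matrix.submatrix_apply]

end Pool.Agent.H4.PST
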