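import Mathlib

/-! Deterministic adaptive query algorithms (decision trees) and a hiding lemma. -/

namespace Pool.Agent.H4.QTree

open Finset

/-- A deterministic adaptive query algorithm with queries in `Q`, oracle answers in `R` and
outputs in `O`: either output at once, or ask a query and continue depending on the answer. -/
inductive Alg (Q R O : Type) : Type
  | out (o : O) : Alg Q R O
  | ask (q : Q) (next : R → Alg Q R O) : Alg Q R O

variable {Q R O : Type}

/-- The output of the algorithm when run with the oracle `orc`. -/
def Alg.run (orc : Q → R) : Alg Q R O → O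
  | .out o => o
  | .ask q next => Alg.run orc (next (orc q))

/-- The number of oracle calls of the algorithm when run with the oracle `orc`. -/
def Alg.cost (orc : Q → R) : Alg Q R O → ℕ
  | .out _ => 0
  | .ask q next => Alg.cost orc (next (orc q)) + 1

open Classical in
theorem hide_one {Θ : Type} [Fintype Θ] (orc0 : Q → R) (orc : Θ → Q → R)
    (good : Θ → O → Prop) (b b' : ℕ)
    (hb : ∀ q, (univ.filter fun θ => orc θ q ≠ orc0 q).card ≤ b)
    (hb' : ∀ o, (univ.filter fun θ => good θ o).card ≤ b') (T : Alg Q R O) :
    (univ.filter fun θ => good θ (T.run (orc θ))).card ≤ T.cost orc0 * b + b' := by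
  induction T with
  | out o => simpa [Alg.run, Alg.cost] using hb' o
  | ask q next ih =>
    have h1 := ih (orc0 q)
    have h2 := hb q
    have hsub : (univ.filter fun θ => good θ ((Alg.ask q next).run (orc θ))) ⊆
        (univ.filter fun θ => orc θ q ≠ orc0 q) ∪
        (univ.filter fun θ => good θ ((next (orc0 q)).run (orc θ))) := by
      intro θ hθ
      simp only [mem_filter, mem_univ, true_and, mem_union, Alg.run] at hθ ⊢
      by_cases h : orc θ q = orc0 q
      · right; rwa [h] at hθ
      · left; exact h
    have h3 := (card_le_card hsub).trans (card_union_le _ _)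
    simp only [Alg.cost]
    nlinarith

open Classical in
/-- Averaging: for a finite family of algorithms, some hidden parameter is solved by few. -/
theorem hide_family {Θ J : Type} [Fintype Θ] [Nonempty Θ] [Fintype J] (orc0 : Q → R)
    (orc : Θ → Q → R) (good : Θ → O → Prop) (b b' q : ℕ)
    (hb : ∀ x, (univ.filter fun θ => orc θ x ≠ orc0 x).card ≤ b)
    (hb' : ∀ o, (univ.filter fun θ => good θ o).card ≤ b') (T : J → Alg Q R O)
    (hq : ∀ j, (T j).cost orc0 ≤ q) :
    ∃ θ, (univ.filter fun j => good θ ((T j).run (orc θ))).card * Fintype.card Θ ≤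
      Fintype.card J * (q * b + b') := by
  by_contra hcon
  push Not at hcon
  have h1 : ∑ θ : Θ, (univ.filter fun j => good θ ((T j).run (orc θ))).card =
      ∑ j : J, (univ.filter fun θ => good θ ((T j).run (orc θ))).card := by
    simp only [card_filter]
    exact Finset.sum_comm
  have h2 : ∑ j : J, (univ.filter fun θ => good θ ((T j).run (orc θ))).card ≤
      Fintype.card J * (q * b + b') := by
    calc _ ≤ ∑ _j : J, (q * b + b') := by
          refine Finset.sum_le_sum fun j _ => (hide_one orc0 orc good b b' hb hb' (T j)).trans ?_
          have := Nat.mul_le_mul_right b (hq j)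
          omega
      _ = _ := by simp
  have h3 : ∑ _θ : Θ, Fintype.card J * (q * b + b') <
      ∑ θ : Θ, (univ.filter fun j => good θ ((T j).run (orc θ))).card * Fintype.card Θ :=
    Finset.sum_lt_sum_of_nonempty univ_nonempty fun θ _ => hcon θ
  rw [sum_const, ← Finset.sum_mul, h1] at h3
  simp only [card_univ, smul_eq_mul] at h3
  have := Nat.mul_le_mul_right (Fintype.card Θ) h2
  nlinarith

end Pool.Agent.H4.QTree
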