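import Mathlib

set_option autoImplicit false

namespace Pool.Agent.H4.RM

abbrev F (n : ℕ) : Type := (Fin n → ZMod 2) → ZMod 2

def mono {n : ℕ} (S : Finset (Fin n)) : F n := fun x => ∏ i ∈ S, x i

def R (n j : ℕ) : Submodule (ZMod 2) (F n) :=
  Submodule.span (ZMod 2) (mono '' {S : Finset (Fin n) | S.card < j})

theorem mono_mem {n j : ℕ} (S : Finset (Fin n)) (h : S.card < j) : mono S ∈ R n j :=
  Submodule.subset_span ⟨S, h, rfl⟩

theorem R_map {n m j : ℕ} (φ : F n →ₗ[ZMod 2] F m) (M : Submodule (ZMod 2) (F m))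
    (h : ∀ S : Finset (Fin n), S.card < j → φ (mono S) ∈ M) (f : F n) (hf : f ∈ R n j) :
    φ f ∈ M := by
  have : R n j ≤ M.comap φ := Submodule.span_le.mpr (by rintro _ ⟨S, hS, rfl⟩; exact h S hS)
  exact this hf

theorem R_mono {n j j' : ℕ} (h : j ≤ j') : R n j ≤ R n j' :=
  Submodule.span_mono (Set.image_mono (fun _ hS => lt_of_lt_of_le hS h))

noncomputable def dd {n : ℕ} (f : F n) (C : Set (F n)) : ℕ := sInf ((fun g => hammingDist f g) '' C)

theorem dd_le {n : ℕ} (f : F n) {C : Set (F n)} {g : F n} (hg : g ∈ C) : dd f C ≤ hammingDist f g :=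
  Nat.sInf_le ⟨g, hg, rfl⟩

theorem dd_ex {n : ℕ} (f : F n) {C : Set (F n)} (hC : C.Nonempty) :
    ∃ g ∈ C, hammingDist f g = dd f C := Nat.sInf_mem (hC.image _)

theorem R_ne (n j : ℕ) : (R n j : Set (F n)).Nonempty := ⟨0, (R n j).zero_mem⟩

noncomputable def rho (n j : ℕ) : ℕ := Finset.univ.sup (fun f : F n => dd f (R n j))

theorem dd_le_rho {n j : ℕ} (f : F n) : dd f (R n j) ≤ rho n j :=
  Finset.le_sup (f := fun f : F n => dd f (R n j)) (Finset.mem_univ f)

theorem rho_ex (n j : ℕ) : ∃ f : F n, dd f (R n j) = rho n j := by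
  obtain ⟨f, _, hf⟩ := Finset.exists_mem_eq_sup (Finset.univ : Finset (F n)) Finset.univ_nonempty
    (fun f : F n => dd f (R n j))
  exact ⟨f, hf.symm⟩

theorem rho_le {n j m : ℕ} (h : ∀ f : F n, ∃ g ∈ R n j, hammingDist f g ≤ m) : rho n j ≤ m := by
  obtain ⟨f, hf⟩ := rho_ex n j
  obtain ⟨g, hg, hm⟩ := h f
  exact hf ▸ (dd_le f hg).trans hm

theorem hd_sum {n : ℕ} (f g : F n) : hammingDist f g = ∑ x, if f x ≠ g x then 1 else 0 := by
  unfold hammingDist
  rw [Finset.card_filter]

theorem hd_move {n : ℕ} (f g h : F n) : hammingDist (f + g) h = hammingDist f (g + h) := by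
  rw [hd_sum, hd_sum]
  refine Finset.sum_congr rfl (fun x _ => ?_)
  simp only [Pi.add_apply]
  have : ∀ a b c : ZMod 2, (a + b ≠ c) ↔ (a ≠ b + c) := by decide
  simp only [this]

theorem add_self' {n : ℕ} (f : F n) : f + f = 0 := by
  funext x
  have : ∀ a : ZMod 2, a + a = 0 := by decide
  exact this _

def res {n : ℕ} (b : ZMod 2) : F (n + 1) →ₗ[ZMod 2] F n :=
  LinearMap.funLeft (ZMod 2) (ZMod 2) (fun y => Fin.cons b y)

theorem res_apply {n : ℕ} (b : ZMod 2) (f : F (n + 1)) (y : Fin n → ZMod 2) :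
    res b f y = f (Fin.cons b y) := rfl

theorem hd_res {n : ℕ} (f g : F (n + 1)) :
    hammingDist f g = hammingDist (res 0 f) (res 0 g) + hammingDist (res 1 f) (res 1 g) := by
  rw [hd_sum, hd_sum, hd_sum, ← (Fin.consEquiv (fun _ : Fin (n + 1) => ZMod 2)).sum_comp,
    Fintype.sum_prod_type]
  have : (Finset.univ : Finset (ZMod 2)) = {0, 1} := by decide
  rw [this, Finset.sum_pair (by decide)]
  rfl

theorem res_mem {n j : ℕ} (b : ZMod 2) (f : F (n + 1)) (hf : f ∈ R (n + 1) j) : res b f ∈ R n j := by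
  refine R_map (res b) _ (fun S hS => ?_) f hf
  let S' : Finset (Fin n) := Finset.univ.filter (fun i => i.succ ∈ S)
  have hcard : S'.card ≤ S.card :=
    Finset.card_le_card_of_injOn Fin.succ (fun i hi => by simpa [S'] using hi)
      (fun a _ b _ h => Fin.succ_injective _ h)
  have : res b (mono S) = (if 0 ∈ S then b else 1) • mono S' := by
    funext y
    rw [res_apply]
    simp only [mono, Pi.smul_apply, smul_eq_mul]
    rw [← Finset.univ_inter S, ← Finset.prod_ite_mem, Fin.prod_univ_succ, Finset.prod_filter]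
    simp
  rw [this]
  exact Submodule.smul_mem _ _ (mono_mem _ (by omega))

def lift {n : ℕ} : F n →ₗ[ZMod 2] F (n + 1) :=
  LinearMap.funLeft (ZMod 2) (ZMod 2) (fun x => Fin.tail x)

theorem lift_mono {n : ℕ} (S : Finset (Fin n)) : lift (mono S) = mono (S.map (Fin.succEmb n)) := by
  funext x
  simp only [mono, Finset.prod_map]
  rfl

theorem lift_mem {n j : ℕ} (f : F n) (hf : f ∈ R n j) : lift f ∈ R (n + 1) j := by
  refine R_map lift _ (fun S hS => ?_) f hf
  rw [lift_mono]
  exact mono_mem _ (by simpa using hS)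

def coord {n : ℕ} (i : Fin n) : F n := fun x => x i

theorem coord_mul {n : ℕ} (i : Fin n) (S : Finset (Fin n)) :
    coord i * mono S = mono (insert i S) := by
  funext x
  simp only [Pi.mul_apply, coord, mono]
  by_cases h : i ∈ S
  · rw [Finset.insert_eq_of_mem h, ← Finset.mul_prod_erase S _ h, ← mul_assoc]
    have : ∀ a : ZMod 2, a * a = a := by decide
    rw [this]
  · rw [Finset.prod_insert h]

theorem coord_mul_mem {n j : ℕ} (i : Fin n) (f : F n) (hf : f ∈ R n j) :
    coord i * f ∈ R n (j + 1) := by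
  refine R_map (LinearMap.mulLeft (ZMod 2) (coord i)) _ (fun S hS => ?_) f hf
  rw [LinearMap.mulLeft_apply, coord_mul]
  exact mono_mem _ (by have := Finset.card_insert_le i S; omega)

theorem rho_lower (n j : ℕ) : 2 * rho n j ≤ rho (n + 1) j := by
  obtain ⟨f, hf⟩ := rho_ex n j
  obtain ⟨g, hg, hd⟩ := dd_ex (lift f) (R_ne (n + 1) j)
  have h1 := dd_le_rho (j := j) (lift f)
  rw [hd_res] at hd
  have e : ∀ b, res b (lift f) = f := fun b => by funext y; rfl
  rw [e, e] at hd
  have h2 := dd_le f (res_mem 0 g hg)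
  have h3 := dd_le f (res_mem 1 g hg)
  omega

theorem rho_upper (n j : ℕ) : rho (n + 1) (j + 1) ≤ rho n (j + 1) + rho n j := by
  apply rho_le
  intro f
  obtain ⟨g, hg, hd⟩ := dd_ex (res 0 f) (R_ne n (j + 1))
  obtain ⟨h, hh, hd'⟩ := dd_ex (res 1 f + g) (R_ne n j)
  refine ⟨lift g + coord 0 * lift h,
    Submodule.add_mem _ (lift_mem g hg) (coord_mul_mem 0 _ (lift_mem h hh)), ?_⟩
  rw [hd_res]
  have e0 : res 0 (lift g + coord 0 * lift h) = g := by
    funext y; simp [res_apply, coord, lift, LinearMap.funLeft_apply]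
  have e1 : res 1 (lift g + coord 0 * lift h) = g + h := by
    funext y; simp [res_apply, coord, lift, LinearMap.funLeft_apply]
  rw [e0, e1, ← hd_move, hd, hd']
  exact Nat.add_le_add (dd_le_rho _) (dd_le_rho _)

theorem rho_zero (n : ℕ) : ∀ j, n < j → rho n j = 0 := by
  induction n with
  | zero =>
    intro j hj
    apply Nat.eq_zero_of_le_zero
    apply rho_le
    intro f
    refine ⟨f default • mono ∅, Submodule.smul_mem _ _ (mono_mem _ (by simpa using hj)), ?_⟩
    have : f = f default • mono ∅ := by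
      funext x
      rw [Subsingleton.elim x default]; simp [mono]
    rw [← this]; simp
  | succ n ih =>
    intro j hj
    obtain ⟨j, rfl⟩ : ∃ j', j = j' + 1 := ⟨j - 1, by omega⟩
    have := rho_upper n j
    rw [ih _ (by omega), ih _ (by omega)] at this
    omega

theorem mem_top {n j : ℕ} (h : n < j) (f : F n) : f ∈ R n j := by
  obtain ⟨g, hg, hd⟩ := dd_ex f (R_ne n j)
  have h1 := dd_le_rho (j := j) f
  rw [rho_zero n j h] at h1
  have : hammingDist f g = 0 := by omega
  rw [hammingDist_eq_zero] at this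
  rw [this]; exact hg

theorem rho_pos (n : ℕ) : 0 < rho n n := by
  have key : ∀ f ∈ R n n, ∑ x, f x = 0 := by
    intro f hf
    induction hf using Submodule.span_induction with
    | mem f hf =>
      obtain ⟨S, hS, rfl⟩ := hf
      obtain ⟨i, hi⟩ : ∃ i, i ∉ S := by
        by_contra hc
        push Not at hc
        have : S = Finset.univ := Finset.eq_univ_iff_forall.mpr hc
        rw [this] at hS
        simp at hS
      refine Finset.sum_involution (fun x _ => x + Pi.single i 1) ?_ ?_ (fun _ _ => Finset.mem_univ _) ?_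
      · intro x _
        have : mono S (x + Pi.single i 1) = mono S x := by
          refine Finset.prod_congr rfl (fun l hl => ?_)
          have : l ≠ i := fun h => hi (h ▸ hl)
          simp [this]
        rw [this]
        have : ∀ a : ZMod 2, a + a = 0 := by decide
        exact this _
      · intro x _ _ h
        have := congrFun h i
        simp at this
      · intro x _
        funext l
        by_cases h : l = i
        · subst h
          have : ∀ a : ZMod 2, a + 1 + 1 = a := by decide
          simp [this]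
        · simp [h]
    | zero => simp
    | add f g _ _ hf hg => simp [Finset.sum_add_distrib, hf, hg]
    | smul a f _ hf => simp [← Finset.mul_sum, hf]
  obtain ⟨g, hg, hd⟩ := dd_ex (Pi.single 0 1 : F n) (R_ne n n)
  have h1 := dd_le_rho (j := n) (Pi.single 0 1 : F n)
  by_contra hc
  have : hammingDist (Pi.single 0 1 : F n) g = 0 := by omega
  rw [hammingDist_eq_zero] at this
  have h2 := key g hg
  rw [← this] at h2
  simp at h2

theorem rho_strict (n : ℕ) : ∀ j, j ≤ n → rho n (j + 1) < rho n j := by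
  induction n with
  | zero =>
    intro j hj
    have : j = 0 := by omega
    subst this
    rw [rho_zero 0 _ (by omega)]; exact rho_pos 0
  | succ n ih =>
    intro j hj
    rcases Nat.lt_succ_iff_lt_or_eq.mp (Nat.lt_succ_of_le hj) with h | h
    · have h1 := rho_upper n j
      have h2 := rho_lower n j
      have h3 := ih j (by omega)
      omega
    · subst h
      rw [rho_zero _ _ (by omega)]; exact rho_pos _

end Pool.Agent.H4.RM
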