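import Mathlib
import Pool.Agent.H4.RM

set_option autoImplicit false

namespace Pool.Agent.H4.RM

variable {n : ℕ}

abbrev P (n : ℕ) : Type := Fin n → ZMod 2

def cmp (σ : P n → P n) : F n →ₗ[ZMod 2] F n := LinearMap.funLeft (ZMod 2) (ZMod 2) σ

theorem cmp_apply (σ : P n → P n) (f : F n) (x : P n) : cmp σ f x = f (σ x) := rfl

theorem hd_cmp (σ : P n → P n) (hσ : Function.Involutive σ) (f g : F n) :
    hammingDist (cmp σ f) (cmp σ g) = hammingDist f g := by
  rw [hd_sum, hd_sum]
  exact Equiv.sum_comp (hσ.toPerm σ) (fun x => if f x ≠ g x then 1 else 0)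

theorem cmp_cmp (σ : P n → P n) (hσ : Function.Involutive σ) (f : F n) : cmp σ (cmp σ f) = f := by
  funext x; rw [cmp_apply, cmp_apply, hσ]

theorem dd_cmp {j : ℕ} (σ : P n → P n) (hσ : Function.Involutive σ)
    (hC : ∀ g ∈ R n j, cmp σ g ∈ R n j) (f : F n) : dd (cmp σ f) (R n j) = dd f (R n j) := by
  have key : ∀ f : F n, dd (cmp σ f) (R n j) ≤ dd f (R n j) := by
    intro f
    obtain ⟨g, hg, hd⟩ := dd_ex f (R_ne n j)
    rw [← hd, ← hd_cmp σ hσ]
    exact dd_le _ (hC g hg)
  apply le_antisymm (key f)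
  have := key (cmp σ f)
  rwa [cmp_cmp σ hσ] at this

theorem dd_shift {j : ℕ} (c h : F n) (hc : c ∈ R n j) : dd (c + h) (R n j) = dd h (R n j) := by
  have key : ∀ h : F n, dd (c + h) (R n j) ≤ dd h (R n j) := by
    intro h
    obtain ⟨g, hg, hd⟩ := dd_ex h (R_ne n j)
    have h1 := dd_le (c + h) (show c + g ∈ (R n j : Set (F n)) from (R n j).add_mem hc hg)
    rw [add_comm c h, hd_move, ← add_assoc, add_self', zero_add, hd] at h1
    rw [add_comm c h]; exact h1
  apply le_antisymm (key h)
  have := key (c + h)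
  rwa [← add_assoc, add_self', zero_add] at this

/-- translations that preserve the set of deep holes -/
def W (n j : ℕ) : Submodule (ZMod 2) (F n) where
  carrier := {v | ∀ h : F n, dd h (R n j) = rho n j → dd (v + h) (R n j) = rho n j}
  add_mem' := by
    intro a b ha hb h hh
    rw [add_assoc]; exact ha _ (hb _ hh)
  zero_mem' := by intro h hh; rwa [zero_add]
  smul_mem' := by
    intro c v hv h hh
    rcases (by decide : ∀ c : ZMod 2, c = 0 ∨ c = 1) c with rfl | rfl
    · rwa [zero_smul, zero_add]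
    · rw [one_smul]; exact hv h hh

theorem R_le_W {j : ℕ} : R n j ≤ W n j := by
  intro c hc h hh
  rw [dd_shift c h hc, hh]

theorem W_cmp {j : ℕ} (σ : P n → P n) (hσ : Function.Involutive σ)
    (hC : ∀ g ∈ R n j, cmp σ g ∈ R n j) (v : F n) (hv : v ∈ W n j) : cmp σ v ∈ W n j := by
  intro h hh
  have h1 : dd (cmp σ h) (R n j) = rho n j := by rw [dd_cmp σ hσ hC, hh]
  have h2 := hv _ h1
  rw [← dd_cmp σ hσ hC, map_add, cmp_cmp σ hσ] at h2
  exact h2

/-- shear: add `c x` to coordinate `i` -/
def sh (i : Fin n) (c : F n) : P n → P n := fun x => x + Pi.single i (c x)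

def Dop (i : Fin n) (c : F n) : F n →ₗ[ZMod 2] F n := cmp (sh i c) + LinearMap.id

theorem Dop_mono (i : Fin n) (c : F n) (S : Finset (Fin n)) :
    Dop i c (mono S) = if i ∈ S then c * mono (S.erase i) else 0 := by
  funext x
  simp only [Dop, LinearMap.add_apply, LinearMap.id_apply, Pi.add_apply, cmp_apply]
  have hne : ∀ T : Finset (Fin n), i ∉ T → mono T (sh i c x) = mono T x := by
    intro T hT
    refine Finset.prod_congr rfl (fun l hl => ?_)
    have : l ≠ i := fun h => hT (h ▸ hl)
    simp [sh, this]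
  by_cases h : i ∈ S
  · rw [if_pos h]
    have e : ∀ y, mono S y = y i * mono (S.erase i) y := fun y =>
      (Finset.mul_prod_erase S _ h).symm
    rw [e, e, hne _ (Finset.notMem_erase i S)]
    simp only [sh, Pi.add_apply, Pi.single_eq_same, Pi.mul_apply]
    have : ∀ a b m : ZMod 2, (a + b) * m + a * m = b * m := by decide
    exact this _ _ _
  · rw [if_neg h, hne S h]
    have : ∀ a : ZMod 2, a + a = 0 := by decide
    exact this _

theorem sh_invol (i : Fin n) (c : F n) (hc : ∀ x, c (sh i c x) = c x) :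
    Function.Involutive (sh i c) := by
  intro x
  have h := hc x
  show sh i c x + Pi.single i (c (sh i c x)) = x
  rw [h]
  funext l
  by_cases hl : l = i
  · subst hl
    have : ∀ a b : ZMod 2, a + b + b = a := by decide
    simp [sh, this]
  · simp [sh, hl]

theorem cmp_eq (i : Fin n) (c : F n) (f : F n) : cmp (sh i c) f = Dop i c f + f := by
  simp only [Dop, LinearMap.add_apply, LinearMap.id_apply]
  rw [add_assoc, add_self', add_zero]

theorem D1_mem {j : ℕ} (i : Fin n) (f : F n) (hf : f ∈ R n (j + 1)) : Dop i 1 f ∈ R n j := by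
  refine R_map _ _ (fun S hS => ?_) f hf
  rw [Dop_mono]
  split_ifs with h
  · rw [one_mul]
    have := Finset.card_erase_of_mem h
    have := Finset.card_pos.mpr ⟨i, h⟩
    exact mono_mem _ (by omega)
  · exact Submodule.zero_mem _

theorem Dc_mem {j : ℕ} (i l : Fin n) (f : F n) (hf : f ∈ R n j) : Dop i (coord l) f ∈ R n j := by
  refine R_map _ _ (fun S hS => ?_) f hf
  rw [Dop_mono]
  split_ifs with h
  · rw [coord_mul]
    have := Finset.card_erase_of_mem h
    have := Finset.card_pos.mpr ⟨i, h⟩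
    have := Finset.card_insert_le l (S.erase i)
    exact mono_mem _ (by omega)
  · exact Submodule.zero_mem _

theorem W_D1 {j : ℕ} (i : Fin n) (v : F n) (hv : v ∈ W n j) : Dop i 1 v ∈ W n j := by
  have h := W_cmp (j := j) (sh i 1) (sh_invol i 1 (fun _ => rfl)) (fun g hg => by
    rw [cmp_eq]
    exact Submodule.add_mem _ (D1_mem i g (R_mono (Nat.le_succ j) hg)) hg) v hv
  exact Submodule.add_mem _ h hv

theorem W_Dc {j : ℕ} (i l : Fin n) (hil : l ≠ i) (v : F n) (hv : v ∈ W n j) :
    Dop i (coord l) v ∈ W n j := by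
  have h := W_cmp (j := j) (sh i (coord l)) (sh_invol i _ (fun x => by simp [coord, sh, hil]))
    (fun g hg => by
      rw [cmp_eq]
      exact Submodule.add_mem _ (Dc_mem i l g hg) hg) v hv
  exact Submodule.add_mem _ h hv

theorem sup_map {M N M' N' : Submodule (ZMod 2) (F n)} (φ : F n →ₗ[ZMod 2] F n)
    (h1 : ∀ v ∈ M, φ v ∈ M') (h2 : ∀ v ∈ N, φ v ∈ N') (v : F n) (hv : v ∈ M ⊔ N) :
    φ v ∈ M' ⊔ N' := by
  obtain ⟨a, ha, b, hb, rfl⟩ := Submodule.mem_sup.mp hv
  rw [map_add]
  exact Submodule.add_mem_sup (h1 a ha) (h2 b hb)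

theorem isolate {j d : ℕ} (S : Finset (Fin n)) (hS : S.card = d) :
    ∀ (m : ℕ) (T : Finset (Finset (Fin n))), T.card ≤ m → (∀ U ∈ T, U.card = d) → S ∈ T →
      (∑ U ∈ T, mono U) ∈ W n j ⊔ R n d → mono S ∈ W n j ⊔ R n d := by
  intro m
  induction m with
  | zero =>
    intro T hT _ hST
    have := Finset.card_pos.mpr ⟨S, hST⟩
    omega
  | succ m ih =>
    intro T hT hd hST hv
    by_cases hone : ∀ U ∈ T, U = S
    · have : T = {S} := Finset.eq_singleton_iff_unique_mem.mpr ⟨hST, hone⟩
      rw [this, Finset.sum_singleton] at hv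
      exact hv
    push Not at hone
    obtain ⟨U0, hU0, hne⟩ := hone
    obtain ⟨a, haS, haU⟩ : ∃ a, a ∈ S ∧ a ∉ U0 := by
      by_contra hc
      push Not at hc
      exact hne (Finset.eq_of_subset_of_card_le hc (by rw [hS, hd U0 hU0])).symm
    obtain ⟨b, hbU, hbS⟩ : ∃ b, b ∈ U0 ∧ b ∉ S := by
      by_contra hc
      push Not at hc
      exact hne (Finset.eq_of_subset_of_card_le hc (by rw [hS, hd U0 hU0]))
    have hab : a ≠ b := fun h => hbS (h ▸ haS)
    let φ : F n →ₗ[ZMod 2] F n := (Dop b (coord a)).comp (Dop a (coord b))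
    have hφ : φ (∑ U ∈ T, mono U) ∈ W n j ⊔ R n d :=
      sup_map φ (fun v hv => W_Dc b a hab _ (W_Dc a b hab.symm v hv))
        (fun v hv => Dc_mem b a _ (Dc_mem a b v hv)) _ hv
    rw [map_sum, ← Finset.sum_filter_add_sum_filter_not T (fun U => a ∈ U ∧ b ∉ U)] at hφ
    have h1 : ∑ U ∈ T.filter (fun U => a ∈ U ∧ b ∉ U), φ (mono U)
        = ∑ U ∈ T.filter (fun U => a ∈ U ∧ b ∉ U), mono U := by
      refine Finset.sum_congr rfl (fun U hU => ?_)
      obtain ⟨_, ha, hb⟩ := Finset.mem_filter.mp hU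
      simp only [φ, LinearMap.comp_apply]
      rw [Dop_mono, if_pos ha, coord_mul, Dop_mono, if_pos (Finset.mem_insert_self _ _), coord_mul,
        Finset.erase_insert (fun h => hb (Finset.mem_of_mem_erase h)), Finset.insert_erase ha]
    have h2 : ∑ U ∈ T.filter (fun U => ¬ (a ∈ U ∧ b ∉ U)), φ (mono U) ∈ R n d := by
      refine Submodule.sum_mem _ (fun U hU => ?_)
      obtain ⟨hUT, hn⟩ := Finset.mem_filter.mp hU
      simp only [φ, LinearMap.comp_apply]
      rw [Dop_mono]
      by_cases ha : a ∈ U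
      · have hb : b ∈ U := by
          by_contra hb; exact hn ⟨ha, hb⟩
        rw [if_pos ha, coord_mul]
        apply Dc_mem
        rw [Finset.insert_eq_of_mem (Finset.mem_erase.mpr ⟨hab.symm, hb⟩)]
        have := Finset.card_erase_of_mem ha
        have := Finset.card_pos.mpr ⟨a, ha⟩
        have := hd U hUT
        exact mono_mem _ (by omega)
      · rw [if_neg ha, map_zero]; exact Submodule.zero_mem _
    rw [h1] at hφ
    have h3 : ∑ U ∈ T.filter (fun U => a ∈ U ∧ b ∉ U), mono U ∈ W n j ⊔ R n d := by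
      have := Submodule.sub_mem _ hφ (Submodule.mem_sup_right h2)
      simpa using this
    refine ih _ ?_ (fun U hU => hd U (Finset.mem_filter.mp hU).1)
      (Finset.mem_filter.mpr ⟨hST, haS, hbS⟩) h3
    have : (T.filter (fun U => a ∈ U ∧ b ∉ U)).card < T.card :=
      Finset.card_lt_card (Finset.filter_ssubset.mpr ⟨U0, hU0, fun h => haU h.1⟩)
    omega

theorem lower {j : ℕ} : ∀ (e : ℕ) (S : Finset (Fin n)), S.card = j + e →
    mono S ∈ W n j ⊔ R n (j + e) → ∃ S' : Finset (Fin n), S'.card = j ∧ mono S' ∈ W n j := by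
  intro e
  induction e with
  | zero =>
    intro S hS h
    exact ⟨S, hS, (sup_le le_rfl R_le_W : W n j ⊔ R n j ≤ W n j) h⟩
  | succ e ih =>
    intro S hS h
    obtain ⟨i, hi⟩ := Finset.card_pos.mp (by omega : 0 < S.card)
    have h1 := sup_map (Dop i 1) (W_D1 i) (D1_mem (j := j + e) i) _ h
    rw [Dop_mono, if_pos hi, one_mul] at h1
    exact ih _ (by rw [Finset.card_erase_of_mem hi]; omega) h1

theorem exchange {j : ℕ} (T : Finset (Fin n)) : ∀ (m : ℕ) (S : Finset (Fin n)),
    (T \ S).card ≤ m → S.card = T.card → mono S ∈ W n j → mono T ∈ W n j := by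
  intro m
  induction m with
  | zero =>
    intro S hm hS h
    have : T ⊆ S := Finset.sdiff_eq_empty_iff_subset.mp (Finset.card_eq_zero.mp (by omega))
    rwa [Finset.eq_of_subset_of_card_le this (by omega)]
  | succ m ih =>
    intro S hm hS h
    by_cases hST : S = T
    · rwa [← hST]
    obtain ⟨a, haS, haT⟩ : ∃ a, a ∈ S ∧ a ∉ T := by
      by_contra hc
      push Not at hc
      exact hST (Finset.eq_of_subset_of_card_le hc (by omega))
    obtain ⟨b, hbT, hbS⟩ : ∃ b, b ∈ T ∧ b ∉ S := by
      by_contra hc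
      push Not at hc
      exact hST (Finset.eq_of_subset_of_card_le hc (by omega)).symm
    have hab : b ≠ a := fun h => hbS (h ▸ haS)
    have h1 := W_Dc a b hab _ h
    rw [Dop_mono, if_pos haS, coord_mul] at h1
    refine ih _ ?_ ?_ h1
    · have : T \ insert b (S.erase a) = (T \ S).erase b := by
        ext x
        simp only [Finset.mem_sdiff, Finset.mem_insert, Finset.mem_erase]
        constructor
        · rintro ⟨h1, h2⟩
          refine ⟨fun h => h2 (Or.inl h), h1, fun h => h2 (Or.inr ⟨fun h' => haT (h' ▸ h1), h⟩)⟩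
        · rintro ⟨h1, h2, h3⟩
          exact ⟨h2, fun h => h.elim h1 (fun h => h3 h.2)⟩
      rw [this, Finset.card_erase_of_mem (Finset.mem_sdiff.mpr ⟨hbT, hbS⟩)]
      omega
    · rw [Finset.card_insert_of_notMem (fun h => hbS (Finset.mem_of_mem_erase h)),
        Finset.card_erase_of_mem haS]
      have := Finset.card_pos.mpr ⟨a, haS⟩
      omega

theorem mem_R_iff {j : ℕ} (f : F n) : f ∈ R n j ↔ ∃ a : Finset (Fin n) → ZMod 2,
    f = ∑ S ∈ (Finset.univ : Finset (Finset (Fin n))).filter (fun S => S.card < j), a S • mono S := by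
  constructor
  · intro hf
    induction hf using Submodule.span_induction with
    | mem f hf =>
      obtain ⟨S, hS, rfl⟩ := hf
      refine ⟨Pi.single S 1, ?_⟩
      rw [Finset.sum_eq_single S]
      · simp
      · intro b _ hb; simp [hb]
      · intro h; exact absurd (Finset.mem_filter.mpr ⟨Finset.mem_univ _, hS⟩) h
    | zero => exact ⟨0, by simp⟩
    | add f g _ _ hf hg =>
      obtain ⟨a, rfl⟩ := hf
      obtain ⟨b, rfl⟩ := hg
      exact ⟨a + b, by simp [add_smul, Finset.sum_add_distrib]⟩
    | smul c f _ hf =>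
      obtain ⟨a, rfl⟩ := hf
      exact ⟨c • a, by simp [Finset.smul_sum, smul_smul]⟩
  · rintro ⟨a, rfl⟩
    exact Submodule.sum_mem _ (fun S hS => Submodule.smul_mem _ _
      (mono_mem S (Finset.mem_filter.mp hS).2))

theorem W_le_R {j : ℕ} (v : F n) (hv : v ∈ W n j) : v ∈ R n j := by
  have key : ∀ e, v ∈ R n (j + e) → v ∈ R n j := by
    intro e
    induction e with
    | zero => exact id
    | succ e ih =>
      intro h
      apply ih
      obtain ⟨a, ha⟩ := (mem_R_iff v).mp h
      let T : Finset (Finset (Fin n)) := Finset.univ.filter (fun S => S.card = j + e ∧ a S = 1)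
      have hdiff : v - ∑ U ∈ T, mono U ∈ R n (j + e) := by
        have e1 : ∑ U ∈ T, mono U = ∑ S ∈ (Finset.univ : Finset (Finset (Fin n))).filter
            (fun S => S.card < j + (e + 1)), if S.card = j + e ∧ a S = 1 then mono S else 0 := by
          rw [← Finset.sum_filter]
          refine Finset.sum_congr ?_ (fun _ _ => rfl)
          ext S
          simp only [T, Finset.mem_filter, Finset.mem_univ, true_and]
          constructor
          · intro h; exact ⟨by omega, h⟩
          · intro h; exact h.2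
        rw [e1, ha, ← Finset.sum_sub_distrib]
        refine Submodule.sum_mem _ (fun S hS => ?_)
        have hS' := (Finset.mem_filter.mp hS).2
        rcases (by decide : ∀ c : ZMod 2, c = 0 ∨ c = 1) (a S) with h0 | h0
        · simp [h0]
        · by_cases hc : S.card = j + e
          · simp [h0, hc]
          · simp only [h0, hc, false_and, if_false, one_smul, sub_zero]
            exact mono_mem S (by omega)
      rcases T.eq_empty_or_nonempty with hT | ⟨S, hS⟩
      · rw [hT] at hdiff; simpa using hdiff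
      exfalso
      have hsum : ∑ U ∈ T, mono U ∈ W n j ⊔ R n (j + e) := by
        have := Submodule.sub_mem _ (Submodule.mem_sup_left (T := R n (j + e)) hv)
          (Submodule.mem_sup_right hdiff)
        simpa using this
      have hSc : S.card = j + e := (Finset.mem_filter.mp hS).2.1
      have h1 := isolate S hSc _ T le_rfl (fun U hU => (Finset.mem_filter.mp hU).2.1) hS hsum
      obtain ⟨S', hS', h2⟩ := lower e S hSc h1
      have hle : ∀ g ∈ R n (j + 1), g ∈ W n j := by
        intro g hg
        refine R_map LinearMap.id _ (fun U hU => ?_) g hg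
        rcases Nat.lt_succ_iff_lt_or_eq.mp hU with h | h
        · exact R_le_W (mono_mem U h)
        · exact exchange U _ S' le_rfl (by omega) h2
      have hjn : j ≤ n := by
        have := Finset.card_le_univ S'
        simp only [Fintype.card_fin] at this
        omega
      have h3 := rho_strict n j hjn
      obtain ⟨h0, hh0⟩ := rho_ex n j
      obtain ⟨g, hg, hd⟩ := dd_ex h0 (R_ne n (j + 1))
      have h4 := dd_le_rho (j := j + 1) h0
      have h5 := hle g hg h0 hh0
      have h6 := dd_le (g + h0) (show (0 : F n) ∈ (R n j : Set (F n)) from (R n j).zero_mem)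
      rw [hd_move, add_zero, hammingDist_comm] at h6
      omega
  exact key (n + 1) (mem_top (by omega) v)

theorem regular (j : ℕ) (B : Set (F n)) (hB : ∀ y, y ∈ B ↔ dd y (R n j) = rho n j) (z : F n) :
    (∀ w : F n, dd w B ≤ dd z B) ↔ z ∈ R n j := by
  obtain ⟨h0, hh0⟩ := rho_ex n j
  have hBne : B.Nonempty := ⟨h0, (hB h0).mpr hh0⟩
  have hshift : ∀ h ∈ B, ∀ c ∈ R n j, c + h ∈ B := fun h hh c hc =>
    (hB _).mpr (R_le_W hc h ((hB h).mp hh))
  have hup : ∀ w, dd w B ≤ rho n j := by
    intro w
    obtain ⟨c, hc, hd⟩ := dd_ex (w + h0) (R_ne n j)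
    have h1 := dd_le w (hshift h0 ((hB h0).mpr hh0) c hc)
    rw [add_comm c h0, ← hd_move, hd] at h1
    exact h1.trans (dd_le_rho _)
  have hlow : ∀ c ∈ R n j, rho n j ≤ dd c B := by
    intro c hc
    obtain ⟨h, hh, hd⟩ := dd_ex c hBne
    rw [← hd, hammingDist_comm, ← (hB h).mp hh]
    exact dd_le h hc
  constructor
  · intro hz
    apply W_le_R
    intro h hh
    apply le_antisymm (dd_le_rho _)
    obtain ⟨c, hc, hd⟩ := dd_ex (z + h) (R_ne n j)
    rw [← hd, hd_move, add_comm h c]
    exact ((hlow 0 (R n j).zero_mem).trans (hz 0)).trans (dd_le z (hshift h ((hB h).mpr hh) c hc))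
  · intro hz w
    exact (hup w).trans (hlow z hz)

end Pool.Agent.H4.RM
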