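import Mathlib

/-! Matroids from rank functions, and the matroid induced by a submodular function. -/

namespace Pool.Agent.H4.RankMat

open Finset

variable {S : Type} [DecidableEq S]

structure IsRank (r : Finset S → ℕ) : Prop where
  le_card : ∀ A, r A ≤ A.card
  mono : ∀ A B, A ⊆ B → r A ≤ r B
  submod : ∀ A B, r (A ∪ B) + r (A ∩ B) ≤ r A + r B

theorem IsRank.union_le {r : Finset S → ℕ} (h : IsRank r) (A B : Finset S) :
    r (A ∪ B) ≤ r A + B.card := by
  have := h.submod A B
  have := h.le_card B
  omega

theorem IsRank.span {r : Finset S → ℕ} (h : IsRank r) (I J : Finset S)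
    (hJ : ∀ e ∈ J, r (insert e I) ≤ r I) : r (I ∪ J) ≤ r I := by
  induction J using Finset.induction_on with
  | empty => simp
  | insert e J _ ih =>
    have h1 := ih fun x hx => hJ x (mem_insert_of_mem hx)
    have h2 := hJ e (mem_insert_self _ _)
    have h3 := h.submod (I ∪ J) (insert e I)
    have h4 : I ∪ J ∪ insert e I = I ∪ insert e J := by
      ext x; simp only [mem_union, mem_insert]; tauto
    have h5 := h.mono I ((I ∪ J) ∩ insert e I) (by
      intro x hx; simp only [mem_union, mem_insert, mem_inter]; tauto)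
    rw [h4] at h3
    omega

theorem IsRank.indep_subset {r : Finset S → ℕ} (h : IsRank r) {I J : Finset S}
    (hJ : r J = J.card) (hIJ : I ⊆ J) : r I = I.card := by
  have h1 := h.union_le I (J \ I)
  rw [union_sdiff_of_subset hIJ, card_sdiff_of_subset hIJ] at h1
  have := card_le_card hIJ
  have := h.le_card I
  omega

/-- The matroid with rank function `r`. -/
def IsRank.mat {r : Finset S → ℕ} (h : IsRank r) : Matroid S :=
  (IndepMatroid.ofFinset (E := Set.univ) (fun I : Finset S => r I = I.card)
    (by have := h.le_card ∅; simpa using this)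
    (fun _ _ hJ hIJ => h.indep_subset hJ hIJ)
    (by
      intro I J hI hJ hlt
      by_contra hcon
      push Not at hcon
      have h1 := h.span I J (by
        intro e he
        by_cases heI : e ∈ I
        · rw [insert_eq_of_mem heI]
        · have h2 := hcon e he heI
          have h3 := h.le_card (insert e I)
          rw [card_insert_of_notMem heI] at h2 h3
          omega)
      have h2 := h.mono J (I ∪ J) subset_union_right
      omega)
    (fun _ _ => Set.subset_univ _)).matroid

theorem IsRank.mat_E {r : Finset S → ℕ} (h : IsRank r) : h.mat.E = Set.univ := rfl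

theorem IsRank.mat_indep {r : Finset S → ℕ} (h : IsRank r) (I : Finset S) :
    h.mat.Indep (I : Set S) ↔ r I = I.card := by
  unfold IsRank.mat
  rw [IndepMatroid.matroid_indep_iff, IndepMatroid.ofFinset_indep]

theorem IsRank.mat_eRk {r : Finset S → ℕ} (h : IsRank r) (A : Finset S) :
    h.mat.eRk (A : Set S) = r A := by
  obtain ⟨I, hI⟩ := h.mat.exists_isBasis (A : Set S) (Set.subset_univ _)
  have hfin : I.Finite := A.finite_toSet.subset hI.subset
  lift I to Finset S using hfin
  have hIA : I ⊆ A := by exact_mod_cast hI.subset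
  have h1 : r I = I.card := (h.mat_indep I).1 hI.indep
  have h2 := h.span I A (by
    intro e he
    by_cases heI : e ∈ I
    · rw [insert_eq_of_mem heI]
    · have h3 := (hI.insert_dep (e := e) ⟨by exact_mod_cast he, by exact_mod_cast heI⟩).not_indep
      rw [← Finset.coe_insert, h.mat_indep] at h3
      have h4 := h.le_card (insert e I)
      rw [card_insert_of_notMem heI] at h3 h4
      omega)
  rw [union_eq_right.2 hIA] at h2
  have h3 := h.mono I A hIA
  rw [← hI.encard_eq_eRk, Set.encard_coe_eq_coe_finsetCard]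
  congr 1
  omega

variable [Fintype S]

/-- The rank function induced by a set function `f`. -/
def ind (f : Finset S → ℕ) (A : Finset S) : ℕ :=
  (univ : Finset (Finset S)).inf' univ_nonempty fun Y => f Y + (A \ Y).card

theorem ind_le (f : Finset S → ℕ) (A Y : Finset S) : ind f A ≤ f Y + (A \ Y).card :=
  Finset.inf'_le (fun Y => f Y + (A \ Y).card) (mem_univ Y)

theorem ind_ex (f : Finset S → ℕ) (A : Finset S) : ∃ Y, ind f A = f Y + (A \ Y).card := by
  obtain ⟨Y, _, hY⟩ := Finset.exists_mem_eq_inf' (s := (univ : Finset (Finset S))) univ_nonempty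
    fun Y => f Y + (A \ Y).card
  exact ⟨Y, hY⟩

theorem ind_rank (f : Finset S → ℕ) (h0 : f ∅ = 0)
    (hs : ∀ A B, f (A ∪ B) + f (A ∩ B) ≤ f A + f B) : IsRank (ind f) where
  le_card A := by simpa [h0] using ind_le f A ∅
  mono A B hAB := by
    obtain ⟨Y, hY⟩ := ind_ex f B
    have h1 := ind_le f A Y
    have h2 : (A \ Y).card ≤ (B \ Y).card := card_le_card (sdiff_subset_sdiff hAB subset_rfl)
    omega
  submod A B := by
    obtain ⟨Y, hY⟩ := ind_ex f A
    obtain ⟨Z, hZ⟩ := ind_ex f B
    have h1 := ind_le f (A ∪ B) (Y ∪ Z)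
    have h2 := ind_le f (A ∩ B) (Y ∩ Z)
    have h3 := hs Y Z
    have h4 := card_union_add_card_inter ((A ∪ B) \ (Y ∪ Z)) ((A ∩ B) \ (Y ∩ Z))
    have h5 := card_union_add_card_inter (A \ Y) (B \ Z)
    have h6 : ((A ∪ B) \ (Y ∪ Z) ∪ (A ∩ B) \ (Y ∩ Z)).card ≤ (A \ Y ∪ B \ Z).card :=
      card_le_card (by
        intro x; simp only [mem_union, mem_sdiff, mem_inter]; tauto)
    have h7 : ((A ∪ B) \ (Y ∪ Z) ∩ ((A ∩ B) \ (Y ∩ Z))).card ≤ (A \ Y ∩ (B \ Z)).card :=
      card_le_card (by
        intro x; simp only [mem_union, mem_sdiff, mem_inter]; tauto)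
    omega

end Pool.Agent.H4.RankMat
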