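import Pool.Agent.H11.GMk

set_option autoImplicit false

namespace Pool.Agent.H4.Rep

open Pool.Agent.H11.PT

/-- the graph on the entries of a list -/
def lg {V : Type} (vs : List V) (adj : V → V → Bool) : SimpleGraph {v // v ∈ vs} :=
  SimpleGraph.fromRel fun u v => adj u.1 v.1 = true

theorem lg_adj {V : Type} {vs : List V} {adj : V → V → Bool} (u v : {v // v ∈ vs}) :
    (lg vs adj).Adj u v ↔ u.1 ≠ v.1 ∧ (adj u.1 v.1 = true ∨ adj v.1 u.1 = true) := by
  simp [lg, Subtype.ext_iff]

theorem rep {V : Type} [DecidableEq V] (vs : List V) (nd : vs.Nodup) (adj : V → V → Bool) :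
    Nonempty (gr vs.length (mkE vs adj) ≃g lg vs adj) := by
  refine ⟨⟨nd.getEquiv vs, fun {i j} => ?_⟩⟩
  have hi : Function.Injective vs.get := List.nodup_iff_injective_get.1 nd
  rw [lg_adj]
  simp only [gr, SimpleGraph.fromRel_adj, mem_mkE, ← hi.ne_iff]
  simp [List.Nodup.getEquiv]

end Pool.Agent.H4.Rep
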