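import Mathlib

set_option autoImplicit false

namespace Pool.Agent.H4.Sig

open Real Finset

/-- positive side of the bilinear region -/
def Ps (α β γ δ u v : ℝ) : Prop := γ * exp u + δ ≤ exp v * (α * exp u + β)

theorem gad {α β γ δ Q V r s t w : ℝ} (hα : 0 < α) (hβ : 0 ≤ β) (hΔ : β * γ ≤ α * δ)
    (hQ : 0 < Q) (hV : 0 < V) (hr : 0 < r) (hs : 0 < s) (ht : 0 < t) (hw : 0 < w)
    (hrs : (1 ≤ r ∧ 1 ≤ s) ∨ (r ≤ 1 ∧ s ≤ 1)) (hδ : 0 < δ)
    (h0 : V * (α * Q + β) < γ * Q + δ) (h1 : γ * (Q * r) + δ ≤ V * t * (α * (Q * r) + β))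
    (h2 : γ * (Q * s) + δ ≤ V * w * (α * (Q * s) + β))
    (h3 : V * t * w * (α * (Q * r * s) + β) < γ * (Q * r * s) + δ) :
    β * δ < α * γ * (Q * r * (Q * s)) := by
  have d0 : 0 < α * Q + β := by positivity
  have d1 : 0 < α * (Q * r) + β := by positivity
  have d2 : 0 < α * (Q * s) + β := by positivity
  have d3 : 0 < α * (Q * r * s) + β := by positivity
  have n0 : 0 < γ * Q + δ := lt_trans (by positivity) h0
  have n3 : 0 < γ * (Q * r * s) + δ := lt_trans (by positivity) h3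
  have hn : 0 < γ * (Q * r) + δ ∧ 0 < γ * (Q * s) + δ := by
    rcases le_total 0 γ with hγ | hγ
    · constructor <;> positivity
    · rcases hrs with ⟨a, b⟩ | ⟨a, b⟩
      · have e1 : Q * r ≤ Q * r * s := le_mul_of_one_le_right (by positivity) b
        have e2 : Q * s ≤ Q * r * s := by nlinarith [mul_pos hQ hs]
        constructor <;> nlinarith
      · have e1 : Q * r ≤ Q := mul_le_of_le_one_right hQ.le a
        have e2 : Q * s ≤ Q := mul_le_of_le_one_right hQ.le b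
        constructor <;> nlinarith
  have p1 : (γ * (Q * r) + δ) * (γ * (Q * s) + δ) ≤
      (V * t * (α * (Q * r) + β)) * (V * w * (α * (Q * s) + β)) :=
    mul_le_mul h1 h2 hn.2.le (by positivity)
  have p2 : (V * (α * Q + β)) * (V * t * w * (α * (Q * r * s) + β)) <
      (γ * Q + δ) * (γ * (Q * r * s) + δ) := mul_lt_mul'' h0 h3 (by positivity) (by positivity)
  have p3 := mul_le_mul_of_nonneg_right p1 (mul_pos d0 d3).le
  have p4 := mul_lt_mul_of_pos_right p2 (mul_pos d1 d2)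
  have id : (γ * Q + δ) * (γ * (Q * r * s) + δ) * ((α * (Q * r) + β) * (α * (Q * s) + β)) -
      (γ * (Q * r) + δ) * (γ * (Q * s) + δ) * ((α * Q + β) * (α * (Q * r * s) + β)) =
      (Q * ((r - 1) * (s - 1)) * (α * δ - β * γ)) * (α * γ * (Q * r * (Q * s)) - β * δ) := by ring
  have hp : 0 < (Q * ((r - 1) * (s - 1)) * (α * δ - β * γ)) *
      (α * γ * (Q * r * (Q * s)) - β * δ) := by rw [← id]; nlinarith
  have hq : 0 ≤ Q * ((r - 1) * (s - 1)) * (α * δ - β * γ) := by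
    refine mul_nonneg (mul_nonneg hQ.le ?_) (by linarith)
    rcases hrs with ⟨a, b⟩ | ⟨a, b⟩
    · exact mul_nonneg (by linarith) (by linarith)
    · exact mul_nonneg_of_nonpos_of_nonpos (by linarith) (by linarith)
  by_contra hc
  nlinarith [mul_nonpos_of_nonneg_of_nonpos hq (by linarith : α * γ * (Q * r * (Q * s)) - β * δ ≤ 0)]

theorem sup {α β γ δ Q V r s t w : ℝ} (hα : 0 < α) (hγ : 0 < γ) (hΔ : β * γ ≤ α * δ)
    (hQ : 0 < Q) (hV : 0 < V) (hr : 0 < r) (hs : 0 < s) (ht : 0 < t) (hw : 0 < w)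
    (hrs : (1 ≤ r ∧ 1 ≤ s) ∨ (r ≤ 1 ∧ s ≤ 1)) (hδ : 0 < δ)
    (h0 : γ * Q + δ ≤ V * (α * Q + β)) (h1 : V * t * (α * (Q * r) + β) < γ * (Q * r) + δ)
    (h2 : V * w * (α * (Q * s) + β) < γ * (Q * s) + δ)
    (hc : β * δ ≤ α * γ * (Q * r * (Q * s))) :
    V * t * w * (α * (Q * r * s) + β) < γ * (Q * r * s) + δ := by
  by_contra h3
  push Not at h3
  have n0 : 0 < γ * Q + δ := by positivity
  have n3 : 0 < γ * (Q * r * s) + δ := by positivity
  have d0 : 0 < α * Q + β := (pos_iff_pos_of_mul_pos (n0.trans_le h0)).1 hV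
  have d3 : 0 < α * (Q * r * s) + β :=
    (pos_iff_pos_of_mul_pos (n3.trans_le h3)).1 (by positivity : 0 < V * t * w)
  have hd : 0 < α * (Q * r) + β ∧ 0 < α * (Q * s) + β := by
    rcases hrs with ⟨a, b⟩ | ⟨a, b⟩
    · have e1 : Q ≤ Q * r := le_mul_of_one_le_right hQ.le a
      have e2 : Q ≤ Q * s := le_mul_of_one_le_right hQ.le b
      constructor <;> nlinarith
    · have e1 : Q * r * s ≤ Q * r := mul_le_of_le_one_right (by positivity) b
      have e2 : Q * r * s ≤ Q * s := by nlinarith [mul_pos hQ hs]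
      constructor <;> nlinarith
  obtain ⟨d1, d2⟩ := hd
  have p1 : (V * t * (α * (Q * r) + β)) * (V * w * (α * (Q * s) + β)) <
      (γ * (Q * r) + δ) * (γ * (Q * s) + δ) := mul_lt_mul'' h1 h2 (by positivity) (by positivity)
  have p2 : (γ * Q + δ) * (γ * (Q * r * s) + δ) ≤
      (V * (α * Q + β)) * (V * t * w * (α * (Q * r * s) + β)) :=
    mul_le_mul h0 h3 n3.le (by positivity)
  have p3 := mul_lt_mul_of_pos_right p1 (mul_pos d0 d3)
  have p4 := mul_le_mul_of_nonneg_right p2 (mul_pos d1 d2).le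
  have id : (γ * Q + δ) * (γ * (Q * r * s) + δ) * ((α * (Q * r) + β) * (α * (Q * s) + β)) -
      (γ * (Q * r) + δ) * (γ * (Q * s) + δ) * ((α * Q + β) * (α * (Q * r * s) + β)) =
      (Q * ((r - 1) * (s - 1)) * (α * δ - β * γ)) * (α * γ * (Q * r * (Q * s)) - β * δ) := by ring
  have hq : 0 ≤ Q * ((r - 1) * (s - 1)) * (α * δ - β * γ) := by
    refine mul_nonneg (mul_nonneg hQ.le ?_) (by linarith)
    rcases hrs with ⟨a, b⟩ | ⟨a, b⟩
    · exact mul_nonneg (by linarith) (by linarith)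
    · exact mul_nonneg_of_nonpos_of_nonpos (by linarith) (by linarith)
  have hp := mul_nonneg hq (by linarith : 0 ≤ α * γ * (Q * r * (Q * s)) - β * δ)
  rw [← id] at hp
  nlinarith

theorem tangent {α β γ δ q w : ℝ} (hα : 0 < α) (hβ : 0 < β) (hγ : 0 < γ) (hδ : 0 < δ)
    (hΔ : β * γ ≤ α * δ) (hw : w ≤ q) (hc : α * γ * (exp q * exp w) ≤ β * δ) :
    ∃ l : ℝ, ∀ x ≤ q, log (γ * exp x + δ) - log (α * exp x + β) + l * x ≤
      log (γ * exp w + δ) - log (α * exp w + β) + l * w := by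
  set m : ℝ → ℝ := fun x => exp x * (α * δ - β * γ) / ((γ * exp x + δ) * (α * exp x + β)) with hm
  refine ⟨m w, ?_⟩
  set h : ℝ → ℝ := fun x => log (γ * exp x + δ) - log (α * exp x + β) + m w * x with hh
  have hd : ∀ x, HasDerivAt h (m w - m x) x := by
    intro x
    have n : 0 < γ * exp x + δ := by positivity
    have d : 0 < α * exp x + β := by positivity
    have a := ((((hasDerivAt_exp x).const_mul γ).add_const δ).log n.ne').sub
      ((((hasDerivAt_exp x).const_mul α).add_const β).log d.ne')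
    have b := a.add ((hasDerivAt_id x).const_mul (m w))
    refine (b.congr_deriv ?_).congr_of_eventuallyEq (Filter.Eventually.of_forall fun y => ?_)
    · simp only [hm]; field_simp; ring
    · simp [hh]
  have key : ∀ x, m w - m x = (α * δ - β * γ) * ((exp w - exp x) * (β * δ - α * γ * (exp x * exp w))) /
      ((γ * exp x + δ) * (α * exp x + β) * ((γ * exp w + δ) * (α * exp w + β))) := by
    intro x
    have n : 0 < γ * exp x + δ := by positivity
    have d : 0 < α * exp x + β := by positivity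
    have n' : 0 < γ * exp w + δ := by positivity
    have d' : 0 < α * exp w + β := by positivity
    simp only [hm]; field_simp; ring
  have hb : ∀ x ≤ q, 0 ≤ β * δ - α * γ * (exp x * exp w) := by
    intro x hx
    have : α * γ * (exp x * exp w) ≤ α * γ * (exp q * exp w) := by gcongr
    linarith
  have hcont : Continuous h := continuous_iff_continuousAt.2 fun x => (hd x).continuousAt
  have hdiff : Differentiable ℝ h := fun x => (hd x).differentiableAt
  intro x hx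
  change h x ≤ h w
  rcases le_total x w with hxw | hxw
  · refine monotoneOn_of_deriv_nonneg (convex_Iic w) hcont.continuousOn
      hdiff.differentiableOn (fun y hy => ?_) hxw (le_refl w) hxw
    rw [interior_Iic] at hy
    have hy' : y < w := hy
    rw [(hd y).deriv, key]
    refine div_nonneg (mul_nonneg (by linarith) (mul_nonneg ?_ (hb y (by linarith)))) (by positivity)
    linarith [exp_le_exp.2 hy'.le]
  · refine antitoneOn_of_deriv_nonpos (convex_Icc w q) hcont.continuousOn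
      hdiff.differentiableOn (fun y hy => ?_) ⟨le_refl w, hw⟩ ⟨hxw, hx⟩ hxw
    rw [interior_Icc] at hy
    rw [(hd y).deriv, key]
    refine div_nonpos_of_nonpos_of_nonneg (mul_nonpos_of_nonneg_of_nonpos (by linarith)
      (mul_nonpos_of_nonpos_of_nonneg ?_ (hb y hy.2.le))) (by positivity)
    linarith [exp_le_exp.2 hy.1.le]

/-- `a` is on or above the line of slope `l` through `(r, t)` and at most one other point is -/
def Close (S : Finset ℕ) (R T : ℕ → ℝ) (r t : ℝ) (a : ℕ) : Prop :=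
  ∃ l : ℝ, t + l * r ≤ T a + l * R a ∧ ¬ ∃ b ∈ S, ∃ c ∈ S, b ≠ a ∧ c ≠ a ∧ b ≠ c ∧
    t + l * r ≤ T b + l * R b ∧ t + l * r ≤ T c + l * R c

open Classical in
theorem close_half (S : Finset ℕ) (R T : ℕ → ℝ) (r t ε : ℝ) :
    (S.filter fun a => Close S R T r t a ∧ ∀ l l' : ℝ, ε * l ≤ ε * l' →
      t + l * r ≤ T a + l * R a → t + l' * r ≤ T a + l' * R a).card ≤ 2 := by
  by_contra h
  push Not at h
  obtain ⟨a, b, c, ha, hb, hc, hab, hac, hbc⟩ := Finset.two_lt_card_iff.1 h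
  simp only [mem_filter] at ha hb hc
  obtain ⟨ha, ⟨la, a1, a2⟩, a3⟩ := ha
  obtain ⟨hb, ⟨lb, b1, b2⟩, b3⟩ := hb
  obtain ⟨hc, ⟨lc, c1, c2⟩, c3⟩ := hc
  rcases le_total (ε * la) (ε * lb) with h1 | h1 <;> rcases le_total (ε * la) (ε * lc) with h2 | h2 <;>
    rcases le_total (ε * lb) (ε * lc) with h3 | h3
  all_goals first
    | exact a2 ⟨b, hb, c, hc, hab.symm, hac.symm, hbc, b3 _ _ (by linarith) b1, c3 _ _ (by linarith) c1⟩
    | exact b2 ⟨a, ha, c, hc, hab, hbc.symm, hac, a3 _ _ (by linarith) a1, c3 _ _ (by linarith) c1⟩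
    | exact c2 ⟨a, ha, b, hb, hac, hbc, hab, a3 _ _ (by linarith) a1, b3 _ _ (by linarith) b1⟩

open Classical in
theorem close_card (S : Finset ℕ) (R T : ℕ → ℝ) (r t : ℝ) :
    (S.filter fun a => Close S R T r t a).card ≤ 4 := by
  refine le_trans (card_le_card ?_) ((card_union_le _ _).trans
    (add_le_add (close_half S R T r t 1) (close_half S R T r t (-1))))
  intro a ha
  simp only [mem_filter, mem_union] at ha ⊢
  rcases le_total r (R a) with h | h
  · exact Or.inl ⟨ha.1, ha.2, fun l l' h1 h2 => by nlinarith⟩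
  · exact Or.inr ⟨ha.1, ha.2, fun l l' h1 h2 => by nlinarith⟩

theorem not_close {S : Finset ℕ} {R T : ℕ → ℝ} {r t r' t' l μ : ℝ} {a : ℕ} (ha : a ∈ S)
    (h : ¬ Close S R T r t a) (h1 : t + l * r ≤ T a + l * R a) (h2 : t' + l * r' ≤ t + l * r)
    (hS : ∀ a ∈ S, ∀ b ∈ S, ∀ c ∈ S, a ≠ b → a ≠ c → b ≠ c →
      (T a + l * R a) + (T b + l * R b) + (T c + l * R c) < μ) :
    (T a + l * R a) + (t + l * r) + (t' + l * r') < μ := by
  by_contra hc
  refine h ⟨l, h1, ?_⟩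
  rintro ⟨b, hb, c, hc', e1, e2, e3, e4, e5⟩
  have := hS a ha b hb c hc' e1.symm e2.symm e3
  linarith

open Classical in
theorem triple (X Y Z : Finset ℕ) (hX : X.card = 28) (hY : Y.card = 28) (hZ : Z.card = 28)
    (R1 T1 R2 T2 R3 T3 : ℕ → ℝ) :
    ∃ a ∈ X, ∃ b ∈ Y, ∃ c ∈ Z, a ≠ b ∧ a ≠ c ∧ b ≠ c ∧ ∀ l μ : ℝ,
      (∀ a ∈ X, ∀ b ∈ X, ∀ c ∈ X, a ≠ b → a ≠ c → b ≠ c →
        (T1 a + l * R1 a) + (T1 b + l * R1 b) + (T1 c + l * R1 c) < μ) →
      (∀ a ∈ Y, ∀ b ∈ Y, ∀ c ∈ Y, a ≠ b → a ≠ c → b ≠ c →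
        (T2 a + l * R2 a) + (T2 b + l * R2 b) + (T2 c + l * R2 c) < μ) →
      (∀ a ∈ Z, ∀ b ∈ Z, ∀ c ∈ Z, a ≠ b → a ≠ c → b ≠ c →
        (T3 a + l * R3 a) + (T3 b + l * R3 b) + (T3 c + l * R3 c) < μ) →
      (T1 a + l * R1 a) + (T2 b + l * R2 b) + (T3 c + l * R3 c) < μ := by
  let I : Prop → ℕ := fun p => if p then 1 else 0
  have hI : ∀ (S : Finset ℕ) (R T : ℕ → ℝ) (r t : ℝ), ∑ a ∈ S, I (Close S R T r t a) ≤ 4 := by
    intro S R T r t
    simpa [I] using close_card S R T r t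
  have hE : ∀ (S : Finset ℕ) (b : ℕ), ∑ a ∈ S, I (a = b) ≤ 1 := by
    intro S b
    by_cases h : b ∈ S
    · exact (sum_eq_single (f := fun a => I (a = b)) b (fun x _ hx => if_neg hx)
        (fun h' => (h' h).elim)).trans_le (if_pos rfl).le
    · exact (sum_eq_zero (f := fun a => I (a = b)) fun x hx =>
        if_neg (by rintro rfl; exact h hx)).trans_le zero_le_one
  suffices h : ∃ a ∈ X, ∃ b ∈ Y, ∃ c ∈ Z,
      (I (Close X R1 T1 (R2 b) (T2 b) a) + I (Close X R1 T1 (R3 c) (T3 c) a) + I (a = b) + I (a = c)) +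
      (I (Close Y R2 T2 (R1 a) (T1 a) b) + I (Close Y R2 T2 (R3 c) (T3 c) b) + I (b = c)) +
      (I (Close Z R3 T3 (R1 a) (T1 a) c) + I (Close Z R3 T3 (R2 b) (T2 b) c)) = 0 by
    obtain ⟨a, ha, b, hb, c, hc, h⟩ := h
    simp only [I, Nat.add_eq_zero_iff, ite_eq_right_iff, one_ne_zero, imp_false] at h
    obtain ⟨⟨⟨⟨⟨h1, h2⟩, h3⟩, h4⟩, ⟨h5, h6⟩, h7⟩, h8, h9⟩ := h
    refine ⟨a, ha, b, hb, c, hc, h3, h4, h7, fun l μ k1 k2 k3 => ?_⟩
    rcases le_total (T1 a + l * R1 a) (T2 b + l * R2 b) with e1 | e1 <;>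
      rcases le_total (T1 a + l * R1 a) (T3 c + l * R3 c) with e2 | e2 <;>
      rcases le_total (T2 b + l * R2 b) (T3 c + l * R3 c) with e3 | e3
    all_goals first
      | linarith [not_close ha h1 e1 e3 k1]
      | linarith [not_close ha h2 e2 e3 k1]
      | linarith [not_close hb h5 e1 e2 k2]
      | linarith [not_close hb h6 e3 e2 k2]
      | linarith [not_close hc h8 e2 e1 k3]
      | linarith [not_close hc h9 e3 e1 k3]
  by_contra hc
  push Not at hc
  have h0 : ∑ a ∈ X, ∑ b ∈ Y, ∑ c ∈ Z, 1 ≤ ∑ a ∈ X, ∑ b ∈ Y, ∑ c ∈ Z,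
      ((I (Close X R1 T1 (R2 b) (T2 b) a) + I (Close X R1 T1 (R3 c) (T3 c) a) + I (a = b) + I (a = c)) +
      (I (Close Y R2 T2 (R1 a) (T1 a) b) + I (Close Y R2 T2 (R3 c) (T3 c) b) + I (b = c)) +
      (I (Close Z R3 T3 (R1 a) (T1 a) c) + I (Close Z R3 T3 (R2 b) (T2 b) c))) :=
    sum_le_sum fun a ha => sum_le_sum fun b hb => sum_le_sum fun c hc' =>
      Nat.one_le_iff_ne_zero.2 (hc a ha b hb c hc')
  have h1 : ∑ a ∈ X, ∑ b ∈ Y, ∑ c ∈ Z, (I (Close X R1 T1 (R2 b) (T2 b) a) +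
      I (Close X R1 T1 (R3 c) (T3 c) a) + I (a = b) + I (a = c)) ≤ ∑ b ∈ Y, ∑ c ∈ Z, 10 := by
    rw [sum_comm]
    refine sum_le_sum fun b _ => ?_
    rw [sum_comm]
    refine sum_le_sum fun c _ => ?_
    simp only [sum_add_distrib]
    linarith [hI X R1 T1 (R2 b) (T2 b), hI X R1 T1 (R3 c) (T3 c), hE X b, hE X c]
  have h2 : ∑ a ∈ X, ∑ b ∈ Y, ∑ c ∈ Z, (I (Close Y R2 T2 (R1 a) (T1 a) b) +
      I (Close Y R2 T2 (R3 c) (T3 c) b) + I (b = c)) ≤ ∑ a ∈ X, ∑ c ∈ Z, 9 := by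
    refine sum_le_sum fun a _ => ?_
    rw [sum_comm]
    refine sum_le_sum fun c _ => ?_
    simp only [sum_add_distrib]
    linarith [hI Y R2 T2 (R1 a) (T1 a), hI Y R2 T2 (R3 c) (T3 c), hE Y c]
  have h3 : ∑ a ∈ X, ∑ b ∈ Y, ∑ c ∈ Z, (I (Close Z R3 T3 (R1 a) (T1 a) c) +
      I (Close Z R3 T3 (R2 b) (T2 b) c)) ≤ ∑ a ∈ X, ∑ b ∈ Y, 8 := by
    refine sum_le_sum fun a _ => sum_le_sum fun b _ => ?_
    simp only [sum_add_distrib]
    linarith [hI Z R3 T3 (R1 a) (T1 a), hI Z R3 T3 (R2 b) (T2 b)]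
  simp only [sum_add_distrib (f := fun c => _ + _ + _ + _ + (_ + _ + _)), sum_const, hX, hY, hZ,
    smul_eq_mul] at h0 h1 h2 h3
  simp only [sum_add_distrib] at h0 h1 h2 h3
  omega

end Pool.Agent.H4.Sig
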