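import Pool.Agent.H11.PTDefs

set_option autoImplicit false

namespace Pool.Agent.H4.Sig

/-- the standard sigmoid -/
noncomputable def sg (t : ℝ) : ℝ := 1 / (1 + Real.exp (-t))

/-- `a · x` for a Boolean input `x` of dimension `k` (true = 1, false = 0) -/
noncomputable def dot (k : ℕ) (a : Fin k → ℝ) (x : List Bool) : ℝ :=
  ∑ i : Fin k, a i * (if x.getD i false then 1 else 0)

/-- The loading problem: an instance is `k` with a list of labelled points of `{0,1}^k`; some real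
parameters make the network `η(c₀ + c₁ σ(a₁·x + b₁) + c₂ σ(a₂·x + b₂))` output every label. -/
def Loadable (y : ℕ × List (List Bool × Bool)) : Prop :=
  (∀ e ∈ y.2, e.1.length = y.1) ∧
  ∃ (a₁ a₂ : Fin y.1 → ℝ) (b₁ b₂ c₀ c₁ c₂ : ℝ), ∀ e ∈ y.2,
    (0 ≤ c₀ + c₁ * sg (dot y.1 a₁ e.1 + b₁) + c₂ * sg (dot y.1 a₂ e.1 + b₂) ↔ e.2 = true)

end Pool.Agent.H4.Sig
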