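import Pool.Agent.H4.Sig1
import Pool.Agent.H4.SigDefs
import Pool.Agent.H11.Base1

set_option autoImplicit false

namespace Pool.Agent.H4.Sig

open Real Finset Pool.Agent.H11.PT

theorem supA {α β γ δ q v r s t w : ℝ} (hα : 0 < α) (hγ : 0 < γ) (hδ : 0 < δ) (hΔ : β * γ ≤ α * δ)
    (hrs : (0 ≤ r ∧ 0 ≤ s) ∨ (r ≤ 0 ∧ s ≤ 0)) (h0 : Ps α β γ δ q v)
    (h1 : ¬ Ps α β γ δ (q + r) (v + t)) (h2 : ¬ Ps α β γ δ (q + s) (v + w))
    (hc : β * δ ≤ α * γ * exp (q + r + (q + s))) : ¬ Ps α β γ δ (q + (r + s)) (v + (t + w)) := by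
  simp only [Ps, not_le, exp_add, ← mul_assoc] at *
  have := sup (Q := exp q) (V := exp v) (r := exp r) (s := exp s) (t := exp t) (w := exp w)
    hα hγ hΔ (exp_pos _) (exp_pos _) (exp_pos _) (exp_pos _) (exp_pos _) (exp_pos _)
    (hrs.imp (fun h => ⟨one_le_exp h.1, one_le_exp h.2⟩)
      (fun h => ⟨exp_le_one_iff.2 h.1, exp_le_one_iff.2 h.2⟩)) hδ h0
    (by simpa only [← mul_assoc] using h1) (by simpa only [← mul_assoc] using h2)
    (by simpa only [← mul_assoc] using hc)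
  simpa only [← mul_assoc] using this

theorem gadA {α β γ δ q v r s t w : ℝ} (hα : 0 < α) (hβ : 0 ≤ β) (hδ : 0 < δ) (hΔ : β * γ ≤ α * δ)
    (hrs : (0 ≤ r ∧ 0 ≤ s) ∨ (r ≤ 0 ∧ s ≤ 0)) (h0 : ¬ Ps α β γ δ q v)
    (h1 : Ps α β γ δ (q + r) (v + t)) (h2 : Ps α β γ δ (q + s) (v + w))
    (h3 : ¬ Ps α β γ δ (q + r + s) (v + t + w)) :
    0 < γ ∧ (β * δ ≤ α * γ * exp (q + r + (q + r)) ∨ β * δ ≤ α * γ * exp (q + s + (q + s))) := by
  have key : β * δ < α * γ * exp (q + r + (q + s)) := by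
    simp only [Ps, not_le, exp_add] at *
    exact gad hα hβ hΔ (exp_pos _) (exp_pos _) (exp_pos _) (exp_pos _) (exp_pos _) (exp_pos _)
      (hrs.imp (fun h => ⟨one_le_exp h.1, one_le_exp h.2⟩)
        (fun h => ⟨exp_le_one_iff.2 h.1, exp_le_one_iff.2 h.2⟩)) hδ h0 h1 h2 h3
  have hγ : 0 < γ := by
    have : 0 < α * γ * exp (q + r + (q + s)) := lt_of_le_of_lt (by positivity) key
    exact (pos_iff_pos_of_mul_pos ((pos_iff_pos_of_mul_pos this).2 (exp_pos _))).1 hα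
  refine ⟨hγ, ?_⟩
  rcases le_total r s with h | h
  · exact Or.inr (key.le.trans (by gcongr))
  · exact Or.inl (key.le.trans (by gcongr))

theorem clause {α β γ δ q v : ℝ} (hα : 0 < α) (hγ : 0 < γ) (hδ : 0 < δ) (hΔ : β * γ ≤ α * δ)
    (h0 : Ps α β γ δ q v) (hc : β * δ ≤ α * γ * exp (q + q)) (S R T : ℕ → ℕ → ℝ)
    (X : ℕ → Finset ℕ) (hX : ∀ i, (X i).card = 28) (i j l : ℕ)
    (hs : (∀ m ∈ [i, j, l], ∀ a ∈ X m, 0 ≤ R m a) ∨ (∀ m ∈ [i, j, l], ∀ a ∈ X m, R m a ≤ 0))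
    (h1 : ∀ m ∈ [i, j, l], ∀ a ∈ X m, ¬ Ps α β γ δ (q + R m a) (v + T m a))
    (h3 : ∀ m ∈ [i, j, l], ∀ a ∈ X m, ∀ b ∈ X m, ∀ c ∈ X m, a ≠ b → a ≠ c → b ≠ c →
      ¬ Ps α β γ δ (q + (R m a + R m b + R m c)) (v + (T m a + T m b + T m c)))
    (hx : ∀ a ∈ X i, ∀ b ∈ X j, ∀ c ∈ X l, a ≠ b → a ≠ c → b ≠ c →
      Ps α β γ δ (q + (R i a + R j b + R l c)) (v + (T i a + T j b + T l c))) : False := by
  obtain ⟨a, ha, b, hb, c, hc', e1, e2, e3, H⟩ := triple (X i) (X j) (X l) (hX i) (hX j) (hX l)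
    (R i) (T i) (R j) (T j) (R l) (T l)
  have hP := hx a ha b hb c hc' e1 e2 e3
  have n1 := h1 i (by simp) a ha
  have n2 := h1 j (by simp) b hb
  have n3 := h1 l (by simp) c hc'
  rcases hs with hs | hs
  · have s1 := hs i (by simp) a ha
    have s2 := hs j (by simp) b hb
    have s3 := hs l (by simp) c hc'
    exact supA hα hγ hδ hΔ (Or.inl ⟨add_nonneg s1 s2, s3⟩) h0
      (supA hα hγ hδ hΔ (Or.inl ⟨s1, s2⟩) h0 n1 n2 (hc.trans (by gcongr <;> linarith))) n3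
      (hc.trans (by gcongr <;> linarith)) hP
  have s1 := hs i (by simp) a ha
  have s2 := hs j (by simp) b hb
  have s3 := hs l (by simp) c hc'
  by_cases hw : β * δ ≤ α * γ * exp (q + (R i a + R j b) + (q + R l c))
  · exact supA hα hγ hδ hΔ (Or.inr ⟨add_nonpos s1 s2, s3⟩) h0
      (supA hα hγ hδ hΔ (Or.inr ⟨s1, s2⟩) h0 n1 n2 (hw.trans (by gcongr ?_ * exp ?_; linarith))) n3
      hw hP
  push Not at hw
  have hβ : 0 < β := (pos_iff_pos_of_mul_pos (lt_trans (by positivity) hw)).2 hδ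
  obtain ⟨k, hk⟩ := tangent (q := q) (w := q + (R i a + R j b + R l c)) hα hβ hγ hδ hΔ
    (by linarith) (by rw [← exp_add]; refine le_trans (le_of_eq ?_) hw.le; congr 2; ring)
  have hlog : ∀ x y, Ps α β γ δ x y ↔ log (γ * exp x + δ) - log (α * exp x + β) ≤ y := by
    intro x y
    rw [← log_div (by positivity) (by positivity), log_le_iff_le_exp (by positivity),
      div_le_iff₀ (by positivity), Ps]
  have hf : ∀ m ∈ [i, j, l], ∀ a' ∈ X m, ∀ b' ∈ X m, ∀ c' ∈ X m, a' ≠ b' → a' ≠ c' → b' ≠ c' →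
      (T m a' + k * R m a') + (T m b' + k * R m b') + (T m c' + k * R m c') <
        log (γ * exp (q + (R i a + R j b + R l c)) + δ) - log (α * exp (q + (R i a + R j b + R l c)) + β)
          + k * (R i a + R j b + R l c) - v := by
    intro m hm a' ha' b' hb' c' hc'' f1 f2 f3
    have g1 := h3 m hm a' ha' b' hb' c' hc'' f1 f2 f3
    rw [hlog, not_le] at g1
    have g2 := hk (q + (R m a' + R m b' + R m c'))
      (by linarith [hs m hm a' ha', hs m hm b' hb', hs m hm c' hc''])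
    nlinarith
  have := H k _ (hf i (by simp)) (hf j (by simp)) (hf l (by simp))
  rw [hlog] at hP
  nlinarith

def cp (i a : ℕ) : ℕ := 3 + 55 * i + a

def trip : List (ℕ × ℕ × ℕ) :=
  ((List.range 55).product ((List.range 55).product (List.range 55))).filter
    fun p => decide (p.1 ≠ p.2.1 ∧ p.1 ≠ p.2.2 ∧ p.2.1 ≠ p.2.2)

theorem mem_trip (a b c : ℕ) :
    (a, b, c) ∈ trip ↔ a < 55 ∧ b < 55 ∧ c < 55 ∧ a ≠ b ∧ a ≠ c ∧ b ≠ c := by
  simp [trip, and_assoc]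

attribute [irreducible] trip

def exB (φ : List (ℕ × ℕ × ℕ)) (B : List ℕ) : List (List ℕ × Bool) :=
  (B, true) :: φ.flatMap fun c =>
    ([c.1, c.2.1, c.2.2].flatMap fun i => (List.range 55).map (fun a => (cp i a :: B, false)) ++
      trip.map fun p => (cp i p.1 :: cp i p.2.1 :: cp i p.2.2 :: B, false)) ++
    trip.map fun p => (cp c.1 p.1 :: cp c.2.1 p.2.1 :: cp c.2.2 p.2.2 :: B, true)

def ex (φ : List (ℕ × ℕ × ℕ)) : List (List ℕ × Bool) :=
  ([2], false) :: ([0, 1, 2], false) :: ([0], false) :: ([1], false) ::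
    (exB φ [] ++ exB φ [0, 2] ++ exB φ [1, 2])

theorem mem_exB {φ : List (ℕ × ℕ × ℕ)} {B : List ℕ} {e : List ℕ × Bool} : e ∈ exB φ B ↔
    e = (B, true) ∨ ∃ c ∈ φ, (∃ i ∈ [c.1, c.2.1, c.2.2], (∃ a < 55, (cp i a :: B, false) = e) ∨
      ∃ p ∈ trip, (cp i p.1 :: cp i p.2.1 :: cp i p.2.2 :: B, false) = e) ∨
      ∃ p ∈ trip, (cp c.1 p.1 :: cp c.2.1 p.2.1 :: cp c.2.2 p.2.2 :: B, true) = e := by
  simp only [exB, List.mem_cons (a := e), List.mem_flatMap, List.mem_append, List.mem_map,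
    List.mem_range]

attribute [irreducible] exB

theorem Ps.cg {α β γ δ u v u' v' : ℝ} (h : Ps α β γ δ u v) (e1 : u = u') (e2 : v = v') :
    Ps α β γ δ u' v' := e1 ▸ e2 ▸ h

theorem baseL {α β γ δ b1 b2 : ℝ} (hα : 0 < α) (hγ : 0 < γ) (hδ : 0 < δ) (hΔ : β * γ ≤ α * δ)
    (A C : ℕ → ℝ) (φ : List (ℕ × ℕ × ℕ)) (B : List ℕ)
    (h : ∀ e ∈ exB φ B, Ps α β γ δ ((e.1.map A).sum + b1) ((e.1.map C).sum + b2) ↔ e.2 = true)
    (hc : β * δ ≤ α * γ * exp (((B.map A).sum + b1) + ((B.map A).sum + b1))) : NAE3 φ := by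
  classical
  have hX : ∀ i, ∃ X : Finset ℕ, X.card = 28 ∧ (∀ a ∈ X, a < 55) ∧
      if 28 ≤ ((range 55).filter fun a => 0 ≤ A (cp i a)).card then ∀ a ∈ X, 0 ≤ A (cp i a)
      else ∀ a ∈ X, A (cp i a) ≤ 0 := by
    intro i
    split_ifs with hi
    · obtain ⟨X, h1, h2⟩ := exists_subset_card_eq hi
      exact ⟨X, h2, fun a ha => by simpa using (mem_filter.1 (h1 ha)).1,
        fun a ha => (mem_filter.1 (h1 ha)).2⟩
    · have := card_filter_add_card_filter_not (s := range 55) (fun a => 0 ≤ A (cp i a))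
      rw [card_range] at this
      obtain ⟨X, h1, h2⟩ := exists_subset_card_eq (n := 28)
        (s := (range 55).filter fun a => ¬ 0 ≤ A (cp i a)) (by omega)
      exact ⟨X, h2, fun a ha => by simpa using (mem_filter.1 (h1 ha)).1,
        fun a ha => (not_le.1 (mem_filter.1 (h1 ha)).2).le⟩
  choose X hX1 hX2 hX3 using hX
  refine ⟨fun i => decide (28 ≤ ((range 55).filter fun a => 0 ≤ A (cp i a)).card), ?_⟩
  rintro ⟨i, j, l⟩ hφ ⟨e1, e2⟩
  simp only [decide_eq_decide] at e1 e2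
  refine clause hα hγ hδ hΔ ((h (B, true) (mem_exB.2 (Or.inl rfl))).2 rfl) hc (fun _ _ => 0)
    (fun i a => A (cp i a)) (fun i a => C (cp i a)) X hX1 i j l ?_ ?_ ?_ ?_
  · by_cases hi : 28 ≤ ((range 55).filter fun a => 0 ≤ A (cp i a)).card
    · left
      intro m hm
      have := hX3 m
      rw [if_pos (by simp only [List.mem_cons, List.not_mem_nil, or_false] at hm
                     rcases hm with rfl | rfl | rfl <;> tauto)] at this
      exact this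
    · right
      intro m hm
      have := hX3 m
      rw [if_neg (by simp only [List.mem_cons, List.not_mem_nil, or_false] at hm
                     rcases hm with rfl | rfl | rfl <;> tauto)] at this
      exact this
  · intro m hm a ha hP
    have := (h (cp m a :: B, false) (mem_exB.2 (Or.inr ⟨_, hφ, Or.inl ⟨m, hm,
      Or.inl ⟨a, hX2 m a ha, rfl⟩⟩⟩))).1 (by
        simp only [List.map_cons, List.sum_cons]
        exact hP.cg (by ring) (by ring))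
    simp at this
  · intro m hm a ha b hb c hc' f1 f2 f3 hP
    have := (h (cp m a :: cp m b :: cp m c :: B, false) (mem_exB.2 (Or.inr ⟨_, hφ, Or.inl ⟨m, hm,
      Or.inr ⟨(a, b, c), (mem_trip _ _ _).2 ⟨hX2 m a ha, hX2 m b hb, hX2 m c hc', f1, f2, f3⟩,
        rfl⟩⟩⟩))).1 (by
        simp only [List.map_cons, List.sum_cons]
        exact hP.cg (by ring) (by ring))
    simp at this
  · intro a ha b hb c hc' f1 f2 f3
    have := (h (cp i a :: cp j b :: cp l c :: B, true) (mem_exB.2 (Or.inr ⟨_, hφ, Or.inr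
      ⟨(a, b, c), (mem_trip _ _ _).2 ⟨hX2 i a ha, hX2 j b hb, hX2 l c hc', f1, f2, f3⟩,
        rfl⟩⟩))).2 rfl
    simp only [List.map_cons, List.sum_cons] at this
    exact this.cg (by ring) (by ring)

theorem mem_ex {φ : List (ℕ × ℕ × ℕ)} {e : List ℕ × Bool} : e ∈ ex φ ↔
    e = ([2], false) ∨ e = ([0, 1, 2], false) ∨ e = ([0], false) ∨ e = ([1], false) ∨
      (e ∈ exB φ [] ∨ e ∈ exB φ [0, 2]) ∨ e ∈ exB φ [1, 2] := by
  simp only [ex, List.mem_cons, List.mem_append]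

attribute [irreducible] ex

theorem core {α β γ δ b1 b2 : ℝ} (hα : 0 < α) (hδ : 0 < δ) (hΔ : β * γ ≤ α * δ)
    (hβγ : 0 ≤ β ∨ 0 < γ) (A C : ℕ → ℝ) (φ : List (ℕ × ℕ × ℕ))
    (h : ∀ e ∈ ex φ, Ps α β γ δ ((e.1.map A).sum + b1) ((e.1.map C).sum + b2) ↔ e.2 = true) :
    NAE3 φ := by
  have m0 : ∀ e ∈ exB φ [], e ∈ ex φ := fun e he =>
    mem_ex.2 (Or.inr (Or.inr (Or.inr (Or.inr (Or.inl (Or.inl he))))))
  have m1 : ∀ e ∈ exB φ [0, 2], e ∈ ex φ := fun e he =>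
    mem_ex.2 (Or.inr (Or.inr (Or.inr (Or.inr (Or.inl (Or.inr he))))))
  have m2 : ∀ e ∈ exB φ [1, 2], e ∈ ex φ := fun e he =>
    mem_ex.2 (Or.inr (Or.inr (Or.inr (Or.inr (Or.inr he)))))
  have k0 := fun hγ => baseL hα hγ hδ hΔ A C φ [] fun e he => h e (m0 e he)
  have k1 := fun hγ => baseL hα hγ hδ hΔ A C φ [0, 2] fun e he => h e (m1 e he)
  have k2 := fun hγ => baseL hα hγ hδ hΔ A C φ [1, 2] fun e he => h e (m2 e he)
  rcases lt_or_ge β 0 with hβ | hβ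
  · have hγ : 0 < γ := hβγ.resolve_left (not_le.2 hβ)
    exact k0 hγ (le_trans (mul_neg_of_neg_of_pos hβ hδ).le (by positivity))
  have n1 := h ([2], false) (mem_ex.2 (Or.inl rfl))
  have n2 := h ([0, 1, 2], false) (mem_ex.2 (Or.inr (Or.inl rfl)))
  have n3 := h ([0], false) (mem_ex.2 (Or.inr (Or.inr (Or.inl rfl))))
  have n4 := h ([1], false) (mem_ex.2 (Or.inr (Or.inr (Or.inr (Or.inl rfl)))))
  have p0 := h ([], true) (m0 _ (mem_exB.2 (Or.inl rfl)))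
  have p1 := h ([0, 2], true) (m1 _ (mem_exB.2 (Or.inl rfl)))
  have p2 := h ([1, 2], true) (m2 _ (mem_exB.2 (Or.inl rfl)))
  simp only [List.map_cons, List.sum_cons, List.map_nil, List.sum_nil, add_zero, zero_add,
    Bool.false_eq_true, iff_false, iff_true] at n1 n2 n3 n4 p0 p1 p2 k0 k1 k2
  clear h m0 m1 m2
  have g01 := fun hrs => gadA (r := A 0) (s := A 1) (t := C 0) (w := C 1) hα hβ hδ hΔ hrs n1
    (p1.cg (by ring) (by ring)) (p2.cg (by ring) (by ring)) (fun h => n2 (h.cg (by ring) (by ring)))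
  have g02 := fun hrs => gadA (r := A 0) (s := -A 2) (t := C 0) (w := -C 2) hα hβ hδ hΔ hrs n1
    (p1.cg (by ring) (by ring)) (p0.cg (by ring) (by ring)) (fun h => n3 (h.cg (by ring) (by ring)))
  have g12 := fun hrs => gadA (r := A 1) (s := -A 2) (t := C 1) (w := -C 2) hα hβ hδ hΔ hrs n1
    (p2.cg (by ring) (by ring)) (p0.cg (by ring) (by ring)) (fun h => n4 (h.cg (by ring) (by ring)))
  have e0 : A 2 + b1 + -A 2 = b1 := by ring
  have e1 : A 2 + b1 + A 0 = A 0 + A 2 + b1 := by ring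
  have e2 : A 2 + b1 + A 1 = A 1 + A 2 + b1 := by ring
  simp only [e0, e1, e2] at g01 g02 g12
  have f01 := fun hrs => (g01 hrs).2.elim (k1 (g01 hrs).1) (k2 (g01 hrs).1)
  have f02 := fun hrs => (g02 hrs).2.elim (k1 (g02 hrs).1) (k0 (g02 hrs).1)
  have f12 := fun hrs => (g12 hrs).2.elim (k2 (g12 hrs).1) (k0 (g12 hrs).1)
  rcases le_total 0 (A 0) with s0 | s0 <;> rcases le_total 0 (A 1) with s1 | s1 <;>
    rcases le_total 0 (-A 2) with s2 | s2
  all_goals first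
    | exact f01 (Or.inl ⟨s0, s1⟩)
    | exact f01 (Or.inr ⟨s0, s1⟩)
    | exact f02 (Or.inl ⟨s0, s2⟩)
    | exact f02 (Or.inr ⟨s0, s2⟩)
    | exact f12 (Or.inl ⟨s1, s2⟩)
    | exact f12 (Or.inr ⟨s1, s2⟩)

end Pool.Agent.H4.Sig
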