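import Mathlib
import Pool.Agent.H4.ExpEigen

set_option autoImplicit false

namespace Pool.Agent.H4.Sparse

open Matrix Pool.Agent.H4.ExpEigen

section general
variable {V : Type*} [Fintype V] [DecidableEq V]

theorem exp_neg_of_sq (A : Matrix V V ℂ) (c θ : ℂ) (hθ : θ ≠ 0) (h1 : Complex.exp (c * θ) = -1)
    (y : V → ℂ) (hy : A *ᵥ (A *ᵥ y) = (θ * θ) • y) : NormedSpace.exp (c • A) *ᵥ y = -y := by
  have h2 : Complex.exp (c * (-θ)) = -1 := by
    rw [mul_neg, Complex.exp_neg, h1]; norm_num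
  have e1 : (c • A) *ᵥ (θ • y + A *ᵥ y) = (c * θ) • (θ • y + A *ᵥ y) := by
    rw [Matrix.smul_mulVec, Matrix.mulVec_add, Matrix.mulVec_smul, hy]
    funext v
    simp only [Pi.add_apply, Pi.smul_apply, smul_eq_mul]; ring
  have e2 : (c • A) *ᵥ (θ • y - A *ᵥ y) = (c * (-θ)) • (θ • y - A *ᵥ y) := by
    rw [Matrix.smul_mulVec, Matrix.mulVec_sub, Matrix.mulVec_smul, hy]
    funext v
    simp only [Pi.sub_apply, Pi.smul_apply, smul_eq_mul]; ring
  have f1 := exp_mulVec_eigen _ _ _ e1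
  have f2 := exp_mulVec_eigen _ _ _ e2
  rw [h1] at f1
  rw [h2] at f2
  have e3 : y = (2 * θ)⁻¹ • ((θ • y + A *ᵥ y) + (θ • y - A *ᵥ y)) := by
    funext v
    simp only [Pi.add_apply, Pi.sub_apply, Pi.smul_apply, smul_eq_mul]
    field_simp
    ring
  conv_lhs => rw [e3]
  rw [Matrix.mulVec_smul, Matrix.mulVec_add, f1, f2]
  funext v
  simp only [Pi.add_apply, Pi.sub_apply, Pi.smul_apply, Pi.neg_apply, smul_eq_mul]
  field_simp
  ring

noncomputable def c0 : ℂ := Complex.I * ((Real.pi / Real.sqrt 2 : ℝ) : ℂ)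

theorem exp_c0 (β : ℕ) :
    Complex.exp (c0 * ((2 * (β : ℂ) + 1) * ((Real.sqrt 2 : ℝ) : ℂ))) = -1 := by
  have hs : ((Real.sqrt 2 : ℝ) : ℂ) ≠ 0 := by
    exact_mod_cast (Real.sqrt_pos.mpr (by norm_num : (0 : ℝ) < 2)).ne'
  have : c0 * ((2 * (β : ℂ) + 1) * ((Real.sqrt 2 : ℝ) : ℂ))
      = ((β : ℤ) : ℂ) * (2 * Real.pi * Complex.I) + Real.pi * Complex.I := by
    unfold c0; push_cast; field_simp
  rw [this, Complex.exp_add, Complex.exp_int_mul_two_pi_mul_I, one_mul, Complex.exp_pi_mul_I]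

theorem pst_of_chain (A : Matrix V V ℂ) (u v : V) (β : ℕ) (p q : ℂ)
    (hq : q = (2 * (β : ℂ) + 1) ^ 2) (hp : p + 2 = q) (hp1 : p + 1 ≠ 0) (f1 f2 f3 : V → ℂ)
    (h : A *ᵥ Pi.single u 1 = f1) (h' : A *ᵥ Pi.single v 1 = f1)
    (h1 : A *ᵥ f1 = (2 : ℂ) • (Pi.single u 1 + Pi.single v 1) + f2)
    (h2 : A *ᵥ f2 = p • f1 + f3) (h3 : A *ᵥ f3 = q • f2) :
    NormedSpace.exp (c0 • A) *ᵥ Pi.single u 1 = (-1 : ℂ) • Pi.single v 1 := by
  set eu : V → ℂ := Pi.single u 1 with heu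
  set ev : V → ℂ := Pi.single v 1 with hev
  have hs : ((Real.sqrt 2 : ℝ) : ℂ) ≠ 0 := by
    exact_mod_cast (Real.sqrt_pos.mpr (by norm_num : (0 : ℝ) < 2)).ne'
  have hss : ((Real.sqrt 2 : ℝ) : ℂ) * ((Real.sqrt 2 : ℝ) : ℂ) = 2 := by
    exact_mod_cast Real.mul_self_sqrt (by norm_num : (0 : ℝ) ≤ 2)
  have hb : (2 * (β : ℂ) + 1) ≠ 0 := by
    have : ((2 * β + 1 : ℕ) : ℂ) ≠ 0 := by exact_mod_cast (by omega : 2 * β + 1 ≠ 0)
    push_cast at this; exact this
  have hy : NormedSpace.exp (c0 • A) *ᵥ (f2 - p • (eu + ev)) = -(f2 - p • (eu + ev)) := by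
    apply exp_neg_of_sq A c0 ((Real.sqrt 2 : ℝ) : ℂ) hs
    · have := exp_c0 0
      simpa using this
    · simp only [Matrix.mulVec_sub, Matrix.mulVec_add, Matrix.mulVec_smul, h, h', h1, h2, h3, hss]
      funext w
      simp only [Pi.add_apply, Pi.sub_apply, Pi.smul_apply, smul_eq_mul, ← hp]
      ring
  have hz : NormedSpace.exp (c0 • A) *ᵥ (f2 + (eu + ev)) = -(f2 + (eu + ev)) := by
    apply exp_neg_of_sq A c0 ((2 * (β : ℂ) + 1) * ((Real.sqrt 2 : ℝ) : ℂ)) (mul_ne_zero hb hs)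
      (exp_c0 β)
    have : ((2 * (β : ℂ) + 1) * ((Real.sqrt 2 : ℝ) : ℂ)) * ((2 * (β : ℂ) + 1) * ((Real.sqrt 2 : ℝ) : ℂ))
        = 2 * q := by
      rw [hq]; linear_combination (2 * (β : ℂ) + 1) ^ 2 * hss
    rw [this]
    simp only [Matrix.mulVec_add, Matrix.mulVec_smul, h, h', h1, h2, h3]
    funext w
    simp only [Pi.add_apply, Pi.smul_apply, smul_eq_mul, ← hp]
    ring
  have h0 : NormedSpace.exp (c0 • A) *ᵥ (eu - ev) = eu - ev := by
    have : (c0 • A) *ᵥ (eu - ev) = (0 : ℂ) • (eu - ev) := by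
      rw [Matrix.smul_mulVec, Matrix.mulVec_sub, h, h']; simp
    have := exp_mulVec_eigen _ _ _ this
    simpa using this
  have e3 : eu = (2 * (p + 1))⁻¹ • ((f2 + (eu + ev)) - (f2 - p • (eu + ev))) + (2 : ℂ)⁻¹ • (eu - ev) := by
    funext w
    simp only [Pi.add_apply, Pi.sub_apply, Pi.smul_apply, smul_eq_mul]
    field_simp
    ring
  conv_lhs => rw [e3]
  rw [Matrix.mulVec_add, Matrix.mulVec_smul, Matrix.mulVec_smul, Matrix.mulVec_sub, hy, hz, h0]
  funext w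
  simp only [Pi.add_apply, Pi.sub_apply, Pi.smul_apply, Pi.neg_apply, smul_eq_mul]
  field_simp
  ring

end general

/-- number of private leaves -/
def cnt (a q : ℕ) (d : Fin 5 → ℕ) (l : Bool × Fin a) : ℕ :=
  q - ∑ i, if l.1 = false ∧ (l.2 : ℕ) < d i then d i else 0

abbrev VV (a s q : ℕ) (d : Fin 5 → ℕ) : Type :=
  Bool ⊕ Bool ⊕ (Bool × Fin a) ⊕ Fin s ⊕ Fin 5 ⊕ (Σ l : Bool × Fin a, Fin (cnt a q d l)) ⊕ (Fin s × Fin q)

variable {a s q : ℕ} {d : Fin 5 → ℕ}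

@[match_pattern] def U (b : Bool) : VV a s q d := Sum.inl b
@[match_pattern] def X (b : Bool) : VV a s q d := Sum.inr (Sum.inl b)
@[match_pattern] def L (l : Bool × Fin a) : VV a s q d := Sum.inr (Sum.inr (Sum.inl l))
@[match_pattern] def S (j : Fin s) : VV a s q d := Sum.inr (Sum.inr (Sum.inr (Sum.inl j)))
@[match_pattern] def M (i : Fin 5) : VV a s q d := Sum.inr (Sum.inr (Sum.inr (Sum.inr (Sum.inl i))))
@[match_pattern] def Y (w : Σ l : Bool × Fin a, Fin (cnt a q d l)) : VV a s q d :=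
  Sum.inr (Sum.inr (Sum.inr (Sum.inr (Sum.inr (Sum.inl w)))))
@[match_pattern] def Z (w : Fin s × Fin q) : VV a s q d :=
  Sum.inr (Sum.inr (Sum.inr (Sum.inr (Sum.inr (Sum.inr w)))))

def adjB : VV a s q d → VV a s q d → Bool
  | U _, X _ => true
  | X _, U _ => true
  | X b, L l => decide (l.1 = b)
  | L l, X b => decide (l.1 = b)
  | X _, S _ => true
  | S _, X _ => true
  | L l, M i => decide (l.1 = false ∧ (l.2 : ℕ) < d i)
  | M i, L l => decide (l.1 = false ∧ (l.2 : ℕ) < d i)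
  | L l, Y w => decide (w.1 = l)
  | Y w, L l => decide (w.1 = l)
  | S j, Z w => decide (w.1 = j)
  | Z w, S j => decide (w.1 = j)
  | _, _ => false

theorem adjB_symm (v w : VV a s q d) : adjB v w = adjB w v := by
  rcases v with v | v | v | v | v | v | v <;> rcases w with w | w | w | w | w | w | w <;> rfl

theorem adjB_irrefl (v : VV a s q d) : adjB v v = false := by
  rcases v with v | v | v | v | v | v | v <;> rfl

def G (a s q : ℕ) (d : Fin 5 → ℕ) : SimpleGraph (VV a s q d) where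
  Adj v w := adjB v w = true
  symm := ⟨fun v w h => by rw [adjB_symm]; exact h⟩
  loopless := ⟨fun v h => by rw [adjB_irrefl] at h; exact Bool.false_ne_true h⟩

instance : DecidableRel (G a s q d).Adj := fun v w => inferInstanceAs (Decidable (adjB v w = true))

theorem sum_VV {α : Type*} [AddCommMonoid α] (F : VV a s q d → α) :
    ∑ v, F v = ∑ b, F (U b) + (∑ b, F (X b) + (∑ l, F (L l) + (∑ j, F (S j) + (∑ i, F (M i)
      + (∑ w, F (Y w) + ∑ w, F (Z w)))))) := by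
  simp only [Fintype.sum_sum_type]
  rfl

section nb
variable {α : Type*} [CommSemiring α] (F : VV a s q d → α)

theorem mv (v : VV a s q d) : ((G a s q d).adjMatrix α *ᵥ F) v
    = ∑ w, if adjB v w = true then F w else 0 := by
  simp only [Matrix.mulVec, dotProduct, SimpleGraph.adjMatrix_apply]
  refine Finset.sum_congr rfl (fun w _ => ?_)
  by_cases h : adjB v w = true
  · rw [if_pos h, if_pos (show (G a s q d).Adj v w from h), one_mul]
  · rw [if_neg h, if_neg (show ¬ (G a s q d).Adj v w from h), zero_mul]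

theorem nbU (b : Bool) : ((G a s q d).adjMatrix α *ᵥ F) (U b) = ∑ b', F (X b') := by
  rw [mv, sum_VV]; simp [adjB]

theorem nbX (b : Bool) : ((G a s q d).adjMatrix α *ᵥ F) (X b)
    = ∑ b', F (U b') + (∑ k : Fin a, F (L (b, k)) + ∑ j, F (S j)) := by
  rw [mv, sum_VV]
  cases b <;> simp [adjB, Fintype.sum_prod_type]

theorem nbL (l : Bool × Fin a) : ((G a s q d).adjMatrix α *ᵥ F) (L l)
    = F (X l.1) + (∑ i, (if l.1 = false ∧ (l.2 : ℕ) < d i then F (M i) else 0)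
      + ∑ k : Fin (cnt a q d l), F (Y ⟨l, k⟩)) := by
  rw [mv, sum_VV]
  have h1 : ∑ w : (Σ l : Bool × Fin a, Fin (cnt a q d l)),
      (if adjB (L l : VV a s q d) (Y w) = true then F (Y w) else 0)
      = ∑ k : Fin (cnt a q d l), F (Y ⟨l, k⟩) := by
    rw [Fintype.sum_sigma, Finset.sum_eq_single l]
    · simp [adjB]
    · intro l' _ hl'
      simp [adjB, hl']
    · simp
  rw [h1]
  obtain ⟨b, k⟩ := l
  cases b <;> simp [adjB]

theorem nbS (j : Fin s) : ((G a s q d).adjMatrix α *ᵥ F) (S j)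
    = ∑ b', F (X b') + ∑ k : Fin q, F (Z (j, k)) := by
  rw [mv, sum_VV]
  have h1 : ∑ w : Fin s × Fin q,
      (if adjB (S j : VV a s q d) (Z w) = true then F (Z w) else 0)
      = ∑ k : Fin q, F (Z (j, k)) := by
    rw [Fintype.sum_prod_type, Finset.sum_eq_single j]
    · simp [adjB]
    · intro l' _ hl'
      simp [adjB, hl']
    · simp
  rw [h1]
  simp [adjB]

theorem nbM (i : Fin 5) : ((G a s q d).adjMatrix α *ᵥ F) (M i)
    = ∑ k : Fin a, if (k : ℕ) < d i then F (L (false, k)) else 0 := by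
  rw [mv, sum_VV]
  simp [adjB, Fintype.sum_prod_type]

theorem nbY (w : Σ l : Bool × Fin a, Fin (cnt a q d l)) :
    ((G a s q d).adjMatrix α *ᵥ F) (Y w) = F (L w.1) := by
  rw [mv, sum_VV]
  simp [adjB]

theorem nbZ (w : Fin s × Fin q) :
    ((G a s q d).adjMatrix α *ᵥ F) (Z w) = F (S w.1) := by
  rw [mv, sum_VV]
  simp [adjB]

end nb

end Pool.Agent.H4.Sparse
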