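import Mathlib
import Pool.Agent.H4.Sparse

set_option autoImplicit false

namespace Pool.Agent.H4.Sparse

open Matrix Pool.Agent.H4.ExpEigen

variable {a s q : ℕ} {d : Fin 5 → ℕ}

noncomputable instance decEqVV : DecidableEq (VV a s q d) := Classical.decEq _

def f1 : VV a s q d → ℂ
  | X _ => 1
  | _ => 0

def f2 : VV a s q d → ℂ
  | L _ => 1
  | S _ => 2
  | _ => 0

def f3 : VV a s q d → ℂ
  | M i => (d i : ℂ)
  | Y _ => 1
  | Z _ => 2
  | _ => 0

theorem sum_lt {α : Type*} [CommSemiring α] (a t : ℕ) (h : t ≤ a) (c : α) :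
    (∑ k : Fin a, if (k : ℕ) < t then c else 0) = (t : α) * c := by
  rw [Fin.sum_univ_eq_sum_range (fun k => if k < t then c else 0) a, ← Finset.sum_filter]
  have : (Finset.range a).filter (fun k => k < t) = Finset.range t := by
    ext k; simp; omega
  rw [this]; simp

theorem cnt_add (hs : ∑ i, d i ≤ q) (l : Bool × Fin a) :
    (∑ i, if l.1 = false ∧ (l.2 : ℕ) < d i then d i else 0) + cnt a q d l = q := by
  have : (∑ i, if l.1 = false ∧ (l.2 : ℕ) < d i then d i else 0) ≤ ∑ i, d i :=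
    Finset.sum_le_sum (fun i _ => by split_ifs <;> omega)
  unfold cnt
  omega

theorem single_U (b : Bool) : (Pi.single (U b) 1 : VV a s q d → ℂ)
    = fun v => match v with
      | U b' => if b' = b then 1 else 0
      | _ => 0 := by
  funext v
  rcases v with v | v | v | v | v | v | v
  · by_cases h : v = b
    · subst h; simp [U]
    · simp [U, h, Pi.single_apply]
  all_goals simp [U, Pi.single_apply]

theorem rel0 (b : Bool) : (G a s q d).adjMatrix ℂ *ᵥ Pi.single (U b) 1 = f1 := by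
  rw [single_U]
  funext v
  rcases v with v | v | v | v | v | v | v
  · erw [nbU]; simp [f1, X]
  · erw [nbX]; cases b <;> simp [f1, U, L, S]
  · erw [nbL]; simp [f1, X, M, Y]
  · erw [nbS]; simp [f1, X, Z]
  · erw [nbM]; simp [f1, L]
  · erw [nbY]; simp [f1, L]
  · erw [nbZ]; simp [f1, S]

theorem rel1 : (G a s q d).adjMatrix ℂ *ᵥ f1
    = (2 : ℂ) • (Pi.single (U false) 1 + Pi.single (U true) 1) + f2 := by
  rw [single_U, single_U]
  funext v
  rcases v with v | v | v | v | v | v | v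
  · erw [nbU]; cases v <;> simp [f1, f2, X]
  · erw [nbX]; simp [f1, f2, U, L, S]
  · erw [nbL]; simp [f1, f2, X, M, Y]
  · erw [nbS]; simp [f1, f2, X, Z]
  · erw [nbM]; simp [f1, f2, L]
  · erw [nbY]; simp [f1, f2, L]
  · erw [nbZ]; simp [f1, f2, S]

theorem rel2 (hd : ∀ i, d i ≤ a) : (G a s q d).adjMatrix ℂ *ᵥ f2
    = ((a : ℂ) + 2 * s) • f1 + f3 := by
  funext v
  rcases v with v | v | v | v | v | v | v
  · erw [nbU]; simp [f1, f2, f3, X]
  · erw [nbX]; simp [f1, f2, f3, U, L, S]; ring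
  · erw [nbL]; simp [f1, f2, f3, X, M, Y]
  · erw [nbS]; simp [f1, f2, f3, X, Z]
  · erw [nbM]
    have := sum_lt a (d v) (hd v) (1 : ℂ)
    simp only [f2, L]
    rw [this]
    simp [f1, f3]
  · erw [nbY]; simp [f1, f2, f3, L]
  · erw [nbZ]; simp [f1, f2, f3, S]

theorem rel3 (hs : ∑ i, d i ≤ q) : (G a s q d).adjMatrix ℂ *ᵥ f3 = (q : ℂ) • f2 := by
  funext v
  rcases v with v | v | v | v | v | v | v
  · erw [nbU]; simp [f2, f3, X]
  · erw [nbX]; simp [f2, f3, U, L, S]
  · erw [nbL]
    have h := congrArg (Nat.cast : ℕ → ℂ) (cnt_add hs v)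
    push_cast at h
    simp only [f3, f2, X, M, Y, Pi.smul_apply, smul_eq_mul, Finset.sum_const, Finset.card_univ,
      Fintype.card_fin, nsmul_eq_mul, mul_one, zero_add]
    exact h
  · erw [nbS]; simp [f2, f3, X, Z]
  · erw [nbM]; simp [f2, f3, L]
  · erw [nbY]; simp [f2, f3, L]
  · erw [nbZ]; simp [f2, f3, S]

theorem G_pst (β : ℕ) (hq : q = (2 * β + 1) ^ 2) (hp : a + 2 * s + 2 = q)
    (hd : ∀ i, d i ≤ a) (hs : ∑ i, d i ≤ q) :
    NormedSpace.exp (c0 • (G a s q d).adjMatrix ℂ) *ᵥ Pi.single (U false) 1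
      = (-1 : ℂ) • Pi.single (U true) 1 := by
  refine pst_of_chain _ _ _ β ((a : ℂ) + 2 * s) (q : ℂ) ?_ ?_ ?_ f1 f2 f3 (rel0 _) (rel0 _) rel1
    (rel2 hd) (rel3 hs)
  · rw [hq]; push_cast; ring
  · rw [← hp]; push_cast; ring
  · have : ((a + 2 * s + 1 : ℕ) : ℂ) ≠ 0 := by exact_mod_cast (by omega : a + 2 * s + 1 ≠ 0)
    push_cast at this; exact this

theorem G_connected (hd : ∀ i, d i ≤ a) (hd1 : ∀ i, 1 ≤ d i) : (G a s q d).Connected := by
  have hX : ∀ b, (G a s q d).Reachable (U false) (X b) := fun b =>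
    SimpleGraph.Adj.reachable (show adjB _ _ = true from rfl)
  have hL : ∀ l, (G a s q d).Reachable (U false) (L l) := fun l =>
    (hX l.1).trans (SimpleGraph.Adj.reachable (show adjB _ _ = true by simp [adjB]))
  have hS : ∀ j, (G a s q d).Reachable (U false) (S j) := fun j =>
    (hX false).trans (SimpleGraph.Adj.reachable (show adjB _ _ = true from rfl))
  have key : ∀ v, (G a s q d).Reachable (U false) v := by
    intro v
    rcases v with v | v | v | v | v | v | v
    · exact (hX false).trans (SimpleGraph.Adj.reachable (show adjB (X false) (U v) = true from rfl))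
    · exact hX v
    · exact hL v
    · exact hS v
    · have h1 := hd v
      have h2 := hd1 v
      exact (hL (false, ⟨0, by omega⟩)).trans (SimpleGraph.Adj.reachable
        (show adjB (L (false, ⟨0, by omega⟩)) (M v) = true by simp [adjB]; omega))
    · exact (hL v.1).trans (SimpleGraph.Adj.reachable
        (show adjB (L v.1) (Y v) = true by simp [adjB]))
    · exact (hS v.1).trans (SimpleGraph.Adj.reachable
        (show adjB (S v.1) (Z v) = true by simp [adjB]))
  haveI : Nonempty (VV a s q d) := ⟨U false⟩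
  exact ⟨fun p q => (key p).symm.trans (key q)⟩

theorem sum_ind (hd : ∀ i, d i ≤ a) (c : Fin 5 → ℕ) :
    (∑ l : Bool × Fin a, ∑ i, if l.1 = false ∧ (l.2 : ℕ) < d i then c i else 0)
      = ∑ i, d i * c i := by
  rw [Finset.sum_comm]
  refine Finset.sum_congr rfl (fun i _ => ?_)
  rw [Fintype.sum_prod_type, Fintype.sum_bool]
  have := sum_lt a (d i) (hd i) (c i)
  simp only [Nat.cast_id] at this
  simp [this]

theorem sum_cnt (hd : ∀ i, d i ≤ a) (hs : ∑ i, d i ≤ q) :
    ∑ i, d i * d i + ∑ l, cnt a q d l = 2 * a * q := by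
  rw [← sum_ind hd, ← Finset.sum_add_distrib, Finset.sum_congr rfl (fun l _ => cnt_add hs l)]
  simp

theorem card_VV : Fintype.card (VV a s q d) = 9 + 2 * a + s + ∑ l, cnt a q d l + s * q := by
  simp only [Fintype.card_sum, Fintype.card_bool, Fintype.card_prod, Fintype.card_fin,
    Fintype.card_sigma]
  ring

theorem deg_eq (v : VV a s q d) :
    (G a s q d).degree v = ((G a s q d).adjMatrix ℕ *ᵥ (fun _ => 1)) v := by
  have h3 := SimpleGraph.adjMatrix_mulVec_const_apply (G := G a s q d) (α := ℕ) (a := 1) (v := v)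
  simp only [Nat.cast_id, mul_one] at h3
  exact h3.symm

theorem card_edges (hd : ∀ i, d i ≤ a) :
    (G a s q d).edgeFinset.card = 4 + 2 * a + 2 * s + ∑ i, d i + ∑ l, cnt a q d l + s * q := by
  have h1 := SimpleGraph.sum_degrees_eq_twice_card_edges (G a s q d)
  simp only [deg_eq] at h1
  rw [sum_VV] at h1
  simp only [nbU, nbX, nbL, nbS, nbM, nbY, nbZ] at h1
  have h2 := sum_ind hd (fun _ => 1)
  have h3 : ∀ i, (∑ k : Fin a, if (k : ℕ) < d i then 1 else 0) = d i := fun i => by
    have := sum_lt a (d i) (hd i) (1 : ℕ)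
    simpa using this
  simp only [h3, Finset.sum_add_distrib, h2, Finset.sum_const, Finset.card_univ, Fintype.card_bool,
    Fintype.card_fin, Fintype.card_prod, Fintype.card_sigma, smul_eq_mul, mul_one] at h1
  omega

theorem five_squares (N : ℕ) (hN : 169 ≤ N) :
    ∃ d : Fin 5 → ℕ, (∀ i, 1 ≤ d i) ∧ ∑ i, d i * d i = N := by
  obtain ⟨x, y, z, w, h⟩ := Nat.sum_four_squares (N - 169)
  have mk : ∀ e1 e2 e3 e4 e5 : ℕ, 1 ≤ e1 → 1 ≤ e2 → 1 ≤ e3 → 1 ≤ e4 → 1 ≤ e5 →
      e1 ^ 2 + e2 ^ 2 + e3 ^ 2 + e4 ^ 2 + e5 ^ 2 = N →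
      ∃ d : Fin 5 → ℕ, (∀ i, 1 ≤ d i) ∧ ∑ i, d i * d i = N := by
    intro e1 e2 e3 e4 e5 h1 h2 h3 h4 h5 h
    refine ⟨![e1, e2, e3, e4, e5], ?_, ?_⟩
    · intro i; fin_cases i <;> simpa
    · simp [Fin.sum_univ_five]; nlinarith
  rcases Nat.eq_zero_or_pos x with hx | hx <;> rcases Nat.eq_zero_or_pos y with hy | hy <;>
    rcases Nat.eq_zero_or_pos z with hz | hz <;> rcases Nat.eq_zero_or_pos w with hw | hw
  · exact mk 6 6 6 6 5 (by omega) (by omega) (by omega) (by omega) (by omega) (by subst hx hy hz hw; omega)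
  · exact mk 8 8 5 4 w (by omega) (by omega) (by omega) (by omega) hw (by subst hx hy hz; omega)
  · exact mk 8 8 5 4 z (by omega) (by omega) (by omega) (by omega) hz (by subst hx hy hw; omega)
  · exact mk 12 4 3 z w (by omega) (by omega) (by omega) hz hw (by subst hx hy; omega)
  · exact mk 8 8 5 4 y (by omega) (by omega) (by omega) (by omega) hy (by subst hx hz hw; omega)
  · exact mk 12 4 3 y w (by omega) (by omega) (by omega) hy hw (by subst hx hz; omega)
  · exact mk 12 4 3 y z (by omega) (by omega) (by omega) hy hz (by subst hx hw; omega)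
  · exact mk 12 5 y z w (by omega) (by omega) hy hz hw (by subst hx; omega)
  · exact mk 8 8 5 4 x (by omega) (by omega) (by omega) (by omega) hx (by subst hy hz hw; omega)
  · exact mk 12 4 3 x w (by omega) (by omega) (by omega) hx hw (by subst hy hz; omega)
  · exact mk 12 4 3 x z (by omega) (by omega) (by omega) hx hz (by subst hy hw; omega)
  · exact mk 12 5 x z w (by omega) (by omega) hx hz hw (by subst hy; omega)
  · exact mk 12 4 3 x y (by omega) (by omega) (by omega) hx hy (by subst hz hw; omega)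
  · exact mk 12 5 x y w (by omega) (by omega) hx hy hw (by subst hz; omega)
  · exact mk 12 5 x y z (by omega) (by omega) hx hy hz (by subst hw; omega)
  · exact mk 13 x y z w (by omega) hx hy hz hw (by omega)

end Pool.Agent.H4.Sparse
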