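import Mathlib

set_option autoImplicit false

namespace Pool.Agent.H4.SumDiff

open Filter

attribute [local instance] Ultrafilter.add

theorem exists_U : ∃ U : Ultrafilter ℕ,
    (∀ p : ℕ → Prop, (∀ᶠ x in U, p x) → ∀ᶠ x in U, ∀ᶠ y in U, p (x + y)) ∧
    ∀ N : ℕ, ∀ᶠ x in U, N < x := by
  obtain ⟨U, hU, hFS⟩ := Hindman.exists_idempotent_ultrafilter_le_FS (Stream'.const (1 : ℕ))
  have h1 : ∀ p : ℕ → Prop, (∀ᶠ x in U, p x) ↔ ∀ᶠ x in U, ∀ᶠ y in U, p (x + y) := by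
    intro p
    rw [← Ultrafilter.eventually_add, hU]
  have hpos : ∀ (a : Stream' ℕ) (m : ℕ), m ∈ Hindman.FS a → (∀ i, 0 < a.get i) → 0 < m := by
    intro a m hm
    induction hm with
    | head' a => intro h; exact h 0
    | tail' a m _ ih => intro h; exact ih (fun i => h (i + 1))
    | cons' a m _ ih => intro h; have := h 0; exact Nat.add_pos_left this _
  have h0 : ∀ᶠ x in U, 0 < x := hFS.mono (fun m hm => hpos _ m hm (fun i => by simp))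
  refine ⟨U, fun p => (h1 p).mp, fun N => ?_⟩
  induction N with
  | zero => exact h0
  | succ N ih =>
    rw [h1]
    exact h0.mono (fun x hx => ih.mono (fun y hy => by omega))

variable (U : Ultrafilter ℕ)

/-- one step back along the word -/
def nx (c : ℤ) (P : ℤ → Prop) (y : ℤ) : Prop := ∀ᶠ x : ℕ in U, P (y + c * x)

theorem nx_stay
    (hU : ∀ p : ℕ → Prop, (∀ᶠ x in U, p x) → ∀ᶠ x in U, ∀ᶠ y in U, p (x + y))
    (c : ℤ) (P : ℤ → Prop) (y : ℤ) (h : nx U c P y) : ∀ᶠ x : ℕ in U, nx U c P (y + c * x) := by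
  refine (hU _ h).mono (fun x hx => hx.mono (fun z hz => ?_))
  have : y + c * x + c * z = y + c * ((x + z : ℕ) : ℤ) := by push_cast; ring
  rw [this]; exact hz

theorem nx_exists {k : ℕ} (c : ℤ) (P : Fin k → ℤ → Prop) (h : ∀ y, ∃ i, P i y) (y : ℤ) :
    ∃ i, nx U c (P i) y := by
  unfold nx
  rw [← Ultrafilter.eventually_exists_iff]
  exact Eventually.of_forall (fun x => h _)

variable (Q : ℤ → Prop)

def G5 : ℤ → Prop := nx U 1 Q
def G4 : ℤ → Prop := nx U (-1) (G5 U Q)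
def G3 : ℤ → Prop := nx U 1 (G4 U Q)
def G2 : ℤ → Prop := nx U 2 (G3 U Q)
def G1 : ℤ → Prop := nx U 1 (G2 U Q)
def G0 : ℤ → Prop := nx U 2 (G1 U Q)

def Inv (s : ℤ) (L : Finset ℤ) : Prop :=
  0 ≤ s ∧ G0 U Q (2 * s) ∧ G1 U Q (2 * s) ∧
    ∀ b ∈ L, G3 U Q (s - b) ∧ G4 U Q (s - b) ∧ G3 U Q (s + b) ∧ G4 U Q (s + b)

theorem step
    (hU : ∀ p : ℕ → Prop, (∀ᶠ x in U, p x) → ∀ᶠ x in U, ∀ᶠ y in U, p (x + y))
    (hT : ∀ N : ℕ, ∀ᶠ x in U, N < x) (h0 : G0 U Q 0) (s : ℤ) (L : Finset ℤ) (h : Inv U Q s L) :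
    ∃ s' a : ℤ, Inv U Q s' (insert a L) ∧ 0 ≤ a ∧ ∀ b ∈ L, b < a ∧ Q (a - b) ∧ Q (a + b) := by
  obtain ⟨hs, a0, a1, hL⟩ := h
  have st0 : ∀ y, G0 U Q y → ∀ᶠ x : ℕ in U, G0 U Q (y + 2 * x) := fun y => nx_stay U hU _ _ y
  have st3 : ∀ y, G3 U Q y → ∀ᶠ x : ℕ in U, G3 U Q (y + 1 * x) := fun y => nx_stay U hU _ _ y
  have st4 : ∀ y, G4 U Q y → ∀ᶠ x : ℕ in U, G4 U Q (y + (-1) * x) := fun y => nx_stay U hU _ _ y
  obtain ⟨x1, p1, p2, p3⟩ := ((st0 _ a0).and ((show ∀ᶠ x : ℕ in U, G1 U Q (0 + 2 * x) from h0).and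
    ((eventually_all_finset L).mpr (fun b hb => ((st3 _ (hL b hb).1).and ((st4 _ (hL b hb).2.1).and
      ((st3 _ (hL b hb).2.2.1).and (st4 _ (hL b hb).2.2.2)))))))).exists
  obtain ⟨x2, q1, q2, q3, q4⟩ := ((st0 _ p1).and
    ((show ∀ᶠ x : ℕ in U, G2 U Q (0 + 2 * x1 + 1 * x) from p2).and
    ((show ∀ᶠ x : ℕ in U, G2 U Q (2 * s + 1 * x) from a1).and
    ((eventually_all_finset L).mpr (fun b hb => ((st3 _ (p3 b hb).1).and
      (st3 _ (p3 b hb).2.2.1))))))).exists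
  obtain ⟨x3, r1, r2, r3⟩ := ((st0 _ q1).and
    ((show ∀ᶠ x : ℕ in U, G3 U Q (0 + 2 * x1 + 1 * x2 + 2 * x) from q2).and
    ((eventually_all_finset L).mpr (fun b hb => ((st3 _ (q4 b hb).1).and
      ((st3 _ (q4 b hb).2).and
      ((show ∀ᶠ x : ℕ in U, G5 U Q (s - b + (-1) * x1 + (-1) * x) from (p3 b hb).2.1).and
      (show ∀ᶠ x : ℕ in U, G5 U Q (s + b + (-1) * x1 + (-1) * x) from (p3 b hb).2.2.2)))))))).exists
  obtain ⟨x4, t0, t1, t2, t3⟩ := ((hT (x1 + x3)).and ((st0 _ r1).and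
    ((show ∀ᶠ x : ℕ in U, G3 U Q (2 * s + 1 * x2 + 2 * x) from q3).and
    ((eventually_all_finset L).mpr (fun b hb => ((st3 _ (r3 b hb).1).and
      ((st3 _ (r3 b hb).2.1).and
      ((show ∀ᶠ x : ℕ in U, Q (s - b + (-1) * x1 + (-1) * x3 + 1 * x) from (r3 b hb).2.2.1).and
      ((show ∀ᶠ x : ℕ in U, Q (s + b + (-1) * x1 + (-1) * x3 + 1 * x) from (r3 b hb).2.2.2).and
      (hT (x1 + x3 + b.toNat))))))))))).exists
  have ad3 : ∀ y, G3 U Q y → ∀ᶠ x : ℕ in U, G3 U Q (y + 1 * x) ∧ G4 U Q (y + 1 * x) :=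
    fun y hy => (st3 y hy).and hy
  obtain ⟨x5, u1, u2, u3, u4, u5⟩ := ((st0 _ t1).and
    ((show ∀ᶠ x : ℕ in U, G1 U Q (2 * s + 2 * x1 + 2 * x2 + 2 * x3 + 2 * x4 + 2 * x) from t1).and
    ((ad3 _ r2).and ((ad3 _ t2).and
    ((eventually_all_finset L).mpr (fun b hb => ((ad3 _ (t3 b hb).1).and
      (ad3 _ (t3 b hb).2.1)))))))).exists
  refine ⟨s + x1 + x2 + x3 + x4 + x5, s - x1 - x3 + x4, ⟨by positivity, ?_, ?_, ?_⟩, by omega, ?_⟩
  · convert u1 using 1; ring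
  · convert u2 using 1; ring
  · intro b hb
    rcases Finset.mem_insert.mp hb with rfl | hb
    · refine ⟨?_, ?_, ?_, ?_⟩
      · convert u3.1 using 1; ring
      · convert u3.2 using 1; ring
      · convert u4.1 using 1; ring
      · convert u4.2 using 1; ring
    · refine ⟨?_, ?_, ?_, ?_⟩
      · convert (u5 b hb).1.1 using 1; ring
      · convert (u5 b hb).1.2 using 1; ring
      · convert (u5 b hb).2.1 using 1; ring
      · convert (u5 b hb).2.2 using 1; ring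
  · intro b hb
    obtain ⟨_, _, v1, v2, v3⟩ := t3 b hb
    refine ⟨by omega, ?_, ?_⟩
    · convert v1 using 1; ring
    · convert v2 using 1; ring

theorem main (k : ℕ) (C : ℤ → Fin k) : ∃ a : ℕ → ℤ, (∀ n, 0 ≤ a n) ∧ ∃ i : Fin k,
    ∀ n m, n < m → a n < a m ∧ C (a m - a n) = i ∧ C (a m + a n) = i := by
  obtain ⟨U, hU, hT⟩ := exists_U
  obtain ⟨i, h0⟩ : ∃ i, G0 U (fun y => C y = i) 0 :=
    nx_exists U _ _ (nx_exists U _ _ (nx_exists U _ _ (nx_exists U _ _ (nx_exists U _ _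
      (nx_exists U _ (fun i y => C y = i) (fun y => ⟨C y, rfl⟩)))))) 0
  set Q : ℤ → Prop := fun y => C y = i with hQ
  obtain ⟨x0, e1, e2⟩ := ((nx_stay U hU _ _ 0 h0).and
    (show ∀ᶠ x : ℕ in U, G1 U Q (0 + 2 * x) from h0)).exists
  have init : Inv U Q x0 ∅ := by
    refine ⟨by positivity, ?_, ?_, by simp⟩
    · rw [zero_add] at e1; exact e1
    · rw [zero_add] at e2; exact e2
  choose S A hS hA hB using step U Q hU hT h0
  let f : ℕ → {p : ℤ × Finset ℤ // Inv U Q p.1 p.2} := fun n =>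
    Nat.rec ⟨(x0, ∅), init⟩
      (fun _ p => ⟨(S p.1.1 p.1.2 p.2, insert (A p.1.1 p.1.2 p.2) p.1.2), hS _ _ p.2⟩) n
  let a : ℕ → ℤ := fun n => A (f n).1.1 (f n).1.2 (f n).2
  have hf : ∀ n, (f (n + 1)).1.2 = insert (a n) (f n).1.2 := fun n => rfl
  have hmem : ∀ n m, n < m → a n ∈ (f m).1.2 := by
    intro n m hnm
    induction m with
    | zero => omega
    | succ m ih =>
      rw [hf]
      rcases Nat.lt_succ_iff_lt_or_eq.mp hnm with h | h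
      · exact Finset.mem_insert_of_mem (ih h)
      · subst h; exact Finset.mem_insert_self _ _
  exact ⟨a, fun n => hA _ _ _, i, fun n m hnm => hB _ _ (f m).2 _ (hmem n m hnm)⟩

end Pool.Agent.H4.SumDiff
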