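import Mathlib

namespace Pool.Agent.H4.TD

/-- `S` is a total dominating set: every vertex has a neighbour in `S`. -/
def IsTDS {V : Type*} (G : SimpleGraph V) (S : Finset V) : Prop :=
  ∀ v, ∃ u ∈ S, G.Adj v u

/-- The total domination number: the least size of a total dominating set. -/
noncomputable def gammaT {V : Type*} (G : SimpleGraph V) : ℕ :=
  sInf {k | ∃ S : Finset V, IsTDS G S ∧ S.card = k}

/-- The bound of Q1, `⌊((n - g) (n - g + 4) + 2 g - 2) / 4⌋`. -/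
noncomputable def bound (n g : ℕ) : ℤ :=
  ⌊(((n : ℚ) - g) * ((n : ℚ) - g + 4) + 2 * g - 2) / 4⌋

/-- `G(x)`: the complete bipartite graph with parts of sizes `⌈x/2 - 1⌉ = (x - 1) / 2` and
`⌊x/2 + 1⌋ = x / 2 + 1` (natural-number division, `x ≥ 1`), minus the maximum matching joining the
`i`-th vertex of the first (smaller) part to the `i`-th vertex of the second part. -/
def Gx (x : ℕ) : SimpleGraph (Fin ((x - 1) / 2) ⊕ Fin (x / 2 + 1)) :=
  (completeBipartiteGraph (Fin ((x - 1) / 2)) (Fin (x / 2 + 1))).deleteEdges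
    {e | ∃ (i : Fin ((x - 1) / 2)) (k : Fin (x / 2 + 1)), i.val = k.val ∧ e = s(Sum.inl i, Sum.inr k)}

/-- `j K₂`: `j` disjoint edges `(s, 0) (s, 1)`. -/
def jK2 (j : ℕ) : SimpleGraph (Fin j × Fin 2) where
  Adj a b := a.1 = b.1 ∧ a.2 ≠ b.2
  symm := ⟨fun _ _ h => ⟨h.1.symm, h.2.symm⟩⟩
  loopless := ⟨fun _ h => h.2 rfl⟩

/-- The graph of Q2: the disjoint union `G(n - g + 3) ∪ ((g - 3) / 2) K₂`. -/
def Ext (n g : ℕ) :
    SimpleGraph ((Fin ((n - g + 3 - 1) / 2) ⊕ Fin ((n - g + 3) / 2 + 1)) ⊕ (Fin ((g - 3) / 2) × Fin 2)) :=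
  (Gx (n - g + 3)).sum (jK2 ((g - 3) / 2))

end Pool.Agent.H4.TD
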