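import Mathlib

namespace Pool.Agent.H4.TD

open Finset

/-- every point lies in at least `r` members of size at least `r` -/
lemma many {α β : Type*} [DecidableEq α] (B : Finset β) (r : ℕ) (hr : 1 ≤ r) (A : Finset α)
    (M : β → Finset α) (hM : ∀ v ∈ B, M v ⊂ A) (ha : r ≤ A.card)
    (hc : ∀ S ⊆ A, S.card = r → ∃ v ∈ B, S ⊆ M v) (x : α) (hx : x ∈ A) :
    r ≤ (B.filter (fun v => x ∈ M v ∧ r ≤ (M v).card)).card := by
  classical
  by_contra hlt
  push Not at hlt
  set F := B.filter (fun v => x ∈ M v ∧ r ≤ (M v).card) with hF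
  have hy : ∀ v, ∃ y, y ∈ A ∧ (v ∈ B → y ∉ M v) := by
    intro v
    by_cases hv : v ∈ B
    · obtain ⟨y, hyA, hyM⟩ := Finset.exists_of_ssubset (hM v hv)
      exact ⟨y, hyA, fun _ => hyM⟩
    · exact ⟨x, hx, fun h => absurd h hv⟩
  choose y hyA hyM using hy
  have h0 : insert x (F.image y) ⊆ A := by
    intro z hz
    rcases Finset.mem_insert.1 hz with rfl | hz
    · exact hx
    · obtain ⟨v, -, rfl⟩ := Finset.mem_image.1 hz
      exact hyA v
  have h1 : (insert x (F.image y)).card ≤ r := by
    have := Finset.card_insert_le x (F.image y)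
    have := Finset.card_image_le (s := F) (f := y)
    omega
  obtain ⟨S, hS0, hSA, hSc⟩ := Finset.exists_subsuperset_card_eq h0 h1 ha
  obtain ⟨v, hvB, hSv⟩ := hc S hSA hSc
  have hvF : v ∈ F := by
    rw [hF, Finset.mem_filter]
    refine ⟨hvB, hSv (hS0 (Finset.mem_insert_self _ _)), ?_⟩
    rw [← hSc]; exact Finset.card_le_card hSv
  exact hyM v hvB (hSv (hS0 (Finset.mem_insert_of_mem (Finset.mem_image_of_mem y hvF))))

lemma eq_erase {α : Type*} [DecidableEq α] {A T : Finset α} {x : α} (hx : x ∈ A)
    (h1 : A.erase x ⊆ T) (h2 : T ⊂ A) : T = A.erase x := by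
  symm
  apply Finset.eq_of_subset_of_card_le h1
  have := Finset.card_lt_card h2
  rw [Finset.card_erase_of_mem hx]
  omega

/-- covering lemma: proper subsets of an `a`-set covering all `r`-subsets -/
lemma cover {α β : Type*} [DecidableEq α] (B : Finset β) (r k : ℕ) (hk : k + 1 ≤ r) :
    ∀ (a : ℕ) (A : Finset α), A.card = a → ∀ (M : β → Finset α), (∀ v ∈ B, M v ⊂ A) →
      r + 1 ≤ a → (∀ S ⊆ A, S.card = r → ∃ v ∈ B, S ⊆ M v) →
      r * (a - k) ≤ ∑ v ∈ B, ((M v).card - k) + k := by
  classical
  intro a
  induction a with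
  | zero => intro A _ M _ h; omega
  | succ a ih =>
    intro A hA M hM ha hc
    by_cases hall : ∀ x ∈ A, ∃ v ∈ B, M v = A.erase x
    · obtain ⟨x0, hx0⟩ : A.Nonempty := Finset.card_pos.1 (by omega)
      obtain ⟨v0, -, -⟩ := hall x0 hx0
      haveI : Nonempty β := ⟨v0⟩
      choose! g hgB hg using hall
      have hinj : Set.InjOn g (A : Set α) := by
        intro x hx x' hx' h
        have h1 := hg x (Finset.mem_coe.1 hx)
        have h2 := hg x' (Finset.mem_coe.1 hx')
        rw [h, h2] at h1
        by_contra hne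
        have : x ∈ A.erase x' := Finset.mem_erase.2 ⟨hne, Finset.mem_coe.1 hx⟩
        rw [h1] at this
        exact (Finset.notMem_erase x A) this
      have hsub : A.image g ⊆ B := by
        intro v hv
        obtain ⟨x, hx, rfl⟩ := Finset.mem_image.1 hv
        exact hgB x hx
      have h1 : ∑ v ∈ A.image g, ((M v).card - k) ≤ ∑ v ∈ B, ((M v).card - k) :=
        Finset.sum_le_sum_of_subset hsub
      have h2 : ∑ v ∈ A.image g, ((M v).card - k) = (a + 1) * (a - k) := by
        rw [Finset.sum_image hinj]
        rw [Finset.sum_congr rfl (g := fun _ => a - k)]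
        · rw [Finset.sum_const, hA, smul_eq_mul]
        · intro x hx
          rw [hg x hx, Finset.card_erase_of_mem hx, hA]
          rfl
      obtain ⟨e, rfl⟩ : ∃ e, r = k + 1 + e := ⟨r - (k + 1), by omega⟩
      obtain ⟨d, rfl⟩ : ∃ d, a = k + 1 + e + d := ⟨a - (k + 1 + e), by omega⟩
      have e1 : k + 1 + e + d + 1 - k = e + d + 2 := by omega
      have e2 : k + 1 + e + d - k = e + d + 1 := by omega
      rw [e1]
      rw [e2] at h2
      have : (k + 1 + e) * (e + d + 2) ≤ (k + 1 + e + d + 1) * (e + d + 1) + k := by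
        nlinarith [Nat.zero_le (d * e), Nat.zero_le (d * d), Nat.zero_le d]
      omega
    · push Not at hall
      obtain ⟨x, hx, hxn⟩ := hall
      have hcard : (A.erase x).card = a := by rw [Finset.card_erase_of_mem hx, hA]; rfl
      have ha2 : r + 1 ≤ a := by
        by_contra hlt
        have hra : a = r := by omega
        obtain ⟨v, hv, hsv⟩ := hc (A.erase x) (Finset.erase_subset _ _) (by rw [hcard, hra])
        exact hxn v hv (eq_erase hx hsv (hM v hv))
      have hM' : ∀ v ∈ B, (M v).erase x ⊂ A.erase x := by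
        intro v hv
        rw [Finset.ssubset_iff_subset_ne]
        refine ⟨Finset.erase_subset_erase _ (hM v hv).1, fun h => ?_⟩
        apply hxn v hv
        apply eq_erase hx _ (hM v hv)
        rw [← h]; exact Finset.erase_subset _ _
      have hc' : ∀ S ⊆ A.erase x, S.card = r → ∃ v ∈ B, S ⊆ (M v).erase x := by
        intro S hS hSc
        obtain ⟨v, hv, hsv⟩ := hc S (hS.trans (Finset.erase_subset _ _)) hSc
        refine ⟨v, hv, fun z hz => Finset.mem_erase.2 ⟨?_, hsv hz⟩⟩
        exact (Finset.mem_erase.1 (hS hz)).1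
      have IH := ih (A.erase x) hcard (fun v => (M v).erase x) hM' ha2 hc'
      have hm := many B r (by omega) A M hM (by omega) hc x hx
      have hs : ∑ v ∈ B, (((M v).erase x).card - k)
          + (B.filter (fun v => x ∈ M v ∧ r ≤ (M v).card)).card
          ≤ ∑ v ∈ B, ((M v).card - k) := by
        rw [Finset.card_filter, ← Finset.sum_add_distrib]
        apply Finset.sum_le_sum
        intro v _
        split_ifs with h
        · rw [Finset.card_erase_of_mem h.1]; omega
        · have := Finset.card_erase_le (s := M v) (a := x)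
          omega
      have e1 : a + 1 - k = (a - k) + 1 := by omega
      rw [e1, Nat.mul_succ]
      beta_reduce at IH
      omega

end Pool.Agent.H4.TD
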