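import Pool.Agent.H4.TD0
import Pool.Agent.H4.TD1

namespace Pool.Agent.H4.TD

open Finset

variable {V : Type*} [Fintype V] [DecidableEq V]

/-- least number of vertices of `A` dominating the complement of `A` -/
noncomputable def sd (G : SimpleGraph V) (A : Finset V) : ℕ :=
  sInf {k | ∃ S ⊆ A, (∀ v, v ∉ A → ∃ u ∈ S, G.Adj v u) ∧ S.card = k}

omit [Fintype V] [DecidableEq V] in
lemma sd_le {G : SimpleGraph V} {A S : Finset V} (hS : S ⊆ A)
    (h : ∀ v, v ∉ A → ∃ u ∈ S, G.Adj v u) : sd G A ≤ S.card :=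
  Nat.sInf_le ⟨S, hS, h, rfl⟩

omit [Fintype V] [DecidableEq V] in
lemma sd_spec {G : SimpleGraph V} {A : Finset V} (hb : ∀ u v, G.Adj u v → (u ∈ A ↔ v ∉ A))
    (hno : ∀ v, ∃ u, G.Adj v u) :
    ∃ S ⊆ A, (∀ v, v ∉ A → ∃ u ∈ S, G.Adj v u) ∧ S.card = sd G A := by
  have : ({k | ∃ S ⊆ A, (∀ v, v ∉ A → ∃ u ∈ S, G.Adj v u) ∧ S.card = k} : Set ℕ).Nonempty := by
    refine ⟨A.card, A, Finset.Subset.refl _, fun v hv => ?_, rfl⟩
    obtain ⟨u, hu⟩ := hno v
    exact ⟨u, (hb u v hu.symm).2 hv, hu⟩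
  exact Nat.sInf_mem this

lemma hb_compl {G : SimpleGraph V} {A : Finset V} (hb : ∀ u v, G.Adj u v → (u ∈ A ↔ v ∉ A)) :
    ∀ u v, G.Adj u v → (u ∈ Aᶜ ↔ v ∉ Aᶜ) := by
  intro u v h
  have := hb u v h
  simp only [Finset.mem_compl]
  tauto

lemma gamma_eq {G : SimpleGraph V} {A : Finset V} (hb : ∀ u v, G.Adj u v → (u ∈ A ↔ v ∉ A))
    (hno : ∀ v, ∃ u, G.Adj v u) : gammaT G = sd G A + sd G Aᶜ := by
  obtain ⟨S, hSA, hS, hSc⟩ := sd_spec hb hno
  obtain ⟨T, hTA, hT, hTc⟩ := sd_spec (hb_compl hb) hno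
  have hU : IsTDS G (S ∪ T) := by
    intro v
    by_cases hv : v ∈ A
    · obtain ⟨u, hu, h⟩ := hT v (by simpa using hv)
      exact ⟨u, Finset.mem_union_right _ hu, h⟩
    · obtain ⟨u, hu, h⟩ := hS v hv
      exact ⟨u, Finset.mem_union_left _ hu, h⟩
  apply le_antisymm
  · have h1 : gammaT G ≤ (S ∪ T).card := Nat.sInf_le ⟨S ∪ T, hU, rfl⟩
    have := Finset.card_union_le S T
    omega
  · have hne : ({k | ∃ S : Finset V, IsTDS G S ∧ S.card = k} : Set ℕ).Nonempty :=
      ⟨_, S ∪ T, hU, rfl⟩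
    obtain ⟨D, hD, hDc⟩ := Nat.sInf_mem hne
    have h1 : sd G A ≤ (D.filter (· ∈ A)).card := by
      apply sd_le
      · intro z hz; exact (Finset.mem_filter.1 hz).2
      · intro v hv
        obtain ⟨u, hu, h⟩ := hD v
        exact ⟨u, Finset.mem_filter.2 ⟨hu, (hb u v h.symm).2 hv⟩, h⟩
    have h2 : sd G Aᶜ ≤ (D.filter (fun z => ¬ z ∈ A)).card := by
      apply sd_le
      · intro z hz; exact Finset.mem_compl.2 (Finset.mem_filter.1 hz).2
      · intro v hv
        obtain ⟨u, hu, h⟩ := hD v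
        refine ⟨u, Finset.mem_filter.2 ⟨hu, (hb v u h).1 (by simpa using hv)⟩, h⟩
    have h3 := Finset.card_filter_add_card_filter_not (s := D) (fun z => z ∈ A)
    unfold gammaT
    omega

lemma sd_ext {G : SimpleGraph V} [DecidableRel G.Adj] {A : Finset V}
    (hb : ∀ u v, G.Adj u v → (u ∈ A ↔ v ∉ A))
    (hno : ∀ v, ∃ u, G.Adj v u) (S0 : Finset V) (h0 : S0 ⊆ A) :
    sd G A ≤ S0.card + (Aᶜ.filter (fun v => ∀ u ∈ S0, ¬ G.Adj v u)).card := by
  choose f hf using hno
  set W := Aᶜ.filter (fun v => ∀ u ∈ S0, ¬ G.Adj v u) with hW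
  have h1 : sd G A ≤ (S0 ∪ W.image f).card := by
    apply sd_le
    · intro z hz
      rcases Finset.mem_union.1 hz with hz | hz
      · exact h0 hz
      · obtain ⟨v, hv, rfl⟩ := Finset.mem_image.1 hz
        have hv' := (Finset.mem_filter.1 hv).1
        exact (hb _ _ (hf v).symm).2 (Finset.mem_compl.1 hv')
    · intro v hv
      by_cases h : ∀ u ∈ S0, ¬ G.Adj v u
      · refine ⟨f v, Finset.mem_union_right _ (Finset.mem_image_of_mem f ?_), hf v⟩
        exact Finset.mem_filter.2 ⟨Finset.mem_compl.2 hv, h⟩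
      · push Not at h
        obtain ⟨u, hu, h⟩ := h
        exact ⟨u, Finset.mem_union_left _ hu, h⟩
  have := Finset.card_union_le S0 (W.image f)
  have := Finset.card_image_le (s := W) (f := f)
  omega

lemma edges_eq {G : SimpleGraph V} [DecidableRel G.Adj] {A : Finset V}
    (hb : ∀ u v, G.Adj u v → (u ∈ A ↔ v ∉ A)) :
    G.edgeFinset.card + ∑ v ∈ Aᶜ, (A.filter (fun u => ¬ G.Adj v u)).card = A.card * Aᶜ.card := by
  have hw : G.IsBipartiteWith (A : Set V) ((Aᶜ : Finset V) : Set V) := by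
    refine ⟨?_, ?_⟩
    · rw [Finset.disjoint_coe]; exact disjoint_compl_right
    · intro v w h
      have := hb v w h
      simp only [Finset.mem_coe, Finset.mem_compl]
      tauto
  rw [← SimpleGraph.isBipartiteWith_sum_degrees_eq_card_edges' hw, ← Finset.sum_add_distrib]
  rw [Finset.sum_congr rfl (g := fun _ => A.card)]
  · rw [Finset.sum_const, smul_eq_mul, mul_comm]
  · intro v hv
    have : G.neighborFinset v = A.filter (fun u => G.Adj v u) := by
      ext u
      simp only [SimpleGraph.mem_neighborFinset, Finset.mem_filter]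
      exact ⟨fun h => ⟨(hb u v h.symm).2 (Finset.mem_compl.1 hv), h⟩, fun h => h.2⟩
    rw [← SimpleGraph.card_neighborFinset_eq_degree, this]
    exact Finset.card_filter_add_card_filter_not _

lemma main_side {G : SimpleGraph V} [DecidableRel G.Adj] {A : Finset V}
    (hb : ∀ u v, G.Adj u v → (u ∈ A ↔ v ∉ A)) (hno : ∀ v, ∃ u, G.Adj v u)
    (hlt : sd G Aᶜ < sd G A) :
    sd G A + sd G Aᶜ + 2 ≤ Fintype.card V ∧
    4 * (G.edgeFinset.card : ℤ) ≤
      ((Fintype.card V : ℤ) - (sd G A + sd G Aᶜ : ℕ)) * ((Fintype.card V : ℤ) - (sd G A + sd G Aᶜ : ℕ) + 4)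
        + 2 * (sd G A + sd G Aᶜ : ℕ) - 2 := by
  obtain ⟨S, hSA, hS, hSc⟩ := sd_spec hb hno
  obtain ⟨T, hTA, hT, hTc⟩ := sd_spec (hb_compl hb) hno
  have hpa : sd G A ≤ A.card := by rw [← hSc]; exact Finset.card_le_card hSA
  have hn : A.card + Aᶜ.card = Fintype.card V := Finset.card_add_card_compl A
  have hq : 1 ≤ sd G Aᶜ := by
    obtain ⟨u, hu⟩ : A.Nonempty := Finset.card_pos.1 (by omega)
    obtain ⟨w, hw, -⟩ := hT u (by simpa using hu)
    rw [← hTc]
    exact Finset.card_pos.2 ⟨w, hw⟩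
  have hpb : sd G A ≤ Aᶜ.card := by
    have := sd_ext hb hno ∅ (Finset.empty_subset _)
    have h2 := Finset.card_filter_le Aᶜ (fun v => ∀ u ∈ (∅ : Finset V), ¬ G.Adj v u)
    simp only [Finset.card_empty] at this
    omega
  have hpb2 : sd G A + 1 ≤ Aᶜ.card := by
    have hTlt : T.card < Aᶜ.card := by omega
    obtain ⟨v, hv, hvT⟩ := Finset.exists_mem_notMem_of_card_lt_card hTlt
    obtain ⟨u, hu⟩ := hno v
    have huA : u ∈ A := (hb u v hu.symm).2 (Finset.mem_compl.1 hv)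
    obtain ⟨w, hw, hw2⟩ := hT u (by simpa using huA)
    have hvw : v ≠ w := fun h => hvT (h ▸ hw)
    have h1 := sd_ext hb hno {u} (by simpa using huA)
    have h2 : Aᶜ.filter (fun v => ∀ u' ∈ ({u} : Finset V), ¬ G.Adj v u') ⊆ (Aᶜ.erase v).erase w := by
      intro z hz
      obtain ⟨hz1, hz2⟩ := Finset.mem_filter.1 hz
      have hz3 := hz2 u (Finset.mem_singleton_self u)
      refine Finset.mem_erase.2 ⟨?_, Finset.mem_erase.2 ⟨?_, hz1⟩⟩
      · rintro rfl; exact hz3 hw2.symm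
      · rintro rfl; exact hz3 hu
    have h3 := Finset.card_le_card h2
    rw [Finset.card_erase_of_mem (Finset.mem_erase.2 ⟨hvw.symm, hTA hw⟩),
      Finset.card_erase_of_mem hv] at h3
    simp only [Finset.card_singleton] at h1
    omega
  refine ⟨by omega, ?_⟩
  obtain ⟨k, hk⟩ : ∃ k, sd G Aᶜ = k + 1 := ⟨sd G Aᶜ - 1, by omega⟩
  obtain ⟨r, hr⟩ : ∃ r, sd G A = r + 1 := ⟨sd G A - 1, by omega⟩
  have hM : ∀ v ∈ Aᶜ, A.filter (fun u => ¬ G.Adj v u) ⊂ A := by
    intro v hv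
    obtain ⟨u, hu⟩ := hno v
    have huA : u ∈ A := (hb u v hu.symm).2 (Finset.mem_compl.1 hv)
    rw [Finset.ssubset_iff_of_subset (Finset.filter_subset _ _)]
    exact ⟨u, huA, fun h => (Finset.mem_filter.1 h).2 hu⟩
  have hc : ∀ S ⊆ A, S.card = r → ∃ v ∈ Aᶜ, S ⊆ A.filter (fun u => ¬ G.Adj v u) := by
    intro S hS hSc
    by_contra hcon
    push Not at hcon
    have : sd G A ≤ S.card := by
      apply sd_le hS
      intro v hv
      have := hcon v (Finset.mem_compl.2 hv)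
      rw [Finset.not_subset] at this
      obtain ⟨u, hu, hu2⟩ := this
      refine ⟨u, hu, ?_⟩
      by_contra h
      exact hu2 (Finset.mem_filter.2 ⟨hS hu, h⟩)
    omega
  have hcov := cover Aᶜ r k (by omega) A.card A rfl (fun v => A.filter (fun u => ¬ G.Adj v u)) hM
    (by omega) hc
  have hge : ∀ v ∈ Aᶜ, k ≤ (A.filter (fun u => ¬ G.Adj v u)).card := by
    intro v hv
    have h1 := sd_ext (hb_compl hb) hno {v} (by simpa using hv)
    have h2 : Aᶜᶜ.filter (fun z => ∀ u ∈ ({v} : Finset V), ¬ G.Adj z u)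
        ⊆ A.filter (fun u => ¬ G.Adj v u) := by
      intro z hz
      obtain ⟨hz1, hz2⟩ := Finset.mem_filter.1 hz
      refine Finset.mem_filter.2 ⟨by simpa using hz1, fun h => ?_⟩
      exact hz2 v (Finset.mem_singleton_self v) h.symm
    have h3 := Finset.card_le_card h2
    simp only [Finset.card_singleton] at h1
    omega
  have hsum : ∑ v ∈ Aᶜ, (A.filter (fun u => ¬ G.Adj v u)).card
      = ∑ v ∈ Aᶜ, ((A.filter (fun u => ¬ G.Adj v u)).card - k) + Aᶜ.card * k := by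
    rw [← smul_eq_mul, ← Finset.sum_const, ← Finset.sum_add_distrib]
    apply Finset.sum_congr rfl
    intro v hv
    have := hge v hv
    omega
  have he := edges_eq hb
  beta_reduce at hcov
  rw [hsum] at he
  generalize ∑ v ∈ Aᶜ, ((A.filter (fun u => ¬ G.Adj v u)).card - k) = Z at he hcov
  rw [← hn, hk, hr]
  have hka : k ≤ A.card := by omega
  have hkr : k + 1 ≤ r := by omega
  generalize G.edgeFinset.card = m at he ⊢
  generalize A.card = a at he hcov hka ⊢
  generalize Aᶜ.card = b at he ⊢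
  zify [hka] at he hcov hkr ⊢
  nlinarith [sq_nonneg ((a : ℤ) - k - (b - r))]

theorem q1 {G : SimpleGraph V} [DecidableRel G.Adj] (hG : G.IsBipartite)
    (hno : ∀ v, ∃ u, G.Adj v u) (hodd : Odd (gammaT G)) :
    gammaT G + 2 ≤ Fintype.card V ∧
    4 * (G.edgeFinset.card : ℤ) ≤
      ((Fintype.card V : ℤ) - (gammaT G : ℕ)) * ((Fintype.card V : ℤ) - (gammaT G : ℕ) + 4)
        + 2 * (gammaT G : ℕ) - 2 := by
  obtain ⟨c⟩ := hG
  have hb : ∀ u v, G.Adj u v → (u ∈ Finset.univ.filter (fun z => c z = 0) ↔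
      v ∉ Finset.univ.filter (fun z => c z = 0)) := by
    intro u v h
    have := c.valid h
    simp only [Finset.mem_filter, Finset.mem_univ, true_and]
    generalize c u = x at this ⊢
    generalize c v = y at this ⊢
    revert x y
    decide
  set A := Finset.univ.filter (fun z => c z = 0)
  have he := gamma_eq hb hno
  rcases lt_trichotomy (sd G Aᶜ) (sd G A) with h | h | h
  · rw [he]; exact main_side hb hno h
  · rw [he, h] at hodd
    obtain ⟨t, ht⟩ := hodd
    omega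
  · have := main_side (hb_compl hb) hno (by rw [compl_compl]; exact h)
    rw [compl_compl, add_comm (sd G Aᶜ)] at this
    rw [he]; exact this

end Pool.Agent.H4.TD
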