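import Pool.Agent.H4.TD2

namespace Pool.Agent.H4.TD

open Finset

lemma gx_lr (x : ℕ) (i : Fin ((x - 1) / 2)) (k : Fin (x / 2 + 1)) :
    (Gx x).Adj (Sum.inl i) (Sum.inr k) ↔ i.val ≠ k.val := by
  simp only [Gx, SimpleGraph.deleteEdges_adj, completeBipartiteGraph_adj, Set.mem_setOf_eq]
  constructor
  · rintro ⟨-, h⟩ he
    exact h ⟨i, k, he, rfl⟩
  · intro h
    refine ⟨by simp, ?_⟩
    rintro ⟨i', k', he, h2⟩
    simp only [Sym2.eq_iff, Sum.inl.injEq, Sum.inr.injEq, reduceCtorEq, false_and, or_false,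
      and_false] at h2
    obtain ⟨rfl, rfl⟩ := h2
    exact h he

lemma gx_rl (x : ℕ) (i : Fin ((x - 1) / 2)) (k : Fin (x / 2 + 1)) :
    (Gx x).Adj (Sum.inr k) (Sum.inl i) ↔ i.val ≠ k.val := by
  rw [SimpleGraph.adj_comm, gx_lr]

lemma gx_ll (x : ℕ) (i i' : Fin ((x - 1) / 2)) : ¬ (Gx x).Adj (Sum.inl i) (Sum.inl i') := by
  simp [Gx]

lemma gx_rr (x : ℕ) (i i' : Fin (x / 2 + 1)) : ¬ (Gx x).Adj (Sum.inr i) (Sum.inr i') := by
  simp [Gx]

lemma gx_bip (x : ℕ) : (Gx x).IsBipartiteWith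
    ((Finset.univ.map Function.Embedding.inl : Finset (Fin ((x - 1) / 2) ⊕ Fin (x / 2 + 1))) : Set _)
    ((Finset.univ.map Function.Embedding.inr : Finset (Fin ((x - 1) / 2) ⊕ Fin (x / 2 + 1))) : Set _) := by
  refine ⟨?_, ?_⟩
  · rw [Finset.disjoint_coe, Finset.disjoint_left]
    intro z h1 h2
    rcases z with z | z <;> simp at h1 h2
  · intro v w h
    rcases v with v | v <;> rcases w with w | w
    · exact absurd h (gx_ll x _ _)
    · simp
    · simp
    · exact absurd h (gx_rr x _ _)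

lemma gx_edges (x : ℕ) : (Gx x).edgeSet.ncard = ((x - 1) / 2) * (x / 2) := by
  classical
  rw [Set.ncard_eq_toFinset_card']
  change (Gx x).edgeFinset.card = _
  rw [← SimpleGraph.isBipartiteWith_sum_degrees_eq_card_edges (gx_bip x), Finset.sum_map]
  rw [Finset.sum_congr rfl (g := fun _ => x / 2)]
  · simp
  · intro i _
    have hi : i.val < x / 2 + 1 := by have := i.2; omega
    have : (Gx x).neighborFinset (Sum.inl i)
        = (Finset.univ.erase (⟨i.val, hi⟩ : Fin (x / 2 + 1))).map Function.Embedding.inr := by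
      ext w
      rcases w with w | w
      · simp [gx_ll]
      · simp only [SimpleGraph.mem_neighborFinset, gx_lr, Finset.mem_map, Finset.mem_erase,
          Finset.mem_univ, and_true, Function.Embedding.inr_apply, Sum.inr.injEq, exists_eq_right]
        rw [ne_eq, ne_eq, Fin.ext_iff]
        exact ⟨fun h h' => h h'.symm, fun h h' => h h'.symm⟩
    rw [← SimpleGraph.card_neighborFinset_eq_degree]
    have e : ((Gx x).neighborFinset (Sum.inl i)).card = x / 2 := by
      rw [this, Finset.card_map, Finset.card_erase_of_mem (Finset.mem_univ _)]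
      simp
    exact e

lemma jk_adj (j : ℕ) (a b : Fin j × Fin 2) : (jK2 j).Adj a b ↔ a.1 = b.1 ∧ a.2 ≠ b.2 := Iff.rfl

lemma fin2_ne : ∀ c d : Fin 2, c ≠ d ↔ d = 1 - c := by decide

lemma jk_edges (j : ℕ) : (jK2 j).edgeSet.ncard = j := by
  classical
  rw [Set.ncard_eq_toFinset_card']
  change (jK2 j).edgeFinset.card = _
  have h := (jK2 j).sum_degrees_eq_twice_card_edges
  rw [Finset.sum_congr rfl (g := fun _ => 1)] at h
  · simp only [Finset.sum_const, Finset.card_univ, Fintype.card_prod, Fintype.card_fin,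
      smul_eq_mul] at h
    omega
  · rintro ⟨s, c⟩ _
    have : (jK2 j).neighborFinset (s, c) = {(s, 1 - c)} := by
      ext ⟨s', c'⟩
      simp only [SimpleGraph.mem_neighborFinset, jk_adj, fin2_ne, Finset.mem_singleton,
        Prod.mk.injEq]
      exact ⟨fun h => ⟨h.1.symm, h.2⟩, fun h => ⟨h.1.symm, h.2⟩⟩
    rw [← SimpleGraph.card_neighborFinset_eq_degree, this, Finset.card_singleton]

lemma sum_edges (x j : ℕ) :
    ((Gx x).sum (jK2 j)).edgeSet.ncard = ((x - 1) / 2) * (x / 2) + j := by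
  rw [← gx_edges, ← Nat.card_coe_set_eq, Nat.card_congr SimpleGraph.edgeSetSumEquiv, Nat.card_sum,
    Nat.card_coe_set_eq, Nat.card_coe_set_eq, jk_edges]

lemma jk_bip (j : ℕ) : (jK2 j).IsBipartite :=
  ⟨SimpleGraph.Coloring.mk (fun a => a.2) (fun h => h.2)⟩

lemma sum_bip (x j : ℕ) : ((Gx x).sum (jK2 j)).IsBipartite :=
  SimpleGraph.colorable_sum.2 ⟨(gx_bip x).isBipartite, jk_bip j⟩

lemma card3 {α β γ : Type*} [DecidableEq α] [DecidableEq β] [DecidableEq γ] [Fintype γ]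
    (i i' : α) (h : i ≠ i') (k : β) :
    (insert (Sum.inl (Sum.inl i)) (insert (Sum.inl (Sum.inl i')) (insert (Sum.inl (Sum.inr k))
      (Finset.univ.map Function.Embedding.inr))) : Finset ((α ⊕ β) ⊕ γ)).card
      = 3 + Fintype.card γ := by
  rw [Finset.card_insert_of_notMem (by simp [h]), Finset.card_insert_of_notMem (by simp),
    Finset.card_insert_of_notMem (by simp), Finset.card_map, Finset.card_univ]
  omega

lemma sum_tds (x j : ℕ) (hx : 5 ≤ x) :
    ∃ S, IsTDS ((Gx x).sum (jK2 j)) S ∧ S.card = 3 + 2 * j := by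
  have h0 : 0 < (x - 1) / 2 := by omega
  have h1 : 1 < (x - 1) / 2 := by omega
  have h2 : x / 2 < x / 2 + 1 := by omega
  refine ⟨insert (Sum.inl (Sum.inl ⟨0, h0⟩)) (insert (Sum.inl (Sum.inl ⟨1, h1⟩))
    (insert (Sum.inl (Sum.inr ⟨x / 2, h2⟩)) (Finset.univ.map Function.Embedding.inr))), ?_, ?_⟩
  · rintro ((i | k) | ⟨s, c⟩)
    · refine ⟨Sum.inl (Sum.inr ⟨x / 2, h2⟩), by simp, ?_⟩
      rw [SimpleGraph.sum_adj_inl, gx_lr]
      have := i.2
      simp only [ne_eq]
      omega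
    · by_cases hk : k.val = 0
      · refine ⟨Sum.inl (Sum.inl ⟨1, h1⟩), by simp, ?_⟩
        rw [SimpleGraph.sum_adj_inl, gx_rl]
        simp only [ne_eq]
        omega
      · refine ⟨Sum.inl (Sum.inl ⟨0, h0⟩), by simp, ?_⟩
        rw [SimpleGraph.sum_adj_inl, gx_rl]
        simp only [ne_eq]
        omega
    · refine ⟨Sum.inr (s, 1 - c), by simp, ?_⟩
      rw [SimpleGraph.sum_adj_inr, jk_adj]
      exact ⟨rfl, (fin2_ne _ _).2 rfl⟩
  · rw [card3 _ _ (by simp [Fin.ext_iff])]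
    simp [mul_comm]

lemma sum_gamma (x j : ℕ) (hx : 5 ≤ x) : gammaT ((Gx x).sum (jK2 j)) = 3 + 2 * j := by
  obtain ⟨S, hS, hSc⟩ := sum_tds x j hx
  apply le_antisymm
  · exact Nat.sInf_le ⟨S, hS, hSc⟩
  · have hne : ({k | ∃ S, IsTDS ((Gx x).sum (jK2 j)) S ∧ S.card = k} : Set ℕ).Nonempty :=
      ⟨_, S, hS, rfl⟩
    obtain ⟨D, hD, hDc⟩ := Nat.sInf_mem hne
    have h0 : 0 < (x - 1) / 2 := by omega
    have hB : ∀ k : Fin (x / 2 + 1), ∃ i : Fin ((x - 1) / 2),
        Sum.inl (Sum.inl i) ∈ D ∧ i.val ≠ k.val := by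
      intro k
      obtain ⟨u, hu, h⟩ := hD (Sum.inl (Sum.inr k))
      rcases u with ((i | k') | w)
      · rw [SimpleGraph.sum_adj_inl, gx_rl] at h
        exact ⟨i, hu, h⟩
      · rw [SimpleGraph.sum_adj_inl] at h
        exact absurd h (gx_rr x _ _)
      · simp at h
    obtain ⟨i, hi, -⟩ := hB ⟨0, by omega⟩
    obtain ⟨i', hi', hne'⟩ := hB ⟨i.val, by have := i.2; omega⟩
    obtain ⟨k, hk⟩ : ∃ k, Sum.inl (Sum.inr k) ∈ D := by
      obtain ⟨u, hu, h⟩ := hD (Sum.inl (Sum.inl ⟨0, h0⟩))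
      rcases u with ((i | k') | w)
      · rw [SimpleGraph.sum_adj_inl] at h
        exact absurd h (gx_ll x _ _)
      · exact ⟨k', hu⟩
      · simp at h
    have hR : ∀ w, Sum.inr w ∈ D := by
      rintro ⟨s, c⟩
      obtain ⟨u, hu, h⟩ := hD (Sum.inr (s, 1 - c))
      rcases u with (u | ⟨s', c'⟩)
      · simp at h
      · rw [SimpleGraph.sum_adj_inr, jk_adj] at h
        obtain ⟨h1, h2⟩ := h
        simp only at h1 h2
        have h3 : c' = c := by
          revert h2; generalize c = a; generalize c' = b; revert a b; decide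
        subst h1 h3
        exact hu
    have hsub : (insert (Sum.inl (Sum.inl i)) (insert (Sum.inl (Sum.inl i'))
        (insert (Sum.inl (Sum.inr k)) (Finset.univ.map Function.Embedding.inr)))) ⊆ D := by
      intro z hz
      simp only [Finset.mem_insert, Finset.mem_map, Finset.mem_univ, true_and,
        Function.Embedding.inr_apply] at hz
      rcases hz with rfl | rfl | rfl | ⟨w, rfl⟩
      · exact hi
      · exact hi'
      · exact hk
      · exact hR w
    have := Finset.card_le_card hsub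
    rw [card3 _ _ (fun h => hne' (by rw [h]))] at this
    simp only [Fintype.card_prod, Fintype.card_fin] at this
    unfold gammaT
    omega

lemma bound_eq (t j : ℕ) :
    bound (2 * j + 3 + t) (2 * j + 3) = (((t + 3 - 1) / 2) * ((t + 3) / 2) + j : ℕ) := by
  unfold bound
  rw [Int.floor_eq_iff]
  rcases Nat.even_or_odd' t with ⟨s, rfl | rfl⟩
  · have e1 : (2 * s + 3 - 1) / 2 = s + 1 := by omega
    have e2 : (2 * s + 3) / 2 = s + 1 := by omega
    rw [e1, e2]
    push_cast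
    constructor <;> nlinarith
  · have e1 : (2 * s + 1 + 3 - 1) / 2 = s + 1 := by omega
    have e2 : (2 * s + 1 + 3) / 2 = s + 2 := by omega
    rw [e1, e2]
    push_cast
    constructor <;> nlinarith

theorem ext_spec (n g : ℕ) (hodd : Odd g) (h3 : 3 ≤ g) (hn : g + 2 ≤ n) :
    (Ext n g).IsBipartite ∧ (∀ v, ∃ u, (Ext n g).Adj v u) ∧
    Fintype.card ((Fin ((n - g + 3 - 1) / 2) ⊕ Fin ((n - g + 3) / 2 + 1)) ⊕
      (Fin ((g - 3) / 2) × Fin 2)) = n ∧
    gammaT (Ext n g) = g ∧ ((Ext n g).edgeSet.ncard : ℤ) = bound n g := by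
  obtain ⟨s, hs⟩ := hodd
  refine ⟨sum_bip _ _, ?_, ?_, ?_, ?_⟩
  · intro v
    obtain ⟨S, hS, -⟩ := sum_tds (n - g + 3) ((g - 3) / 2) (by omega)
    obtain ⟨u, -, h⟩ := hS v
    exact ⟨u, h⟩
  · simp only [Fintype.card_sum, Fintype.card_prod, Fintype.card_fin]
    omega
  · unfold Ext
    rw [sum_gamma _ _ (by omega)]
    omega
  · unfold Ext
    rw [sum_edges]
    obtain ⟨j, rfl⟩ : ∃ j, g = 2 * j + 3 := ⟨s - 1, by omega⟩
    obtain ⟨t, rfl⟩ : ∃ t, n = 2 * j + 3 + t := ⟨n - (2 * j + 3), by omega⟩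
    rw [bound_eq]
    have e1 : 2 * j + 3 + t - (2 * j + 3) = t := by omega
    have e2 : (2 * j + 3 - 3) / 2 = j := by omega
    rw [e1, e2]

/-- second extremal graph for `n = 6`, `g = 3` -/
def H6 : SimpleGraph (Fin 6) :=
  SimpleGraph.fromRel (fun u v => (u, v) ∈ ([(0, 4), (0, 5), (1, 4), (1, 5), (2, 3), (2, 5)] :
    List (Fin 6 × Fin 6)))

instance : DecidableRel H6.Adj := fun u v => by
  unfold H6; rw [SimpleGraph.fromRel_adj]; infer_instance

def TwoLeaves {V : Type*} (G : SimpleGraph V) : Prop :=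
  ∃ u v, u ≠ v ∧ (∀ w w', G.Adj u w → G.Adj u w' → w = w') ∧
    (∀ w w', G.Adj v w → G.Adj v w' → w = w')

lemma TwoLeaves.map {V W : Type*} {G : SimpleGraph V} {H : SimpleGraph W} (e : G ≃g H)
    (h : TwoLeaves H) : TwoLeaves G := by
  obtain ⟨u, v, huv, hu, hv⟩ := h
  refine ⟨e.symm u, e.symm v, fun h => huv (e.symm.injective h), ?_, ?_⟩
  · intro w w' h1 h2
    apply e.injective
    apply hu
    · simpa using e.map_adj_iff.2 h1
    · simpa using e.map_adj_iff.2 h2
  · intro w w' h1 h2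
    apply e.injective
    apply hv
    · simpa using e.map_adj_iff.2 h1
    · simpa using e.map_adj_iff.2 h2

lemma h6_not : ¬ TwoLeaves H6 := by
  unfold TwoLeaves
  decide

lemma ext_two : TwoLeaves (Ext 6 3) := by
  have key : ∀ k : Fin ((6 - 3 + 3) / 2 + 1), k.val < 2 → ∀ w w',
      (Ext 6 3).Adj (Sum.inl (Sum.inr k)) w → (Ext 6 3).Adj (Sum.inl (Sum.inr k)) w' → w = w' := by
    intro k hk w w' h1 h2
    unfold Ext at h1 h2
    rcases w with ((i | k') | w)
    · rcases w' with ((i' | k'') | w')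
      · rw [SimpleGraph.sum_adj_inl, gx_rl] at h1 h2
        have := i.2
        have := i'.2
        have : i = i' := Fin.ext (by omega)
        rw [this]
      · rw [SimpleGraph.sum_adj_inl] at h2
        exact absurd h2 (gx_rr _ _ _)
      · simp at h2
    · rw [SimpleGraph.sum_adj_inl] at h1
      exact absurd h1 (gx_rr _ _ _)
    · simp at h1
  refine ⟨Sum.inl (Sum.inr ⟨0, by norm_num⟩), Sum.inl (Sum.inr ⟨1, by norm_num⟩), by simp,
    key _ (by norm_num), key _ (by norm_num)⟩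

lemma h6_gamma : gammaT H6 = 3 := by
  have hS : IsTDS H6 {0, 2, 5} := by unfold IsTDS; decide
  apply le_antisymm
  · exact Nat.sInf_le ⟨{0, 2, 5}, hS, by decide⟩
  · have hne : ({k | ∃ S, IsTDS H6 S ∧ S.card = k} : Set ℕ).Nonempty := ⟨_, _, hS, rfl⟩
    obtain ⟨D, hD, hDc⟩ := Nat.sInf_mem hne
    have : ∀ D : Finset (Fin 6), IsTDS H6 D → 3 ≤ D.card := by
      unfold IsTDS; decide +kernel
    have := this D hD
    unfold gammaT
    omega

theorem h6_spec : H6.IsBipartite ∧ (∀ v, ∃ u, H6.Adj v u) ∧ gammaT H6 = 3 ∧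
    (H6.edgeSet.ncard : ℤ) = bound 6 3 ∧ IsEmpty (H6 ≃g Ext 6 3) := by
  refine ⟨?_, by decide, h6_gamma, ?_, ⟨fun e => h6_not (ext_two.map e)⟩⟩
  · exact ⟨SimpleGraph.Coloring.mk (fun v => if v.val < 3 then 0 else 1) (by decide)⟩
  · have h1 : H6.edgeSet.ncard = 6 := by
      rw [Set.ncard_eq_toFinset_card']
      change H6.edgeFinset.card = _
      have h := H6.sum_degrees_eq_twice_card_edges
      have h2 : ∑ v, H6.degree v = 12 := by decide +kernel
      omega
    have h2 := bound_eq 3 0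
    rw [h1]
    exact h2.symm

end Pool.Agent.H4.TD
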