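import Mathlib

namespace Pool.Agent.H4.TensorChain

open Finset Module

/-- A 3-tensor in `F^a ⊗ F^b ⊗ F^c`, given by its coordinates. -/
structure Tensor (F : Type) where
  a : ℕ
  b : ℕ
  c : ℕ
  t : Fin a → Fin b → Fin c → F

variable {F : Type} [Field F]

/-- Restriction: `S = (A ⊗ B ⊗ C) T`. -/
def Le (S T : Tensor F) : Prop :=
  ∃ (A : Fin S.a → Fin T.a → F) (B : Fin S.b → Fin T.b → F) (C : Fin S.c → Fin T.c → F),
    ∀ i j k, S.t i j k = ∑ x, ∑ y, ∑ z, A i x * B j y * C k z * T.t x y z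

/-- Direct sum. -/
def dsum (S T : Tensor F) : Tensor F :=
  ⟨S.a + T.a, S.b + T.b, S.c + T.c, fun i j k =>
    match finSumFinEquiv.symm i, finSumFinEquiv.symm j, finSumFinEquiv.symm k with
    | .inl i, .inl j, .inl k => S.t i j k
    | .inr i, .inr j, .inr k => T.t i j k
    | _, _, _ => 0⟩

/-- Kronecker product. -/
def kron (S T : Tensor F) : Tensor F :=
  ⟨S.a * T.a, S.b * T.b, S.c * T.c, fun i j k =>
    S.t i.divNat j.divNat k.divNat * T.t i.modNat j.modNat k.modNat⟩

/-- The unit tensor `⟨r⟩`. -/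
def unit (F : Type) [Field F] (r : ℕ) : Tensor F :=
  ⟨r, r, r, fun i j k => if i = j ∧ j = k then 1 else 0⟩

/-- The asymptotic spectrum: monotone semiring homomorphisms to the nonnegative reals. -/
def Spec (F : Type) [Field F] : Set (Tensor F → NNReal) :=
  {f | (∀ S T, Le S T → f S ≤ f T) ∧ f (unit F 0) = 0 ∧ f (unit F 1) = 1 ∧
    (∀ S T, f (dsum S T) = f S + f T) ∧ ∀ S T, f (kron S T) = f S * f T}

def CondB (F : Type) [Field F] : Prop :=
  ∃ (c : ℚ → Tensor F) (b : Tensor F) (s t : ℝ), 1 < s ∧ s < t ∧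
    (∀ q r, 2 ≤ q → q ≤ r → Le (c q) (c r)) ∧
    ∀ l ∈ Set.Icc s t, ∃ f ∈ Spec F, (∀ q, 2 ≤ q → (f (c q) : ℝ) = q) ∧ (f b : ℝ) = l

def CountablyUniversal (F : Type) [Field F] : Prop :=
  ∀ (P : Type) [Preorder P] [Countable P], ∃ φ : P → Tensor F, ∀ x y, x ≤ y ↔ Le (φ x) (φ y)

abbrev rot (T : Tensor F) : Tensor F := ⟨T.b, T.c, T.a, fun y z x => T.t x y z⟩

abbrev act {m : ℕ} (T : Tensor F) (A : Fin m → Fin T.a → F) : Tensor F :=
  ⟨m, T.b, T.c, fun i y z => ∑ x, A i x * T.t x y z⟩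

noncomputable def r (T : Tensor F) : ℕ := finrank F (Submodule.span F (Set.range T.t))

noncomputable def ρ (T : Tensor F) : ℕ := r T + r (rot T) + r (rot (rot T))

lemma Le.rot {S T : Tensor F} (h : Le S T) : Le (rot S) (rot T) := by
  obtain ⟨A, B, C, h⟩ := h
  refine ⟨B, C, A, fun j k i => ?_⟩
  change S.t i j k = ∑ y, ∑ z, ∑ x, B j y * C k z * A i x * T.t x y z
  rw [h, sum_comm]
  refine sum_congr rfl fun y _ => ?_
  rw [sum_comm]
  exact sum_congr rfl fun _ _ => sum_congr rfl fun _ _ => by ring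

lemma Le.trans {S T U : Tensor F} (h : Le S T) (h' : Le T U) : Le S U := by
  obtain ⟨A, B, C, h⟩ := h
  obtain ⟨A', B', C', h'⟩ := h'
  refine ⟨fun i x => ∑ p, A i p * A' p x, fun i x => ∑ p, B i p * B' p x,
    fun i x => ∑ p, C i p * C' p x, fun i j k => ?_⟩
  have e : ∀ x y z, (∑ p, A i p * A' p x) * (∑ p, B j p * B' p y) * (∑ p, C k p * C' p z) *
      U.t x y z = ∑ w : Fin T.a × Fin T.b × Fin T.c, A i w.1 * B j w.2.1 * C k w.2.2 *
        (A' w.1 x * B' w.2.1 y * C' w.2.2 z * U.t x y z) := by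
    intro x y z
    rw [mul_assoc (∑ p, _), Fintype.sum_mul_sum, ← Fintype.sum_prod_type', Fintype.sum_mul_sum,
      ← Fintype.sum_prod_type', sum_mul]
    exact sum_congr rfl fun _ _ => by ring
  simp only [e]
  simp only [h, h', mul_sum]
  rw [show ∀ f : Fin T.a → Fin T.b → Fin T.c → F, ∑ x, ∑ y, ∑ z, f x y z =
    ∑ w : Fin T.a × Fin T.b × Fin T.c, f w.1 w.2.1 w.2.2 from fun f => by
      simp only [Fintype.sum_prod_type], sum_comm]
  refine sum_congr rfl fun _ _ => ?_
  rw [sum_comm]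
  exact sum_congr rfl fun _ _ => sum_comm

lemma le_of_act {S : Tensor F} (t : Fin S.a → Fin S.b → Fin S.c → F) {m : ℕ}
    (u : Fin m → Fin S.b → Fin S.c → F) (A : Fin S.a → Fin m → F)
    (h : ∀ i y z, t i y z = ∑ x, A i x * u x y z) :
    Le (⟨S.a, S.b, S.c, t⟩ : Tensor F) ⟨m, S.b, S.c, u⟩ :=
  ⟨A, fun i j => if i = j then 1 else 0, fun i j => if i = j then 1 else 0, fun i j k => by
    simp [h]⟩

lemma r_mono {S T : Tensor F} (h : Le S T) : r S ≤ r T := by
  obtain ⟨A, B, C, h⟩ := h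
  let φ : (Fin T.b → Fin T.c → F) →ₗ[F] (Fin S.b → Fin S.c → F) :=
    { toFun := fun M j k => ∑ y, ∑ z, B j y * C k z * M y z
      map_add' := fun M N => by ext j k; simp [mul_add, sum_add_distrib]
      map_smul' := fun a M => by ext j k; simp [mul_sum, mul_left_comm] }
  refine (Submodule.finrank_mono (t := (Submodule.span F (Set.range T.t)).map φ) ?_).trans
    (Submodule.finrank_map_le _ _)
  rw [Submodule.span_le]
  rintro _ ⟨i, rfl⟩
  have : S.t i = ∑ x, A i x • φ (T.t x) := by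
    ext j k
    simp [h, φ, mul_sum, mul_assoc]
  rw [this]
  exact Submodule.sum_mem _ fun x _ => Submodule.smul_mem _ _
    (Submodule.mem_map_of_mem (Submodule.subset_span ⟨x, rfl⟩))

lemma step {m : ℕ} (T : Tensor F) (A : Fin m → Fin T.a → F) :
    ρ (rot (act T A)) ≤ ρ T ∧ (ρ T ≤ ρ (rot (act T A)) → Le (rot T) (rot (act T A))) := by
  have h : Le (act T A) T := le_of_act (S := act T A) _ _ A fun _ _ _ => rfl
  have h0 := r_mono h
  have h1 := r_mono h.rot
  have h2 := r_mono h.rot.rot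
  have e : ρ (rot (act T A)) = r (rot (act T A)) + r (rot (rot (act T A))) + r (act T A) := rfl
  refine ⟨by rw [e, ρ]; omega, fun hh => Le.rot ?_⟩
  have sub : Submodule.span F (Set.range (act T A).t) ≤ Submodule.span F (Set.range T.t) := by
    rw [Submodule.span_le]
    rintro _ ⟨i, rfl⟩
    have : (act T A).t i = ∑ x, A i x • T.t x := by ext j k; simp [act]
    rw [this]
    exact Submodule.sum_mem _ fun x _ => Submodule.smul_mem _ _ (Submodule.subset_span ⟨x, rfl⟩)
  have eq := Submodule.eq_of_le_of_finrank_le sub (show r T ≤ r (act T A) by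
    rw [e, ρ] at hh; omega)
  have : ∀ i, ∃ c : Fin m → F, ∑ x, c x • (act T A).t x = T.t i := fun i =>
    (Submodule.mem_span_range_iff_exists_fun F).1 (eq.ge (Submodule.subset_span ⟨i, rfl⟩))
  choose c hc using this
  exact le_of_act (S := T) _ _ c fun i y z => by rw [← hc i]; simp [Finset.sum_apply]

lemma strict {S T : Tensor F} (h : Le S T) (h' : ¬Le T S) : ρ S < ρ T := by
  obtain ⟨a, b, c, t⟩ := S
  obtain ⟨A, B, C, h⟩ := h
  have e : (⟨a, b, c, t⟩ : Tensor F) = rot (act (rot (act (rot (act T A)) B)) C) := by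
    simp only [rot, act]
    congr 1
    ext i j k
    refine (h i j k).trans ?_
    simp only [mul_sum]
    rw [sum_comm, sum_comm (γ := Fin T.c)]
    refine sum_congr rfl fun y _ => ?_
    rw [sum_comm]
    exact sum_congr rfl fun _ _ => sum_congr rfl fun _ _ => by ring
  rw [e] at h' ⊢
  by_contra hh
  have s1 := step T A
  have s2 := step (rot (act T A)) B
  have s3 := step (rot (act (rot (act T A)) B)) C
  exact h' (((s1.2 (by omega)).rot.trans (s2.2 (by omega))).rot.trans (s3.2 (by omega)))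

lemma no_chain (u : ℕ → Tensor F) (h : ∀ n, Le (u (n + 1)) (u n) ∧ ¬Le (u n) (u (n + 1))) :
    False := by
  have : ∀ n, ρ (u n) + n ≤ ρ (u 0) := fun n => by
    induction n with
    | zero => simp
    | succ n ih => have := strict (h n).1 (h n).2; omega
  have := this (ρ (u 0) + 1)
  omega

end Pool.Agent.H4.TensorChain
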