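import Mathlib

namespace Pool.Agent.H4.Thresh

open Finset SimpleGraph

/-- A connected graph on 9 vertices with 12 edges. -/
def H : SimpleGraph (Fin 9) := fromRel fun a b => (a, b) ∈ [((0 : Fin 9), (1 : Fin 9)), (0, 2), (0, 6),
  (0, 7), (0, 8), (2, 3), (3, 4), (3, 5), (4, 6), (5, 7), (1, 6), (1, 8)]

instance : DecidableRel H.Adj := fun _ _ => by unfold H; infer_instance

variable {V : Type} {G : SimpleGraph V}

lemma emb {x y z t s r a b c : V} (h : [x, y, z, t, s, r, a, b, c].Nodup) (h1 : G.Adj x y)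
    (h2 : G.Adj x z) (h3 : G.Adj x a) (h4 : G.Adj x b) (h5 : G.Adj x c) (h6 : G.Adj z t)
    (h7 : G.Adj t s) (h8 : G.Adj t r) (h9 : G.Adj s a) (h10 : G.Adj r b) (h11 : G.Adj y a)
    (h12 : G.Adj y c) : H ⊑ G := by
  have inj : Function.Injective ![x, y, z, t, s, r, a, b, c] := List.nodup_ofFn.1 (by simpa using h)
  refine ⟨⟨⟨![x, y, z, t, s, r, a, b, c], ?_⟩, inj⟩⟩
  have k : ∀ p ∈ [((0 : Fin 9), (1 : Fin 9)), (0, 2), (0, 6), (0, 7), (0, 8), (2, 3), (3, 4), (3, 5),
      (4, 6), (5, 7), (1, 6), (1, 8)], G.Adj (![x, y, z, t, s, r, a, b, c] p.1)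
        (![x, y, z, t, s, r, a, b, c] p.2) := by
    simp only [List.forall_mem_cons]
    exact ⟨h1, h2, h3, h4, h5, h6, h7, h8, h9, h10, h11, h12, by simp⟩
  rintro i j ⟨-, h | h⟩
  exacts [k _ h, (k _ h).symm]

/-- Two matchings, no edge between matched vertices of different sides: no copy of `H`. -/
lemma tmpl (P : V → Bool) (h1 : ∀ x y z, P x = P y → P x = P z → G.Adj x y → G.Adj x z → y = z)
    (h2 : ∀ x y z t, P x = P y → P z = P t → P x ≠ P z → G.Adj x y → G.Adj z t → ¬G.Adj x z) :
    H.Free G := by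
  rintro ⟨f⟩
  have : ∀ S : Fin 9 → Bool, (∃ x y z, S x = S y ∧ S x = S z ∧ H.Adj x y ∧ H.Adj x z ∧ y ≠ z) ∨
      ∃ x z, S x ≠ S z ∧ H.Adj x z ∧ (∃ y, S x = S y ∧ H.Adj x y) ∧ ∃ t, S z = S t ∧ H.Adj z t := by
    decide +kernel
  rcases this fun i => P (f i) with ⟨x, y, z, a, b, c, d, e⟩ | ⟨x, z, a, b, ⟨y, c, d⟩, t, e, g⟩
  · exact e (f.injective (h1 _ _ _ a b (f.toHom.map_adj c) (f.toHom.map_adj d)))
  · exact h2 _ _ _ _ c e a (f.toHom.map_adj d) (f.toHom.map_adj g) (f.toHom.map_adj b)

lemma pick (s : Finset V) (l : List V) (h : l.length < s.card) : ∃ v ∈ s, v ∉ l := by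
  classical
  by_contra c
  simp only [not_exists, not_and, not_not] at c
  exact absurd ((card_le_card fun v hv => List.mem_toFinset.2 (c v hv)).trans l.toFinset_card_le)
    (not_le.2 h)

variable [Fintype V] [DecidableEq V] [DecidableRel G.Adj]

def Rich (G : SimpleGraph V) [DecidableRel G.Adj] (P : Finset V) : Prop :=
  ∀ a ∈ P, ∀ b ∈ P, ∀ c ∈ P, 9 ≤ (G.neighborFinset a ∩ G.neighborFinset b ∩ G.neighborFinset c).card

lemma core {P : Finset V} (hc : Rich G P) {x y z t s r : V} (hx : x ∈ P) (hy : y ∈ P) (hs : s ∈ P)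
    (hr : r ∈ P) (h : [x, y, z, t, s, r].Nodup) (h1 : G.Adj x y) (h2 : G.Adj x z) (h6 : G.Adj z t)
    (h7 : G.Adj t s) (h8 : G.Adj t r) : H ⊑ G := by
  obtain ⟨a, ha, a'⟩ := pick _ [x, y, z, t, s, r] (lt_of_lt_of_le (by simp) (hc x hx y hy s hs))
  obtain ⟨b, hb, b'⟩ := pick _ [x, y, z, t, s, r, a] (lt_of_lt_of_le (by simp) (hc x hx y hy r hr))
  obtain ⟨c, hc, c'⟩ := pick _ [x, y, z, t, s, r, a, b] (lt_of_lt_of_le (by simp) (hc x hx y hy r hr))
  simp only [mem_inter, mem_neighborFinset] at ha hb hc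
  refine emb (x := x) (y := y) (z := z) (t := t) (s := s) (r := r) (a := a) (b := b) (c := c) ?_ h1 h2
    ha.1.1 hb.1.1 hc.1.1 h6 h7 h8 ha.2 hb.2 ha.1.2 hc.1.2
  exact ((h.concat a').concat b').concat c'

lemma p3 {P : Finset V} (hc : Rich G P) (h5 : 5 ≤ P.card) {x y z : V} (hx : x ∈ P) (hy : y ∈ P)
    (hz : z ∈ P) (h1 : G.Adj x y) (h2 : G.Adj x z) (h : y ≠ z) : H ⊑ G := by
  obtain ⟨s, hs, s'⟩ := pick P [x, y, z] (lt_of_lt_of_le (by simp) h5)
  obtain ⟨r, hr, r'⟩ := pick P [x, y, z, s] (lt_of_lt_of_le (by simp) h5)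
  obtain ⟨t, ht, t'⟩ := pick _ [x, y, z, s, r] (lt_of_lt_of_le (by simp) (hc z hz s hs r hr))
  simp only [mem_inter, mem_neighborFinset] at ht
  refine core hc hx hy hs hr ?_ h1 h2 ht.1.1 ht.1.2.symm ht.2.symm
  have := h1.ne
  have := h2.ne
  simp only [List.mem_cons, List.not_mem_nil, List.nodup_cons, List.nodup_nil] at *
  grind

def Far (G : SimpleGraph V) [DecidableRel G.Adj] (u : V) : Finset V :=
  univ.filter fun t => (G.neighborFinset t ∩ G.neighborFinset u).card ≤ 12

lemma near_card (hd : ∀ v, 49 * Fintype.card V ≤ 100 * G.degree v) (w : V) :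
    49 * Fintype.card V ≤ 100 * (Far G w)ᶜ.card + 2500 := by
  have a : ∑ t, (G.neighborFinset t ∩ G.neighborFinset w).card = ∑ v ∈ G.neighborFinset w, G.degree v := by
    simp only [← card_neighborFinset_eq_degree, inter_comm _ (G.neighborFinset w), ← filter_mem_eq_inter,
      card_filter]
    rw [sum_comm]
    refine sum_congr rfl fun v _ => ?_
    simp [neighborFinset_eq_filter, adj_comm]
  have b : G.degree w * (49 * Fintype.card V) ≤ 100 * ∑ v ∈ G.neighborFinset w, G.degree v := by
    rw [mul_sum]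
    simpa using card_nsmul_le_sum _ _ _ fun v (_ : v ∈ G.neighborFinset w) => hd v
  rw [← a, ← sum_add_sum_compl (Far G w)] at b
  have c := sum_le_card_nsmul (Far G w) _ 12 fun t ht => (mem_filter.1 ht).2
  have d := sum_le_card_nsmul (Far G w)ᶜ _ (G.degree w) fun t _ =>
    card_le_card (inter_subset_right (s₁ := G.neighborFinset t) (s₂ := G.neighborFinset w))
  have e := card_le_univ (Far G w)
  have f := hd w
  have g : 0 < Fintype.card V := Fintype.card_pos_iff.2 ⟨w⟩
  simp only [smul_eq_mul] at c d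
  refine Nat.le_of_mul_le_mul_left (c := G.degree w) (by nlinarith) (by omega)

lemma far_card (hf : H.Free G) (hd : ∀ v, 49 * Fintype.card V ≤ 100 * G.degree v)
    (hn : 10000 ≤ Fintype.card V) (x : V) : 40 * Fintype.card V ≤ 100 * (Far G x).card := by
  by_cases h : G.neighborFinset x ⊆ Far G x
  · have := card_le_card h
    have := hd x
    rw [card_neighborFinset_eq_degree] at *
    omega
  obtain ⟨y, hy, h⟩ := not_subset.1 h
  simp only [Far, mem_filter, mem_univ, true_and, not_le, mem_neighborFinset] at h hy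
  obtain ⟨W, hW, cW⟩ := exists_subset_card_eq h
  have a : ∑ w ∈ W, (Far G w)ᶜ.card = ∑ t, (W.filter fun w => t ∉ Far G w).card := by
    simp only [card_filter]
    rw [sum_comm]
    refine sum_congr rfl fun v _ => ?_
    rw [← card_filter]
    congr 1
    ext; simp
  have b := card_nsmul_le_sum W _ _ fun w _ => near_card hd w
  rw [sum_add_distrib, ← mul_sum, a, ← sum_add_sum_compl (Far G x ∪ insert x (insert y W))] at b
  have c := sum_le_card_nsmul (Far G x ∪ insert x (insert y W)) _ 13 fun t _ =>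
    (card_filter_le W fun w => t ∉ Far G w).trans cW.le
  have d := sum_le_card_nsmul (Far G x ∪ insert x (insert y W))ᶜ
    (fun t => (W.filter fun w => t ∉ Far G w).card) 1 fun t ht => card_le_one.2 fun a ha b hb => by
      by_contra e
      simp only [Far, mem_filter, mem_univ, true_and, not_le, mem_compl, mem_union, mem_insert,
        not_or] at ha hb ht
      obtain ⟨c, hc, c'⟩ := pick W [a, b] (by simp [cW])
      obtain ⟨z, hz, z'⟩ := pick _ [x, y, t, a, b, c] (lt_of_le_of_lt (by simp) ht.1)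
      obtain ⟨s, hs, s'⟩ := pick _ [x, y, t, a, b, c, z] (lt_of_le_of_lt (by simp) ha.2)
      obtain ⟨r, hr, r'⟩ := pick _ [x, y, t, a, b, c, z, s] (lt_of_le_of_lt (by simp) hb.2)
      have a1 := hW ha.1
      have b1 := hW hb.1
      have c1 := hW hc
      simp only [mem_inter, mem_neighborFinset] at a1 b1 c1 hz hs hr
      refine hf (emb ?_ hy hz.2 a1.2 b1.2 c1.2 hz.1.symm hs.1 hr.1 hs.2.symm hr.2.symm a1.1 c1.1)
      have := hy.ne
      have := a1.1.ne
      have := a1.2.ne
      have := b1.1.ne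
      have := b1.2.ne
      have := c1.1.ne
      have := c1.2.ne
      simp only [List.mem_cons, List.not_mem_nil, List.nodup_cons, List.nodup_nil] at *
      grind
  have e := card_le_univ (Far G x ∪ insert x (insert y W))ᶜ
  have f := card_union_le (Far G x) (insert x (insert y W))
  have g := card_insert_le x (insert y W)
  have i := card_insert_le y W
  simp only [smul_eq_mul, sum_const, cW] at *
  omega

lemma far_symm {u v : V} (h : u ∈ Far G v) : v ∈ Far G u := by
  simp only [Far, mem_filter, mem_univ, true_and] at *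
  rwa [inter_comm]

def Cl (G : SimpleGraph V) [DecidableRel G.Adj] (u : V) : Finset V :=
  univ.filter fun v => ∃ t, v ∈ Far G t ∧ u ∈ Far G t

lemma miss (hd : ∀ v, 49 * Fintype.card V ≤ 100 * G.degree v) {u v : V} (h : v ∈ Cl G u) :
    100 * (G.neighborFinset u \ G.neighborFinset v).card ≤ 2 * Fintype.card V + 2400 ∧
      100 * G.degree v ≤ 51 * Fintype.card V + 2400 := by
  obtain ⟨t, h1, h2⟩ := (mem_filter.1 h).2
  have a := card_le_card (show G.neighborFinset u ∪ G.neighborFinset v ⊆ (G.neighborFinset t)ᶜ ∪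
    (G.neighborFinset u ∩ G.neighborFinset t ∪ G.neighborFinset v ∩ G.neighborFinset t) by
      grind [Finset.mem_compl])
  have b := card_union_le (G.neighborFinset t)ᶜ
    (G.neighborFinset u ∩ G.neighborFinset t ∪ G.neighborFinset v ∩ G.neighborFinset t)
  have c := card_union_le (G.neighborFinset u ∩ G.neighborFinset t)
    (G.neighborFinset v ∩ G.neighborFinset t)
  have d := card_sdiff_add_card (G.neighborFinset u) (G.neighborFinset v)
  have e := card_add_card_compl (G.neighborFinset t)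
  have := (mem_filter.1 h1).2
  have := (mem_filter.1 h2).2
  have := hd t
  have := hd v
  rw [card_neighborFinset_eq_degree] at d e
  omega

lemma rich (hd : ∀ v, 49 * Fintype.card V ≤ 100 * G.degree v) (hn : 10000 ≤ Fintype.card V) (u : V) :
    Rich G (Cl G u) := fun a ha b hb c hc => by
  have e := card_le_card (show G.neighborFinset u ⊆
    G.neighborFinset a ∩ G.neighborFinset b ∩ G.neighborFinset c ∪ (G.neighborFinset u \
      G.neighborFinset a ∪ (G.neighborFinset u \ G.neighborFinset b ∪ G.neighborFinset u \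
        G.neighborFinset c)) by grind)
  have := (e.trans (card_union_le _ _)).trans (Nat.add_le_add_left ((card_union_le _ _).trans
    (Nat.add_le_add_left (card_union_le _ _) _)) _)
  have := (miss hd ha).1
  have := (miss hd hb).1
  have := (miss hd hc).1
  have := hd u
  rw [card_neighborFinset_eq_degree] at *
  omega

lemma two (hf : H.Free G) (hd : ∀ v, 6 ≤ G.degree v) {A B : Finset V} (hA : Rich G A) (hB : Rich G B)
    (h5 : 5 ≤ B.card) (h : ∀ v, v ∈ A ↔ v ∉ B) {x y z t : V} (hx : x ∈ A) (hy : y ∈ A) (hz : z ∈ B)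
    (ht : t ∈ B) (h1 : G.Adj x y) (h2 : G.Adj z t) : ¬G.Adj x z := fun h3 => by
  have a := card_le_card (show G.neighborFinset t ⊆ insert z (G.neighborFinset t ∩ A) from
    fun v hv => by
      by_contra c
      simp only [mem_insert, mem_inter, hv, true_and, h, not_or, not_not] at c
      exact hf (p3 hB h5 ht c.2 hz (mem_neighborFinset _ _ _ |>.1 hv) h2.symm c.1))
  have b := card_insert_le z (G.neighborFinset t ∩ A)
  have := hd t
  rw [card_neighborFinset_eq_degree] at a
  obtain ⟨s, hs, s'⟩ := pick (G.neighborFinset t ∩ A) [x, y] (by simp; omega)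
  obtain ⟨r, hr, r'⟩ := pick (G.neighborFinset t ∩ A) [x, y, s] (by simp; omega)
  simp only [mem_inter, mem_neighborFinset] at hs hr
  refine hf (core hA hx hy hs.2 hr.2 ?_ h1 h3 h2 hs.1 hr.1)
  have := h1.ne
  have := h2.ne
  simp only [List.mem_cons, List.not_mem_nil, List.nodup_cons, List.nodup_nil] at *
  grind

theorem struct (hf : H.Free G) (hd : ∀ v, 49 * Fintype.card V ≤ 100 * G.degree v)
    (hn : 10000 ≤ Fintype.card V) : ∃ P : V → Bool,
    (∀ x y z, P x = P y → P x = P z → G.Adj x y → G.Adj x z → y = z) ∧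
    ∀ x y z t, P x = P y → P z = P t → P x ≠ P z → G.Adj x y → G.Adj z t → ¬G.Adj x z := by
  obtain ⟨u⟩ : Nonempty V := Fintype.card_pos_iff.1 (by omega)
  have fc := far_card hf hd hn
  obtain ⟨w, hw⟩ : (Far G u).Nonempty := card_pos.1 (by have := fc u; omega)
  have dj : ∀ v ∈ Cl G u, v ∉ Cl G w := fun v h1 h2 => by
    have a := card_le_card (show G.neighborFinset w ∪ G.neighborFinset u ⊆ G.neighborFinset v ∪
      (G.neighborFinset u \ G.neighborFinset v ∪ G.neighborFinset w \ G.neighborFinset v) by grind)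
    have := (a.trans (card_union_le _ _)).trans (Nat.add_le_add_left (card_union_le _ _) _)
    have := card_union_add_card_inter (G.neighborFinset w) (G.neighborFinset u)
    have := (mem_filter.1 hw).2
    have := miss hd h1
    have := miss hd h2
    have := hd u
    have := hd w
    simp only [card_neighborFinset_eq_degree] at *
    omega
  have h : ∀ v, v ∈ Cl G u ↔ v ∉ Cl G w := fun v => ⟨dj v, fun h => by
    by_contra c
    simp only [Cl, mem_filter, mem_univ, true_and, not_exists, not_and] at h c dj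
    have a := card_le_univ (Far G v ∪ (Far G u ∪ Far G w))
    rw [card_union_of_disjoint (disjoint_left.2 fun t h1 h2 => (mem_union.1 h2).elim
      (fun h2 => c t (far_symm h1) (far_symm h2)) fun h2 => h t (far_symm h1) (far_symm h2)),
      card_union_of_disjoint (disjoint_left.2 fun t h1 h2 =>
        dj u ⟨w, far_symm hw, far_symm hw⟩ t (far_symm h1) (far_symm h2))] at a
    have := fc v
    have := fc u
    have := fc w
    omega⟩
  have c1 : 5 ≤ (Cl G u).card := le_trans (by have := fc w; omega) (card_le_card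
    (show Far G w ⊆ _ from fun t ht => mem_filter.2 ⟨mem_univ _, w, ht, far_symm hw⟩))
  have c2 : 5 ≤ (Cl G w).card := le_trans (by have := fc u; omega) (card_le_card
    (show Far G u ⊆ _ from fun t ht => mem_filter.2 ⟨mem_univ _, u, ht, hw⟩))
  have d6 : ∀ v, 6 ≤ G.degree v := fun v => by have := hd v; omega
  refine ⟨fun v => decide (v ∈ Cl G u), fun x y z a b c d => ?_, fun x y z t a b c d e => ?_⟩ <;>
    simp only [decide_eq_decide, ne_eq] at * <;> by_cases hx : x ∈ Cl G u
  · exact by_contra fun e => hf (p3 (rich hd hn u) c1 hx (a.1 hx) (b.1 hx) c d e)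
  · exact by_contra fun e => hf (p3 (rich hd hn w) c2 (by grind) (by grind) (by grind) c d e)
  · exact two hf d6 (rich hd hn u) (rich hd hn w) c2 h hx (a.1 hx) (by grind) (by grind) d e
  · exact two hf d6 (rich hd hn w) (rich hd hn u) c1 (by grind) (by grind) (by grind) (by grind)
      (by grind) d e

omit [DecidableEq V] in
lemma ncard_eq (v : V) : (G.neighborSet v).ncard = G.degree v := by
  rw [← card_neighborFinset_eq_degree, neighborFinset_def, Set.ncard_eq_toFinset_card']

def T (m : ℕ) : SimpleGraph (Bool × Fin m × Bool) where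
  Adj x y := x.1 ≠ y.1 ∨ (x.1 = true ∧ y.1 = true ∧ x.2.1 = y.2.1 ∧ x.2.2 ≠ y.2.2)
  symm := ⟨by grind⟩
  loopless := ⟨by grind⟩

theorem lower (C : ℕ) : ∃ (V : Type) (_ : Fintype V) (G : SimpleGraph V), H.Free G ∧
    (∀ u v, u ≠ v → ¬G.Adj u v → H ⊑ G ⊔ edge u v) ∧
    (∀ v, Fintype.card V ≤ 2 * (G.neighborSet v).ncard) ∧ ∀ m ≤ C, ∀ (F : SimpleGraph (Fin m))
      (π : V → Fin m), ¬∀ u v, G.Adj u v ↔ F.Adj (π u) (π v) := by
  classical
  obtain ⟨G, hG, hm⟩ := Finite.exists_le_maximal (p := fun G => H.Free G) (a := T (C + 5))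
    (tmpl Prod.fst (by
      rintro ⟨a, i, b⟩ ⟨c, j, d⟩ ⟨e, k, f⟩
      cases b <;> cases d <;> cases f <;> simp only [T] <;> grind) (by simp only [T]; grind))
  have c : ∀ b : Bool, (univ.filter fun v : Bool × Fin (C + 5) × Bool => v.1 = b).card = (C + 5) * 2 :=
    fun b => by
      rw [show (univ.filter fun v : Bool × Fin (C + 5) × Bool => v.1 = b) = {b} ×ˢ univ by
        ext; simp only [mem_filter, mem_univ, mem_product, mem_singleton, true_and, and_true]]
      simp
  have s : ∀ v, (univ.filter fun w : Bool × Fin (C + 5) × Bool => w.1 = !v.1) ⊆ G.neighborFinset v :=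
    fun v w hw => (mem_neighborFinset _ _ _).2 (hG (Or.inl (by simp [(mem_filter.1 hw).2])))
  refine ⟨_, inferInstance, G, hm.1, fun u v h1 h2 => by_contra fun h => h2 (hm.2 h le_sup_left
    (Or.inr ((edge_adj _ _ _ _).2 ⟨Or.inl ⟨rfl, rfl⟩, h1⟩))), fun v => ?_, fun m hm' F π h => ?_⟩
  · have := card_le_card (s v)
    rw [c, card_neighborFinset_eq_degree] at this
    rw [ncard_eq]
    simp
    omega
  · obtain ⟨i, j, h1, h2⟩ := Fintype.exists_ne_map_eq_of_card_lt (fun i => π (true, i, true))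
      (by simp; omega)
    have a : G.Adj (true, i, false) (true, i, true) := hG (by simp [T])
    refine hm.1 (p3 (P := univ.filter fun v => v.1 = true) (fun x hx y hy z hz => ?_)
      (by rw [c]; omega) (by simp) (by simp) (z := (true, j, true)) (by simp) a
      ((h _ _).2 (h2 ▸ (h _ _).1 a)) (by simp [h1]))
    have sx := s x
    have sy := s y
    have sz := s z
    rw [(mem_filter.1 hx).2] at sx
    rw [(mem_filter.1 hy).2] at sy
    rw [(mem_filter.1 hz).2] at sz
    exact le_trans (by rw [c]; omega) (card_le_card (subset_inter (subset_inter sx sy) sz))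

end Pool.Agent.H4.Thresh
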