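import Pool.Agent.H4.ThueW

namespace Pool.Agent.H4.Thue

theorem a01 : chk1 (pack (A (win [0, 1])) 372) (gad (win [0, 1])) = true := by decide +kernel
theorem a02 : chk1 (pack (A (win [0, 2])) 372) (gad (win [0, 2])) = true := by decide +kernel
theorem a10 : chk1 (pack (A (win [1, 0])) 372) (gad (win [1, 0])) = true := by decide +kernel
theorem a12 : chk1 (pack (A (win [1, 2])) 372) (gad (win [1, 2])) = true := by decide +kernel
theorem a20 : chk1 (pack (A (win [2, 0])) 372) (gad (win [2, 0])) = true := by decide +kernel
theorem a21 : chk1 (pack (A (win [2, 1])) 372) (gad (win [2, 1])) = true := by decide +kernel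

theorem c1 (x y : Fin 3) (h : x ≠ y) : chk1 (pack (A (win [x, y])) 372) (gad (win [x, y])) = true := by
  have : ∀ l ∈ [[0, 1], [0, 2], [1, 0], [1, 2], [2, 0], [2, 1]],
      chk1 (pack (A (win l)) 372) (gad (win l)) = true := by
    simp only [List.forall_mem_cons]
    exact ⟨a01, a02, a10, a12, a20, a21, by simp⟩
  exact this _ (by revert x y; decide)

end Pool.Agent.H4.Thue
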