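import Pool.Agent.H4.ThueW

namespace Pool.Agent.H4.Thue

theorem b01020 : chk2 (pack (A (win [0, 1, 0, 2, 0])) 930) = true := by decide +kernel
theorem b01021 : chk2 (pack (A (win [0, 1, 0, 2, 1])) 930) = true := by decide +kernel
theorem b01201 : chk2 (pack (A (win [0, 1, 2, 0, 1])) 930) = true := by decide +kernel
theorem b01202 : chk2 (pack (A (win [0, 1, 2, 0, 2])) 930) = true := by decide +kernel
theorem b01210 : chk2 (pack (A (win [0, 1, 2, 1, 0])) 930) = true := by decide +kernel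
theorem b02010 : chk2 (pack (A (win [0, 2, 0, 1, 0])) 930) = true := by decide +kernel
theorem b02012 : chk2 (pack (A (win [0, 2, 0, 1, 2])) 930) = true := by decide +kernel
theorem b02101 : chk2 (pack (A (win [0, 2, 1, 0, 1])) 930) = true := by decide +kernel
theorem b02102 : chk2 (pack (A (win [0, 2, 1, 0, 2])) 930) = true := by decide +kernel
theorem b02120 : chk2 (pack (A (win [0, 2, 1, 2, 0])) 930) = true := by decide +kernel
theorem b10120 : chk2 (pack (A (win [1, 0, 1, 2, 0])) 930) = true := by decide +kernel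
theorem b10121 : chk2 (pack (A (win [1, 0, 1, 2, 1])) 930) = true := by decide +kernel
theorem b10201 : chk2 (pack (A (win [1, 0, 2, 0, 1])) 930) = true := by decide +kernel
theorem b10210 : chk2 (pack (A (win [1, 0, 2, 1, 0])) 930) = true := by decide +kernel
theorem b10212 : chk2 (pack (A (win [1, 0, 2, 1, 2])) 930) = true := by decide +kernel
theorem b12010 : chk2 (pack (A (win [1, 2, 0, 1, 0])) 930) = true := by decide +kernel
theorem b12012 : chk2 (pack (A (win [1, 2, 0, 1, 2])) 930) = true := by decide +kernel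
theorem b12021 : chk2 (pack (A (win [1, 2, 0, 2, 1])) 930) = true := by decide +kernel
theorem b12101 : chk2 (pack (A (win [1, 2, 1, 0, 1])) 930) = true := by decide +kernel
theorem b12102 : chk2 (pack (A (win [1, 2, 1, 0, 2])) 930) = true := by decide +kernel
theorem b20102 : chk2 (pack (A (win [2, 0, 1, 0, 2])) 930) = true := by decide +kernel
theorem b20120 : chk2 (pack (A (win [2, 0, 1, 2, 0])) 930) = true := by decide +kernel
theorem b20121 : chk2 (pack (A (win [2, 0, 1, 2, 1])) 930) = true := by decide +kernel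
theorem b20210 : chk2 (pack (A (win [2, 0, 2, 1, 0])) 930) = true := by decide +kernel
theorem b20212 : chk2 (pack (A (win [2, 0, 2, 1, 2])) 930) = true := by decide +kernel
theorem b21012 : chk2 (pack (A (win [2, 1, 0, 1, 2])) 930) = true := by decide +kernel
theorem b21020 : chk2 (pack (A (win [2, 1, 0, 2, 0])) 930) = true := by decide +kernel
theorem b21021 : chk2 (pack (A (win [2, 1, 0, 2, 1])) 930) = true := by decide +kernel
theorem b21201 : chk2 (pack (A (win [2, 1, 2, 0, 1])) 930) = true := by decide +kernel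
theorem b21202 : chk2 (pack (A (win [2, 1, 2, 0, 2])) 930) = true := by decide +kernel

theorem c2 (x y z u v : Fin 3) (h : x ≠ y ∧ y ≠ z ∧ z ≠ u ∧ u ≠ v ∧ (x ≠ z ∨ y ≠ u) ∧ (y ≠ u ∨ z ≠ v)) :
    chk2 (pack (A (win [x, y, z, u, v])) 930) = true := by
  have : ∀ l ∈ [[0, 1, 0, 2, 0], [0, 1, 0, 2, 1], [0, 1, 2, 0, 1], [0, 1, 2, 0, 2], [0, 1, 2, 1, 0],
      [0, 2, 0, 1, 0], [0, 2, 0, 1, 2], [0, 2, 1, 0, 1], [0, 2, 1, 0, 2], [0, 2, 1, 2, 0],
      [1, 0, 1, 2, 0], [1, 0, 1, 2, 1], [1, 0, 2, 0, 1], [1, 0, 2, 1, 0], [1, 0, 2, 1, 2],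
      [1, 2, 0, 1, 0], [1, 2, 0, 1, 2], [1, 2, 0, 2, 1], [1, 2, 1, 0, 1], [1, 2, 1, 0, 2],
      [2, 0, 1, 0, 2], [2, 0, 1, 2, 0], [2, 0, 1, 2, 1], [2, 0, 2, 1, 0], [2, 0, 2, 1, 2],
      [2, 1, 0, 1, 2], [2, 1, 0, 2, 0], [2, 1, 0, 2, 1], [2, 1, 2, 0, 1], [2, 1, 2, 0, 2]],
      chk2 (pack (A (win l)) 930) = true := by
    simp only [List.forall_mem_cons]
    exact ⟨b01020, b01021, b01201, b01202, b01210, b02010, b02012, b02101, b02102, b02120,
      b10120, b10121, b10201, b10210, b10212, b12010, b12012, b12021, b12101, b12102,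
      b20102, b20120, b20121, b20210, b20212, b21012, b21020, b21021, b21201, b21202, by simp⟩
  exact this _ (by revert x y z u v; decide)

end Pool.Agent.H4.Thue
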