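import Pool.Agent.H4.ThueC1
import Pool.Agent.H4.ThueC2

namespace Pool.Agent.H4.Thue

def SqF (t : ℕ → Fin 3) (M : ℕ) : Prop := ∀ i n, 0 < n → n ≤ M → ¬∀ k < n, t (i + k) = t (i + k + n)

lemma flip_inj (b : ℕ) : (flip b).Injective := by
  unfold flip; split_ifs <;> decide

lemma flip_add (b c : ℕ) (x : Fin 3) : flip (b + c) x = flip b (flip c x) := by
  unfold flip
  split_ifs <;> first | omega | simp

lemma A_shift (t : ℕ → Fin 3) (b n : ℕ) : A t (186 * b + n) = flip b (A (fun k => t (b + k)) n) := by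
  have h1 : (186 * b + n) / 186 = b + n / 186 := by omega
  have h2 : (186 * b + n) % 186 = n % 186 := by omega
  simp only [A, h1, h2, flip_add]

lemma gad_shift (t : ℕ → Fin 3) (b n : ℕ) : gad t (186 * b + n) = gad (fun k => t (b + k)) n := by
  have h1 : (186 * b + n) / 186 = b + n / 186 := by omega
  have h2 : (186 * b + n) % 186 = n % 186 := by omega
  simp only [gad, h1, h2]

lemma A_congr {t u : ℕ → Fin 3} {B n : ℕ} (h : ∀ k < B, t k = u k) (hn : n < 186 * B) : A t n = A u n := by
  simp only [A, h (n / 186) (by omega)]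

lemma gad_congr {t u : ℕ → Fin 3} {B n : ℕ} (h : ∀ k < B, t k = u k) (hn : n < 186 * B) :
    gad t n = gad u n := by
  simp only [gad, h (n / 186) (by omega)]

lemma near {b : ℕ → Fin 3} {S : ℕ → Bool} {i d j e n : ℕ} (hd : d < 6) (he : e < 6) (ha : Adm S i d j e n)
    (h : ∀ k < n, word b i d j k = word b i d j (k + n)) (k : ℕ) (hk : k < n - 10) :
    b (i + k) = b (i + k + n) := by
  obtain ⟨h1, -, -, -, h5⟩ := ha
  have := h (d + k) (by omega)
  simp only [word, pos] at this
  rw [if_neg (by omega), if_pos (by omega), if_neg (by omega), if_pos (by omega)] at this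
  simp only [ext, true_or, if_true] at this
  convert this using 2 <;> omega

def pal (f : ℕ → Fin 3) (k : ℕ) : Bool := f k == f (k + 2)

lemma pal_eq {f g : ℕ → Fin 3} {τ : Fin 3 → Fin 3} (hτ : τ.Injective) {k l : ℕ} (h0 : f k = τ (g l))
    (h2 : f (k + 2) = τ (g (l + 2))) : pal f k = pal g l := by
  simp only [pal, h0, h2]
  by_cases h : g l = g (l + 2)
  · simp [h]
  · simp [h, hτ.ne h]

theorem sync (z x y : Fin 3) (h : x ≠ y) : allB (fun o => o == 0 ||
    !allB (fun k => pal (A (win [z])) k == pal (A (win [x, y])) (o + k)) 162) 186 = true := by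
  revert z x y; decide +kernel

theorem D1 (x y : Fin 3) (h : x ≠ y) :
    allB (fun k => pal (fd (G x)) k == pal (fd (G y)) k) 174 = false := by
  revert x y; decide +kernel

theorem D2 (x y z : Fin 3) (h : x ≠ y) (h' : y ≠ z) : allB (fun r =>
    !(allB (fun k => pal (fd (G x)) (r + k) == pal (fd (G y)) (r + k)) (184 - r) &&
      allB (fun k => pal (fd (G y)) k == pal (fd (G z)) k) (r - 12))) 186 = true := by
  revert x y z; decide +kernel

lemma pal_block (t : ℕ → Fin 3) (b : ℕ) {r : ℕ} (hr : r < 184) :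
    pal (A t) (186 * b + r) = pal (fd (G (t b))) r := by
  have e : ∀ r < 186, A t (186 * b + r) = flip b (fd (G (t b)) r) := by
    intro r hr
    have h1 : (186 * b + r) / 186 = b := by omega
    have h2 : (186 * b + r) % 186 = r := by omega
    simp only [A, h1, h2]
  exact pal_eq (flip_inj b) (e r (by omega)) (by rw [add_assoc]; exact e _ (by omega))

lemma SqF.ne {t : ℕ → Fin 3} {M : ℕ} (ht : SqF t M) (hM : 2 ≤ M) (i : ℕ) : t i ≠ t (i + 1) := by
  intro h
  exact ht i 1 (by omega) (by omega) (by intro k hk; obtain rfl : k = 0 := by omega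
                                         simpa using h)

lemma SqF.ne2 {t : ℕ → Fin 3} {M : ℕ} (ht : SqF t M) (hM : 2 ≤ M) (i : ℕ) :
    t i ≠ t (i + 2) ∨ t (i + 1) ≠ t (i + 3) := by
  by_contra h
  push Not at h
  refine ht i 2 (by omega) hM ?_
  intro k hk
  interval_cases k
  · simpa using h.1
  · simpa using h.2

lemma long {t : ℕ → Fin 3} {M : ℕ} (ht : SqF t M) (hM : 2 ≤ M) {i n : ℕ} (hi : i < 186) (hn : 360 ≤ n)
    (hn' : n < 186 * (M + 1)) (h : ∀ k < n - 10, A t (i + k) = A t (i + k + n)) : False := by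
  have hp : ∀ m, i ≤ m → m + 12 < i + n → pal (A t) m = pal (A t) (m + n) := by
    intro m h1 h2
    obtain ⟨k, rfl⟩ := Nat.exists_eq_add_of_le h1
    refine pal_eq Function.injective_id (h k (by omega)) ?_
    have := h (k + 2) (by omega)
    rw [show i + k + n + 2 = i + (k + 2) + n by omega]
    exact this
  have h0 : n % 186 = 0 := by
    by_contra h0
    set c := n / 186 + 1
    have := allB_iff.1 (sync (t 1) (t c) (t (c + 1)) (ht.ne hM c)) (n % 186) (by omega)
    simp only [Bool.or_eq_true, beq_iff_eq, h0, false_or, Bool.not_eq_true', ← Bool.not_eq_true,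
      allB_iff] at this
    refine this fun k hk => ?_
    have e1 : ∀ k < 186, A t (186 + k) = flip 1 (A (win [t 1]) k) := fun k hk => by
      rw [← A_congr (B := 1) (t := fun k => t (1 + k)) (u := win [t 1]) (by simp [win]) hk, ← A_shift]
    have e2 : ∀ k < 372, A t (186 * c + k) = flip c (A (win [t c, t (c + 1)]) k) := fun k hk => by
      rw [← A_congr (B := 2) (t := fun k => t (c + k)) (u := win [t c, t (c + 1)])
        (by intro k hk; interval_cases k <;> rfl) hk, ← A_shift]
    rw [← pal_eq (flip_inj 1) (e1 k (by omega)) (by rw [add_assoc]; exact e1 _ (by omega)),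
      ← pal_eq (flip_inj c) (e2 (n % 186 + k) (by omega)) (by rw [add_assoc]; exact e2 _ (by omega)),
      hp _ (by omega) (by omega)]
    congr 1; omega
  obtain ⟨p, rfl⟩ : ∃ p, n = 186 * p := ⟨n / 186, by omega⟩
  have hq : ∀ b r, r < 184 → i ≤ 186 * b + r → 186 * b + r + 12 < i + 186 * p →
      pal (fd (G (t b))) r = pal (fd (G (t (b + p)))) r := by
    intro b r hr h1 h2
    rw [← pal_block t b hr, ← pal_block t _ hr, hp _ h1 h2]
    congr 1; omega
  have hmid : ∀ b, 0 < b → b < p → t b = t (b + p) := by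
    intro b h1 h2
    by_contra hne
    have := D1 _ _ hne
    simp only [← Bool.not_eq_true, allB_iff, beq_iff_eq] at this
    exact this fun k hk => hq b k (by omega) (by omega) (by omega)
  have : t 0 = t (0 + p) ∨ t p = t (p + p) := by
    by_contra hne
    push Not at hne
    have := allB_iff.1 (D2 _ _ _ hne.1 (by simpa using hne.2)) i hi
    simp only [Bool.not_eq_true', ← Bool.not_eq_true, allB_iff, beq_iff_eq, Bool.and_eq_true] at this
    exact this ⟨fun k hk => hq 0 _ (by omega) (by omega) (by omega),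
      fun k hk => by simpa using hq p k (by omega) (by omega) (by omega)⟩
  rcases this with h1 | h1
  · refine ht 0 p (by omega) (by omega) fun k hk => ?_
    rcases Nat.eq_zero_or_pos k with rfl | h2
    · exact h1
    · simpa using hmid k h2 hk
  · refine ht 1 p (by omega) (by omega) fun k hk => ?_
    rcases (show 1 + k < p ∨ 1 + k = p by omega) with h2 | h2
    · exact hmid _ (by omega) h2
    · rw [h2]; exact h1

lemma mid {t : ℕ → Fin 3} {M : ℕ} (ht : SqF t M) (hM : 2 ≤ M) {i n : ℕ} (hi : i < 186) (hn : 64 ≤ n)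
    (hn' : n < 360) (h : ∀ k < n - 10, A t (i + k) = A t (i + k + n)) : False := by
  have := c2 (t 0) (t 1) (t 2) (t 3) (t 4)
    ⟨ht.ne hM 0, ht.ne hM 1, ht.ne hM 2, ht.ne hM 3, ht.ne2 hM 0, ht.ne2 hM 1⟩
  obtain ⟨n, rfl⟩ := Nat.exists_eq_add_of_le' hn
  have := allB_iff.1 (allB_iff.1 this n (by omega)) i hi
  set w := pack (A (win [t 0, t 1, t 2, t 3, t 4])) 930
  have hw : ∀ k < 930, dig w k = A t k := fun k hk => by
    rw [dig_pack _ hk, A_congr (B := 5) (t := t) (u := win [t 0, t 1, t 2, t 3, t 4])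
      (by intro k hk; interval_cases k <;> rfl) hk]
  simp only [bne_iff_ne, ne_eq] at this
  refine this (Nat.eq_of_testBit_eq fun s => ?_)
  simp only [Nat.testBit_mod_two_pow, Nat.testBit_shiftRight, Nat.testBit_xor, Nat.zero_testBit,
    Bool.and_eq_false_imp, decide_eq_true_eq]
  intro hs
  have e : ∀ k, ∀ u < 2, w.testBit (2 * k + u) = (dig w k).testBit u := by
    intro k u hu
    rw [dig, show 4 = 2 ^ 2 from rfl, Nat.testBit_mod_two_pow, Nat.testBit_shiftRight]
    simp [hu]
  rw [show 2 * i + s = 2 * (i + s / 2) + s % 2 by omega,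
    show 2 * (n + 64) + (2 * (i + s / 2) + s % 2) = 2 * (i + s / 2 + (n + 64)) + s % 2 by omega,
    e _ _ (by omega), e _ _ (by omega), hw _ (by omega), hw _ (by omega), h _ (by omega)]
  simp

lemma short {t : ℕ → Fin 3} (ht : t 0 ≠ t 1) {i d j e n : ℕ} (hi : i < 186) (hn : n < 64) (hd : d < 6)
    (he : e < 6) (ha : Adm (gad t) i d j e n)
    (h : ∀ k < n, word (A t) i d j k = word (A t) i d j (k + n)) : False := by
  have := allB_iff.1 (allB_iff.1 (c1 _ _ ht) i hi) n hn
  set w := pack (A (win [t 0, t 1])) 372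
  have ht' : ∀ k < 2, t k = win [t 0, t 1] k := by intro k hk; interval_cases k <;> simp [win]
  have hw : ∀ k < 372, dig w k = A t k := fun k hk => by
    rw [dig_pack _ hk, A_congr (B := 2) ht' hk]
  have hw' : ∀ k < 372, fd w k = A t k := fun k hk => by
    rw [fd_pack _ hk, A_congr (B := 2) ht' hk]
  have hn := near hd he ha h
  obtain ⟨h1, h2, h3, h4, h5⟩ := ha
  obtain rfl : j = i + 2 * n - 1 - d - e := by omega
  rw [gad_congr (B := 2) ht' (by omega)] at h2 h3
  simp only [Bool.or_eq_true, Bool.not_eq_true', ← Bool.not_eq_true, allB_iff, beq_iff_eq,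
    Bool.and_eq_true, bne_iff_ne, decide_eq_true_eq, sqB] at this
  rcases this with H | H
  · exact H fun k hk => by rw [hw _ (by omega), hw _ (by omega), hn k hk]
  · rcases H d hd with H | H
    · tauto
    rcases H e he with H | H
    · tauto
    refine H ⟨⟨h1, h2, h3, h4, h5⟩, fun k hk => ?_⟩
    rw [word_congr h1 fun k hk => hw' k (by omega), word_congr h1 fun k hk => hw' k (by omega), h k hk]

theorem main {t : ℕ → Fin 3} {M : ℕ} (ht : SqF t M) (hM : 2 ≤ M) (L : ℕ) :
    NoSq (A t) (gad t) L (186 * M) := by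
  intro i d j e n _ hn hd he ha h
  obtain ⟨b, i, hi, rfl⟩ : ∃ b r, r < 186 ∧ i = 186 * b + r := ⟨i / 186, i % 186, by omega, by omega⟩
  obtain ⟨j, rfl⟩ : ∃ r, j = 186 * b + r := ⟨j - 186 * b, by have := ha.1; omega⟩
  set u := fun k => t (b + k)
  have hu : SqF u M := fun i n h1 h2 h3 => ht (b + i) n h1 h2 fun k hk => by
    simpa [u, add_assoc] using h3 k hk
  have ha' : Adm (gad u) i d j e n := by
    simp only [Adm, gad_shift] at ha ⊢
    obtain ⟨h1, h2, h3, h4, h5⟩ := ha
    exact ⟨by omega, h2, h3, by omega, by omega⟩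
  have h' : ∀ k < n, word (A u) i d j k = word (A u) i d j (k + n) := fun k hk => flip_inj b <| by
    rw [← word_shift _ (flip_inj b) (A_shift t b), ← word_shift _ (flip_inj b) (A_shift t b), h k hk]
  rcases lt_or_ge n 64 with h1 | h1
  · exact short (hu.ne hM 0) hi h1 hd he ha' h'
  rcases lt_or_ge n 360 with h2 | h2
  · exact mid hu hM hi h1 h2 (near hd he ha' h')
  · exact long hu hM hi h2 (by omega) (near hd he ha' h')

lemma NoSq.sqF {b : ℕ → Fin 3} {S : ℕ → Bool} {L N i n : ℕ} (h : NoSq b S L N) (h0 : 0 < n) (hn : n ≤ N)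
    (hL : i + 2 * n ≤ L) : ¬∀ k < n, b (i + k) = b (i + k + n) := fun H =>
  h i 0 (i + 2 * n - 1) 0 n (by omega) hn (by omega) (by omega)
    ⟨by omega, .inl rfl, .inl rfl, by omega, by omega⟩ fun k hk => by
    simp only [word, pos]
    rw [if_neg (by omega), if_pos (by omega), if_neg (by omega), if_pos (by omega)]
    simpa [ext, add_assoc] using H k hk

theorem iter (M : ℕ) : ∃ t Q, 0 < Q ∧ SqF t (M + 2) ∧ ∀ k, t (k + Q) = t k := by
  induction M with
  | zero =>
    refine ⟨fun k => Fin.ofNat 3 k, 3, by omega, fun i n h0 hn h => ?_, fun k => Fin.ext (by simp)⟩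
    have := congrArg Fin.val (h 0 h0)
    simp at this
    omega
  | succ M ih =>
    obtain ⟨t, Q, hQ, ht, hp⟩ := ih
    refine ⟨A t, 186 * (Q + Q), by omega, fun i n h0 hn =>
      (main ht (by omega) (i + 2 * n)).sqF h0 (by omega) le_rfl, fun k => ?_⟩
    rw [add_comm, A_shift]
    simp only [← add_assoc, add_comm (Q + Q), hp, flip]
    rw [if_pos (by omega)]

end Pool.Agent.H4.Thue
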