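import Pool.Agent.H4.ThueM

namespace Pool.Agent.H4.Thue

def bad (w : ℕ) (S : ℕ → Bool) (j : ℕ) : Bool :=
  !allB (fun i => allB (fun d => allB (fun e => !(decide (Adm S i d j e ((d + (j - i) + 1 + e) / 2)) &&
    sqB (fd w) i d j ((d + (j - i) + 1 + e) / 2))) (if S j then 6 else 1)) (if S i then 6 else 1)) (j + 1)

def go (S : ℕ → Bool) (ok : ℕ → Bool) : ℕ → ℕ → ℕ → Bool
  | 0, _, w => ok w
  | f + 1, l, w => allB (fun c => bad (w + c * 4 ^ (l + 1)) S l || go S ok f (l + 1) (w + c * 4 ^ (l + 1))) 3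

lemma go_sound {S ok : ℕ → Bool} {b : ℕ → Fin 3} {L : ℕ} (hb : NoSq b S L 30) (f l : ℕ) (hl : l + f ≤ L)
    (hL : L ≤ 40) (h : go S ok f l (pack b (l + 1))) : ok (pack b (l + f + 1)) := by
  induction f generalizing l with
  | zero => exact h
  | succ f ih =>
    have := allB_iff.1 h (b (l + 1)) (b (l + 1)).2
    rw [Bool.or_eq_true] at this
    rcases this with H | H
    · exfalso
      simp only [bad, Bool.not_eq_true', ← Bool.not_eq_true, allB_iff, Bool.and_eq_true,
        decide_eq_true_eq, sqB, beq_iff_eq] at H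
      refine H fun i hi d hd e he H => ?_
      have hd : d < 6 := by split_ifs at hd <;> omega
      have he : e < 6 := by split_ifs at he <;> omega
      refine hb i d l e _ (by omega) (by omega) hd he H.1 fun k hk => ?_
      have hw : ∀ k ≤ l + 1, b k = fd (pack b (l + 2)) k := fun k hk => (fd_pack b (by omega)).symm
      rw [word_congr H.1.1 hw, word_congr H.1.1 hw]
      exact H.2 k hk
    · rw [show l + (f + 1) + 1 = l + 1 + f + 1 by omega]
      exact ih (l + 1) (by omega) H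

def cd (r : ℕ) : Bool := r == 0 || r == 3 || r == 5 || r == 8 || r == 10

theorem g13 (x : Fin 3) : go (fun k => k == 1 || k == 14)
    (fun w => allB (fun r => pal (fd w) r == cd r) 13) 16 0 x := by
  revert x; decide +kernel

theorem g8 (x : Fin 3) : go (fun k => k == 1 || k == 14 || k == 22 || k == 35)
    (fun w => allB (fun r => pal (fd w) (13 + r) == cd r) 8) 37 0 x := by
  revert x; decide +kernel

lemma NoSq.shift {b : ℕ → Fin 3} {S S' : ℕ → Bool} {L N : ℕ} (h : NoSq b S L N) (o : ℕ) {L' : ℕ}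
    (hL : o + L' ≤ L) (hS : ∀ k, S' k → S (o + k)) : NoSq (fun k => b (o + k)) S' L' N := by
  intro i d j e n hj hn hd he ⟨h1, h2, h3, h4, h5⟩ H
  refine h (o + i) d (o + j) e n (by omega) hn hd he
    ⟨by omega, h2.imp_right (hS _), h3.imp_right (hS _), by omega, by omega⟩ fun k hk => ?_
  rw [word_shift b Function.injective_id fun _ => rfl, word_shift b Function.injective_id fun _ => rfl]
  exact H k hk

lemma R13 {b : ℕ → Fin 3} {S : ℕ → Bool} {L o : ℕ} (h : NoSq b S L 30) (hL : o + 16 ≤ L) (h1 : S (o + 1))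
    (h2 : S (o + 14)) {r : ℕ} (hr : r < 13) : pal b (o + r) = cd r := by
  have := go_sound (h.shift o hL (S' := fun k => k == 1 || k == 14) (by
    simp only [Bool.or_eq_true, beq_iff_eq]; rintro k (rfl | rfl) <;> assumption)) 16 0 (by omega)
    (by omega) (by simpa [pack] using g13 (b o))
  rw [← beq_iff_eq.1 (allB_iff.1 this r hr)]
  exact pal_eq Function.injective_id (fd_pack (fun k => b (o + k)) (by omega)).symm
    (fd_pack (fun k => b (o + k)) (k := r + 2) (by omega)).symm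

lemma R8 {b : ℕ → Fin 3} {S : ℕ → Bool} {L o : ℕ} (h : NoSq b S L 30) (hL : o + 37 ≤ L) (h1 : S (o + 1))
    (h2 : S (o + 14)) (h3 : S (o + 22)) (h4 : S (o + 35)) {r : ℕ} (hr : r < 8) :
    pal b (o + (13 + r)) = cd r := by
  have := go_sound (h.shift o hL (S' := fun k => k == 1 || k == 14 || k == 22 || k == 35) (by
    simp only [Bool.or_eq_true, beq_iff_eq]; rintro k (((rfl | rfl) | rfl) | rfl) <;> assumption)) 37 0
    (by omega) (by omega) (by simpa [pack] using g8 (b o))
  rw [← beq_iff_eq.1 (allB_iff.1 this r hr)]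
  exact pal_eq Function.injective_id (fd_pack (fun k => b (o + k)) (by omega)).symm
    (fd_pack (fun k => b (o + k)) (k := 13 + r + 2) (by omega)).symm

def Gap (S : ℕ → Bool) (n : ℕ) : Prop := (∃ r < 13, S (n - r + 1) ∧ S (n - r + 14)) ∨
  ∃ r < 8, S (n - (13 + r) + 1) ∧ S (n - (13 + r) + 14) ∧ S (n - (13 + r) + 22) ∧ S (n - (13 + r) + 35)

instance (S : ℕ → Bool) (n : ℕ) : Decidable (Gap S n) := by unfold Gap; infer_instance

theorem gap3 (x y z : Fin 3) : allB (fun n => decide (Gap (gad (win [x, y, z])) (186 + n))) 186 := by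
  revert x y z; decide +kernel

lemma gap (t : ℕ → Fin 3) {n : ℕ} (hn : 186 ≤ n) : Gap (gad t) n := by
  obtain ⟨b, r, hr, rfl⟩ : ∃ b r, r < 186 ∧ n = 186 * b + (186 + r) :=
    ⟨n / 186 - 1, n % 186, by omega, by omega⟩
  have := allB_iff.1 (gap3 (t b) (t (b + 1)) (t (b + 2))) r hr
  have e : ∀ u v, u ≤ 186 → v ≤ 35 → gad (win [t b, t (b + 1), t (b + 2)]) (186 + r - u + v) =
      gad t (186 * b + (186 + r) - u + v) := by
    intro u v hu hv
    rw [show 186 * b + (186 + r) - u + v = 186 * b + (186 + r - u + v) by omega, gad_shift]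
    exact gad_congr (B := 3) (by intro k hk; interval_cases k <;> rfl) (by omega)
  rcases of_decide_eq_true this with ⟨s, hs, h⟩ | ⟨s, hs, h⟩
  · exact .inl ⟨s, hs, by simpa (disch := omega) only [e] using h⟩
  · exact .inr ⟨s, hs, by simpa (disch := omega) only [e] using h⟩

lemma pal_per {b : ℕ → Fin 3} {S : ℕ → Bool} {L Q n : ℕ} (h : NoSq b S L 30) (hS : ∀ k, S (k + Q) = S k)
    (hg : Gap S n) (hn : 20 ≤ n) (hL : n + Q + 37 ≤ L) : pal b (n + Q) = pal b n := by
  have e : ∀ u v, u ≤ 20 → S (n + Q - u + v) = S (n - u + v) := fun u v hu => by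
    rw [← hS (n - u + v)]; congr 1; omega
  rcases hg with ⟨r, hr, h1, h2⟩ | ⟨r, hr, h1, h2, h3, h4⟩
  · have a := R13 h (o := n - r) (by omega) h1 h2 hr
    have a' := R13 h (o := n + Q - r) (by omega) (by rwa [e _ _ (by omega)]) (by rwa [e _ _ (by omega)]) hr
    rw [Nat.sub_add_cancel (by omega)] at a a'
    rw [a, a']
  · have a := R8 h (o := n - (13 + r)) (by omega) h1 h2 h3 h4 hr
    have a' := R8 h (o := n + Q - (13 + r)) (by omega) (by rwa [e _ _ (by omega)])
      (by rwa [e _ _ (by omega)]) (by rwa [e _ _ (by omega)]) (by rwa [e _ _ (by omega)]) hr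
    rw [Nat.sub_add_cancel (by omega)] at a a'
    rw [a, a']

lemma per {b : ℕ → Fin 3} {a Q M : ℕ} (hb : ∀ n ≤ a + Q + M, b n ≠ b (n + 1))
    (h : ∀ k < M, pal b (a + k + Q) = pal b (a + k)) :
    ∃ τ : Fin 3 → Fin 3, τ.Injective ∧ ∀ k ≤ M, b (a + k + Q) = τ (b (a + k)) := by
  have e1 : ∀ x y u v : Fin 3, x ≠ y → u ≠ v → ∃ τ : Fin 3 → Fin 3, τ.Injective ∧ u = τ x ∧ v = τ y := by
    decide
  have e2 : ∀ τ : Fin 3 → Fin 3, τ.Injective → ∀ x y z u : Fin 3, x ≠ y → y ≠ z → τ y ≠ u →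
      (τ x == u) = (x == z) → u = τ z := by decide
  obtain ⟨τ, hτ, h1, h2⟩ := e1 _ _ _ _ (hb a (by omega)) (hb (a + Q) (by omega))
  refine ⟨τ, hτ, fun k hk => ?_⟩
  suffices b (a + k + Q) = τ (b (a + k)) ∧ (k < M → b (a + k + Q + 1) = τ (b (a + k + 1))) from this.1
  induction k with
  | zero => exact ⟨h1, fun _ => h2⟩
  | succ k ih =>
    obtain ⟨i1, i2⟩ := ih (by omega)
    have i2 := i2 (by omega)
    refine ⟨by rw [← add_assoc, add_right_comm]; exact i2, fun hk' => ?_⟩
    have := h k (by omega)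
    simp only [pal, i1] at this
    rw [show a + (k + 1) + Q + 1 = a + k + Q + 2 by omega]
    exact e2 τ hτ _ _ _ _ (hb _ (by omega)) (hb (a + k + 1) (by omega))
      (i2 ▸ hb (a + k + Q + 1) (by omega)) this

theorem rigid {t : ℕ → Fin 3} {Q : ℕ} (hQ : 0 < Q) (hp : ∀ k, t (k + Q) = t k) (b : ℕ → Fin 3) :
    ¬∀ N, NoSq b (gad t) (186 * (12 * Q + 2)) N := by
  intro h
  have hS : ∀ k, gad t (k + 186 * Q) = gad t k := fun k => by
    rw [add_comm, gad_shift]; simp only [add_comm Q, hp]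
  obtain ⟨τ, hτ, H⟩ := per (b := b) (a := 186) (Q := 186 * Q) (M := 11 * (186 * Q))
    (fun n hn e => (h 1).sqF (i := n) (n := 1) (by omega) le_rfl (by omega) (by simpa using e))
    fun k hk => pal_per (h 30) hS (gap t (by omega)) (by omega) (by omega)
  have e : ∀ τ : Fin 3 → Fin 3, τ.Injective → ∀ x, τ (τ (τ (τ (τ (τ x))))) = x := by decide
  refine (h _).sqF (i := 186) (n := 6 * (186 * Q)) (by omega) le_rfl (by omega) fun k hk => ?_
  have H' : ∀ s < 6, b (186 + k + (s + 1) * (186 * Q)) = τ (b (186 + k + s * (186 * Q))) := by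
    intro s hs
    have := H (k + s * (186 * Q)) (by nlinarith)
    rwa [← add_assoc, add_assoc _ _ (186 * Q), ← add_one_mul] at this
  rw [H' 5 (by omega), H' 4 (by omega), H' 3 (by omega), H' 2 (by omega), H' 1 (by omega), H' 0 (by omega), e τ hτ]
  simp

end Pool.Agent.H4.Thue
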