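import Mathlib

namespace Pool.Agent.H4.Thue

open SimpleGraph

variable {V W C : Type}

/-- no repetition of half-length at most `N` along a path (functional form) -/
def NR (G : SimpleGraph V) (c : V → C) (N : ℕ) : Prop := ∀ n, 0 < n → n ≤ N → ∀ x : ℕ → V,
  (∀ k, k + 1 < 2 * n → G.Adj (x k) (x (k + 1))) → (∀ k < 2 * n, ∀ l < 2 * n, x k = x l → k = l) →
  ¬∀ k < n, c (x k) = c (x (k + n))

def WNR (G : SimpleGraph V) (c : V → C) : Prop := ∀ (u v : V) (p : G.Walk u v), p.IsPath →
  ∀ n : ℕ, 0 < n → p.support.length = 2 * n → (p.support.map c).take n ≠ (p.support.map c).drop n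

lemma exists_walk {G : SimpleGraph V} (x : ℕ → V) (m : ℕ) (h : ∀ k < m, G.Adj (x k) (x (k + 1))) :
    ∃ p : G.Walk (x 0) (x m), p.support = (List.range (m + 1)).map x := by
  induction m with
  | zero => exact ⟨.nil, by simp⟩
  | succ m ih =>
    obtain ⟨p, hp⟩ := ih fun k hk => h k (by omega)
    exact ⟨p.concat (h m (by omega)), by rw [Walk.support_concat, hp, List.range_succ (n := m + 1)]; simp⟩

lemma wnr_iff {G : SimpleGraph V} {c : V → C} : WNR G c ↔ ∀ N, NR G c N := by
  refine ⟨fun h N n h0 _ x ha hi H => ?_, fun h u v p hp n h0 hl H => ?_⟩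
  · obtain ⟨p, hp⟩ := exists_walk (G := G) x (2 * n - 1) fun k hk => ha k (by omega)
    rw [Nat.sub_add_cancel (by omega)] at hp
    refine h _ _ p ?_ n h0 (by simp [hp]) ?_
    · rw [Walk.isPath_def, hp]
      exact List.nodup_range.map_on fun k hk l hl => hi k (by simpa using hk) l (by simpa using hl)
    · refine List.ext_getElem (by simp [hp]; omega) fun k h1 h2 => ?_
      simp only [hp, List.length_take, List.length_map, List.length_range] at h1
      simp [hp, H k (by omega), add_comm]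
  · have hl' := p.length_support
    refine h n n h0 le_rfl p.getVert (fun k hk => p.adj_getVert_succ (by omega))
      (fun k hk l hl e => hp.getVert_injOn (by simp; omega) (by simp; omega) e) fun k hk => ?_
    have := congrArg (·[k]?) H
    simp only [List.getElem?_take, hk, if_true, List.getElem?_drop, List.getElem?_map,
      ← p.getVert_eq_support_getElem? (show k ≤ p.length by omega),
      ← p.getVert_eq_support_getElem? (show n + k ≤ p.length by omega)] at this
    simpa [add_comm] using this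

lemma NR.comap {G : SimpleGraph V} {H : SimpleGraph W} (f : G →g H) (hf : Function.Injective f) {c : W → C}
    {N : ℕ} (h : NR H c N) : NR G (c ∘ f) N := fun n h0 hn x ha hi =>
  h n h0 hn (f ∘ x) (fun k hk => f.map_adj (ha k hk)) fun k hk l hl e => hi k hk l hl (hf e)

lemma four {m : ℕ} {G : SimpleGraph (Fin m)} (hG : G.Connected) (hm : 2 ≤ m)
    (h : ∀ H : G.Subgraph, H.Connected → H ≠ ⊤ → ∃ c : H.verts → Fin 3, WNR H.coe c) :
    ∃ c : Fin m → Fin 4, WNR G c := by
  haveI : Nontrivial (Fin m) := Fin.nontrivial_iff_two_le.2 hm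
  obtain ⟨v, hv⟩ := hG.exists_connected_induce_compl_singleton_of_finite_nontrivial
  obtain ⟨u, hu⟩ := exists_ne v
  obtain ⟨c, hc⟩ := h ((⊤ : G.Subgraph).induce {v}ᶜ) (connected_induce_iff.1 hv) fun e => by
    have : v ∈ ((⊤ : G.Subgraph).induce {v}ᶜ).verts := by rw [e]; trivial
    simp at this
  refine ⟨fun w => if h : w = v then 3 else (c ⟨w, h⟩).castSucc, wnr_iff.2 fun N n h0 hn x ha hi H => ?_⟩
  have e : ∀ y : Fin 3, y.castSucc ≠ 3 := by decide
  have hx : ∀ k < n, x k ≠ v ∧ x (k + n) ≠ v := by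
    intro k hk
    have := H k hk
    have h' := hi k (by omega) (k + n) (by omega)
    by_cases h1 : x k = v <;> by_cases h2 : x (k + n) = v
    · have := h' (h1.trans h2.symm); omega
    · simp [h1, h2, (e _).symm] at this
    · simp [h1, h2, e] at this
    · exact ⟨h1, h2⟩
  have hx' : ∀ k < 2 * n, x k ≠ v := by
    intro k hk
    rcases lt_or_ge k n with h1 | h1
    · exact (hx k h1).1
    · simpa [h1] using (hx (k - n) (by omega)).2
  refine wnr_iff.1 hc N n h0 hn (fun k => if h : x k = v then ⟨u, hu⟩ else ⟨x k, h⟩) (fun k hk => ?_)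
    (fun k hk l hl => ?_) fun k hk => ?_
  · simp [hx' k (by omega), hx' (k + 1) hk, ha k hk]
  · simpa [hx' k hk, hx' l hl] using hi k hk l hl
  · simpa [hx k hk] using H k hk

theorem extract (N : ℕ) (m : ℕ) : ∀ G : SimpleGraph (Fin m), G.IsTree → (¬∃ c : Fin m → Fin 3, WNR G c) →
    (∃ c : Fin m → Fin 3, NR G c (N + 2)) → ∃ m : ℕ, N ≤ m ∧ ∃ G : SimpleGraph (Fin m), G.IsTree ∧
      (¬∃ c : Fin m → Fin 3, WNR G c) ∧ (∃ c : Fin m → Fin 4, WNR G c) ∧
      ∀ H : G.Subgraph, H.Connected → H ≠ ⊤ → ∃ c : H.verts → Fin 3, WNR H.coe c := by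
  classical
  induction m using Nat.strong_induction_on with
  | _ m ih =>
  intro G hG h3 ⟨c, hc⟩
  by_cases h : ∀ H : G.Subgraph, H.Connected → H ≠ ⊤ → ∃ c : H.verts → Fin 3, WNR H.coe c
  · have hm : N + 2 ≤ m := by
      by_contra hm
      refine h3 ⟨c, wnr_iff.2 fun _ n h0 _ x ha hi => hc n h0 ?_ x ha hi⟩
      have := Fintype.card_le_of_injective (fun k : Fin (2 * n) => x k) fun k l e =>
        Fin.ext (hi k k.2 l l.2 e)
      simp at this
      omega
    exact ⟨m, by omega, G, hG, h3, four hG.connected (by omega) h, h⟩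
  push Not at h
  obtain ⟨H, hH, hne, hc3⟩ := h
  have hv : H.verts ≠ Set.univ := fun e => hne <| by
    have hs : H.IsSpanning := Subgraph.isSpanning_iff.2 e
    have := (isTree_iff_minimal_connected.1 hG).2 ((H.spanningCoeEquivCoeOfSpanning hs).connected_iff.2
      hH.coe) H.spanningCoe_le
    refine le_antisymm le_top ⟨by rw [e]; simp, fun u v ha => this ha⟩
  have hlt : Fintype.card H.verts < m := by
    simpa using Set.card_lt_card (Set.ssubset_univ_iff.2 hv)
  have f := H.coe.overFinIso rfl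
  refine ih _ hlt (H.coe.overFin rfl) (f.isTree_iff.1 ⟨hH.coe, hG.isAcyclic.subgraph H⟩)
    (fun ⟨c, hc⟩ => hc3 _ (wnr_iff.2 fun N => (wnr_iff.1 hc N).comap f.toHom f.injective))
    ⟨_, (hc.comap H.hom H.hom_injective).comap f.symm.toHom f.symm.injective⟩

theorem extract' [Finite V] {G : SimpleGraph V} {N : ℕ} (hG : G.IsTree) (h3 : ∀ c : V → Fin 3, ¬∀ N, NR G c N)
    {c : V → Fin 3} (hc : NR G c (N + 2)) : ∃ m : ℕ, N ≤ m ∧ ∃ G : SimpleGraph (Fin m), G.IsTree ∧
      (¬∃ c : Fin m → Fin 3, WNR G c) ∧ (∃ c : Fin m → Fin 4, WNR G c) ∧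
      ∀ H : G.Subgraph, H.Connected → H ≠ ⊤ → ∃ c : H.verts → Fin 3, WNR H.coe c := by
  have := Fintype.ofFinite V
  have f := G.overFinIso rfl
  exact extract N _ (G.overFin rfl) (f.isTree_iff.1 hG)
    (fun ⟨c, hc⟩ => h3 _ fun N => (wnr_iff.1 hc N).comap f.toHom f.injective)
    ⟨_, hc.comap f.symm.toHom f.symm.injective⟩

/-- the graph of a parent map -/
def pG (p : V → V) : SimpleGraph V where
  Adj u v := u ≠ v ∧ (p u = v ∨ p v = u)
  symm := ⟨fun _ _ h => ⟨h.1.symm, h.2.symm⟩⟩
  loopless := ⟨fun _ h => h.1 rfl⟩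

lemma pG_tree {p : V → V} (rk : V → ℕ) (r : V) (hr : p r = r) (h : ∀ v ≠ r, rk (p v) < rk v) :
    (pG p).IsTree := by
  have h' : ∀ u v, u ≠ v → p u = v → rk v < rk u := by
    rintro u _ h1 rfl
    exact h u fun e => h1 (by rw [e, hr])
  have hc : ∀ n v, rk v = n → (pG p).Reachable v r := by
    intro n
    induction n using Nat.strong_induction_on with
    | _ n ih =>
    rintro v rfl
    by_cases e : v = r
    · rw [e]
    · have := h v e
      have ha : (pG p).Adj v (p v) := ⟨fun e => by rw [← e] at this; omega, .inl rfl⟩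
      exact ha.reachable.trans (ih _ this _ rfl)
  haveI : Nonempty V := ⟨r⟩
  refine ⟨⟨fun u v => (hc _ u rfl).trans (hc _ v rfl).symm⟩, fun u c hc => ?_⟩
  obtain ⟨v, hv, hmax⟩ := Set.exists_max_image {v | v ∈ c.support} rk (List.finite_toSet _)
    ⟨u, c.start_mem_support⟩
  have := hc.ncard_neighborSet_toSubgraph_eq_two hv
  have hs : c.toSubgraph.neighborSet v ⊆ {p v} := fun w hw => by
    have ha := c.toSubgraph.adj_sub hw
    rcases ha.2 with e | e
    · exact e.symm
    · have := h' _ _ ha.1.symm e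
      have := hmax w (c.mem_verts_toSubgraph.1 (c.toSubgraph.neighborSet_subset_verts v hw))
      omega
  have := Set.ncard_le_ncard hs
  simp at this
  omega

lemma apex {p : V → V} {x : ℕ → V} {m : ℕ} (ha : ∀ k, k + 1 < m → (pG p).Adj (x k) (x (k + 1)))
    (hi : ∀ k < m, ∀ l < m, x k = x l → k = l) (hm : 0 < m) :
    ∃ a < m, (∀ k < a, p (x k) = x (k + 1)) ∧ ∀ k, a ≤ k → k + 1 < m → p (x (k + 1)) = x k := by
  classical
  have hex : ∃ a, a + 1 = m ∨ p (x a) ≠ x (a + 1) := ⟨m - 1, .inl (by omega)⟩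
  have h1 : Nat.find hex ≤ m - 1 := Nat.find_min' hex (.inl (by omega))
  refine ⟨Nat.find hex, by omega, fun k hk => ?_, fun k hk => ?_⟩
  · have := Nat.find_min hex hk
    tauto
  · induction k, hk using Nat.le_induction with
    | base =>
      intro hk
      have := Nat.find_spec hex
      have := (ha _ hk).2
      have : Nat.find hex + 1 ≠ m := by omega
      tauto
    | succ k hk ih =>
      intro hk'
      refine (ha _ hk').2.resolve_left fun e => ?_
      have := hi k (by omega) (k + 1 + 1) hk' (by rw [← e, ih (by omega)])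
      omega

end Pool.Agent.H4.Thue
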