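import Pool.Agent.H4.ThueR
import Pool.Agent.H4.ThueX

namespace Pool.Agent.H4.Thue

def Ok (S : ℕ → Bool) (L : ℕ) (v : ℕ × ℕ × ℕ) : Prop :=
  v.1 ≤ L ∧ v.2.1 < 6 ∧ v.2.2 < 4 ^ (v.2.1 - 1) ∧ (v.2.1 = 0 ∨ S v.1)

def par0 (v : ℕ × ℕ × ℕ) : ℕ × ℕ × ℕ := if v.2.1 = 0 then (v.1 - 1, 0, 0) else (v.1, v.2.1 - 1, v.2.2 / 4)

def par (S : ℕ → Bool) (L : ℕ) (v : {v // Ok S L v}) : {v // Ok S L v} := ⟨par0 v.1, by
  obtain ⟨⟨i, d, h⟩, h1, h2, h3, h4⟩ := v
  dsimp only at *
  interval_cases d <;> simp_all [Ok, par0] <;> omega⟩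

def root (S : ℕ → Bool) (L : ℕ) : {v // Ok S L v} := ⟨(0, 0, 0), by simp [Ok]⟩

instance (S : ℕ → Bool) (L : ℕ) : Finite {v // Ok S L v} :=
  (Set.finite_Iic (L, 6, 256)).subset (t := {v | Ok S L v}) <| by
    rintro ⟨i, d, h⟩ ⟨h1, h2, h3, h4⟩
    dsimp only at *
    interval_cases d <;> simp_all <;> omega

variable {S : ℕ → Bool} {L : ℕ}

lemma low {u v : {v // Ok S L v}} (h1 : u.1.1 = v.1.1) (h2 : u.1.2.1 = v.1.2.1) (h : u.1.2.1 ≤ 1) : u = v := by
  have := u.2.2.2.1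
  have := v.2.2.2.1
  rw [show u.1.2.1 - 1 = 0 by omega] at *
  rw [show v.1.2.1 - 1 = 0 by omega] at *
  exact Subtype.ext (Prod.ext h1 (Prod.ext h2 (by omega)))

lemma tree (S : ℕ → Bool) (L : ℕ) : (pG (par S L)).IsTree := by
  refine pG_tree (fun v => v.1.1 + v.1.2.1) (root S L) rfl fun v hv => ?_
  have : ¬(v.1.1 = 0 ∧ v.1.2.1 = 0) := fun h => hv (low h.1 h.2 (by omega))
  simp only [par, par0]
  split_ifs <;> dsimp only <;> omega

lemma chain {y : ℕ → {v // Ok S L v}} {r : ℕ} (h : ∀ k < r, par S L (y k) = y (k + 1) ∧ y k ≠ y (k + 1))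
    {k : ℕ} (hk : k ≤ r) : k ≤ (y 0).1.1 + (y 0).1.2.1 ∧ (y k).1.1 = (y 0).1.1 - (k - (y 0).1.2.1) ∧
      (y k).1.2.1 = (y 0).1.2.1 - k := by
  induction k with
  | zero => simp
  | succ k ih =>
    obtain ⟨h1, h2, h3⟩ := ih (by omega)
    obtain ⟨e, hne⟩ := h k hk
    have : ¬((y k).1.1 = 0 ∧ (y k).1.2.1 = 0) := fun h => hne (by
      rw [← e, low (v := root S L) h.1 h.2 (by omega)]; rfl)
    rw [← e]
    simp only [par, par0]
    split_ifs <;> dsimp only <;> omega

set_option synthInstance.maxSize 1000 in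
lemma fin_gad (y z : Fin 3) (h : y ≠ z) : ∀ d < 6, ∀ a < d, ∀ n < 5, 0 < n → a < 2 * n →
    d - a + (2 * n - 1 - a) < 6 → ¬∀ k < n, ext (win [y, z]) 0 (if k ≤ a then d - k else d - a + (k - a)) =
      ext (win [y, z]) 0 (if k + n ≤ a then d - (k + n) else d - a + (k + n - a)) := by
  revert y z; decide +kernel

lemma half {b : ℕ → Fin 3} {N n a : ℕ} (hb : NoSq b S (L + 1) N) (hp : ∀ i, b i ≠ b (i + 1))
    (hn : n ≤ N) {x : ℕ → {v // Ok S L v}} (hi : ∀ k < 2 * n, ∀ l < 2 * n, x k = x l → k = l) (ha : a < 2 * n)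
    (hu : ∀ k < a, par S L (x k) = x (k + 1)) (hd : ∀ k, a ≤ k → k + 1 < 2 * n → par S L (x (k + 1)) = x k)
    (h : (x 0).1.2.1 < a → (x (2 * n - 1)).1.2.1 < 2 * n - 1 - a) :
    ¬∀ k < n, ext b (x k).1.1 (x k).1.2.1 = ext b (x (k + n)).1.1 (x (k + n)).1.2.1 := by
  intro H
  have c1 := fun k => chain (y := x) (r := a) (k := k) fun k hk =>
    ⟨hu k hk, fun e => by have := hi k (by omega) _ (by omega) e; omega⟩
  have c2 : ∀ k, a ≤ k → k < 2 * n → _ := fun k h1 h2 =>
    chain (y := fun k => x (2 * n - 1 - k)) (r := 2 * n - 1 - a) (k := 2 * n - 1 - k) (fun k hk => by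
      refine ⟨?_, fun e => by have := hi _ (by omega) _ (by omega) e; omega⟩
      rw [← hd (2 * n - 1 - (k + 1)) (by omega) (by omega)]
      congr 2; omega) (by omega)
  have e : ∀ k < 2 * n, 2 * n - 1 - (2 * n - 1 - k) = k := by omega
  simp +contextual only [e, Nat.sub_zero] at c2
  obtain ⟨-, o2, -, o4⟩ := (x 0).2
  obtain ⟨p1, p2, -, p4⟩ := (x (2 * n - 1)).2
  generalize (x 0).1.1 = i at *
  generalize (x 0).1.2.1 = d at *
  generalize (x (2 * n - 1)).1.1 = j at *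
  generalize (x (2 * n - 1)).1.2.1 = e at *
  have a1 := c1 a le_rfl
  have a2 := c2 a le_rfl ha
  have hne : 0 < a → a + 1 < 2 * n → (x (a - 1)).1.1 = (x (a + 1)).1.1 → (x (a - 1)).1.2.1 = (x (a + 1)).1.2.1 →
      1 < (x (a - 1)).1.2.1 := fun h1 h2 h3 h4 => by
    by_contra h5
    have := hi _ (by omega) _ h2 (low h3 h4 (by omega))
    omega
  obtain ⟨r, hr⟩ : ∃ r, 2 * n = a + r + 1 := ⟨2 * n - 1 - a, by omega⟩
  rw [show 2 * n - 1 - a = r by omega] at a2 h
  rcases lt_trichotomy a d with h1 | rfl | h1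
  · obtain ⟨rfl, h2⟩ : j = i ∧ e + a = d + r := by clear hne; omega
    clear a1 a2 hne h
    refine fin_gad _ _ (hp j) d o2 a h1 n (by omega) (by omega) ha (by omega) fun k hk => ?_
    have e : ∀ k < 2 * n, ext b (x k).1.1 (x k).1.2.1 =
        ext (win [b j, b (j + 1)]) 0 (if k ≤ a then d - k else d - a + (k - a)) := by
      intro k hk
      have : (x k).1.1 = j ∧ (x k).1.2.1 = if k ≤ a then d - k else d - a + (k - a) := by
        split_ifs with h
        · have := c1 k h; omega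
        · have := c2 k (by omega) hk; omega
      rw [this.1, this.2]; rfl
    rw [← e k (by omega), ← e _ (by omega), H k hk]
  · obtain ⟨h1, h2⟩ : i ≤ j ∧ r + i = e + j := by clear hne; omega
    clear a1 a2 h
    refine hb i a j e n (by omega) hn o2 p2 ⟨h1, o4, p4, ?_, by clear hne; omega⟩ fun k hk => ?_
    · by_contra h3
      have a3 := c1 (a - 1) (by omega)
      have a4 := c2 (a + 1) (by omega) (by omega)
      have := hne (by omega) (by omega) (by clear hne; omega) (by clear hne; omega)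
      clear hne; omega
    clear hne
    have e : ∀ k < 2 * n, ext b (x k).1.1 (x k).1.2.1 = word b i a j k := by
      intro k hk
      have : (x k).1.1 = (pos i a j k).1 ∧ (x k).1.2.1 = (pos i a j k).2 := by
        unfold pos
        split_ifs with h h'
        · have := c1 k h.le; dsimp only; omega
        · have := c2 k (by omega) hk; dsimp only; omega
        · have := c2 k (by omega) hk; dsimp only; omega
      rw [this.1, this.2]; rfl
    rw [← e k (by omega), ← e _ (by omega), H k hk]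
  · have h := h h1
    have a3 := c1 (a - 1) (by omega)
    have a4 := c2 (a + 1) (by omega) (by omega)
    have := hne (by omega) (by omega) (by clear hne; omega) (by clear hne; omega)
    clear hne; omega

theorem canon {b : ℕ → Fin 3} {N : ℕ} (hb : NoSq b S (L + 1) N) (hp : ∀ i, b i ≠ b (i + 1)) :
    NR (pG (par S L)) (fun v => ext b v.1.1 v.1.2.1) N := by
  intro n h0 hn x ha hi H
  obtain ⟨a, ha, hu, hd⟩ := apex ha hi (by omega)
  by_cases h : (x 0).1.2.1 < a → (x (2 * n - 1)).1.2.1 < 2 * n - 1 - a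
  · exact half hb hp hn hi ha hu hd h H
  refine half (x := fun k => x (2 * n - 1 - k)) (a := 2 * n - 1 - a) hb hp hn
    (fun k hk l hl e => by have := hi _ (by omega) _ (by omega) e; omega) (by omega) (fun k hk => ?_)
    (fun k h1 h2 => ?_) (by simp only [Nat.sub_self, Nat.sub_zero]; omega) fun k hk => ?_
  · rw [← hd (2 * n - 1 - (k + 1)) (by omega) (by omega)]
    congr 2; omega
  · rw [hu _ (by omega)]
    congr 1; omega
  · have := H (n - 1 - k) (by omega)
    rwa [show n - 1 - k + n = 2 * n - 1 - k by omega, show n - 1 - k = 2 * n - 1 - (k + n) by omega,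
      eq_comm] at this

def Good (S : ℕ → Bool) (L : ℕ) (c : ℕ × ℕ × ℕ → Fin 3) : Prop := ∀ n, 0 < n → ∀ x : ℕ → ℕ × ℕ × ℕ,
  (∀ k < 2 * n, Ok S L (x k)) → (∀ k, k + 1 < 2 * n → par0 (x k) = x (k + 1) ∨ par0 (x (k + 1)) = x k) →
  (∀ k < 2 * n, ∀ l < 2 * n, x k = x l → k = l) → ¬∀ k < n, c (x k) = c (x (k + n))

lemma good {c : {v // Ok S L v} → Fin 3} (h : ∀ N, NR (pG (par S L)) c N) : ∃ c, Good S L c := by
  classical
  refine ⟨fun v => if h : Ok S L v then c ⟨v, h⟩ else 0, fun n h0 x ho ha hi H => ?_⟩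
  refine h n n h0 le_rfl (fun k => if h : Ok S L (x k) then ⟨x k, h⟩ else root S L) (fun k hk => ?_)
    (fun k hk l hl => ?_) fun k hk => ?_
  · simp only [ho k (by omega), ho (k + 1) hk, dite_true, pG, par, ne_eq, Subtype.mk.injEq]
    exact ⟨fun e => by have := hi k (by omega) _ hk e; omega, ha k hk⟩
  · simpa [ho k hk, ho l hl] using hi k hk l hl
  · simpa [ho k (by omega), ho (k + n) (by omega)] using H k hk

lemma Good.list {c : ℕ × ℕ × ℕ → Fin 3} (h : Good S L c) (n : ℕ) (l : List (ℕ × ℕ × ℕ)) (h0 : 0 < n)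
    (hl : l.length = 2 * n) (ho : ∀ v ∈ l, Ok S L v) (ha : l.IsChain fun u v => par0 u = v ∨ par0 v = u)
    (hi : l.Nodup) : (l.take n).map c ≠ (l.drop n).map c := by
  refine fun e => h n h0 (l.getD · 0) (fun k hk => ?_) (fun k hk => ?_) (fun k hk k' hk' => ?_) fun k hk => ?_
  · rw [List.getD_eq_getElem _ _ (by omega)]; exact ho _ (List.getElem_mem _)
  · rw [List.getD_eq_getElem _ _ (by omega), List.getD_eq_getElem _ _ (by omega)]
    exact List.isChain_iff_getElem.1 ha k (by omega)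
  · rw [List.getD_eq_getElem _ _ (by omega), List.getD_eq_getElem _ _ (by omega)]
    exact hi.getElem_inj_iff.1
  · have := congrArg (·[k]?) e
    simpa [hk, show k < l.length by omega, show k + n < l.length by omega, add_comm n] using this

lemma pig (f : ℕ → Fin 3) : ∃ p < 4, ∃ q < 4, p ≠ q ∧ f p = f q := by
  obtain ⟨p, q, h1, h2⟩ := Fintype.exists_ne_map_eq_of_card_lt (fun k : Fin 4 => f k) (by simp)
  exact ⟨p, p.2, q, q.2, fun e => h1 (Fin.ext e), h2⟩

set_option synthInstance.maxSize 1000 in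
lemma branch {c : ℕ × ℕ × ℕ → Fin 3} (h : Good S L c) (i : ℕ) : ∃ H : ℕ → ℕ, H 0 = 0 ∧ (i < L → S i →
    (∀ d < 6, H d < 4 ^ (d - 1) ∧ c (i, d, H d) = ext (fun i => c (i, 0, 0)) i d) ∧
      ∀ d < 5, H (d + 1) / 4 = H d) := by
  obtain ⟨p, hp, p', hp', hpp, ep⟩ := pig fun p => c (i, 2, p)
  obtain ⟨q, hq, q', hq', hqq, eq⟩ := pig fun q => c (i, 3, 4 * p + q)
  obtain ⟨r, hr, r', hr', hrr, er⟩ := pig fun r => c (i, 4, 4 * (4 * p + q) + r)
  refine ⟨([0, 0, p, 4 * p + q, 4 * (4 * p + q) + r, 4 * (4 * (4 * p + q) + r)].getD · 0), rfl,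
    fun hi hS => ⟨?_, fun d hd => by interval_cases d <;> simp <;> omega⟩⟩
  set w := 4 * (4 * (4 * p + q) + r)
  have h1 := h.list 1 [(i + 1, 0, 0), (i, 0, 0)]
  have h2 := h.list 1 [(i, 0, 0), (i, 1, 0)]
  have h3 := h.list 1 [(i, 1, 0), (i, 2, w / 64)]
  have h4 := h.list 1 [(i, 2, w / 64), (i, 3, w / 16)]
  have h5 := h.list 1 [(i, 3, w / 16), (i, 4, w / 4)]
  have h6 := h.list 1 [(i, 4, w / 4), (i, 5, w)]
  have h7 := h.list 2 [(i, 2, p'), (i, 1, 0), (i, 2, w / 64), (i, 3, w / 16)]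
  have h8 := h.list 2 [(i, 3, 4 * p + q'), (i, 2, w / 64), (i, 3, w / 16), (i, 4, w / 4)]
  have h9 := h.list 2 [(i, 4, 4 * (4 * p + q) + r'), (i, 3, w / 16), (i, 4, w / 4), (i, 5, w)]
  have h10 := h.list 2 [(i + 1, 0, 0), (i, 0, 0), (i, 1, 0), (i, 2, w / 64)]
  have h11 := h.list 3 [(i, 0, 0), (i, 1, 0), (i, 2, w / 64), (i, 3, w / 16), (i, 4, w / 4), (i, 5, w)]
  have e1 : w / 64 = p := by omega
  have e2 : w / 16 = 4 * p + q := by omega
  have e3 : w / 4 = 4 * (4 * p + q) + r := by omega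
  have e4 : (4 * p + q) / 4 = p := by omega
  have e5 : (4 * p + q') / 4 = p := by omega
  have e6 : (4 * (4 * p + q) + r) / 4 = 4 * p + q := by omega
  have e7 : (4 * (4 * p + q) + r') / 4 = 4 * p + q := by omega
  have b1 : 4 * p + q < 16 := by omega
  have b2 : 4 * p + q' < 16 := by omega
  have b3 : 4 * (4 * p + q) + r < 64 := by omega
  have b4 : 4 * (4 * p + q) + r' < 64 := by omega
  have b5 : w < 256 := by omega
  have b6 : i + 1 ≤ L := hi
  simp [Ok, par0, e1, e2, e3, e4, e5, e6, e7, b1, b2, b3, b4, b5, b6, hi.le, hS, hp, hp', hpp.symm, hqq.symm,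
    hrr.symm, ← ep, ← eq, ← er] at h1 h2 h3 h4 h5 h6 h7 h8 h9 h10 h11
  have key : ∀ s c0 c1 c2 c3 c4 c5 : Fin 3, s ≠ c0 → c0 ≠ c1 → c1 ≠ c2 → c2 ≠ c3 → c3 ≠ c4 → c4 ≠ c5 →
      c1 ≠ c3 → c2 ≠ c4 → c3 ≠ c5 → (s = c1 → c0 ≠ c2) → (c0 = c3 → c1 = c4 → c2 ≠ c5) →
      c1 = -c0 - s ∧ c2 = c0 ∧ c3 = s ∧ c4 = -c0 - s ∧ c5 = c0 := by decide
  have := key _ _ _ _ _ _ _ h1 h2 h3 h4 h5 h6 h7 h8 h9 h10 h11
  intro d hd
  interval_cases d <;> simp [ext, this, hp, b1, b3, b5]

theorem force {c : ℕ × ℕ × ℕ → Fin 3} (h : Good S L c) (N : ℕ) : NoSq (fun i => c (i, 0, 0)) S L N := by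
  intro i d j e n hj _ hd he ⟨h1, h2, h3, h4, h5⟩ H
  choose B B0 hB using branch h
  have Bi : ∀ k, 0 < k → k ≤ d → B i k < 4 ^ (k - 1) ∧ c (i, k, B i k) = ext (fun i => c (i, 0, 0)) i k ∧
      B i k / 4 = B i (k - 1) ∧ S i := fun k k1 k2 => by
    have hS := h2.resolve_left (by omega)
    have := hB i (by omega) hS
    have e := this.2 (k - 1) (by omega)
    rw [Nat.sub_add_cancel k1] at e
    exact ⟨(this.1 k (by omega)).1, (this.1 k (by omega)).2, e, hS⟩
  have Bj : ∀ k, 0 < k → k ≤ e → B j k < 4 ^ (k - 1) ∧ c (j, k, B j k) = ext (fun i => c (i, 0, 0)) j k ∧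
      B j k / 4 = B j (k - 1) ∧ S j := fun k k1 k2 => by
    have hS := h3.resolve_left (by omega)
    have := hB j (by omega) hS
    have e := this.2 (k - 1) (by omega)
    rw [Nat.sub_add_cancel k1] at e
    exact ⟨(this.1 k (by omega)).1, (this.1 k (by omega)).2, e, hS⟩
  have ec : ∀ k < 2 * n, c ((pos i d j k).1, (pos i d j k).2, B (pos i d j k).1 (pos i d j k).2) =
      word (fun i => c (i, 0, 0)) i d j k := by
    intro k hk
    unfold word pos
    split_ifs
    · exact (Bi _ (by omega) (by omega)).2.1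
    · simp [B0, ext]
    · exact (Bj _ (by omega) (by omega)).2.1
  refine h n (by omega) (fun k => ((pos i d j k).1, (pos i d j k).2, B (pos i d j k).1 (pos i d j k).2))
    (fun k hk => ?_) (fun k hk => ?_) (fun k hk l hl => ?_) fun k hk => ?_
  · unfold pos Ok
    split_ifs
    · have := Bi (d - k) (by omega) (by omega)
      exact ⟨by omega, by dsimp only; omega, this.1, .inr this.2.2.2⟩
    · simp [B0]; omega
    · have := Bj (k - d - (j - i)) (by omega) (by omega)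
      exact ⟨by omega, by dsimp only; omega, this.1, .inr this.2.2.2⟩
  · rcases lt_or_ge k d with k1 | k1
    · left
      have e : pos i d j (k + 1) = (i, d - k - 1) := by unfold pos; split_ifs <;> simp <;> omega
      have e' : pos i d j k = (i, d - k) := by simp [pos, k1]
      simp only [e, e', par0, if_neg (show d - k ≠ 0 by omega), (Bi (d - k) (by omega) (by omega)).2.2.1]
    right
    rcases lt_or_ge k (d + (j - i)) with k2 | k2
    · simp only [pos, if_neg (show ¬k < d by omega), if_neg (show ¬k + 1 < d by omega), if_pos k2.le,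
        if_pos (show k + 1 ≤ d + (j - i) by omega), par0, B0]
      simp; omega
    · have e : pos i d j k = (j, k + 1 - d - (j - i) - 1) := by unfold pos; split_ifs <;> simp <;> omega
      have e' : pos i d j (k + 1) = (j, k + 1 - d - (j - i)) := by unfold pos; split_ifs <;> simp <;> omega
      simp only [e, e', par0, if_neg (show k + 1 - d - (j - i) ≠ 0 by omega),
        (Bj (k + 1 - d - (j - i)) (by omega) (by omega)).2.2.1]
  · simp only [Prod.mk.injEq, pos]
    split_ifs <;> dsimp only <;> omega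
  · rw [ec k (by omega), ec _ (by omega), H k hk]

theorem final (N : ℕ) : ∃ m : ℕ, N ≤ m ∧ ∃ G : SimpleGraph (Fin m), G.IsTree ∧
      (¬∃ c : Fin m → Fin 3, WNR G c) ∧ (∃ c : Fin m → Fin 4, WNR G c) ∧
      ∀ H : G.Subgraph, H.Connected → H ≠ ⊤ → ∃ c : H.verts → Fin 3, WNR H.coe c := by
  obtain ⟨t, Q, hQ, ht, hp⟩ := iter N
  refine extract' (tree (gad t) (186 * (12 * Q + 2))) (fun c hc => ?_)
    (canon (b := A t) (fun i d j e n h1 h2 => main ht (by omega) _ i d j e n h1 (by omega)) fun i e =>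
      (main ht (by omega) (i + 2)).sqF (i := i) (n := 1) (by omega) (by omega) le_rfl (by simpa using e))
  obtain ⟨c, hc⟩ := good hc
  exact rigid hQ hp _ (force hc)

end Pool.Agent.H4.Thue
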