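import Mathlib

namespace Pool.Agent.H4.Thue

def allB (p : ℕ → Bool) : ℕ → Bool
  | 0 => true
  | k + 1 => p k && allB p k

lemma allB_iff {p : ℕ → Bool} {n : ℕ} : allB p n = true ↔ ∀ k < n, p k = true := by
  induction n with
  | zero => simp [allB]
  | succ n ih => rw [Nat.forall_lt_succ_right]; simp [allB, ih, and_comm]

def pack (f : ℕ → Fin 3) : ℕ → ℕ
  | 0 => 0
  | n + 1 => pack f n + (f n).val * 4 ^ n

def dig (w k : ℕ) : ℕ := w >>> (2 * k) % 4

def fd (w k : ℕ) : Fin 3 := Fin.ofNat 3 (dig w k)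

lemma pack_lt (f : ℕ → Fin 3) (n : ℕ) : pack f n < 4 ^ n := by
  induction n with
  | zero => simp [pack]
  | succ n ih => have := (f n).2; rw [pack, pow_succ]; nlinarith

lemma dig_pack (f : ℕ → Fin 3) {n k : ℕ} (h : k < n) : dig (pack f n) k = f k := by
  rw [dig, Nat.shiftRight_eq_div_pow, pow_mul, show 2 ^ 2 = 4 from rfl]
  induction n with
  | zero => omega
  | succ n ih =>
    rcases Nat.lt_succ_iff_lt_or_eq.1 h with h | rfl
    · obtain ⟨r, rfl⟩ := Nat.exists_eq_add_of_lt h
      rw [pack, show (f (k + r + 1)).val * 4 ^ (k + r + 1) = 4 * ((f (k + r + 1)).val * 4 ^ r) * 4 ^ k by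
        ring, Nat.add_mul_div_right _ _ (by positivity), Nat.add_mul_mod_self_left, ih h]
    · rw [pack, Nat.add_mul_div_right _ _ (by positivity), Nat.div_eq_of_lt (pack_lt f k), zero_add]
      have := (f k).2
      omega

lemma fd_pack (f : ℕ → Fin 3) {n k : ℕ} (h : k < n) : fd (pack f n) k = f k := by
  simp [fd, dig_pack f h]

/-- colour at level `d` of the gadget at `i` -/
def ext (b : ℕ → Fin 3) (i d : ℕ) : Fin 3 :=
  if d = 0 ∨ d = 2 ∨ d = 5 then b i else if d = 3 then b (i + 1) else -b i - b (i + 1)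

def pos (i d j k : ℕ) : ℕ × ℕ :=
  if k < d then (i, d - k) else if k ≤ d + (j - i) then (i + k - d, 0) else (j, k - d - (j - i))

def word (b : ℕ → Fin 3) (i d j k : ℕ) : Fin 3 := ext b (pos i d j k).1 (pos i d j k).2

def Adm (S : ℕ → Bool) (i d j e n : ℕ) : Prop := i ≤ j ∧ (d = 0 ∨ S i) ∧ (e = 0 ∨ S j) ∧
  (i < j ∨ d = 0 ∨ e = 0) ∧ d + (j - i) + 1 + e = 2 * n

instance (S : ℕ → Bool) (i d j e n : ℕ) : Decidable (Adm S i d j e n) := by unfold Adm; infer_instance

def NoSq (b : ℕ → Fin 3) (S : ℕ → Bool) (L N : ℕ) : Prop := ∀ i d j e n, j < L → n ≤ N → d < 6 → e < 6 →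
  Adm S i d j e n → ¬∀ k < n, word b i d j k = word b i d j (k + n)

lemma word_congr {b c : ℕ → Fin 3} {i j : ℕ} (hij : i ≤ j) (h : ∀ k ≤ j + 1, b k = c k) (d k : ℕ) :
    word b i d j k = word c i d j k := by
  have : (pos i d j k).1 ≤ j := by unfold pos; split_ifs <;> simp <;> omega
  simp only [word, ext, h _ (this.trans (Nat.le_succ j)), h _ (Nat.succ_le_succ this)]

lemma word_shift (b : ℕ → Fin 3) {τ : Fin 3 → Fin 3} (hτ : τ.Injective) {c : ℕ → Fin 3} {o : ℕ}
    (h : ∀ k, b (o + k) = τ (c k)) (i d j k : ℕ) : word b (o + i) d (o + j) k = τ (word c i d j k) := by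
  have : pos (o + i) d (o + j) k = (o + (pos i d j k).1, (pos i d j k).2) := by
    simp only [pos, Nat.add_sub_add_left]; split_ifs <;> simp; omega
  have e : ∀ τ : Fin 3 → Fin 3, τ.Injective → ∀ x y, τ (-x - y) = -τ x - τ y := by decide
  simp only [word, this, ext, add_assoc, h]
  split_ifs <;> simp [e τ hτ]

def sqB (b : ℕ → Fin 3) (i d j n : ℕ) : Bool := allB (fun k => word b i d j k == word b i d j (k + n)) n

def G (x : Fin 3) : ℕ := ![2716314888303194540867933572603556361578994959485525260114524233245724848107049004884752277137095022581681038884, 2716314888303194540867933572603556361578994959485525260114534285241992290600849836068939247296510836756734617124, 2716314888303194540867933572603556361578994959485525260114534285241992289870913775956979935639908520284592875044] x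

def SB (x : Fin 3) : ℕ := ![12019395175099737303141309414889371408332542913282305, 12019395175099737303141310014516577972091510679666945, 12019395175099737303141310014516863896624669820715265] x

def flip (b : ℕ) (x : Fin 3) : Fin 3 := if b % 2 = 0 then x else 2 - x

def A (t : ℕ → Fin 3) (n : ℕ) : Fin 3 := flip (n / 186) (fd (G (t (n / 186))) (n % 186))

def gad (t : ℕ → Fin 3) (n : ℕ) : Bool := (SB (t (n / 186))).testBit (n % 186)

def chk1 (w : ℕ) (S : ℕ → Bool) : Bool := allB (fun i => allB (fun n =>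
  !allB (fun k => dig w (i + k) == dig w (i + k + n)) (n - 10) || allB (fun d => (d != 0 && !S i) ||
    allB (fun e => (e != 0 && !S (i + 2 * n - 1 - d - e)) || !(decide (Adm S i d (i + 2 * n - 1 - d - e) e n) &&
      sqB (fd w) i d (i + 2 * n - 1 - d - e) n)) 6) 6) 64) 186

def chk2 (w : ℕ) : Bool := allB (fun n =>
  allB (fun i => ((w ^^^ w >>> (2 * (n + 64))) >>> (2 * i)) % 2 ^ (2 * (n + 54)) != 0) 186) 296

def win (l : List (Fin 3)) (n : ℕ) : Fin 3 := l.getD n 0

end Pool.Agent.H4.Thue
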