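import Mathlib

set_option autoImplicit false
set_option linter.unusedSectionVars false

namespace Pool.Agent.H4.UL

variable {X : Type} [MetricSpace X] {ι : Type}

def Rl {ι : Type} (E : List (ι × ι)) (p : ι → X) : Prop := ∀ e ∈ E, dist (p e.1) (p e.2) = 1

def G (S C : (ι → X) → Prop) : Prop :=
  ∃ (κ : Type) (_ : Finite κ) (E : List ((ι ⊕ κ) × (ι ⊕ κ))),
    (∀ p q, Rl E (Sum.elim p q) → S p) ∧ ∀ p, C p → ∃ q, Rl E (Sum.elim p q)

lemma Rl_map {ι ι' : Type} (f : ι → ι') (E : List (ι × ι)) (p : ι' → X) :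
    Rl (E.map (Prod.map f f)) p ↔ Rl E (p ∘ f) := List.forall_mem_map

lemma Rl_app {ι : Type} (E E' : List (ι × ι)) (p : ι → X) : Rl (E ++ E') p ↔ Rl E p ∧ Rl E' p := by
  simp only [Rl, List.mem_append, or_imp, forall_and]

variable {S C S' C' : (ι → X) → Prop}

lemma G.mono (h : G S C) (h1 : ∀ p, S p → S' p) (h2 : ∀ p, C' p → C p) : G S' C' := by
  obtain ⟨κ, f, E, a, b⟩ := h
  exact ⟨κ, f, E, fun p q h => h1 p (a p q h), fun p h => b p (h2 p h)⟩

lemma G.base (a b : ι) : G (X := X) (fun p => dist (p a) (p b) = 1) fun p => dist (p a) (p b) = 1 :=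
  ⟨Empty, inferInstance, [(.inl a, .inl b)], fun p q h => h _ (List.mem_singleton_self _),
    fun p h => ⟨Empty.elim, by simpa [Rl] using h⟩⟩

lemma G.triv : G (X := X) (ι := ι) (fun _ => True) fun _ => True :=
  ⟨Empty, inferInstance, [], fun _ _ _ => trivial, fun p _ => ⟨Empty.elim, by simp [Rl]⟩⟩

lemma G.and (h : G S C) (h' : G S' C') : G (fun p => S p ∧ S' p) fun p => C p ∧ C' p := by
  obtain ⟨κ, f, E, a, b⟩ := h
  obtain ⟨κ', f', E', a', b'⟩ := h'
  have e1 : ∀ (p : ι → X) (q : κ ⊕ κ' → X), Sum.elim p q ∘ Sum.map id Sum.inl = Sum.elim p (q ∘ .inl) :=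
    fun p q => by funext x; cases x <;> rfl
  have e2 : ∀ (p : ι → X) (q : κ ⊕ κ' → X), Sum.elim p q ∘ Sum.map id Sum.inr = Sum.elim p (q ∘ .inr) :=
    fun p q => by funext x; cases x <;> rfl
  refine ⟨κ ⊕ κ', inferInstance, E.map (Prod.map (Sum.map id .inl) (Sum.map id .inl)) ++
    E'.map (Prod.map (Sum.map id .inr) (Sum.map id .inr)), fun p q h => ?_, fun p h => ?_⟩
  · rw [Rl_app, Rl_map, Rl_map, e1, e2] at h
    exact ⟨a _ _ h.1, a' _ _ h.2⟩
  · obtain ⟨q, hq⟩ := b p h.1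
    obtain ⟨q', hq'⟩ := b' p h.2
    refine ⟨Sum.elim q q', ?_⟩
    rw [Rl_app, Rl_map, Rl_map, e1, e2]
    exact ⟨hq, hq'⟩

lemma G.ex {κ0 : Type} [Finite κ0] {S C : (ι ⊕ κ0 → X) → Prop} (h : G S C) :
    G (fun p => ∃ q, S (Sum.elim p q)) fun p => ∃ q, C (Sum.elim p q) := by
  obtain ⟨κ, f, E, a, b⟩ := h
  have e1 : ∀ (p : ι → X) (q : κ0 ⊕ κ → X), Sum.elim p q ∘ Equiv.sumAssoc ι κ0 κ =
      Sum.elim (Sum.elim p (q ∘ .inl)) (q ∘ .inr) :=
    fun p q => by funext x; rcases x with (x | x) | x <;> rfl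
  refine ⟨κ0 ⊕ κ, inferInstance, E.map (Prod.map (Equiv.sumAssoc ι κ0 κ) (Equiv.sumAssoc ι κ0 κ)),
    fun p q h => ?_, fun p ⟨q0, h⟩ => ?_⟩
  · rw [Rl_map, e1] at h
    exact ⟨_, a _ _ h⟩
  · obtain ⟨q, hq⟩ := b _ h
    refine ⟨Sum.elim q0 q, ?_⟩
    rw [Rl_map, e1]
    exact hq

lemma G.all {J : Type} [Finite J] {S C : J → (ι → X) → Prop} (h : ∀ j, G (S j) (C j)) :
    G (fun p => ∀ j, S j p) fun p => ∀ j, C j p := by
  have := Fintype.ofFinite J
  have : ∀ l : List J, G (fun p => ∀ j ∈ l, S j p) fun p => ∀ j ∈ l, C j p := fun l => by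
    induction l with
    | nil => exact G.triv.mono (by simp) (by simp)
    | cons j l ih => exact ((h j).and ih).mono (by simp) (by simp)
  exact (this Finset.univ.toList).mono (by simp) (by simp)

lemma G.imp {P : Prop} (h : G S C) : G (fun p => P → S p) fun p => P → C p := by
  by_cases hP : P
  · exact h.mono (fun _ a _ => a) fun _ a => a hP
  · exact G.triv.mono (fun _ _ a => (hP a).elim) fun _ _ => trivial

def G2 (S C : X → X → Prop) : Prop :=
  ∀ (ι : Type) (a b : ι), G (fun p => S (p a) (p b)) fun p => C (p a) (p b)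

def G3 (S C : X → X → X → Prop) : Prop :=
  ∀ (ι : Type) (a b c : ι), G (fun p => S (p a) (p b) (p c)) fun p => C (p a) (p b) (p c)

def G4 (S C : X → X → X → X → Prop) : Prop :=
  ∀ (ι : Type) (a b c e : ι), G (fun p => S (p a) (p b) (p c) (p e)) fun p => C (p a) (p b) (p c) (p e)

def Ds (X : Type) [MetricSpace X] (r : ℝ) : Prop :=
  G2 (X := X) (fun a b => dist a b = r) fun a b => dist a b = r

def Lk (X : Type) [MetricSpace X] (r : ℝ) : Prop :=
  G2 (X := X) (fun a b => a = b ∨ dist a b = r) fun a b => dist a b = r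

abbrev V (d : ℕ) := EuclideanSpace ℝ (Fin d)

open RealInnerProductSpace

variable {d : ℕ}

lemma exN (hd : 3 ≤ d) (v w : V d) : ∃ n : V d, ‖n‖ = 1 ∧ ⟪n, v⟫ = 0 ∧ ⟪n, w⟫ = 0 := by
  let f : V d →ₗ[ℝ] ℝ × ℝ := (innerₛₗ ℝ v).prod (innerₛₗ ℝ w)
  obtain ⟨n, hn, h0⟩ := (Submodule.ne_bot_iff _).1
    (LinearMap.ker_ne_bot_of_finrank_lt (f := f) (by simp; omega))
  have h1 : ⟪v, n⟫ = 0 ∧ ⟪w, n⟫ = 0 := by simpa [f] using hn
  refine ⟨‖n‖⁻¹ • n, ?_, ?_, ?_⟩
  · rw [norm_smul, norm_inv, norm_norm, inv_mul_cancel₀ (norm_ne_zero_iff.2 h0)]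
  · rw [real_inner_smul_left, real_inner_comm, h1.1, mul_zero]
  · rw [real_inner_smul_left, real_inner_comm, h1.2, mul_zero]

lemma nrm_eq {v : V d} {r : ℝ} (hr : 0 ≤ r) (h : ⟪v, v⟫ = r ^ 2) : ‖v‖ = r := by
  rw [real_inner_self_eq_norm_sq] at h
  exact (pow_left_inj₀ (norm_nonneg _) hr two_ne_zero).1 h

lemma exMid (hd : 3 ≤ d) (a c : V d) {r : ℝ} (h : dist a c ≤ 2 * r) :
    ∃ w, dist a w = r ∧ dist w c = r := by
  obtain ⟨n, h1, h2, -⟩ := exN hd (c - a) 0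
  have hr : 0 ≤ r := by linarith [dist_nonneg (x := a) (y := c)]
  rw [dist_comm, dist_eq_norm] at h
  generalize hx : c - a = x at h h2
  obtain rfl : c = x + a := by rw [← hx]; abel
  have h3 : 0 ≤ r ^ 2 - ‖x‖ ^ 2 / 4 := by nlinarith [norm_nonneg x]
  have h4 := Real.sq_sqrt h3
  have h5 : ⟪n, n⟫ = 1 := by rw [real_inner_self_eq_norm_sq, h1]; norm_num
  have h6 := real_inner_self_eq_norm_sq x
  have h7 : ⟪x, n⟫ = 0 := by rw [real_inner_comm, h2]
  generalize √(r ^ 2 - ‖x‖ ^ 2 / 4) = l at h4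
  refine ⟨a + (1 / 2 : ℝ) • x + l • n, ?_, ?_⟩ <;> rw [dist_eq_norm] <;> refine nrm_eq hr ?_
  · rw [show a - (a + (1 / 2 : ℝ) • x + l • n) = (-1 / 2 : ℝ) • x + (-l) • n by module]
    simp only [inner_add_left, inner_add_right, real_inner_smul_left, real_inner_smul_right, h2, h5, h6, h7]
    linarith
  · rw [show (a + (1 / 2 : ℝ) • x + l • n) - (x + a) = (-1 / 2 : ℝ) • x + l • n by module]
    simp only [inner_add_left, inner_add_right, real_inner_smul_left, real_inner_smul_right, h2, h5, h6, h7]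
    linarith

lemma hom2 {y z y' z' : V d} (h : dist y z = dist y' z') :
    ∃ φ : V d → V d, (∀ a b, dist (φ a) (φ b) = dist a b) ∧ φ y = y' ∧ φ z = z' := by
  rw [dist_comm, dist_comm y', dist_eq_norm, dist_eq_norm] at h
  refine ⟨fun x => y' + (ℝ ∙ (z - y - (z' - y')))ᗮ.reflection (x - y), fun a b => ?_, by simp, ?_⟩
  · rw [dist_add_left, LinearIsometryEquiv.dist_map, dist_sub_right]
  · simp only [Submodule.reflection_sub h]; abel

lemma par_eq {s t : V d} {r : ℝ} (hs : ‖s‖ ≤ r) (ht : ‖t‖ ≤ r) (h : 2 * r ≤ ‖s + t‖) : s = t := by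
  have := parallelogram_law_with_norm ℝ s t
  have h0 := norm_nonneg s
  have h1 := norm_nonneg t
  have h2 : ‖s - t‖ * ‖s - t‖ ≤ 0 := by nlinarith
  have : ‖s - t‖ = 0 := by nlinarith [norm_nonneg (s - t)]
  exact sub_eq_zero.1 (norm_eq_zero.1 this)

lemma L1 (P : Fin d → V d) {y z : V d} {r s : ℝ} (hs : s ≠ 0) (h1 : ∀ k, dist y (P k) = r)
    (h2 : ∀ k, dist z (P k) = r) (h3 : ∀ j k, j ≠ k → dist (P j) (P k) = s) :
    y = z ∨ d * dist y z ^ 2 = 4 * d * r ^ 2 - 2 * s ^ 2 * (d - 1) := by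
  rw [or_iff_not_imp_left]
  intro hne
  set w := y - z with hw
  have hw0 : w ≠ 0 := sub_ne_zero.2 hne
  let Q : Fin d → V d := fun k => P k - z - (1 / 2 : ℝ) • w
  have a1 : ∀ k, ⟪Q k - (1 / 2 : ℝ) • w, Q k - (1 / 2 : ℝ) • w⟫ = r ^ 2 := fun k => by
    rw [← h1 k, dist_comm, dist_eq_norm, ← real_inner_self_eq_norm_sq]
    rw [show Q k - (1 / 2 : ℝ) • w = P k - y by simp only [Q, hw]; module]
  have a2 : ∀ k, ⟪Q k + (1 / 2 : ℝ) • w, Q k + (1 / 2 : ℝ) • w⟫ = r ^ 2 := fun k => by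
    rw [← h2 k, dist_comm, dist_eq_norm, ← real_inner_self_eq_norm_sq]
    rw [show Q k + (1 / 2 : ℝ) • w = P k - z by simp only [Q, hw]; module]
  have a3 : ∀ j k, j ≠ k → ⟪Q j - Q k, Q j - Q k⟫ = s ^ 2 := fun j k h => by
    rw [← h3 j k h, dist_eq_norm, ← real_inner_self_eq_norm_sq]
    rw [show Q j - Q k = P j - P k by simp only [Q, hw]; module]
  have a4 : dist y z ^ 2 = ⟪w, w⟫ := by rw [dist_eq_norm, real_inner_self_eq_norm_sq]
  clear_value Q w
  have b1 : ∀ k, ⟪Q k, w⟫ = 0 ∧ ⟪Q k, Q k⟫ = r ^ 2 - ⟪w, w⟫ / 4 := fun k => by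
    have := a1 k
    have := a2 k
    have := real_inner_comm (Q k) w
    simp only [inner_add_left, inner_add_right, inner_sub_left, inner_sub_right, real_inner_smul_left,
      real_inner_smul_right] at *
    constructor <;> linarith
  have b2 : ∀ j k, ⟪Q j, Q k⟫ = r ^ 2 - ⟪w, w⟫ / 4 - s ^ 2 / 2 + if j = k then s ^ 2 / 2 else 0 := fun j k => by
    split_ifs with h
    · subst h; rw [(b1 j).2]; ring
    · have := a3 j k h
      have := real_inner_comm (Q k) (Q j)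
      simp only [inner_sub_left, inner_sub_right, (b1 _).2] at *
      linarith
  have : ¬ LinearIndependent ℝ (fun o : Option (Fin d) => o.elim w Q) := fun h => by
    have := h.fintype_card_le_finrank
    simp at this
  obtain ⟨c, hc, o, ho⟩ := Fintype.not_linearIndependent_iff.1 this
  simp only [Fintype.sum_option, Option.elim] at hc
  have c0 : c none = 0 := by
    have := congrArg (fun v => ⟪v, w⟫) hc
    simp only [inner_add_left, sum_inner, real_inner_smul_left, (b1 _).1, mul_zero, Finset.sum_const_zero,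
      add_zero, inner_zero_left, mul_eq_zero, inner_self_eq_zero] at this
    tauto
  set ρ := r ^ 2 - ⟪w, w⟫ / 4 - s ^ 2 / 2 with hρ
  have c1 : ∀ k, (∑ j, c (some j)) * ρ + c (some k) * (s ^ 2 / 2) = 0 := fun k => by
    have := congrArg (fun v => ⟪v, Q k⟫) hc
    simp only [inner_add_left, sum_inner, real_inner_smul_left, c0, zero_mul, zero_add, b2, mul_add,
      Finset.sum_add_distrib, mul_ite, mul_zero, Finset.sum_ite_eq', Finset.mem_univ, if_true,
      inner_zero_left, ← Finset.sum_mul] at this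
    exact this
  obtain ⟨k, rfl⟩ : ∃ k, o = some k := by
    cases o with
    | none => exact (ho c0).elim
    | some k => exact ⟨k, rfl⟩
  have hs2 : s ^ 2 / 2 ≠ 0 := by positivity
  have c2 : ∀ j, c (some j) = c (some k) := fun j => mul_right_cancel₀ hs2 (by linarith [c1 j, c1 k])
  have c3 := c1 k
  simp only [c2, Finset.sum_const, Finset.card_univ, Fintype.card_fin, nsmul_eq_mul] at c3
  have c4 : d * ρ + s ^ 2 / 2 = 0 := mul_left_cancel₀ ho (by linarith)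
  rw [a4]
  rw [hρ] at c4
  linarith

lemma L2 (hd : 3 ≤ d) {y z : V d} {r s : ℝ} (hr : 0 ≤ r) (hs : 0 ≤ s)
    (h : d * dist y z ^ 2 = 4 * d * r ^ 2 - 2 * s ^ 2 * (d - 1)) : ∃ P : Fin d → V d,
    (∀ k, dist y (P k) = r) ∧ (∀ k, dist z (P k) = r) ∧ ∀ j k, j ≠ k → dist (P j) (P k) = s := by
  have hd0 : (0 : ℝ) < d := by exact_mod_cast (by omega : 0 < d)
  obtain ⟨σ, hσ⟩ : ∃ σ : ℝ, 2 * σ ^ 2 = s ^ 2 := ⟨s / √2, by rw [div_pow, Real.sq_sqrt zero_le_two]; ring⟩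
  obtain ⟨l, hl⟩ : ∃ l : ℝ, d * (2 * l) ^ 2 = dist y z ^ 2 :=
    ⟨dist y z / 2 / √d, by rw [mul_pow, div_pow, Real.sq_sqrt hd0.le]; field_simp⟩
  let cst : ℝ → V d := fun t => WithLp.toLp 2 fun _ => t
  let P0 : Fin d → V d := fun k => WithLp.toLp 2 fun i => if i = k then σ else 0
  have e : ∀ (a b : V d) (t : ℝ), 0 ≤ t → ∑ i, (a i - b i) ^ 2 = t ^ 2 → dist a b = t := fun a b t ht h => by
    rw [EuclideanSpace.dist_eq]
    simp only [Real.dist_eq, sq_abs, h, Real.sqrt_sq ht]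
  have e1 : ∀ (l' : ℝ) k, l' ^ 2 = l ^ 2 → dist (cst (σ / d + l')) (P0 k) = r := fun l' k h' => by
    refine e _ _ _ hr ?_
    have : ∀ i, (cst (σ / d + l') i - P0 k i) ^ 2 = (σ / d + l') ^ 2 +
        if i = k then σ ^ 2 - 2 * σ * (σ / d + l') else 0 := fun i => by
      simp only [cst, P0]; split_ifs <;> ring
    simp only [this, Finset.sum_add_distrib, Finset.sum_const, Finset.card_univ, Fintype.card_fin,
      nsmul_eq_mul, Finset.sum_ite_eq', Finset.mem_univ, if_true]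
    rw [← hl, ← hσ] at h
    field_simp
    linear_combination (1 / 4 : ℝ) * h + d ^ 2 * h'
  obtain ⟨φ, p1, p2, p3⟩ := hom2 (y := cst (σ / d + l)) (z := cst (σ / d + -l)) (y' := y) (z' := z) (by
    refine e _ _ _ dist_nonneg ?_
    simp only [cst, Finset.sum_const, Finset.card_univ, Fintype.card_fin, nsmul_eq_mul]
    rw [← hl]; ring)
  refine ⟨fun k => φ (P0 k), fun k => ?_, fun k => ?_, fun j k hjk => ?_⟩
  · rw [← p2, p1, e1 _ _ rfl]
  · rw [← p3, p1, e1 _ _ (by ring)]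
  · rw [p1]
    refine e _ _ _ hs ?_
    have : ∀ i, (P0 j i - P0 k i) ^ 2 = (if i = j then σ ^ 2 else 0) + if i = k then σ ^ 2 else 0 := fun i => by
      simp only [P0]; split_ifs with a b <;> first | exact (hjk (a.symm.trans b)).elim | ring
    simp only [this, Finset.sum_add_distrib, Finset.sum_ite_eq', Finset.mem_univ, if_true]
    linarith

end Pool.Agent.H4.UL
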