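import Pool.Agent.H4.UL1

set_option autoImplicit false
set_option linter.unusedSectionVars false

namespace Pool.Agent.H4.UL

open RealInnerProductSpace Sum

variable {d : ℕ}

lemma link (hd : 3 ≤ d) {r s L : ℝ} (h1 : Ds (V d) r) (h2 : Ds (V d) s) (hr : 0 ≤ r) (hs : 0 < s) (hL : 0 ≤ L)
    (h : d * L ^ 2 = 4 * d * r ^ 2 - 2 * s ^ 2 * (d - 1)) : Lk (V d) L := fun ι a b => by
  have hd0 : (d : ℝ) ≠ 0 := by exact_mod_cast (by omega : d ≠ 0)
  refine (G.ex (κ0 := Fin d) ((G.all fun k : Fin d => h1 _ (inl a) (inr k)).and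
    ((G.all fun k : Fin d => h1 _ (inl b) (inr k)).and (G.all fun j : Fin d => G.all fun k : Fin d =>
      G.imp (P := j ≠ k) (h2 _ (inr j) (inr k)))))).mono (fun p ⟨q, a1, a2, a3⟩ => ?_) fun p e => ?_
  · refine (L1 q hs.ne' a1 a2 a3).imp id fun e => ?_
    exact (pow_left_inj₀ dist_nonneg hL two_ne_zero).1 (mul_left_cancel₀ hd0 (e.trans h.symm))
  · exact L2 hd hr hs.le (by rw [e]; exact h)

lemma spindle (hd : 3 ≤ d) {L : ℝ} (h : Lk (V d) L) (h1 : 1 < L) : Ds (V d) L := fun ι a b => by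
  refine (G.ex (κ0 := Unit) ((h _ (inl a) (inl b)).and ((h _ (inl a) (inr ())).and
    (G.base (inl b) (inr ()))))).mono (fun p ⟨q, a1, a2, a3⟩ => ?_) fun p e => ?_
  · simp only [elim_inl, elim_inr] at a1 a2 a3
    rcases a1 with a1 | a1
    · rw [← a1] at a3
      rcases a2 with a2 | a2
      · rw [← a2] at a3; simp at a3
      · linarith
    · exact a1
  · let z : V d := EuclideanSpace.single ⟨0, by omega⟩ 1
    have hz : dist 0 z = 1 := by simp [z]
    obtain ⟨w, w1, w2⟩ := exMid hd 0 z (r := L) (by linarith)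
    obtain ⟨φ, p1, p2, p3⟩ := hom2 (y := w) (z := 0) (y' := p a) (z' := p b) (by rw [dist_comm, w1, e])
    refine ⟨fun _ => φ z, e, ?_, ?_⟩
    · show dist (p a) (φ z) = L
      rw [← p2, p1, w2]
    · show dist (p b) (φ z) = 1
      rw [← p3, p1, hz]

lemma chain {u : ℝ} (hu : 0 < u) (h : Lk (V d) u) (k : ℕ) :
    G2 (X := V d) (fun a b => dist a b ≤ (k + 1) * u) fun a b => dist a b = (k + 1) * u := by
  have h' : ∀ a b : V d, a = b ∨ dist a b = u → dist a b ≤ u := fun a b e => by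
    rcases e with rfl | e
    · simpa using hu.le
    · exact e.le
  induction k with
  | zero => exact fun ι a b => (h ι a b).mono (fun p e => by simpa using h' _ _ e) fun p e => by simpa using e
  | succ k ih =>
    intro ι a b
    refine (G.ex (κ0 := Unit) ((ih _ (inl a) (inr ())).and (h _ (inr ()) (inl b)))).mono
      (fun p ⟨q, a1, a2⟩ => ?_) fun p e => ?_
    · have := h' _ _ a2
      simp only [elim_inl, elim_inr] at a1 this
      have := dist_triangle (p a) (q ()) (p b)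
      push_cast; linarith
    · have hk : (0 : ℝ) < k + 2 := by positivity
      obtain ⟨y, y1, y2⟩ := exists_dist_eq (p a) (p b) (a := 1 / (k + 2)) (b := (k + 1) / (k + 2))
        (by positivity) (by positivity) (by field_simp; ring)
      refine ⟨fun _ => y, ?_, ?_⟩
      · show dist (p a) y = _
        rw [y1, e]; push_cast; field_simp; ring
      · show dist y (p b) = _
        rw [y2, e]; push_cast; field_simp; ring

noncomputable def uu (d : ℕ) : ℝ := 2 / d

lemma uu_pos (hd : 3 ≤ d) : 0 < uu d := by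
  have : (0 : ℝ) < d := by exact_mod_cast (by omega : 0 < d)
  unfold uu; positivity

lemma uu_le (hd : 3 ≤ d) : uu d ≤ 2 / 3 := by
  have : (3 : ℝ) ≤ d := by exact_mod_cast hd
  unfold uu; gcongr

lemma rods (hd : 3 ≤ d) : Lk (V d) (uu d) ∧ Ds (V d) ((d + 1) * uu d) := by
  have h3 : (3 : ℝ) ≤ d := by exact_mod_cast hd
  have hu := uu_pos hd
  have e0 : d * uu d = 2 := by unfold uu; field_simp
  have h0 : 1 < (d + 1) * uu d := by nlinarith
  obtain ⟨k, k0, hk⟩ : ∃ k : ℝ, 1 < k ∧ k ^ 2 = (d + 1) * uu d :=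
    ⟨√((d + 1) * uu d), Real.lt_sqrt_of_sq_lt (by linarith), Real.sq_sqrt (by linarith)⟩
  have D1 : Ds (V d) 1 := fun ι a b => G.base a b
  have Dk : Ds (V d) k := spindle hd (link hd D1 D1 zero_le_one one_pos (by linarith)
    (by rw [hk]; linear_combination (d + 1) * e0)) k0
  refine ⟨link hd D1 Dk zero_le_one (by linarith) hu.le ?_,
    spindle hd (link hd Dk Dk (by linarith) (by linarith) (by linarith) ?_) h0⟩
  · rw [hk]; unfold uu; field_simp; ring
  · rw [hk]; unfold uu; field_simp; ring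

def Md (d : ℕ) (a m c : V d) : Prop := dist a c = 2 * uu d ∧ m - a = c - m

lemma mid (hd : 3 ≤ d) : G3 (Md d) (Md d) := fun ι a m c => by
  obtain ⟨h1, h2⟩ := rods hd
  have hu := uu_pos hd
  obtain ⟨k, rfl⟩ : ∃ k, d = k + 2 := ⟨d - 2, by omega⟩
  refine (G.ex (κ0 := Unit) ((chain hu h1 0 _ (inl a) (inl m)).and ((chain hu h1 0 _ (inl m) (inl c)).and
    ((chain hu h1 k _ (inl c) (inr ())).and (h2 _ (inl a) (inr ())))))).mono
      (fun p ⟨q, a1, a2, a3, a4⟩ => ?_) fun p ⟨e1, e2⟩ => ?_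
  · simp only [elim_inl, elim_inr] at a1 a2 a3 a4
    push_cast at a1 a2 a3 a4
    have b1 := dist_triangle (p a) (p c) (q ())
    have b2 := dist_triangle (p a) (p m) (p c)
    refine ⟨by linarith, par_eq (r := uu (k + 2)) ?_ ?_ ?_⟩
    · rw [← dist_eq_norm, dist_comm]; linarith
    · rw [← dist_eq_norm, dist_comm]; linarith
    · rw [show p m - p a + (p c - p m) = p c - p a by abel, ← dist_eq_norm, dist_comm]; linarith
  · have e3 : ‖p m - p a‖ = uu (k + 2) := by
      rw [dist_comm, dist_eq_norm, show p c - p a = (2 : ℝ) • (p m - p a) by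
        rw [two_smul]; nth_rewrite 2 [e2]; abel, norm_smul] at e1
      simp only [Real.norm_ofNat] at e1
      linarith
    have e4 : ∀ (x y : V (k + 2)) (t : ℝ), 0 ≤ t → y - x = t • (p m - p a) → dist x y = t * uu (k + 2) :=
      fun x y t ht h => by rw [dist_comm, dist_eq_norm, h, norm_smul, e3, Real.norm_of_nonneg ht]
    refine ⟨fun _ => p c + ((k : ℝ) + 1) • (p m - p a), ?_, ?_, ?_, ?_⟩
    · exact e4 (p a) (p m) _ (by positivity) (by simp)
    · exact e4 (p m) (p c) _ (by positivity) (by simp [e2])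
    · exact e4 (p c) _ _ (by positivity) (by simp)
    · refine e4 (p a) _ _ (by positivity) ?_
      have : p c = p m + (p m - p a) := by rw [e2]; abel
      simp only [elim_inr, this]; push_cast; module

lemma du (hd : 3 ≤ d) : Ds (V d) (uu d) := fun ι a m => by
  have e : ∀ x y : V d, dist x (y + (y - x)) = 2 * dist x y := fun x y => by
    rw [dist_comm, dist_comm x, dist_eq_norm, dist_eq_norm, show y + (y - x) - x = (2 : ℝ) • (y - x) by module,
      norm_smul, Real.norm_ofNat]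
  refine (G.ex (κ0 := Unit) (mid hd _ (inl a) (inl m) (inr ()))).mono
      (fun p ⟨q, a1, a2⟩ => ?_) fun p e1 => ⟨fun _ => p m + (p m - p a), ?_, ?_⟩
  · simp only [elim_inl, elim_inr] at a1 a2
    rw [show q () = p m + (p m - p a) by rw [a2]; abel, e] at a1
    linarith
  · simp only [elim_inl, elim_inr, e, e1]
  · simp

lemma par0 (hd : 3 ≤ d) : G4 (X := V d) (fun a c a' c' => c' - c = a' - a)
    fun a c a' c' => dist a c = 2 * uu d ∧ dist a a' = 1 ∧ c' - c = a' - a := fun ι a c a' c' => by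
  refine (G.ex (κ0 := Fin 2) ((mid hd _ (inl a) (inr 0) (inl c)).and ((mid hd _ (inl a') (inr 1) (inl c')).and
    ((G.base (inl a) (inl a')).and ((G.base (inl c) (inl c')).and (G.base (inr 0) (inr 1))))))).mono
      (fun p ⟨q, ⟨_, a1⟩, ⟨_, a2⟩, a3, a4, a5⟩ => ?_) fun p ⟨e1, e2, e3⟩ => ?_
  · simp only [elim_inl, elim_inr] at a1 a2 a3 a4 a5
    rw [dist_comm, dist_eq_norm] at a3 a4 a5
    refine par_eq a4.le a3.le ?_
    rw [show p c' - p c + (p a' - p a) = (2 : ℝ) • (q 1 - q 0) by linear_combination (norm := module) a1 - a2,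
      norm_smul, a5, Real.norm_ofNat]
  · have e4 : p c' = p c + (p a' - p a) := by rw [← e3]; abel
    have e5 : ∀ x y : V d, y - x = p a' - p a → dist x y = 1 := fun x y h => by
      rw [dist_comm, dist_eq_norm, h, ← dist_eq_norm, dist_comm, e2]
    refine ⟨![(1 / 2 : ℝ) • (p a + p c), (1 / 2 : ℝ) • (p a' + p c')], ⟨e1, ?_⟩, ⟨?_, ?_⟩, e2,
      e5 _ _ e3, e5 _ _ ?_⟩
    · show (1 / 2 : ℝ) • (p a + p c) - p a = p c - (1 / 2 : ℝ) • (p a + p c)
      module
    · show dist (p a') (p c') = _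
      rw [← e1, dist_eq_norm, dist_eq_norm, e4]; congr 1; abel
    · show (1 / 2 : ℝ) • (p a' + p c') - p a' = p c' - (1 / 2 : ℝ) • (p a' + p c')
      module
    · show (1 / 2 : ℝ) • (p a' + p c') - (1 / 2 : ℝ) • (p a + p c) = _
      rw [e4]; module

lemma par1 (hd : 3 ≤ d) : G4 (X := V d) (fun a c a' c' => c' - c = a' - a)
    fun a c a' c' => dist a c ≤ 2 * (2 * uu d) ∧ dist a a' = 1 ∧ c' - c = a' - a := fun ι a c a' c' => by
  refine (G.ex (κ0 := Fin 2) ((par0 hd _ (inl a) (inr 0) (inl a') (inr 1)).and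
    (par0 hd _ (inr 0) (inl c) (inr 1) (inl c')))).mono (fun p ⟨q, a1, a2⟩ => a2.trans a1) fun p ⟨e1, e2, e3⟩ => ?_
  obtain ⟨w, w1, w2⟩ := exMid hd _ _ e1
  refine ⟨![w, w + (p a' - p a)], ⟨w1, e2, ?_⟩, w2, ?_, ?_⟩
  · show w + _ - w = p a' - p a
    abel
  · show dist w (w + _) = 1
    rw [dist_self_add_right, ← dist_eq_norm, dist_comm, e2]
  · show p c' - p c = w + _ - w
    rw [e3]; abel

lemma par (hd : 3 ≤ d) : G4 (X := V d) (fun a c a' c' => c' - c = a' - a)
    fun a c a' c' => dist a c ≤ 2 * (2 * uu d) ∧ dist a a' ≤ 2 * 1 ∧ c' - c = a' - a := fun ι a c a' c' => by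
  refine (G.ex (κ0 := Fin 2) ((par1 hd _ (inl a) (inl c) (inr 0) (inr 1)).and
    (par1 hd _ (inr 0) (inr 1) (inl a') (inl c')))).mono (fun p ⟨q, a1, a2⟩ => ?_) fun p ⟨e1, e2, e3⟩ => ?_
  · simp only [elim_inl, elim_inr] at a1 a2
    linear_combination (norm := module) a1 + a2
  obtain ⟨w, w1, w2⟩ := exMid hd _ _ e2
  refine ⟨![w, w + (p c - p a)], ⟨e1, w1, ?_⟩, ?_, w2, ?_⟩
  · show w + _ - p c = w - p a
    abel
  · show dist w (w + _) ≤ _
    rwa [dist_self_add_right, ← dist_eq_norm, dist_comm]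
  · show p c' - (w + _) = p a' - w
    linear_combination (norm := module) e3

lemma orth (hd : 3 ≤ d) : G4 (X := V d) (fun p q r s => ⟪p - q, r - s⟫ = 0) fun p q r s =>
    ‖p - q‖ ≤ 2 * uu d ∧ ‖r - s‖ ≤ 2 * uu d ∧ ‖q - s‖ ≤ 1 ∧ ⟪p - q, r - s⟫ = 0 := fun ι a b c e => by
  refine (G.ex (κ0 := Fin 4) ((par hd _ (inl b) (inl a) (inr 1) (inr 0)).and
    ((par hd _ (inl e) (inl c) (inr 3) (inr 0)).and ((par hd _ (inl e) (inl c) (inr 2) (inr 1)).and
    (G.all fun i : Fin 4 => G.base (inl b) (inr i)))))).mono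
      (fun p ⟨q, a1, a2, a3, a4⟩ => ?_) fun p ⟨e1, e2, e3, e4⟩ => ?_
  · simp only [elim_inl, elim_inr] at a1 a2 a3 a4
    have hb : ∀ i v, q i - p b = v → ⟪v, v⟫ = 1 := fun i v h => by
      rw [real_inner_self_eq_norm_sq, ← h, ← dist_eq_norm, dist_comm, a4, one_pow]
    have b1 := hb 1 _ rfl
    have b0 := hb 0 (q 1 - p b + (p a - p b)) (by linear_combination (norm := module) a1)
    have b2 := hb 2 (q 1 - p b - (p c - p e)) (by linear_combination (norm := module) - a3)
    have b3 := hb 3 (q 1 - p b + (p a - p b) - (p c - p e)) (by linear_combination (norm := module) a1 - a2)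
    show ⟪p a - p b, p c - p e⟫ = 0
    generalize q 1 - p b = w, p a - p b = x, p c - p e = y at b0 b1 b2 b3 ⊢
    have := real_inner_comm w x
    have := real_inner_comm w y
    have := real_inner_comm x y
    simp only [inner_add_left, inner_add_right, inner_sub_left, inner_sub_right] at *
    linarith
  · have hu := uu_pos hd
    have hu' := uu_le hd
    obtain ⟨n, n1, n2, n3⟩ := exN hd (p a - p b) (p c - p e)
    have i1 : dist (p b) (p a) ≤ 2 * (2 * uu d) := by rw [dist_comm, dist_eq_norm]; linarith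
    have i2 : dist (p e) (p c) ≤ 2 * (2 * uu d) := by rw [dist_comm, dist_eq_norm]; linarith
    obtain ⟨x, hx⟩ : ∃ x, p a - p b = x := ⟨_, rfl⟩
    obtain ⟨y, hy⟩ : ∃ y, p c - p e = y := ⟨_, rfl⟩
    rw [hx] at e1 e4 n2
    rw [hy] at e2 e4 n3
    have h3 : 0 ≤ 1 - ‖x‖ ^ 2 / 4 - ‖y‖ ^ 2 / 4 := by nlinarith [norm_nonneg x, norm_nonneg y]
    have h4 := Real.sq_sqrt h3
    generalize √(1 - ‖x‖ ^ 2 / 4 - ‖y‖ ^ 2 / 4) = l at h4
    let Q : ℝ → ℝ → V d := fun s t => p b + (s • x + t • y + l • n)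
    have hQ : ∀ s t, s ^ 2 = 1 / 4 → t ^ 2 = 1 / 4 → dist (p b) (Q s t) = 1 := fun s t hs ht => by
      rw [dist_self_add_right]
      refine nrm_eq zero_le_one ?_
      have h5 : ⟪n, n⟫ = 1 := by rw [real_inner_self_eq_norm_sq, n1]; norm_num
      have h6 := real_inner_self_eq_norm_sq x
      have h6' := real_inner_self_eq_norm_sq y
      have h7 : ⟪x, n⟫ = 0 := by rw [real_inner_comm, n2]
      have h8 : ⟪y, n⟫ = 0 := by rw [real_inner_comm, n3]
      have h9 : ⟪y, x⟫ = 0 := by rw [real_inner_comm, e4]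
      simp only [inner_add_left, inner_add_right, real_inner_smul_left, real_inner_smul_right, n2, n3, h5, h6,
        h6', h7, h8, h9, e4]
      linear_combination h4 + ‖x‖ ^ 2 * hs + ‖y‖ ^ 2 * ht
    have hQ' : ∀ s t, s ^ 2 = 1 / 4 → t ^ 2 = 1 / 4 → dist (p e) (Q s t) ≤ 2 * 1 := fun s t hs ht => by
      have := dist_triangle (p e) (p b) (Q s t)
      rw [hQ s t hs ht, dist_comm (p e) (p b), dist_eq_norm (p b)] at this
      linarith
    refine ⟨![Q (1 / 2) (1 / 2), Q (-1 / 2) (1 / 2), Q (-1 / 2) (-1 / 2), Q (1 / 2) (-1 / 2)],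
      ⟨i1, (hQ (-1 / 2) (1 / 2) (by norm_num) (by norm_num)).le.trans (by norm_num), ?_⟩,
      ⟨i2, hQ' _ _ (by norm_num) (by norm_num), ?_⟩, ⟨i2, hQ' _ _ (by norm_num) (by norm_num), ?_⟩, fun i => ?_⟩
    · show Q _ _ - p a = Q _ _ - p b
      simp only [Q]; linear_combination (norm := module) - hx
    · show Q _ _ - p c = Q _ _ - p e
      simp only [Q]; linear_combination (norm := module) - hy
    · show Q _ _ - p c = Q _ _ - p e
      simp only [Q]; linear_combination (norm := module) - hy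
    · fin_cases i <;> exact hQ _ _ (by norm_num) (by norm_num)

end Pool.Agent.H4.UL
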