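import Pool.Agent.H4.UL2

set_option autoImplicit false
set_option linter.unusedSectionVars false

namespace Pool.Agent.H4.UL

open RealInnerProductSpace Sum

variable {d : ℕ}

lemma pars (g : Fin d → V d) {u : ℝ} (hu : 0 < u) (h1 : ∀ k, ‖g k‖ = u) (h2 : ∀ j k, j ≠ k → ⟪g j, g k⟫ = 0)
    (v w : V d) : u ^ 2 * ⟪v, w⟫ = ∑ k, ⟪v, g k⟫ * ⟪w, g k⟫ := by
  have hon : Orthonormal ℝ fun k => u⁻¹ • g k := ⟨fun k => by
    rw [norm_smul, h1, norm_inv, Real.norm_of_nonneg hu.le, inv_mul_cancel₀ hu.ne'], fun j k h => by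
    simp only [real_inner_smul_left, real_inner_smul_right, h2 j k h, mul_zero]⟩
  have := (OrthonormalBasis.mk hon
    (hon.linearIndependent.span_eq_top_of_card_eq_finrank' (by simp)).ge).sum_inner_mul_inner v w
  rw [← this, Finset.mul_sum]
  refine Finset.sum_congr rfl fun k _ => ?_
  simp only [OrthonormalBasis.coe_mk, real_inner_smul_left, real_inner_smul_right, real_inner_comm w]
  field_simp

noncomputable def ee (d : ℕ) : V d := WithLp.toLp 2 fun _ => uu d / √d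

def MS (p : Fin 8 → V d) : Prop := p 1 - p 0 ≠ 0 ∧ ⟪p 2 - p 0, p 1 - p 0⟫ * ⟪p 3 - p 0, p 1 - p 0⟫ +
  ⟪p 4 - p 0, p 1 - p 0⟫ * ⟪p 5 - p 0, p 1 - p 0⟫ - ⟪p 6 - p 0, p 1 - p 0⟫ * ⟪p 7 - p 0, p 1 - p 0⟫ = 0

def MC (p : Fin 8 → V d) : Prop := ∃ t : Fin 8 → ℝ, (∀ i, |t i| ≤ 1) ∧ t 0 = 0 ∧ t 1 = 1 ∧
  (∀ i, p i = t i • ee d) ∧ t 2 * t 3 + t 4 * t 5 - t 6 * t 7 = 0

lemma nb (hd : 3 ≤ d) (α : Fin d → ℝ) : ‖(WithLp.toLp 2 fun k => uu d / √d * α k : V d)‖ ^ 2 =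
    uu d ^ 2 / d * ∑ k, α k ^ 2 := by
  rw [EuclideanSpace.norm_sq_eq, Finset.mul_sum]
  simp only [Real.norm_eq_abs, sq_abs, mul_pow, div_pow, Real.sq_sqrt (Nat.cast_nonneg d)]

lemma nb' (hd : 3 ≤ d) (α : Fin d → ℝ) (h : ∀ k, |α k| ≤ 1) :
    ‖(WithLp.toLp 2 fun k => uu d / √d * α k : V d)‖ ≤ uu d := by
  have hd0 : (0 : ℝ) < d := by exact_mod_cast (by omega : 0 < d)
  refine (pow_le_pow_iff_left₀ (norm_nonneg _) (uu_pos hd).le two_ne_zero).1 ?_
  have : ∑ k, α k ^ 2 ≤ d := by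
    simpa using Finset.sum_le_card_nsmul Finset.univ (fun k => α k ^ 2) 1 fun k _ => (sq_le_one_iff_abs_le_one _).2 (h k)
  rw [nb hd]
  calc _ ≤ uu d ^ 2 / d * d := by gcongr
    _ = _ := by field_simp

lemma ee_norm (hd : 3 ≤ d) : ‖ee d‖ = uu d := by
  have hd0 : (0 : ℝ) < d := by exact_mod_cast (by omega : 0 < d)
  refine (pow_left_inj₀ (norm_nonneg _) (uu_pos hd).le two_ne_zero).1 ?_
  have := nb hd fun _ => 1
  simp only [mul_one, one_pow, Finset.sum_const, Finset.card_univ, Fintype.card_fin, nsmul_eq_mul] at this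
  rw [ee, this]; field_simp

lemma master (hd : 3 ≤ d) : G (MS (d := d)) MC := by
  have hu := uu_pos hd
  have hu' := uu_le hd
  obtain ⟨n, rfl⟩ : ∃ n, d = n + 3 := ⟨d - 3, by omega⟩
  let I := Fin 8 ⊕ Fin (n + 3) ⊕ Fin 3
  let o : I := inl 0
  let g : Fin (n + 3) → I := fun k => inr (inl k)
  let A : Fin 3 → I := fun k => inr (inr k)
  let tA : Fin (n + 3) → I := Fin.cons (inl 2) (Fin.cons (inl 4) (Fin.cons (inl 6) fun _ => o))
  let tB : Fin (n + 3) → I := Fin.cons (inl 3) (Fin.cons (inl 5) (Fin.cons (A 2) fun _ => o))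
  refine (G.ex ((du hd I o (inl 1)).and ((G.all fun k => du hd I o (g k)).and
    ((G.all fun j => G.all fun k => G.imp (P := j ≠ k) (orth hd I (g j) o (g k) o)).and
    ((G.all fun i : Fin 8 => G.all fun k => orth hd I (inl i) o (g k) (g 0)).and
    ((G.all fun k => orth hd I (A 0) (tA k) (g k) o).and ((G.all fun k => orth hd I (A 1) (tB k) (g k) o).and
    ((par hd I (inl 7) o o (A 2)).and (orth hd I (A 0) o (A 1) o))))))))).mono
    (fun p ⟨q, a1, a2, a3, a4, a5, a6, a7, a8⟩ => ?_) fun p ⟨t, e1, e2, e3, e4, e5⟩ => ?_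
  · obtain ⟨P, hP⟩ : ∃ P : I → V (n + 3), ∀ i, P i = Sum.elim p q i - p 0 := ⟨_, fun _ => rfl⟩
    have s : ∀ i j, Sum.elim p q i - Sum.elim p q j = P i - P j := fun i j => by rw [hP, hP]; abel
    have P0 : P o = 0 := by simp [hP, o]
    simp only [dist_comm (Sum.elim p q o), dist_eq_norm, s, P0, sub_zero, zero_sub] at a1 a2 a3 a4 a5 a6 a7 a8
    have pa := pars (fun k => P (g k)) hu a2 a3
    simp only [inner_sub_left, inner_sub_right, sub_eq_zero] at a4 a5 a6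
    have b1 := pa (P (A 0)) (P (A 1))
    simp only [a8, a5, a6, Fin.sum_univ_succ, tA, tB, Fin.cons_zero, Fin.cons_succ, a4, P0, a7, inner_zero_left,
      inner_neg_left, mul_zero, Finset.sum_const_zero] at b1
    have b2 : ∀ i, uu (n + 3) ^ 2 * ⟪p i - p 0, p 1 - p 0⟫ =
        (n + 3 : ℕ) * (⟪P (inl i), P (g 0)⟫ * ⟪P (inl 1), P (g 0)⟫) := fun i => by
      have := pa (P (inl i)) (P (inl 1))
      simp only [a4, Finset.sum_const, Finset.card_univ, Fintype.card_fin, nsmul_eq_mul] at this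
      rw [← this, hP, hP]; rfl
    refine ⟨fun h => ?_, mul_left_cancel₀ (pow_ne_zero 4 hu.ne') ?_⟩
    · rw [hP, elim_inl, h, norm_zero] at a1
      exact hu.ne a1
    · linear_combination (exp := 1) (uu (n + 3) ^ 2 * ⟪p 3 - p 0, p 1 - p 0⟫) * b2 2 +
        (uu (n + 3) ^ 2 * ⟪p 5 - p 0, p 1 - p 0⟫) * b2 4 - (uu (n + 3) ^ 2 * ⟪p 7 - p 0, p 1 - p 0⟫) * b2 6 +
        ((n + 3 : ℕ) * ⟪P (inl 1), P (g 0)⟫) * (⟪P (inl 2), P (g 0)⟫ * b2 3 + ⟪P (inl 4), P (g 0)⟫ * b2 5 -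
          ⟪P (inl 6), P (g 0)⟫ * b2 7) - ((n + 3 : ℕ) * ⟪P (inl 1), P (g 0)⟫) ^ 2 * b1
  · let W : (Fin (n + 3) → ℝ) → V (n + 3) := fun α => WithLp.toLp 2 fun k => uu (n + 3) / √(n + 3 : ℕ) * α k
    let α : Fin (n + 3) → ℝ := Fin.cons (t 2) (Fin.cons (t 4) (Fin.cons (t 6) fun _ => 0))
    let β : Fin (n + 3) → ℝ := Fin.cons (t 3) (Fin.cons (t 5) (Fin.cons (-t 7) fun _ => 0))
    let q : Fin (n + 3) ⊕ Fin 3 → V (n + 3) := Sum.elim (fun k => EuclideanSpace.single k (uu (n + 3)))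
      ![W α, W β, W fun _ => -t 7]
    have p' : ∀ i, p i = W fun _ => t i := fun i => by
      rw [e4]; ext k; simp [W, ee, mul_comm]
    have c3 : ∀ (Q : Fin (n + 3) → Prop), Q 0 → Q (Fin.succ 0) → Q (Fin.succ (Fin.succ 0)) →
        (∀ k, Q (Fin.succ (Fin.succ (Fin.succ k)))) → ∀ k, Q k := fun Q a b c e =>
      Fin.cases a (Fin.cases b (Fin.cases c e))
    have hα : ∀ k, |α k| ≤ 1 := c3 _ (e1 2) (e1 4) (e1 6) fun k => by simp [α]
    have hβ : ∀ k, |β k| ≤ 1 := c3 _ (e1 3) (e1 5) ((abs_neg _).trans_le (e1 7)) fun k => by simp [β]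
    obtain ⟨P, hP⟩ : ∃ P : I → V (n + 3), P = Sum.elim p q := ⟨_, rfl⟩
    have Pg : ∀ k, P (g k) = EuclideanSpace.single k (uu (n + 3)) := fun k => by rw [hP]; rfl
    have Pi : ∀ i, P (inl i) = W fun _ => t i := fun i => by rw [hP, ← p']; rfl
    have PA : P (A 0) = W α ∧ P (A 1) = W β ∧ P (A 2) = W fun _ => -t 7 := by rw [hP]; exact ⟨rfl, rfl, rfl⟩
    have P0 : P o = 0 := by rw [hP]; show p 0 = 0; rw [e4, e2, zero_smul]
    have ng : ∀ k, ‖P (g k)‖ = uu (n + 3) := fun k => by rw [Pg]; simpa using hu.le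
    have hb : ∀ i, ‖P i‖ ≤ uu (n + 3) := by
      rintro (i | k | j)
      · rw [Pi]; exact nb' hd _ fun _ => e1 i
      · exact (ng k).le
      · fin_cases j
        · exact PA.1 ▸ nb' hd _ hα
        · exact PA.2.1 ▸ nb' hd _ hβ
        · exact PA.2.2 ▸ nb' hd _ fun _ => (abs_neg _).trans_le (e1 7)
    have ob : ∀ a b c e, b = o ∨ e = o → ⟪P a - P b, P c - P e⟫ = 0 → ‖P a - P b‖ ≤ 2 * uu (n + 3) ∧
        ‖P c - P e‖ ≤ 2 * uu (n + 3) ∧ ‖P b - P e‖ ≤ 1 ∧ ⟪P a - P b, P c - P e⟫ = 0 := fun a b c e h h' => by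
      refine ⟨by linarith [norm_sub_le (P a) (P b), hb a, hb b], by linarith [norm_sub_le (P c) (P e), hb c, hb e],
        ?_, h'⟩
      rcases h with rfl | rfl
      · rw [P0, zero_sub, norm_neg]; linarith [hb e]
      · rw [P0, sub_zero]; linarith [hb b]
    have ig : ∀ v k, ⟪v, P (g k)⟫ = uu (n + 3) * v k := fun v k => by
      rw [Pg, EuclideanSpace.inner_single_right]; simp
    refine ⟨q, ?_⟩
    rw [← hP]
    beta_reduce
    refine ⟨?_, fun k => ?_, fun j k h => ob _ _ _ _ (.inl rfl) ?_, fun i k => ob _ _ _ _ (.inl rfl) ?_,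
      fun k => ob _ _ _ _ (.inr rfl) ?_, fun k => ob _ _ _ _ (.inr rfl) ?_, ⟨?_, ?_, ?_⟩,
      ob _ _ _ _ (.inr rfl) ?_⟩
    · rw [P0, dist_zero_left, hP, elim_inl, e4, e3, one_smul, ee_norm hd]
    · rw [P0, dist_zero_left, ng]
    · rw [P0, sub_zero, sub_zero, ig, Pg]; simp [h.symm]
    · rw [P0, sub_zero, inner_sub_right, ig, ig, Pi]; simp [W]
    · rw [P0, sub_zero, ig, PA.1]
      revert k
      refine c3 _ ?_ ?_ ?_ fun k => ?_ <;>
        simp only [tA, α, W, Pi, P0, Fin.cons_zero, Fin.cons_succ, PiLp.sub_apply, PiLp.zero_apply] <;> simp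
    · rw [P0, sub_zero, ig, PA.2.1]
      revert k
      refine c3 _ ?_ ?_ ?_ fun k => ?_ <;>
        simp only [tB, β, W, Pi, P0, PA, Fin.cons_zero, Fin.cons_succ, PiLp.sub_apply, PiLp.zero_apply] <;> simp
    · rw [P0, dist_zero_right]; linarith [hb (inl 7)]
    · rw [P0, dist_zero_right]; linarith [hb (inl 7)]
    · rw [P0, PA.2.2, Pi]; ext k; simp [W]
    · rw [P0, sub_zero, sub_zero, PA.1, PA.2.1]
      simp only [W, PiLp.inner_apply, Fin.sum_univ_succ, α, β, Fin.cons_zero, Fin.cons_succ, RCLike.inner_apply,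
        conj_trivial, mul_zero, Finset.sum_const_zero]
      linear_combination (uu (n + 3) / √(n + 3 : ℕ)) ^ 2 * e5

lemma G.num {X : Type} [MetricSpace X] [Inhabited X] {k : ℕ} {S C : (Fin k → X) → Prop} (h : G S C)
    (h0 : ∃ p, C p ∧ ∀ a b, dist (p a) (p b) ≠ 1) : ∃ (m : ℕ) (L : List ((Bool × ℕ) × Bool × ℕ)),
    (∀ e ∈ L, e.1.2 < (bif e.1.1 then k else m) ∧ e.2.2 < (bif e.2.1 then k else m) ∧ e.1 ≠ e.2 ∧
      (e.1.1 && e.2.1) = false) ∧
    (∀ T q : ℕ → X, Rl L (fun c => bif c.1 then T c.2 else q c.2) → S fun t => T t) ∧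
    ∀ T : ℕ → X, (C fun t => T t) → ∃ q : ℕ → X, Rl L fun c => bif c.1 then T c.2 else q c.2 := by
  obtain ⟨κ, f, E, a, b⟩ := h
  obtain ⟨m, ⟨e⟩⟩ := Finite.exists_equiv_fin κ
  let cd : Fin k ⊕ κ → Bool × ℕ := Sum.elim (fun t => (true, t)) fun j => (false, e j)
  have e1 : ∀ T q : ℕ → X, (fun c : Bool × ℕ => bif c.1 then T c.2 else q c.2) ∘ cd =
      Sum.elim (fun t : Fin k => T t) fun j => q (e j) := fun T q => by funext x; cases x <;> rfl
  refine ⟨m, E.map (Prod.map cd cd), List.forall_mem_map.2 fun x hx => ?_, fun T q h => ?_, fun T h => ?_⟩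
  · obtain ⟨p, hp, h0⟩ := h0
    obtain ⟨q, hq⟩ := b p hp
    have := hq x hx
    rcases x with ⟨x | x, y | y⟩
    · exact (h0 _ _ this).elim
    · simp [cd]
    · simp [cd]
    · simp only [cd, Prod.map, elim_inr, cond_false, Fin.is_lt, ne_eq, Prod.mk.injEq, true_and, Fin.val_inj,
        e.injective.eq_iff, Bool.and_self, and_true]
      rintro rfl
      simp at this
  · rw [Rl_map, e1] at h
    exact a _ _ h
  · obtain ⟨q, hq⟩ := b _ h
    refine ⟨fun j => if h : j < m then q (e.symm ⟨j, h⟩) else default, ?_⟩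
    rw [Rl_map, e1 T fun j => if h : j < m then q (e.symm ⟨j, h⟩) else default]
    simpa using hq

end Pool.Agent.H4.UL
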