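import Pool.Agent.H4.UL3

set_option autoImplicit false
set_option linter.unusedSectionVars false

namespace Pool.Agent.H4.UL

open Function

section
variable {X : Type} [MetricSpace X] {ι : Type}

def Av {κ : Type} (P : (κ → X) → Prop) : Prop :=
  ∀ F : Set X, F.Finite → ∃ q, P q ∧ Injective q ∧ ∀ j, q j ∉ F

lemma Av.mono {κ : Type} {P Q : (κ → X) → Prop} (h : Av P) (h' : ∀ q, P q → Q q) : Av Q := fun F hF =>
  let ⟨q, a, b⟩ := h F hF
  ⟨q, h' q a, b⟩

lemma Av.sum {κ κ' : Type} [Finite κ] {P : (κ → X) → Prop} {Q : (κ → X) → (κ' → X) → Prop} (h : Av P)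
    (h' : ∀ q, P q → Av (Q q)) : Av fun q : κ ⊕ κ' → X => Q (q ∘ .inl) (q ∘ .inr) := fun F hF => by
  obtain ⟨q, a, b, c⟩ := h F hF
  obtain ⟨q', a', b', c'⟩ := h' q a _ (hF.union (Set.finite_range q))
  refine ⟨Sum.elim q q', a', b.sumElim b' fun x y e => c' y (.inr ⟨x, e⟩), ?_⟩
  rintro (j | j)
  · exact c j
  · exact fun e => c' j (.inl e)

lemma Av.str {κ : Type} {P : (κ → X) → Prop} {F : Set X} (hF : F.Finite)
    (h : ∀ F' : Set X, F'.Finite → ∃ q, (Injective q → (∀ j, q j ∉ F) → P q) ∧ Injective q ∧ ∀ j, q j ∉ F') :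
    Av P := fun F' hF' => by
  obtain ⟨q, a, b, c⟩ := h _ (hF.union hF')
  exact ⟨q, a b fun j e => c j (.inl e), b, fun j e => c j (.inr e)⟩

lemma Av.empty {P : (Empty → X) → Prop} (h : P Empty.elim) : Av P := fun _ _ =>
  ⟨_, h, fun a => a.elim, fun a => a.elim⟩

def K (S C : (ι → X) → Prop) : Prop :=
  ∃ (κ : Type) (_ : Finite κ) (E : List ((ι ⊕ κ) × (ι ⊕ κ))),
    (∀ p q, Rl E (Sum.elim p q) → S p) ∧ ∀ p, C p → Av fun q => Rl E (Sum.elim p q)

variable {S C S' C' : (ι → X) → Prop}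

lemma K.mono (h : K S C) (h1 : ∀ p, S p → S' p) (h2 : ∀ p, C' p → C p) : K S' C' := by
  obtain ⟨κ, f, E, a, b⟩ := h
  exact ⟨κ, f, E, fun p q h => h1 p (a p q h), fun p h => b p (h2 p h)⟩

lemma K.base (a b : ι) : K (X := X) (fun p => dist (p a) (p b) = 1) fun p => dist (p a) (p b) = 1 :=
  ⟨Empty, inferInstance, [(.inl a, .inl b)], fun p q h => h _ (List.mem_singleton_self _),
    fun p h => .empty (by simpa [Rl] using h)⟩

lemma K.triv : K (X := X) (ι := ι) (fun _ => True) fun _ => True :=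
  ⟨Empty, inferInstance, [], fun _ _ _ => trivial, fun p _ => .empty (by simp [Rl])⟩

lemma K.and (h : K S C) (h' : K S' C') : K (fun p => S p ∧ S' p) fun p => C p ∧ C' p := by
  obtain ⟨κ, f, E, a, b⟩ := h
  obtain ⟨κ', f', E', a', b'⟩ := h'
  have e1 : ∀ (p : ι → X) (q : κ ⊕ κ' → X), Sum.elim p q ∘ Sum.map id Sum.inl = Sum.elim p (q ∘ .inl) :=
    fun p q => by funext x; cases x <;> rfl
  have e2 : ∀ (p : ι → X) (q : κ ⊕ κ' → X), Sum.elim p q ∘ Sum.map id Sum.inr = Sum.elim p (q ∘ .inr) :=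
    fun p q => by funext x; cases x <;> rfl
  refine ⟨κ ⊕ κ', inferInstance, E.map (Prod.map (Sum.map id .inl) (Sum.map id .inl)) ++
    E'.map (Prod.map (Sum.map id .inr) (Sum.map id .inr)), fun p q h => ?_, fun p h => ?_⟩
  · rw [Rl_app, Rl_map, Rl_map, e1, e2] at h
    exact ⟨a _ _ h.1, a' _ _ h.2⟩
  · refine ((b p h.1).sum (Q := fun q q' => Rl E (Sum.elim p q) ∧ Rl E' (Sum.elim p q'))
      fun q hq => (b' p h.2).mono fun q' hq' => ⟨hq, hq'⟩).mono fun q hq => ?_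
    rw [Rl_app, Rl_map, Rl_map, e1, e2]
    exact hq

lemma K.ex {κ0 : Type} [Finite κ0] {S C : (ι ⊕ κ0 → X) → Prop} (h : K S C) :
    K (fun p => ∃ q, S (Sum.elim p q)) fun p => Av fun q => C (Sum.elim p q) := by
  obtain ⟨κ, f, E, a, b⟩ := h
  have e1 : ∀ (p : ι → X) (q : κ0 ⊕ κ → X), Sum.elim p q ∘ Equiv.sumAssoc ι κ0 κ =
      Sum.elim (Sum.elim p (q ∘ .inl)) (q ∘ .inr) :=
    fun p q => by funext x; rcases x with (x | x) | x <;> rfl
  refine ⟨κ0 ⊕ κ, inferInstance, E.map (Prod.map (Equiv.sumAssoc ι κ0 κ) (Equiv.sumAssoc ι κ0 κ)),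
    fun p q h => ?_, fun p h => ?_⟩
  · rw [Rl_map, e1] at h
    exact ⟨_, a _ _ h⟩
  · refine (h.sum (Q := fun q q' => Rl E (Sum.elim (Sum.elim p q) q')) fun q hq => b _ hq).mono fun q hq => ?_
    rw [Rl_map, e1]
    exact hq

lemma K.all {J : Type} [Finite J] {S C : J → (ι → X) → Prop} (h : ∀ j, K (S j) (C j)) :
    K (fun p => ∀ j, S j p) fun p => ∀ j, C j p := by
  have := Fintype.ofFinite J
  have : ∀ l : List J, K (fun p => ∀ j ∈ l, S j p) fun p => ∀ j ∈ l, C j p := fun l => by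
    induction l with
    | nil => exact K.triv.mono (by simp) (by simp)
    | cons j l ih => exact ((h j).and ih).mono (by simp) (by simp)
  exact (this Finset.univ.toList).mono (by simp) (by simp)

lemma K.imp {P : Prop} (h : K S C) : K (fun p => P → S p) fun p => P → C p := by
  by_cases hP : P
  · exact h.mono (fun _ a _ => a) fun _ a => a hP
  · exact K.triv.mono (fun _ _ a => (hP a).elim) fun _ _ => trivial

def K4 (S C : X → X → X → X → Prop) : Prop :=
  ∀ (ι : Type) (a b c e : ι), K (fun p => S (p a) (p b) (p c) (p e)) fun p => C (p a) (p b) (p c) (p e)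

def Dk (X : Type) [MetricSpace X] (r : ℝ) : Prop :=
  ∀ (ι : Type) (a b : ι), K (X := X) (fun p => dist (p a) (p b) = r) fun p => dist (p a) (p b) = r

def Lq (X : Type) [MetricSpace X] (r : ℝ) : Prop :=
  ∀ (ι : Type) (a b : ι), K (X := X) (fun p => p a = p b ∨ dist (p a) (p b) = r) fun p => dist (p a) (p b) = r

lemma K.num [Inhabited X] {k : ℕ} {S C : (Fin k → X) → Prop} (h : K S C)
    (h0 : ∃ p, C p ∧ ∀ a b, dist (p a) (p b) ≠ 1) : ∃ (m : ℕ) (L : List ((Bool × ℕ) × Bool × ℕ)),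
    (∀ e ∈ L, e.1.2 < (bif e.1.1 then k else m) ∧ e.2.2 < (bif e.2.1 then k else m) ∧ e.1 ≠ e.2 ∧
      (e.1.1 && e.2.1) = false) ∧
    (∀ T q : ℕ → X, Rl L (fun c => bif c.1 then T c.2 else q c.2) → S fun t => T t) ∧
    ∀ T : ℕ → X, (C fun t => T t) → ∀ F : Set X, F.Finite → ∃ q : ℕ → X,
      Rl L (fun c => bif c.1 then T c.2 else q c.2) ∧ (∀ i < m, ∀ j < m, q i = q j → i = j) ∧ ∀ j < m, q j ∉ F := by
  obtain ⟨κ, f, E, a, b⟩ := h
  obtain ⟨m, ⟨e⟩⟩ := Finite.exists_equiv_fin κ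
  let cd : Fin k ⊕ κ → Bool × ℕ := Sum.elim (fun t => (true, t)) fun j => (false, e j)
  have e1 : ∀ T q : ℕ → X, (fun c : Bool × ℕ => bif c.1 then T c.2 else q c.2) ∘ cd =
      Sum.elim (fun t : Fin k => T t) fun j => q (e j) := fun T q => by funext x; cases x <;> rfl
  refine ⟨m, E.map (Prod.map cd cd), List.forall_mem_map.2 fun x hx => ?_, fun T q h => ?_, fun T h F hF => ?_⟩
  · obtain ⟨p, hp, h0⟩ := h0
    obtain ⟨q, hq, -⟩ := b p hp ∅ Set.finite_empty
    have := hq x hx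
    rcases x with ⟨x | x, y | y⟩
    · exact (h0 _ _ this).elim
    · simp [cd]
    · simp [cd]
    · simp only [cd, Prod.map, Sum.elim_inr, cond_false, Fin.is_lt, ne_eq, Prod.mk.injEq, true_and, Fin.val_inj,
        e.injective.eq_iff, Bool.and_self, and_true]
      rintro rfl
      simp at this
  · rw [Rl_map, e1] at h
    exact a _ _ h
  · obtain ⟨q, hq, h1, h2⟩ := b _ h F hF
    refine ⟨fun j => if h : j < m then q (e.symm ⟨j, h⟩) else default, ?_, fun i hi j hj h => ?_, fun j hj => ?_⟩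
    · rw [Rl_map, e1 T fun j => if h : j < m then q (e.symm ⟨j, h⟩) else default]
      simpa using hq
    · simp only [dif_pos hi, dif_pos hj] at h
      exact congrArg Fin.val (e.symm.injective (h1 h))
    · simp only [dif_pos hj]
      exact h2 _

end

open RealInnerProductSpace

variable {d : ℕ}

lemma rot (hd : 3 ≤ d) (w : V d) {J : Type} [Finite J] (c : J → V d) (hc : ∀ j (t : ℝ), c j ≠ t • w)
    {F : Set (V d)} (hF : F.Finite) : ∃ ρ : V d ≃ₗᵢ[ℝ] V d, ρ w = w ∧ ∀ j, ρ (c j) ∉ F := by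
  have := hF.to_subtype
  let H := (ℝ ∙ w)ᗮ
  obtain ⟨n, hn⟩ := Submodule.exists_forall_notMem_of_forall_ne_top (K := ℝ) (M := H) (ι := J ⊕ J × F)
    (Sum.elim (fun j => (ℝ ∙ c j)ᗮ.comap H.subtype) fun x => (ℝ ∙ (c x.1 - x.2)).comap H.subtype) (by
      rintro (j | ⟨j, f⟩) h
      · obtain ⟨a, ha, b, hb, e⟩ := (ℝ ∙ w).exists_add_mem_mem_orthogonal (c j)
        have h1 : (⟨b, hb⟩ : H) ∈ (ℝ ∙ c j)ᗮ.comap H.subtype := by
          simp only [Sum.elim_inl] at h; rw [h]; trivial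
        have h2 : ⟪c j, b⟫ = 0 := Submodule.mem_orthogonal_singleton_iff_inner_right.1 h1
        rw [e, inner_add_left, Submodule.inner_right_of_mem_orthogonal ha hb, zero_add, inner_self_eq_zero] at h2
        obtain ⟨t, rfl⟩ := Submodule.mem_span_singleton.1 ha
        exact hc j t (by rw [e, h2, add_zero])
      · obtain ⟨n, n1, n2, n3⟩ := exN hd w (c j - f)
        have h1 : (⟨n, Submodule.mem_orthogonal_singleton_iff_inner_left.2 n2⟩ : H) ∈
            (ℝ ∙ (c j - f)).comap H.subtype := by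
          simp only [Sum.elim_inr] at h; rw [h]; trivial
        obtain ⟨t, ht⟩ := Submodule.mem_span_singleton.1 h1
        have h2 : ⟪n, n⟫ = 0 := by
          nth_rewrite 2 [show n = t • (c j - f) from ht.symm]
          rw [real_inner_smul_right, n3, mul_zero]
        rw [inner_self_eq_zero.1 h2, norm_zero] at n1
        exact zero_ne_one n1)
  refine ⟨(ℝ ∙ (n : V d))ᗮ.reflection, Submodule.reflection_mem_subspace_eq_self
    (Submodule.mem_orthogonal_singleton_iff_inner_left.2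
      (Submodule.mem_orthogonal_singleton_iff_inner_right.1 n.2)), fun j h => ?_⟩
  have h1 : ⟪(n : V d), c j⟫ ≠ 0 := fun e => hn (.inl j) (Submodule.mem_orthogonal_singleton_iff_inner_left.2 e)
  have h2 : (n : V d) ≠ 0 := fun e => h1 (by rw [e, inner_zero_left])
  refine hn (.inr (j, ⟨_, h⟩)) (Submodule.mem_span_singleton.2 ⟨(2 * (⟪(n : V d), c j⟫ / ‖(n : V d)‖ ^ 2))⁻¹, ?_⟩)
  have h3 := norm_ne_zero_iff.2 h2
  simp only [Submodule.reflection_orthogonal_apply, Submodule.reflection_singleton_apply, Submodule.subtype_apply,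
    sub_neg_eq_add, add_sub_cancel, RCLike.ofReal_real_eq_id, id]
  rw [two_smul, ← two_smul ℝ, smul_smul, smul_smul, mul_assoc, inv_mul_cancel₀ (by positivity), one_smul]

lemma rotA (hd : 3 ≤ d) (y z : V d) {J : Type} [Finite J] (P : J → V d) (hc : ∀ j (t : ℝ), P j - y ≠ t • (z - y))
    {F : Set (V d)} (hF : F.Finite) :
    ∃ φ : V d → V d, (∀ a b, dist (φ a) (φ b) = dist a b) ∧ φ y = y ∧ φ z = z ∧ ∀ j, φ (P j) ∉ F := by
  obtain ⟨ρ, a, b⟩ := rot hd _ _ hc (hF.image (· - y))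
  refine ⟨fun x => y + ρ (x - y), fun a b => ?_, by simp, by simp only [a]; abel, fun j h => b j ⟨_, h, by simp⟩⟩
  rw [dist_add_left, LinearIsometryEquiv.dist_map, dist_sub_right]

lemma offax {y z P : V d} {r : ℝ} (h1 : dist y P = r) (h2 : dist z P = r) (h : dist y z < 2 * r) (t : ℝ) :
    P - y ≠ t • (z - y) := fun e => by
  rw [dist_comm, dist_eq_norm] at h h1 h2
  rw [show P - z = (t - 1) • (z - y) by rw [sub_smul, ← e]; module, norm_smul, Real.norm_eq_abs] at h2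
  rw [e, norm_smul, Real.norm_eq_abs] at h1
  have h0 := norm_nonneg (z - y)
  have h3 : ‖z - y‖ ≠ 0 := fun h3 => by rw [h3] at h1 h; linarith
  have h4 := sq_eq_sq_iff_abs_eq_abs _ _ |>.2 (mul_right_cancel₀ h3 (h1.trans h2.symm))
  rw [show t = 1 / 2 by linarith, abs_of_pos one_half_pos] at h1
  linarith

lemma infMid (hd : 3 ≤ d) (a c : V d) {r : ℝ} (h : dist a c < 2 * r) :
    Set.Infinite {w | dist a w = r ∧ dist w c = r} := fun hF => by
  obtain ⟨w, w1, w2⟩ := exMid hd a c h.le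
  obtain ⟨φ, p1, p2, p3, p4⟩ := rotA hd a c (fun _ : Unit => w)
    (fun _ => offax w1 ((dist_comm _ _).trans w2) h) hF
  exact p4 () ⟨by rw [← w1, ← p1 a w, p2], by rw [← w2, ← p1 w c, p3]⟩

lemma sph (hd : 3 ≤ d) (x : V d) : Set.Infinite {n : V d | ‖n‖ = 1 ∧ ⟪n, x⟫ = 0} := fun hF => by
  obtain ⟨n, n1, n2, -⟩ := exN hd x 0
  obtain ⟨ρ, a, b⟩ := rot hd x (fun _ : Unit => n) (fun _ t e => by
    have h2 : ⟪n, n⟫ = 0 := by
      nth_rewrite 2 [e]
      rw [real_inner_smul_right, n2, mul_zero]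
    rw [inner_self_eq_zero.1 h2, norm_zero] at n1
    exact zero_ne_one n1) hF
  exact b () ⟨by rw [ρ.norm_map, n1], by rw [← n2, ← ρ.inner_map_map n x, a]⟩

lemma av {W : Set (V d)} (hW : W.Infinite) {J : Type} [Finite J] (α : J → ℝ) (v : J → V d) (h1 : ∀ j, α j ≠ 0)
    (h2 : ∀ j k, α j = α k → v j = v k → j = k) {P : (J → V d) → Prop}
    (h : ∀ w ∈ W, P fun j => α j • w + v j) : Av P := fun F hF => by
  have f1 : (⋃ j, (fun w => α j • w + v j) ⁻¹' F).Finite := Set.finite_iUnion fun j =>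
    hF.preimage fun a _ b _ e => smul_right_injective _ (h1 j) (add_right_cancel e)
  have f2 : (Set.range fun x : J × J => (α x.1 - α x.2)⁻¹ • (v x.2 - v x.1)).Finite := Set.finite_range _
  obtain ⟨w, a, b⟩ := hW.exists_notMem_finite (f1.union f2)
  refine ⟨_, h w a, fun j k e => ?_, fun j e => b (.inl (Set.mem_iUnion.2 ⟨j, e⟩))⟩
  by_cases e' : α j = α k
  · simp only [e'] at e
    exact h2 j k e' (add_left_cancel e)
  · refine (b (.inr ⟨(j, k), ?_⟩)).elim
    simp only at e ⊢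
    rw [show v k - v j = (α j - α k) • w by linear_combination (norm := module) - e, smul_smul,
      inv_mul_cancel₀ (sub_ne_zero.2 e'), one_smul]

end Pool.Agent.H4.UL
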