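import Pool.Agent.H4.UL4

set_option autoImplicit false
set_option linter.unusedSectionVars false

namespace Pool.Agent.H4.UL

open RealInnerProductSpace Sum Function

variable {d : ℕ}

lemma linkK (hd : 3 ≤ d) {r s L : ℝ} (h1 : Dk (V d) r) (h2 : Dk (V d) s) (hr : 0 ≤ r) (hs : 0 < s) (hL : 0 ≤ L)
    (h : d * L ^ 2 = 4 * d * r ^ 2 - 2 * s ^ 2 * (d - 1)) : Lq (V d) L := fun ι a b => by
  have h3 : (3 : ℝ) ≤ d := by exact_mod_cast hd
  have hd0 : (d : ℝ) ≠ 0 := by positivity
  refine (K.ex (κ0 := Fin d) ((K.all fun k : Fin d => h1 _ (inl a) (inr k)).and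
    ((K.all fun k : Fin d => h1 _ (inl b) (inr k)).and (K.all fun j : Fin d => K.all fun k : Fin d =>
      K.imp (P := j ≠ k) (h2 _ (inr j) (inr k)))))).mono (fun p ⟨q, a1, a2, a3⟩ => ?_) fun p e F hF => ?_
  · refine (L1 q hs.ne' a1 a2 a3).imp id fun e => ?_
    exact (pow_left_inj₀ dist_nonneg hL two_ne_zero).1 (mul_left_cancel₀ hd0 (e.trans h.symm))
  · obtain ⟨P, a1, a2, a3⟩ := L2 hd (y := p a) (z := p b) hr hs.le (by rw [e]; exact h)
    have hL2 : L < 2 * r := by
      refine lt_of_pow_lt_pow_left₀ 2 (by linarith) (lt_of_mul_lt_mul_left ?_ (by linarith : (0 : ℝ) ≤ d))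
      have : 0 < s ^ 2 * (d - 1) := mul_pos (by positivity) (by linarith)
      linarith
    obtain ⟨φ, p1, p2, p3, p4⟩ := rotA hd (p a) (p b) P (fun k => offax (a1 k) (a2 k) (e ▸ hL2)) hF
    refine ⟨fun k => φ (P k), ⟨fun k => ?_, fun k => ?_, fun j k hjk => (p1 _ _).trans (a3 j k hjk)⟩,
      fun j k e => by_contra fun hjk => ?_, p4⟩
    · show dist (p a) (φ (P k)) = r
      rw [← a1 k, ← p1 (p a) (P k), p2]
    · show dist (p b) (φ (P k)) = r
      rw [← a2 k, ← p1 (p b) (P k), p3]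
    · have := (p1 _ _).trans (a3 j k hjk)
      simp only at e
      rw [e, dist_self] at this
      exact hs.ne this

lemma spindleK (hd : 3 ≤ d) {L : ℝ} (h : Lq (V d) L) (h1 : 1 < L) : Dk (V d) L := fun ι a b => by
  refine (K.ex (κ0 := Unit) ((h _ (inl a) (inl b)).and ((h _ (inl a) (inr ())).and
    (K.base (inl b) (inr ()))))).mono (fun p ⟨q, a1, a2, a3⟩ => ?_) fun p e F hF => ?_
  · simp only [elim_inl, elim_inr] at a1 a2 a3
    rcases a1 with a1 | a1
    · rw [← a1] at a3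
      rcases a2 with a2 | a2
      · rw [← a2] at a3; simp at a3
      · linarith
    · exact a1
  · let z : V d := EuclideanSpace.single ⟨0, by omega⟩ 1
    have hz : dist 0 z = 1 := by simp [z]
    obtain ⟨w, w1, w2⟩ := exMid hd 0 z (r := L) (by linarith)
    obtain ⟨φ, p1, p2, p3⟩ := hom2 (y := w) (z := 0) (y' := p a) (z' := p b) (by rw [dist_comm, w1, e])
    have b1 : dist (p a) (φ z) = L := by rw [← p2, p1, w2]
    have b2 : dist (p b) (φ z) = 1 := by rw [← p3, p1, hz]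
    obtain ⟨ψ, q1, q2, q3, q4⟩ := rotA hd (p a) (p b) (fun _ : Unit => φ z) (fun _ t ht => by
      rw [dist_comm, dist_eq_norm] at b1 b2 e
      rw [show φ z - p b = (t - 1) • (p b - p a) by rw [sub_smul, ← ht]; module, norm_smul, Real.norm_eq_abs, e] at b2
      rw [ht, norm_smul, Real.norm_eq_abs, e] at b1
      have : |t| = 1 := mul_right_cancel₀ (by linarith : L ≠ 0) (by linarith)
      rcases abs_eq zero_le_one |>.1 this with rfl | rfl
      · simp at b2
      · norm_num at b2; linarith) hF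
    refine ⟨fun _ => ψ (φ z), ⟨e, ?_, ?_⟩, fun _ _ _ => rfl, q4⟩
    · show dist (p a) (ψ (φ z)) = L
      rw [← b1, ← q1 (p a) (φ z), q2]
    · show dist (p b) (ψ (φ z)) = 1
      rw [← b2, ← q1 (p b) (φ z), q3]

lemma rodsK (hd : 3 ≤ d) : Lq (V d) (uu d) ∧ Dk (V d) ((d + 1) * uu d) := by
  have h3 : (3 : ℝ) ≤ d := by exact_mod_cast hd
  have hu := uu_pos hd
  have e0 : d * uu d = 2 := by unfold uu; field_simp
  have h0 : 1 < (d + 1) * uu d := by nlinarith
  obtain ⟨k, k0, hk⟩ : ∃ k : ℝ, 1 < k ∧ k ^ 2 = (d + 1) * uu d :=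
    ⟨√((d + 1) * uu d), Real.lt_sqrt_of_sq_lt (by linarith), Real.sq_sqrt (by linarith)⟩
  have D1 : Dk (V d) 1 := fun ι a b => K.base a b
  have D2 : Dk (V d) k := spindleK hd (linkK hd D1 D1 zero_le_one one_pos (by linarith)
    (by rw [hk]; linear_combination (d + 1) * e0)) k0
  refine ⟨linkK hd D1 D2 zero_le_one (by linarith) hu.le ?_,
    spindleK hd (linkK hd D2 D2 (by linarith) (by linarith) (by linarith) ?_) h0⟩
  · rw [hk]; unfold uu; field_simp; ring
  · rw [hk]; unfold uu; field_simp; ring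

lemma rod (hd : 3 ≤ d) {ι : Type} (c : ℕ → ι) : K (X := V d)
    (fun p => p (c 1) - p (c 0) = p (c 2) - p (c 1) ∧ dist (p (c 0)) (p (c 1)) = uu d)
    fun p => ∃ a x, ‖x‖ = uu d ∧ ∀ i ≤ d + 1, p (c i) = a + (i : ℝ) • x := by
  obtain ⟨h1, h2⟩ := rodsK hd
  have hu := uu_pos hd
  refine ((K.all fun i : Fin (d + 1) => h1 ι (c i) (c (i + 1))).and (h2 ι (c 0) (c (d + 1)))).mono
    (fun p ⟨a1, a2⟩ => ?_) fun p ⟨a, x, e1, e2⟩ => ⟨fun i => ?_, ?_⟩
  · have b1 : ∀ i < d + 1, dist (p (c i)) (p (c (i + 1))) ≤ uu d := fun i hi => by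
      rcases a1 ⟨i, hi⟩ with e | e
      · simp only at e; rw [e, dist_self]; exact hu.le
      · exact e.le
    have b2 : ∀ k, k + 2 ≤ d + 1 → dist (p (c 2)) (p (c (k + 2))) ≤ k * uu d := fun k hk => by
      induction k with
      | zero => simp
      | succ k ih =>
        have := dist_triangle (p (c 2)) (p (c (k + 2))) (p (c (k + 2 + 1)))
        have := ih (by omega)
        have := b1 (k + 2) (by omega)
        push_cast; rw [show k + 1 + 2 = k + 2 + 1 by omega]; linarith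
    obtain ⟨k, rfl⟩ : ∃ k, d = k + 1 := ⟨d - 1, by omega⟩
    have b3 := b2 k le_rfl
    have b4 := b1 0 (by omega)
    have b5 := b1 1 (by omega)
    have b6 := dist_triangle (p (c 0)) (p (c 2)) (p (c (k + 2)))
    have b7 := dist_triangle (p (c 0)) (p (c 1)) (p (c 2))
    push_cast at a2
    norm_num at b4 b5
    rw [show k + 1 + 1 = k + 2 by omega] at a2
    refine ⟨par_eq (r := uu (k + 1)) ?_ ?_ ?_, by linarith⟩
    · rw [← dist_eq_norm, dist_comm]; linarith
    · rw [← dist_eq_norm, dist_comm]; linarith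
    · rw [show p (c 1) - p (c 0) + (p (c 2) - p (c 1)) = p (c 2) - p (c 0) by abel, ← dist_eq_norm, dist_comm]
      linarith
  · rw [e2 _ (by omega), e2 _ (by omega), dist_comm, dist_eq_norm, ← e1]
    congr 1; push_cast; module
  · rw [e2 _ (by omega), e2 _ le_rfl, dist_comm, dist_eq_norm,
      show a + ((d + 1 : ℕ) : ℝ) • x - (a + ((0 : ℕ) : ℝ) • x) = ((d : ℝ) + 1) • x by push_cast; module,
      norm_smul, e1, Real.norm_of_nonneg (by positivity)]

lemma par0K (hd : 3 ≤ d) {ι : Type} (r r' : ℕ → ι) : K (X := V d)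
    (fun p => p (r' 2) - p (r 2) = p (r' 0) - p (r 0)) fun p => ∃ a x s, ‖x‖ = uu d ∧ ‖s‖ = 1 ∧
      ∀ i ≤ d + 1, p (r i) = a + (i : ℝ) • x ∧ p (r' i) = a + s + (i : ℝ) • x := by
  refine ((rod hd r).and ((rod hd r').and (K.all fun i : Fin 3 => K.base (r i) (r' i)))).mono
      (fun p ⟨⟨a1, _⟩, ⟨a2, _⟩, a3⟩ => ?_) fun p ⟨a, x, s, e1, e2, e3⟩ =>
        ⟨⟨a, x, e1, fun i hi => (e3 i hi).1⟩, ⟨a + s, x, e1, fun i hi => (e3 i hi).2⟩, fun i => ?_⟩
  · have a4 : dist (p (r 0)) (p (r' 0)) = 1 := a3 0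
    have a5 : dist (p (r 1)) (p (r' 1)) = 1 := a3 1
    have a6 : dist (p (r 2)) (p (r' 2)) = 1 := a3 2
    rw [dist_comm, dist_eq_norm] at a4 a5 a6
    refine par_eq a6.le a4.le ?_
    rw [show p (r' 2) - p (r 2) + (p (r' 0) - p (r 0)) = (2 : ℝ) • (p (r' 1) - p (r 1)) by
      linear_combination (norm := module) a1 - a2, norm_smul, a5, Real.norm_ofNat]
  · rw [(e3 i (by omega)).1, (e3 i (by omega)).2, dist_add_right, dist_self_add_right, e2]

lemma par1K (hd : 3 ≤ d) : K4 (X := V d) (fun a c a' c' => c' - c = a' - a)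
    fun a c a' c' => a ≠ c ∧ dist a c ≤ 2 * uu d ∧ dist a a' = 1 ∧ c' - c = a' - a := fun ι a c a' c' => by
  have hu := uu_pos hd
  have hu' := uu_le hd
  let J := Bool × (Fin (d + 1) ⊕ Option (Fin (d + 1)))
  let r1 : Bool → ℕ → ι ⊕ J := fun b i => match i with
    | 0 => inl (bif b then a' else a)
    | i + 1 => inr (b, inl (Fin.ofNat _ i))
  let r2 : Bool → ℕ → ι ⊕ J := fun b i => match i with
    | 0 => inr (b, inl (Fin.ofNat _ 1))
    | 1 => inr (b, inr none)
    | 2 => inl (bif b then c' else c)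
    | i + 3 => inr (b, inr (some (Fin.ofNat _ i)))
  refine (K.ex ((par0K hd (r1 false) (r1 true)).and (par0K hd (r2 false) (r2 true)))).mono
    (fun p ⟨q, a1, a2⟩ => a2.trans a1) fun p ⟨e0, e1, e2, e3⟩ => ?_
  obtain ⟨s, hs⟩ : ∃ s, s = p a' - p a := ⟨_, rfl⟩
  have s1 : ‖s‖ = 1 := by rw [hs, ← dist_eq_norm, dist_comm, e2]
  have s2 : p a' = p a + s := by rw [hs]; abel
  have s3 : p c' = p c + s := by rw [hs, ← e3]; abel
  have s0 : s ≠ 0 := fun h => by simp [h] at s1
  have s4 : ∀ t : ℝ, t = 0 ∨ t = 1 ∨ t = -1 → p c - p a ≠ (2 * t) • s := fun t ht h => by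
    rw [dist_comm, dist_eq_norm, h, norm_smul, s1] at e1
    rcases ht with rfl | rfl | rfl
    · exact e0 (by rw [mul_zero, zero_smul, sub_eq_zero] at h; exact h.symm)
    · norm_num at e1; linarith
    · norm_num at e1; linarith
  refine av (infMid hd (p a) (p c) (r := 2 * uu d) (by linarith)) (J := J)
    (fun j => Sum.elim (fun i : Fin (d + 1) => ((i.val + 1) / 2 : ℝ))
      (fun o : Option (Fin (d + 1)) => o.elim (1 / 2 : ℝ) fun i => -((i.val + 1) / 2)) j.2)
    (fun j => Sum.elim (fun i : Fin (d + 1) => (1 - (i.val + 1) / 2 : ℝ) • p a)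
      (fun o : Option (Fin (d + 1)) => o.elim ((1 / 2 : ℝ) • p c)
      fun i => ((i.val + 3) / 2 : ℝ) • p c) j.2 + (bif j.1 then 1 else 0 : ℝ) • s) ?_ ?_ fun w ⟨w1, w2⟩ => ⟨?_, ?_⟩
  · rintro ⟨b, i | _ | i⟩
    · show (((i : ℕ) : ℝ) + 1) / 2 ≠ 0
      positivity
    · exact one_half_pos.ne'
    · exact neg_ne_zero.2 (by positivity)
  · have hb : ∀ b b' : Bool, (bif b then 1 else 0 : ℝ) • s = (bif b' then 1 else 0 : ℝ) • s → b = b' := by
      rintro (_ | _) (_ | _) <;> simp [s0, s0.symm]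
    have hb' : ∀ b b' : Bool, (bif b then 1 else 0 : ℝ) - (bif b' then 1 else 0) = 0 ∨
      (bif b then 1 else 0 : ℝ) - (bif b' then 1 else 0) = 1 ∨
      (bif b then 1 else 0 : ℝ) - (bif b' then 1 else 0) = -1 := by
      rintro (_ | _) (_ | _) <;> simp
    have hi : ∀ i : ℕ, (0 : ℝ) ≤ i := fun i => Nat.cast_nonneg i
    rintro ⟨b, i | _ | i⟩ ⟨b', i' | _ | i'⟩ h h' <;> simp only [elim_inl, elim_inr, Option.elim] at h h'
    · obtain rfl : i = i' := Fin.ext (by exact_mod_cast (by linarith : ((i : ℕ) : ℝ) = (i' : ℕ)))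
      rw [hb b b' (add_left_cancel h')]
    · rw [h] at h'
      exact (s4 _ (hb' b b') (by linear_combination (norm := module) (-2 : ℝ) • h')).elim
    · linarith [hi i, hi i']
    · rw [← h] at h'
      exact (s4 _ (hb' b' b) (by linear_combination (norm := module) (2 : ℝ) • h')).elim
    · rw [hb b b' (add_left_cancel h')]
    · linarith [hi i']
    · linarith [hi i, hi i']
    · linarith [hi i]
    · obtain rfl : i = i' := Fin.ext (by exact_mod_cast (by linarith : ((i : ℕ) : ℝ) = (i' : ℕ)))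
      rw [hb b b' (add_left_cancel h')]
  · refine ⟨p a, (1 / 2 : ℝ) • (w - p a), s, ?_, s1, fun i hi => ?_⟩
    · rw [norm_smul, ← dist_eq_norm, dist_comm, w1]; norm_num; ring
    · rcases i with _ | i
      · simp [r1, s2]
      · simp only [r1, elim_inl, elim_inr, Fin.val_ofNat, Nat.mod_eq_of_lt (by omega : i < d + 1), cond_true,
          cond_false]
        push_cast
        constructor <;> module
  · refine ⟨w, (1 / 2 : ℝ) • (p c - w), s, ?_, s1, fun i hi => ?_⟩
    · rw [norm_smul, ← dist_eq_norm, dist_comm, w2]; norm_num; ring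
    · rcases i with _ | _ | _ | i
      · simp only [r2, elim_inl, elim_inr, Fin.val_ofNat, Nat.mod_eq_of_lt (by omega : 1 < d + 1), cond_true,
          cond_false]
        push_cast
        constructor <;> module
      · simp only [r2, elim_inl, elim_inr, cond_true, cond_false, Option.elim]
        push_cast
        constructor <;> module
      · simp only [r2, elim_inl, elim_inr, cond_true, cond_false, s3]
        push_cast
        constructor <;> module
      · simp only [r2, elim_inl, elim_inr, Fin.val_ofNat, Nat.mod_eq_of_lt (by omega : i < d + 1), cond_true,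
          cond_false, Option.elim]
        push_cast
        constructor <;> module

lemma parK (hd : 3 ≤ d) : K4 (X := V d) (fun a c a' c' => c' - c = a' - a)
    fun a c a' c' => a ≠ c ∧ dist a c ≤ 2 * uu d ∧ dist a a' < 2 ∧ c' - c = a' - a := fun ι a c a' c' => by
  refine (K.ex (κ0 := Fin 2) ((par1K hd _ (inl a) (inl c) (inr 0) (inr 1)).and
    (par1K hd _ (inr 0) (inr 1) (inl a') (inl c')))).mono (fun p ⟨q, a1, a2⟩ => ?_) fun p ⟨e0, e1, e2, e3⟩ => ?_
  · simp only [elim_inl, elim_inr] at a1 a2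
    linear_combination (norm := module) a1 + a2
  have h0 : p c - p a ≠ 0 := sub_ne_zero.2 e0.symm
  refine av (infMid hd (p a) (p a') (r := 1) (by linarith)) (fun _ => 1) ![0, p c - p a] (fun _ => one_ne_zero)
    (fun j k _ h => ?_) fun w ⟨w1, w2⟩ => ?_
  · fin_cases j <;> fin_cases k <;> simp [h0, h0.symm] at h ⊢
  · simp only [elim_inl, elim_inr, one_smul, Matrix.cons_val_zero, Matrix.cons_val_one, add_zero]
    refine ⟨⟨e0, e1, w1, by abel⟩, by simpa using h0, ?_, w2, by linear_combination (norm := module) e3⟩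
    rwa [dist_self_add_right, ← dist_eq_norm, dist_comm]

lemma orthK (hd : 3 ≤ d) : K4 (X := V d) (fun p q r s => ⟪p - q, r - s⟫ = 0) fun p q r s =>
    (‖p‖ ≤ uu d ∧ ‖q‖ ≤ uu d ∧ ‖r‖ ≤ uu d ∧ ‖s‖ ≤ uu d) ∧ p ≠ q ∧ r ≠ s ∧ ⟪p - q, r - s⟫ = 0 := fun ι a b c e => by
  refine (K.ex (κ0 := Fin 5) ((parK hd _ (inl b) (inl a) (inr 1) (inr 0)).and
    ((parK hd _ (inl e) (inl c) (inr 3) (inr 0)).and ((parK hd _ (inl e) (inl c) (inr 2) (inr 1)).and
    (K.all fun i : Fin 4 => K.base (inr 4) (inr i.castSucc)))))).mono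
      (fun p ⟨q, a1, a2, a3, a4⟩ => ?_) fun p ⟨⟨n1, n2, n3, n4⟩, e1, e2, e4⟩ => ?_
  · simp only [elim_inl, elim_inr] at a1 a2 a3 a4
    have hb : ∀ (i : Fin 4) v, q i.castSucc - q 4 = v → ⟪v, v⟫ = 1 := fun i v h => by
      rw [real_inner_self_eq_norm_sq, ← h, ← dist_eq_norm, dist_comm, a4, one_pow]
    have b1 := hb 1 (q 1 - q 4) rfl
    have b0 := hb 0 (q 1 - q 4 + (p a - p b)) (show q 0 - _ = _ by linear_combination (norm := module) a1)
    have b2 := hb 2 (q 1 - q 4 - (p c - p e)) (show q 2 - _ = _ by linear_combination (norm := module) - a3)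
    have b3 := hb 3 (q 1 - q 4 + (p a - p b) - (p c - p e))
      (show q 3 - _ = _ by linear_combination (norm := module) a1 - a2)
    show ⟪p a - p b, p c - p e⟫ = 0
    generalize q 1 - q 4 = w, p a - p b = x, p c - p e = y at b0 b1 b2 b3 ⊢
    have := real_inner_comm w x
    have := real_inner_comm w y
    have := real_inner_comm x y
    simp only [inner_add_left, inner_add_right, inner_sub_left, inner_sub_right] at *
    linarith
  · have hu := uu_pos hd
    have hu' := uu_le hd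
    obtain ⟨n, m1, m2, m3⟩ := exN hd (p a - p b) (p c - p e)
    have i1 : dist (p b) (p a) ≤ 2 * uu d := by linarith [dist_le_norm_add_norm (p b) (p a)]
    have i2 : dist (p e) (p c) ≤ 2 * uu d := by linarith [dist_le_norm_add_norm (p e) (p c)]
    obtain ⟨x, hx⟩ : ∃ x, p a - p b = x := ⟨_, rfl⟩
    obtain ⟨y, hy⟩ : ∃ y, p c - p e = y := ⟨_, rfl⟩
    have i3 : ‖x‖ ≤ 2 * uu d := by rwa [← hx, ← dist_eq_norm, dist_comm]
    have i4 : ‖y‖ ≤ 2 * uu d := by rwa [← hy, ← dist_eq_norm, dist_comm]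
    have x0 : ‖x‖ ^ 2 ≠ 0 := pow_ne_zero _ (norm_ne_zero_iff.2 (hx ▸ sub_ne_zero.2 e1))
    have y0 : ‖y‖ ^ 2 ≠ 0 := pow_ne_zero _ (norm_ne_zero_iff.2 (hy ▸ sub_ne_zero.2 e2))
    rw [hx] at e4 m2
    rw [hy] at e4 m3
    have h3 : 0 ≤ 1 - ‖x‖ ^ 2 / 4 - ‖y‖ ^ 2 / 4 := by nlinarith [norm_nonneg x, norm_nonneg y]
    have h4 := Real.sq_sqrt h3
    generalize √(1 - ‖x‖ ^ 2 / 4 - ‖y‖ ^ 2 / 4) = l at h4
    have h5 : ⟪n, n⟫ = 1 := by rw [real_inner_self_eq_norm_sq, m1]; norm_num
    have h6 := real_inner_self_eq_norm_sq x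
    have h6' := real_inner_self_eq_norm_sq y
    have h7 : ⟪x, n⟫ = 0 := by rw [real_inner_comm, m2]
    have h8 : ⟪y, n⟫ = 0 := by rw [real_inner_comm, m3]
    have h9 : ⟪y, x⟫ = 0 := by rw [real_inner_comm, e4]
    let σ : Fin 5 → ℝ := ![1 / 2, -1 / 2, -1 / 2, 1 / 2, 0]
    let τ : Fin 5 → ℝ := ![1 / 2, 1 / 2, -1 / 2, -1 / 2, 0]
    let μ : Fin 5 → ℝ := ![l, l, l, l, 0]
    have hQ : ∀ i : Fin 4, ‖σ i.castSucc • x + τ i.castSucc • y + μ i.castSucc • n‖ = 1 := fun i => by
      refine nrm_eq zero_le_one ?_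
      simp only [inner_add_left, inner_add_right, real_inner_smul_left, real_inner_smul_right, m2, m3, h5, h6,
        h6', h7, h8, h9, e4]
      fin_cases i <;> simp [σ, τ, μ] <;> linarith
    refine av (sph hd 0) (fun _ => 1 / 4) (fun j => σ j • x + τ j • y + μ j • n) (fun _ => by norm_num)
      (fun j k _ h => ?_) fun w ⟨w1, _⟩ => ?_
    · have t1 := congrArg (fun v => ⟪v, x⟫) h
      have t2 := congrArg (fun v => ⟪v, y⟫) h
      simp only [inner_add_left, real_inner_smul_left, m2, m3, h6, h6', h9, e4, mul_zero, add_zero, zero_add,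
        mul_left_inj' x0, mul_left_inj' y0] at t1 t2
      have t := And.intro t1 t2
      fin_cases j <;> fin_cases k <;> first | rfl | (exfalso; norm_num [σ, τ] at t)
    · have hQ' : ∀ (z : V d) (i : Fin 4), ‖z‖ ≤ uu d →
          dist z ((1 / 4 : ℝ) • w + (σ i.castSucc • x + τ i.castSucc • y + μ i.castSucc • n)) < 2 := fun z i hz => by
        have := dist_le_norm_add_norm z ((1 / 4 : ℝ) • w + (σ i.castSucc • x + τ i.castSucc • y + μ i.castSucc • n))
        have := norm_add_le ((1 / 4 : ℝ) • w) (σ i.castSucc • x + τ i.castSucc • y + μ i.castSucc • n)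
        rw [hQ, norm_smul, w1] at this
        norm_num at this
        linarith
      refine ⟨⟨e1.symm, i1, hQ' _ 1 n2, ?_⟩, ⟨e2.symm, i2, hQ' _ 3 n4, ?_⟩, ⟨e2.symm, i2, hQ' _ 2 n4, ?_⟩,
        fun i => ?_⟩
      · simp only [elim_inl, elim_inr, σ, τ, μ, Matrix.cons_val]
        linear_combination (norm := module) - hx
      · simp only [elim_inl, elim_inr, σ, τ, μ, Matrix.cons_val]
        linear_combination (norm := module) - hy
      · simp only [elim_inl, elim_inr, σ, τ, μ, Matrix.cons_val]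
        linear_combination (norm := module) - hy
      · simp only [elim_inr, dist_add_left]
        rw [show σ 4 • x + τ 4 • y + μ 4 • n = 0 by simp [σ, τ, μ], dist_zero_left, hQ]

lemma duK (hd : 3 ≤ d) : Dk (V d) (uu d) := fun ι a b => by
  have hu := uu_pos hd
  let r : ℕ → ι ⊕ Fin (d + 2) := fun i => inr (Fin.ofNat _ i)
  refine (K.ex ((rod hd r).and (parK hd _ (r 0) (r 1) (inl a) (inl b)))).mono
    (fun p ⟨q, ⟨_, a1⟩, a2⟩ => ?_) fun p e => ?_
  · simp only [elim_inl] at a2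
    rw [← a1, dist_eq_norm, dist_eq_norm]
    congr 1
    linear_combination (norm := module) - a2
  · rw [dist_comm, dist_eq_norm] at e
    have x0 : p b - p a ≠ 0 := fun h => by rw [h, norm_zero] at e; exact hu.ne e
    refine av (sph hd 0) (fun _ => 1) (fun i : Fin (d + 2) => p a + (i.val : ℝ) • (p b - p a)) (fun _ => one_ne_zero)
      (fun j k _ h => Fin.ext (by exact_mod_cast smul_left_injective ℝ x0 (add_left_cancel h))) fun w ⟨w1, _⟩ => ?_
    have hr : ∀ i ≤ d + 1, Sum.elim p (fun j : Fin (d + 2) => (1 : ℝ) • w + (p a + ((j : ℕ) : ℝ) • (p b - p a))) (r i) =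
        w + p a + (i : ℝ) • (p b - p a) := fun i hi => by
      simp only [r, elim_inr, Fin.val_ofNat, Nat.mod_eq_of_lt (by omega : i < d + 2), one_smul, add_assoc]
    refine ⟨⟨_, _, e, hr⟩, ?_⟩
    rw [hr 0 (by omega), hr 1 (by omega)]
    simp only [elim_inl, Nat.cast_zero, zero_smul, add_zero, Nat.cast_one, one_smul, dist_self_add_right,
      dist_add_self_left, e, w1]
    exact ⟨by simpa [sub_eq_zero, eq_comm] using x0, by linarith, by norm_num, by abel⟩

lemma half (hd : 3 ≤ d) {v : ℝ} (h : Dk (V d) v) (h0 : 0 < v) (h1 : v ≤ uu d) : Dk (V d) (v / 2) := fun ι a b => by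
  have hu' := uu_le hd
  have e : ∀ x y : V d, dist x (x + (2 : ℝ) • y) = 2 * ‖y‖ := fun x y => by
    rw [dist_self_add_right, norm_smul, Real.norm_ofNat]
  refine (K.ex (κ0 := Fin 3) ((h _ (inr 0) (inr 2)).and ((parK hd _ (inr 0) (inr 1) (inr 1) (inr 2)).and
    (parK hd _ (inr 0) (inr 1) (inl a) (inl b))))).mono (fun p ⟨q, a1, a2, a3⟩ => ?_) fun p e1 => ?_
  · simp only [elim_inl, elim_inr] at a1 a2 a3
    rw [show q 2 = q 0 + (2 : ℝ) • (p b - p a) by linear_combination (norm := module) a2 - (2 : ℝ) • a3, e] at a1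
    rw [dist_comm, dist_eq_norm]; linarith
  · rw [dist_comm, dist_eq_norm] at e1
    have x0 : p b - p a ≠ 0 := fun h => by rw [h, norm_zero] at e1; linarith
    refine av (sph hd 0) (fun _ => 1) (fun i : Fin 3 => p a + (i.val : ℝ) • (p b - p a)) (fun _ => one_ne_zero)
      (fun j k _ h => Fin.ext (by exact_mod_cast smul_left_injective ℝ x0 (add_left_cancel h))) fun w ⟨w1, _⟩ => ?_
    simp only [elim_inl, elim_inr, one_smul, Fin.val_zero, Fin.val_one, Fin.val_two, Nat.cast_zero, zero_smul,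
      add_zero, Nat.cast_one, Nat.cast_ofNat, dist_add_left, e, dist_self_add_right, dist_add_self_left, e1, w1]
    exact ⟨by ring, ⟨by simpa [sub_eq_zero, eq_comm] using x0, by linarith, by linarith, by module⟩, by simpa [sub_eq_zero, eq_comm] using x0, by linarith,
      by norm_num, by abel⟩

lemma dvK (hd : 3 ≤ d) : Dk (V d) (uu d / 2 / 2) :=
  half hd (half hd (duK hd) (uu_pos hd) le_rfl) (by linarith [uu_pos hd]) (by linarith [uu_pos hd])

end Pool.Agent.H4.UL
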