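import Pool.Agent.H4.UL5

set_option autoImplicit false
set_option linter.unusedSectionVars false

namespace Pool.Agent.H4.UL

open RealInnerProductSpace Sum Function

lemma K.map {X : Type} [MetricSpace X] {ι ι' : Type} {S C : (ι → X) → Prop} (h : K S C) (f : ι → ι') :
    K (fun p => S (p ∘ f)) fun p => C (p ∘ f) := by
  obtain ⟨κ, g, E, a, b⟩ := h
  have e1 : ∀ (p : ι' → X) (q : κ → X), Sum.elim p q ∘ Sum.map f id = Sum.elim (p ∘ f) q :=
    fun p q => by funext x; cases x <;> rfl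
  refine ⟨κ, g, E.map (Prod.map (Sum.map f id) (Sum.map f id)), fun p q h => ?_,
    fun p h => (b _ h).mono fun q hq => ?_⟩
  · rw [Rl_map, e1] at h
    exact a _ _ h
  · rwa [Rl_map, e1]

variable {n : ℕ}

noncomputable def vv (n : ℕ) : ℝ := uu (n + 3) / 2 / 2
noncomputable def ev (n : ℕ) : V (n + 3) := EuclideanSpace.single 0 (vv n)

lemma vv_pos : 0 < vv n := by have := uu_pos (d := n + 3) (by omega); unfold vv; positivity
lemma uu_vv : uu (n + 3) = 4 * vv n := by unfold vv; ring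
lemma ev_norm : ‖ev n‖ = vv n := by simpa [ev] using vv_pos.le
lemma ev_inner (x : V (n + 3)) : ⟪x, ev n⟫ = vv n * x 0 := by rw [ev, EuclideanSpace.inner_single_right]; simp

def c3 (n : ℕ) (x y z : ℝ) : Fin (n + 3) → ℝ := Fin.cons x (Fin.cons y (Fin.cons z fun _ => 0))

def MuS (p : Fin 5 → V (n + 3)) : Prop := ‖p 1 - p 0‖ = vv n ∧
  ⟪p 2 - p 0, p 1 - p 0⟫ * ⟪p 3 - p 0, p 1 - p 0⟫ + vv n ^ 2 * ⟪p 4 - p 0, p 1 - p 0⟫ + vv n ^ 4 = 0

def MuC (p : Fin 5 → V (n + 3)) : Prop := p 0 = 0 ∧ p 1 = ev n ∧ (∀ i, ‖p i‖ ≤ uu (n + 3)) ∧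
  ∃ α β : ℝ, |α| ≤ 1 ∧ |β| ≤ 1 ∧ p 2 0 = vv n * α ∧ p 3 0 = vv n * β ∧ p 4 0 = vv n * (-1 - α * β)

lemma mulK : K (MuS (n := n)) MuC := by
  have hd : 3 ≤ n + 3 := by omega
  have hv := vv_pos (n := n)
  let I := Fin 5 ⊕ Fin (n + 2) ⊕ Fin 3
  let o : I := inl 0
  let f : Fin (n + 3) → I := Fin.cons (inl 1) fun k => inr (inl k)
  let A : Fin 3 → I := fun k => inr (inr k)
  let k1 : Fin (n + 3) := Fin.succ 0
  let k2 : Fin (n + 3) := Fin.succ (Fin.succ 0)
  let tA : Fin (n + 3) → I := Fin.cons (inl 2) (Fin.cons (f k1) (Fin.cons (f k2) fun _ => o))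
  refine (K.ex ((K.all fun k => dvK hd I o (f k)).and
    ((K.all fun j => K.all fun k => K.imp (P := j ≠ k) (orthK hd I (f j) o (f k) o)).and
    ((K.all fun k => orthK hd I (A 0) (tA k) (f k) o).and ((orthK hd I (A 1) (inl 3) (f 0) o).and
    ((orthK hd I (A 1) (A 2) (f k1) o).and ((orthK hd I (A 1) (f k2) (f k2) o).and
    ((orthK hd I (A 2) (inl 4) (f 0) o).and ((orthK hd I (A 2) o (f 0) (f k1)).and
    (orthK hd I (A 0) o (A 1) o)))))))))).mono
    (fun p ⟨q, a1, a2, a3, a4, a5, a6, a7, a8, a9⟩ => ?_) fun p ⟨e0, e1, e2, α, β, e3, e4, e5, e6, e7⟩ => ?_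
  · obtain ⟨P, hP⟩ : ∃ P : I → V (n + 3), ∀ i, P i = Sum.elim p q i - p 0 := ⟨_, fun _ => rfl⟩
    have s : ∀ i j, Sum.elim p q i - Sum.elim p q j = P i - P j := fun i j => by rw [hP, hP]; abel
    have P0 : P o = 0 := by simp [hP, o]
    simp only [dist_comm (Sum.elim p q o), dist_eq_norm, s, P0, sub_zero] at a1 a2 a3 a4 a5 a6 a7 a8 a9
    have pa := pars (fun k => P (f k)) hv a1 a2 (P (A 0)) (P (A 1))
    simp only [inner_sub_left, inner_sub_right, sub_eq_zero] at a3 a4 a5 a6 a7 a8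
    have b : ∀ k, ⟪P (f k), P (f k)⟫ = vv n ^ 2 := fun k => by rw [real_inner_self_eq_norm_sq, a1]; rfl
    rw [Fin.sum_univ_succ, Fin.sum_univ_succ, Fin.sum_univ_succ] at pa
    simp only [a9, a3, tA, Fin.cons_zero, Fin.cons_succ, P0, inner_zero_left, zero_mul, Finset.sum_const_zero] at pa
    rw [a4, a5, a6, ← a8, a7, b, b] at pa
    have h1 : P (f 0) = p 1 - p 0 := hP _
    refine ⟨h1 ▸ a1 0, ?_⟩
    rw [h1, hP (inl 2), hP (inl 3), hP (inl 4)] at pa
    simp only [elim_inl] at pa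
    linear_combination -pa
  · let W : (Fin (n + 3) → ℝ) → V (n + 3) := fun γ => WithLp.toLp 2 fun k => vv n * γ k
    obtain ⟨μ, hμ⟩ : ∃ μ, μ = -1 - α * β := ⟨_, rfl⟩
    have hμ1 : |α * β| ≤ 1 := by rw [abs_mul]; exact mul_le_one₀ e3 (abs_nonneg _) e4
    rw [abs_le] at hμ1 e3 e4
    let γ : Fin (n + 2) ⊕ Fin 3 → Fin (n + 3) → ℝ := Sum.elim (fun k => Pi.single k.succ 1)
      ![c3 n α 1 1, c3 n β μ 1, c3 n μ μ (-1)]
    have k12 : k1 ≠ k2 := fun h => (Fin.succ_ne_zero _).symm (Fin.succ_injective _ h)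
    have hγ : Injective γ := by
      have t : ∀ (k : Fin (n + 2)) (j : Fin 3), γ (inl k) ≠ γ (inr j) := fun k j h => by
        have h0 := congrFun h 0
        have h1 := congrFun h k1
        have h2 := congrFun h k2
        simp only [γ, elim_inl, elim_inr, Pi.single_apply] at h0 h1 h2
        fin_cases j <;> simp only [c3, k1, k2, Fin.cons_succ, Fin.cons_zero, Matrix.cons_val, Fin.zero_eta,
          Fin.mk_one, Fin.reduceFinMk, if_neg (Fin.succ_ne_zero k).symm] at h0 h1 h2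
        · split_ifs at h1 h2 with a b
          · exact k12 (a.trans b.symm)
          all_goals linarith
        · rw [← h0] at hμ
          split_ifs at h1 <;> linarith
        · split_ifs at h2 <;> linarith
      rintro (j | j) (k | k) h
      · have := congrFun h j.succ
        simp only [γ, elim_inl, Pi.single_eq_same, Pi.single_apply, Fin.succ_inj] at this
        rw [show j = k by simpa using this]
      · exact (t _ _ h).elim
      · exact (t _ _ h.symm).elim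
      · have h1 := congrFun h k1
        have h2 := congrFun h k2
        fin_cases j <;> fin_cases k <;> first | rfl | (exfalso; simp only [γ, elim_inr, c3, k1, k2, Fin.cons_succ,
          Fin.cons_zero, Matrix.cons_val, Fin.zero_eta, Fin.mk_one, Fin.reduceFinMk] at h1 h2; linarith)
    have hW : Injective W := fun a b h => funext fun k =>
      mul_left_cancel₀ hv.ne' (congrArg (fun x : V (n + 3) => x k) h)
    have nW : ∀ x y z : ℝ, x ^ 2 + y ^ 2 + z ^ 2 ≤ 16 → ‖W (c3 n x y z)‖ ≤ uu (n + 3) := fun x y z h => by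
      refine (pow_le_pow_iff_left₀ (norm_nonneg _) (uu_pos hd).le two_ne_zero).1 ?_
      rw [EuclideanSpace.norm_sq_eq, uu_vv]
      simp only [W, c3, Fin.sum_univ_succ, Fin.cons_zero, Fin.cons_succ, Real.norm_eq_abs, sq_abs, mul_zero]
      simp only [ne_eq, OfNat.ofNat_ne_zero, not_false_eq_true, zero_pow, Finset.sum_const_zero]
      nlinarith [sq_nonneg (vv n)]
    have sW : ∀ k, W (Pi.single k 1) = EuclideanSpace.single k (vv n) := fun k => by
      ext i; simp [W, Pi.single_apply]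
    refine Av.str (Set.finite_range p) fun F hF => ?_
    obtain ⟨ρ, r1, r2⟩ := rot hd (ev n) (fun j => W (γ j)) (by
      rintro (k | j) t h
      · simpa [W, γ, ev, hv.ne'] using congrArg (fun x : V (n + 3) => x k.succ) h
      · have := congrArg (fun x : V (n + 3) => x k2) h
        fin_cases j <;> simp only [W, γ, elim_inr, c3, k2, Fin.cons_succ, Fin.cons_zero, Matrix.cons_val, Fin.zero_eta,
          Fin.mk_one, Fin.reduceFinMk, ev, PiLp.smul_apply, EuclideanSpace.single_apply,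
          if_neg (Fin.succ_ne_zero _), smul_zero] at this <;> linarith) hF
    refine ⟨fun j => ρ (W (γ j)), fun inj avo => ?_, ρ.injective.comp (hW.comp hγ), r2⟩
    obtain ⟨P, hP⟩ : ∃ P : I → V (n + 3), P = Sum.elim p fun j => ρ (W (γ j)) := ⟨_, rfl⟩
    let Q : I → V (n + 3) := fun i => ρ.symm (P i)
    have PQ : ∀ i, P i = ρ (Q i) := fun i => (ρ.apply_symm_apply _).symm
    have Qr : ∀ j, Q (inr j) = W (γ j) := fun j => by simp only [Q, hP, elim_inr, ρ.symm_apply_apply]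
    have Q0 : Q o = 0 := by simp only [Q, hP, o, elim_inl, e0, map_zero]
    have Qf : ∀ k, Q (f k) = EuclideanSpace.single k (vv n) := Fin.cases
      (by simp only [Q, hP, f, Fin.cons_zero, elim_inl, e1]; rw [← r1, ρ.symm_apply_apply]; rfl)
      fun k => (Qr (inl k)).trans (sW _)
    have Ql : ∀ t, Q (inl t) 0 = p t 0 := fun t => mul_left_cancel₀ hv.ne' (by
      rw [← ev_inner, ← ev_inner, ← ρ.inner_map_map, r1, ← PQ, hP]; rfl)
    have QA : Q (A 0) = W (c3 n α 1 1) ∧ Q (A 1) = W (c3 n β μ 1) ∧ Q (A 2) = W (c3 n μ μ (-1)) :=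
      ⟨Qr _, Qr _, Qr _⟩
    have hb : ∀ i, ‖P i‖ ≤ uu (n + 3) := by
      rintro (i | k | j)
      · rw [hP]; exact e2 i
      · rw [PQ, ρ.norm_map, show Q (inr (inl k)) = _ from Qf k.succ, uu_vv]
        simp [abs_of_pos hv]; linarith
      · rw [PQ, ρ.norm_map]
        fin_cases j
        · exact QA.1 ▸ nW _ _ _ (by nlinarith)
        · exact QA.2.1 ▸ nW _ _ _ (by nlinarith)
        · exact QA.2.2 ▸ nW _ _ _ (by nlinarith)
    have ne1 : ∀ j t, P (inr j) ≠ P (inl t) := fun j t h => by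
      rw [hP] at h
      exact avo j ⟨t, h.symm⟩
    have ne2 : ∀ j k, j ≠ k → P (inr j) ≠ P (inr k) := fun j k h h' => by
      rw [hP] at h'
      exact h (inj h')
    have ne3 : ∀ k, P (f k) ≠ P o := fun k h => by
      rw [PQ, PQ o, ρ.injective.eq_iff, Qf, Q0] at h
      simpa [hv.ne'] using congrArg (fun x : V (n + 3) => x k) h
    have ob : ∀ a b c e, P a ≠ P b → P c ≠ P e → ⟪Q a - Q b, Q c - Q e⟫ = 0 → (‖P a‖ ≤ uu (n + 3) ∧
        ‖P b‖ ≤ uu (n + 3) ∧ ‖P c‖ ≤ uu (n + 3) ∧ ‖P e‖ ≤ uu (n + 3)) ∧ P a ≠ P b ∧ P c ≠ P e ∧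
        ⟪P a - P b, P c - P e⟫ = 0 := fun a b c e h h' h'' =>
      ⟨⟨hb _, hb _, hb _, hb _⟩, h, h', by simp only [PQ, ← map_sub, ρ.inner_map_map, h'']⟩
    have ig : ∀ x k, ⟪x, Q (f k)⟫ = vv n * x k := fun x k => by
      rw [Qf, EuclideanSpace.inner_single_right]; simp
    have cs : ∀ (R : Fin (n + 3) → Prop), R 0 → R k1 → R k2 →
        (∀ k, R (Fin.succ (Fin.succ (Fin.succ k)))) → ∀ k, R k := fun Q a b c e =>
      Fin.cases a (Fin.cases b (Fin.cases c e))
    rw [← hP]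
    beta_reduce
    refine ⟨fun k => ?_, fun j k h => ob _ _ _ _ (ne3 _) (ne3 _) ?_, fun k => ob _ _ _ _ ?_ (ne3 _) ?_,
      ob _ _ _ _ (ne1 _ _) (ne3 _) ?_, ob _ _ _ _ (ne2 _ _ (by simp)) (ne3 _) ?_,
      ob _ _ _ _ (ne2 _ _ inr_ne_inl) (ne3 _) ?_, ob _ _ _ _ (ne1 _ _) (ne3 _) ?_,
      ob _ _ _ _ (ne1 _ _) (ne1 _ _).symm ?_, ob _ _ _ _ (ne1 _ _) (ne1 _ _) ?_⟩
    · rw [PQ, PQ (f k), ρ.dist_map, Q0, Qf, dist_zero_left]
      rw [EuclideanSpace.norm_single]; exact abs_of_pos hv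
    · rw [Q0, sub_zero, sub_zero, ig, Qf]; simp [h.symm]
    · revert k
      exact cs _ (ne1 _ _) (ne2 _ _ inr_ne_inl) (ne2 _ _ inr_ne_inl) fun k => ne1 _ _
    · rw [Q0, sub_zero, ig, QA.1]
      revert k
      refine cs _ ?_ ?_ ?_ fun k => ?_ <;>
        simp only [tA, W, c3, k1, k2, Ql, Qf, Q0, e5, Fin.cons_zero, Fin.cons_succ, PiLp.sub_apply,
          PiLp.zero_apply] <;> simp
    · rw [Q0, sub_zero, ig, QA.2.1]
      simp only [W, c3, Ql, e6, Fin.cons_zero, PiLp.sub_apply, sub_self, mul_zero]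
    · rw [Q0, sub_zero, ig, QA.2.1, QA.2.2]
      simp only [W, c3, k1, Fin.cons_zero, Fin.cons_succ, PiLp.sub_apply, sub_self, mul_zero]
    · rw [Q0, sub_zero, ig, QA.2.1, Qf]
      simp only [W, c3, k2, Fin.cons_zero, Fin.cons_succ, PiLp.sub_apply]; simp
    · rw [Q0, sub_zero, ig, QA.2.2]
      simp only [W, c3, Ql, e7, hμ, Fin.cons_zero, PiLp.sub_apply, sub_self, mul_zero]
    · rw [Q0, sub_zero, inner_sub_right, ig, ig, QA.2.2]
      simp only [W, c3, k1, Fin.cons_zero, Fin.cons_succ, sub_self]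
    · rw [Q0, sub_zero, sub_zero, QA.1, QA.2.1]
      simp only [W, c3, PiLp.inner_apply, Fin.sum_univ_succ, Fin.cons_zero, Fin.cons_succ, RCLike.inner_apply,
        conj_trivial, mul_zero, Finset.sum_const_zero, hμ]
      ring

def MC' (p : Fin 8 → V (n + 3)) : Prop := p 0 = 0 ∧ p 1 = ev n ∧ (∀ i, ‖p i‖ ≤ uu (n + 3)) ∧
  ∃ t : Fin 8 → ℝ, (∀ i, |t i| ≤ 1) ∧ (∀ i, p i 0 = vv n * t i) ∧ t 2 * t 3 + t 4 * t 5 - t 6 * t 7 = 0

lemma masterK : K (MS (d := n + 3)) MC' := by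
  have hd : 3 ≤ n + 3 := by omega
  have hv := vv_pos (n := n)
  have hu := uu_le hd
  have huv := uu_vv (n := n)
  refine (K.ex (κ0 := Fin 5) ((mulK.map ![inl 0, inl 1, inl 2, inl 3, inr 0]).and
    ((mulK.map ![inl 0, inl 1, inl 4, inl 5, inr 1]).and ((mulK.map ![inl 0, inl 1, inl 6, inl 7, inr 2]).and
    ((parK hd _ (inl 0) (inl 1) (inr 0) (inr 3)).and ((parK hd _ (inl 0) (inr 1) (inr 3) (inr 4)).and
    (orthK hd _ (inr 4) (inr 2) (inl 1) (inl 0)))))))).mono
    (fun p ⟨q, ⟨a0, a1⟩, ⟨_, a2⟩, ⟨_, a3⟩, a4, a5, a6⟩ => ?_) fun p ⟨e0, e1, e2, t, e3, e4, e5⟩ => ?_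
  · simp only [comp, Matrix.cons_val, elim_inl, elim_inr] at a0 a1 a2 a3 a4 a5 a6
    refine ⟨fun h => by rw [h, norm_zero] at a0; exact hv.ne a0, ?_⟩
    rw [show q 4 - q 2 = (q 0 - p 0) + (q 1 - p 0) + (p 1 - p 0) - (q 2 - p 0) by
      linear_combination (norm := module) a4 + a5, inner_sub_left, inner_add_left, inner_add_left,
      real_inner_self_eq_norm_sq, a0] at a6
    linear_combination a1 + a2 - a3 - vv n ^ 2 * a6
  · have hm : ∀ i j, |t i * t j| ≤ 1 := fun i j => by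
      rw [abs_mul]; exact mul_le_one₀ (e3 i) (abs_nonneg _) (e3 j)
    let α : Fin 5 → ℝ := ![vv n / 3, 2 * vv n / 3, -vv n / 3, vv n / 3, vv n]
    let μ : Fin 5 → ℝ := ![-1 - t 2 * t 3, -1 - t 4 * t 5, -1 - t 6 * t 7, -(t 2 * t 3), -1 - t 6 * t 7]
    have ev0 : ev n ≠ 0 := norm_ne_zero_iff.1 (by rw [ev_norm]; exact hv.ne')
    refine Av.str (Set.finite_range p) (av (sph hd (ev n)) α (fun j => μ j • ev n) (fun j => ?_)
      (fun j k h h' => ?_) fun w ⟨w1, w2⟩ inj avo => ?_)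
    · fin_cases j <;> simp [α, hv.ne']
    · have h' := smul_left_injective ℝ ev0 h'
      fin_cases j <;> fin_cases k <;> simp only [α, μ, Matrix.cons_val, Fin.zero_eta,
        Fin.mk_one, Fin.reduceFinMk] at h h' <;> first | rfl | linarith
    · have w0 : w 0 = 0 := by simpa [ev_inner, hv.ne'] using w2
      have q0 : ∀ j, (α j • w + μ j • ev n) 0 = vv n * μ j := fun j => by simp [w0, ev, mul_comm]
      have qn : ∀ j, ‖α j • w + μ j • ev n‖ ≤ uu (n + 3) := fun j => by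
        have := norm_add_le (α j • w) (μ j • ev n)
        rw [norm_smul, norm_smul, w1, ev_norm, Real.norm_eq_abs, Real.norm_eq_abs] at this
        have h1 : |α j| ≤ vv n := by
          fin_cases j <;> simp only [α, Matrix.cons_val, Fin.zero_eta, Fin.mk_one, Fin.reduceFinMk, abs_le] <;>
            constructor <;> linarith
        have h2 : |μ j| ≤ 2 := by
          have := hm 2 3; have := hm 4 5; have := hm 6 7
          fin_cases j <;> simp only [μ, Matrix.cons_val, Fin.zero_eta, Fin.mk_one, Fin.reduceFinMk, abs_le] at * <;>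
            constructor <;> linarith
        nlinarith
      have hb : ∀ i : Fin 8 ⊕ Fin 5, ‖Sum.elim p (fun j => α j • w + μ j • ev n) i‖ ≤ uu (n + 3) := by
        rintro (i | i)
        exacts [e2 i, qn i]
      refine ⟨⟨e0, e1, fun i => hb _, t 2, t 3, e3 _, e3 _, e4 2, e4 3, q0 0⟩,
        ⟨e0, e1, fun i => hb _, t 4, t 5, e3 _, e3 _, e4 4, e4 5, q0 1⟩,
        ⟨e0, e1, fun i => hb _, t 6, t 7, e3 _, e3 _, e4 6, e4 7, q0 2⟩, ⟨?_, ?_, ?_, ?_⟩,
        ⟨fun h => avo 1 ⟨0, h⟩, ?_, ?_, ?_⟩, ⟨qn 4, qn 2, e2 1, e2 0⟩, fun h => absurd (inj h) (by decide), ?_, ?_⟩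
      all_goals simp only [elim_inl, elim_inr, e0, e1, dist_zero_left, sub_zero]
      · exact ev0.symm
      · rw [ev_norm]; linarith
      · linarith [qn 0]
      · simp only [α, μ, Matrix.cons_val]; module
      · linarith [qn 1]
      · linarith [qn 3]
      · simp only [α, μ, Matrix.cons_val]
        linear_combination (norm := module) e5 • ev n
      · exact ev0
      · rw [inner_sub_left, ev_inner, ev_inner, q0, q0]
        simp only [μ, Matrix.cons_val, sub_self]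

end Pool.Agent.H4.UL
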